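import Pool.Agent.Lib.MP_0c2883_lc.All.AlgD

/-!
# ALG: one step of the algorithm in polynomial time
-/

set_option autoImplicit false

namespace Pool.Agent.Lib.MP_0c2883_lc.All.Alg

open Pool.Agent.Lib.PolyTime List
open FreeGroup (invRev)

variable {M : ℕ}

/-- A polynomial time action which achieves `Post` on words with property `Q`. -/
def HasAct (Q : List (Letter M) → Prop) : Prop :=
  ∃ act : Gram M × ℕ → Gram M × ℕ, PT act ∧ ∀ z, GI z → CR (wd z) → wd z ≠ [] → Q (wd z) →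
    GI (act z) ∧ Post (wd z) (wd (act z))

section acts

variable (hSl : SlideStmt) (hOf : OfStmt) (hOfS : OfSlideStmt) (hConj : ConjStmt)
include hSl hOf hOfS hConj

theorem act_merge (hSig : SigStmt) (hSigOp : SigOpStmt) (c a : Letter M) :
    HasAct (QMerge c a) := by
  obtain ⟨f, hf, hf2⟩ := (hSig M (fun y => decide (y = c))).2 [a]
  refine ⟨f, hf, fun z hz hcr hne hQ => ?_⟩
  obtain ⟨h1, h2, h3⟩ := hf2 z hz
  have hO := QMerge.facts hQ
  refine ⟨h1, post_merge hSl hOf hOfS hcr hne hQ ?_⟩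
  exact hConj M _ _ h2 (hSl M _ _ a hcr hO).1 (h3.trans (hSigOp.1 M _ _ a hcr hO).symm)

theorem act_loop (hSig : SigStmt) (hSigOp : SigOpStmt) (C : Letter M → Bool) (a : Letter M) :
    HasAct (QLoop C a) := by
  obtain ⟨f, hf, hf2⟩ := (hSig M C).2 [a]
  refine ⟨f, hf, fun z hz hcr hne hQ => ?_⟩
  obtain ⟨h1, h2, h3⟩ := hf2 z hz
  have hO := hQ.2.1.ok
  refine ⟨h1, post_loop hSl hOf hOfS hcr hne hQ ?_⟩
  exact hConj M _ _ h2 (hSl M _ _ a hcr hO).1 (h3.trans (hSigOp.1 M _ _ a hcr hO).symm)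

omit hSl hOfS in
theorem act_split (hSp : SplitStmt) (hOfP : OfSplitStmt) (hSig : SigStmt) (hSigOp : SigOpStmt)
    (C : Letter M → Bool) (a g : Letter M) : HasAct (QSplit C a g) := by
  obtain ⟨f, hf, hf2⟩ := (hSig M C).2 [a, linv g]
  refine ⟨f, hf, fun z hz hcr hne hQ => ?_⟩
  obtain ⟨h1, h2, h3⟩ := hf2 z hz
  obtain ⟨hO, h4, h5, h6⟩ := QSplit.facts hQ
  have h7 := hQ.2.2.2.2.2
  refine ⟨h1, post_split hSp hOf hOfP hcr hne hQ ?_⟩
  exact hConj M _ _ h2 (hSp M _ _ a g hcr hO h7 h4 h5 h6).1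
    (h3.trans (hSigOp.2 M _ _ a g hcr hO h7 h4 h5 h6).symm)

omit hConj in
theorem act_acc (hSrch : SearchStmt) (hRot : RotStmt) (C : Letter M → Bool) (a c : Letter M) :
    HasAct (fun w => C c = true ∧ QAcc C a (linv c) a w) := by
  obtain ⟨S, hS, hS2⟩ := hSrch M C
  obtain ⟨R, hR, hR2⟩ := (hRot M).1 (linv c) a
  refine ⟨fun z => S (R z), hS.comp hR, fun z hz hcr hne hQ => ?_⟩
  obtain ⟨hc, hQ⟩ := hQ
  obtain ⟨h1, h2, h3, h4⟩ := hR2 z hz hQ.2.2.2.2.2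
  have hcr' := Ops.cr_rot h2.symm hcr
  have hO' := Ops.ok_rot h2.symm hQ.2.1.ok
  obtain ⟨h5, -, p, h6, h7⟩ := hS2 (R z) a (linv c) h1 hcr' hO' h4 h3 (by rwa [linv_linv])
  exact ⟨h5, post_acc hSl hOf hOfS hcr hQ h2 h6 h7⟩

omit hConj in
theorem act_acc' (hSrch : SearchStmt) (hRot : RotStmt) (C : Letter M → Bool) (a c : Letter M) :
    HasAct (fun w => C c = true ∧ QAcc C a (linv a) c w) := by
  obtain ⟨A, hA, hA2⟩ := act_acc hSl hOf hOfS hSrch hRot C a c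
  obtain ⟨I, hI, hI2⟩ := (hRot M).2
  refine ⟨fun z => I (A (I z)), hI.comp (hA.comp hI), fun z hz hcr hne hQ => ?_⟩
  obtain ⟨hc, hQ⟩ := hQ
  obtain ⟨h1, h2⟩ := hI2 z hz
  have hne' : wd (I z) ≠ [] := by
    rw [h2]
    intro h
    apply hne
    rw [← invRev_invRev (wd z), h]; rfl
  have hQ' : QAcc C a (linv c) a (wd (I z)) := by
    have := sim_invRev_qAcc hQ
    rw [linv_linv] at this
    rwa [h2]
  obtain ⟨h3, h4⟩ := hA2 (I z) h1 (by rw [h2]; exact cr_invRev hcr) hne' ⟨hc, hQ'⟩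
  obtain ⟨h5, h6⟩ := hI2 (A (I z)) h3
  refine ⟨h5, ?_⟩
  rw [h6]
  rw [h2] at h4
  exact post_invRev h4

end acts

/-! ### The step -/

/-- Indices of actions. -/
abbrev Act (M : ℕ) : Type := (Letter M × Letter M) ⊕ (((Letter M → Bool) × Letter M × Letter M) ⊕
  (((Letter M → Bool) × Letter M × Letter M) ⊕ (((Letter M → Bool) × Letter M) ⊕
  ((Letter M → Bool) × Letter M × Letter M))))

/-- Their preconditions. -/
def QA : Act M → List (Letter M) → Prop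
  | Sum.inl p, w => QMerge p.1 p.2 w
  | Sum.inr (Sum.inl p), w => p.1 p.2.2 = true ∧ QAcc p.1 p.2.1 (linv p.2.2) p.2.1 w
  | Sum.inr (Sum.inr (Sum.inl p)), w => p.1 p.2.2 = true ∧ QAcc p.1 p.2.1 (linv p.2.1) p.2.2 w
  | Sum.inr (Sum.inr (Sum.inr (Sum.inl p))), w => QLoop p.1 p.2 w
  | Sum.inr (Sum.inr (Sum.inr (Sum.inr p))), w => QSplit p.1 p.2.1 p.2.2 w

theorem Sim.qa {w w' : List (Letter M)} (h : Sim w w') (i : Act M) (hq : QA i w) : QA i w' := by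
  rcases i with p | p | p | p | p
  · exact h.qMerge hq
  · exact ⟨hq.1, h.qAcc hq.2⟩
  · exact ⟨hq.1, h.qAcc hq.2⟩
  · exact h.qLoop hq
  · exact h.qSplit hq

theorem QA.some {w : List (Letter M)} {i : Act M} (hq : QA i w) :
    (∃ c a, MergeAt w c a) ∨ ∃ C a, Cand w C a := by
  rcases i with p | p | p | p | p
  · exact Or.inl ⟨_, _, hq⟩
  · exact Or.inr ⟨_, _, hq.2.2.1⟩
  · exact Or.inr ⟨_, _, hq.2.2.1⟩
  · exact Or.inr ⟨_, _, hq.2.1⟩
  · exact Or.inr ⟨_, _, hq.2.1⟩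

theorem exists_min {w : List (Letter M)} (h : ∃ C a, Cand w C a) :
    ∃ C a, Cand w C a ∧ MinC w C := by
  classical
  have h1 : ∃ n, ∃ C a, Cand w C a ∧ hW w C = n := by
    obtain ⟨C, a, h⟩ := h
    exact ⟨_, C, a, h, rfl⟩
  obtain ⟨C, a, h2, h3⟩ := Nat.find_spec h1
  refine ⟨C, a, h2, fun C' a' h4 => ?_⟩
  rw [h3]
  exact Nat.find_min' h1 ⟨C', a', h4, rfl⟩

theorem complete {w : List (Letter M)} (h : (∃ c a, MergeAt w c a) ∨
    ((∃ C a, Cand w C a) ∧ ∃ f : Letter M, ∀ x ∈ w, x.1 ≠ f.1)) : ∃ i : Act M, QA i w := by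
  classical
  by_cases hm : ∃ c a, MergeAt w c a
  · obtain ⟨c, a, h1⟩ := hm
    exact ⟨Sum.inl (c, a), h1⟩
  rcases h with h | ⟨h, f, hf⟩
  · exact absurd h hm
  have hno : NoMerge w := fun c a h1 => hm ⟨c, a, h1⟩
  obtain ⟨C, a, hC, hmin⟩ := exists_min h
  by_cases h1 : hW w C ≤ wt w a ∧ hW w C ≤ Kk M * nW w C a
  · obtain ⟨c, hc, h2⟩ := hC.exit
    rcases (tm_pos w c a).1 h2 with h3 | h3
    · exact ⟨Sum.inr (Sum.inl (C, a, c)), hc, hno, hC, hmin, h1.1, h1.2, h3⟩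
    · exact ⟨Sum.inr (Sum.inr (Sum.inl (C, a, c))), hc, hno, hC, hmin, h1.1, h1.2, h3⟩
  · by_cases h2 : ConnW w a (linv a) ∧ wt w a ≤ Kk M * nW w C a
    · exact ⟨Sum.inr (Sum.inr (Sum.inr (Sum.inl (C, a)))), hno, hC, hmin, h2.1, h1, h2.2⟩
    · refine ⟨Sum.inr (Sum.inr (Sum.inr (Sum.inr (C, a, f)))), hno, hC, hmin, h1, ?_, hf⟩
      intro h3
      by_contra h4
      exact h2 ⟨h3, not_lt.1 h4⟩

end Pool.Agent.Lib.MP_0c2883_lc.All.Alg

namespace Pool.Agent.Lib.MP_0c2883_lc.All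

open Pool.Agent.Lib.PolyTime List Alg

theorem alg (hSrch : SearchStmt) (hSig : SigStmt) (hRot : RotStmt) (hCnt : CountStmt)
    (hOf : OfStmt) (hOfS : OfSlideStmt) (hOfP : OfSplitStmt) (hSl : SlideStmt) (hSp : SplitStmt)
    (hSigOp : SigOpStmt) (hConj : ConjStmt) : AlgStmt := by
  classical
  intro M
  obtain ⟨t, ht, hsim⟩ := tests_exist hCnt M
  have hact : ∀ i : Act M, HasAct (QA i) := by
    intro i
    rcases i with p | p | p | p | p
    · exact act_merge hSl hOf hOfS hConj hSig hSigOp p.1 p.2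
    · exact act_acc hSl hOf hOfS hSrch hRot p.1 p.2.1 p.2.2
    · exact act_acc' hSl hOf hOfS hSrch hRot p.1 p.2.1 p.2.2
    · exact act_loop hSl hOf hOfS hConj hSig hSigOp p.1 p.2
    · exact act_split hOf hConj hSp hOfP hSig hSigOp p.1 p.2.1 p.2.2
  choose act hact1 hact2 using hact
  let L : List ((Gram M × ℕ → Bool) × (Gram M × ℕ → Gram M × ℕ)) :=
    (Finset.univ : Finset (Act M)).toList.map
      (fun i => (guard t GI (fun z => QA i (wd z)), act i))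
  have hL : ∀ p ∈ L, ∃ i : Act M, p = (guard t GI (fun z => QA i (wd z)), act i) := by
    intro p hp
    obtain ⟨i, -, hi⟩ := List.mem_map.1 hp
    exact ⟨i, hi.symm⟩
  have hg : ∀ (i : Act M) z, GI z → (guard t GI (fun z => QA i (wd z)) z = true ↔ QA i (wd z)) := by
    intro i z hz
    exact guard_iff (fun z z' h1 h2 h3 h4 => (hsim z z' h1 h2 h3).qa i h4) hz
  refine ⟨firstOf L, ptFirstOf L ?_, ?_⟩
  · intro p hp
    obtain ⟨i, rfl⟩ := hL p hp
    exact ⟨ptGuard ht _ _, hact1 i⟩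
  · intro z hz hcr hne
    rcases firstOf_spec L z with ⟨p, hp, h1, h2⟩ | ⟨h1, h2⟩
    · obtain ⟨i, rfl⟩ := hL p hp
      have hQ := (hg i z hz).1 h1
      obtain ⟨h3, h4, h5, h6, h7⟩ := hact2 i z hz hcr hne hQ
      rw [h2]
      refine ⟨h3, h4, h5, h6, ?_, fun _ => h7⟩
      intro h8 h9
      rcases hQ.some with h10 | h10
      · exact absurd h10 h8
      · exact absurd h10 h9
    · rw [h2]
      refine ⟨hz, hcr, hne, Relation.ReflTransGen.refl, fun _ _ => rfl, ?_⟩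
      intro h3
      obtain ⟨i, hi⟩ := complete h3
      have h4 := h1 (guard t GI (fun z => QA i (wd z)), act i)
        (List.mem_map.2 ⟨i, by simp, rfl⟩)
      have h5 := (hg i z hz).2 hi
      exact absurd (h5.symm.trans h4) (by simp)

end Pool.Agent.Lib.MP_0c2883_lc.All
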