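import Pool.Agent.Lib.MP_0c2883_lc.All.SBStmts

/-!
# Statements of the modules of the algorithm (ALG)
-/

set_option autoImplicit false

namespace Pool.Agent.Lib.MP_0c2883_lc.All

open Pool.Agent.Lib.PolyTime List

variable {M : ℕ}

/-- A good grammar with an index of one of its rules. -/
def GI (z : Gram M × ℕ) : Prop := Good z.1 ∧ z.2 < z.1.length

/-- Its word. -/
def wd (z : Gram M × ℕ) : List (Letter M) := V z.1 z.2

/-! ### Words -/

/-- Chains of slides of `C` along the path `p` (words up to rotation). -/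
inductive ChainW (C : Letter M → Bool) :
    List (Letter M) → List (Letter M) → List (Letter M) → Prop
  | nil (w w' : List (Letter M)) (h : w' ~r w) : ChainW C w [] w'
  | cons (w w' p : List (Letter M)) (a : Letter M) (h : Ok w C a)
      (hc : ChainW C (op C a none w) p w') : ChainW C w (a :: p) w'

/-- DET: detection of chains by the length of the cyclically reduced image. -/
def DetStmt : Prop := ∀ (M : ℕ) (w w' p : List (Letter M)) (C : Letter M → Bool), CR w → CR w' →
  (∀ y ∈ p, C y = false ∧ C (linv y) = false) →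
  IsConj (FreeGroup.mk w') (FreeGroup.mk (sigW C p w)) →
  w.length ≤ w'.length + p.length * cap w C ∧
    (w.length = w'.length + p.length * cap w C ↔ ChainW C w p w')

/-- PATH: the path of a chain is read off behind any exit. -/
def PathStmt : Prop := ∀ (M : ℕ) (w w' p : List (Letter M)) (C : Letter M → Bool)
  (x y : Letter M), CR w → w.getLast? = some x → C (linv x) = true → w.head? = some y →
  C y = false → ChainW C w p w' → p = w.take p.length ∧ p.length < w.length

/-- The largest weight in `C`. -/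
def hW (w : List (Letter M)) (C : Letter M → Bool) : ℕ :=
  Finset.univ.sup (fun c => if C c then wt w c else 0)

/-- Chains of slides such that each letter passed has weight at least `h` afterwards. -/
inductive ChainH (C : Letter M → Bool) (h : ℕ) :
    List (Letter M) → List (Letter M) → List (Letter M) → Prop
  | nil (w w' : List (Letter M)) (hr : w' ~r w) : ChainH C h w [] w'
  | cons (w w' p : List (Letter M)) (a : Letter M) (hO : Ok w C a)
      (hx : h ≤ wt (op C a none w) a) (hc : ChainH C h (op C a none w) p w') :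
      ChainH C h w (a :: p) w'

/-- OPS3: the elementary operations are the cyclically reduced images under `sigW`. -/
def SigOpStmt : Prop :=
  (∀ (M : ℕ) (w : List (Letter M)) (C : Letter M → Bool) (a : Letter M), CR w → Ok w C a →
    IsConj (FreeGroup.mk (op C a none w)) (FreeGroup.mk (sigW C [a] w))) ∧
  (∀ (M : ℕ) (w : List (Letter M)) (C : Letter M → Bool) (a f : Letter M), CR w → Ok w C a →
    (∀ x ∈ w, x.1 ≠ f.1) → C f = false → C (linv f) = false → a.1 ≠ f.1 →
    IsConj (FreeGroup.mk (op C a (some f) w)) (FreeGroup.mk (sigW C [a, linv f] w)))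

/-! ### Polynomial time functions -/

/-- CNT: number of occurrences of a pair of cyclically consecutive letters; length. -/
def CountStmt : Prop := ∀ (M : ℕ),
  (∀ x y : Letter M, ∃ f : Gram M × ℕ → BNz, PT f ∧ ∀ z, GI z →
    (f z).val = (cpairs (wd z)).count (x, y)) ∧
  (∃ f : Gram M × ℕ → BNz, PT f ∧ ∀ z, GI z → (f z).val = (wd z).length) ∧
  (∀ x : Letter M, ∃ f : Gram M × ℕ → BNz, PT f ∧ ∀ z, GI z → (f z).val = wt (wd z) x)

/-- ROT: rotate the word such that it ends with `x` and begins with `y`; invert the word. -/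
def RotStmt : Prop := ∀ (M : ℕ),
  (∀ x y : Letter M, ∃ f : Gram M × ℕ → Gram M × ℕ, PT f ∧ ∀ z, GI z → (x, y) ∈ cpairs (wd z) →
    GI (f z) ∧ wd (f z) ~r wd z ∧ (wd (f z)).getLast? = some x ∧ (wd (f z)).head? = some y) ∧
  (∃ f : Gram M × ℕ → Gram M × ℕ, PT f ∧ ∀ z, GI z → GI (f z) ∧
    wd (f z) = FreeGroup.invRev (wd z))

/-- SIG: cyclically reduced image under the automorphism given by `C` and the word of the rule `j`,
or by `C` and a constant word. -/
def SigStmt : Prop := ∀ (M : ℕ) (C : Letter M → Bool),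
  (∃ f : (Gram M × ℕ) × ℕ → Gram M × ℕ, PT f ∧ ∀ z j, GI z → j < z.1.length →
    GI (f (z, j)) ∧ CR (wd (f (z, j))) ∧
    IsConj (FreeGroup.mk (wd (f (z, j)))) (FreeGroup.mk (sigW C (V z.1 j) (wd z)))) ∧
  (∀ p : List (Letter M), ∃ f : Gram M × ℕ → Gram M × ℕ, PT f ∧ ∀ z, GI z →
    GI (f z) ∧ CR (wd (f z)) ∧
    IsConj (FreeGroup.mk (wd (f z))) (FreeGroup.mk (sigW C p (wd z))))

/-- CUT: prefixes. -/
def TakeStmt : Prop := ∀ (M : ℕ), ∃ f : (Gram M × ℕ) × BNz → (Gram M × ℕ) × ℕ, PT f ∧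
  ∀ z (k : BNz), GI z → k.val ≤ (wd z).length →
    GI (f (z, k)).1 ∧ (f (z, k)).2 < (f (z, k)).1.1.length ∧ wd (f (z, k)).1 = wd z ∧
    V (f (z, k)).1.1 (f (z, k)).2 = (wd z).take k.val

/-- INIT: from a program over `r` letters to a grammar of a cyclically reduced word over `M ≥ r`
letters. -/
def InitStmt : Prop := ∀ (r M : ℕ) (h : r ≤ M), ∃ f : List (SRule r) → Gram M × ℕ, PT f ∧
  ∀ W, GI (f W) ∧ CR (wd (f W)) ∧ (∀ x ∈ wd (f W), x.1.val < r) ∧
    IsConj (FreeGroup.mk (wd (f W))) (FreeGroup.map (Fin.castLE h) (FreeGroup.mk (eval W)))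

/-- SRCH: the accelerated slide. -/
def SearchStmt : Prop := ∀ (M : ℕ) (C : Letter M → Bool), ∃ f : Gram M × ℕ → Gram M × ℕ, PT f ∧
  ∀ z a x, GI z → CR (wd z) → Ok (wd z) C a → (wd z).head? = some a →
    (wd z).getLast? = some x → C (linv x) = true →
    GI (f z) ∧ CR (wd (f z)) ∧
    ∃ p, ChainH C (hW (wd z) C) (op C a none (wd z)) p (wd (f z)) ∧
      ∀ b, Ok (wd (f z)) C b → wt (wd (f z)) b < hW (wd z) C + cap (wd z) C

/-- ALG: one step of the algorithm in polynomial time. -/
def AlgStmt : Prop := ∀ (M : ℕ), ∃ step : Gram M × ℕ → Gram M × ℕ, PT step ∧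
  ∀ z, GI z → CR (wd z) → wd z ≠ [] →
    GI (step z) ∧ CR (wd (step z)) ∧ wd (step z) ≠ [] ∧ Reach (wd z) (wd (step z)) ∧
    ((¬ ∃ c a, MergeAt (wd z) c a) → (¬ ∃ C a, Cand (wd z) C a) → wd (step z) = wd z) ∧
    (((∃ c a, MergeAt (wd z) c a) ∨
        ((∃ C a, Cand (wd z) C a) ∧ ∃ f : Letter M, ∀ x ∈ wd z, x.1 ≠ f.1)) →
      ∀ μ : St M, μ.Of (wd z) → ∃ μ' : St M, μ'.Of (wd (step z)) ∧ AStep (Kk M) μ μ')

/-- MAIN. -/
def MainStmt : Prop := ∀ r : ℕ, ∃ f : List (SRule r) → Bool, PT f ∧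
  ∀ W, f W = true ↔ IsPrim (FreeGroup.mk (eval W))

end Pool.Agent.Lib.MP_0c2883_lc.All
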