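import Pool.Agent.Lib.MP_0c2883_lc.All.Gram
import Pool.Agent.Lib.MP_0c2883_lc.All.AlgStmts

/-!
# Decisions by finitely many tests in polynomial time
-/

set_option autoImplicit false

namespace Pool.Agent.Lib.MP_0c2883_lc.All.Alg

open Pool.Agent.Lib.PolyTime

variable {α β : Type} [Enc α] [Enc β]

/-- A function of the outcomes of finitely many polynomial time tests. -/
theorem ofTests {ι : Type} [Fintype ι] [DecidableEq ι] {t : ι → α → Bool} (ht : ∀ i, PT (t i))
    (F : (ι → Bool) → β) : PT (fun z => F (fun i => t i z)) := by
  have key : ∀ (L : List ι) (v : ι → Bool),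
      PT (fun z => F (fun i => if i ∈ L then t i z else v i)) := by
    intro L
    induction L with
    | nil => intro v; exact (PT.const (F v)).congr (fun z => by simp)
    | cons i L ih =>
      intro v
      refine (PT.cond (ht i) (ih (Function.update v i true))
        (ih (Function.update v i false))).congr (fun z => ?_)
      have h : ∀ b, t i z = b → (fun j => if j ∈ i :: L then t j z else v j) =
          fun j => if j ∈ L then t j z else Function.update v i b j := by
        intro b hb
        funext j
        by_cases hj : j = i
        · subst hj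
          by_cases hL : j ∈ L
          · simp [hL]
          · simp [hL, hb]
        · simp [hj]
      cases hb : t i z
      · rw [h false hb]; rfl
      · rw [h true hb]; rfl
  refine (key Finset.univ.toList (fun _ => false)).congr (fun z => ?_)
  congr 1
  funext i
  simp

/-- The first applicable function of a list. -/
def firstOf {α : Type} (L : List ((α → Bool) × (α → α))) (z : α) : α :=
  match L with
  | [] => z
  | p :: L => if p.1 z = true then p.2 z else firstOf L z

theorem ptFirstOf (L : List ((α → Bool) × (α → α))) (h : ∀ p ∈ L, PT p.1 ∧ PT p.2) :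
    PT (firstOf L) := by
  induction L with
  | nil => exact PT.id
  | cons p L ih =>
    exact PT.cond (h p (by simp)).1 (h p (by simp)).2 (ih (fun q hq => h q (by simp [hq])))

omit [Enc α] in
theorem firstOf_spec (L : List ((α → Bool) × (α → α))) (z : α) :
    (∃ p ∈ L, p.1 z = true ∧ firstOf L z = p.2 z) ∨
      ((∀ p ∈ L, p.1 z = false) ∧ firstOf L z = z) := by
  induction L with
  | nil => right; exact ⟨by simp, rfl⟩
  | cons p L ih =>
    have e : firstOf (p :: L) z = if p.1 z = true then p.2 z else firstOf L z := rfl
    rcases h : p.1 z with _ | _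
    · rw [e, h]
      simp only [Bool.false_eq_true, if_false]
      rcases ih with ⟨q, hq, h1, h2⟩ | ⟨h1, h2⟩
      · left
        exact ⟨q, by simp [hq], h1, h2⟩
      · right
        refine ⟨?_, h2⟩
        intro q hq
        rcases List.mem_cons.1 hq with rfl | hq
        · exact h
        · exact h1 q hq
    · left
      refine ⟨p, by simp, h, ?_⟩
      rw [e, h]; rfl

open Classical in
/-- The guard of a property which, on a domain, is determined by tests. -/
noncomputable def guard {α ι : Type} (t : ι → α → Bool) (D Q : α → Prop) (z : α) : Bool :=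
  decide (∃ z', D z' ∧ (fun i => t i z') = (fun i => t i z) ∧ Q z')

theorem ptGuard {ι : Type} [Fintype ι] [DecidableEq ι] {t : ι → α → Bool} (ht : ∀ i, PT (t i))
    (D Q : α → Prop) : PT (guard t D Q) := by
  classical
  exact ofTests ht (fun v => decide (∃ z', D z' ∧ (fun i => t i z') = v ∧ Q z'))

omit [Enc α] in
theorem guard_iff {ι : Type} {t : ι → α → Bool} {D Q : α → Prop}
    (hQ : ∀ z z', D z → D z' → (fun i => t i z) = (fun i => t i z') → Q z → Q z') {z : α}
    (hz : D z) : guard t D Q z = true ↔ Q z := by
  classical
  unfold guard
  rw [decide_eq_true_iff]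
  constructor
  · rintro ⟨z', h1, h2, h3⟩
    exact hQ z' z h1 hz h2 h3
  · intro h
    exact ⟨z, hz, rfl, h⟩

/-- sums of binary numbers -/
theorem ptSum {κ : Type} (L : List κ) {f : κ → α → BNz} (hf : ∀ k ∈ L, PT (f k)) :
    PT (fun z => BNz.mk ((L.map (fun k => (f k z).val)).sum)) := by
  induction L with
  | nil => exact (PT.const (BNz.mk 0)).congr (fun z => by simp)
  | cons k L ih =>
    exact (PT.bnzAdd (hf k (by simp)) (ih (fun j hj => hf j (by simp [hj])))).congr
      (fun z => by simp)

/-- constant multiples of binary numbers -/
theorem ptMul (c : ℕ) {f : α → BNz} (hf : PT f) : PT (fun z => BNz.mk (c * (f z).val)) := by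
  induction c with
  | zero => exact (PT.const (BNz.mk 0)).congr (fun z => by simp)
  | succ c ih => exact (PT.bnzAdd ih hf).congr (fun z => by simp [Nat.add_mul])

end Pool.Agent.Lib.MP_0c2883_lc.All.Alg
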