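import Pool.Agent.Lib.MP_0c2883_lc.All.AlgA

/-!
# The tests of the algorithm, and the properties which they decide
-/

set_option autoImplicit false

namespace Pool.Agent.Lib.MP_0c2883_lc.All.Alg

open Pool.Agent.Lib.PolyTime List

variable {M : ℕ}

/-- Number of turns between `C` and `a`. -/
def nW (w : List (Letter M)) (C : Letter M → Bool) (a : Letter M) : ℕ :=
  ∑ c, if C c then tm w c a else 0

/-- Words with the same outcomes of all tests. -/
structure Sim (w w' : List (Letter M)) : Prop where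
  pr : ∀ x y, (x, y) ∈ cpairs w ↔ (x, y) ∈ cpairs w'
  le : ∀ p q, wt w p ≤ wt w q ↔ wt w' p ≤ wt w' q
  kn : ∀ C a q, wt w q ≤ Kk M * nW w C a ↔ wt w' q ≤ Kk M * nW w' C a

theorem tc_eq (w : List (Letter M)) (p q : Letter M) :
    tc w p q = (cpairs w).count (linv p, q) := by
  unfold tc
  rw [List.count_eq_countP]
  refine List.countP_congr (fun z _ => ?_)
  simp

theorem tm_pos (w : List (Letter M)) (p q : Letter M) :
    0 < tm w p q ↔ (linv p, q) ∈ cpairs w ∨ (linv q, p) ∈ cpairs w := by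
  unfold tm
  rw [tc_eq, tc_eq, Nat.add_pos_iff_pos_or_pos, List.count_pos_iff, List.count_pos_iff]

namespace Sim

variable {w w' : List (Letter M)}

theorem symm (h : Sim w w') : Sim w' w :=
  ⟨fun x y => (h.pr x y).symm, fun p q => (h.le p q).symm, fun C a q => (h.kn C a q).symm⟩

theorem tm (h : Sim w w') (p q : Letter M) : 0 < All.tm w p q ↔ 0 < All.tm w' p q := by
  rw [tm_pos, tm_pos, h.pr, h.pr]

theorem ok (h : Sim w w') {C : Letter M → Bool} {a : Letter M} (hO : Ok w C a) : Ok w' C a :=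
  ⟨hO.a_not, hO.a_inv_not, fun p q hpq => hO.bd p q ((h.tm p q).2 hpq)⟩

theorem conn (h : Sim w w') {C : Letter M → Bool} (hO : ConnIn w C) : ConnIn w' C := by
  intro p q hp hq
  have h1 : ∀ x y, (C x = true ∧ C y = true ∧ 0 < All.tm w x y) →
      (C x = true ∧ C y = true ∧ 0 < All.tm w' x y) :=
    fun x y hxy => ⟨hxy.1, hxy.2.1, (h.tm x y).1 hxy.2.2⟩
  exact Relation.ReflTransGen.mono h1 _ _ (hO p q hp hq)

theorem cand (h : Sim w w') {C : Letter M → Bool} {a : Letter M} (hO : Cand w C a) :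
    Cand w' C a := by
  obtain ⟨c, hc1, hc2⟩ := hO.exit
  obtain ⟨q, hq1, hq2⟩ := hO.rest
  exact ⟨h.ok hO.ok, h.conn hO.conn, ⟨c, hc1, (h.tm _ _).1 hc2⟩, ⟨q, hq1, (h.tm _ _).1 hq2⟩⟩

theorem merge (h : Sim w w') {c a : Letter M} (hO : MergeAt w c a) : MergeAt w' c a :=
  ⟨hO.ne, hO.ne', (h.tm _ _).1 hO.pos, fun q hq => hO.left q ((h.tm _ _).2 hq),
    fun q hq => hO.right q ((h.tm _ _).2 hq)⟩

end Sim

/-- Connectedness by turns of a word. -/
def ConnW (w : List (Letter M)) (p q : Letter M) : Prop :=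
  Relation.ReflTransGen (fun p q => 0 < tm w p q) p q

theorem Sim.connW {w w' : List (Letter M)} (h : Sim w w') {p q : Letter M} (hc : ConnW w p q) :
    ConnW w' p q := Relation.ReflTransGen.mono (fun x y hxy => (h.tm x y).1 hxy) _ _ hc

theorem hW_le {w : List (Letter M)} {C : Letter M → Bool} {n : ℕ} :
    hW w C ≤ n ↔ ∀ c, C c = true → wt w c ≤ n := by
  unfold hW
  rw [Finset.sup_le_iff]
  constructor
  · intro h c hc
    have := h c (Finset.mem_univ _)
    rwa [if_pos hc] at this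
  · intro h c _
    split_ifs with hc
    · exact h c hc
    · exact Nat.zero_le _

theorem le_hW {w : List (Letter M)} {C : Letter M → Bool} {n : ℕ} (hn : 0 < n) :
    n ≤ hW w C ↔ ∃ c, C c = true ∧ n ≤ wt w c := by
  unfold hW
  rw [Finset.le_sup_iff (by exact hn)]
  constructor
  · rintro ⟨c, -, hc⟩
    split_ifs at hc with h
    · exact ⟨c, h, hc⟩
    · omega
  · rintro ⟨c, hc, h⟩
    exact ⟨c, Finset.mem_univ _, by rw [if_pos hc]; exact h⟩

theorem mem_of_cpairs_left {w : List (Letter M)} {x y : Letter M} (h : (x, y) ∈ cpairs w) :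
    x ∈ w := (List.of_mem_zip h).1

theorem mem_of_cpairs_right {w : List (Letter M)} {x y : Letter M} (h : (x, y) ∈ cpairs w) :
    y ∈ w := List.mem_rotate.1 (List.of_mem_zip h).2

theorem exists_cpairs {w : List (Letter M)} {x : Letter M} (h : x ∈ w) :
    ∃ y, (x, y) ∈ cpairs w := by
  obtain ⟨i, hi, rfl⟩ := List.mem_iff_getElem.1 h
  have hi' : i < (w.rotate 1).length := by rwa [List.length_rotate]
  refine ⟨(w.rotate 1)[i], ?_⟩
  unfold cpairs
  rw [List.mem_iff_getElem]
  refine ⟨i, by rw [List.length_zip]; omega, ?_⟩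
  rw [List.getElem_zip]

theorem wt_pos_of_tm {w : List (Letter M)} {p q : Letter M} (h : 0 < tm w p q) : 0 < wt w p := by
  unfold wt
  rw [Nat.add_pos_iff_pos_or_pos, List.count_pos_iff, List.count_pos_iff]
  rcases (tm_pos w p q).1 h with h | h
  · exact Or.inr (mem_of_cpairs_left h)
  · exact Or.inl (mem_of_cpairs_right h)

theorem cand_pos {w : List (Letter M)} {C : Letter M → Bool} {a c : Letter M} (h : Cand w C a)
    (hc : C c = true) : 0 < wt w c := by
  obtain ⟨d, hd1, hd2⟩ := h.exit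
  rcases Relation.ReflTransGen.cases_head (h.conn c d hc hd1) with h1 | ⟨y, h1, -⟩
  · rw [h1]; exact wt_pos_of_tm hd2
  · exact wt_pos_of_tm h1.2.2

def NoMerge (w : List (Letter M)) : Prop := ∀ c a, ¬ MergeAt w c a

def MinC (w : List (Letter M)) (C : Letter M → Bool) : Prop :=
  ∀ C' a', Cand w C' a' → hW w C ≤ hW w C'

theorem Sim.noMerge {w w' : List (Letter M)} (h : Sim w w') (hn : NoMerge w) : NoMerge w' :=
  fun c a hm => hn c a (h.symm.merge hm)

theorem Sim.minC {w w' : List (Letter M)} (h : Sim w w') {C : Letter M → Bool} {a : Letter M}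
    (hC : Cand w C a) (hn : MinC w C) : MinC w' C := by
  intro C' a' hC'
  have h1 := hn C' a' (h.symm.cand hC')
  have hC2 := h.cand hC
  rw [hW_le] at h1 ⊢
  intro c hc
  have h2 := h1 c hc
  rw [le_hW (cand_pos hC hc)] at h2
  rw [le_hW (cand_pos hC2 hc)]
  obtain ⟨c', hc', h3⟩ := h2
  exact ⟨c', hc', (h.le _ _).1 h3⟩

theorem Sim.hx {w w' : List (Letter M)} (h : Sim w w') {C : Letter M → Bool} {a : Letter M} :
    hW w C ≤ wt w a ↔ hW w' C ≤ wt w' a := by
  rw [hW_le, hW_le]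
  exact forall_congr' (fun c => imp_congr_right (fun _ => h.le c a))

theorem Sim.hk {w w' : List (Letter M)} (h : Sim w w') {C : Letter M → Bool} {a : Letter M} :
    hW w C ≤ Kk M * nW w C a ↔ hW w' C ≤ Kk M * nW w' C a := by
  rw [hW_le, hW_le]
  exact forall_congr' (fun c => imp_congr_right (fun _ => h.kn C a c))

/-- Preconditions of the actions. -/
def QMerge (c a : Letter M) (w : List (Letter M)) : Prop := MergeAt w c a

def QAcc (C : Letter M → Bool) (a x y : Letter M) (w : List (Letter M)) : Prop :=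
  NoMerge w ∧ Cand w C a ∧ MinC w C ∧ hW w C ≤ wt w a ∧ hW w C ≤ Kk M * nW w C a ∧
    (x, y) ∈ cpairs w

def QLoop (C : Letter M → Bool) (a : Letter M) (w : List (Letter M)) : Prop :=
  NoMerge w ∧ Cand w C a ∧ MinC w C ∧ ConnW w a (linv a) ∧
    ¬ (hW w C ≤ wt w a ∧ hW w C ≤ Kk M * nW w C a) ∧ wt w a ≤ Kk M * nW w C a

def QSplit (C : Letter M → Bool) (a f : Letter M) (w : List (Letter M)) : Prop :=
  NoMerge w ∧ Cand w C a ∧ MinC w C ∧
    ¬ (hW w C ≤ wt w a ∧ hW w C ≤ Kk M * nW w C a) ∧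
    (ConnW w a (linv a) → Kk M * nW w C a < wt w a) ∧ ∀ x ∈ w, x.1 ≠ f.1

theorem Sim.qMerge {w w' : List (Letter M)} (h : Sim w w') {c a : Letter M}
    (hq : QMerge c a w) : QMerge c a w' := h.merge hq

theorem Sim.qAcc {w w' : List (Letter M)} (h : Sim w w') {C : Letter M → Bool} {a x y : Letter M}
    (hq : QAcc C a x y w) : QAcc C a x y w' := by
  obtain ⟨h1, h2, h3, h4, h5, h6⟩ := hq
  exact ⟨h.noMerge h1, h.cand h2, h.minC h2 h3, h.hx.1 h4, h.hk.1 h5, (h.pr _ _).1 h6⟩

theorem Sim.qLoop {w w' : List (Letter M)} (h : Sim w w') {C : Letter M → Bool} {a : Letter M}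
    (hq : QLoop C a w) : QLoop C a w' := by
  obtain ⟨h1, h2, h3, h4, h5, h6⟩ := hq
  exact ⟨h.noMerge h1, h.cand h2, h.minC h2 h3, h.connW h4,
    fun h7 => h5 ⟨h.hx.2 h7.1, h.hk.2 h7.2⟩, (h.kn C a a).1 h6⟩

theorem Sim.qSplit {w w' : List (Letter M)} (h : Sim w w') {C : Letter M → Bool}
    {a f : Letter M} (hq : QSplit C a f w) : QSplit C a f w' := by
  obtain ⟨h1, h2, h3, h4, h5, h6⟩ := hq
  refine ⟨h.noMerge h1, h.cand h2, h.minC h2 h3,
    fun h7 => h4 ⟨h.hx.2 h7.1, h.hk.2 h7.2⟩, fun h7 => ?_, fun x hx => ?_⟩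
  · have h8 := h5 (h.symm.connW h7)
    rw [← not_le] at h8 ⊢
    exact fun h9 => h8 ((h.kn C a a).2 h9)
  · obtain ⟨y, hy⟩ := exists_cpairs hx
    exact h6 x (mem_of_cpairs_left ((h.pr x y).2 hy))

/-! ### The tests -/

abbrev Ix (M : ℕ) : Type := (Letter M × Letter M) ⊕ (Letter M × Letter M) ⊕
  ((Letter M → Bool) × Letter M × Letter M)

theorem tests_exist (hC : CountStmt) (M : ℕ) : ∃ t : Ix M → Gram M × ℕ → Bool,
    (∀ i, PT (t i)) ∧ ∀ z z', GI z → GI z' → (fun i => t i z) = (fun i => t i z') →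
      Sim (wd z) (wd z') := by
  obtain ⟨h1, -, h3⟩ := hC M
  choose cnt hcntPT hcnt using h1
  choose wf hwPT hw using h3
  let nf : (Letter M → Bool) → Letter M → Gram M × ℕ → BNz := fun C a z =>
    BNz.mk (((Finset.univ.filter (fun c => C c = true)).toList.map (fun c =>
      (BNz.mk ((cnt (linv c) a z).val + (cnt (linv a) c z).val)).val)).sum)
  have hnfPT : ∀ C a, PT (nf C a) := fun C a => ptSum _ (fun c _ =>
    PT.bnzAdd (hcntPT (linv c) a) (hcntPT (linv a) c))
  have hnf : ∀ C a z, GI z → (nf C a z).val = nW (wd z) C a := by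
    intro C a z hz
    show ((Finset.univ.filter (fun c => C c = true)).toList.map (fun c =>
      (cnt (linv c) a z).val + (cnt (linv a) c z).val)).sum = _
    rw [Finset.sum_map_toList, Finset.sum_filter]
    unfold nW
    refine Finset.sum_congr rfl (fun c _ => ?_)
    rw [hcnt _ _ z hz, hcnt _ _ z hz, ← tc_eq, ← tc_eq]
    rfl
  let t : Ix M → Gram M × ℕ → Bool := fun i z => match i with
    | Sum.inl p => !(decide ((cnt p.1 p.2 z).val = (BNz.mk 0).val))
    | Sum.inr (Sum.inl p) => decide ((wf p.1 z).val ≤ (wf p.2 z).val)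
    | Sum.inr (Sum.inr p) => decide ((wf p.2.2 z).val ≤ (BNz.mk (Kk M * (nf p.1 p.2.1 z).val)).val)
  refine ⟨t, ?_, ?_⟩
  · intro i
    rcases i with p | p | p
    · exact PT.not (PT.bnzEq (hcntPT p.1 p.2) (PT.const _))
    · exact PT.bnzLe (hwPT p.1) (hwPT p.2)
    · exact PT.bnzLe (hwPT p.2.2) (ptMul _ (hnfPT p.1 p.2.1))
  · intro z z' hz hz' h
    have ht : ∀ i, t i z = t i z' := fun i => congrFun h i
    refine ⟨?_, ?_, ?_⟩
    · intro x y
      have h1 : (!(decide ((cnt x y z).val = 0))) = (!(decide ((cnt x y z').val = 0))) :=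
        ht (Sum.inl (x, y))
      rw [hcnt x y z hz, hcnt x y z' hz'] at h1
      rw [← List.count_pos_iff, ← List.count_pos_iff]
      by_cases h2 : (cpairs (wd z)).count (x, y) = 0
      · by_cases h3 : (cpairs (wd z')).count (x, y) = 0
        · rw [h2, h3]
        · simp [h2, h3] at h1
      · by_cases h3 : (cpairs (wd z')).count (x, y) = 0
        · simp [h2, h3] at h1
        · exact ⟨fun _ => Nat.pos_of_ne_zero h3, fun _ => Nat.pos_of_ne_zero h2⟩
    · intro p q
      have h1 : decide ((wf p z).val ≤ (wf q z).val) = decide ((wf p z').val ≤ (wf q z').val) :=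
        ht (Sum.inr (Sum.inl (p, q)))
      rw [hw p z hz, hw q z hz, hw p z' hz', hw q z' hz'] at h1
      exact decide_eq_decide.1 h1
    · intro C a q
      have h1 : decide ((wf q z).val ≤ Kk M * (nf C a z).val) =
          decide ((wf q z').val ≤ Kk M * (nf C a z').val) :=
        ht (Sum.inr (Sum.inr (C, a, q)))
      rw [hw q z hz, hw q z' hz', hnf C a z hz, hnf C a z' hz'] at h1
      exact decide_eq_decide.1 h1

end Pool.Agent.Lib.MP_0c2883_lc.All.Alg
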