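import Pool.Agent.Lib.MP_0c2883_lc.All.Stmts
import Mathlib.Data.List.Chain

/-!
# OPS: slides and splits of cyclically reduced words
-/

set_option autoImplicit false

namespace Pool.Agent.Lib.MP_0c2883_lc.All.Ops

open Pool.Agent.Lib.PolyTime List Pool.Agent.Lib.MP_0c2883_lc.All

variable {M : ℕ} {α β : Type}

/-! ### cyclic words -/

/-- Consecutive pairs. -/
def prs (l : List α) : List (α × α) := l.zip l.tail

@[simp] theorem prs_nil : prs ([] : List α) = [] := rfl
@[simp] theorem prs_single (x : α) : prs [x] = [] := rfl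
@[simp] theorem prs_cons (x y : α) (l : List α) : prs (x :: y :: l) = (x, y) :: prs (y :: l) := rfl

theorem zip_aux (z : α) : ∀ (l : List α) (x : α), (x :: l).zip (l ++ [z]) = prs (x :: (l ++ [z]))
  | [], x => rfl
  | y :: l, x => by
    rw [List.cons_append, prs_cons, ← zip_aux z l y, List.zip_cons_cons]

theorem cpairs_cons (x : α) (l : List α) : cpairs (x :: l) = prs (x :: (l ++ [x])) := by
  unfold cpairs
  rw [← zip_aux]
  simp

/-- The contexts of the entries of a list with neighbours `y`, `z`. -/
def ctxL : α → List α → α → List (α × (α × α))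
  | _, [], _ => []
  | y, x :: l, z => (y, (x, l.headD z)) :: ctxL x l z

theorem ctxL_eq (z : α) : ∀ (l : List α) (y : α),
    (y :: l).zip (l.zip (l.tail ++ [z])) = ctxL y l z
  | [], y => rfl
  | [x], y => rfl
  | x :: x' :: l, y => by
    rw [ctxL, ← ctxL_eq z (x' :: l) x]
    rfl

theorem zip_trunc {γ : Type} : ∀ (l : List α) (m : List γ) (s : List α), m.length ≤ l.length →
    (l ++ s).zip m = l.zip m
  | [], [], s, _ => by simp
  | [], _ :: _, s, h => by simp at h
  | x :: l, [], s, _ => by simp
  | x :: l, y :: m, s, h => by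
    rw [List.cons_append, List.zip_cons_cons, List.zip_cons_cons, zip_trunc l m s (by simpa using h)]

theorem ctx_cons (x : α) (l : List α) :
    ctx (x :: l) = ctxL ((x :: l).getLast (by simp)) (x :: l) x := by
  rw [← ctxL_eq]
  unfold ctx
  have h1 : (x :: l).rotate 1 = l ++ [x] := by simp
  have h2 : (x :: l).rotate ((x :: l).length - 1) =
      (x :: l).getLast (by simp) :: (x :: l).dropLast := by
    rw [List.rotate_eq_drop_append_take (by simp), List.drop_length_sub_one (by simp),
      ← List.dropLast_eq_take]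
    rfl
  rw [h1, h2, List.tail_cons]
  have h3 : (x :: l).getLast (by simp) :: (x :: l) =
      ((x :: l).getLast (by simp) :: (x :: l).dropLast) ++ [(x :: l).getLast (by simp)] := by
    rw [List.cons_append, List.dropLast_append_getLast]
  rw [h3, zip_trunc]
  simp

/-- The elementary operation on a list with neighbours. -/
def run (C : Letter M → Bool) (a : Letter M) (g : Option (Letter M)) :
    Letter M → List (Letter M) → Letter M → List (Letter M)
  | _, [], _ => []
  | y, x :: l, z => (opL C a g (y, (x, l.headD z))).toList ++ run C a g x l z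

theorem run_eq (C : Letter M → Bool) (a : Letter M) (g : Option (Letter M)) (z : Letter M) :
    ∀ (l : List (Letter M)) (y : Letter M), (ctxL y l z).filterMap (opL C a g) = run C a g y l z
  | [], y => rfl
  | x :: l, y => by
    rw [ctxL, run, List.filterMap_cons, ← run_eq C a g z l x]
    cases opL C a g (y, (x, l.headD z)) <;> rfl

theorem op_cons (C : Letter M → Bool) (a : Letter M) (g : Option (Letter M)) (x : Letter M)
    (l : List (Letter M)) : op C a g (x :: l) = run C a g ((x :: l).getLast (by simp)) (x :: l) x := by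
  unfold op
  rw [ctx_cons, run_eq]

/-! ### rotations -/

theorem rot_filterMap (f : α → Option β) {l l' : List α} (h : l ~r l') :
    l.filterMap f ~r l'.filterMap f := by
  obtain ⟨n, rfl⟩ := h
  rcases eq_or_ne l [] with h0 | h0
  · subst h0; simp
  have hn : n % l.length ≤ l.length :=
    (Nat.mod_lt _ (List.length_pos_iff.2 h0)).le
  rw [← List.rotate_mod, List.rotate_eq_drop_append_take hn]
  conv_lhs => rw [← List.take_append_drop (n % l.length) l]
  rw [List.filterMap_append, List.filterMap_append]
  exact List.isRotated_append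

theorem cpairs_rotate (w : List α) (n : ℕ) : cpairs (w.rotate n) = (cpairs w).rotate n := by
  unfold cpairs List.zip
  rw [List.zipWith_rotate_distrib _ _ _ _ (by simp), List.rotate_rotate, List.rotate_rotate,
    Nat.add_comm]

theorem ctx_rotate (w : List α) (n : ℕ) : ctx (w.rotate n) = (ctx w).rotate n := by
  unfold ctx List.zip
  rw [List.zipWith_rotate_distrib _ _ _ _ (by simp), List.zipWith_rotate_distrib _ _ _ _ (by simp)]
  simp only [List.rotate_rotate, List.length_rotate]
  rw [Nat.add_comm n 1, Nat.add_comm n (w.length - 1)]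

theorem cpairs_rot {w w' : List α} (h : w ~r w') : cpairs w ~r cpairs w' := by
  obtain ⟨n, rfl⟩ := h
  exact ⟨n, (cpairs_rotate w n).symm⟩

theorem op_rot (C : Letter M → Bool) (a : Letter M) (g : Option (Letter M))
    {w w' : List (Letter M)} (h : w ~r w') : op C a g w ~r op C a g w' := by
  unfold op
  apply rot_filterMap
  obtain ⟨n, rfl⟩ := h
  exact ⟨n, (ctx_rotate w n).symm⟩

theorem tc_rot {w w' : List (Letter M)} (h : w ~r w') (p q : Letter M) : tc w p q = tc w' p q :=
  (cpairs_rot h).perm.countP_eq _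

theorem tm_rot {w w' : List (Letter M)} (h : w ~r w') (p q : Letter M) : tm w p q = tm w' p q := by
  unfold tm; rw [tc_rot h, tc_rot h]

theorem cap_rot {w w' : List (Letter M)} (h : w ~r w') (C : Letter M → Bool) :
    cap w C = cap w' C := (cpairs_rot h).perm.countP_eq _

theorem ok_rot {w w' : List (Letter M)} (h : w ~r w') {C : Letter M → Bool} {a : Letter M}
    (hok : Ok w C a) : Ok w' C a :=
  ⟨hok.a_not, hok.a_inv_not, fun p q hpq => hok.bd p q (by rw [tm_rot h]; exact hpq)⟩

/-- Cyclically reduced words in terms of consecutive pairs. -/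
theorem cr_iff (w : List (Letter M)) : CR w ↔ ∀ z ∈ cpairs w, z.2 ≠ linv z.1 := by
  have key : ∀ u v : Letter M, (u.1 = v.1 → u.2 = v.2) ↔ v ≠ linv u := by
    rintro ⟨i, s⟩ ⟨j, t⟩
    simp only [linv, ne_eq, Prod.mk.injEq, not_and]
    constructor
    · intro h hji hts
      have := h hji.symm
      subst this
      cases s <;> simp at hts
    · intro h hij
      have := h hij.symm
      cases s <;> cases t <;> simp_all
  cases w with
  | nil => simp [CR, cpairs]
  | cons x l =>
    have h1 : ∀ (l : List (Letter M)) (x y : Letter M),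
        (FreeGroup.IsReduced (x :: l) ∧ y ≠ linv ((x :: l).getLast (by simp))) ↔
          ∀ z ∈ prs (x :: (l ++ [y])), z.2 ≠ linv z.1 := by
      intro l
      induction l with
      | nil => intro x y; simp [FreeGroup.IsReduced]
      | cons x' l ih =>
        intro x y
        rw [List.cons_append, prs_cons, List.forall_mem_cons, ← ih x' y]
        rw [List.getLast_cons (by simp)]
        unfold FreeGroup.IsReduced
        rw [List.isChain_cons_cons, key]
        tauto
    rw [cpairs_cons, ← h1]
    unfold CR FreeGroup.IsCyclicallyReduced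
    rw [List.getLast?_eq_getLast_of_ne_nil (by simp)]
    simp only [Option.mem_def, Option.some.injEq, forall_eq', List.head?_cons]
    rw [key]

theorem cr_rot {w w' : List (Letter M)} (h : w ~r w') (hw : CR w) : CR w' := by
  rw [cr_iff] at hw ⊢
  intro z hz
  exact hw z ((cpairs_rot h).perm.mem_iff.2 hz)

/-! ### slides: reducedness and counting -/

/-- What is known about consecutive letters. -/
def GP (C : Letter M → Bool) (a y z : Letter M) : Prop :=
  z ≠ linv y ∧ (C (linv y) = true → C z = false → z = a) ∧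
    (C (linv y) = false → C z = true → linv y = a)

theorem gp_of {w : List (Letter M)} {C : Letter M → Bool} {a : Letter M} (hw : CR w)
    (hok : Ok w C a) : ∀ t ∈ cpairs w, GP C a t.1 t.2 := by
  intro t ht
  have h1 : 0 < tc w (linv t.1) t.2 := by
    unfold tc
    rw [List.countP_pos_iff]
    exact ⟨t, ht, by simp⟩
  refine ⟨(cr_iff w).1 hw t ht, fun h2 h3 => hok.bd _ _ (by unfold tm; omega) h2 h3,
    fun h2 h3 => hok.bd _ _ (by unfold tm; omega) h3 h2⟩

/-- Number of exit pairs. -/
def ex (C : Letter M → Bool) (l : List (Letter M)) : ℕ :=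
  (prs l).countP (fun z => C (linv z.1) != C z.2)

theorem ex_cons (C : Letter M → Bool) (x y : Letter M) (l : List (Letter M)) :
    ex C (x :: y :: l) = ex C (y :: l) + if (C (linv x) != C y) = true then 1 else 0 := by
  unfold ex
  rw [prs_cons, List.countP_cons]

theorem headD_append (z : Letter M) (l : List (Letter M)) : ∃ m, l ++ [z] = l.headD z :: m := by
  cases l with
  | nil => exact ⟨[], rfl⟩
  | cons x l => exact ⟨l ++ [z], rfl⟩

theorem slide_main {C : Letter M → Bool} {a : Letter M} (h1 : C a = false) (h2 : C (linv a) = false)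
    (z : Letter M) : ∀ l : List (Letter M),
    (∀ y, (∀ t ∈ prs (y :: (l ++ [z])), GP C a t.1 t.2) →
      ¬ (y = linv a ∧ C (l.headD z) = true) →
      ¬ (z = a ∧ C (linv ((y :: l).getLast (by simp))) = true) →
      (∀ t ∈ prs (y :: (run C a none y l z ++ [z])), t.2 ≠ linv t.1) ∧
      ex C (y :: (run C a none y l z ++ [z])) = ex C (y :: (l ++ [z])) ∧
      (run C a none y l z).length + ex C (y :: (l ++ [z])) = l.length) ∧
    (∀ y₀ y, (∀ t ∈ prs (y₀ :: y :: (l ++ [z])), GP C a t.1 t.2) →
      ((y = a ∧ C (linv y₀) = true) ∨ (y = linv a ∧ C (l.headD z) = true)) →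
      ¬ (z = a ∧ C (linv ((y :: l).getLast (by simp))) = true) →
      (∀ t ∈ prs (y₀ :: (run C a none y l z ++ [z])), t.2 ≠ linv t.1) ∧
      ex C (y₀ :: (run C a none y l z ++ [z])) = ex C (y₀ :: y :: (l ++ [z])) ∧
      (run C a none y l z).length + ex C (y₀ :: y :: (l ++ [z])) = l.length + 1) := by
  have haa : linv a ≠ a := linv_ne a
  have hC : ∀ x : Letter M, C x = true → x ≠ a ∧ x ≠ linv a := by
    intro x hx
    exact ⟨by rintro rfl; rw [h1] at hx; exact absurd hx (by simp),
      by rintro rfl; rw [h2] at hx; exact absurd hx (by simp)⟩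
  -- the facts about a deleted letter
  have hdel : ∀ y₀ y x : Letter M, GP C a y₀ y → GP C a y x →
      ((y = a ∧ C (linv y₀) = true) ∨ (y = linv a ∧ C x = true)) →
      x ≠ linv y₀ ∧ (C (linv y₀) != C x) = true ∧
        ((if (C (linv y) != C x) = true then 1 else 0) +
          (if (C (linv y₀) != C y) = true then 1 else 0) = 1) ∧
        ¬ (x = a ∧ C (linv y) = true) ∧ x ≠ linv a := by
    intro y₀ y x g1 g2 hd
    rcases hd with ⟨rfl, hd⟩ | ⟨rfl, hd⟩
    · have hx : C x = false := by
        by_contra hcon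
        rw [Bool.not_eq_false] at hcon
        exact haa (g2.2.2 h2 hcon)
      refine ⟨fun hh => by rw [hh, hd] at hx; exact absurd hx (by simp), by rw [hd, hx]; rfl, ?_, ?_, g2.1⟩
      · rw [h1, h2, hx, hd]; rfl
      · rintro ⟨-, hh⟩; rw [h2] at hh; exact absurd hh (by simp)
    · have hy : C (linv y₀) = false := by
        by_contra hcon
        rw [Bool.not_eq_false] at hcon
        exact haa (g1.2.1 hcon h2)
      refine ⟨fun hh => by rw [hh, hy] at hd; exact absurd hd (by simp), by rw [hd, hy]; rfl, ?_, ?_,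
        (hC x hd).2⟩
      · rw [linv_linv, h1, h2, hy, hd]; rfl
      · rintro ⟨hh, -⟩; exact (hC x hd).1 hh
  intro l
  induction l with
  | nil =>
    constructor
    · intro y hG hy hz
      have g := hG (y, z) (by simp)
      have hne : ¬ (C (linv y) != C z) = true := by
        intro hh
        cases h3 : C (linv y) <;> cases h4 : C z <;> rw [h3, h4] at hh
        · exact absurd hh (by decide)
        · exact hy ⟨by rw [← g.2.2 h3 h4, linv_linv], h4⟩
        · exact hz ⟨g.2.1 h3 h4, h3⟩
        · exact absurd hh (by decide)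
      refine ⟨?_, rfl, ?_⟩
      · intro t ht
        simp [run] at ht
        rw [ht]; exact g.1
      · simp only [run, List.nil_append, List.length_nil, Nat.zero_add]
        rw [ex_cons, if_neg hne]; rfl
    · intro y₀ y hG hd hz
      have g1 := hG (y₀, y) (by simp)
      have g2 := hG (y, z) (by simp)
      obtain ⟨e1, e2, e3, e4, e5⟩ := hdel y₀ y z g1 g2 hd
      refine ⟨?_, ?_, ?_⟩
      · intro t ht
        simp [run] at ht
        rw [ht]; exact e1
      · simp only [run, List.nil_append]
        rw [ex_cons, ex_cons, ex_cons, if_pos e2, Nat.add_assoc, e3]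
      · simp only [run, List.nil_append, List.length_nil, Nat.zero_add]
        rw [ex_cons, ex_cons, Nat.add_assoc, e3]; rfl
  | cons x l ih =>
    obtain ⟨ih1, ih2⟩ := ih
    constructor
    · intro y hG hy hz
      simp only [List.cons_append, prs_cons, List.forall_mem_cons] at hG
      obtain ⟨g, hG'⟩ := hG
      rw [List.getLast_cons (by simp)] at hz
      simp only [run]
      by_cases hk : (x = a ∧ C (linv y) = true) ∨ (x = linv a ∧ C (l.headD z) = true)
      · have hop : opL C a none (y, (x, l.headD z)) = none := by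
          unfold opL
          rcases hk with hk | hk
          · rw [if_pos hk]
          · rw [if_neg (fun hh => haa (hk.1.symm.trans hh.1)), if_pos hk]; rfl
        rw [hop]
        simp only [Option.toList_none, List.nil_append, List.cons_append, List.length_cons]
        exact ih2 y x (by
          rw [prs_cons, List.forall_mem_cons]; exact ⟨g, hG'⟩) hk hz
      · rw [not_or] at hk
        have hop : opL C a none (y, (x, l.headD z)) = some x := by
          unfold opL
          rw [if_neg hk.1, if_neg hk.2]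
        rw [hop]
        simp only [Option.toList_some, List.cons_append, List.nil_append, List.length_cons]
        obtain ⟨i1, i2, i3⟩ := ih1 x hG' hk.2 hz
        have hne : ¬ (C (linv y) != C x) = true := by
          intro hh
          cases h3 : C (linv y) <;> cases h4 : C x <;> rw [h3, h4] at hh
          · exact absurd hh (by decide)
          · exact hy ⟨by rw [← g.2.2 h3 h4, linv_linv], h4⟩
          · exact hk.1 ⟨g.2.1 h3 h4, h3⟩
          · exact absurd hh (by decide)
        refine ⟨?_, ?_, ?_⟩
        · rw [prs_cons, List.forall_mem_cons]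
          exact ⟨g.1, i1⟩
        · rw [ex_cons, ex_cons, i2]
        · rw [ex_cons, if_neg hne]; omega
    · intro y₀ y hG hd hz
      simp only [List.cons_append, prs_cons, List.forall_mem_cons] at hG
      obtain ⟨g1, g2, hG'⟩ := hG
      rw [List.getLast_cons (by simp)] at hz
      obtain ⟨e1, e2, e3, e4, e5⟩ := hdel y₀ y x g1 g2 hd
      simp only [run]
      have hop : opL C a none (y, (x, l.headD z)) = some x := by
        unfold opL
        rw [if_neg e4, if_neg (fun hh => e5 hh.1)]
      rw [hop]
      simp only [Option.toList_some, List.cons_append, List.nil_append, List.length_cons]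
      obtain ⟨i1, i2, i3⟩ := ih1 x hG' (fun hh => e5 hh.1) hz
      refine ⟨?_, ?_, ?_⟩
      · rw [prs_cons, List.forall_mem_cons]
        exact ⟨e1, i1⟩
      · rw [ex_cons, ex_cons, ex_cons, i2, if_pos e2, Nat.add_assoc, e3]
      · rw [ex_cons, ex_cons]; omega

/-- There is a rotation which starts with a letter that is not changed. -/
theorem exists_start {w : List (Letter M)} {C : Letter M → Bool} {a : Letter M} (hne : w ≠ [])
    (h1 : C a = false) (h2 : C (linv a) = false) :
    ∃ x l, w ~r (x :: l) ∧ ¬ (x = a ∧ C (linv ((x :: l).getLast (by simp))) = true) ∧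
      ¬ (x = linv a ∧ C (l.headD x) = true) := by
  by_cases h : ∃ x ∈ w, x ≠ a ∧ x ≠ linv a
  · obtain ⟨x, hx, hxa, hxa'⟩ := h
    obtain ⟨u, v, rfl⟩ := List.append_of_mem hx
    exact ⟨x, v ++ u, List.isRotated_append, fun hh => hxa hh.1, fun hh => hxa' hh.1⟩
  · simp only [ne_eq, not_exists, not_and, not_not] at h
    obtain ⟨x, l, rfl⟩ := List.exists_cons_of_ne_nil hne
    have h3 : ∀ y ∈ x :: l, C y = false ∧ C (linv y) = false := by
      intro y hy
      by_cases hya : y = a
      · rw [hya]; exact ⟨h1, h2⟩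
      · rw [h y hy hya, linv_linv]; exact ⟨h2, h1⟩
    refine ⟨x, l, List.IsRotated.refl _, ?_, ?_⟩
    · rintro ⟨-, hh⟩
      rw [(h3 _ (List.getLast_mem _)).2] at hh; exact absurd hh (by simp)
    · rintro ⟨-, hh⟩
      have : l.headD x ∈ x :: l := by cases l <;> simp
      rw [(h3 _ this).1] at hh; exact absurd hh (by simp)

theorem slide_cr {w : List (Letter M)} {C : Letter M → Bool} {a : Letter M} (hw : CR w)
    (hok : Ok w C a) : CR (op C a none w) ∧ (op C a none w).length + cap w C = w.length ∧
      cap (op C a none w) C = cap w C := by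
  rcases eq_or_ne w [] with rfl | hne
  · simp [op, ctx, cap, cpairs, CR]
  obtain ⟨x, l, hrot, hx1, hx2⟩ := exists_start hne hok.a_not hok.a_inv_not
  have hr := op_rot C a none hrot
  have hG := gp_of (cr_rot hrot hw) (ok_rot hrot hok)
  rw [cpairs_cons] at hG
  obtain ⟨i1, i2, i3⟩ := (slide_main hok.a_not hok.a_inv_not x l).1 x hG hx2 hx1
  have hop : op C a none (x :: l) = x :: run C a none x l x := by
    rw [op_cons, run]
    have : opL C a none ((x :: l).getLast (by simp), (x, l.headD x)) = some x := by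
      unfold opL
      rw [if_neg hx1, if_neg hx2]
    rw [this]; rfl
  have hcap : cap w C = ex C (x :: (l ++ [x])) := by
    rw [cap_rot hrot]; unfold cap; rw [cpairs_cons]; rfl
  have hcap' : cap (op C a none w) C = ex C (x :: (run C a none x l x ++ [x])) := by
    rw [cap_rot hr, hop]; unfold cap; rw [cpairs_cons]; rfl
  refine ⟨?_, ?_, ?_⟩
  · apply cr_rot hr.symm
    rw [hop, cr_iff, cpairs_cons]
    exact i1
  · rw [hr.perm.length_eq, hop, hrot.perm.length_eq, hcap]
    simp only [List.length_cons]
    omega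
  · rw [hcap, hcap', i2]

/-! ### splits -/

theorem split_main {C : Letter M → Bool} {a f : Letter M} (h1 : C a = false) (z : Letter M)
    (hzf : z.1 ≠ f.1) : ∀ (l : List (Letter M)) (y y' : Letter M),
    (∀ t ∈ prs (y :: (l ++ [z])), GP C a t.1 t.2) → y.1 ≠ f.1 → (∀ x ∈ l, x.1 ≠ f.1) →
    ((y' = y ∧ ¬ (y = linv a ∧ C (l.headD z) = true)) ∨ (y = a ∧ y' = f) ∨
      (y = linv a ∧ C (l.headD z) = true ∧ y' = linv f)) →
    ∀ t ∈ prs (y' :: (run C a (some f) y l z ++ [z])), t.2 ≠ linv t.1 := by
  have hff : linv f ≠ f := linv_ne f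
  intro l
  induction l with
  | nil =>
    intro y y' hG hyf _ hy t ht
    have g := hG (y, z) (by simp)
    simp [run] at ht
    subst ht
    simp only
    rcases hy with ⟨rfl, -⟩ | ⟨-, rfl⟩ | ⟨-, -, rfl⟩
    · exact g.1
    · intro hh; exact hzf (by rw [hh]; rfl)
    · intro hh; exact hzf (by rw [hh]; rfl)
  | cons x l ih =>
    intro y y' hG hyf hlf hy
    simp only [List.cons_append, prs_cons, List.forall_mem_cons] at hG hlf
    obtain ⟨g, hG'⟩ := hG
    obtain ⟨hxf, hlf'⟩ := hlf
    simp only [run]
    have haa : linv a ≠ a := linv_ne a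
    -- the new name of x
    obtain ⟨x', hx', hop, hx''⟩ : ∃ x', (((x' = x ∧ ¬ (x = linv a ∧ C (l.headD z) = true)) ∨
        (x = a ∧ x' = f) ∨ (x = linv a ∧ C (l.headD z) = true ∧ x' = linv f))) ∧
        opL C a (some f) (y, (x, l.headD z)) = some x' ∧ (x' = x ∨ (x = a ∧ x' = f) ∨
          (x = linv a ∧ x' = linv f)) := by
      by_cases hA : x = a ∧ C (linv y) = true
      · refine ⟨f, Or.inr (Or.inl ⟨hA.1, rfl⟩), ?_, Or.inr (Or.inl ⟨hA.1, rfl⟩)⟩
        unfold opL; rw [if_pos hA]
      · by_cases hB : x = linv a ∧ C (l.headD z) = true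
        · refine ⟨linv f, Or.inr (Or.inr ⟨hB.1, hB.2, rfl⟩), ?_, Or.inr (Or.inr ⟨hB.1, rfl⟩)⟩
          unfold opL; rw [if_neg hA, if_pos hB]; rfl
        · refine ⟨x, Or.inl ⟨rfl, hB⟩, ?_, Or.inl rfl⟩
          unfold opL; rw [if_neg hA, if_neg hB]
    rw [hop]
    simp only [Option.toList_some, List.cons_append, List.nil_append, prs_cons,
      List.forall_mem_cons]
    refine ⟨?_, ih x x' hG' hxf hlf' hx'⟩
    simp only [List.headD_cons] at hy
    have hxf1 : x ≠ linv f := fun hh => hxf (by rw [hh]; rfl)
    have hxf2 : x ≠ f := fun hh => hxf (by rw [hh])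
    have hyf1 : f ≠ linv y := fun hh => hyf (by rw [hh]; rfl)
    have hyf2 : linv f ≠ linv y := fun hh => hyf (by rw [linv_inj.1 hh])
    rcases hy with ⟨rfl, -⟩ | ⟨rfl, rfl⟩ | ⟨rfl, hCx, rfl⟩
    · rcases hx'' with rfl | ⟨-, rfl⟩ | ⟨-, rfl⟩
      · exact g.1
      · exact hyf1
      · exact hyf2
    · rcases hx'' with rfl | ⟨-, rfl⟩ | ⟨hx, rfl⟩
      · exact hxf1
      · exact hff.symm
      · exact absurd hx g.1
    · rw [linv_linv]
      rcases hx'' with rfl | ⟨hx, rfl⟩ | ⟨-, rfl⟩
      · exact hxf2
      · rw [hx, h1] at hCx; exact absurd hCx (by simp)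
      · exact hff

theorem split_cr {w : List (Letter M)} {C : Letter M → Bool} {a f : Letter M} (hw : CR w)
    (hok : Ok w C a) (hf : ∀ x ∈ w, x.1 ≠ f.1) : CR (op C a (some f) w) := by
  rcases eq_or_ne w [] with rfl | hne
  · simp [op, ctx, CR]
  obtain ⟨x, l, hrot, hx1, hx2⟩ := exists_start hne hok.a_not hok.a_inv_not
  have hr := op_rot C a (some f) hrot
  have hG := gp_of (cr_rot hrot hw) (ok_rot hrot hok)
  rw [cpairs_cons] at hG
  have hf' : ∀ y ∈ x :: l, y.1 ≠ f.1 := fun y hy => hf y (hrot.perm.mem_iff.2 hy)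
  rw [List.forall_mem_cons] at hf'
  have hop : op C a (some f) (x :: l) = x :: run C a (some f) x l x := by
    rw [op_cons, run]
    have : opL C a (some f) ((x :: l).getLast (by simp), (x, l.headD x)) = some x := by
      unfold opL
      rw [if_neg hx1, if_neg hx2]
    rw [this]; rfl
  apply cr_rot hr.symm
  rw [hop, cr_iff, cpairs_cons]
  exact split_main hok.a_not x hf'.1 l x x hG hf'.1 hf'.2 (Or.inl ⟨rfl, hx2⟩)

theorem split_len (C : Letter M → Bool) (a f : Letter M) (w : List (Letter M)) :
    (op C a (some f) w).length = w.length := by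
  unfold op
  have : ∀ l : List (Letter M × (Letter M × Letter M)),
      (l.filterMap (opL C a (some f))).length = l.length := by
    intro l
    induction l with
    | nil => rfl
    | cons t l ih =>
      have : ∃ y, opL C a (some f) t = some y := by
        unfold opL
        split_ifs
        · exact ⟨_, rfl⟩
        · exact ⟨_, rfl⟩
        · exact ⟨_, rfl⟩
      obtain ⟨y, hy⟩ := this
      rw [List.filterMap_cons_some hy, List.length_cons, List.length_cons, ih]
  rw [this]
  simp [ctx]

/-! ### the automorphism -/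

/-- The element of a letter. -/
def L1 (x : Letter M) : FreeGroup (Fin M) := FreeGroup.mk [x]

theorem L1_inv (x : Letter M) : L1 (linv x) = (L1 x)⁻¹ := by
  unfold L1
  rw [FreeGroup.inv_mk]; rfl

theorem mk_cons (x : Letter M) (l : List (Letter M)) :
    (FreeGroup.mk (x :: l) : FreeGroup (Fin M)) = L1 x * FreeGroup.mk l := by
  unfold L1
  rw [FreeGroup.mul_mk]; rfl

/-- `P` for half-edges in `C`. -/
def uu (C : Letter M → Bool) (P : FreeGroup (Fin M)) (x : Letter M) : FreeGroup (Fin M) :=
  if C x = true then P else 1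

/-- The automorphism, as a homomorphism. -/
def phi (C : Letter M → Bool) (P : FreeGroup (Fin M)) : FreeGroup (Fin M) →* FreeGroup (Fin M) :=
  FreeGroup.lift (fun i => uu C P (i, true) * FreeGroup.of i * (uu C P (i, false))⁻¹)

theorem phi_L1 (C : Letter M → Bool) (P : FreeGroup (Fin M)) (x : Letter M) :
    phi C P (L1 x) = uu C P x * L1 x * (uu C P (linv x))⁻¹ := by
  rcases x with ⟨i, s⟩
  cases s
  · have h1 : L1 (i, false) = (FreeGroup.of i)⁻¹ := by
      have := L1_inv ((i, true) : Letter M)
      exact this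
    rw [h1, map_inv]
    unfold phi
    rw [FreeGroup.lift_apply_of]
    simp only [linv, mul_inv_rev, inv_inv, mul_assoc, Bool.not_false]
  · have h1 : L1 (i, true) = FreeGroup.of i := rfl
    rw [h1]
    unfold phi
    rw [FreeGroup.lift_apply_of]
    rfl

theorem phi_fix {C : Letter M → Bool} (P : FreeGroup (Fin M)) {x : Letter M} (h1 : C x = false)
    (h2 : C (linv x) = false) : phi C P (L1 x) = L1 x := by
  rw [phi_L1]
  simp [uu, h1, h2]

theorem phi_comp {C : Letter M → Bool} {P Q : FreeGroup (Fin M)} (hPQ : P * Q = 1)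
    (hP : phi C Q P = P) : (phi C Q).comp (phi C P) = MonoidHom.id _ := by
  apply FreeGroup.ext_hom
  intro i
  have h1 : FreeGroup.of i = L1 ((i, true) : Letter M) := rfl
  have hQP : Q * P = 1 := by
    have : Q = P⁻¹ := (inv_eq_of_mul_eq_one_right hPQ).symm
    rw [this]; exact inv_mul_cancel P
  rw [MonoidHom.comp_apply, MonoidHom.id_apply, h1, phi_L1, map_mul, map_mul, map_inv, phi_L1]
  have hu : ∀ x : Letter M, phi C Q (uu C P x) = uu C P x := by
    intro x; unfold uu; split_ifs
    · exact hP
    · exact map_one _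
  have huu : ∀ x : Letter M, uu C P x * uu C Q x = 1 := by
    intro x; unfold uu; split_ifs
    · exact hPQ
    · exact mul_one 1
  rw [hu, hu]
  calc uu C P (i, true) * (uu C Q (i, true) * L1 (i, true) * (uu C Q (linv (i, true)))⁻¹) *
        (uu C P (linv (i, true)))⁻¹
      = (uu C P (i, true) * uu C Q (i, true)) * L1 (i, true) *
        (uu C P (linv (i, true)) * uu C Q (linv (i, true)))⁻¹ := by group
    _ = L1 (i, true) := by rw [huu, huu]; group

/-- The automorphism. -/
noncomputable def phiE (C : Letter M → Bool) (P Q : FreeGroup (Fin M)) (hPQ : P * Q = 1)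
    (hP : phi C Q P = P) (hQ : phi C P Q = Q) : FreeGroup (Fin M) ≃* FreeGroup (Fin M) :=
  MonoidHom.toMulEquiv (phi C P) (phi C Q) (phi_comp hPQ hP)
    (phi_comp (by
      have : Q = P⁻¹ := (inv_eq_of_mul_eq_one_right hPQ).symm
      rw [this]; exact inv_mul_cancel P) hQ)

/-- Exit factor before a letter. -/
def fA (C : Letter M → Bool) (P : FreeGroup (Fin M)) (y x : Letter M) : FreeGroup (Fin M) :=
  if C (linv y) = true ∧ C x = false then P⁻¹ else 1

/-- Exit factor after a letter. -/
def fB (C : Letter M → Bool) (P : FreeGroup (Fin M)) (y x : Letter M) : FreeGroup (Fin M) :=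
  if C (linv y) = false ∧ C x = true then P else 1

theorem fBA (C : Letter M → Bool) (P : FreeGroup (Fin M)) (y x : Letter M) :
    (uu C P (linv y))⁻¹ * uu C P x = fB C P y x * fA C P y x := by
  unfold uu fB fA
  cases C (linv y) <;> cases C x <;> simp

theorem last_mem_prs (z : α) : ∀ (l : List α) (x : α),
    ((x :: l).getLast (by simp), z) ∈ prs (x :: (l ++ [z]))
  | [], x => by simp
  | y :: l, x => by
    rw [List.cons_append, prs_cons, List.getLast_cons (by simp)]
    exact List.mem_cons_of_mem _ (last_mem_prs z l y)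

theorem run_mk {C : Letter M → Bool} {a : Letter M} {g : Option (Letter M)}
    {P : FreeGroup (Fin M)}
    (hblk : ∀ y x z, GP C a y x → GP C a x z →
      (FreeGroup.mk (opL C a g (y, (x, z))).toList : FreeGroup (Fin M)) =
        fA C P y x * L1 x * fB C P x z) (z : Letter M) :
    ∀ (l : List (Letter M)) (y : Letter M), (∀ t ∈ prs (y :: (l ++ [z])), GP C a t.1 t.2) →
      (FreeGroup.mk (run C a g y l z) : FreeGroup (Fin M)) =
        fA C P y (l.headD z) * (uu C P (l.headD z))⁻¹ * phi C P (FreeGroup.mk l) *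
          uu C P (linv ((y :: l).getLast (by simp))) *
          fB C P ((y :: l).getLast (by simp)) z := by
  intro l
  induction l with
  | nil =>
    intro y _
    have h1 := fBA C P y z
    have h2 : (FreeGroup.mk ([] : List (Letter M)) : FreeGroup (Fin M)) = 1 := rfl
    simp only [run, List.headD_nil, List.getLast_singleton]
    rw [h2, map_one]
    have h3 : uu C P (linv y) * fB C P y z * (fA C P y z * (uu C P z)⁻¹) = 1 := by
      calc uu C P (linv y) * fB C P y z * (fA C P y z * (uu C P z)⁻¹)
          = uu C P (linv y) * (fB C P y z * fA C P y z) * (uu C P z)⁻¹ := by group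
        _ = 1 := by rw [← h1]; group
    have h4 : fA C P y z * (uu C P z)⁻¹ * (uu C P (linv y) * fB C P y z) = 1 :=
      mul_eq_one_comm.1 h3
    rw [mul_one]
    refine h4.symm.trans ?_
    group
  | cons x l ih =>
    intro y hG
    simp only [List.cons_append, prs_cons, List.forall_mem_cons] at hG
    obtain ⟨g1, hG'⟩ := hG
    have g2 : GP C a x (l.headD z) := by
      apply hG' (x, l.headD z)
      obtain ⟨m, hm⟩ := headD_append z l
      rw [hm, prs_cons]
      exact List.mem_cons_self ..
    simp only [run, List.headD_cons]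
    have hlast : (y :: x :: l).getLast (by simp) = (x :: l).getLast (by simp) :=
      List.getLast_cons (by simp)
    rw [← FreeGroup.mul_mk, hblk y x _ g1 g2, ih x hG', mk_cons, map_mul, phi_L1, hlast]
    have h1 := fBA C P x (l.headD z)
    calc fA C P y x * L1 x * fB C P x (l.headD z) *
          (fA C P x (l.headD z) * (uu C P (l.headD z))⁻¹ * phi C P (FreeGroup.mk l) *
            uu C P (linv ((x :: l).getLast (by simp))) * fB C P ((x :: l).getLast (by simp)) z)
        = fA C P y x * L1 x * (fB C P x (l.headD z) * fA C P x (l.headD z)) *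
          (uu C P (l.headD z))⁻¹ * phi C P (FreeGroup.mk l) *
            uu C P (linv ((x :: l).getLast (by simp))) * fB C P ((x :: l).getLast (by simp)) z := by
          group
      _ = _ := by rw [← h1]; group

theorem op_mk {w : List (Letter M)} {C : Letter M → Bool} {a : Letter M} {g : Option (Letter M)}
    {P : FreeGroup (Fin M)} (hw : CR w) (hok : Ok w C a)
    (hblk : ∀ y x z, GP C a y x → GP C a x z →
      (FreeGroup.mk (opL C a g (y, (x, z))).toList : FreeGroup (Fin M)) =
        fA C P y x * L1 x * fB C P x z) :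
    ∃ D : FreeGroup (Fin M), (FreeGroup.mk (op C a g w) : FreeGroup (Fin M)) =
      D * phi C P (FreeGroup.mk w) * D⁻¹ := by
  rcases w with _ | ⟨x, l⟩
  · refine ⟨1, ?_⟩
    have h2 : (FreeGroup.mk ([] : List (Letter M)) : FreeGroup (Fin M)) = 1 := rfl
    simp [op, ctx, h2]
  have hG := gp_of hw hok
  rw [cpairs_cons] at hG
  have hG' : ∀ t ∈ prs ((x :: l).getLast (by simp) :: ((x :: l) ++ [x])), GP C a t.1 t.2 := by
    rw [List.cons_append, prs_cons, List.forall_mem_cons]
    exact ⟨hG _ (last_mem_prs x l x), hG⟩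
  have h := run_mk (P := P) hblk x (x :: l) _ hG'
  have hlast : ((x :: l).getLast (by simp) :: x :: l).getLast (by simp) =
      (x :: l).getLast (by simp) := List.getLast_cons (by simp)
  simp only [List.headD_cons] at h
  rw [hlast] at h
  set e := (x :: l).getLast (by simp) with he
  refine ⟨fA C P e x * (uu C P x)⁻¹, ?_⟩
  rw [op_cons, h]
  have h1 := fBA C P e x
  have h3 : uu C P (linv e) * fB C P e x * (fA C P e x * (uu C P x)⁻¹) = 1 := by
    calc uu C P (linv e) * fB C P e x * (fA C P e x * (uu C P x)⁻¹)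
        = uu C P (linv e) * (fB C P e x * fA C P e x) * (uu C P x)⁻¹ := by group
      _ = 1 := by rw [← h1]; group
  have h4 : (fA C P e x * (uu C P x)⁻¹)⁻¹ = uu C P (linv e) * fB C P e x :=
    (eq_inv_of_mul_eq_one_left h3).symm
  rw [h4]; group

theorem blk_slide {C : Letter M → Bool} {a : Letter M} (h1 : C a = false) (h2 : C (linv a) = false)
    (y x z : Letter M) (g1 : GP C a y x) (g2 : GP C a x z) :
    (FreeGroup.mk (opL C a none (y, (x, z))).toList : FreeGroup (Fin M)) =
      fA C (L1 a) y x * L1 x * fB C (L1 a) x z := by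
  have haa : linv a ≠ a := linv_ne a
  have hnil : (FreeGroup.mk ([] : List (Letter M)) : FreeGroup (Fin M)) = 1 := rfl
  unfold opL fA fB
  by_cases hA : x = a ∧ C (linv y) = true
  · obtain ⟨rfl, hy⟩ := hA
    have hB : ¬ (C (linv x) = false ∧ C z = true) := fun hh => haa (g2.2.2 hh.1 hh.2)
    rw [if_pos ⟨rfl, hy⟩, if_pos ⟨hy, h1⟩, if_neg hB]
    simp [hnil]
  · have hA' : ¬ (C (linv y) = true ∧ C x = false) := fun hh => hA ⟨g1.2.1 hh.1 hh.2, hh.1⟩
    rw [if_neg hA, if_neg hA']
    by_cases hB : x = linv a ∧ C z = true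
    · obtain ⟨rfl, hz⟩ := hB
      rw [if_pos ⟨rfl, hz⟩, if_pos ⟨by rw [linv_linv]; exact h1, hz⟩, L1_inv]
      simp [hnil]
    · have hB' : ¬ (C (linv x) = false ∧ C z = true) := fun hh =>
        hB ⟨by rw [← g2.2.2 hh.1 hh.2, linv_linv], hh.2⟩
      rw [if_neg hB, if_neg hB']
      simp [L1]

theorem blk_split {C : Letter M → Bool} {a f : Letter M} (h1 : C a = false)
    (h2 : C (linv a) = false) (y x z : Letter M) (g1 : GP C a y x) (g2 : GP C a x z) :
    (FreeGroup.mk (opL C a (some f) (y, (x, z))).toList : FreeGroup (Fin M)) =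
      fA C (L1 a * (L1 f)⁻¹) y x * L1 x * fB C (L1 a * (L1 f)⁻¹) x z := by
  have haa : linv a ≠ a := linv_ne a
  unfold opL fA fB
  by_cases hA : x = a ∧ C (linv y) = true
  · obtain ⟨rfl, hy⟩ := hA
    have hB : ¬ (C (linv x) = false ∧ C z = true) := fun hh => haa (g2.2.2 hh.1 hh.2)
    rw [if_pos ⟨rfl, hy⟩, if_pos ⟨hy, h1⟩, if_neg hB]
    change L1 f = (L1 x * (L1 f)⁻¹)⁻¹ * L1 x * 1
    group
  · have hA' : ¬ (C (linv y) = true ∧ C x = false) := fun hh => hA ⟨g1.2.1 hh.1 hh.2, hh.1⟩
    rw [if_neg hA, if_neg hA']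
    by_cases hB : x = linv a ∧ C z = true
    · obtain ⟨rfl, hz⟩ := hB
      rw [if_pos ⟨rfl, hz⟩, if_pos ⟨by rw [linv_linv]; exact h1, hz⟩, L1_inv, one_mul,
        inv_mul_cancel_left, ← L1_inv]
      rfl
    · have hB' : ¬ (C (linv x) = false ∧ C z = true) := fun hh =>
        hB ⟨by rw [← g2.2.2 hh.1 hh.2, linv_linv], hh.2⟩
      rw [if_neg hB, if_neg hB']
      simp [L1]

theorem slide : SlideStmt := by
  intro M w C a hw hok
  obtain ⟨h1, h2, h3⟩ := slide_cr hw hok
  refine ⟨h1, h2, h3, ?_⟩
  obtain ⟨D, hD⟩ := op_mk (P := L1 a) hw hok (blk_slide hok.a_not hok.a_inv_not)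
  have hfix : ∀ Q : FreeGroup (Fin M), phi C Q (L1 a) = L1 a := fun Q =>
    phi_fix Q hok.a_not hok.a_inv_not
  refine ⟨(phiE C (L1 a) (L1 a)⁻¹ (mul_inv_cancel _) (hfix _) (by rw [map_inv, hfix])).trans
    (MulAut.conj D), ?_⟩
  rw [hD]
  rfl

theorem split : SplitStmt := by
  intro M w C a f hw hok hf hCf hCf' haf
  refine ⟨split_cr hw hok hf, split_len C a f w, ?_⟩
  obtain ⟨D, hD⟩ := op_mk (P := L1 a * (L1 f)⁻¹) hw hok (blk_split (f := f) hok.a_not hok.a_inv_not)
  have hfix : ∀ Q : FreeGroup (Fin M), phi C Q (L1 a * (L1 f)⁻¹) = L1 a * (L1 f)⁻¹ := fun Q => by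
    rw [map_mul, map_inv, phi_fix Q hok.a_not hok.a_inv_not, phi_fix Q hCf hCf']
  refine ⟨(phiE C (L1 a * (L1 f)⁻¹) (L1 a * (L1 f)⁻¹)⁻¹ (mul_inv_cancel _) (hfix _)
    (by rw [map_inv, hfix])).trans (MulAut.conj D), ?_⟩
  rw [hD]
  rfl

/-! ### relation to `sigW` -/

theorem mk_if_inv (b : Bool) (p : List (Letter M)) :
    (FreeGroup.mk (if b then FreeGroup.invRev p else []) : FreeGroup (Fin M)) =
      (if b = true then FreeGroup.mk p else 1)⁻¹ := by
  cases b
  · simp
    rfl
  · simp

theorem sigW_mk (C : Letter M → Bool) (p : List (Letter M)) (w : List (Letter M)) :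
    (FreeGroup.mk (sigW C p w) : FreeGroup (Fin M)) = phi C (FreeGroup.mk p) (FreeGroup.mk w) := by
  have hnil : (FreeGroup.mk ([] : List (Letter M)) : FreeGroup (Fin M)) = 1 := rfl
  induction w with
  | nil => simp [sigW, hnil]
  | cons x l ih =>
    rw [mk_cons, map_mul, phi_L1, ← ih]
    unfold sigW
    rw [List.flatMap_cons, ← FreeGroup.mul_mk]
    congr 1
    unfold sigL
    rw [← FreeGroup.mul_mk, mk_cons, mk_if_inv, ← mul_assoc]
    congr 2
    unfold uu
    split_ifs <;> simp_all

theorem conj_of_eq {G : Type*} [Group G] {x y D : G} (h : x = D * y * D⁻¹) : IsConj x y := by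
  rw [isConj_comm, isConj_iff]
  exact ⟨D, h.symm⟩

theorem sigOp : (∀ (M : ℕ) (w : List (Letter M)) (C : Letter M → Bool) (a : Letter M), CR w →
    Ok w C a → IsConj (FreeGroup.mk (op C a none w)) (FreeGroup.mk (sigW C [a] w))) ∧
    (∀ (M : ℕ) (w : List (Letter M)) (C : Letter M → Bool) (a f : Letter M), CR w → Ok w C a →
    (∀ x ∈ w, x.1 ≠ f.1) → C f = false → C (linv f) = false → a.1 ≠ f.1 →
    IsConj (FreeGroup.mk (op C a (some f) w)) (FreeGroup.mk (sigW C [a, linv f] w))) := by
  constructor
  · intro M w C a hw hok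
    obtain ⟨D, hD⟩ := op_mk (P := L1 a) hw hok (blk_slide hok.a_not hok.a_inv_not)
    rw [sigW_mk]
    exact conj_of_eq hD
  · intro M w C a f hw hok _ _ _ _
    obtain ⟨D, hD⟩ := op_mk (P := L1 a * (L1 f)⁻¹) hw hok (blk_split (f := f) hok.a_not hok.a_inv_not)
    have h2 : (FreeGroup.mk [a, linv f] : FreeGroup (Fin M)) = L1 a * (L1 f)⁻¹ := by
      rw [mk_cons, ← L1_inv]; rfl
    rw [sigW_mk, h2]
    exact conj_of_eq hD

end Pool.Agent.Lib.MP_0c2883_lc.All.Ops
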