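import Pool.Agent.Lib.MP_0c2883_lc.All.SBStmts

/-!
# SBW: weights after slides and splits
-/

set_option autoImplicit false

namespace Pool.Agent.Lib.MP_0c2883_lc.All

namespace SBW

variable {M : ℕ}

/-- splitting a sum along `C` -/
theorem sum_split (C : Letter M → Bool) (F : Letter M → ℕ) :
    ∑ q, F q = (∑ q, if C q then F q else 0) + ∑ q, if C q then 0 else F q := by
  rw [← Finset.sum_add_distrib]
  apply Finset.sum_congr rfl
  intro q _
  cases C q <;> simp

/-- sums which agree outside one point -/
theorem sum_off (r : Letter M) (F F' : Letter M → ℕ) (h : ∀ q, q ≠ r → F q = F' q) :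
    (∑ q, F q) + F' r = (∑ q, F' q) + F r := by
  rw [← Finset.add_sum_erase Finset.univ F (Finset.mem_univ r),
    ← Finset.add_sum_erase Finset.univ F' (Finset.mem_univ r)]
  have : ∑ q ∈ Finset.univ.erase r, F q = ∑ q ∈ Finset.univ.erase r, F' q := by
    apply Finset.sum_congr rfl
    intro q hq
    exact h q (Finset.ne_of_mem_erase hq)
  omega

theorem eq_linv_of_fst {p q : Letter M} (h : p.1 = q.1) : p = q ∨ p = linv q := by
  rcases p with ⟨i, s⟩
  rcases q with ⟨j, t⟩
  simp only at h
  subst h
  cases s <;> cases t <;> simp [linv]

variable {μ μ' : St M} {C : Letter M → Bool} {a f : Letter M}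

theorem le_x (μ : St M) (p q : Letter M) : μ.m p q ≤ μ.x p :=
  Finset.single_le_sum (f := fun q => μ.m p q) (fun _ _ => Nat.zero_le _) (Finset.mem_univ q)

/-- no turns between `C` and its complement except at `a` -/
theorem Ok.zero (h : μ.Ok C a) {p q : Letter M} (hp : C p = true) (hq : C q = false)
    (hqa : q ≠ a) : μ.m p q = 0 := by
  by_contra hne
  exact hqa (h.bd p q (Nat.pos_of_ne_zero hne) hp hq)

/-- for `p` in `C` the turns leaving `C` go to `a` -/
theorem Ok.out (h : μ.Ok C a) {p : Letter M} (hp : C p = true) :
    (∑ q, if C q then 0 else μ.m p q) = μ.m p a := by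
  rw [Finset.sum_eq_single a]
  · simp [h.a_not]
  · intro q _ hqa
    cases hq : C q with
    | true => simp
    | false => simp [Ok.zero h hp hq hqa]
  · intro h; exact absurd (Finset.mem_univ a) h

/-- for `p` outside `C` the turns entering `C` -/
theorem Ok.into (h : μ.Ok C a) {p : Letter M} (hp : C p = false) (hpa : p ≠ a) :
    (∑ q, if C q then μ.m p q else 0) = 0 := by
  apply Finset.sum_eq_zero
  intro q _
  cases hq : C q with
  | false => simp
  | true =>
    rw [if_pos rfl, μ.symm]
    exact Ok.zero h hq hp hpa

theorem into_a (μ : St M) (C : Letter M → Bool) (a : Letter M) :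
    (∑ q, if C q then μ.m a q else 0) = μ.n C a := by
  unfold St.n
  apply Finset.sum_congr rfl
  intro q _
  rw [μ.symm]

/-- slides: outside `C`, away from `a⁻¹` -/
theorem slide_out (h : ASlide μ μ' C a) {p : Letter M} (hp : C p = false) (hpa : p ≠ linv a) :
    μ'.x p + (∑ q, if C q then μ.m p q else 0) = μ.x p := by
  have h1 : μ'.x p = _ := sum_split C (fun q => μ'.m p q)
  have h2 : μ.x p = _ := sum_split C (fun q => μ.m p q)
  have h3 := sum_off (linv a) (fun q => if C q then 0 else μ'.m p q)
    (fun q => if C q then 0 else μ.m p q) (by
      intro q hq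
      cases hC : C q with
      | true => simp
      | false =>
        simp only [Bool.false_eq_true, if_false]
        exact h.outC p q hp hC hpa hq)
  simp only [h.ok.a_inv_not, Bool.false_eq_true, if_false] at h3
  have h4 := h.old p hp
  have h5 : (∑ c, if C c then μ'.m c p else 0) = ∑ q, if C q then μ'.m p q else 0 := by
    apply Finset.sum_congr rfl
    intro q _
    rw [μ'.symm]
  rw [h5, μ.symm, μ'.symm] at h4
  omega

theorem slide_in (h : ASlide μ μ' C a) {p : Letter M} (hp : C p = true) : μ'.x p = μ.x p := by
  have h1 : μ'.x p = _ := sum_split C (fun q => μ'.m p q)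
  have h2 : μ.x p = _ := sum_split C (fun q => μ.m p q)
  have h3 := Ok.out h.ok hp
  have h4 := h.cap p hp
  have h5 : (∑ q, if C q then μ'.m p q else 0) = ∑ q, if C q then μ.m p q else 0 := by
    apply Finset.sum_congr rfl
    intro q _
    cases hq : C q with
    | false => simp
    | true => simp [h.inC p q hp hq]
  omega

theorem ne_linv (a : Letter M) : a ≠ linv a := fun h => linv_ne a h.symm

/-- SBW, slides -/
theorem wslide : WSlideStmt := by
  intro M μ μ' C a h
  refine ⟨?_, ?_, ?_⟩
  · have := slide_out h h.ok.a_not (ne_linv a)
    rwa [into_a] at this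
  · intro p hp
    cases hC : C p with
    | true => exact slide_in h hC
    | false =>
      have h1 : p ≠ linv a := by rintro rfl; exact hp rfl
      have h2 : p ≠ a := by rintro rfl; exact hp rfl
      have := slide_out h hC h1
      rwa [Ok.into h.ok hC h2, Nat.add_zero] at this
  · unfold St.n
    apply Finset.sum_congr rfl
    intro c _
    cases hC : C c with
    | false => simp
    | true =>
      rw [← h.cap c hC]
      simp only [Bool.true_and, if_true]
      apply Finset.sum_congr rfl
      intro y _
      cases C y <;> simp

/-- SBW, splits -/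
theorem wsplit : WSplitStmt := by
  intro M μ μ' C a f h
  have hf0 : ∀ p, μ.m p f = 0 := by
    intro p
    have := le_x μ f p
    rw [h.free, μ.symm] at this
    omega
  have hf0' : ∀ p, μ.m p (linv f) = 0 := by
    intro p
    have h1 := le_x μ (linv f) p
    have h2 : μ.x (linv f) = μ.x f := (μ.bal f).symm
    rw [h2, h.free, μ.symm] at h1
    omega
  have hne : linv a ≠ linv f := by
    intro e
    exact h.f_ne (by rw [linv_inj.1 e])
  -- outside `C`
  have hout : ∀ p, C p = false → p ≠ linv a → p.1 ≠ f.1 →
      μ'.x p + (∑ q, if C q then μ.m p q else 0) = μ.x p := by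
    intro p hp hpa hpf
    have h1 : μ'.x p = _ := sum_split C (fun q => μ'.m p q)
    have h2 : μ.x p = _ := sum_split C (fun q => μ.m p q)
    have h0 : (∑ q, if C q then μ'.m p q else 0) = 0 := by
      apply Finset.sum_eq_zero
      intro q _
      cases hq : C q with
      | false => simp
      | true =>
        rw [if_pos rfl, μ'.symm]
        exact h.toO q p hq hp (by rintro rfl; exact hpf rfl)
    -- intermediate function
    have h3 := sum_off (linv a) (fun q => if C q then 0 else if q = linv f then 0 else μ'.m p q)
      (fun q => if C q then 0 else μ.m p q) (by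
        intro q hq
        cases hC : C q with
        | true => simp
        | false =>
          simp only [Bool.false_eq_true, if_false]
          split_ifs with hqf
          · rw [hqf, hf0']
          · by_cases hq1 : q.1 = f.1
            · rcases eq_linv_of_fst hq1 with hh | hh
              · rw [hh, hf0, μ'.symm]
                exact h.fO p hp
              · exact absurd hh hqf
            · exact h.outC p q hp hC hpa hq hpf hq1)
    have h4 := sum_off (linv f) (fun q => if C q then 0 else μ'.m p q)
      (fun q => if C q then 0 else if q = linv f then 0 else μ'.m p q) (by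
        intro q hq
        simp [hq])
    simp only [h.ok.a_inv_not, h.f_inv_not, Bool.false_eq_true, if_false, if_true, hne] at h3 h4
    have h5 := h.old p hp
    rw [μ.symm, μ'.symm, μ'.symm (linv f)] at h5
    omega
  refine ⟨?_, ?_, ?_⟩
  · have := hout a h.ok.a_not (ne_linv a) h.f_ne
    rwa [into_a] at this
  · have h1 : μ'.x f = _ := sum_split C (fun q => μ'.m f q)
    rw [h1]
    have h2 : (∑ q, if C q then 0 else μ'.m f q) = 0 := by
      apply Finset.sum_eq_zero
      intro q _
      cases hq : C q with
      | true => simp
      | false => simp [h.fO q hq]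
    rw [h2, Nat.add_zero]
    unfold St.n
    apply Finset.sum_congr rfl
    intro q _
    cases hq : C q with
    | false => simp
    | true => rw [if_pos rfl, if_pos rfl, μ'.symm, h.toF q hq]
  · intro p hpa hpf
    cases hC : C p with
    | false =>
      have h1 : p ≠ linv a := by rintro rfl; exact hpa rfl
      have h2 : p ≠ a := by rintro rfl; exact hpa rfl
      have := hout p hC h1 hpf
      rwa [Ok.into h.ok hC h2, Nat.add_zero] at this
    | true =>
      have h1 : μ'.x p = _ := sum_split C (fun q => μ'.m p q)
      have h2 : μ.x p = _ := sum_split C (fun q => μ.m p q)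
      have h3 := Ok.out h.ok hC
      have h4 : (∑ q, if C q then 0 else μ'.m p q) = μ.m p a := by
        rw [Finset.sum_eq_single f]
        · simp [h.f_not, h.toF p hC]
        · intro q _ hqf
          cases hq : C q with
          | true => simp
          | false => simp [h.toO p q hC hq hqf]
        · intro h; exact absurd (Finset.mem_univ f) h
      have h5 : (∑ q, if C q then μ'.m p q else 0) = ∑ q, if C q then μ.m p q else 0 := by
        apply Finset.sum_congr rfl
        intro q _
        cases hq : C q with
        | false => simp
        | true => simp [h.inC p q hC hq]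
      omega

end SBW

/-- SBW: weights after a slide -/
theorem wSlide : WSlideStmt := SBW.wslide

/-- SBW: weights after a split -/
theorem wSplit : WSplitStmt := SBW.wsplit

end Pool.Agent.Lib.MP_0c2883_lc.All
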