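import Pool.Agent.Lib.MP_0c2883_lc.All.AlgB
import Pool.Agent.Lib.MP_0c2883_lc.All.Ops
import Pool.Agent.Lib.MP_0c2883_lc.All.SBW

/-!
# Inversion of cyclic words, and chains of slides of words as chains of abstract slides
-/

set_option autoImplicit false

namespace Pool.Agent.Lib.MP_0c2883_lc.All.Alg

open Pool.Agent.Lib.PolyTime List
open FreeGroup (invRev)

variable {M : ℕ}

/-! ### Inversion -/

theorem invRev_def (w : List (Letter M)) : invRev w = (w.map linv).reverse := rfl

/-- the context of an entry, read backwards -/
def swp (t : Letter M × (Letter M × Letter M)) : Letter M × (Letter M × Letter M) :=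
  (linv t.2.2, (linv t.2.1, linv t.1))

theorem ctx_invRev (w : List (Letter M)) : ctx (invRev w) = ((ctx w).map swp).reverse := by
  rcases eq_or_ne w [] with rfl | hne
  · rfl
  have hn : 0 < w.length := List.length_pos_iff.2 hne
  rw [invRev_def]
  have e1 : ((w.map linv).reverse).rotate 1 = ((w.map linv).rotate (w.length - 1)).reverse := by
    rw [List.reverse_rotate, List.length_map]
    rcases Nat.lt_or_ge 1 w.length with h | h
    · rw [Nat.mod_eq_of_lt (by omega), Nat.sub_sub_self (by omega)]
    · have h1 : w.length = 1 := by omega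
      rw [h1]
  have e2 : ((w.map linv).reverse).rotate (w.length - 1) = ((w.map linv).rotate 1).reverse := by
    rw [List.reverse_rotate, List.length_map]
    rcases Nat.lt_or_ge 1 w.length with h | h
    · rw [Nat.mod_eq_of_lt h]
    · have h1 : w.length = 1 := by omega
      rw [h1]
      have h2 : ((w.map linv).reverse).length = 1 := by simp [h1]
      obtain ⟨x, hx⟩ := List.length_eq_one_iff.1 h2
      rw [hx, List.rotate_singleton, List.rotate_singleton]
  have e3 : ctx (w.map linv).reverse = (((w.map linv).rotate 1).zip ((w.map linv).zip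
      ((w.map linv).rotate (w.length - 1)))).reverse := by
    unfold ctx
    rw [List.length_reverse, List.length_map, e1, e2]
    unfold List.zip
    rw [← List.reverse_zipWith (by simp), ← List.reverse_zipWith (by simp)]
  rw [e3]
  congr 1
  unfold ctx
  apply List.ext_getElem
  · simp
  · intro i h1 h2
    simp [swp, List.getElem_rotate]

theorem opL_swp {C : Letter M → Bool} {a : Letter M} (g : Option (Letter M))
    (t : Letter M × (Letter M × Letter M)) : opL C a g (swp t) = (opL C a g t).map linv := by
  have hll : (fun x => linv (linv x)) = (fun x : Letter M => x) := by funext x; simp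
  have haa : linv a ≠ a := linv_ne a
  unfold opL swp
  simp only [linv_linv]
  by_cases h1 : t.2.1 = a
  · have h2 : linv t.2.1 ≠ a := by rw [h1]; exact haa
    have h3 : linv t.2.1 = linv a := by rw [h1]
    by_cases h4 : C (linv t.1) = true
    · rw [if_neg (fun h => h2 h.1), if_pos ⟨h3, h4⟩, if_pos ⟨h1, h4⟩]
    · rw [if_neg (fun h => h2 h.1), if_neg (fun h => h4 h.2), if_neg (fun h => h4 h.2),
        if_neg (fun h => haa (by rw [← h.1, h1]))]
      rfl
  · by_cases h2 : t.2.1 = linv a
    · have h3 : linv t.2.1 = a := by rw [h2, linv_linv]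
      by_cases h4 : C t.2.2 = true
      · rw [if_pos ⟨h3, h4⟩, if_neg (fun h => h1 h.1), if_pos ⟨h2, h4⟩]
        rw [Option.map_map]
        show g = g.map (fun x => linv (linv x))
        rw [hll]; simp
      · rw [if_neg (fun h => h4 h.2), if_neg (fun h => haa (by rw [← h.1, h3])),
          if_neg (fun h => h1 h.1), if_neg (fun h => h4 h.2)]
        rfl
    · have h3 : linv t.2.1 ≠ a := fun h => h2 (by rw [← h, linv_linv])
      have h4 : linv t.2.1 ≠ linv a := fun h => h1 (linv_inj.1 h)
      rw [if_neg (fun h => h3 h.1), if_neg (fun h => h4 h.1), if_neg (fun h => h1 h.1),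
        if_neg (fun h => h2 h.1)]
      rfl

theorem op_invRev (C : Letter M → Bool) (a : Letter M) (g : Option (Letter M))
    (w : List (Letter M)) : op C a g (invRev w) = invRev (op C a g w) := by
  unfold op
  rw [ctx_invRev, List.filterMap_reverse, List.filterMap_map, invRev_def, List.map_filterMap]
  congr 2
  funext t
  exact opL_swp g t

theorem cpairs_invRev (w : List (Letter M)) :
    cpairs (invRev w) ~ (cpairs w).map (fun z => (linv z.2, linv z.1)) := by
  have h1 : ∀ u : List (Letter M), (ctx u).map (fun t => t.2) = cpairs u := by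
    intro u
    unfold ctx cpairs
    exact List.map_snd_zip (by simp)
  have h2 : ∀ u : List (Letter M), (ctx u).map (fun t => (t.1, t.2.1)) ~ cpairs u := by
    intro u
    rcases eq_or_ne u [] with rfl | hne
    · rfl
    have hn : 0 < u.length := List.length_pos_iff.2 hne
    have e : (ctx u).map (fun t => (t.1, t.2.1)) = (cpairs u).rotate (u.length - 1) := by
      unfold ctx cpairs
      apply List.ext_getElem
      · simp
      · intro i h1 h2
        simp only [List.length_map, List.length_zip, List.length_rotate] at h1
        have hi : i < u.length := by omega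
        simp only [List.getElem_map, List.getElem_zip, List.getElem_rotate, List.length_zip,
          List.length_rotate, Prod.mk.injEq]
        refine ⟨?_, ?_⟩
        · congr 1
          simp
        · congr 1
          simp only [Nat.min_self, Nat.mod_add_mod]
          rw [show i + (u.length - 1) + 1 = i + u.length by omega, Nat.add_mod_right,
            Nat.mod_eq_of_lt hi]
    rw [e]
    exact List.rotate_perm _ _
  rw [← h1 (invRev w), ctx_invRev, List.map_reverse, List.map_map]
  refine (List.reverse_perm _).trans ?_
  refine List.Perm.trans (List.Perm.of_eq ?_) ((h2 w).map _)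
  rw [List.map_map]
  rfl

theorem mem_cpairs_invRev {w : List (Letter M)} {x y : Letter M} :
    (x, y) ∈ cpairs (invRev w) ↔ (linv y, linv x) ∈ cpairs w := by
  rw [(cpairs_invRev w).mem_iff, List.mem_map]
  constructor
  · rintro ⟨z, hz, h⟩
    simp only [Prod.mk.injEq] at h
    rw [← h.1, ← h.2, linv_linv, linv_linv]
    exact hz
  · intro h
    exact ⟨_, h, by simp⟩

theorem tc_invRev (w : List (Letter M)) (p q : Letter M) : tc (invRev w) p q = tc w q p := by
  unfold tc
  rw [(cpairs_invRev w).countP_eq, List.countP_map]
  refine List.countP_congr (fun z _ => ?_)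
  simp only [Function.comp_apply, decide_eq_true_eq]
  constructor
  · intro h
    simp only [Prod.mk.injEq] at h
    rw [Prod.ext_iff]
    exact ⟨by rw [← h.2, linv_linv], linv_inj.1 h.1⟩
  · intro h
    rw [h]
    simp

theorem tm_invRev (w : List (Letter M)) (p q : Letter M) : tm (invRev w) p q = tm w p q := by
  unfold tm
  rw [tc_invRev, tc_invRev, Nat.add_comm]

theorem ok_invRev {w : List (Letter M)} {C : Letter M → Bool} {a : Letter M} (h : Ok w C a) :
    Ok (invRev w) C a :=
  ⟨h.a_not, h.a_inv_not, fun p q hpq => h.bd p q (by rwa [tm_invRev] at hpq)⟩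

theorem cr_invRev {w : List (Letter M)} (h : CR w) : CR (invRev w) := by
  rw [Ops.cr_iff] at h ⊢
  rintro ⟨x, y⟩ hz
  have := h _ (mem_cpairs_invRev.1 hz)
  simp only [linv_linv] at this
  intro h2
  exact this (Eq.symm h2)

theorem invRev_invRev (w : List (Letter M)) : invRev (invRev w) = w := FreeGroup.invRev_invRev

theorem rot_invRev {w w' : List (Letter M)} (h : w ~r w') : invRev w ~r invRev w' := by
  rw [invRev_def, invRev_def]
  exact (h.map linv).reverse

theorem wt_invRev (w : List (Letter M)) (p : Letter M) : wt (invRev w) p = wt w p := by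
  have h : ∀ q : Letter M, (invRev w).count (linv q) = w.count q := by
    intro q
    rw [invRev_def, List.count_reverse]
    exact List.count_map_of_injective w linv (fun x y hxy => linv_inj.1 hxy) q
  unfold wt
  rw [h]
  have h2 := h (linv p)
  rw [linv_linv] at h2
  rw [h2, Nat.add_comm]

theorem cap_invRev (w : List (Letter M)) (C : Letter M → Bool) : cap (invRev w) C = cap w C := by
  unfold cap
  rw [(cpairs_invRev w).countP_eq, List.countP_map]
  refine List.countP_congr (fun z _ => ?_)
  simp only [Function.comp_apply, linv_linv]
  cases C z.2 <;> cases C (linv z.1) <;> simp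

theorem step1_invRev {w w' : List (Letter M)} (h : Step1 w w') :
    Step1 (invRev w) (invRev w') := by
  rcases h with ⟨C, a, h, hw⟩ | ⟨C, a, f, h, hf, hCf, hCf', haf, hw⟩
  · refine Step1.slide C a (ok_invRev h) ?_
    rw [op_invRev]
    exact rot_invRev hw
  · refine Step1.split C a f (ok_invRev h) ?_ hCf hCf' haf ?_
    · intro x hx
      rw [invRev_def, List.mem_reverse, List.mem_map] at hx
      obtain ⟨y, hy, rfl⟩ := hx
      exact hf y hy
    · rw [op_invRev]
      exact rot_invRev hw

theorem reach_invRev {w w' : List (Letter M)} (h : Reach w w') :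
    Reach (invRev w) (invRev w') := by
  induction h with
  | refl => exact Relation.ReflTransGen.refl
  | tail _ h ih => exact ih.tail (step1_invRev h)

/-! ### Rotations -/

theorem wt_rot {w w' : List (Letter M)} (h : w ~r w') (p : Letter M) : wt w p = wt w' p := by
  unfold wt
  rw [h.perm.count_eq, h.perm.count_eq]

theorem hW_congr {w w' : List (Letter M)} (h : ∀ p, wt w p = wt w' p) (C : Letter M → Bool) :
    hW w C = hW w' C := by
  unfold hW
  simp only [h]

/-! ### Words and abstract states -/

theorem Of.rot {μ : St M} {w w' : List (Letter M)} (h : w ~r w') (hμ : μ.Of w) : μ.Of w' :=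
  fun p q => by rw [hμ p q, Ops.tm_rot h]

section of

variable {μ : St M} {w : List (Letter M)} (hμ : μ.Of w)
include hμ

theorem Of.ok {C : Letter M → Bool} {a : Letter M} : μ.Ok C a ↔ Ok w C a :=
  ⟨fun h => ⟨h.a_not, h.a_inv_not, fun p q hpq => h.bd p q (by rwa [hμ p q])⟩,
    fun h => ⟨h.a_not, h.a_inv_not, fun p q hpq => h.bd p q (by rwa [hμ p q] at hpq)⟩⟩

theorem Of.cand {C : Letter M → Bool} {a : Letter M} : μ.Cand C a ↔ Cand w C a := by
  have e : ∀ p q, (0 < μ.m p q) = (0 < tm w p q) := fun p q => by rw [hμ p q]
  constructor
  · intro h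
    have h1 := h.conn
    have h2 := h.exit
    have h3 := h.rest
    simp only [e] at h1 h2 h3
    exact ⟨(Of.ok hμ).1 h.ok, h1, h2, h3⟩
  · intro h
    have h1 := h.conn
    have h2 := h.exit
    have h3 := h.rest
    unfold ConnIn at h1
    simp only [← e] at h1 h2 h3
    exact ⟨(Of.ok hμ).2 h.ok, h1, h2, h3⟩

theorem Of.merge {c a : Letter M} : μ.MergeAt c a ↔ MergeAt w c a := by
  have e : ∀ p q, (0 < μ.m p q) = (0 < tm w p q) := fun p q => by rw [hμ p q]
  constructor
  · rintro ⟨h1, h2, h3, h4, h5⟩
    simp only [e] at h3 h4 h5
    exact ⟨h1, h2, h3, h4, h5⟩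
  · rintro ⟨h1, h2, h3, h4, h5⟩
    simp only [← e] at h3 h4 h5
    exact ⟨h1, h2, h3, h4, h5⟩

theorem Of.n (C : Letter M → Bool) (a : Letter M) : μ.n C a = nW w C a := by
  unfold St.n nW
  simp only [hμ _ _]

theorem Of.conn {p q : Letter M} : μ.Conn p q ↔ ConnW w p q := by
  have e : ∀ p q, (0 < μ.m p q) = (0 < tm w p q) := fun p q => by rw [hμ p q]
  unfold St.Conn ConnW
  simp only [e]

theorem Of.x (hOf : OfStmt) (hw : CR w) (p : Letter M) : μ.x p = wt w p :=
  (hOf M w hw).2.1 μ hμ p

theorem Of.h (hOf : OfStmt) (hw : CR w) (C : Letter M → Bool) : μ.h C = hW w C := by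
  unfold St.h hW
  simp only [Of.x hμ hOf hw]

end of

/-- number of exits in terms of turns -/
theorem cap_eq_sum (w : List (Letter M)) (C : Letter M → Bool) :
    cap w C = ∑ p, ∑ q, if C p && !C q then tm w p q else 0 := by
  have key : ∀ l : List (Letter M × Letter M),
      l.countP (fun z => C (linv z.1) != C z.2) = ∑ p, ∑ q, (if C p && !C q then
        l.countP (fun z => decide (z = (linv p, q))) +
        l.countP (fun z => decide (z = (linv q, p))) else 0) := by
    intro l
    induction l with
    | nil => simp
    | cons z l ih =>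
      rw [List.countP_cons, ih]
      have h1 : (if (C (linv z.1) != C z.2) = true then 1 else 0) = ∑ p, ∑ q,
          (if C p && !C q then (if decide (z = (linv p, q)) = true then 1 else 0) +
            (if decide (z = (linv q, p)) = true then 1 else 0) else 0) := by
        have e1 : ∀ p q : Letter M, (if (C p && !C q) = true then
            (if decide (z = (linv p, q)) = true then 1 else 0) +
            (if decide (z = (linv q, p)) = true then 1 else 0) else 0) =
            (if p = linv z.1 then (if q = z.2 then (if (C p && !C q) = true then 1 else 0)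
              else 0) else 0) +
            (if p = z.2 then (if q = linv z.1 then (if (C p && !C q) = true then 1 else 0)
              else 0) else 0) := by
          intro p q
          have a1 : decide (z = (linv p, q)) = true ↔ p = linv z.1 ∧ q = z.2 := by
            rw [decide_eq_true_iff, Prod.ext_iff]
            constructor
            · rintro ⟨h, h'⟩; exact ⟨by rw [h]; simp, h'.symm⟩
            · rintro ⟨h, h'⟩; exact ⟨by rw [h]; simp, h'.symm⟩
          have a2 : decide (z = (linv q, p)) = true ↔ p = z.2 ∧ q = linv z.1 := by
            rw [decide_eq_true_iff, Prod.ext_iff]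
            constructor
            · rintro ⟨h, h'⟩; exact ⟨h'.symm, by rw [h]; simp⟩
            · rintro ⟨h, h'⟩; exact ⟨by rw [h']; simp, h.symm⟩
          simp only [a1, a2]
          by_cases b1 : (C p && !C q) = true
          · simp only [b1, if_true, ite_and]
          · simp only [b1, Bool.false_eq_true, if_false, ite_self]
        simp only [e1, Finset.sum_add_distrib, Finset.sum_ite_eq', Finset.mem_univ, if_true,
          Finset.sum_ite_irrel, Finset.sum_const_zero]
        cases C (linv z.1) <;> cases C z.2 <;> simp
      rw [h1, ← Finset.sum_add_distrib]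
      refine Finset.sum_congr rfl (fun p _ => ?_)
      rw [← Finset.sum_add_distrib]
      refine Finset.sum_congr rfl (fun q _ => ?_)
      by_cases b1 : (C p && !C q) = true
      · simp only [b1, if_true, List.countP_cons]; ring
      · simp only [b1, Bool.false_eq_true, if_false]
  unfold cap tm tc
  exact key _

/-- with boundary `a`, all exits go to `a` -/
theorem cap_eq_nW {w : List (Letter M)} {C : Letter M → Bool} {a : Letter M} (h : Ok w C a) :
    cap w C = nW w C a := by
  rw [cap_eq_sum]
  unfold nW
  refine Finset.sum_congr rfl (fun c _ => ?_)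
  rcases hc : C c with _ | _
  · simp
  · rw [Finset.sum_eq_single a]
    · simp [h.a_not]
    · intro q _ hq
      rcases hCq : C q with _ | _
      · have : tm w c q = 0 := by
          by_contra h1
          exact hq (h.bd c q (Nat.pos_of_ne_zero h1) hc hCq)
        simp [this]
      · simp
    · simp

end Pool.Agent.Lib.MP_0c2883_lc.All.Alg
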