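import Pool.Agent.Lib.MP_0c2883_lc.All.AlgC

/-!
# The step of the algorithm
-/

set_option autoImplicit false

namespace Pool.Agent.Lib.MP_0c2883_lc.All.Alg

open Pool.Agent.Lib.PolyTime List
open FreeGroup (invRev)

variable {M : ℕ}

theorem AChain.head {C : Letter M → Bool} {h : ℕ} {μ μ₁ μ' : St M} {a : Letter M}
    (hs : ASlide μ μ₁ C a) (hx : h ≤ μ₁.x a) (hc : AChain C h μ₁ μ') : AChain C h μ μ' := by
  induction hc with
  | refl => exact AChain.tail _ _ _ a (AChain.refl _) hs hx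
  | tail μ₂ μ₃ b _ hs' hx' ih => exact AChain.tail _ _ _ b ih hs' hx'

theorem reach_slide {w : List (Letter M)} {C : Letter M → Bool} {a : Letter M}
    (h : Ok w C a) : Reach w (op C a none w) :=
  Relation.ReflTransGen.single (Step1.slide C a h (List.IsRotated.refl _))

/-- rotations of the end of a reachable word -/
theorem step1_rot {w w' w'' : List (Letter M)} (h : Step1 w w') (hr : w'' ~r w') :
    Step1 w w'' := by
  rcases h with ⟨C, a, h, hw⟩ | ⟨C, a, f, h, hf, hCf, hCf', haf, hw⟩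
  · exact Step1.slide C a h (hr.trans hw)
  · exact Step1.split C a f h hf hCf hCf' haf (hr.trans hw)

theorem step1_rot_left {w w' v : List (Letter M)} (h : Step1 w w') (hr : v ~r w) :
    Step1 v w' := by
  rcases h with ⟨C, a, h, hw⟩ | ⟨C, a, f, h, hf, hCf, hCf', haf, hw⟩
  · exact Step1.slide C a (Ops.ok_rot hr.symm h) (hw.trans (Ops.op_rot C a none hr.symm))
  · refine Step1.split C a f (Ops.ok_rot hr.symm h) ?_ hCf hCf' haf
      (hw.trans (Ops.op_rot C a (some f) hr.symm))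
    intro x hx
    exact hf x (hr.mem_iff.1 hx)

/-- a chain gives reachability and an abstract chain -/
theorem chainH (hSl : SlideStmt) (hOf : OfStmt) (hOfS : OfSlideStmt) {C : Letter M → Bool}
    {h : ℕ} {w p w' : List (Letter M)} (hc : ChainH C h w p w') (hw : CR w) :
    CR w' ∧ cap w' C = cap w C ∧
      (∀ v, Step1 v w → ∃ v', Reach v v' ∧ Step1 v' w') ∧
      ∀ μ : St M, μ.Of w → ∃ μ' : St M, μ'.Of w' ∧ AChain C h μ μ' := by
  induction hc with
  | nil w w' hr =>
    refine ⟨Ops.cr_rot hr.symm hw, Ops.cap_rot hr C, ?_, ?_⟩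
    · intro v hv
      exact ⟨v, Relation.ReflTransGen.refl, step1_rot hv hr⟩
    · intro μ hμ
      exact ⟨μ, Of.rot hr.symm hμ, AChain.refl μ⟩
  | cons w w' p a hO hx _ ih =>
    obtain ⟨h1, -, h2, -⟩ := hSl M w C a hw hO
    obtain ⟨h3, h4, h5, h6⟩ := ih h1
    refine ⟨h3, by rw [h4, h2], ?_, ?_⟩
    · intro v hv
      obtain ⟨v', h7, h8⟩ := h5 w (Step1.slide C a hO (List.IsRotated.refl _))
      exact ⟨v', (Relation.ReflTransGen.single hv).trans h7, h8⟩
    · intro μ hμ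
      obtain ⟨μ₁, hμ₁⟩ := (hOf M _ h1).1
      obtain ⟨μ', h7, h8⟩ := h6 μ₁ hμ₁
      refine ⟨μ', h7, AChain.head (hOfS M w C a μ μ₁ hw hO hμ hμ₁) ?_ h8⟩
      rw [Of.x hμ₁ hOf h1]
      exact hx

/-- What a step has to achieve. -/
def Post (w w' : List (Letter M)) : Prop :=
  CR w' ∧ w' ≠ [] ∧ Reach w w' ∧
    ∀ μ : St M, μ.Of w → ∃ μ' : St M, μ'.Of w' ∧ AStep (Kk M) μ μ'

theorem op_ne_nil {w : List (Letter M)} {C : Letter M → Bool} {a : Letter M} (hSl : SlideStmt)
    (hw : CR w) (hO : Ok w C a) (hne : w ≠ []) : op C a none w ≠ [] := by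
  intro h
  obtain ⟨-, h2, h3, -⟩ := hSl M w C a hw hO
  rw [h] at h2 h3
  have h4 : cap ([] : List (Letter M)) C = 0 := rfl
  rw [h4] at h3
  rw [← h3] at h2
  exact hne (List.length_eq_zero_iff.1 (by simpa using h2.symm))

theorem QSplit.facts {w : List (Letter M)} {C : Letter M → Bool} {a f : Letter M}
    (hQ : QSplit C a f w) : Ok w C a ∧ C f = false ∧ C (linv f) = false ∧ a.1 ≠ f.1 := by
  obtain ⟨q1, q2, q3, q4, q5, q6⟩ := hQ
  have hunused : ∀ p : Letter M, p.1 = f.1 → C p = false := by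
    intro p hp
    rcases hCp : C p with _ | _
    · rfl
    · exfalso
      have h1 := cand_pos q2 hCp
      unfold wt at h1
      rw [Nat.add_pos_iff_pos_or_pos, List.count_pos_iff, List.count_pos_iff] at h1
      rcases h1 with h1 | h1
      · exact q6 _ h1 hp
      · exact q6 _ h1 (by rw [linv_fst]; exact hp)
  have hCf := hunused f rfl
  have hCf' := hunused (linv f) rfl
  have haf : a.1 ≠ f.1 := by
    intro h
    obtain ⟨c, hc1, hc2⟩ := q2.exit
    have h1 : 0 < wt w a := wt_pos_of_tm (q := c) (by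
      have : tm w a c = tm w c a := by unfold tm; ring
      rw [this]; exact hc2)
    unfold wt at h1
    rw [Nat.add_pos_iff_pos_or_pos, List.count_pos_iff, List.count_pos_iff] at h1
    rcases h1 with h1 | h1
    · exact q6 _ h1 h
    · exact q6 _ h1 (by rw [linv_fst]; exact h)
  exact ⟨q2.ok, hCf, hCf', haf⟩

theorem QMerge.facts {w : List (Letter M)} {c a : Letter M}
    (hQ : QMerge c a w) : Ok w (fun y => decide (y = c)) a := by
  refine ⟨by simpa using Ne.symm hQ.ne, by simpa using Ne.symm hQ.ne', ?_⟩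
  intro p q hpq hp hq
  have hp' : p = c := by simpa using hp
  subst hp'
  exact hQ.left q hpq

section post

variable (hSl : SlideStmt) (hSp : SplitStmt) (hOf : OfStmt) (hOfS : OfSlideStmt)
  (hOfP : OfSplitStmt)
include hSl hOf hOfS

theorem post_merge {w w' : List (Letter M)} (hw : CR w) (hne : w ≠ []) {c a : Letter M}
    (hQ : QMerge c a w) (hr : w' ~r op (fun y => decide (y = c)) a none w) : Post w w' := by
  have hO : Ok w (fun y => decide (y = c)) a := QMerge.facts hQ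
  obtain ⟨h1, -, -, -⟩ := hSl M w _ a hw hO
  refine ⟨Ops.cr_rot hr.symm h1, ?_, Relation.ReflTransGen.single (Step1.slide _ a hO hr), ?_⟩
  · intro h
    rw [h] at hr
    exact op_ne_nil hSl hw hO hne ((List.isRotated_nil_iff'.1 hr).symm)
  · intro μ hμ
    obtain ⟨μ', hμ'⟩ := (hOf M _ h1).1
    exact ⟨μ', Of.rot hr.symm hμ', AStep.merge c a ((Of.merge hμ).2 hQ)
      (hOfS M w _ a μ μ' hw hO hμ hμ')⟩

omit hSl hOfS in
theorem min_of {w : List (Letter M)} (hw : CR w) {C : Letter M → Bool} (h : MinC w C)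
    {μ : St M} (hμ : μ.Of w) : ∀ C' a', μ.Cand C' a' → μ.h C ≤ μ.h C' := by
  intro C' a' hC'
  rw [Of.h hμ hOf hw, Of.h hμ hOf hw]
  exact h C' a' ((Of.cand hμ).1 hC')

theorem post_loop {w w' : List (Letter M)} (hw : CR w) (hne : w ≠ []) {C : Letter M → Bool}
    {a : Letter M} (hQ : QLoop C a w) (hr : w' ~r op C a none w) : Post w w' := by
  obtain ⟨q1, q2, q3, q4, q5, q6⟩ := hQ
  have hO := q2.ok
  obtain ⟨h1, -, -, -⟩ := hSl M w _ a hw hO
  refine ⟨Ops.cr_rot hr.symm h1, ?_, Relation.ReflTransGen.single (Step1.slide _ a hO hr), ?_⟩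
  · intro h
    rw [h] at hr
    exact op_ne_nil hSl hw hO hne ((List.isRotated_nil_iff'.1 hr).symm)
  · intro μ hμ
    obtain ⟨μ', hμ'⟩ := (hOf M _ h1).1
    refine ⟨μ', Of.rot hr.symm hμ', AStep.loop C a (fun c a h => q1 c a ((Of.merge hμ).1 h))
      ((Of.cand hμ).2 q2) (min_of hOf hw q3 hμ) ((Of.conn hμ).2 q4) ?_ ?_
      (hOfS M w _ a μ μ' hw hO hμ hμ')⟩
    · rw [Of.h hμ hOf hw, Of.n hμ, Of.x hμ hOf hw]; exact q5
    · rw [Of.n hμ, Of.x hμ hOf hw]; exact q6

omit hSl hOfS in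
include hSp hOfP in
theorem post_split {w w' : List (Letter M)} (hw : CR w) (hne : w ≠ []) {C : Letter M → Bool}
    {a f : Letter M} (hQ : QSplit C a f w) (hr : w' ~r op C a (some f) w) : Post w w' := by
  obtain ⟨hO, hCf, hCf', haf⟩ := QSplit.facts hQ
  obtain ⟨q1, q2, q3, q4, q5, q6⟩ := hQ
  obtain ⟨h1, h2, -⟩ := hSp M w _ a f hw hO q6 hCf hCf' haf
  refine ⟨Ops.cr_rot hr.symm h1, ?_,
    Relation.ReflTransGen.single (Step1.split _ a f hO q6 hCf hCf' haf hr), ?_⟩
  · intro h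
    have h3 := hr.perm.length_eq
    rw [h, h2] at h3
    exact hne (List.length_eq_zero_iff.1 h3.symm)
  · intro μ hμ
    obtain ⟨μ', hμ'⟩ := (hOf M _ h1).1
    refine ⟨μ', Of.rot hr.symm hμ', AStep.split C a f
      (fun c a h => q1 c a ((Of.merge hμ).1 h))
      ((Of.cand hμ).2 q2) (min_of hOf hw q3 hμ) ?_ ?_
      (hOfP M w _ a f μ μ' hw hO q6 hCf hCf' haf hμ hμ')⟩
    · rw [Of.h hμ hOf hw, Of.n hμ, Of.x hμ hOf hw]; exact q4
    · intro h
      rw [Of.n hμ, Of.x hμ hOf hw]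
      exact q5 ((Of.conn hμ).1 h)

/-- the accelerated slide; `v` is a word with the same turns (a rotation of `w` or of its
inverse) -/
theorem post_acc {w v v' : List (Letter M)} (hw : CR w) {C : Letter M → Bool}
    {a x y : Letter M} (hQ : QAcc C a x y w) (hv : v ~r w) {p : List (Letter M)}
    (hc : ChainH C (hW v C) (op C a none v) p v')
    (hmax : ∀ b, Ok v' C b → wt v' b < hW v C + cap v C) : Post w v' := by
  obtain ⟨q1, q2, q3, q4, q5, -⟩ := hQ
  have hO := q2.ok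
  have hvO := Ops.ok_rot hv.symm hO
  have hvCR := Ops.cr_rot hv.symm hw
  obtain ⟨h1, -, h2, -⟩ := hSl M v _ a hvCR hvO
  obtain ⟨h3, h4, h5, h6⟩ := chainH hSl hOf hOfS hc h1
  obtain ⟨u, h7, h8⟩ := h5 w (Step1.slide C a hO (Ops.op_rot C a none hv))
  have hwt : ∀ p, wt v p = wt w p := fun p => wt_rot hv p
  refine ⟨h3, ?_, h7.tail h8, ?_⟩
  · rintro rfl
    have hcap : 0 < cap w C := by
      obtain ⟨c, hc1, hc2⟩ := q2.exit
      rw [cap_eq_nW hO]
      unfold nW
      refine lt_of_lt_of_le hc2 ?_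
      have := Finset.single_le_sum (f := fun c => if C c = true then tm w c a else 0)
        (fun _ _ => Nat.zero_le _) (Finset.mem_univ c)
      simpa [hc1] using this
    rw [h2, Ops.cap_rot hv C] at h4
    rw [← h4] at hcap
    exact absurd hcap (by simp [cap, cpairs])
  · intro μ hμ
    have hμv := Of.rot hv.symm hμ
    obtain ⟨μ₁, hμ₁⟩ := (hOf M _ h1).1
    obtain ⟨μ', hμ', hch⟩ := h6 μ₁ hμ₁
    refine ⟨μ', hμ', AStep.acc C a μ₁ (fun c a h => q1 c a ((Of.merge hμ).1 h))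
      ((Of.cand hμ).2 q2) (min_of hOf hw q3 hμ) ?_ ?_
      (hOfS M v _ a μ μ₁ hvCR hvO hμv hμ₁) ?_ ?_⟩
    · rw [Of.h hμ hOf hw, Of.x hμ hOf hw]; exact q4
    · rw [Of.h hμ hOf hw, Of.n hμ]; exact q5
    · rw [Of.h hμ hOf hw, ← hW_congr hwt C]; exact hch
    · intro b hb
      have hb' := (Of.ok hμ').1 hb
      have h9 := hmax b hb'
      rw [Of.x hμ' hOf h3, Of.h hμ hOf hw, Of.n hμ', ← cap_eq_nW hb', ← hW_congr hwt C, h4, h2]
      exact h9

end post

theorem post_invRev {w w' : List (Letter M)} (h : Post (invRev w) w') : Post w (invRev w') := by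
  obtain ⟨h1, h2, h3, h4⟩ := h
  refine ⟨cr_invRev h1, ?_, ?_, ?_⟩
  · intro h5
    apply h2
    rw [← invRev_invRev w', h5]; rfl
  · have := reach_invRev h3
    rwa [invRev_invRev] at this
  · intro μ hμ
    obtain ⟨μ', h5, h6⟩ := h4 μ (fun p q => by rw [hμ p q, tm_invRev])
    exact ⟨μ', fun p q => by rw [h5 p q, tm_invRev], h6⟩

theorem sim_invRev_qAcc {w : List (Letter M)} {C : Letter M → Bool} {a x y : Letter M}
    (h : QAcc C a x y w) : QAcc C a (linv y) (linv x) (invRev w) := by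
  obtain ⟨q1, q2, q3, q4, q5, q6⟩ := h
  have ht : ∀ p q, (0 < tm (invRev w) p q) = (0 < tm w p q) := fun p q => by rw [tm_invRev]
  have hcand : ∀ C a, Cand (invRev w) C a ↔ Cand w C a := by
    intro C a
    constructor
    · intro h
      have h1 := h.conn
      have h2 := h.exit
      have h3 := h.rest
      unfold ConnIn at h1
      simp only [ht] at h1 h2 h3
      refine ⟨⟨h.ok.a_not, h.ok.a_inv_not, fun p q hpq => h.ok.bd p q ?_⟩, h1, h2, h3⟩
      rw [ht]; exact hpq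
    · intro h
      have h1 := h.conn
      have h2 := h.exit
      have h3 := h.rest
      unfold ConnIn at h1
      simp only [← ht] at h1 h2 h3
      exact ⟨ok_invRev h.ok, h1, h2, h3⟩
  have hwt : ∀ p, wt (invRev w) p = wt w p := wt_invRev w
  have hn : nW (invRev w) C a = nW w C a := by
    unfold nW
    simp only [tm_invRev]
  refine ⟨?_, (hcand C a).2 q2, ?_, ?_, ?_, ?_⟩
  · rintro c b ⟨m1, m2, m3, m4, m5⟩
    simp only [ht] at m3 m4 m5
    exact q1 c b ⟨m1, m2, m3, m4, m5⟩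
  · intro C' a' hC'
    rw [hW_congr hwt, hW_congr hwt]
    exact q3 C' a' ((hcand C' a').1 hC')
  · rw [hW_congr hwt, hwt]; exact q4
  · rw [hW_congr hwt, hn]; exact q5
  · rw [mem_cpairs_invRev, linv_linv, linv_linv]; exact q6

end Pool.Agent.Lib.MP_0c2883_lc.All.Alg
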