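import Pool.Agent.Lib.MP_0c2883_lc.All.Defs
import Pool.Agent.Lib.MP_0c2883_lc.BNat
import Mathlib.GroupTheory.FreeGroup.CyclicallyReduced
import Mathlib.GroupTheory.FreeGroup.IsFreeGroup
import Mathlib.Data.List.Rotate
import Mathlib.Tactic

/-!
# Basic definitions for all ranks: cyclic words, turns, slides, grammars

Convention: a letter `x : Letter M` is also the half-edge at its start; `linv x` is the half-edge at
its end. In a cyclic word, two consecutive letters `x, y` make the turn `(linv x, y)`.
-/

set_option autoImplicit false

namespace Pool.Agent.Lib.MP_0c2883_lc.All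

open Pool.Agent.Lib.PolyTime List

variable {M : ℕ} {α : Type}

/-- The inverse letter. -/
def linv (x : Letter M) : Letter M := (x.1, !x.2)

@[simp] theorem linv_linv (x : Letter M) : linv (linv x) = x := by
  rcases x with ⟨i, s⟩; simp [linv]

@[simp] theorem linv_fst (x : Letter M) : (linv x).1 = x.1 := rfl

theorem linv_ne (x : Letter M) : linv x ≠ x := by
  rcases x with ⟨i, s⟩; cases s <;> simp [linv]

theorem linv_inj {x y : Letter M} : linv x = linv y ↔ x = y :=
  ⟨fun h => by rw [← linv_linv x, h, linv_linv], fun h => by rw [h]⟩

/-- Cyclically reduced words (Mathlib's notion). -/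
abbrev CR (w : List (Letter M)) : Prop := FreeGroup.IsCyclicallyReduced w

/-- The pairs of cyclically consecutive entries. -/
def cpairs (w : List α) : List (α × α) := w.zip (w.rotate 1)

/-- Number of occurrences of the turn `(p, q)`, read in the direction of the word: number of cyclic
occurrences of the two letter word `p⁻¹ q`. -/
def tc (w : List (Letter M)) (p q : Letter M) : ℕ :=
  (cpairs w).countP (fun z => decide (z = (linv p, q)))

/-- Number of occurrences of the (unordered) turn `{p, q}`. -/
def tm (w : List (Letter M)) (p q : Letter M) : ℕ := tc w p q + tc w q p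

/-- The entries of a cyclic word together with their neighbours: `(previous, (entry, next))`. -/
def ctx (w : List α) : List (α × (α × α)) := (w.rotate (w.length - 1)).zip (w.zip (w.rotate 1))

/-- What the elementary operation does with one letter. -/
def opL (C : Letter M → Bool) (a : Letter M) (g : Option (Letter M))
    (t : Letter M × (Letter M × Letter M)) : Option (Letter M) :=
  if t.2.1 = a ∧ C (linv t.1) = true then g
  else if t.2.1 = linv a ∧ C t.2.2 = true then g.map linv
  else some t.2.1

/-- The elementary operation on cyclic words: every letter `a` which is preceded by the inverse of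
a letter of `C` (and every `a⁻¹` followed by a letter of `C`) is deleted (`g = none`: a slide),
or renamed to `f`, `f⁻¹` (`g = some f`: a split). -/
def op (C : Letter M → Bool) (a : Letter M) (g : Option (Letter M)) (w : List (Letter M)) :
    List (Letter M) := (ctx w).filterMap (opL C a g)

/-- The half-edges in `C` are joined by turns of `w` only to each other and to `a`, and neither `a`
nor its inverse lies in `C`. -/
structure Ok (w : List (Letter M)) (C : Letter M → Bool) (a : Letter M) : Prop where
  a_not : C a = false
  a_inv_not : C (linv a) = false
  bd : ∀ p q, 0 < tm w p q → C p = true → C q = false → q = a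

/-- One elementary step between cyclic words (given up to rotation). -/
inductive Step1 (w w' : List (Letter M)) : Prop
  | slide (C : Letter M → Bool) (a : Letter M) (h : Ok w C a) (hw : w' ~r op C a none w)
  | split (C : Letter M → Bool) (a f : Letter M) (h : Ok w C a)
      (hf : ∀ x ∈ w, x.1 ≠ f.1) (hCf : C f = false) (hCf' : C (linv f) = false)
      (haf : a.1 ≠ f.1) (hw : w' ~r op C a (some f) w)

/-- `w'` is obtained from `w` by finitely many elementary steps. -/
def Reach (w w' : List (Letter M)) : Prop := Relation.ReflTransGen Step1 w w'

/-- Number of occurrences of the letter `x` and its inverse. -/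
def wt (w : List (Letter M)) (x : Letter M) : ℕ := w.count x + w.count (linv x)

/-- Number of exits of `C`: occurrences of turns between `C` and its complement. -/
def cap (w : List (Letter M)) (C : Letter M → Bool) : ℕ :=
  (cpairs w).countP (fun z => C (linv z.1) != C z.2)

/-- Image of a letter under the automorphism which multiplies the start of every letter of `C` by
`p` (on the left): `x ↦ p^{[x ∈ C]} x p^{-[x⁻¹ ∈ C]}`. -/
def sigL (C : Letter M → Bool) (p : List (Letter M)) (x : Letter M) : List (Letter M) :=
  (if C x then p else []) ++ x :: (if C (linv x) then FreeGroup.invRev p else [])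

/-- Image of a word (not reduced). -/
def sigW (C : Letter M → Bool) (p w : List (Letter M)) : List (Letter M) := w.flatMap (sigL C p)

/-- An element of a free group which belongs to a basis. -/
def IsPrim {β : Type} (g : FreeGroup β) : Prop :=
  ∃ (ι : Type) (b : FreeGroupBasis ι (FreeGroup β)) (i : ι), b i = g

/-- Property Q: there is a set `A` which is moved only finitely by every right translation and whose
membership changes along right translation by `w` exactly at `1`. -/
def PQ {G : Type} [Group G] (w : G) : Prop :=
  ∃ A : Set G, (∀ h : G, {g : G | ¬ (g * h ∈ A ↔ g ∈ A)}.Finite) ∧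
    {g : G | ¬ (g * w ∈ A ↔ g ∈ A)} = {1}

/-! ### Grammars -/

/-- Rules of a grammar: the empty word, a letter, or a concatenation of two earlier words. -/
abbrev GRule (M : ℕ) := Option (Letter M ⊕ ℕ × ℕ)

/-- Grammars. -/
abbrev Gram (M : ℕ) := List (GRule M)

/-- The word of a rule, given the words of the earlier rules. -/
def ruleVal (vs : List (List (Letter M))) : GRule M → List (Letter M)
  | none => []
  | some (Sum.inl x) => [x]
  | some (Sum.inr (j, k)) => vs[j]?.getD [] ++ vs[k]?.getD []

/-- Tables computed rule by rule. -/
def tab {τ : Type} (step : List τ → GRule M → τ) (G : Gram M) : List τ :=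
  G.foldl (fun t r => t ++ [step t r]) []

/-- The word of the `i`-th rule. -/
def V (G : Gram M) (i : ℕ) : List (Letter M) := (tab ruleVal G)[i]?.getD []

/-- Rules refer to earlier rules. -/
def Valid (G : Gram M) : Prop :=
  ∀ i a b : ℕ, G[i]? = some (some (Sum.inr (a, b))) → a < i ∧ b < i

/-- A valid grammar whose first rule is the empty word. -/
def Good (G : Gram M) : Prop := Valid G ∧ G[0]? = some none

/-- The word `u` is produced by a grammar with at most `n` rules. -/
def HasSLP (n : ℕ) (u : List (Letter M)) : Prop :=
  ∃ G : Gram M, Good G ∧ G.length ≤ n ∧ ∃ i < G.length, V G i = u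

end Pool.Agent.Lib.MP_0c2883_lc.All
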