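import Pool.Agent.Lib.MP_0c2883_lc.All.Rot

/-!
# Counting in compressed words
-/

set_option autoImplicit false

namespace Pool.Agent.Lib.MP_0c2883_lc.All

open Pool.Agent.Lib.PolyTime List

namespace Cnt

variable {M : ℕ}

/-- The number of positions between two letters `x`, `y`. -/
def lc (x y : Letter M) : List (Letter M) → ℕ
  | [] => 0
  | [_] => 0
  | a :: b :: w => (if a = x ∧ b = y then 1 else 0) + lc x y (b :: w)

theorem lc_append (x y : Letter M) : ∀ u v : List (Letter M),
    lc x y (u ++ v) = lc x y u + lc x y v +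
      if u.getLast? = some x ∧ v.head? = some y then 1 else 0
  | [], v => by simp [lc]
  | [a], [] => by simp [lc]
  | [a], b :: v => by simp [lc, Nat.add_comm]
  | a :: b :: u, v => by
    have ih := lc_append x y (b :: u) v
    have e : (a :: b :: u).getLast? = (b :: u).getLast? := by simp
    rw [List.cons_append] at ih
    rw [List.cons_append, List.cons_append, lc, lc, ih, e]
    omega

theorem lc_le (x y : Letter M) : ∀ w : List (Letter M), lc x y w ≤ w.length
  | [] => by simp [lc]
  | [a] => by simp [lc]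
  | a :: b :: w => by
    have ih := lc_le x y (b :: w)
    rw [lc, List.length_cons]
    split_ifs <;> omega

theorem lc_zip (x y : Letter M) : ∀ (w : List (Letter M)) (a c : Letter M),
    ((a :: w).zip (w ++ [c])).count (x, y) = lc x y (a :: w) +
      if (a :: w).getLast? = some x ∧ c = y then 1 else 0
  | [], a, c => by
    simp only [List.nil_append, List.zip_cons_cons, List.zip_nil_left, lc, Nat.zero_add,
      List.getLast?_singleton, Option.some.injEq]
    rw [List.count_singleton]
    by_cases h : a = x ∧ c = y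
    · rw [if_pos h, if_pos (by rw [h.1, h.2]; simp)]
    · rw [if_neg h, if_neg (by simpa using h)]
  | b :: w, a, c => by
    have ih := lc_zip x y w b c
    have e : (a :: b :: w).getLast? = (b :: w).getLast? := by simp
    have e2 : (if ((a, b) == (x, y)) = true then 1 else 0) = (if a = x ∧ b = y then 1 else 0) := by
      by_cases h : a = x ∧ b = y
      · rw [if_pos h, if_pos (by rw [h.1, h.2]; simp)]
      · rw [if_neg h, if_neg (by simpa using h)]
    rw [List.cons_append, List.zip_cons_cons, List.count_cons, ih, e, lc, e2]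
    omega

theorem count_cpairs (x y : Letter M) (w : List (Letter M)) :
    (cpairs w).count (x, y) = lc x y w +
      if w.getLast? = some x ∧ w.head? = some y then 1 else 0 := by
  rcases w with _ | ⟨a, w⟩
  · simp [cpairs, lc]
  · unfold cpairs
    rw [List.rotate_cons_succ, List.rotate_zero, lc_zip]
    simp

/-! ### The table -/

/-- entries of the table: number, first and last letter -/
abbrev Ent (M : ℕ) := BNz × (Option (Letter M) × Option (Letter M))

/-- default entry -/
def e0 : Ent M := (⟨0⟩, (none, none))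

/-- the entry of a word -/
def ent (x y : Letter M) (w : List (Letter M)) : Ent M := (⟨lc x y w⟩, (w.head?, w.getLast?))

/-- is the pair there -/
def tst (x y : Letter M) (l h : Option (Letter M)) : BNz :=
  if (decide (l = some x) && decide (h = some y)) = true then ⟨1⟩ else ⟨0⟩

theorem tst_eq (x y : Letter M) (l h : Option (Letter M)) :
    (tst x y l h).val = if l = some x ∧ h = some y then 1 else 0 := by
  unfold tst
  by_cases h1 : l = some x <;> by_cases h2 : h = some y <;> simp [h1, h2]

/-- the entry of a concatenation -/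
def jn (x y : Letter M) (a b : Ent M) : Ent M :=
  (⟨a.1.val + b.1.val + (tst x y a.2.2 b.2.1).val⟩, (a.2.1.or b.2.1, b.2.2.or a.2.2))

theorem ent_append (x y : Letter M) (u v : List (Letter M)) :
    ent x y (u ++ v) = jn x y (ent x y u) (ent x y v) := by
  unfold ent jn
  simp only [List.head?_append, List.getLast?_append, lc_append, tst_eq]

/-- one step of the table -/
def stp (x y : Letter M) (t : List (Ent M)) (r : GRule M) : Ent M :=
  match r with
  | none => e0
  | some (Sum.inl z) => (⟨0⟩, (some z, some z))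
  | some (Sum.inr p) => jn x y (t[p.1]?.getD e0) (t[p.2]?.getD e0)

theorem tab_eq (x y : Letter M) (G : Gram M) :
    (tab ruleVal G).map (ent x y) = tab (stp x y) G := by
  refine tab_map ruleVal ?_ G
  intro t r
  rcases r with _ | z | ⟨a, b⟩
  · rfl
  · rfl
  · have ea : ((t.map (ent x y))[a]?.getD e0) = ent x y (t[a]?.getD []) :=
      (getD_map (ent x y) t a []).symm
    have eb : ((t.map (ent x y))[b]?.getD e0) = ent x y (t[b]?.getD []) :=
      (getD_map (ent x y) t b []).symm
    simp only [ruleVal, stp, ent_append, ea, eb]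

theorem get_eq (x y : Letter M) (G : Gram M) (i : ℕ) :
    (tab (stp x y) G)[i]?.getD e0 = ent x y (V G i) := by
  rw [← tab_eq, V]
  exact (getD_map (ent x y) _ i []).symm

theorem size_ent {x y : Letter M} {w : List (Letter M)} {n : ℕ} (h : w.length ≤ 2 ^ n) :
    size (ent x y w) ≤ 4 * n + (4 * M + 60) := by
  have h1 := Rot.size_bn_pow (n := n) (k := lc x y w) ((lc_le x y w).trans h)
  have h2 := size_optionLetter_le w.head?
  have h3 := size_optionLetter_le w.getLast?
  unfold ent
  rw [size_prod, size_prod]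
  simp only
  omega

section PT

variable {α : Type} [Enc α]

theorem PT.tst (x y : Letter M) {f g : α → Option (Letter M)} (hf : PT f) (hg : PT g) :
    PT (fun a => Cnt.tst x y (f a) (g a)) :=
  PT.cond (PT.and ((PT.eqConst (some x)).comp hf) ((PT.eqConst (some y)).comp hg))
    (PT.const _) (PT.const _)

theorem PT.jn (x y : Letter M) {f g : α → Ent M} (hf : PT f) (hg : PT g) :
    PT (fun a => Cnt.jn x y (f a) (g a)) :=
  PT.pair (PT.bnzAdd (PT.bnzAdd hf.fst' hg.fst') (PT.tst x y hf.snd'.snd' hg.snd'.fst'))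
    (PT.pair (PT.or' hf.snd'.fst' hg.snd'.fst') (PT.or' hg.snd'.snd' hf.snd'.snd'))

theorem PT.tb (x y : Letter M) {f : α → Gram M} (hf : PT f) :
    PT (fun a => All.tab (stp x y) (f a)) := by
  refine PT.tab hf ?_ (Polynomial.C 4 * Polynomial.X + Polynomial.C (4 * M + 60)) ?_
  · exact (PT.ruleCases (f := fun z : List (Ent M) × GRule M => z.2) (g := fun _ => (e0 : Ent M))
      (h := fun _ z => (((⟨0⟩ : BNz), (some z, some z)) : Ent M))
      (k := fun z p => Cnt.jn x y (z.1[p.1]?.getD e0) (z.1[p.2]?.getD e0))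
      PT.snd (PT.const _)
      ((PT.const _).pair (PT.snd.some.pair PT.snd.some))
      (PT.jn x y (PT.getDv PT.snd.fst' PT.fst.fst' _) (PT.getDv PT.snd.snd' PT.fst.fst' _))).congr
      (fun z => by rcases z.2 with _ | u | p <;> rfl)
  · intro G b hb
    rw [← tab_eq, List.mem_map] at hb
    obtain ⟨v, hv, rfl⟩ := hb
    have h1 := size_ent (x := x) (y := y) (Rot.len_le G v hv)
    have h2 := length_le_size G
    simp only [Polynomial.eval_add, Polynomial.eval_mul, Polynomial.eval_C, Polynomial.eval_X]
    omega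

end PT

/-- the number of occurrences of a pair -/
def cp (x y : Letter M) (z : Gram M × ℕ) : BNz :=
  ⟨((tab (stp x y) z.1)[z.2]?.getD e0).1.val +
    (tst x y ((tab (stp x y) z.1)[z.2]?.getD e0).2.2
      ((tab (stp x y) z.1)[z.2]?.getD e0).2.1).val⟩

theorem cp1 (x y : Letter M) : PT (cp x y) ∧ ∀ z, (cp x y z).val = (cpairs (wd z)).count (x, y) := by
  constructor
  · have h1 : PT (fun z : Gram M × ℕ => (tab (stp x y) z.1)[z.2]?.getD e0) :=
      PT.getDv PT.snd (PT.tb x y PT.fst) e0
    exact PT.bnzAdd h1.fst' (PT.tst x y h1.snd'.snd' h1.snd'.fst')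
  · intro z
    unfold cp
    simp only [get_eq, tst_eq]
    rw [count_cpairs]
    rfl

/-- the length -/
def ln (z : Gram M × ℕ) : BNz := len (mkEnv z.1) z.2

theorem ln1 : PT (ln (M := M)) ∧ ∀ z : Gram M × ℕ, (ln z).val = (wd z).length :=
  ⟨PT.len (PT.mkEnv PT.fst) PT.snd, fun z => by unfold ln; rw [len_mk]; rfl⟩

/-- the weight -/
def wg (x : Letter M) (z : Gram M × ℕ) : BNz :=
  ⟨(num z.1 z.2 (fun y => y == x)).val + (num z.1 z.2 (fun y => y == linv x)).val⟩

theorem wg1 (x : Letter M) : PT (wg x) ∧ ∀ z, (wg x z).val = wt (wd z) x := by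
  constructor
  · exact PT.bnzAdd (PT.num _ PT.fst PT.snd) (PT.num _ PT.fst PT.snd)
  · intro z
    unfold wg
    simp only [num_eq]
    rfl

end Cnt

/-- CNT -/
theorem countStmt : CountStmt := fun _ =>
  ⟨fun x y => ⟨Cnt.cp x y, (Cnt.cp1 x y).1, fun z _ => (Cnt.cp1 x y).2 z⟩,
    ⟨Cnt.ln, Cnt.ln1.1, fun z _ => Cnt.ln1.2 z⟩,
    fun x => ⟨Cnt.wg x, (Cnt.wg1 x).1, fun z _ => (Cnt.wg1 x).2 z⟩⟩

end Pool.Agent.Lib.MP_0c2883_lc.All
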