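import Pool.Agent.Lib.MP_0c2883_lc.All.Stmts

/-! # CONJ: conjugate cyclically reduced words are rotations of each other -/

set_option autoImplicit false

namespace Pool.Agent.Lib.MP_0c2883_lc.All

open List

namespace Conj

variable {α : Type}

theorem cr_rotate_head {y : α × Bool} {v : List (α × Bool)}
    (h : FreeGroup.IsCyclicallyReduced (y :: v)) : FreeGroup.IsCyclicallyReduced (v ++ [y]) := by
  rw [FreeGroup.isCyclicallyReduced_iff] at h ⊢
  obtain ⟨h1, h2⟩ := h
  rw [FreeGroup.IsReduced, List.isChain_cons] at h1
  refine ⟨?_, ?_⟩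
  · rw [FreeGroup.IsReduced, List.isChain_append]
    refine ⟨h1.2, by simp, ?_⟩
    intro a ha b hb
    simp only [List.head?_cons, Option.mem_def, Option.some.injEq] at hb
    subst hb
    refine h2 a ?_ y (by simp)
    cases v with
    | nil => simp at ha
    | cons z v => simpa using ha
  · intro a ha b hb
    simp only [List.getLast?_append, List.getLast?_singleton, Option.some_or, Option.mem_def,
      Option.some.injEq] at ha
    subst ha
    cases v with
    | nil => simp only [List.nil_append, List.head?_cons, Option.mem_def, Option.some.injEq] at hb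
             subst hb; simp
    | cons z v =>
      simp only [List.cons_append, List.head?_cons, Option.mem_def, Option.some.injEq] at hb
      subst hb
      exact h1.1 z (by simp)

theorem cr_rotate_last {y : α × Bool} {v : List (α × Bool)}
    (h : FreeGroup.IsCyclicallyReduced (v ++ [y])) : FreeGroup.IsCyclicallyReduced (y :: v) := by
  rw [FreeGroup.isCyclicallyReduced_iff] at h ⊢
  obtain ⟨h1, h2⟩ := h
  rw [FreeGroup.IsReduced, List.isChain_append] at h1
  refine ⟨?_, ?_⟩
  · rw [FreeGroup.IsReduced, List.isChain_cons]
    refine ⟨?_, h1.1⟩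
    intro b hb
    refine h2 y (by simp) b ?_
    cases v with
    | nil => simp at hb
    | cons z v => simpa using hb
  · intro a ha b hb
    simp only [List.head?_cons, Option.mem_def, Option.some.injEq] at hb
    subst hb
    cases v with
    | nil => simp only [List.getLast?_singleton, Option.mem_def, Option.some.injEq] at ha
             subst ha; simp
    | cons z v =>
      exact h1.2.2 a (by simpa using ha) y (by simp)

theorem eq_of_mk {u v : List (α × Bool)} (hu : FreeGroup.IsReduced u)
    (hv : FreeGroup.IsReduced v) (h : FreeGroup.mk u = FreeGroup.mk v) : u = v := by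
  classical
  have := congrArg FreeGroup.toWord h
  rwa [FreeGroup.toWord_mk, FreeGroup.toWord_mk, hu.reduce_eq, hv.reduce_eq] at this

theorem invRev_reduced {h : List (α × Bool)} (hr : FreeGroup.IsReduced h) :
    FreeGroup.IsReduced (FreeGroup.invRev h) := by
  classical
  rw [FreeGroup.isReduced_iff_reduce_eq, FreeGroup.reduce_invRev, hr.reduce_eq]

theorem invRev_concat (h : List (α × Bool)) (x : α × Bool) :
    FreeGroup.invRev (h ++ [x]) = (x.1, !x.2) :: FreeGroup.invRev h := by
  simp [FreeGroup.invRev]

theorem mk_single_inv (x : α × Bool) : (FreeGroup.mk [x])⁻¹ = FreeGroup.mk [(x.1, !x.2)] := by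
  rw [FreeGroup.inv_mk]
  simp [FreeGroup.invRev]

/-- the reduced case -/
theorem reduced_case {h v : List (α × Bool)} {x : α × Bool} (hr : FreeGroup.IsReduced (h ++ [x]))
    (hv : FreeGroup.IsReduced v) (hv0 : v ≠ [])
    (h1 : ∀ y ∈ v.head?, ¬ (x.1 = y.1 ∧ x.2 = !y.2))
    (h2 : ∀ z ∈ v.getLast?, z ≠ x) :
    FreeGroup.IsReduced ((h ++ [x]) ++ (v ++ FreeGroup.invRev (h ++ [x]))) := by
  have hi := invRev_reduced hr
  rw [FreeGroup.IsReduced, List.isChain_append]
  refine ⟨hr, ?_, ?_⟩
  · rw [List.isChain_append]
    refine ⟨hv, hi, ?_⟩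
    intro a ha b hb
    rw [invRev_concat] at hb
    simp only [List.head?_cons, Option.mem_def, Option.some.injEq] at hb
    subst hb
    intro h3
    have h4 := h2 a ha
    by_contra h5
    apply h4
    rcases a with ⟨a1, a2⟩
    rcases x with ⟨x1, x2⟩
    simp only [Prod.mk.injEq]
    simp only at h3 h5
    refine ⟨h3, ?_⟩
    cases a2 <;> cases x2 <;> simp_all
  · intro a ha b hb
    simp only [List.getLast?_append, List.getLast?_singleton, Option.some_or, Option.mem_def,
      Option.some.injEq] at ha
    subst ha
    cases v with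
    | nil => exact absurd rfl hv0
    | cons y v =>
      simp only [List.cons_append, List.head?_cons, Option.mem_def, Option.some.injEq] at hb
      subst hb
      have h3 := h1 y (by simp)
      intro h4
      by_contra h5
      apply h3
      refine ⟨h4, ?_⟩
      rcases x with ⟨x1, x2⟩
      rcases y with ⟨y1, y2⟩
      simp only at h5 ⊢
      cases x2 <;> cases y2 <;> simp_all

theorem main_aux (n : ℕ) : ∀ (h u v : List (α × Bool)), h.length = n → FreeGroup.IsReduced h →
    FreeGroup.IsCyclicallyReduced u → FreeGroup.IsCyclicallyReduced v →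
    FreeGroup.mk u = FreeGroup.mk h * FreeGroup.mk v * (FreeGroup.mk h)⁻¹ → u ~r v := by
  classical
  induction n with
  | zero =>
    intro h u v hn _ hu hv he
    rw [List.length_eq_zero_iff] at hn
    subst hn
    have : FreeGroup.mk u = FreeGroup.mk v := by
      rw [he]
      change (1 : FreeGroup α) * _ * (1 : FreeGroup α)⁻¹ = _
      simp
    rw [eq_of_mk hu.isReduced hv.isReduced this]
  | succ n ih =>
    intro h u v hn hr hu hv he
    obtain ⟨h', x, rfl⟩ : ∃ h' x, h = h' ++ [x] := by
      have : h ≠ [] := by
        intro h0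
        subst h0
        simp at hn
      exact ⟨h.dropLast, h.getLast this, (List.dropLast_append_getLast this).symm⟩
    have hn' : h'.length = n := by simpa using hn
    have hr' : FreeGroup.IsReduced h' := by
      rw [FreeGroup.IsReduced, List.isChain_append] at hr
      exact hr.1
    have hmk : FreeGroup.mk (h' ++ [x]) = FreeGroup.mk h' * FreeGroup.mk [x] := by
      rw [FreeGroup.mul_mk]
    rcases v with _ | ⟨y, v⟩
    · have : FreeGroup.mk u = FreeGroup.mk [] := by
        rw [he]
        change FreeGroup.mk _ * (1 : FreeGroup α) * _ = (1 : FreeGroup α)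
        rw [mul_one, mul_inv_cancel]
      rw [eq_of_mk hu.isReduced hv.isReduced this]
    by_cases hy : x.1 = y.1 ∧ x.2 = !y.2
    · -- `y = x⁻¹`
      have hyx : y = (x.1, !x.2) := by
        rcases x with ⟨x1, x2⟩
        rcases y with ⟨y1, y2⟩
        simp only at hy ⊢
        rw [hy.1, hy.2, Bool.not_not]
      have h3 := ih h' u (v ++ [y]) hn' hr' hu (cr_rotate_head hv) (by
        rw [he, hmk]
        have e1 : FreeGroup.mk (y :: v) = (FreeGroup.mk [x])⁻¹ * FreeGroup.mk v := by
          rw [mk_single_inv, ← hyx, FreeGroup.mul_mk]; rfl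
        have e2 : FreeGroup.mk (v ++ [y]) = FreeGroup.mk v * (FreeGroup.mk [x])⁻¹ := by
          rw [mk_single_inv, ← hyx, FreeGroup.mul_mk]
        rw [e1, e2]
        group)
      refine h3.trans ?_
      exact (List.IsRotated.symm ⟨1, by simp⟩)
    obtain ⟨v', z, hvz⟩ : ∃ v' z, y :: v = v' ++ [z] :=
      ⟨(y :: v).dropLast, (y :: v).getLast (by simp), (List.dropLast_append_getLast (by simp)).symm⟩
    by_cases hz : z = x
    · subst hz
      rw [hvz] at hv he ⊢
      have h3 := ih h' u (z :: v') hn' hr' hu (cr_rotate_last hv) (by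
        rw [he, hmk]
        have e1 : FreeGroup.mk (v' ++ [z]) = FreeGroup.mk v' * FreeGroup.mk [z] := by
          rw [FreeGroup.mul_mk]
        have e2 : FreeGroup.mk (z :: v') = FreeGroup.mk [z] * FreeGroup.mk v' := by
          rw [FreeGroup.mul_mk]; rfl
        rw [e1, e2]
        group)
      refine h3.trans ?_
      exact ⟨1, by simp⟩
    · exfalso
      have h3 := reduced_case (h := h') (x := x) (v := y :: v) hr hv.isReduced (by simp)
        (by
          intro y' hy'
          simp only [List.head?_cons, Option.mem_def, Option.some.injEq] at hy'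
          subst hy'
          exact hy)
        (by
          intro z' hz'
          rw [hvz] at hz'
          simp only [List.getLast?_append, List.getLast?_singleton, Option.some_or, Option.mem_def,
            Option.some.injEq] at hz'
          subst hz'
          exact hz)
      have h4 : u = (h' ++ [x]) ++ (y :: v ++ FreeGroup.invRev (h' ++ [x])) := by
        refine eq_of_mk hu.isReduced h3 ?_
        rw [he, FreeGroup.inv_mk, FreeGroup.mul_mk, FreeGroup.mul_mk, List.append_assoc]
      obtain ⟨a, t, hat⟩ : ∃ a t, h' ++ [x] = a :: t := by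
        cases h' with
        | nil => exact ⟨x, [], rfl⟩
        | cons a t => exact ⟨a, t ++ [x], rfl⟩
      rw [hat] at h4
      have h5 : FreeGroup.invRev (a :: t) = FreeGroup.invRev t ++ [(a.1, !a.2)] := by
        simp [FreeGroup.invRev]
      rw [h5] at h4
      have h6 := hu.2 (a.1, !a.2) (by
        rw [h4, ← List.append_assoc, ← List.append_assoc,
          List.getLast?_append]
        simp) a (by rw [h4]; simp) rfl
      simp at h6

end Conj

/-- conjugate cyclically reduced words are rotations of each other -/
theorem conj : ConjStmt := by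
  classical
  intro M u v hu hv h
  rw [isConj_iff] at h
  obtain ⟨c, hc⟩ := h
  have h1 : FreeGroup.mk v = FreeGroup.mk c.toWord * FreeGroup.mk u * (FreeGroup.mk c.toWord)⁻¹ := by
    rw [FreeGroup.mk_toWord]
    exact hc.symm
  exact (Conj.main_aux _ c.toWord v u rfl FreeGroup.isReduced_toWord hv hu h1).symm

end Pool.Agent.Lib.MP_0c2883_lc.All
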