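import Pool.Agent.Lib.MP_0c2883_lc.All.Red

/-!
# Cyclic reduction and counting letters
-/

namespace Pool.Agent.Lib.MP_0c2883_lc.All

open List Pool.Agent.Lib.PolyTime FreeGroup

variable {ρ : ℕ}

theorem half_lt {w : List (Letter ρ)} (hw : IsReduced w) (hne : w ≠ []) {c : ℕ} (hc : Can w w c) :
    2 * c < w.length := by
  by_contra hcon
  have hm : 0 < w.length := List.length_pos_iff.2 hne
  set h := w.length / 2 with hh
  have h1 : Can w w h := hc.mono (by omega)
  obtain ⟨a1, a2, a3⟩ := h1
  rw [part_invRev a2, part_true_eq] at a3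
  rcases Nat.even_or_odd' w.length with ⟨k, hk | hk⟩
  · have hk' : w.length - h = h := by omega
    rw [hk'] at a3
    have e : (mk w : FreeGroup (Fin ρ)) = 1 := by
      have e1 : (mk w : FreeGroup (Fin ρ)) = mk (w.take h) * mk (w.drop h) := by
        rw [mul_mk, List.take_append_drop]
      rw [e1, a3, ← inv_mk, mul_inv_cancel]
    have e2 := congrArg FreeGroup.toWord e
    rw [toWord_mk, hw.reduce_eq, toWord_one] at e2
    exact hne e2
  · have h2 : Can w w (h + 1) := hc.mono (by omega)
    obtain ⟨b1, b2, b3⟩ := h2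
    rw [part_invRev b2, part_true_eq] at b3
    have hlt : h < w.length := by omega
    have e1 : w.length - (h + 1) = h := by omega
    rw [e1, List.drop_eq_getElem_cons hlt, List.take_succ_eq_append_getElem hlt] at b3
    simp only [invRev, List.map_append, List.map_cons, List.map_nil, List.reverse_append,
      List.reverse_cons, List.reverse_nil, List.nil_append, List.cons_append,
      List.singleton_append, List.cons.injEq] at b3
    exact linv_ne _ b3.1.symm

theorem cyc_reduce {w : List (Letter ρ)} (hw : IsReduced w) {c : ℕ} (h1 : Can w w c)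
    (h2 : ¬ Can w w (c + 1)) :
    IsCyclicallyReduced ((w.take (w.length - c)).drop c) ∧
      ∃ h : FreeGroup (Fin ρ), mk w = h * mk ((w.take (w.length - c)).drop c) * h⁻¹ := by
  rcases eq_or_ne w [] with rfl | hne
  · refine ⟨by simp, 1, by simp⟩
  have hlt := half_lt hw hne h1
  have hr := (reduced_product hw hw h1 h2).1
  set L := (w.take (w.length - c)).drop c with hL
  have hLlen : L.length = w.length - c - c := by
    rw [hL, List.length_drop, List.length_take]; omega
  have hLne : L ≠ [] := by
    intro h; rw [h] at hLlen; simp at hLlen; omega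
  have e1 : w.take (w.length - c) = w.take c ++ L := by
    rw [hL]
    have : w.take c = (w.take (w.length - c)).take c := by
      rw [List.take_take]; congr 1; omega
    rw [this, List.take_append_drop]
  have e2 : w.drop c = L ++ w.drop (w.length - c) := by
    have : L = (w.drop c).take (w.length - c - c) := by
      rw [hL, List.drop_take]
    rw [this]
    have h3 : w.drop (w.length - c) = (w.drop c).drop (w.length - c - c) := by
      rw [List.drop_drop]; congr 1; omega
    rw [h3, List.take_append_drop]
  refine ⟨⟨?_, ?_⟩, ?_⟩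
  · exact red_of_sub hw (((List.drop_suffix _ _).isInfix).trans (List.take_prefix _ _).isInfix)
  · intro a ha b hb
    rw [FreeGroup.IsReduced, isChain_append] at hr
    refine hr.2.2 a ?_ b ?_
    · rw [e1, Option.mem_def, List.getLast?_append, Option.mem_def.1 ha]; rfl
    · rw [e2, Option.mem_def, List.head?_append, Option.mem_def.1 hb]; rfl
  · obtain ⟨a1, a2, a3⟩ := h1
    rw [part_invRev a2, part_true_eq] at a3
    have e3 : (mk w : FreeGroup (Fin ρ)) = mk (w.take c) * mk L * (mk (w.take c))⁻¹ := by
      conv_lhs => rw [← List.take_append_drop (w.length - c) w]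
      rw [e1, a3, inv_mk, mul_mk, mul_mk]
    exact ⟨_, e3⟩

/-! ### The final test -/

/-- counting letters -/
def numStep (p : Letter ρ → Bool) (t : List BNz) (r : GRule ρ) : BNz :=
  match r with
  | none => ⟨0⟩
  | some (Sum.inl x) => if p x then ⟨1⟩ else ⟨0⟩
  | some (Sum.inr q) => ⟨(t[q.1]?.getD ⟨0⟩).val + (t[q.2]?.getD ⟨0⟩).val⟩

/-- number of letters with property `p` -/
def num (G : Gram ρ) (i : ℕ) (p : Letter ρ → Bool) : BNz := (tab (numStep p) G)[i]?.getD ⟨0⟩

theorem num_eq (G : Gram ρ) (i : ℕ) (p : Letter ρ → Bool) : (num G i p).val = (V G i).countP p := by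
  have h1 := tab_map ruleVal (step' := numStep p) (h := fun v : List (Letter ρ) => BNz.mk (v.countP p))
    (by
    intro t r
    rcases r with _ | x | ⟨a, b⟩
    · rfl
    · simp only [ruleVal, numStep]
      cases h : p x <;> simp [h]
    · have ea : ((t.map (fun v : List (Letter ρ) => BNz.mk (v.countP p)))[a]?.getD ⟨0⟩) =
          ⟨(t[a]?.getD []).countP p⟩ :=
        (getD_map (fun v : List (Letter ρ) => BNz.mk (v.countP p)) t a []).symm
      have eb : ((t.map (fun v : List (Letter ρ) => BNz.mk (v.countP p)))[b]?.getD ⟨0⟩) =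
          ⟨(t[b]?.getD []).countP p⟩ :=
        (getD_map (fun v : List (Letter ρ) => BNz.mk (v.countP p)) t b []).symm
      simp only [ruleVal, numStep, List.countP_append, ea, eb]) G
  unfold num
  rw [← h1]
  have := getD_map (fun v : List (Letter ρ) => BNz.mk (v.countP p)) (tab ruleVal G) i []
  have h2 : ((tab ruleVal G).map (fun v : List (Letter ρ) => BNz.mk (v.countP p)))[i]?.getD ⟨0⟩ =
      ⟨(V G i).countP p⟩ := this.symm
  rw [h2]

/-! ### Cyclic reduction of a nonterminal -/

/-- add a nonterminal for the cyclically reduced core of the (reduced) word of `i` -/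
def cyc (G : Gram ρ) (i : ℕ) : Gram ρ × ℕ :=
  let c := cancel G i i
  let A := cut' false G i ⟨(len (mkEnv G) i).val - c.val⟩
  cut' true A.1 A.2 ⟨(len (mkEnv A.1) A.2).val - c.val⟩

theorem cyc_spec {G : Gram ρ} (hG : Good G) {i : ℕ} (hi : i < G.length)
    (hr : IsReduced (V G i)) :
    ∃ G', (cyc G i).1 = G ++ G' ∧ Good (cyc G i).1 ∧ (cyc G i).2 < (cyc G i).1.length ∧
      CR (V (cyc G i).1 (cyc G i).2) ∧
      (∃ h : FreeGroup (Fin ρ), mk (V G i) = h * mk (V (cyc G i).1 (cyc G i).2) * h⁻¹) ∧
      G'.length ≤ 2 * H G i + 3 := by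
  unfold cyc
  simp only
  obtain ⟨c1, c2⟩ := cancel_spec hG hi hi
  set c := cancel G i i with hc
  have hcle := c1.1
  obtain ⟨A', a1, a2, a3, a4, a5, a6⟩ := cut_spec (r := false) hG hi
    (c := ⟨(len (mkEnv G) i).val - c.val⟩) (by rw [len_mk]; simp only; omega)
  set A := cut' false G i ⟨(len (mkEnv G) i).val - c.val⟩ with hA
  rw [← a1] at a2 a3 a4 a6
  rw [len_mk] at a4
  simp only [part, Bool.false_eq_true, if_false] at a4
  obtain ⟨B', b1, b2, b3, b4, b5, b6⟩ := cut_spec (r := true) a2 a3
    (c := ⟨(len (mkEnv A.1) A.2).val - c.val⟩) (by rw [len_mk]; simp only; omega)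
  set B := cut' true A.1 A.2 ⟨(len (mkEnv A.1) A.2).val - c.val⟩ with hB
  rw [← b1] at b2 b3 b4 b6
  obtain ⟨r1, r2⟩ := cyc_reduce hr c1 c2
  have hval : V B.1 B.2 = ((V G i).take ((V G i).length - c.val)).drop c.val := by
    rw [b4, len_mk, part_true_eq, a4]
    simp only
    rcases Nat.lt_or_ge c.val (((V G i).take ((V G i).length - c.val)).length) with h | h
    · congr 1; omega
    · have h1 : ((V G i).take ((V G i).length - c.val)).length -
          (((V G i).take ((V G i).length - c.val)).length - c.val) =
          ((V G i).take ((V G i).length - c.val)).length := by omega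
      rw [h1, List.drop_length, List.drop_eq_nil_iff.2 h]
  refine ⟨A' ++ B', by rw [b1, a1, List.append_assoc], b2, b3, by rw [hval]; exact r1,
    by rw [hval]; exact r2, ?_⟩
  rw [List.length_append]
  omega

end Pool.Agent.Lib.MP_0c2883_lc.All
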