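import Pool.Agent.Lib.MP_0c2883_lc.All.ElimPT
import Pool.Agent.Lib.MP_0c2883_lc.All.Num

/-!
# The decision procedure runs in polynomial time
-/

namespace Pool.Agent.Lib.MP_0c2883_lc.All

open List Pool.Agent.Lib.PolyTime

variable {ρ : ℕ}

variable {α β γ τ : Type} [Enc α] [Enc β] [Enc γ] [Enc τ]

theorem size_env (e : Env ρ) : size e.1 ≤ size e := by rw [size_prod (x := e)]; omega

theorem PT.condConst (r : Bool) {f g : α → β} (hf : PT f) (hg : PT g) :
    PT (fun a => cond r (f a) (g a)) := by cases r <;> assumption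

theorem PT.dStep (r : Bool) {f : α → Env ρ} {h : α → (ℕ × BNz) × List ℕ} (hf : PT f) (hh : PT h) :
    PT (fun a => All.dStep (f a) r (h a)) := by
  have hc : PT (fun a => All.cat (f a) (h a).1.1) := PT.cat hf hh.fst'.fst'
  have z0 := PT.bnzEq hh.fst'.snd' (PT.const (BNz.mk 0))
  have z1 := PT.bnzEq hh.fst'.snd' (PT.len hf hh.fst'.fst')
  have b1 : PT (fun a => (((h a).1.1, BNz.mk 0), (h a).2 ++ [(h a).1.1])) :=
    (hh.fst'.fst'.pair (PT.const _)).pair (PT.append hh.snd' (PT.list1 hh.fst'.fst'))
  have key : PT (fun x : α × (ℕ × ℕ) =>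
      if decide ((h x.1).1.2.val ≤ (All.len (f x.1) (cond r x.2.2 x.2.1)).val)
        then ((cond r x.2.2 x.2.1, (h x.1).1.2), (h x.1).2)
      else ((cond r x.2.1 x.2.2,
        BNz.mk ((h x.1).1.2.val - (All.len (f x.1) (cond r x.2.2 x.2.1)).val)),
        (h x.1).2 ++ [cond r x.2.2 x.2.1])) := by
    have hf' := hf.comp (PT.fst (α := α) (β := ℕ × ℕ))
    have hh' := hh.comp (PT.fst (α := α) (β := ℕ × ℕ))
    have h1 : PT (fun x : α × (ℕ × ℕ) => x.2.1) := PT.snd.fst'
    have h2 : PT (fun x : α × (ℕ × ℕ) => x.2.2) := PT.snd.snd'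
    have near := PT.condConst r h2 h1
    have far := PT.condConst r h1 h2
    exact PT.cond (PT.bnzLe hh'.fst'.snd' (PT.len hf' near))
      ((near.pair hh'.fst'.snd').pair hh'.snd')
      ((far.pair (PT.bnzSub hh'.fst'.snd' (PT.len hf' near))).pair
        (PT.append hh'.snd' (PT.list1 near)))
  refine (PT.cond z0 hh (PT.cond z1 b1 (PT.optCasesP hc hh key))).congr (fun a => ?_)
  unfold All.dStep
  cases All.cat (f a) (h a).1.1 <;> rfl

theorem dIter_size (e : Env ρ) (r : Bool) (i : ℕ) (c : BNz) (n : ℕ) :
    let s := (All.dStep e r)^[n] ((i, c), [])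
    size s.1.1 ≤ size e.1 + size i ∧ s.1.2.val ≤ c.val ∧
      (∀ x ∈ s.2, size x ≤ size e.1 + size i) ∧ s.2.length ≤ n := by
  induction n with
  | zero => exact ⟨by simp, le_rfl, by simp, by simp⟩
  | succ n ih =>
    simp only at ih ⊢
    rw [Function.iterate_succ_apply']
    set t := (All.dStep e r)^[n] ((i, c), []) with ht
    obtain ⟨i1, i2, i3, i4⟩ := ih
    unfold All.dStep
    split_ifs with c1 c2
    · exact ⟨i1, i2, i3, by omega⟩
    · refine ⟨i1, by simp, ?_, by simp; omega⟩
      intro x hx
      rw [List.mem_append, List.mem_singleton] at hx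
      rcases hx with hx | rfl
      · exact i3 x hx
      · exact i1
    · rcases hc : All.cat e t.1.1 with _ | ⟨a, b⟩
      · simp only
        exact ⟨i1, i2, i3, Nat.le_succ_of_le i4⟩
      · have h1 := size_cat_le hc
        rw [size_prod] at h1
        simp only at h1 ⊢
        have hn : size (cond r b a) ≤ size e.1 + size i := by cases r <;> simp only [cond] <;> omega
        have hf : size (cond r a b) ≤ size e.1 + size i := by cases r <;> simp only [cond] <;> omega
        split_ifs
        · exact ⟨hn, i2, i3, by simp only; omega⟩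
        · refine ⟨hf, by simp only; omega, ?_, by simp; omega⟩
          intro x hx
          rw [List.mem_append, List.mem_singleton] at hx
          rcases hx with hx | rfl
          · exact i3 x hx
          · exact hn

theorem PT.dec (r : Bool) {f : α → Env ρ} {g : α → ℕ} {h : α → BNz} (hf : PT f) (hg : PT g)
    (hh : PT h) : PT (fun a => All.dec (f a) r (g a) (h a)) := by
  have base : PT (fun x : Env ρ × (ℕ × BNz) => All.dec x.1 r x.2.1 x.2.2) := by
    have hit := PT.iterate (f := fun x : Env ρ × (ℕ × BNz) => x.1.1.length + 1)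
      (init := fun x => ((x.2.1, x.2.2), ([] : List ℕ)))
      (step := fun x => All.dStep x.1 r) PT.fst.fst'.length.succ
      ((PT.snd.fst'.pair PT.snd.snd').pair (PT.const _)) (PT.dStep r PT.fst.fst' PT.snd)
      (B := fun n => ((n + n) + (4 * n + 1) + 1) + ((n + 1) * (n + n + 1) + 1) + 1)
      (((((PB.id.add PB.id).add (((PB.const 4).mul PB.id).add (PB.const 1))).add
        (PB.const 1)).add (((PB.id.add (PB.const 1)).mul ((PB.id.add PB.id).add
        (PB.const 1))).add (PB.const 1))).add (PB.const 1))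
      (by
        intro x i hi
        obtain ⟨k1, k2, k3, k4⟩ := dIter_size x.1 r x.2.1 x.2.2 i
        have k5 := size_bn_mono k2
        rw [size_prod, size_prod]
        have t1 : size x = size x.1 + (size x.2.1 + size x.2.2 + 1) + 1 := by
          rw [size_prod, size_prod (x := x.2)]
        have t2 := size_env x.1
        have t3 := length_le_size x.1.1
        have k6 := size_list_le _ k3
        have k7 : ((All.dStep x.1 r)^[i] ((x.2.1, x.2.2), [])).2.length ≤ size x + 1 := by
          omega
        have k8 := Nat.mul_le_mul k7 (show size x.1.1 + size x.2.1 + 1 ≤ size x + size x + 1 by omega)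
        omega)
    exact hit.snd'
  exact base.comp (hf.pair (hg.pair hh))

theorem size_concat (l : List β) (b : β) : size (l ++ [b]) = size l + size b + 1 := by
  have := size_append l [b]
  rw [size_cons, size_nil] at this
  omega

theorem size_catRule (p : ℕ × ℕ) : size (some (Sum.inr p) : GRule ρ) = 2 * p.1 + 2 * p.2 + 9 := by
  rw [size_some, size_inr, size_prod, size_nat, size_nat]; omega

theorem chain_size (r : Bool) : ∀ (L : List ℕ) (G : Gram ρ) (cur m : ℕ), cur ≤ G.length →
    (∀ x ∈ L, x ≤ m) →
    size (L.foldl (cStep r) (G, cur)).1 ≤ size G +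
      L.length * (2 * m + 2 * (G.length + L.length) + 10) ∧
    (L.foldl (cStep r) (G, cur)).2 ≤ G.length + L.length := by
  intro L
  induction L with
  | nil => intro G cur m h _; exact ⟨by simp, by simpa using h⟩
  | cons x L ih =>
    intro G cur m h hm
    rw [List.foldl_cons]
    have hx := hm x (by simp)
    obtain ⟨i1, i2⟩ := ih (cStep r (G, cur) x).1 (cStep r (G, cur) x).2 m (by
      simp [cStep]) (fun y hy => hm y (List.mem_cons_of_mem _ hy))
    have e1 : (cStep r (G, cur) x).1.length = G.length + 1 := by simp [cStep]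
    have e2 : size (cStep r (G, cur) x).1 ≤ size G + (2 * m + 2 * G.length + 10) := by
      unfold cStep
      simp only
      rw [size_concat, size_catRule]
      cases r <;> simp only [cond] <;> omega
    have e3 : (cStep r (G, cur) x) = ((cStep r (G, cur) x).1, (cStep r (G, cur) x).2) := rfl
    rw [← e3] at i1 i2
    rw [e1] at i1 i2
    have e4 : 2 * m + 2 * (G.length + 1 + L.length) + 10 =
        2 * m + 2 * (G.length + (L.length + 1)) + 10 := by ring
    rw [e4] at i1
    have e5 : (L.length + 1) * (2 * m + 2 * (G.length + (L.length + 1)) + 10) =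
      L.length * (2 * m + 2 * (G.length + (L.length + 1)) + 10) +
        (2 * m + 2 * (G.length + (L.length + 1)) + 10) := Nat.succ_mul _ _
    rw [List.length_cons]
    refine ⟨?_, by omega⟩
    rw [e5]
    omega

theorem PT.chain (r : Bool) {f : α → Gram ρ} {g : α → List ℕ} (hf : PT f) (hg : PT g) :
    PT (fun a => All.chain r (f a) (g a)) := by
  have base : PT (fun x : Gram ρ × List ℕ => All.chain r x.1 x.2) := by
    refine PT.foldl (f := fun x : Gram ρ × List ℕ => x.2.reverse) (init := fun x => (x.1, 0))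
      (step := fun _ s y => cStep r s y) PT.snd.reverse (PT.fst.pair (PT.const 0))
      ?_ (B := fun n => (n + n * (2 * n + 2 * (n + n) + 10)) + (2 * (n + n) + 1) + 1)
      (((PB.id.add (PB.id.mul ((((PB.const 2).mul PB.id).add ((PB.const 2).mul
        (PB.id.add PB.id))).add (PB.const 10)))).add (((PB.const 2).mul
        (PB.id.add PB.id)).add (PB.const 1))).add (PB.const 1)) ?_
    · have h1 : PT (fun x : (Gram ρ × List ℕ) × ((Gram ρ × ℕ) × ℕ) => x.2.1.1) := PT.snd.fst'.fst'
      have h2 : PT (fun x : (Gram ρ × List ℕ) × ((Gram ρ × ℕ) × ℕ) => x.2.1.2) := PT.snd.fst'.snd'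
      have h3 : PT (fun x : (Gram ρ × List ℕ) × ((Gram ρ × ℕ) × ℕ) => x.2.2) := PT.snd.snd'
      exact (PT.append h1 (PT.list1 (PT.some (PT.inr (PT.condConst r (h2.pair h3)
        (h3.pair h2)))))).pair h1.length
    · rintro ⟨G, L⟩ l' hl'
      have h1 : ∀ x ∈ l', x ≤ size L := by
        intro x hx
        have h2 : x ∈ L := List.mem_reverse.1 (hl'.subset hx)
        have := size_mem_lt h2
        rw [size_nat] at this
        omega
      obtain ⟨k1, k2⟩ := chain_size r l' G 0 (size L) (by omega) h1
      change size (l'.foldl (cStep r) (G, 0)) ≤ _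
      have k3 := length_le_size G
      have k4 : l'.length ≤ size L := by
        have := hl'.length_le
        rw [List.length_reverse] at this
        exact this.trans (length_le_size L)
      rw [size_prod, size_nat]
      have k5 : size ((G, L) : Gram ρ × List ℕ) = size G + size L + 1 := size_prod _
      have k6 := Nat.mul_le_mul (show l'.length ≤ size ((G, L) : Gram ρ × List ℕ) by omega)
        (show 2 * size L + 2 * (G.length + l'.length) + 10 ≤
          2 * size ((G, L) : Gram ρ × List ℕ) + 2 * (size ((G, L) : Gram ρ × List ℕ) +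
            size ((G, L) : Gram ρ × List ℕ)) + 10 by omega)
      omega
  exact base.comp (hf.pair hg)

theorem PT.cut' (r : Bool) {f : α → Gram ρ} {g : α → ℕ} {h : α → BNz} (hf : PT f) (hg : PT g)
    (hh : PT h) : PT (fun a => All.cut' r (f a) (g a) (h a)) :=
  PT.chain r hf (PT.dec r (PT.mkEnv hf) hg hh)

theorem PT.invG {f : α → Gram ρ} (hf : PT f) : PT (fun a => All.invG (f a)) := by
  have h1 : PT (fun x : α × GRule ρ => invRule (f x.1).length x.2) := by
    have hN : PT (fun x : α × GRule ρ => (f x.1).length) := (hf.comp PT.fst).length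
    refine (PT.ruleCases (f := fun x : α × GRule ρ => x.2) (g := fun _ => (none : GRule ρ))
      (h := fun _ y => (some (Sum.inl (linv y)) : GRule ρ))
      (k := fun x p => (some (Sum.inr (p.2 + (f x.1).length, p.1 + (f x.1).length)) : GRule ρ))
      PT.snd (PT.const _) (PT.some (PT.inl ((PT.ofFintype linv).comp PT.snd)))
      (PT.some (PT.inr ((PT.add PT.snd.snd' (hN.comp PT.fst)).pair
        (PT.add PT.snd.fst' (hN.comp PT.fst)))))).congr (fun x => ?_)
    unfold invRule
    rcases x.2 with _ | y | p <;> rfl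
  exact PT.append hf (PT.map (g := fun a y => invRule (f a).length y) hf h1)

theorem PT.canTest {f : α → Gram ρ} {g k : α → ℕ} {h : α → BNz} (hf : PT f) (hg : PT g) (hk : PT k)
    (hh : PT h) : PT (fun a => All.canTest (f a) (g a) (k a) (h a)) := by
  have hc := PT.cut' true (PT.invG hf) (PT.add hk hf.length) hh
  exact PT.spTest (PT.mkEnv hc.fst') ((hg.pair hc.snd').pair hh)

theorem PT.bsStep {f : α → Gram ρ} {g k t : α → ℕ} {h : α → BNz} (hf : PT f) (hg : PT g)
    (hk : PT k) (hh : PT h) (ht : PT t) :
    PT (fun a => All.bsStep (f a) (g a) (k a) (h a) (t a)) := by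
  have h4 : PT (fun a => BNz.mk ((h a).val + 2 ^ t a)) := PT.bnzAdd hh (PT.bnPow2 ht)
  have c1 := PT.bnzLe h4 (PT.len (PT.mkEnv hf) hg)
  have c2 := PT.bnzLe h4 (PT.len (PT.mkEnv hf) hk)
  have c3 := PT.canTest hf hg hk h4
  exact PT.cond (PT.and c1 (PT.and c2 c3)) h4 hh

theorem bs_fold_le (G : Gram ρ) (g k : ℕ) : ∀ (l : List ℕ) (c : BNz),
    c.val ≤ (All.len (All.mkEnv G) g).val →
    (l.foldl (fun c t => All.bsStep G g k c t) c).val ≤
      (All.len (All.mkEnv G) g).val := by
  intro l
  induction l with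
  | nil => intro c h; exact h
  | cons t l ih =>
    intro c h
    rw [List.foldl_cons]
    apply ih
    unfold All.bsStep
    split_ifs with h1
    · rw [Bool.and_eq_true, decide_eq_true_eq] at h1
      exact h1.1
    · exact h

theorem PT.cancel1 :  PT (fun x : Gram ρ × (ℕ × ℕ) => (List.range (Nat.size
        (All.len (All.mkEnv x.1) x.2.1).val)).reverse) := by
    have hlen : PT (fun x : Gram ρ × (ℕ × ℕ) => All.len (All.mkEnv x.1) x.2.1) :=
      PT.len (PT.mkEnv PT.fst) PT.snd.fst'
    exact (PT.reverse (PT.range hlen.bnzSize))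

theorem PT.cancel2 : PT (fun x : (Gram ρ × (ℕ × ℕ)) × (BNz × ℕ) =>
    All.bsStep x.1.1 x.1.2.1 x.1.2.2 x.2.1 x.2.2) :=
  PT.bsStep PT.fst.fst' PT.fst.snd'.fst' PT.fst.snd'.snd' PT.snd.fst' PT.snd.snd'

theorem PT.cancel3 : PT (fun x : Gram ρ × (ℕ × ℕ) => (List.range (Nat.size
        (All.len (All.mkEnv x.1) x.2.1).val)).reverse.foldl
        (fun c t => All.bsStep x.1 x.2.1 x.2.2 c t) (BNz.mk 0)) := by
    have hlen : PT (fun x : Gram ρ × (ℕ × ℕ) => All.len (All.mkEnv x.1) x.2.1) :=
      PT.len (PT.mkEnv PT.fst) PT.snd.fst'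
    obtain ⟨q, hq⟩ := hlen.size_le
    refine PT.foldl (f := fun x : Gram ρ × (ℕ × ℕ) => (List.range (Nat.size
        (All.len (All.mkEnv x.1) x.2.1).val)).reverse)
      (init := fun _ => BNz.mk 0) (step := fun x c t => All.bsStep x.1 x.2.1 x.2.2 c t)
      PT.cancel1 (PT.const _) PT.cancel2
      (B := fun n => 4 * q.eval n + 1) (((PB.const 4).mul (PB.poly q)).add (PB.const 1)) ?_
    intro x l' _
    have h1 := bs_fold_le x.1 x.2.1 x.2.2 l' ⟨0⟩ (Nat.zero_le _)
    have h2 := size_bn_mono h1
    have h3 := hq x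
    exact h2.trans (by omega)

theorem PT.cancel4 : PT (fun x : Gram ρ × (ℕ × ℕ) => All.cancel x.1 x.2.1 x.2.2) := by
  unfold All.cancel
  exact PT.cancel3

theorem PT.cancelT {f : α → Gram ρ} {g k : α → ℕ} (hf : PT f) (hg : PT g) (hk : PT k) :
    PT (fun a => All.cancel (f a) (g a) (k a)) := by
  have h : PT (fun a => (f a, (g a, k a))) := hf.pair (hg.pair hk)
  have h2 := PT.comp (g := fun x : Gram ρ × (ℕ × ℕ) => All.cancel x.1 x.2.1 x.2.2)
    PT.cancel4 h
  exact h2

theorem PT.addProd {f : α → Gram ρ} {g k : α → ℕ} (hf : PT f) (hg : PT g) (hk : PT k) :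
    PT (fun a => All.addProd (f a) (g a) (k a)) := by
  have hc := PT.cancelT hf hg hk
  have hA := PT.cut' false hf hg (PT.bnzSub (PT.len (PT.mkEnv hf) hg) hc)
  have hB := PT.cut' true hA.fst' hk (PT.bnzSub (PT.len (PT.mkEnv hf) hk) hc)
  exact (PT.append hB.fst' (PT.list1 (PT.some (PT.inr (hA.snd'.pair hB.snd'))))).pair
    hB.fst'.length

theorem size_valid {G : Gram ρ} (hG : Valid G) : ∀ r ∈ G, size r ≤ 4 * G.length + (2 * ρ + 20) := by
  intro r hr
  obtain ⟨i, hi, h⟩ := List.mem_iff_getElem.1 hr
  have hi' : G[i]? = some r := by rw [List.getElem?_eq_getElem hi, h]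
  rcases r with _ | x | ⟨a, b⟩
  · have : size (none : GRule ρ) = 1 := rfl
    omega
  · rw [size_some, size_inl]
    have := size_letter_le x
    omega
  · have := hG i a b hi'
    rw [size_catRule]
    simp only
    omega

theorem PT.red {f : α → List (SRule ρ)} (hf : PT f) : PT (fun a => All.red (f a)) := by
  have base : PT (fun W : List (SRule ρ) => All.red W) := by
    let N : ℕ → ℕ := fun n => 1 + n * (4 * n + 3)
    have hN : PB N := (PB.const 1).add (PB.id.mul (((PB.const 4).mul PB.id).add (PB.const 3)))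
    have hNm : ∀ {m n : ℕ}, m ≤ n → N m ≤ N n := by
      intro m n h
      exact Nat.add_le_add_left (Nat.mul_le_mul h (by omega)) 1
    refine PT.foldl (f := fun W : List (SRule ρ) => W) (init := fun _ => (([none], []) : Gram ρ × List ℕ))
      (step := fun _ s r => redStep s r) PT.id (PT.const _) ?_
      (B := fun n => (N n * ((4 * N n + (2 * ρ + 20)) + 1) + 1) + (n * ((2 * N n + 1) + 1) + 1) + 1)
      ((((hN.mul ((((PB.const 4).mul hN).add (PB.const (2 * ρ + 20))).add (PB.const 1))).add
        (PB.const 1)).add ((PB.id.mul ((((PB.const 2).mul hN).add (PB.const 1)).add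
        (PB.const 1))).add (PB.const 1))).add (PB.const 1)) ?_
    · have h1 : PT (fun x : List (SRule ρ) × ((Gram ρ × List ℕ) × SRule ρ) => x.2.1.1) := PT.snd.fst'.fst'
      have h2 : PT (fun x : List (SRule ρ) × ((Gram ρ × List ℕ) × SRule ρ) => x.2.1.2) := PT.snd.fst'.snd'
      have h3 : PT (fun x : List (SRule ρ) × ((Gram ρ × List ℕ) × SRule ρ) => x.2.2) := PT.snd.snd'
      have c1 : PT (fun x : (List (SRule ρ) × ((Gram ρ × List ℕ) × SRule ρ)) × Letter ρ =>
          (x.1.2.1.1 ++ [(some (Sum.inl x.2) : GRule ρ)], x.1.2.1.2 ++ [x.1.2.1.1.length])) :=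
        (PT.append (h1.comp PT.fst) (PT.list1 (PT.some (PT.inl PT.snd)))).pair
          (PT.append (h2.comp PT.fst) (PT.list1 (h1.comp PT.fst).length))
      have c2 : PT (fun x : (List (SRule ρ) × ((Gram ρ × List ℕ) × SRule ρ)) × (ℕ × ℕ) =>
          ((All.addProd x.1.2.1.1 (x.1.2.1.2[x.2.1]?.getD 0)
            (x.1.2.1.2[x.2.2]?.getD 0)).1, x.1.2.1.2 ++ [(All.addProd x.1.2.1.1
            (x.1.2.1.2[x.2.1]?.getD 0) (x.1.2.1.2[x.2.2]?.getD 0)).2])) := by
        have h1' := h1.comp (PT.fst (α := List (SRule ρ) × ((Gram ρ × List ℕ) × SRule ρ)) (β := ℕ × ℕ))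
        have h2' := h2.comp (PT.fst (α := List (SRule ρ) × ((Gram ρ × List ℕ) × SRule ρ)) (β := ℕ × ℕ))
        have p := PT.addProd h1' (PT.getDv PT.snd.fst' h2' 0) (PT.getDv PT.snd.snd' h2' 0)
        exact p.fst'.pair (PT.append h2' (PT.list1 p.snd'))
      refine (PT.sumCases (f := fun x : List (SRule ρ) × ((Gram ρ × List ℕ) × SRule ρ) => x.2.2)
        (g := fun x y => (x.2.1.1 ++ [(some (Sum.inl y) : GRule ρ)], x.2.1.2 ++ [x.2.1.1.length]))
        (h := fun x p => ((All.addProd x.2.1.1 (x.2.1.2[p.1]?.getD 0)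
            (x.2.1.2[p.2]?.getD 0)).1, x.2.1.2 ++ [(All.addProd x.2.1.1
            (x.2.1.2[p.1]?.getD 0) (x.2.1.2[p.2]?.getD 0)).2])) h3 c1 c2).congr (fun x => ?_)
      rcases x with ⟨W, s, y | p⟩ <;> rfl
    · intro W l' hl'
      have hinv := red_inv l'
      change size (All.red l') ≤ _
      have hn : l'.length ≤ size W := hl'.length_le.trans (length_le_size W)
      have h1 := size_valid hinv.good.1
      have h2 : (All.red l').1.length ≤ N (size W) := hinv.size.trans (hNm hn)
      have h3 := size_list_le (S := 4 * N (size W) + (2 * ρ + 20)) (All.red l').1 (fun r hr => by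
        have := h1 r hr; omega)
      have h4 := size_list_le (S := 2 * N (size W) + 1) (All.red l').2 (fun x hx => by
        rw [size_nat]
        have := hinv.lt x hx
        omega)
      have h5 := Nat.mul_le_mul_right (4 * N (size W) + (2 * ρ + 20) + 1) h2
      have h6 := Nat.mul_le_mul_right (2 * N (size W) + 1 + 1)
        (show (All.red l').2.length ≤ size W by rw [hinv.len]; exact hn)
      rw [size_prod]
      omega
  exact base.comp hf

theorem PT.tabP {f : α → Gram ρ} (hf : PT f) {step : α → List τ → GRule ρ → τ}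
    (hs : PT (fun x : α × (List τ × GRule ρ) => step x.1 x.2.1 x.2.2)) (P : Polynomial ℕ)
    (hB : ∀ a, ∀ b ∈ All.tab (step a) (f a), size b ≤ P.eval (size a)) :
    PT (fun a => All.tab (step a) (f a)) := by
  obtain ⟨p, hp⟩ := hf.size_le
  refine PT.foldl (f := f) (init := fun _ => ([] : List τ))
    (step := fun a t r => t ++ [step a t r])
    hf (PT.const _) (PT.append PT.snd.fst' (PT.list1 hs))
    (B := fun n => p.eval n * (P.eval n + 1) + 1)
    (((PB.poly p).mul ((PB.poly P).add (PB.const 1))).add (PB.const 1)) ?_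
  rintro a l' ⟨t, ht⟩
  have h1 : ∀ b ∈ All.tab (step a) l', size b ≤ P.eval (size a) := by
    intro b hb
    have h2 : b ∈ All.tab (step a) (f a) := by
      rw [← ht]; exact (tab_prefix (step a) l' t).subset hb
    exact hB _ b h2
  have h3 := size_list_le _ h1
  rw [length_tab] at h3
  refine h3.trans ?_
  have h4 : l'.length ≤ p.eval (size a) := by
    have := length_le_size (f a)
    rw [← ht, List.length_append] at this
    have := hp a
    rw [← ht] at this
    omega
  have := Nat.mul_le_mul_right (P.eval (size a) + 1) h4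
  omega

theorem PT.num (p : Letter ρ → Bool) {f : α → Gram ρ} {g : α → ℕ} (hf : PT f) (hg : PT g) :
    PT (fun a => All.num (f a) (g a) p) := by
  refine PT.getDv hg ?_ _
  refine PT.tab hf ?_ (Polynomial.C 4 * Polynomial.X + 5) ?_
  · refine (PT.ruleCases (f := fun x : List BNz × GRule ρ => x.2) (g := fun _ => BNz.mk 0)
      (h := fun _ y => if p y then BNz.mk 1 else BNz.mk 0)
      (k := fun x q => BNz.mk ((x.1[q.1]?.getD ⟨0⟩).val + (x.1[q.2]?.getD ⟨0⟩).val))
      PT.snd (PT.const _) ((PT.ofFintype (fun y : Letter ρ => if p y then BNz.mk 1 else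
      BNz.mk 0)).comp PT.snd) (PT.bnzAdd
      (PT.getDv PT.snd.fst' PT.fst.fst' _) (PT.getDv PT.snd.snd' PT.fst.fst' _))).congr
      (fun x => ?_)
    unfold numStep
    rcases x.2 with _ | y | q <;> rfl
  · intro G b hb
    have key : ∀ G : Gram ρ, ∀ b ∈ All.tab (numStep p) G, b.val ≤ 2 ^ G.length := by
      intro G
      induction G using List.reverseRecOn with
      | nil => simp
      | append_singleton G r ih =>
        intro b hb
        have hget : ∀ i : ℕ, ((All.tab (numStep p) G)[i]?.getD ⟨0⟩).val ≤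
            2 ^ G.length := by
          intro i
          rcases h : (All.tab (numStep p) G)[i]? with _ | c
          · simp
          · exact ih c (List.mem_of_getElem? h)
        rw [tab_concat, List.mem_append, List.mem_singleton] at hb
        rw [List.length_append, List.length_singleton, pow_succ]
        rcases hb with hb | rfl
        · have := ih b hb; omega
        · have := Nat.one_le_two_pow (n := G.length)
          rcases r with _ | x | q
          · simp [numStep]
          · simp only [numStep]; split_ifs <;> simp only <;> omega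
          · simp only [numStep]
            have h1 := hget q.1
            have h2 := hget q.2
            omega
    have h1 := key G b hb
    have h2 : Nat.size b.val ≤ G.length + 1 := by
      rw [Nat.size_le]
      have := Nat.one_le_two_pow (n := G.length)
      rw [pow_succ]; omega
    have h3 := size_bn_le b
    have h4 := length_le_size G
    simp only [Polynomial.eval_add, Polynomial.eval_mul, Polynomial.eval_C, Polynomial.eval_X,
      Polynomial.eval_ofNat]
    omega

theorem PT.cyc {f : α → Gram ρ} {g : α → ℕ} (hf : PT f) (hg : PT g) :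
    PT (fun a => All.cyc (f a) (g a)) := by
  have hc := PT.cancelT hf hg hg
  have hA := PT.cut' false hf hg (PT.bnzSub (PT.len (PT.mkEnv hf) hg) hc)
  exact PT.cut' true hA.fst' hA.snd' (PT.bnzSub (PT.len (PT.mkEnv hA.fst') hA.snd') hc)

end Pool.Agent.Lib.MP_0c2883_lc.All
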