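import Pool.Agent.Lib.MP_0c2883_lc.All.AlgStmts
import Pool.Agent.Lib.MP_0c2883_lc.All.RedPT

/-!
# Prefixes of compressed words, and the initial grammar
-/

set_option autoImplicit false

namespace Pool.Agent.Lib.MP_0c2883_lc.All

open Pool.Agent.Lib.PolyTime List

namespace CutInit

theorem cutTake : TakeStmt := by
  intro M
  refine ⟨fun x => (((cut' false x.1.1 x.1.2 x.2).1, x.1.2), (cut' false x.1.1 x.1.2 x.2).2),
    ?_, ?_⟩
  · have h := PT.cut' false (f := fun x : (Gram M × ℕ) × BNz => x.1.1) (g := fun x => x.1.2)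
      (h := fun x => x.2) PT.fst.fst' PT.fst.snd' PT.snd
    exact (h.fst'.pair PT.fst.snd').pair h.snd'
  · intro z k hz hk
    obtain ⟨G', e1, e2, e3, e4, _, _⟩ := cut_spec (r := false) hz.1 hz.2 hk
    have hlen : z.2 < (z.1 ++ G').length := by
      rw [length_append]; have := hz.2; omega
    refine ⟨⟨?_, ?_⟩, ?_, ?_, ?_⟩
    · simp only [e1]; exact e2
    · simp only [e1]; exact hlen
    · simp only [e1]; exact e3
    · simp only [wd, e1]
      exact V_append hz.2
    · simp only [e1]
      rw [e4]
      simp [part, wd]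

variable {r M : ℕ}

/-- renaming of letters in a rule -/
def rm (F : Letter r → Letter M) : GRule r → GRule M
  | none => none
  | some (Sum.inl x) => some (Sum.inl (F x))
  | some (Sum.inr p) => some (Sum.inr p)

theorem tab_map_rm (F : Letter r → Letter M) (G : Gram r) :
    tab ruleVal (G.map (rm F)) = (tab ruleVal G).map (List.map F) := by
  induction G using List.reverseRecOn with
  | nil => rfl
  | append_singleton G x ih =>
    rw [List.map_append, List.map_singleton, tab_concat, tab_concat, ih, List.map_append,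
      List.map_singleton]
    congr 2
    rcases x with _ | x | ⟨a, b⟩
    · rfl
    · rfl
    · simp only [rm, ruleVal, List.map_append]
      have ha := getD_map (List.map F) (tab ruleVal G) a []
      have hb := getD_map (List.map F) (tab ruleVal G) b []
      simp only [List.map_nil] at ha hb
      rw [← ha, ← hb]

theorem V_map_rm (F : Letter r → Letter M) (G : Gram r) (i : ℕ) :
    V (G.map (rm F)) i = (V G i).map F := by
  unfold V
  rw [tab_map_rm]
  have ha := getD_map (List.map F) (tab ruleVal G) i []
  simp only [List.map_nil] at ha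
  exact ha.symm

theorem good_map_rm (F : Letter r → Letter M) {G : Gram r} (hG : Good G) :
    Good (G.map (rm F)) := by
  refine ⟨?_, ?_⟩
  · intro i a b h
    rw [List.getElem?_map] at h
    rcases hr : G[i]? with _ | _ | x | ⟨a', b'⟩
    · rw [hr] at h; simp at h
    · rw [hr] at h; simp [rm] at h
    · rw [hr] at h; simp [rm] at h
    · rw [hr] at h
      simp only [Option.map_some, rm, Option.some.injEq, Sum.inr.injEq, Prod.mk.injEq] at h
      have := hG.1 i a' b' hr
      omega
  · rw [List.getElem?_map, hG.2]; rfl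

theorem PT.mapRm {α : Type} [Enc α] (F : Letter r → Letter M) {f : α → Gram r} (hf : PT f) :
    PT (fun a => (f a).map (rm F)) := by
  refine PT.map hf (g := fun _ x => rm F x) ?_
  refine (PT.ruleCases (f := fun x : α × GRule r => x.2) (g := fun _ => (none : GRule M))
    (h := fun _ y => some (Sum.inl (F y)))
    (k := fun _ q => some (Sum.inr q)) PT.snd (PT.const _)
    (PT.some (PT.inl ((PT.ofFintype F).comp PT.snd))) (PT.some (PT.inr PT.snd))).congr
    (fun x => ?_)
  rcases x.2 with _ | y | q <;> rfl

/-- the renaming given by an inclusion of generators -/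
def Fc (h : r ≤ M) (x : Letter r) : Letter M := (Fin.castLE h x.1, x.2)

theorem reduced_map (h : r ≤ M) {w : List (Letter r)} (hw : FreeGroup.IsReduced w) :
    FreeGroup.IsReduced (w.map (Fc h)) := by
  unfold FreeGroup.IsReduced at *
  rw [List.isChain_map]
  refine hw.imp ?_
  intro a b hab hcast
  exact hab (by
    have := hcast
    simp only [Fc] at this
    exact Fin.castLE_injective h this)

theorem cr_map (h : r ≤ M) {w : List (Letter r)} (hw : CR w) : CR (w.map (Fc h)) := by
  refine ⟨reduced_map h hw.1, ?_⟩
  intro a ha b hb hab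
  rw [List.getLast?_map] at ha
  rw [List.head?_map] at hb
  rw [Option.mem_def, Option.map_eq_some_iff] at ha hb
  obtain ⟨a', ha', rfl⟩ := ha
  obtain ⟨b', hb', rfl⟩ := hb
  exact hw.2 a' ha' b' hb' (Fin.castLE_injective h hab)

/-- the index of the last word -/
def lastIx (W : List (SRule r)) : ℕ := (red W).2[W.length - 1]?.getD 0

theorem eval_eq (W : List (SRule r)) : eval W = (words W)[W.length - 1]?.getD [] := by
  unfold eval; rw [List.getLast?_eq_getElem?, length_words]

theorem lastIx_spec (W : List (SRule r)) : lastIx W < (red W).1.length ∧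
    FreeGroup.IsReduced (V (red W).1 (lastIx W)) ∧
    (FreeGroup.mk (V (red W).1 (lastIx W)) : FreeGroup (Fin r)) = FreeGroup.mk (eval W) := by
  obtain ⟨g1, g2, g3, g4, _, _⟩ := red_inv W
  have hil : lastIx W < (red W).1.length := by
    rcases getD_mem_or (red W).2 (W.length - 1) 0 with h | h
    · exact g3 _ h
    · unfold lastIx; rw [h]; exact g1.pos
  refine ⟨hil, ?_⟩
  rw [eval_eq]
  by_cases hW : W.length - 1 < W.length
  · exact g4 _ hW
  · have h0 : W.length = 0 := by omega
    have h1 : lastIx W = 0 := by
      unfold lastIx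
      rw [List.getElem?_eq_none_iff.2 (by omega)]; rfl
    rw [h1, g1.V0, List.getElem?_eq_none_iff.2 (by simp; omega)]
    exact ⟨FreeGroup.IsReduced.nil, rfl⟩

theorem init : InitStmt := by
  intro r M h
  refine ⟨fun W => ((cyc (red W).1 (lastIx W)).1.map (rm (Fc h)), (cyc (red W).1 (lastIx W)).2),
    ?_, ?_⟩
  · have h1 : PT (fun W : List (SRule r) => red W) := PT.red PT.id
    have h2 : PT (fun W : List (SRule r) => lastIx W) :=
      PT.getDv (PT.id.length.pred) h1.snd' 0
    have h3 := PT.cyc h1.fst' h2
    exact (PT.mapRm _ h3.fst').pair h3.snd'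
  · intro W
    obtain ⟨l1, l2, l3⟩ := lastIx_spec W
    obtain ⟨G', c1, c2, c3, c4, ⟨g, c5⟩, _⟩ := cyc_spec (red_inv W).good l1 l2
    have hwd : wd ((cyc (red W).1 (lastIx W)).1.map (rm (Fc h)),
        (cyc (red W).1 (lastIx W)).2) =
        (V (cyc (red W).1 (lastIx W)).1 (cyc (red W).1 (lastIx W)).2).map (Fc h) := by
      unfold wd
      exact V_map_rm _ _ _
    refine ⟨⟨good_map_rm _ c2, ?_⟩, ?_, ?_, ?_⟩
    · simp only [List.length_map]; exact c3
    · rw [hwd]; exact cr_map h c4
    · rw [hwd]
      intro x hx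
      rw [List.mem_map] at hx
      obtain ⟨y, _, rfl⟩ := hx
      exact y.1.isLt
    · rw [hwd]
      have e1 : (FreeGroup.mk ((V (cyc (red W).1 (lastIx W)).1
          (cyc (red W).1 (lastIx W)).2).map (Fc h)) : FreeGroup (Fin M)) =
          FreeGroup.map (Fin.castLE h) (FreeGroup.mk (V (cyc (red W).1 (lastIx W)).1
          (cyc (red W).1 (lastIx W)).2)) := by
        rw [FreeGroup.map.mk]; rfl
      rw [e1]
      apply MonoidHom.map_isConj
      rw [← l3, c5, isConj_iff]
      exact ⟨g, rfl⟩

end CutInit

/-- CUT -/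
theorem takeStmt : TakeStmt := CutInit.cutTake

/-- INIT -/
theorem initStmt : InitStmt := CutInit.init

end Pool.Agent.Lib.MP_0c2883_lc.All
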