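import Pool.Agent.Lib.PolyTime.Lists
import Mathlib.GroupTheory.FreeGroup.Basic

/-!
# Straight-line programs over a free group of finite rank
-/

namespace Pool.Agent.Lib.MP_0c2883_lc.All

open Pool.Agent.Lib.PolyTime

instance encFin (M : ℕ) : Enc (Fin M) := Enc.ofInj (fun i : Fin M => i.val) Fin.val_injective

/-- A letter: a generator together with a sign (as in Mathlib's free groups). -/
abbrev Letter (M : ℕ) := Fin M × Bool

/-- Input rules: a letter or a concatenation of two earlier words. -/
abbrev SRule (M : ℕ) := Letter M ⊕ ℕ × ℕ

/-- The words produced by the rules of a straight-line program. -/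
def words {M : ℕ} (W : List (SRule M)) : List (List (Letter M)) :=
  W.foldl (fun vs r => vs ++ [match r with
    | Sum.inl x => [x]
    | Sum.inr (j, k) => vs[j]?.getD [] ++ vs[k]?.getD []]) []

/-- The word of a straight-line program: the word of its last rule. -/
def eval {M : ℕ} (W : List (SRule M)) : List (Letter M) := (words W).getLast?.getD []

end Pool.Agent.Lib.MP_0c2883_lc.All
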