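import Pool.Agent.Lib.MP_0c2883_lc.All.AlgStmts

/-!
# DET: detection of chains of slides by lengths
-/

set_option autoImplicit false

namespace Pool.Agent.Lib.MP_0c2883_lc.All

open List

namespace Det

variable {α : Type} {M : ℕ}

/-! ### Cyclic pairs -/

/-- Consecutive pairs, followed by the pair of the last entry and `e`. -/
def ch (e : α) : List α → List (α × α)
  | [] => []
  | [x] => [(x, e)]
  | x :: y :: t => (x, y) :: ch e (y :: t)

theorem ch_eq_zip (e x : α) (t : List α) : ch e (x :: t) = (x :: t).zip (t ++ [e]) := by
  induction t generalizing x with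
  | nil => rfl
  | cons y t ih => rw [ch, ih]; rfl

theorem rotate_one (x : α) (t : List α) : (x :: t).rotate 1 = t ++ [x] := by
  rw [List.rotate_cons_succ, List.rotate_zero]

theorem cpairs_cons (x : α) (t : List α) : cpairs (x :: t) = ch x (x :: t) := by
  rw [ch_eq_zip, cpairs, rotate_one]

theorem ch_append (e y : α) (l₁ l₂ : List α) : ch e (l₁ ++ y :: l₂) = ch y l₁ ++ ch e (y :: l₂) := by
  induction l₁ with
  | nil => rfl
  | cons x t ih =>
    cases t with
    | nil => rfl
    | cons z t =>
      simp only [List.cons_append, ch] at ih ⊢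
      rw [ih]

theorem cpairs_rotate (w : List α) (k : ℕ) : cpairs (w.rotate k) = (cpairs w).rotate k := by
  unfold cpairs
  have h : ∀ l l' : List α, l.zip l' = List.zipWith Prod.mk l l' := fun _ _ => rfl
  rw [h, h, List.zipWith_rotate_distrib _ _ _ _ (by simp), List.rotate_rotate,
    List.rotate_rotate, Nat.add_comm]

theorem cap_rot (C : Letter M → Bool) {w w' : List (Letter M)} (h : w ~r w') : cap w C = cap w' C := by
  obtain ⟨k, rfl⟩ := h
  unfold cap
  rw [cpairs_rotate]
  exact ((List.rotate_perm _ _).countP_eq _).symm

theorem mem_cpairs_rot {w w' : List α} (h : w ~r w') (z : α × α) : z ∈ cpairs w ↔ z ∈ cpairs w' := by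
  obtain ⟨k, rfl⟩ := h
  rw [cpairs_rotate, List.mem_rotate]

/-- cyclic pairs in linear position -/
theorem mem_ch_split {e : α} {w : List α} {z : α × α} (h : z ∈ ch e w) :
    (∃ l₁ l₂, w = l₁ ++ z.1 :: z.2 :: l₂) ∨ ((∃ l₁, w = l₁ ++ [z.1]) ∧ z.2 = e) := by
  induction w with
  | nil => simp [ch] at h
  | cons x t ih =>
    cases t with
    | nil =>
      simp only [ch, List.mem_singleton] at h
      subst h
      exact Or.inr ⟨⟨[], rfl⟩, rfl⟩
    | cons y t =>
      simp only [ch, List.mem_cons] at h
      rcases h with h | h
      · subst h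
        exact Or.inl ⟨[], t, rfl⟩
      · rcases ih h with ⟨l₁, l₂, h1⟩ | ⟨⟨l₁, h1⟩, h2⟩
        · exact Or.inl ⟨x :: l₁, l₂, by rw [h1]; rfl⟩
        · exact Or.inr ⟨⟨x :: l₁, by rw [h1]; rfl⟩, h2⟩

theorem last_mem_ch {e x : α} {t : List α} (h : x :: t ≠ []) : ((x :: t).getLast h, e) ∈ ch e (x :: t) := by
  induction t generalizing x with
  | nil => simp [ch]
  | cons y t ih =>
    rw [ch, List.getLast_cons (by simp)]
    exact List.mem_cons_of_mem _ (ih _)

theorem not_cr {w : List (Letter M)} (h : ¬ CR w) : ∃ x L, w ~r x :: linv x :: L := by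
  have key : ∀ z ∈ cpairs w, ¬ (z.1.1 = z.2.1 → z.1.2 = z.2.2) → ∃ x L, w ~r x :: linv x :: L := by
    intro z hz hn
    have hz2 : z.2 = linv z.1 := by
      rcases z with ⟨⟨i, b⟩, ⟨j, c⟩⟩
      simp only at hn
      push Not at hn
      obtain ⟨h1, h2⟩ := hn
      subst h1
      cases b <;> cases c <;> simp_all [linv]
    cases w with
    | nil => simp [cpairs] at hz
    | cons x t =>
      rw [cpairs_cons] at hz
      rcases mem_ch_split hz with ⟨l₁, l₂, h1⟩ | ⟨⟨l₁, h1⟩, h2⟩
      · refine ⟨z.1, l₂ ++ l₁, ?_⟩
        rw [h1, hz2]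
        have : z.1 :: linv z.1 :: (l₂ ++ l₁) = (z.1 :: linv z.1 :: l₂) ++ l₁ := rfl
        rw [this]
        exact List.isRotated_append
      · cases l₁ with
        | nil =>
          exfalso
          simp only [List.nil_append, List.cons.injEq] at h1
          rw [← h1.1, h2] at hz2
          exact linv_ne x hz2.symm
        | cons y l₁ =>
          simp only [List.cons_append, List.cons.injEq] at h1
          obtain ⟨rfl, h1⟩ := h1
          refine ⟨z.1, l₁, ?_⟩
          rw [h1, ← hz2, h2]
          have : x :: (l₁ ++ [z.1]) = (x :: l₁) ++ [z.1] := rfl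
          rw [this]
          exact List.isRotated_append
  by_contra hcon
  apply h
  have hall : ∀ z ∈ cpairs w, z.1.1 = z.2.1 → z.1.2 = z.2.2 := fun z hz => by
    by_contra hn
    exact hcon (key z hz hn)
  cases w with
  | nil => exact FreeGroup.IsCyclicallyReduced.nil
  | cons x t =>
    rw [cpairs_cons] at hall
    rw [CR, FreeGroup.isCyclicallyReduced_iff]
    constructor
    · have : ∀ (t : List (Letter M)) (x e : Letter M), (∀ z ∈ ch e (x :: t), z.1.1 = z.2.1 → z.1.2 = z.2.2) →
          FreeGroup.IsReduced (x :: t) := by
        intro t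
        induction t with
        | nil => intro x e _; simp [FreeGroup.IsReduced]
        | cons y t ih =>
          intro x e h
          rw [FreeGroup.IsReduced, List.isChain_cons_cons]
          exact ⟨h (x, y) (by simp [ch]), ih y e fun z hz => h z (by simp [ch, hz])⟩
      exact this t x x hall
    · intro a ha b hb
      simp only [List.head?_cons, Option.mem_def, Option.some.injEq] at hb
      subst hb
      rw [List.getLast?_eq_getLast_of_ne_nil (by simp), Option.mem_def, Option.some.injEq] at ha
      subst ha
      exact hall _ (last_mem_ch _)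

/-- exits -/
abbrev ex (C : Letter M → Bool) (z : Letter M × Letter M) : Bool := C (linv z.1) != C z.2

theorem cap_eq (C : Letter M → Bool) (w : List (Letter M)) : cap w C = (cpairs w).countP (ex C) := rfl

theorem countP_ch_le (C : Letter M → Bool) (e e' : Letter M) (l : List (Letter M)) :
    (ch e' l).countP (ex C) ≤ (ch e l).countP (ex C) + (if C e != C e' then 1 else 0) := by
  induction l with
  | nil => simp [ch]
  | cons x t ih =>
    cases t with
    | nil =>
      simp only [ch, List.countP_cons, List.countP_nil, ex]
      rcases Bool.eq_false_or_eq_true (C (linv x)) with h1 | h1 <;>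
        rcases Bool.eq_false_or_eq_true (C e) with h2 | h2 <;>
        rcases Bool.eq_false_or_eq_true (C e') with h3 | h3 <;> simp [h1, h2, h3]
    | cons y t =>
      simp only [ch, List.countP_cons] at ih ⊢
      omega

theorem cap_cancel (C : Letter M → Bool) (x : Letter M) (L : List (Letter M)) :
    cap L C ≤ cap (x :: linv x :: L) C := by
  cases L with
  | nil => simp [cap, cpairs]
  | cons y t =>
    rw [cap_eq, cap_eq, cpairs_cons, cpairs_cons]
    simp only [ch, List.countP_cons]
    have h := countP_ch_le C x y (y :: t)
    have h1 : ex C (linv x, y) = (C x != C y) := by simp [ex]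
    rw [h1]
    omega

/-- conjugation by rotation -/
theorem conj_rot {w w' : List (Letter M)} (h : w ~r w') : IsConj (FreeGroup.mk w) (FreeGroup.mk w') := by
  obtain ⟨k, rfl⟩ := h
  have h1 : w = w.take (k % w.length) ++ w.drop (k % w.length) := (List.take_append_drop _ _).symm
  have h2 : w.rotate k = w.drop (k % w.length) ++ w.take (k % w.length) := List.rotate_eq_drop_append_take_mod
  rw [h2]
  conv_lhs => rw [h1]
  rw [← FreeGroup.mul_mk, ← FreeGroup.mul_mk, isConj_iff]
  exact ⟨(FreeGroup.mk (w.take (k % w.length)))⁻¹, by group⟩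

theorem mk_cancel (x : Letter M) (L : List (Letter M)) :
    FreeGroup.mk (x :: linv x :: L) = FreeGroup.mk L := by
  have h : x :: linv x :: L = [] ++ (x.1, x.2) :: (x.1, !x.2) :: L := rfl
  rw [h]
  exact Quot.sound FreeGroup.Red.Step.not

/-- cyclic reduction does not increase the number of exits -/
theorem cyc (C : Letter M → Bool) (n : ℕ) : ∀ v : List (Letter M), v.length = n → ∃ v', CR v' ∧
    IsConj (FreeGroup.mk v') (FreeGroup.mk v) ∧ cap v' C ≤ cap v C ∧ (v' = v ∨ v'.length < v.length) := by
  induction n using Nat.strong_induction_on with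
  | _ n ih =>
    intro v hv
    by_cases h : CR v
    · exact ⟨v, h, IsConj.refl _, le_rfl, Or.inl rfl⟩
    · obtain ⟨x, L, hL⟩ := not_cr h
      have hlen : v.length = L.length + 2 := by rw [hL.perm.length_eq]; rfl
      obtain ⟨v', h1, h2, h3, h4⟩ := ih L.length (by omega) L rfl
      refine ⟨v', h1, ?_, ?_, Or.inr ?_⟩
      · have h5 := conj_rot hL
        rw [mk_cancel] at h5
        exact h2.trans h5.symm
      · rw [cap_rot C hL]
        exact h3.trans (cap_cancel C x L)
      · rcases h4 with h4 | h4
        · rw [h4]; omega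
        · omega

theorem cr_le (hC : ConjStmt) (C : Letter M → Bool) {w v : List (Letter M)} (hw : CR w)
    (h : IsConj (FreeGroup.mk w) (FreeGroup.mk v)) :
    cap w C ≤ cap v C ∧ w.length ≤ v.length ∧ (w.length = v.length → w ~r v) := by
  obtain ⟨v', h1, h2, h3, h4⟩ := cyc C v.length v rfl
  have h5 : w ~r v' := hC M w v' hw h1 (h.trans h2.symm)
  refine ⟨by rw [cap_rot C h5]; exact h3, ?_, ?_⟩
  · rw [h5.perm.length_eq]
    rcases h4 with h4 | h4
    · rw [h4]
    · exact h4.le
  · intro h6
    rcases h4 with h4 | h4
    · rw [← h4]; exact h5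
    · rw [h5.perm.length_eq] at h6
      omega

/-! ### Insertions -/

/-- insertions behind every letter -/
def insl (J : α → α → List α) (e : α) : List α → List α
  | [] => []
  | [x] => x :: J x e
  | x :: y :: t => (x :: J x y) ++ insl J e (y :: t)

theorem insl_head (J : α → α → List α) (e y : α) (t : List α) : ∃ s, insl J e (y :: t) = y :: s := by
  cases t with
  | nil => exact ⟨_, rfl⟩
  | cons z t => exact ⟨_, rfl⟩

theorem ch_insl (J : α → α → List α) (e : α) (w : List α) :
    ch e (insl J e w) = (ch e w).flatMap (fun z => ch z.2 (z.1 :: J z.1 z.2)) := by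
  induction w with
  | nil => rfl
  | cons x t ih =>
    cases t with
    | nil => simp [insl, ch]
    | cons y t =>
      obtain ⟨s, hs⟩ := insl_head J e y t
      rw [insl, ch, List.flatMap_cons, ← ih, hs, ch_append]

/-- cyclic version -/
def cins (J : α → α → List α) : List α → List α
  | [] => []
  | x :: t => insl J x (x :: t)

theorem cpairs_cins (J : α → α → List α) (w : List α) :
    cpairs (cins J w) = (cpairs w).flatMap (fun z => ch z.2 (z.1 :: J z.1 z.2)) := by
  cases w with
  | nil => rfl
  | cons x t =>
    rw [cins, cpairs_cons, ← ch_insl]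
    obtain ⟨s, hs⟩ := insl_head J x x t
    rw [hs, cpairs_cons]

/-- the insertions of the automorphism -/
def JJ (C : Letter M → Bool) (q : List (Letter M)) (x y : Letter M) : List (Letter M) :=
  if C (linv x) then (if C y then [] else FreeGroup.invRev q) else (if C y then q else [])

theorem length_insl (C : Letter M → Bool) (q : List (Letter M)) (e : Letter M) (w : List (Letter M)) :
    (insl (JJ C q) e w).length = w.length + q.length * (ch e w).countP (ex C) := by
  have hJ : ∀ x y, (JJ C q x y).length = q.length * (if ex C (x, y) then 1 else 0) := by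
    intro x y
    simp only [JJ, ex]
    rcases Bool.eq_false_or_eq_true (C (linv x)) with h1 | h1 <;>
      rcases Bool.eq_false_or_eq_true (C y) with h2 | h2 <;> simp [h1, h2]
  induction w with
  | nil => simp [insl, ch]
  | cons x t ih =>
    cases t with
    | nil => simp only [insl, ch, List.length_cons, hJ, List.countP_cons, List.countP_nil]; ring_nf; simp
    | cons y t =>
      simp only [insl, ch, List.length_append, List.length_cons, hJ, List.countP_cons] at ih ⊢
      rw [ih]
      ring

theorem length_cins (C : Letter M → Bool) (q w : List (Letter M)) :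
    (cins (JJ C q) w).length = w.length + q.length * cap w C := by
  cases w with
  | nil => simp [cins, cap, cpairs]
  | cons x t => rw [cins, length_insl, cap_eq, cpairs_cons]

/-- words not touching `C` -/
def Off (C : Letter M → Bool) (q : List (Letter M)) : Prop := ∀ y ∈ q, C y = false ∧ C (linv y) = false

theorem mem_invRev {q : List (Letter M)} {y : Letter M} : y ∈ FreeGroup.invRev q ↔ linv y ∈ q := by
  unfold FreeGroup.invRev
  rw [List.mem_reverse, List.mem_map]
  constructor
  · rintro ⟨z, hz, rfl⟩
    have : linv (z.1, !z.2) = z := by simp [linv]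
    rwa [this]
  · intro h
    exact ⟨linv y, h, by simp [linv]⟩

theorem Off.inv {C : Letter M → Bool} {q : List (Letter M)} (h : Off C q) : Off C (FreeGroup.invRev q) := by
  intro y hy
  have := h _ (mem_invRev.mp hy)
  rw [linv_linv] at this
  exact ⟨this.2, this.1⟩

theorem countP_off {C : Letter M → Bool} {q : List (Letter M)} (h : Off C q) (hne : q ≠ []) (y : Letter M) :
    (ch y q).countP (ex C) = if C y then 1 else 0 := by
  induction q with
  | nil => exact absurd rfl hne
  | cons x t ih =>
    have hx := h x (by simp)
    cases t with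
    | nil => simp [ch, ex, hx.2]
    | cons z t =>
      have hz := h z (by simp)
      rw [ch, List.countP_cons, ih (fun y hy => h y (by simp [List.mem_cons.mp hy])) (by simp)]
      simp [ex, hx.2, hz.1]

theorem countP_JJ {C : Letter M → Bool} {q : List (Letter M)} (h : Off C q) (x y : Letter M) :
    (ch y (x :: JJ C q x y)).countP (ex C) = if ex C (x, y) then 1 else 0 := by
  have key : ∀ q : List (Letter M), Off C q → ex C (x, y) = true →
      (ch y (x :: q)).countP (ex C) = if ex C (x, y) then 1 else 0 := by
    intro q h he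
    rw [if_pos he]
    cases q with
    | nil => simp only [ch, List.countP_cons, List.countP_nil, he, if_true]
    | cons z t =>
      rw [ch, List.countP_cons, countP_off h (by simp)]
      have hz := h z (by simp)
      simp only [ex, hz.1] at he ⊢
      cases h1 : C (linv x) <;> cases h2 : C y <;> simp_all
  by_cases he : ex C (x, y) = true
  · unfold JJ
    by_cases h1 : C (linv x) = true
    · have h2 : C y = false := by
        simp only [ex, h1] at he
        simpa using he
      rw [if_pos h1, if_neg (by simp [h2])]
      exact key _ h.inv he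
    · have h2 : C y = true := by
        simp only [ex] at he
        have h1' : C (linv x) = false := by simpa using h1
        rw [h1'] at he
        simpa using he
      rw [if_neg h1, if_pos h2]
      exact key _ h he
  · have hJ : JJ C q x y = [] := by
      unfold JJ
      simp only [ex] at he
      cases h1 : C (linv x) <;> cases h2 : C y <;> simp_all
    rw [hJ]
    simp [ch, List.countP_cons]

theorem countP_flatMap_eq {β : Type} (p : β → Bool) (f : β → List β) (l : List β)
    (h : ∀ z ∈ l, (f z).countP p = if p z then 1 else 0) : (l.flatMap f).countP p = l.countP p := by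
  induction l with
  | nil => rfl
  | cons z l ih =>
    rw [List.flatMap_cons, List.countP_append, ih (fun z hz => h z (by simp [hz])), h z (by simp),
      List.countP_cons, Nat.add_comm]

theorem cap_cins {C : Letter M → Bool} {q : List (Letter M)} (h : Off C q) (w : List (Letter M)) :
    cap (cins (JJ C q) w) C = cap w C := by
  rw [cap_eq, cap_eq, cpairs_cins]
  exact countP_flatMap_eq _ _ _ fun z _ => countP_JJ h z.1 z.2

/-! ### The automorphisms -/

/-- powers -/
def pw (q : List (Letter M)) (b : Bool) : FreeGroup (Fin M) := if b then FreeGroup.mk q else 1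

theorem mk_nil : (FreeGroup.mk [] : FreeGroup (Fin M)) = 1 := FreeGroup.one_eq_mk.symm

theorem mk_JJ (C : Letter M → Bool) (q : List (Letter M)) (x y : Letter M) :
    FreeGroup.mk (JJ C q x y) = (pw q (C (linv x)))⁻¹ * pw q (C y) := by
  unfold JJ pw
  rcases Bool.eq_false_or_eq_true (C (linv x)) with h1 | h1 <;>
    rcases Bool.eq_false_or_eq_true (C y) with h2 | h2 <;>
    simp only [h1, h2, if_true, Bool.false_eq_true, if_false, mk_nil, inv_one, one_mul, mul_one,
      ← FreeGroup.inv_mk, inv_mul_cancel]

theorem mk_cons (x : Letter M) (l : List (Letter M)) :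
    FreeGroup.mk (x :: l) = FreeGroup.mk [x] * FreeGroup.mk l := by
  rw [FreeGroup.mul_mk]; rfl

theorem mk_sigL (C : Letter M → Bool) (q : List (Letter M)) (x : Letter M) :
    FreeGroup.mk (sigL C q x) = pw q (C x) * FreeGroup.mk [x] * (pw q (C (linv x)))⁻¹ := by
  unfold sigL
  rw [← FreeGroup.mul_mk, mk_cons]
  unfold pw
  cases C x <;> cases C (linv x) <;> simp [mk_nil, FreeGroup.inv_mk, FreeGroup.mul_mk]

theorem mk_sigW_cons (C : Letter M → Bool) (q : List (Letter M)) (x : Letter M) (t : List (Letter M)) :
    FreeGroup.mk (sigW C q (x :: t)) = FreeGroup.mk (sigL C q x) * FreeGroup.mk (sigW C q t) := by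
  unfold sigW
  rw [List.flatMap_cons, FreeGroup.mul_mk]

theorem mk_insl (C : Letter M → Bool) (q : List (Letter M)) (e x : Letter M) (t : List (Letter M)) :
    FreeGroup.mk (insl (JJ C q) e (x :: t)) =
      (pw q (C x))⁻¹ * FreeGroup.mk (sigW C q (x :: t)) * pw q (C e) := by
  induction t generalizing x with
  | nil =>
    rw [mk_sigW_cons, mk_sigL]
    simp only [insl]
    rw [mk_cons, mk_JJ]
    have : FreeGroup.mk (sigW C q []) = (1 : FreeGroup (Fin M)) := mk_nil
    rw [this]
    group
  | cons y t ih =>
    rw [mk_sigW_cons, mk_sigL, insl, ← FreeGroup.mul_mk, ih, mk_cons, mk_JJ]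
    group

theorem conj_cins (C : Letter M → Bool) (q w : List (Letter M)) :
    IsConj (FreeGroup.mk (cins (JJ C q) w)) (FreeGroup.mk (sigW C q w)) := by
  cases w with
  | nil => exact IsConj.refl _
  | cons x t =>
    rw [cins, mk_insl, isConj_iff]
    exact ⟨pw q (C x), by group⟩

/-- the endomorphism -/
def S (C : Letter M → Bool) (q : List (Letter M)) : FreeGroup (Fin M) →* FreeGroup (Fin M) :=
  FreeGroup.lift (fun i => FreeGroup.mk (sigL C q (i, true)))

theorem S_mk (C : Letter M → Bool) (q w : List (Letter M)) :
    S C q (FreeGroup.mk w) = FreeGroup.mk (sigW C q w) := by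
  induction w with
  | nil =>
    rw [mk_nil, map_one]
    exact mk_nil.symm
  | cons x t ih =>
    rw [mk_cons, map_mul, ih, mk_sigW_cons]
    congr 1
    rcases x with ⟨i, b⟩
    cases b with
    | true =>
      have : (FreeGroup.mk [(i, true)] : FreeGroup (Fin M)) = FreeGroup.of i := rfl
      rw [this]
      unfold S
      rw [FreeGroup.lift_apply_of]
    | false =>
      have : (FreeGroup.mk [(i, false)] : FreeGroup (Fin M)) = (FreeGroup.of i)⁻¹ := rfl
      rw [this, map_inv]
      unfold S
      rw [FreeGroup.lift_apply_of, mk_sigL, mk_sigL]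
      have h1 : linv ((i, true) : Letter M) = (i, false) := rfl
      have h2 : linv ((i, false) : Letter M) = (i, true) := rfl
      have h3 : (FreeGroup.mk [(i, false)] : FreeGroup (Fin M)) = (FreeGroup.mk [(i, true)])⁻¹ := rfl
      rw [h1, h2, h3]
      group

theorem sigW_off {C : Letter M → Bool} {q : List (Letter M)} (h : Off C q) (p : List (Letter M)) :
    sigW C p q = q := by
  induction q with
  | nil => rfl
  | cons x t ih =>
    have hx := h x (by simp)
    have : sigW C p (x :: t) = sigL C p x ++ sigW C p t := rfl
    rw [this, ih (fun y hy => h y (by simp [hy]))]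
    simp [sigL, hx.1, hx.2]

theorem S_pw {C : Letter M → Bool} {q : List (Letter M)} (h : Off C q) (p : List (Letter M)) (b : Bool) :
    S C p (pw q b) = pw q b := by
  unfold pw
  cases b
  · simp
  · simp only [if_true]
    rw [S_mk, sigW_off h]

theorem S_comp {C : Letter M → Bool} {q : List (Letter M)} (h : Off C q) (p r : List (Letter M))
    (hr : ∀ b, pw r b = pw q b * pw p b) (g : FreeGroup (Fin M)) : S C p (S C q g) = S C r g := by
  have : (S C p).comp (S C q) = S C r := by
    apply FreeGroup.ext_hom
    intro i
    have hi : FreeGroup.of i = (FreeGroup.mk [(i, true)] : FreeGroup (Fin M)) := rfl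
    have h1 : ∀ q : List (Letter M), S C q (FreeGroup.of i) = FreeGroup.mk (sigL C q (i, true)) := by
      intro q
      unfold S
      rw [FreeGroup.lift_apply_of]
    rw [MonoidHom.comp_apply, h1, h1, mk_sigL, mk_sigL, map_mul, map_mul, map_inv, S_pw h, S_pw h, ← hi, h1,
      mk_sigL, hr, hr]
    rw [hi]
    group
  rw [← this]; rfl

theorem S_inv {C : Letter M → Bool} {q : List (Letter M)} (h : Off C q) (g : FreeGroup (Fin M)) :
    S C (FreeGroup.invRev q) (S C q g) = g := by
  rw [S_comp h (FreeGroup.invRev q) [] (by
    intro b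
    unfold pw
    cases b
    · simp
    · simp [mk_nil, ← FreeGroup.inv_mk])]
  have : S C ([] : List (Letter M)) = MonoidHom.id _ := by
    apply FreeGroup.ext_hom
    intro i
    unfold S
    rw [FreeGroup.lift_apply_of]
    have : sigL C [] ((i, true) : Letter M) = [(i, true)] := by
      simp [sigL, FreeGroup.invRev]
    rw [this]; rfl
  rw [this]; rfl

/-! ### Slides -/

theorem mem_ch {e : α} {l : List α} {z : α × α} (h : z ∈ ch e l) :
    (z.1 ∈ l ∧ z.2 ∈ l.tail) ∨ (l.getLast? = some z.1 ∧ z.2 = e) := by
  induction l with
  | nil => simp [ch] at h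
  | cons x t ih =>
    cases t with
    | nil =>
      simp only [ch, List.mem_singleton] at h
      subst h
      exact Or.inr ⟨rfl, rfl⟩
    | cons y t =>
      simp only [ch, List.mem_cons] at h
      rcases h with h | h
      · subst h
        exact Or.inl ⟨by simp, by simp⟩
      · rcases ih h with ⟨h1, h2⟩ | ⟨h1, h2⟩
        · exact Or.inl ⟨List.mem_cons_of_mem _ h1, List.mem_cons_of_mem _ h2⟩
        · exact Or.inr ⟨by rw [List.getLast?_cons_cons]; exact h1, h2⟩

/-- all exits go to `a` -/
def Ex (C : Letter M → Bool) (a : Letter M) (w : List (Letter M)) : Prop := ∀ z ∈ cpairs w,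
  (C (linv z.1) = true → C z.2 = false → z.2 = a) ∧ (C (linv z.1) = false → C z.2 = true → z.1 = linv a)

theorem ex_cins {C : Letter M → Bool} {a : Letter M} {p : List (Letter M)} (h : Off C (a :: p))
    (w : List (Letter M)) : Ex C a (cins (JJ C (FreeGroup.invRev (a :: p))) w) := by
  intro z hz
  rw [cpairs_cins, List.mem_flatMap] at hz
  obtain ⟨⟨x, y⟩, _, hz⟩ := hz
  simp only at hz
  have hoff := h.inv
  rcases Bool.eq_false_or_eq_true (C (linv x)) with h1 | h1 <;>
    rcases Bool.eq_false_or_eq_true (C y) with h2 | h2
  · have hJ : JJ C (FreeGroup.invRev (a :: p)) x y = [] := by simp [JJ, h1, h2]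
    rw [hJ] at hz
    simp only [ch, List.mem_singleton] at hz
    subst hz
    simp [h1, h2]
  · have hJ : JJ C (FreeGroup.invRev (a :: p)) x y = a :: p := by
      simp [JJ, h1, h2, FreeGroup.invRev_invRev]
    rw [hJ] at hz
    simp only [ch, List.mem_cons] at hz
    rcases hz with hz | hz
    · subst hz
      exact ⟨fun _ _ => rfl, fun h3 => by simp [h1] at h3⟩
    · rcases mem_ch hz with ⟨h3, h4⟩ | ⟨h3, h4⟩
      · have h5 := h z.1 h3
        have h6 := h z.2 (by simp only [List.tail_cons] at h4; simp [h4])
        simp [h5.2, h6.1]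
      · have h5 := h z.1 (List.mem_of_getLast? h3)
        simp [h5.2, h4, h2]
  · have hJ : JJ C (FreeGroup.invRev (a :: p)) x y = FreeGroup.invRev (a :: p) := by
      simp [JJ, h1, h2]
    rw [hJ] at hz
    rcases mem_ch hz with ⟨h3, h4⟩ | ⟨h3, h4⟩
    · have h6 := hoff z.2 h4
      have h5 : C (linv z.1) = false := by
        rcases List.mem_cons.mp h3 with h3 | h3
        · rw [h3, h1]
        · exact (hoff z.1 h3).2
      simp [h5, h6.1]
    · have hinv : FreeGroup.invRev (a :: p) = FreeGroup.invRev p ++ [linv a] := by
        simp [FreeGroup.invRev, linv]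
      have h5 : z.1 = linv a := by
        rw [hinv, ← List.cons_append, List.getLast?_append] at h3
        simpa using h3.symm
      have h6 : C (linv z.1) = false := by
        rw [h5, linv_linv]; exact (h a (by simp)).1
      exact ⟨fun h7 => by simp [h6] at h7, fun _ _ => h5⟩
  · have hJ : JJ C (FreeGroup.invRev (a :: p)) x y = [] := by simp [JJ, h1, h2]
    rw [hJ] at hz
    simp only [ch, List.mem_singleton] at hz
    subst hz
    simp [h1, h2]

theorem tc_pos {w : List (Letter M)} {p q : Letter M} (h : 0 < tc w p q) : (linv p, q) ∈ cpairs w := by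
  unfold tc at h
  rw [List.countP_pos_iff] at h
  obtain ⟨z, hz, hz'⟩ := h
  simp only [decide_eq_true_eq] at hz'
  rwa [← hz']

theorem pos_tc {w : List (Letter M)} {x y : Letter M} (h : (x, y) ∈ cpairs w) : 0 < tc w (linv x) y := by
  unfold tc
  rw [List.countP_pos_iff]
  exact ⟨_, h, by simp⟩

theorem ok_iff {C : Letter M → Bool} {a : Letter M} {w : List (Letter M)} (h1 : C a = false)
    (h2 : C (linv a) = false) : Ok w C a ↔ Ex C a w := by
  constructor
  · intro h z hz
    have hp : 0 < tc w (linv z.1) z.2 := pos_tc hz
    constructor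
    · intro h3 h4
      exact h.bd (linv z.1) z.2 (by unfold tm; omega) h3 h4
    · intro h3 h4
      have := h.bd z.2 (linv z.1) (by unfold tm; omega) h4 h3
      rw [← this, linv_linv]
  · intro h
    refine ⟨h1, h2, fun p q hpq hp hq => ?_⟩
    unfold tm at hpq
    rcases Nat.eq_zero_or_pos (tc w p q) with h0 | h0
    · have h3 : 0 < tc w q p := by omega
      have h4 := (h _ (tc_pos h3)).2 (by simpa using hq) hp
      exact linv_inj.mp h4
    · exact (h _ (tc_pos h0)).1 (by simpa using hp) hq

/-- contexts -/
def tch (u e : α) : List α → List (α × (α × α))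
  | [] => []
  | [x] => [(u, (x, e))]
  | x :: y :: t => (u, (x, y)) :: tch x e (y :: t)

theorem tch_eq (u e x : α) (t : List α) :
    tch u e (x :: t) = (u :: (x :: t).dropLast).zip ((x :: t).zip (t ++ [e])) := by
  induction t generalizing u x with
  | nil => rfl
  | cons y t ih => rw [tch, ih]; rfl

theorem ctx_eq (x : α) (t : List α) : ctx (x :: t) = tch ((x :: t).getLast (by simp)) x (x :: t) := by
  rw [tch_eq, ctx, rotate_one]
  have key : ∀ (l : List α) (z : α), (l ++ [z]).rotate ((l ++ [z]).length - 1) = z :: l := by
    intro l z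
    have : (l ++ [z]).length - 1 = l.length := by simp
    rw [this, List.rotate_append_length_eq]
    rfl
  have h1 := key (x :: t).dropLast ((x :: t).getLast (by simp))
  rw [List.dropLast_append_getLast] at h1
  rw [h1]

theorem mem_tch {u e x : α} {s : List α} {t : α × (α × α)} (h : t ∈ tch u e (x :: s)) :
    t.2 ∈ ch e (x :: s) ∧ ((t.1, t.2.1) = (u, x) ∨ (t.1, t.2.1) ∈ ch e (x :: s)) := by
  induction s generalizing u x with
  | nil =>
    simp only [tch, List.mem_singleton] at h
    subst h
    simp [ch]
  | cons y s ih =>
    simp only [tch, List.mem_cons] at h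
    rcases h with h | h
    · subst h
      simp [ch]
    · obtain ⟨h1, h2⟩ := ih h
      refine ⟨by rw [ch]; exact List.mem_cons_of_mem _ h1, ?_⟩
      rcases h2 with h2 | h2
      · right; rw [ch, h2]; simp
      · right; rw [ch]; exact List.mem_cons_of_mem _ h2

/-- left part of an insertion -/
def Af (C : Letter M → Bool) (a x y : Letter M) : FreeGroup (Fin M) :=
  if C (linv x) = true ∧ C y = false then (FreeGroup.mk [a])⁻¹ else 1

def Bf (C : Letter M → Bool) (a x y : Letter M) : FreeGroup (Fin M) :=
  if C (linv x) = false ∧ C y = true then FreeGroup.mk [a] else 1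

def Pf (C : Letter M → Bool) (a : Letter M) (t : Letter M × (Letter M × Letter M)) : FreeGroup (Fin M) :=
  Af C a t.1 t.2.1 * FreeGroup.mk [t.2.1] * Bf C a t.2.1 t.2.2

theorem BA (C : Letter M → Bool) (a x y : Letter M) :
    Bf C a x y * Af C a x y = FreeGroup.mk (JJ C [a] x y) := by
  rw [mk_JJ]
  unfold Af Bf pw
  rcases Bool.eq_false_or_eq_true (C (linv x)) with h1 | h1 <;>
    rcases Bool.eq_false_or_eq_true (C y) with h2 | h2 <;>
    simp [h1, h2, -FreeGroup.inv_mk, -FreeGroup.mul_mk]

theorem tch_prod (C : Letter M → Bool) (a e : Letter M) (s : List (Letter M)) : ∀ (u x : Letter M),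
    ((tch u e (x :: s)).map (Pf C a)).prod * Af C a ((x :: s).getLast (by simp)) e =
      Af C a u x * FreeGroup.mk (insl (JJ C [a]) e (x :: s)) := by
  induction s with
  | nil =>
    intro u x
    simp only [tch, List.map_cons, List.map_nil, List.prod_cons, List.prod_nil, mul_one, insl,
      List.getLast_singleton]
    rw [mk_cons, ← BA]
    unfold Pf
    group
  | cons y s ih =>
    intro u x
    simp only [tch, List.map_cons, List.prod_cons, insl]
    rw [List.getLast_cons (by simp), mul_assoc, ih, ← FreeGroup.mul_mk, mk_cons x, ← BA]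
    unfold Pf
    group

theorem mk_filterMap {β : Type} (f : β → Option (Letter M)) (l : List β) :
    FreeGroup.mk (l.filterMap f) = (l.map (fun t => FreeGroup.mk (f t).toList)).prod := by
  induction l with
  | nil => exact mk_nil
  | cons t l ih =>
    rw [List.filterMap_cons, List.map_cons, List.prod_cons, ← ih]
    cases f t with
    | none => simp [mk_nil]
    | some y => simp only [Option.toList_some]; rw [mk_cons]

theorem mk_op {w : List (Letter M)} {C : Letter M → Bool} {a : Letter M} (h : Ok w C a) :
    IsConj (FreeGroup.mk (op C a none w)) (FreeGroup.mk (sigW C [a] w)) := by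
  refine IsConj.trans ?_ (conj_cins C [a] w)
  have hE := (ok_iff h.a_not h.a_inv_not).mp h
  cases w with
  | nil => exact IsConj.refl _
  | cons x s =>
    have hprod : FreeGroup.mk (op C a none (x :: s)) = ((ctx (x :: s)).map (Pf C a)).prod := by
      unfold op
      rw [mk_filterMap]
      congr 1
      apply List.map_congr_left
      intro t ht
      rw [ctx_eq] at ht
      obtain ⟨h1, h2⟩ := mem_tch ht
      have h2' : (t.1, t.2.1) ∈ cpairs (x :: s) := by
        rw [cpairs_cons]
        rcases h2 with h2 | h2
        · rw [h2]; exact last_mem_ch _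
        · exact h2
      rw [← cpairs_cons] at h1
      have e1 := hE _ h1
      have e2 := hE _ h2'
      simp only at e2
      obtain ⟨u, y, v⟩ := t
      simp only at e1 e2 ⊢
      have ca := h.a_not
      have ca' := h.a_inv_not
      have hinv : (FreeGroup.mk [linv a] : FreeGroup (Fin M)) = (FreeGroup.mk [a])⁻¹ := by
        rw [FreeGroup.inv_mk]; rfl
      unfold Pf Af Bf opL
      simp only [Option.map_none]
      by_cases hA : C (linv u) = true ∧ C y = false
      · have hy := e2.1 hA.1 hA.2
        subst hy
        have hB : ¬ (C (linv y) = false ∧ C v = true) := by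
          rintro ⟨h3, h4⟩
          exact linv_ne y (e1.2 h3 h4).symm
        rw [if_pos hA, if_neg hB, if_pos ⟨rfl, hA.1⟩, inv_mul_cancel, one_mul, Option.toList_none, mk_nil]
      · rw [if_neg hA]
        have hn1 : ¬ (y = a ∧ C (linv u) = true) := by
          rintro ⟨rfl, h3⟩
          exact hA ⟨h3, ca⟩
        rw [if_neg hn1]
        by_cases hB : C (linv y) = false ∧ C v = true
        · have hy := e1.2 hB.1 hB.2
          rw [if_pos hB, if_pos ⟨hy, hB.2⟩, hy, hinv, one_mul, inv_mul_cancel, Option.toList_none, mk_nil]
        · have hn2 : ¬ (y = linv a ∧ C v = true) := by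
            rintro ⟨rfl, h3⟩
            exact hB ⟨by rw [linv_linv]; exact ca, h3⟩
          rw [if_neg hB, if_neg hn2]
          simp
    rw [hprod, ctx_eq, cins]
    have h1 := tch_prod C a x s ((x :: s).getLast (by simp)) x
    rw [isConj_iff]
    refine ⟨(Af C a ((x :: s).getLast (by simp)) x)⁻¹, ?_⟩
    rw [inv_inv, mul_assoc, h1]
    group

/-- chains give equality of lengths -/
theorem chain_length (hS : SlideStmt) {C : Letter M → Bool} {w p w' : List (Letter M)}
    (h : ChainW C w p w') (hw : CR w) : w.length = w'.length + p.length * cap w C := by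
  induction h with
  | nil w w' h => rw [h.perm.length_eq]; simp
  | cons w w' p a h _ ih =>
    obtain ⟨h1, h2, h3, _⟩ := hS M w C a hw h
    have h4 := ih h1
    rw [h3] at h4
    rw [List.length_cons]
    have : (p.length + 1) * cap w C = p.length * cap w C + cap w C := by ring
    omega

theorem sigW_nil (C : Letter M → Bool) (w : List (Letter M)) : sigW C [] w = w := by
  unfold sigW
  induction w with
  | nil => rfl
  | cons x t ih => rw [List.flatMap_cons, ih]; simp [sigL, FreeGroup.invRev]

theorem common (hC : ConjStmt) {w w' p : List (Letter M)} {C : Letter M → Bool} (hw : CR w) (hw' : CR w')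
    (hoff : Off C p) (hconj : IsConj (FreeGroup.mk w') (FreeGroup.mk (sigW C p w))) :
    w.length ≤ w'.length + p.length * cap w C ∧ (w.length = w'.length + p.length * cap w C →
      w ~r cins (JJ C (FreeGroup.invRev p)) w') := by
  have hinv : IsConj (FreeGroup.mk w) (FreeGroup.mk (sigW C (FreeGroup.invRev p) w')) := by
    have h1 := (S C (FreeGroup.invRev p)).map_isConj hconj
    rw [← S_mk, S_inv hoff] at h1
    rw [← S_mk]
    exact h1.symm
  have hA := cr_le hC C hw' (hconj.trans (conj_cins C p w).symm)
  have hB := cr_le hC C hw (hinv.trans (conj_cins C (FreeGroup.invRev p) w').symm)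
  have hcap : cap w' C = cap w C := by
    have h1 := hA.1
    have h2 := hB.1
    rw [cap_cins hoff] at h1
    rw [cap_cins hoff.inv] at h2
    omega
  have hlen : (cins (JJ C (FreeGroup.invRev p)) w').length = w'.length + p.length * cap w C := by
    rw [length_cins, FreeGroup.invRev_length, hcap]
  exact ⟨by rw [← hlen]; exact hB.2.1, fun heq => hB.2.2 (by rw [hlen]; exact heq)⟩

theorem main (hS : SlideStmt) (hC : ConjStmt) (C : Letter M → Bool) {w' : List (Letter M)} (hw' : CR w')
    (p : List (Letter M)) : ∀ w : List (Letter M), CR w → Off C p →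
    IsConj (FreeGroup.mk w') (FreeGroup.mk (sigW C p w)) → w.length = w'.length + p.length * cap w C →
    ChainW C w p w' := by
  induction p with
  | nil =>
    intro w hw _ hconj _
    apply ChainW.nil
    apply hC M w' w hw' hw
    rwa [sigW_nil] at hconj
  | cons a p ihp =>
    intro w hw hoff hconj heq
    have hrot := (common hC hw hw' hoff hconj).2 heq
    have hE : Ex C a w := by
      intro z hz
      exact ex_cins hoff w' z ((mem_cpairs_rot hrot z).mp hz)
    have ha := hoff a (by simp)
    have hok : Ok w C a := (ok_iff ha.1 ha.2).mpr hE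
    obtain ⟨s1, s2, s3, _⟩ := hS M w C a hw hok
    refine ChainW.cons w w' p a hok ?_
    have hoff' : Off C p := fun y hy => hoff y (by simp [hy])
    have hoffa : Off C [a] := fun y hy => hoff y (by
      rw [List.mem_singleton] at hy
      simp [hy])
    have h1 : IsConj (FreeGroup.mk w') (FreeGroup.mk (sigW C p (op C a none w))) := by
      refine hconj.trans ?_
      have h2 := (S C p).map_isConj (mk_op hok)
      rw [← S_mk, S_comp hoffa p (a :: p) (by
        intro b
        unfold pw
        cases b
        · simp
        · simp only [if_true]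
          exact mk_cons a p), S_mk, S_mk] at h2
      exact h2.symm
    apply ihp _ s1 hoff' h1
    rw [s3]
    rw [List.length_cons] at heq
    have : (p.length + 1) * cap w C = p.length * cap w C + cap w C := by ring
    omega

theorem chain_conj {C : Letter M → Bool} {w p w' : List (Letter M)} (h : ChainW C w p w') :
    IsConj (FreeGroup.mk w') (FreeGroup.mk (sigW C p w)) := by
  induction h with
  | nil w w' h =>
    rw [sigW_nil]
    exact conj_rot h
  | cons w w' p a h _ ih =>
    refine ih.trans ?_
    have hoffa : Off C [a] := by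
      intro y hy
      rw [List.mem_singleton] at hy
      subst hy
      exact ⟨h.a_not, h.a_inv_not⟩
    have h2 := (S C p).map_isConj (mk_op h)
    rwa [← S_mk, S_comp hoffa p (a :: p) (by
      intro b
      unfold pw
      cases b
      · simp
      · simp only [if_true]
        exact mk_cons a p), S_mk, S_mk] at h2

end Det

/-- The end of a chain is conjugate to the image. -/
theorem chain_conj : ∀ (M : ℕ) (w w' p : List (Letter M)) (C : Letter M → Bool), CR w → ChainW C w p w' →
    IsConj (FreeGroup.mk w') (FreeGroup.mk (sigW C p w)) := fun _ _ _ _ _ _ h => Det.chain_conj h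

/-- DET, from the statements on slides and conjugacy. -/
theorem det (hS : SlideStmt) (hC : ConjStmt) : DetStmt := by
  intro M w w' p C hw hw' hp hconj
  refine ⟨(Det.common hC hw hw' hp hconj).1, fun heq => Det.main hS hC C hw' p w hw hp hconj heq,
    fun h => Det.chain_length hS h hw⟩

end Pool.Agent.Lib.MP_0c2883_lc.All
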