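import Pool.Agent.Lib.MP_0c2883_lc.All.Elim

/-!
# The overlap test runs in polynomial time
-/

namespace Pool.Agent.Lib.MP_0c2883_lc.All

open List Pool.Agent.Lib.PolyTime

variable {ρ : ℕ}

variable {α β γ : Type} [Enc α] [Enc β] [Enc γ]

theorem size_some (a : α) : size (some a) = size a + 2 := by
  show (BT.node (enc a) BT.leaf).size = _
  rw [BT.size_node, BT.size_leaf]; rfl

theorem size_inr (b : β) : size (Sum.inr b : α ⊕ β) = size b + 4 := by
  show (BT.node (BT.node BT.leaf BT.leaf) (enc b)).size = _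
  rw [BT.size_node, BT.size_node, BT.size_leaf]
  show 1 + 1 + 1 + size b + 1 = _
  omega

theorem size_inl (b : α) : size (Sum.inl b : α ⊕ β) = size b + 2 := by
  show (BT.node BT.leaf (enc b)).size = _
  rw [BT.size_node, BT.size_leaf]
  show 1 + size b + 1 = _
  omega

theorem PT.optCasesP {f : α → Option β} {g : α → γ} {F : α × β → γ} (hf : PT f) (hg : PT g)
    (hF : PT F) : PT (fun a => (f a).elim (g a) (fun b => F (a, b))) :=
  (PT.optCases (h := fun a b => F (a, b)) hf hg hF).congr (fun a => by cases f a <;> rfl)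

theorem PT.take {f : α → ℕ} {g : α → List β} (hf : PT f) (hg : PT g) :
    PT (fun a => (g a).take (f a)) :=
  (PT.reverse (PT.drop (PT.sub hg.length hf) hg.reverse)).congr (fun a => by
    have h := List.take_reverse (xs := (g a).reverse) (i := f a)
    rw [List.reverse_reverse, List.length_reverse] at h
    exact h.symm)

theorem PT.mkEnv {f : α → Gram ρ} (hf : PT f) : PT (fun a => All.mkEnv (f a)) :=
  hf.pair ((PT.lens hf).pair ((PT.firsts hf).pair (PT.lasts hf)))

theorem PT.cat {f : α → Env ρ} {g : α → ℕ} (hf : PT f) (hg : PT g) :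
    PT (fun a => All.cat (f a) (g a)) := by
  refine (PT.ruleCases (f := fun a => (f a).1[g a]?.getD none) (g := fun _ => none)
    (h := fun _ _ => none) (k := fun _ p => some p) (PT.getDv hg hf.fst' none) (PT.const none)
    (PT.const none) PT.snd.some).congr (fun a => ?_)
  unfold All.cat
  rcases (f a).1[g a]?.getD none with _ | x | p <;> rfl

theorem PT.len {f : α → Env ρ} {g : α → ℕ} (hf : PT f) (hg : PT g) :
    PT (fun a => All.len (f a) (g a)) := PT.getDv hg hf.snd'.fst' _

theorem PT.fstE {f : α → Env ρ} {g : α → ℕ} (hf : PT f) (hg : PT g) :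
    PT (fun a => All.fst (f a) (g a)) := PT.getDv hg hf.snd'.snd'.fst' _

theorem PT.lstE {f : α → Env ρ} {g : α → ℕ} (hf : PT f) (hg : PT g) :
    PT (fun a => All.lst (f a) (g a)) := PT.getDv hg hf.snd'.snd'.snd' _

theorem size_cat_le {e : Env ρ} {i : ℕ} {p : ℕ × ℕ} (h : All.cat e i = some p) :
    size p ≤ size e.1 := by
  unfold All.cat at h
  rcases h1 : e.1[i]? with _ | _ | x | q
  · rw [h1] at h; simp at h
  · rw [h1] at h; simp at h
  · rw [h1] at h; simp at h
  · rw [h1] at h; simp at h
    subst h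
    have h2 := size_mem_lt (List.mem_of_getElem? h1)
    rw [size_some, size_inr] at h2
    omega

/-- a step of the descent -/
theorem PT.pdStep {f : α → Env ρ} {g : α → ℕ} {h : α → ℕ × BNz} (hf : PT f) (hg : PT g) (hh : PT h) :
    PT (fun a => All.pdStep (f a) (g a) (h a)) := by
  have hc : PT (fun a => All.cat (f a) (h a).1) := PT.cat hf hh.fst'
  have key : PT (fun x : α × (ℕ × ℕ) =>
      if decide ((h x.1).2.val + (All.len (f x.1) (g x.1)).val ≤ (All.len (f x.1) x.2.1).val)
        then (x.2.1, (h x.1).2)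
      else if decide ((All.len (f x.1) x.2.1).val ≤ (h x.1).2.val)
        then (x.2.2, BNz.mk ((h x.1).2.val - (All.len (f x.1) x.2.1).val))
      else h x.1) := by
    have hf' := hf.comp (PT.fst (α := α) (β := ℕ × ℕ))
    have hg' := hg.comp (PT.fst (α := α) (β := ℕ × ℕ))
    have hh' := hh.comp (PT.fst (α := α) (β := ℕ × ℕ))
    have h1 : PT (fun x : α × (ℕ × ℕ) => x.2.1) := PT.snd.fst'
    have h2 : PT (fun x : α × (ℕ × ℕ) => x.2.2) := PT.snd.snd'
    exact PT.cond (PT.bnzLe (PT.bnzAdd hh'.snd' (PT.len hf' hg')) (PT.len hf' h1))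
      (h1.pair hh'.snd')
      (PT.cond (PT.bnzLe (PT.len hf' h1) hh'.snd')
        (h2.pair (PT.bnzSub hh'.snd' (PT.len hf' h1))) hh')
  refine (PT.optCasesP hc hh key).congr (fun a => ?_)
  unfold All.pdStep
  cases All.cat (f a) (h a).1 <;> rfl

theorem PT.pdOut {f : α → Env ρ} {g : α → ℕ} {h : α → ℕ × BNz} (hf : PT f) (hg : PT g) (hh : PT h) :
    PT (fun a => All.pdOut (f a) (g a) (h a)) := by
  have hc : PT (fun a => All.cat (f a) (h a).1) := PT.cat hf hh.fst'
  have h0 : PT (fun a => [(((h a).1, g a), BNz.mk 1)]) :=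
    PT.list1 ((hh.fst'.pair hg).pair (PT.const _))
  have key : PT (fun x : α × (ℕ × ℕ) =>
      [((x.2.1, g x.1), BNz.mk ((All.len (f x.1) x.2.1).val - (h x.1).2.val)),
      ((g x.1, x.2.2), BNz.mk ((h x.1).2.val + (All.len (f x.1) (g x.1)).val -
        (All.len (f x.1) x.2.1).val))]) := by
    have hf' := hf.comp (PT.fst (α := α) (β := ℕ × ℕ))
    have hg' := hg.comp (PT.fst (α := α) (β := ℕ × ℕ))
    have hh' := hh.comp (PT.fst (α := α) (β := ℕ × ℕ))
    have h1 : PT (fun x : α × (ℕ × ℕ) => x.2.1) := PT.snd.fst'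
    have h2 : PT (fun x : α × (ℕ × ℕ) => x.2.2) := PT.snd.snd'
    exact PT.cons ((h1.pair hg').pair (PT.bnzSub (PT.len hf' h1) hh'.snd'))
      (PT.list1 ((hg'.pair h2).pair (PT.bnzSub (PT.bnzAdd hh'.snd' (PT.len hf' hg'))
        (PT.len hf' h1))))
  refine (PT.optCasesP hc h0 key).congr (fun a => ?_)
  unfold All.pdOut
  cases All.cat (f a) (h a).1 <;> rfl

theorem pdIter_size (e : Env ρ) (v : ℕ) (s : ℕ × BNz) (n : ℕ) :
    size ((All.pdStep e v)^[n] s).1 ≤ size e.1 + size s.1 ∧
      ((All.pdStep e v)^[n] s).2.val ≤ s.2.val := by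
  induction n with
  | zero => exact ⟨by simp, le_rfl⟩
  | succ n ih =>
    rw [Function.iterate_succ_apply']
    set t := (All.pdStep e v)^[n] s with ht
    unfold All.pdStep
    rcases hc : All.cat e t.1 with _ | ⟨a, b⟩
    · exact ih
    · have h1 := size_cat_le hc
      rw [size_prod] at h1
      simp only at h1 ⊢
      split_ifs
      · simp only; exact ⟨by omega, ih.2⟩
      · simp only; exact ⟨by omega, by omega⟩
      · exact ih

theorem size_bn_mono {x y : BNz} (h : x.val ≤ y.val) : size x ≤ 4 * size y + 1 := by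
  have h1 := size_bn_le x
  have h2 := Nat.size_le_size h
  have h3 := natSize_le_size y
  omega

theorem PT.inn {f : α → Env ρ} {g k : α → ℕ} {h : α → BNz} (hf : PT f) (hg : PT g) (hk : PT k)
    (hh : PT h) : PT (fun a => All.inn (f a) (g a) (k a) (h a)) := by
  have base : PT (fun x : Env ρ × (ℕ × (ℕ × BNz)) =>
      All.inn x.1 x.2.1 x.2.2.1 x.2.2.2) := by
    have hit := PT.iterate (f := fun x : Env ρ × (ℕ × (ℕ × BNz)) => x.1.1.length)
      (init := fun x => x.2.2) (step := fun x => All.pdStep x.1 x.2.1)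
      PT.fst.fst'.length PT.snd.snd' (PT.pdStep PT.fst.fst' PT.fst.snd'.fst' PT.snd)
      (B := fun n => (n + n) + (4 * n + 1) + 1)
      ((((PB.id.add PB.id)).add (((PB.const 4).mul PB.id).add (PB.const 1))).add (PB.const 1))
      (by
        intro x i _
        obtain ⟨k1, k2⟩ := pdIter_size x.1 x.2.1 x.2.2 i
        have k3 := size_bn_mono k2
        rw [size_prod]
        have t1 : size x = size x.1 + (size x.2.1 + (size x.2.2.1 + size x.2.2.2 + 1) + 1) + 1 := by
          rw [size_prod, size_prod (x := x.2), size_prod (x := x.2.2)]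
        have t2 : size x.1.1 ≤ size x.1 := by rw [size_prod (x := x.1)]; omega
        omega)
    exact PT.cond (PT.bnzEq (PT.len PT.fst PT.snd.fst') (PT.const (BNz.mk 0))) (PT.const [])
      (PT.pdOut PT.fst PT.snd.fst' hit)
  exact base.comp (hf.pair (hg.pair (hk.pair hh)))

theorem PT.exp1 {f : α → Env ρ} {g : α → ℕ} {h : α → Rel} (hf : PT f) (hg : PT g) (hh : PT h) :
    PT (fun a => All.exp1 (f a) (g a) (h a)) := by
  have hc : PT (fun a => All.cat (f a) (g a)) := PT.cat hf hg
  have key : PT (fun x : α × (ℕ × ℕ) =>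
      if decide ((h x.1).2.val ≤ (All.len (f x.1) x.2.2).val)
        then [((x.2.2, (h x.1).1.2), (h x.1).2)]
      else ((x.2.1, (h x.1).1.2), BNz.mk ((h x.1).2.val - (All.len (f x.1) x.2.2).val)) ::
        All.inn (f x.1) x.2.2 (h x.1).1.2
          (BNz.mk ((h x.1).2.val - (All.len (f x.1) x.2.2).val))) := by
    have hf' := hf.comp (PT.fst (α := α) (β := ℕ × ℕ))
    have hh' := hh.comp (PT.fst (α := α) (β := ℕ × ℕ))
    have h1 : PT (fun x : α × (ℕ × ℕ) => x.2.1) := PT.snd.fst'
    have h2 : PT (fun x : α × (ℕ × ℕ) => x.2.2) := PT.snd.snd'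
    have hd := PT.bnzSub hh'.snd' (PT.len hf' h2)
    exact PT.cond (PT.bnzLe hh'.snd' (PT.len hf' h2))
      (PT.list1 ((h2.pair hh'.fst'.snd').pair hh'.snd'))
      (PT.cons ((h1.pair hh'.fst'.snd').pair hd) (PT.inn hf' h2 hh'.fst'.snd' hd))
  have h3 := PT.optCasesP hc (PT.list1 hh) key
  refine (PT.cond (PT.eq hh.fst'.fst' hg) h3 (PT.list1 hh)).congr (fun a => ?_)
  unfold All.exp1
  cases All.cat (f a) (g a) <;> rfl

theorem PT.exp2 {f : α → Env ρ} {g : α → ℕ} {h : α → Rel} (hf : PT f) (hg : PT g) (hh : PT h) :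
    PT (fun a => All.exp2 (f a) (g a) (h a)) := by
  have hc : PT (fun a => All.cat (f a) (g a)) := PT.cat hf hg
  have key : PT (fun x : α × (ℕ × ℕ) =>
      if decide ((h x.1).2.val ≤ (All.len (f x.1) x.2.1).val)
        then [(((h x.1).1.1, x.2.1), (h x.1).2)]
      else (((h x.1).1.1, x.2.2), BNz.mk ((h x.1).2.val - (All.len (f x.1) x.2.1).val)) ::
        All.inn (f x.1) x.2.1 (h x.1).1.1
          (BNz.mk ((All.len (f x.1) (h x.1).1.1).val - (h x.1).2.val))) := by
    have hf' := hf.comp (PT.fst (α := α) (β := ℕ × ℕ))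
    have hh' := hh.comp (PT.fst (α := α) (β := ℕ × ℕ))
    have h1 : PT (fun x : α × (ℕ × ℕ) => x.2.1) := PT.snd.fst'
    have h2 : PT (fun x : α × (ℕ × ℕ) => x.2.2) := PT.snd.snd'
    exact PT.cond (PT.bnzLe hh'.snd' (PT.len hf' h1))
      (PT.list1 ((hh'.fst'.fst'.pair h1).pair hh'.snd'))
      (PT.cons ((hh'.fst'.fst'.pair h2).pair (PT.bnzSub hh'.snd' (PT.len hf' h1)))
        (PT.inn hf' h1 hh'.fst'.fst' (PT.bnzSub (PT.len hf' hh'.fst'.fst') hh'.snd')))
  have h3 := PT.optCasesP hc (PT.list1 hh) key
  refine (PT.cond (PT.eq hh.fst'.snd' hg) h3 (PT.list1 hh)).congr (fun a => ?_)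
  unfold All.exp2
  cases All.cat (f a) (g a) <;> rfl

theorem PT.key {f : α → Rel} (hf : PT f) : PT (fun a => All.key (f a)) :=
  hf.fst'.pair hf.snd'.bnzSize

theorem PT.mrg {f g h : α → Rel} (hf : PT f) (hg : PT g) (hh : PT h) :
    PT (fun a => All.mrg (f a) (g a) (h a)) := by
  have hM : PT (fun a => BNz.mk (mrgM (f a) (g a) (h a))) :=
    PT.bnzMax (PT.bnzMax hf.snd' hg.snd') hh.snd'
  have hG := PT.bnzGcd (PT.bnzGcd (PT.bnzSub hM hf.snd') (PT.bnzSub hM hg.snd')) (PT.bnzSub hM hh.snd')
  exact PT.cons (hf.fst'.pair hM) (PT.list1 (hf.fst'.pair (PT.bnzSub hM hG)))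

theorem PT.good {f : α → Env ρ} {h : α → Rel} (hf : PT f) (hh : PT h) :
    PT (fun a => All.good (f a) (h a)) :=
  PT.and (PT.lt hh.fst'.fst' hf.fst'.length) (PT.and (PT.lt hh.fst'.snd' hf.fst'.length)
    (PT.le hh.snd'.bnzSize hf.fst'.length))

/-- case distinction on a list -/
def lc2 {X : Type} (c : X) (g : Rel → List Rel → X) : List Rel → X
  | [] => c
  | y :: t => g y t

theorem PT.insL {f : α → List Rel} {h : α → Rel} (hf : PT f) (hh : PT h) :
    PT (fun a => All.insL (f a) (h a)) := by
  have h1 : PT (fun a => (f a).filter (fun r' => decide (All.key r' =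
      All.key (h a)))) :=
    PT.filter (p := fun a r' => decide (All.key r' = All.key (h a))) hf
      (PT.eq (PT.key PT.snd) (PT.key (hh.comp PT.fst)))
  have h2 : PT (fun a => (f a).filter (fun r' => !decide (All.key r' =
      All.key (h a)))) :=
    PT.filter (p := fun a r' => !decide (All.key r' = All.key (h a))) hf
      (PT.not (PT.eq (PT.key PT.snd) (PT.key (hh.comp PT.fst))))
  have h3 : PT (fun a => h a :: f a) := PT.cons hh hf
  -- inner case distinction
  have h4 : PT (fun x : α × (Rel × List Rel) => lc2 (h x.1 :: f x.1)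
      (fun y t => All.mrg (h x.1) x.2.1 y ++ (t ++ (f x.1).filter (fun r' =>
        !decide (All.key r' = All.key (h x.1))))) x.2.2) :=
    (PT.listCases (f := fun x : α × (Rel × List Rel) => x.2.2)
      (g := fun x => h x.1 :: f x.1)
      (h := fun x y t => All.mrg (h x.1) x.2.1 y ++ (t ++ (f x.1).filter (fun r' =>
        !decide (All.key r' = All.key (h x.1)))))
      PT.snd.snd' (h3.comp PT.fst)
      (PT.append (PT.mrg (hh.comp PT.fst.fst') PT.fst.snd'.fst' PT.snd.fst')
        (PT.append PT.snd.snd' (h2.comp PT.fst.fst')))).congr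
      (fun x => by cases x.2.2 <;> rfl)
  have h5 := PT.listCases (f := fun a => (f a).filter (fun r' => decide (All.key r' =
      All.key (h a)))) (g := fun a => h a :: f a)
    (h := fun a x l => lc2 (h a :: f a)
      (fun y t => All.mrg (h a) x y ++ (t ++ (f a).filter (fun r' =>
        !decide (All.key r' = All.key (h a))))) l) h1 h3 h4
  refine h5.congr (fun a => ?_)
  unfold All.insL
  rcases (f a).filter (fun r' => decide (All.key r' = All.key (h a))) with
    _ | ⟨x, _ | ⟨y, t⟩⟩ <;> rfl

theorem PT.ins {f : α → Env ρ} {g : α → Bool × List Rel} {h : α → Rel} (hf : PT f) (hg : PT g)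
    (hh : PT h) : PT (fun a => All.ins (f a) (g a) (h a)) := by
  have e1 := PT.bnzEq hh.snd' (PT.const (BNz.mk 0))
  have e2 := PT.bnzEq hh.snd' (PT.const (BNz.mk 1))
  have e3 : PT (fun a => ((g a).1 && decide (lst (f a) (h a).1.1 =
      All.fst (f a) (h a).1.2), (g a).2)) :=
    (PT.and hg.fst' (PT.eq (PT.lstE hf hh.fst'.fst') (PT.fstE hf hh.fst'.snd'))).pair hg.snd'
  exact PT.cond e1 hg (PT.cond e2 e3 (PT.cond (PT.good hf hh) (hg.fst'.pair (PT.insL hg.snd' hh))
    hg))

theorem PT.clip {f : α → Env ρ} (hf : PT f) : PT (fun a => All.clip (f a)) :=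
  PT.mul (PT.mul (PT.mul hf.fst'.length hf.fst'.length) hf.fst'.length.succ) (PT.const 2)

theorem insL_good {e : Env ρ} {l : List Rel} {r : Rel} (hl : ∀ x ∈ l, good e x = true)
    (hr : good e r = true) :
    (∀ x ∈ All.insL l r, good e x = true) ∧
      (All.insL l r).length ≤ l.length + 1 := by
  unfold All.insL
  rcases hf : l.filter (fun r' => decide (All.key r' = All.key r)) with
    _ | ⟨x, _ | ⟨y, t⟩⟩
  · simp only
    rw [List.forall_mem_cons]; exact ⟨⟨hr, hl⟩, by simp⟩
  · simp only
    rw [List.forall_mem_cons]; exact ⟨⟨hr, hl⟩, by simp⟩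
  · simp only
    have hx : x ∈ l.filter (fun r' => decide (All.key r' = All.key r)) := by
      rw [hf]; simp
    have hy : y ∈ l.filter (fun r' => decide (All.key r' = All.key r)) := by
      rw [hf]; simp
    obtain ⟨x1, x2, x3⟩ := mem_filter_key hx
    obtain ⟨y1, y2, y3⟩ := mem_filter_key hy
    constructor
    · rw [List.forall_mem_append, List.forall_mem_append]
      refine ⟨?_, ?_, ?_⟩
      · have hM : Nat.size (mrgM r x y) ≤ e.1.length := by
          unfold good at hr
          simp only [Bool.and_eq_true, decide_eq_true_eq] at hr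
          unfold mrgM
          rcases max_choice (max r.2.val x.2.val) y.2.val with h | h <;> rw [h]
          · rcases max_choice r.2.val x.2.val with h | h <;> rw [h]
            · exact hr.2.2
            · rw [x3]; exact hr.2.2
          · rw [y3]; exact hr.2.2
        unfold good at hr ⊢
        simp only [Bool.and_eq_true, decide_eq_true_eq] at hr ⊢
        intro z hz
        unfold All.mrg at hz
        simp only [List.mem_cons, List.not_mem_nil, or_false] at hz
        rcases hz with rfl | rfl
        · exact ⟨hr.1, hr.2.1, hM⟩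
        · exact ⟨hr.1, hr.2.1, (Nat.size_le_size (Nat.sub_le _ _)).trans hM⟩
      · intro z hz
        have : z ∈ l.filter (fun r' => decide (All.key r' = All.key r)) := by
          rw [hf]; simp [hz]
        exact hl z (List.mem_filter.1 this).1
      · intro z hz
        exact hl z (List.mem_filter.1 hz).1
    · have h1 : l.length = (l.filter (fun r' => decide (All.key r' =
          All.key r))).length + (l.filter (fun r' => !decide (All.key r' =
          All.key r))).length := by
        rw [← List.countP_eq_length_filter, ← List.countP_eq_length_filter]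
        rw [List.length_eq_countP_add_countP (fun r' => decide (All.key r' =
          All.key r))]
        congr 1
        apply List.countP_congr
        intro z _
        simp
      rw [hf] at h1
      simp only [List.length_append, List.length_cons] at h1 ⊢
      have h2 : (All.mrg r x y).length = 2 := rfl
      omega

theorem ins_good {e : Env ρ} {s : Bool × List Rel} {r : Rel} (hs : ∀ x ∈ s.2, good e x = true) :
    (∀ x ∈ (All.ins e s r).2, good e x = true) ∧
      (All.ins e s r).2.length ≤ s.2.length + 1 := by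
  unfold All.ins
  split_ifs with h1 h2 h3
  · exact ⟨hs, by omega⟩
  · exact ⟨hs, by simp⟩
  · exact insL_good hs h3
  · exact ⟨hs, by omega⟩

theorem foldl_ins_good {e : Env ρ} : ∀ (L : List Rel) (s : Bool × List Rel),
    (∀ x ∈ s.2, good e x = true) → (∀ x ∈ (L.foldl (All.ins e) s).2, good e x = true) ∧
      (L.foldl (All.ins e) s).2.length ≤ s.2.length + L.length := by
  intro L
  induction L with
  | nil => intro s hs; exact ⟨hs, by simp⟩
  | cons r L ih =>
    intro s hs
    obtain ⟨h1, h2⟩ := ins_good (r := r) hs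
    obtain ⟨h3, h4⟩ := ih _ h1
    rw [List.foldl_cons]
    refine ⟨h3, ?_⟩
    rw [List.length_cons]; omega

/-- bound for the size of a good relation -/
def gs (n : ℕ) : ℕ := ((2 * n + 1) + (2 * n + 1) + 1) + (4 * n + 1) + 1

theorem size_good {e : Env ρ} {r : Rel} (h : good e r = true) : size r ≤ gs e.1.length := by
  unfold good at h
  simp only [Bool.and_eq_true, decide_eq_true_eq] at h
  rw [size_prod, size_prod, size_nat, size_nat]
  have := size_bn_le r.2
  unfold gs
  omega

theorem size_state {e : Env ρ} {s : Bool × List Rel} (hs : ∀ x ∈ s.2, good e x = true) {n : ℕ}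
    (hn : s.2.length ≤ n) : size s ≤ 3 + (n * (gs e.1.length + 1) + 1) + 1 := by
  have h1 := size_list_le s.2 (fun x hx => size_good (hs x hx))
  have h2 := size_bool_le_z s.1
  have h3 := Nat.mul_le_mul_right (gs e.1.length + 1) hn
  rw [size_prod]
  omega

theorem PB.gs {T : ℕ → ℕ} (hT : PB T) : PB (fun n => gs (T n)) :=
  (((((PB.const 2).mul hT).add (PB.const 1)).add (((PB.const 2).mul hT).add (PB.const 1))).add
    (PB.const 1)).add (((PB.const 4).mul hT).add (PB.const 1)) |>.add (PB.const 1)

theorem gs_mono {m n : ℕ} (h : m ≤ n) : gs m ≤ gs n := by unfold gs; omega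

theorem PT.elimStep {f : α → Env ρ} {g : α → Bool × List Rel} {h : α → ℕ} (hf : PT f) (hg : PT g)
    (hh : PT h) : PT (fun a => All.elimStep (f a) (g a) (h a)) := by
  have base : PT (fun x : Env ρ × ((Bool × List Rel) × ℕ) =>
      All.elimStep x.1 x.2.1 x.2.2) := by
    have hL1 : PT (fun x : Env ρ × ((Bool × List Rel) × ℕ) =>
        x.2.1.2.flatMap (All.exp1 x.1 x.2.2)) :=
      PT.flatMap (g := fun x r => All.exp1 x.1 x.2.2 r) PT.snd.fst'.snd'
        (PT.exp1 PT.fst.fst' PT.fst.snd'.snd' PT.snd)
    have hL2 : PT (fun x : Env ρ × ((Bool × List Rel) × ℕ) =>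
        (x.2.1.2.flatMap (All.exp1 x.1 x.2.2)).flatMap
          (All.exp2 x.1 x.2.2)) :=
      PT.flatMap (g := fun x r => All.exp2 x.1 x.2.2 r) hL1
        (PT.exp2 PT.fst.fst' PT.fst.snd'.snd' PT.snd)
    obtain ⟨p, hp⟩ := hL2.size_le
    have hfold : PT (fun x : Env ρ × ((Bool × List Rel) × ℕ) =>
        ((x.2.1.2.flatMap (All.exp1 x.1 x.2.2)).flatMap
          (All.exp2 x.1 x.2.2)).foldl (All.ins x.1) (x.2.1.1, [])) := by
      refine PT.foldl (f := fun x : Env ρ × ((Bool × List Rel) × ℕ) =>
          (x.2.1.2.flatMap (All.exp1 x.1 x.2.2)).flatMap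
          (All.exp2 x.1 x.2.2)) (init := fun x => (x.2.1.1, ([] : List Rel)))
        (step := fun x s r => All.ins x.1 s r) hL2
        (PT.snd.fst'.fst'.pair (PT.const _)) (PT.ins PT.fst.fst' PT.snd.fst' PT.snd.snd')
        (B := fun n => 3 + (p.eval n * (All.gs n + 1) + 1) + 1)
        (((PB.const 3).add (((PB.poly p).mul ((PB.gs PB.id).add (PB.const 1))).add
          (PB.const 1))).add (PB.const 1)) ?_
      intro x l' hl'
      obtain ⟨h1, h2⟩ := foldl_ins_good (e := x.1) l' (x.2.1.1, []) (by simp)
      have h3 := size_state (e := x.1) h1 (n := l'.length) (by simpa using h2)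
      refine h3.trans ?_
      have h4 : l'.length ≤ p.eval (size x) :=
        hl'.length_le.trans ((length_le_size _).trans (hp x))
      have h5 : x.1.1.length ≤ size x := by
        have a1 := length_le_size x.1.1
        have a2 : size x.1.1 ≤ size x.1 := by rw [size_prod (x := x.1)]; omega
        have a3 : size x.1 ≤ size x := by rw [size_prod (x := x)]; omega
        omega
      have h6 := Nat.mul_le_mul h4 (Nat.add_le_add_right (gs_mono h5) 1)
      omega
    have hb : PT (fun x : Env ρ × ((Bool × List Rel) × ℕ) =>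
        (All.cat x.1 x.2.2).isSome) := by
      refine (PT.optCases (f := fun x : Env ρ × ((Bool × List Rel) × ℕ) =>
        All.cat x.1 x.2.2) (g := fun _ => false) (h := fun _ _ => true)
        (PT.cat PT.fst PT.snd.snd') (PT.const _) (PT.const _)).congr (fun x => ?_)
      cases All.cat x.1 x.2.2 <;> rfl
    exact PT.cond hb (hfold.fst'.pair (PT.take (PT.clip PT.fst) hfold.snd')) PT.snd.fst'
  exact base.comp (hf.pair (hg.pair hh))

theorem elimStep_size (e : Env ρ) (s : Bool × List Rel) (m : ℕ) :
    All.elimStep e s m = s ∨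
      size (All.elimStep e s m) ≤
        3 + (All.clip e * (gs e.1.length + 1) + 1) + 1 := by
  unfold All.elimStep
  split_ifs with h
  · right
    apply size_state (e := e)
    · intro x hx
      exact (foldl_ins_good (e := e) _ (s.1, []) (by simp)).1 x (List.mem_of_mem_take hx)
    · simp only; rw [List.length_take]; omega
  · left; rfl

theorem PT.elim {f : α → Env ρ} {g : α → Bool × List Rel} (hf : PT f) (hg : PT g) :
    PT (fun a => All.elim (f a) (g a)) := by
  have base : PT (fun x : Env ρ × (Bool × List Rel) => All.elim x.1 x.2) := by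
    have hc : PB (fun n => n * n * (n + 1) * 2) :=
      ((PB.id.mul PB.id).mul (PB.id.add (PB.const 1))).mul (PB.const 2)
    refine PT.foldl (f := fun x : Env ρ × (Bool × List Rel) => (List.range x.1.1.length).reverse)
      (init := fun x => x.2) (step := fun x s m => All.elimStep x.1 s m)
      (PT.reverse (PT.range PT.fst.fst'.length)) PT.snd
      (PT.elimStep PT.fst.fst' PT.snd.fst' PT.snd.snd')
      (B := fun n => n + (3 + (n * n * (n + 1) * 2 * (All.gs n + 1) + 1) + 1))
      (PB.id.add (((PB.const 3).add ((hc.mul ((PB.gs PB.id).add (PB.const 1))).add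
        (PB.const 1))).add (PB.const 1))) ?_
    intro x l' _
    have h5 : x.1.1.length ≤ size x := by
      have a1 := length_le_size x.1.1
      have a2 : size x.1.1 ≤ size x.1 := by rw [size_prod (x := x.1)]; omega
      have a3 : size x.1 ≤ size x := by rw [size_prod (x := x)]; omega
      omega
    have h6 : size x.2 ≤ size x := by rw [size_prod (x := x)]; omega
    have h7 : 3 + (All.clip x.1 * (All.gs x.1.1.length + 1) + 1) + 1 ≤
        3 + (size x * size x * (size x + 1) * 2 * (All.gs (size x) + 1) + 1) + 1 := by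
      have b1 : All.clip x.1 ≤ size x * size x * (size x + 1) * 2 := by
        unfold All.clip
        exact Nat.mul_le_mul_right 2 (Nat.mul_le_mul (Nat.mul_le_mul h5 h5)
          (Nat.add_le_add_right h5 1))
      have b2 := Nat.mul_le_mul b1 (Nat.add_le_add_right (gs_mono h5) 1)
      omega
    have key : ∀ (l : List ℕ) (s : Bool × List Rel),
        size s ≤ size x + (3 + (size x * size x * (size x + 1) * 2 *
          (All.gs (size x) + 1) + 1) + 1) →
        size (l.foldl (fun s m => All.elimStep x.1 s m) s) ≤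
          size x + (3 + (size x * size x * (size x + 1) * 2 *
          (All.gs (size x) + 1) + 1) + 1) := by
      intro l
      induction l with
      | nil => intro s hs; exact hs
      | cons m l ih =>
        intro s hs
        rw [List.foldl_cons]
        apply ih
        rcases elimStep_size x.1 s m with h | h
        · rw [h]; exact hs
        · omega
    exact key l' x.2 (by omega)
  exact base.comp (hf.pair hg)

theorem PT.spTest {f : α → Env ρ} {g : α → Rel} (hf : PT f) (hg : PT g) :
    PT (fun a => All.spTest (f a) (g a)) :=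
  (PT.elim hf (PT.ins hf (PT.const (true, [])) hg)).fst'

end Pool.Agent.Lib.MP_0c2883_lc.All
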