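import Pool.Agent.Lib.MP_0c2883_lc.All.SBDefs

/-!
# Statements of the modules of the step bound (SB)
-/

set_option autoImplicit false

namespace Pool.Agent.Lib.MP_0c2883_lc.All

open Pool.Agent.Lib.PolyTime List

/-- The base of the scales. -/
def Bb (M : ℕ) : ℕ := (2 * M + 2) ^ (M + 4)

/-- The constant of the algorithm. -/
def Kk (M : ℕ) : ℕ := Bb M ^ 4

/-- SBW: weights after a slide. -/
def WSlideStmt : Prop := ∀ (M : ℕ) (μ μ' : St M) (C : Letter M → Bool) (a : Letter M),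
  ASlide μ μ' C a → μ'.x a + μ.n C a = μ.x a ∧ (∀ p, p.1 ≠ a.1 → μ'.x p = μ.x p) ∧
    (∑ c, ∑ y, (if C c && !C y then μ'.m c y else 0) = μ.n C a)

/-- SBW: weights after a split. -/
def WSplitStmt : Prop := ∀ (M : ℕ) (μ μ' : St M) (C : Letter M → Bool) (a f : Letter M),
  ASplit μ μ' C a f → μ'.x a + μ.n C a = μ.x a ∧ μ'.x f = μ.n C a ∧
    (∀ p, p.1 ≠ a.1 → p.1 ≠ f.1 → μ'.x p = μ.x p)

/-- SBX1: the invariant `X` does not increase. -/
def XSlideStmt : Prop := ∀ (M : ℕ) (μ μ' : St M) (C : Letter M → Bool) (a : Letter M) (s : ℕ),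
  ASlide μ μ' C a → (μ.h C ≤ μ.x a ∨ μ.Conn a (linv a)) → 1 ≤ s → μ'.X s ≤ μ.X s

def XSplitStmt : Prop := ∀ (M : ℕ) (μ μ' : St M) (C : Letter M → Bool) (a f : Letter M) (s : ℕ),
  ASplit μ μ' C a f → 1 ≤ s → μ'.X s ≤ μ.X s

/-- SBZ: the dimension of the cycle space does not increase. -/
def ZSlideStmt : Prop := ∀ (M : ℕ) (μ μ' : St M) (C : Letter M → Bool) (a : Letter M) (s : ℕ),
  ASlide μ μ' C a → (μ.h C ≤ μ.x a ∨ μ.Conn a (linv a)) → 1 ≤ s →
    Module.finrank (ZMod 2) (μ'.Z s) ≤ Module.finrank (ZMod 2) (μ.Z s)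

def ZSplitStmt : Prop := ∀ (M : ℕ) (μ μ' : St M) (C : Letter M → Bool) (a f : Letter M) (s : ℕ),
  ASplit μ μ' C a f → 1 ≤ s →
    Module.finrank (ZMod 2) (μ'.Z s) ≤ Module.finrank (ZMod 2) (μ.Z s)

/-- SBZ: monotonicity in the scale, and trivial bounds. -/
def YScaleStmt : Prop := ∀ (M : ℕ) (μ : St M),
  (∀ s s', 1 ≤ s → s ≤ s' → μ.X s' ≤ μ.X s ∧
    Module.finrank (ZMod 2) (μ.Z s') ≤ Module.finrank (ZMod 2) (μ.Z s)) ∧
  (∀ s, μ.X s ≤ M ∧ Module.finrank (ZMod 2) (μ.Z s) ≤ M) ∧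
  (∀ s, (∀ p, μ.x p < s) → μ.Y s = 0)

/-- SBF (flow lemma): there is a set of letters maximising `#letters - #vertices` which contains all
heavy letters. -/
def FlowStmt : Prop := ∀ (M : ℕ) (μ : St M) (s : ℕ), 1 ≤ s →
  ∃ F ⊆ μ.E s, (μ.Vx F).card + μ.X s = F.card ∧ ∀ p, Bb M * s ≤ μ.x p → p.1 ∈ F

/-- SBX2: structural splits decrease `X` strictly. -/
def StrictSplitStmt : Prop := ∀ (M : ℕ) (μ μ' : St M) (C : Letter M → Bool) (a f c c' : Letter M)
    (s : ℕ), ASplit μ μ' C a f → μ.n C a < s → C c = true → C c' = false → μ.Conn c c' →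
  Bb M * s ≤ μ'.x c → Bb M * s ≤ μ'.x c' → μ'.X s < μ.X s

/-- SBX2: a slide which makes `a` light decreases `X` strictly. -/
def BandSlideStmt : Prop := ∀ (M : ℕ) (μ μ' : St M) (C : Letter M → Bool) (a c : Letter M) (s : ℕ),
  ASlide μ μ' C a → 1 ≤ s → s ≤ μ.x a → μ'.x a < s → C c = true → μ.Conn a c →
  Bb M * s ≤ μ.x c →
  (μ.Conn a (linv a) ∨ ∃ c', C c' = false ∧ c' ≠ a ∧ μ.Conn a c' ∧ Bb M * s ≤ μ.x c') →
  μ'.X s < μ.X s

/-- SBX2: the same for splits. -/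
def BandSplitStmt : Prop := ∀ (M : ℕ) (μ μ' : St M) (C : Letter M → Bool) (a f c c' : Letter M)
    (s : ℕ), ASplit μ μ' C a f → 1 ≤ s → s ≤ μ.n C a → μ'.x a < s → C c = true → μ.Conn a c →
  Bb M * s ≤ μ.x c → C c' = false → c' ≠ a → ¬ μ.Conn a (linv a) → μ.Conn a c' →
  Bb M * s ≤ μ.x c' → μ'.X s < μ.X s

/-- SBJ: between two scales far around the weight of a letter the invariant `Y` jumps. -/
def JumpStmt : Prop := ∀ (M : ℕ) (μ : St M) (s s' : ℕ) (p : Letter M), 1 ≤ s →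
  Bb M * s ≤ μ.x p → μ.x p < s' → μ.Y s' < μ.Y s

/-- SBU: absence of candidates inside `L` is preserved by slides of sets `C` not inside `L` along
letters not in `L`. -/
def UStmt : Prop := ∀ (M : ℕ) (μ μ' : St M) (C : Letter M → Bool) (a : Letter M)
    (L : Letter M → Prop), (∀ p, L p ↔ L (linv p)) → ASlide μ μ' C a → μ.Cand C a →
  (∃ c, C c = true ∧ ¬ L c) → ¬ L a →
  (∀ D b, (∀ p, D p = true → L p) → ¬ μ.Cand D b) →
  ∀ D b, (∀ p, D p = true → L p) → ¬ μ'.Cand D b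

/-- Connectedness inside `L`. -/
def St.ConnL {M : ℕ} (μ : St M) (L : Letter M → Prop) (p q : Letter M) : Prop :=
  Relation.ReflTransGen (fun p q => L p ∧ L q ∧ 0 < μ.m p q) p q

/-- SBU: clusters under slides of a cluster `C` inside `L` along a letter not in `L`. -/
def ClusterStmt : Prop := ∀ (M : ℕ) (μ μ' : St M) (C : Letter M → Bool) (a : Letter M)
    (L : Letter M → Prop), (∀ p, L p ↔ L (linv p)) → ASlide μ μ' C a →
  (∀ p, C p = true → L p) → ¬ L a →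
  (∀ p q, μ.ConnL L p q → μ'.ConnL L p q) ∧
  ((∀ c y, C c = true → C y = false → L y → μ'.m c y = 0) →
    (∀ p q, L p → L q → μ'.m p q = μ.m p q) ∧
    (∀ p q, L p → C p = false → μ'.m p q = μ.m p q))

/-- SBB: occupied indices of a nonincreasing sequence: near the jumps, and `0`. -/
def occ (y : ℕ → ℕ) (j : ℕ) : Prop := j = 0 ∨ y j < y (j - 1) ∨ y (j + 1) < y j

open Classical in
/-- The bottom of the band of an index: the largest `i₀ ≤ i` which is `0` or lies above six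
consecutive unoccupied indices. -/
noncomputable def bot (y : ℕ → ℕ) (i : ℕ) : ℕ :=
  Nat.findGreatest (fun i₀ => i₀ = 0 ∨ (6 < i₀ ∧ ∀ t, 1 ≤ t → t ≤ 6 → ¬ occ y (i₀ - t))) i

def BandStmt : Prop := ∀ (y : ℕ → ℕ) (D : ℕ), (∀ j, y (j + 1) ≤ y j) → y 0 ≤ D →
  (∀ i, bot y i ≤ i) ∧ (∀ i i', i ≤ i' → bot y i ≤ bot y i') ∧
  (∀ i, i ≤ bot y i + 12 * D + 24) ∧
  (∀ i i', occ y i → occ y i' → i' < i → bot y i ≠ bot y i' → i' + 6 < i)

/-- SB: the step bound. -/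
def SBStmt : Prop := ∀ M : ℕ, ∃ T : ℕ → ℕ, PB T ∧ ∀ (n N : ℕ) (run : ℕ → St M),
  (∀ p, (run 0).x p ≤ 2 ^ n) → (∀ i < N, AStep (Kk M) (run i) (run (i + 1))) → N ≤ T n

/-- SB: `X 1` does not increase along steps. -/
def XStepStmt : Prop := ∀ (M : ℕ) (μ μ' : St M), AStep (Kk M) μ μ' → μ'.X 1 ≤ μ.X 1

/-! ### From words to abstract states -/

/-- `μ` is the abstract state of the word `w`. -/
def St.Of {M : ℕ} (μ : St M) (w : List (Letter M)) : Prop := ∀ p q, μ.m p q = tm w p q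

/-- OF: existence of the abstract state, its weights, invariance under rotation. -/
def OfStmt : Prop := ∀ (M : ℕ) (w : List (Letter M)), CR w →
  (∃ μ : St M, μ.Of w) ∧ (∀ μ : St M, μ.Of w → ∀ p, μ.x p = wt w p) ∧
  (∀ w', w' ~r w → CR w' ∧ (∀ p q, tm w' p q = tm w p q) ∧ (∀ p, wt w' p = wt w p) ∧
    (∀ C, cap w' C = cap w C))

/-- OF: slides and splits of words give abstract slides and splits. -/
def OfSlideStmt : Prop := ∀ (M : ℕ) (w : List (Letter M)) (C : Letter M → Bool) (a : Letter M)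
  (μ μ' : St M), CR w → Ok w C a → μ.Of w → μ'.Of (op C a none w) → ASlide μ μ' C a

def OfSplitStmt : Prop := ∀ (M : ℕ) (w : List (Letter M)) (C : Letter M → Bool) (a f : Letter M)
  (μ μ' : St M), CR w → Ok w C a → (∀ x ∈ w, x.1 ≠ f.1) → C f = false → C (linv f) = false →
  a.1 ≠ f.1 → μ.Of w → μ'.Of (op C a (some f) w) → ASplit μ μ' C a f

/-- FREE: when a split is needed and `M ≥ 3 r`, there is an unused letter. -/
def FreeStmt : Prop := ∀ (M r : ℕ) (w : List (Letter M)) (μ : St M), CR w → 2 ≤ w.length →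
  1 ≤ r → 3 * r ≤ M → μ.Of w → μ.X 1 + 1 ≤ r → (∀ c a, ¬ MergeAt w c a) → (∃ C a, Cand w C a) →
  ∃ f : Letter M, ∀ x ∈ w, x.1 ≠ f.1

/-- FREE: the initial bound for `X 1`. -/
def XInitStmt : Prop := ∀ (M r : ℕ) (w : List (Letter M)) (μ : St M), CR w → w ≠ [] →
  (∀ x ∈ w, x.1.val < r) → μ.Of w → μ.X 1 + 1 ≤ r

end Pool.Agent.Lib.MP_0c2883_lc.All
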