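import Pool.Agent.Lib.MP_0c2883_lc.All.Ops
import Pool.Agent.Lib.MP_0c2883_lc.All.SBStmts
import Mathlib.Algebra.BigOperators.Fin

/-!
# OF: abstract states of cyclic words
-/

set_option autoImplicit false

namespace Pool.Agent.Lib.MP_0c2883_lc.All

namespace OF

open List Ops

variable {M : ℕ}

/-- the unordered pair `{u, v}` compared with `{p, q}` -/
def s (u v p q : Letter M) : ℕ :=
  (if u = p ∧ v = q then 1 else 0) + (if u = q ∧ v = p then 1 else 0)

theorem s_symm (u v p q : Letter M) : s u v p q = s v u p q := by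
  unfold s
  rw [Nat.add_comm]
  congr 1
  · exact if_congr ⟨fun h => ⟨h.2, h.1⟩, fun h => ⟨h.2, h.1⟩⟩ rfl rfl
  · exact if_congr ⟨fun h => ⟨h.2, h.1⟩, fun h => ⟨h.2, h.1⟩⟩ rfl rfl

theorem s_symm' (u v p q : Letter M) : s u v p q = s u v q p := by
  unfold s; rw [Nat.add_comm]

/-- number of turns `{p, q}` in a list -/
def cnt (l : List (Letter M)) (p q : Letter M) : ℕ :=
  ((prs l).map (fun t => s (linv t.1) t.2 p q)).sum

theorem cnt_cons (x y : Letter M) (l : List (Letter M)) (p q : Letter M) :
    cnt (x :: y :: l) p q = s (linv x) y p q + cnt (y :: l) p q := by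
  unfold cnt
  rw [prs_cons, List.map_cons, List.sum_cons]

theorem cnt_two (x y : Letter M) (p q : Letter M) : cnt [x, y] p q = s (linv x) y p q := by
  rw [cnt_cons]; simp [cnt]

theorem count_aux (p q : Letter M) : ∀ L : List (Letter M × Letter M),
    L.countP (fun z => decide (z = (linv p, q))) + L.countP (fun z => decide (z = (linv q, p))) =
      (L.map (fun t => s (linv t.1) t.2 p q)).sum
  | [] => rfl
  | t :: L => by
    rw [List.countP_cons, List.countP_cons, List.map_cons, List.sum_cons, ← count_aux p q L]
    have h : ∀ a b : Letter M, (t = (linv a, b)) ↔ (linv t.1 = a ∧ t.2 = b) := by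
      intro a b
      constructor
      · rintro rfl; simp
      · rintro ⟨h1, h2⟩
        ext1
        · show t.1 = linv a
          rw [← h1, linv_linv]
        · exact h2
    have e1 : (if decide (t = (linv p, q)) = true then 1 else 0) =
        (if linv t.1 = p ∧ t.2 = q then 1 else 0) := by
      simp only [decide_eq_true_eq]
      exact if_congr (h p q) rfl rfl
    have e2 : (if decide (t = (linv q, p)) = true then 1 else 0) =
        (if linv t.1 = q ∧ t.2 = p then 1 else 0) := by
      simp only [decide_eq_true_eq]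
      exact if_congr (h q p) rfl rfl
    rw [e1, e2]
    unfold s
    ring

theorem tm_cons (x : Letter M) (l : List (Letter M)) (p q : Letter M) :
    tm (x :: l) p q = cnt (x :: (l ++ [x])) p q := by
  unfold tm tc cnt
  rw [count_aux, cpairs_cons]

/-- sums over the list of data of the changed letters -/
def sm (F : Letter M → Letter M → ℕ) (D : List (Letter M × Letter M)) : ℕ :=
  (D.map (fun d => F d.1 d.2)).sum

@[simp] theorem sm_nil (F : Letter M → Letter M → ℕ) : sm F [] = 0 := rfl
@[simp] theorem sm_cons (F : Letter M → Letter M → ℕ) (d : Letter M × Letter M)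
    (D : List (Letter M × Letter M)) : sm F (d :: D) = F d.1 d.2 + sm F D := by
  simp [sm]

theorem sm_zero {F : Letter M → Letter M → ℕ} {D : List (Letter M × Letter M)}
    (h : ∀ d ∈ D, F d.1 d.2 = 0) : sm F D = 0 := by
  induction D with
  | nil => rfl
  | cons d D ih =>
    rw [sm_cons, h d (by simp), ih (fun d' hd' => h d' (by simp [hd']))]

theorem sm_congr {F F' : Letter M → Letter M → ℕ} {D : List (Letter M × Letter M)}
    (h : ∀ d ∈ D, F d.1 d.2 = F' d.1 d.2) : sm F D = sm F' D := by
  induction D with
  | nil => rfl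
  | cons d D ih =>
    rw [sm_cons, sm_cons, h d (by simp), ih (fun d' hd' => h d' (by simp [hd']))]

theorem sum_sm {ι : Type} [Fintype ι] (F : ι → Letter M → Letter M → ℕ)
    (D : List (Letter M × Letter M)) :
    ∑ i, sm (F i) D = sm (fun u v => ∑ i, F i u v) D := by
  induction D with
  | nil => simp
  | cons d D ih =>
    simp only [sm_cons, Finset.sum_add_distrib, ih]

/-- good data of changed letters -/
def GD (C : Letter M → Bool) (a : Letter M) (D : List (Letter M × Letter M)) : Prop :=
  ∀ d ∈ D, C d.1 = true ∧ C d.2 = false ∧ d.2 ≠ linv a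

/-- the number of crossings -/
def cr (c y : Letter M) (u v : Letter M) : ℕ := if u = c ∧ v = y then 1 else 0

/-- conclusions about a slide -/
def SL (C : Letter M → Bool) (a : Letter M) (new old : List (Letter M)) : Prop :=
  ∃ D : List (Letter M × Letter M), GD C a D ∧
    (∀ p q, cnt old p q + sm (fun u v => s u v p q) D =
      cnt new p q + sm (fun u _ => s u a p q) D + sm (fun _ v => s (linv a) v p q) D) ∧
    ∀ c y, C c = true → C y = false → cnt new c y = sm (cr c y) D

theorem s_cross {C : Letter M → Bool} {u v c y : Letter M} (hu : C u = true) (_hv : C v = false)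
    (_hc : C c = true) (hy : C y = false) : s u v c y = cr c y u v := by
  unfold s cr
  have : ¬ (u = y ∧ v = c) := by
    rintro ⟨rfl, -⟩
    rw [hu] at hy; exact absurd hy (by simp)
  rw [if_neg this, Nat.add_zero]

theorem s_nocross {C : Letter M → Bool} {u v c y : Letter M} (h : C u = C v)
    (hc : C c = true) (hy : C y = false) : s u v c y = 0 := by
  unfold s
  rw [if_neg, if_neg]
  · rintro ⟨rfl, rfl⟩
    rw [hc, hy] at h; exact absurd h (by simp)
  · rintro ⟨rfl, rfl⟩
    rw [hc, hy] at h; exact absurd h (by simp)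

/-- the facts about a deleted letter -/
theorem del_facts {C : Letter M → Bool} {a : Letter M} (h1 : C a = false)
    (h2 : C (linv a) = false) {y₀ y x : Letter M} (g1 : GP C a y₀ y) (g2 : GP C a y x)
    (hd : (y = a ∧ C (linv y₀) = true) ∨ (y = linv a ∧ C x = true)) :
    ∃ u v : Letter M, C u = true ∧ C v = false ∧ v ≠ linv a ∧
      (∀ p q, s (linv y₀) y p q + s (linv y) x p q = s u a p q + s (linv a) v p q) ∧
      (∀ p q, s (linv y₀) x p q = s u v p q) ∧
      ¬ (x = a ∧ C (linv y) = true) ∧ x ≠ linv a := by
  have haa : linv a ≠ a := linv_ne a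
  rcases hd with ⟨rfl, hd⟩ | ⟨rfl, hd⟩
  · have hx : C x = false := by
      by_contra hcon
      rw [Bool.not_eq_false] at hcon
      exact haa (g2.2.2 h2 hcon)
    refine ⟨linv y₀, x, hd, hx, g2.1, fun p q => rfl, fun p q => rfl, ?_, g2.1⟩
    rintro ⟨-, hh⟩; rw [h2] at hh; exact absurd hh (by simp)
  · have hy : C (linv y₀) = false := by
      by_contra hcon
      rw [Bool.not_eq_false] at hcon
      exact haa (g1.2.1 hcon h2)
    have hxa : x ≠ a := by rintro rfl; rw [h1] at hd; exact absurd hd (by simp)
    have hxa' : x ≠ linv a := by rintro rfl; rw [h2] at hd; exact absurd hd (by simp)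
    refine ⟨x, linv y₀, hd, hy, ?_, fun p q => ?_, fun p q => ?_, fun hh => hxa hh.1, hxa'⟩
    · intro hh
      exact g1.1 hh.symm
    · rw [linv_linv, s_symm (linv y₀), s_symm a x, Nat.add_comm]
    · rw [s_symm]

theorem slide_cnt {C : Letter M → Bool} {a : Letter M} (h1 : C a = false) (h2 : C (linv a) = false)
    (z : Letter M) : ∀ l : List (Letter M),
    (∀ y, (∀ t ∈ prs (y :: (l ++ [z])), GP C a t.1 t.2) →
      ¬ (y = linv a ∧ C (l.headD z) = true) →
      ¬ (z = a ∧ C (linv ((y :: l).getLast (by simp))) = true) →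
      SL C a (y :: (run C a none y l z ++ [z])) (y :: (l ++ [z]))) ∧
    (∀ y₀ y, (∀ t ∈ prs (y₀ :: y :: (l ++ [z])), GP C a t.1 t.2) →
      ((y = a ∧ C (linv y₀) = true) ∨ (y = linv a ∧ C (l.headD z) = true)) →
      ¬ (z = a ∧ C (linv ((y :: l).getLast (by simp))) = true) →
      SL C a (y₀ :: (run C a none y l z ++ [z])) (y₀ :: y :: (l ++ [z]))) := by
  have haa : linv a ≠ a := linv_ne a
  intro l
  induction l with
  | nil =>
    constructor
    · intro y hG hy hz
      have g := hG (y, z) (by simp)
      refine ⟨[], by simp [GD], fun p q => by simp [run], fun c y' hc hy' => ?_⟩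
      simp only [run, List.nil_append, sm_nil]
      rw [cnt_two]
      apply s_nocross _ hc hy'
      cases h3 : C (linv y) <;> cases h4 : C z
      · rfl
      · exact absurd ⟨by rw [← g.2.2 h3 h4, linv_linv], h4⟩ hy
      · exact absurd ⟨g.2.1 h3 h4, h3⟩ hz
      · rfl
    · intro y₀ y hG hd hz
      have g1 := hG (y₀, y) (by simp)
      have g2 := hG (y, z) (by simp)
      obtain ⟨u, v, e1, e2, e3, e4, e5, e6, e7⟩ := del_facts h1 h2 g1 g2 hd
      refine ⟨[(u, v)], ?_, fun p q => ?_, fun c y' hc hy' => ?_⟩
      · intro d hd'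
        rw [List.mem_singleton] at hd'
        subst hd'
        exact ⟨e1, e2, e3⟩
      · simp only [run, List.nil_append, sm_cons, sm_nil, Nat.add_zero]
        rw [cnt_cons, cnt_two, cnt_two, e4, e5]
        omega
      · simp only [run, List.nil_append, sm_cons, sm_nil, Nat.add_zero]
        rw [cnt_two, e5, s_cross e1 e2 hc hy']
  | cons x l ih =>
    obtain ⟨ih1, ih2⟩ := ih
    constructor
    · intro y hG hy hz
      simp only [List.cons_append, prs_cons, List.forall_mem_cons] at hG
      obtain ⟨g, hG'⟩ := hG
      rw [List.getLast_cons (by simp)] at hz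
      simp only [run]
      by_cases hk : (x = a ∧ C (linv y) = true) ∨ (x = linv a ∧ C (l.headD z) = true)
      · have hop : opL C a none (y, (x, l.headD z)) = none := by
          unfold opL
          rcases hk with hk | hk
          · rw [if_pos hk]
          · rw [if_neg (fun hh => haa (hk.1.symm.trans hh.1)), if_pos hk]; rfl
        rw [hop]
        simp only [Option.toList_none, List.nil_append, List.cons_append]
        exact ih2 y x (by
          rw [prs_cons, List.forall_mem_cons]; exact ⟨g, hG'⟩) hk hz
      · rw [not_or] at hk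
        have hop : opL C a none (y, (x, l.headD z)) = some x := by
          unfold opL
          rw [if_neg hk.1, if_neg hk.2]
        rw [hop]
        simp only [Option.toList_some, List.cons_append, List.nil_append]
        obtain ⟨D, i1, i2, i3⟩ := ih1 x hG' hk.2 hz
        have hne : C (linv y) = C x := by
          cases h3 : C (linv y) <;> cases h4 : C x
          · rfl
          · exact absurd ⟨by rw [← g.2.2 h3 h4, linv_linv], h4⟩ hy
          · exact absurd ⟨g.2.1 h3 h4, h3⟩ hk.1
          · rfl
        refine ⟨D, i1, fun p q => ?_, fun c y' hc hy' => ?_⟩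
        · have := i2 p q
          rw [cnt_cons, cnt_cons]
          omega
        · rw [cnt_cons, i3 c y' hc hy', s_nocross hne hc hy', Nat.zero_add]
    · intro y₀ y hG hd hz
      simp only [List.cons_append, prs_cons, List.forall_mem_cons] at hG
      obtain ⟨g1, g2, hG'⟩ := hG
      rw [List.getLast_cons (by simp)] at hz
      obtain ⟨u, v, e1, e2, e3, e4, e5, e6, e7⟩ := del_facts h1 h2 g1 g2 hd
      simp only [run]
      have hop : opL C a none (y, (x, l.headD z)) = some x := by
        unfold opL
        rw [if_neg e6, if_neg (fun hh => e7 hh.1)]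
      rw [hop]
      simp only [Option.toList_some, List.cons_append, List.nil_append]
      obtain ⟨D, i1, i2, i3⟩ := ih1 x hG' (fun hh => e7 hh.1) hz
      refine ⟨(u, v) :: D, ?_, fun p q => ?_, fun c y' hc hy' => ?_⟩
      · intro d hd'
        rw [List.mem_cons] at hd'
        rcases hd' with rfl | hd'
        · exact ⟨e1, e2, e3⟩
        · exact i1 d hd'
      · have h3 := i2 p q
        have h4 := e4 p q
        have h5 := e5 p q
        rw [cnt_cons, cnt_cons, cnt_cons]
        simp only [sm_cons]
        omega
      · rw [cnt_cons, i3 c y' hc hy', e5, s_cross e1 e2 hc hy', sm_cons]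

theorem slide_tm {w : List (Letter M)} {C : Letter M → Bool} {a : Letter M} (hw : CR w)
    (hok : Ok w C a) : ∃ D : List (Letter M × Letter M), GD C a D ∧
    (∀ p q, tm w p q + sm (fun u v => s u v p q) D =
      tm (op C a none w) p q + sm (fun u _ => s u a p q) D + sm (fun _ v => s (linv a) v p q) D) ∧
    ∀ c y, C c = true → C y = false → tm (op C a none w) c y = sm (cr c y) D := by
  rcases eq_or_ne w [] with rfl | hne
  · refine ⟨[], by simp [GD], fun p q => ?_, fun c y _ _ => ?_⟩
    · simp [op, ctx, tm, tc, cpairs]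
    · simp [op, ctx, tm, tc, cpairs]
  obtain ⟨x, l, hrot, hx1, hx2⟩ := exists_start hne hok.a_not hok.a_inv_not
  have hr := op_rot C a none hrot
  have hG := gp_of (cr_rot hrot hw) (ok_rot hrot hok)
  rw [cpairs_cons] at hG
  have hop : op C a none (x :: l) = x :: run C a none x l x := by
    rw [op_cons, run]
    have : opL C a none ((x :: l).getLast (by simp), (x, l.headD x)) = some x := by
      unfold opL
      rw [if_neg hx1, if_neg hx2]
    rw [this]; rfl
  obtain ⟨D, i1, i2, i3⟩ := (slide_cnt hok.a_not hok.a_inv_not x l).1 x hG hx2 hx1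
  refine ⟨D, i1, fun p q => ?_, fun c y hc hy => ?_⟩
  · rw [tm_rot hrot, tm_rot hr, hop, tm_cons, tm_cons]
    exact i2 p q
  · rw [tm_rot hr, hop, tm_cons]
    exact i3 c y hc hy

/-- diagonal turns do not exist -/
theorem tm_diag {w : List (Letter M)} (hw : CR w) (p : Letter M) : tm w p p = 0 := by
  have : tc w p p = 0 := by
    unfold tc
    rw [List.countP_eq_zero]
    intro z hz h
    rw [decide_eq_true_eq] at h
    have := (cr_iff w).1 hw z hz
    rw [h] at this
    simp at this
  unfold tm; rw [this]

theorem sum_cr_left {C : Letter M → Bool} {D : List (Letter M × Letter M)}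
    (hD : ∀ d ∈ D, C d.1 = true) (y : Letter M) :
    (∑ c, if C c then sm (cr c y) D else 0) = sm (fun _ v => if v = y then 1 else 0) D := by
  have e : (∑ c, if C c then sm (cr c y) D else 0) =
      ∑ c, sm (fun u v => if C c then cr c y u v else 0) D := by
    apply Finset.sum_congr rfl
    intro c _
    cases hc : C c with
    | true => simp
    | false =>
      simp only [Bool.false_eq_true, if_false]
      rw [sm_zero]; intro d _; rfl
  rw [e, sum_sm]
  apply sm_congr
  intro d hd
  rw [Finset.sum_eq_single d.1]
  · rw [hD d hd, if_pos rfl]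
    unfold cr
    exact if_congr ⟨fun h => h.2, fun h => ⟨rfl, h⟩⟩ rfl rfl
  · intro c _ hc
    unfold cr
    rw [if_neg (fun h : d.1 = c ∧ d.2 = y => hc h.1.symm)]
    simp
  · intro h; exact absurd (Finset.mem_univ _) h

theorem sum_cr_right {C : Letter M → Bool} {D : List (Letter M × Letter M)}
    (hD : ∀ d ∈ D, C d.2 = false) (c : Letter M) :
    (∑ y, if C y then 0 else sm (cr c y) D) = sm (fun u _ => if u = c then 1 else 0) D := by
  have e : (∑ y, if C y then 0 else sm (cr c y) D) =
      ∑ y, sm (fun u v => if C y then 0 else cr c y u v) D := by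
    apply Finset.sum_congr rfl
    intro y _
    cases hc : C y with
    | false => simp
    | true =>
      simp only [if_true]
      rw [sm_zero]; intro d _; rfl
  rw [e, sum_sm]
  apply sm_congr
  intro d hd
  rw [Finset.sum_eq_single d.2]
  · rw [hD d hd]
    simp only [Bool.false_eq_true, if_false]
    unfold cr
    exact if_congr ⟨fun h => h.1, fun h => ⟨h, rfl⟩⟩ rfl rfl
  · intro y _ hy
    unfold cr
    rw [if_neg (fun h : d.1 = c ∧ d.2 = y => hy h.2.symm)]
    simp
  · intro h; exact absurd (Finset.mem_univ _) h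

theorem ok_of {w : List (Letter M)} {C : Letter M → Bool} {a : Letter M} {μ : St M}
    (hok : Ok w C a) (hμ : μ.Of w) : μ.Ok C a :=
  ⟨hok.a_not, hok.a_inv_not, fun p q h => hok.bd p q (by rw [← hμ]; exact h)⟩

theorem s_of_ne {u v p q : Letter M} (h1 : ¬ (u = p ∧ v = q)) (h2 : ¬ (u = q ∧ v = p)) :
    s u v p q = 0 := by
  unfold s; rw [if_neg h1, if_neg h2]

theorem tf {C : Letter M → Bool} {u v : Letter M} (hu : C u = true) (hv : C v = false) : u ≠ v := by
  rintro rfl
  rw [hu] at hv; exact absurd hv (by simp)

/-- OF, slides -/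
theorem ofSlide : OfSlideStmt := by
  intro M w C a μ μ' hw hok hμ hμ'
  obtain ⟨D, hD, hI, hII⟩ := slide_tm hw hok
  have hw' : CR (op C a none w) := (slide_cr hw hok).1
  have h1 := hok.a_not
  have h2 := hok.a_inv_not
  refine ⟨ok_of hok hμ, ?_, ?_, ?_, ?_, ?_⟩
  · intro p q hp hq
    rw [hμ, hμ']
    have := hI p q
    rw [sm_zero (F := fun u v => s u v p q), sm_zero (F := fun u _ => s u a p q),
      sm_zero (F := fun _ v => s (linv a) v p q)] at this
    · omega
    · intro d hd
      exact s_of_ne (fun h => tf hp h2 h.1.symm) (fun h => tf hq h2 h.1.symm)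
    · intro d hd
      exact s_of_ne (fun h => tf hq h1 h.2.symm) (fun h => tf hp h1 h.2.symm)
    · intro d hd
      have := (hD d hd).2.1
      exact s_of_ne (fun h => tf hq this h.2.symm) (fun h => tf hp this h.2.symm)
  · intro c y hc hy hpos
    rw [hμ', hII c y hc hy] at hpos
    rw [hμ]
    have := hI (linv a) y
    rw [sm_zero (F := fun u v => s u v (linv a) y)] at this
    · have h3 : sm (cr c y) D ≤ sm (fun _ v => s (linv a) v (linv a) y) D := by
        clear this hpos hI hII
        induction D with
        | nil => simp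
        | cons d D ih =>
          have := ih (fun d' hd' => hD d' (by simp [hd']))
          simp only [sm_cons]
          have h4 : cr c y d.1 d.2 ≤ s (linv a) d.2 (linv a) y := by
            unfold cr s
            split_ifs with g1 g2 g3 <;> first | omega | exact absurd ⟨rfl, g1.2⟩ g2
          omega
      omega
    · intro d hd
      have := (hD d hd).1
      exact s_of_ne (fun h => tf this h2 h.1) (fun h => tf this hy h.1)
  · intro p q hp hq hpa hqa
    rw [hμ, hμ']
    have := hI p q
    rw [sm_zero (F := fun u v => s u v p q), sm_zero (F := fun u _ => s u a p q),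
      sm_zero (F := fun _ v => s (linv a) v p q)] at this
    · omega
    · intro d hd
      exact s_of_ne (fun h => hpa h.1.symm) (fun h => hqa h.1.symm)
    · intro d hd
      have := (hD d hd).1
      exact s_of_ne (fun h => tf this hp h.1) (fun h => tf this hq h.1)
    · intro d hd
      have := (hD d hd).1
      exact s_of_ne (fun h => tf this hp h.1) (fun h => tf this hq h.1)
  · intro y hy
    have e : (∑ c, if C c then μ'.m c y else 0) = sm (fun _ v => if v = y then 1 else 0) D := by
      rw [← sum_cr_left (fun d hd => (hD d hd).1) y]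
      apply Finset.sum_congr rfl
      intro c _
      cases hc : C c with
      | false => simp
      | true => simp only [if_true]; rw [hμ', hII c y hc hy]
    rw [e, hμ, hμ']
    by_cases hya : y = linv a
    · subst hya
      rw [tm_diag hw, tm_diag hw', sm_zero]
      intro d hd
      rw [if_neg (hD d hd).2.2]
    · have := hI (linv a) y
      rw [sm_zero (F := fun u v => s u v (linv a) y),
        sm_zero (F := fun u _ => s u a (linv a) y)] at this
      · rw [sm_congr (F' := fun _ v => if v = y then 1 else 0)
          (F := fun _ v => s (linv a) v (linv a) y)] at this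
        · omega
        · intro d hd
          unfold s
          rw [if_neg (fun h : linv a = y ∧ d.2 = linv a => hya h.1.symm), Nat.add_zero]
          exact if_congr ⟨fun h => h.2, fun h => ⟨rfl, h⟩⟩ rfl rfl
      · intro d hd
        have := (hD d hd).1
        exact s_of_ne (fun h => tf this h2 h.1) (fun h => tf this hy h.1)
      · intro d hd
        have := (hD d hd).1
        exact s_of_ne (fun h => tf this h2 h.1) (fun h => tf this hy h.1)
  · intro c hc
    have e : (∑ y, if C y then 0 else μ'.m c y) = sm (fun u _ => if u = c then 1 else 0) D := by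
      rw [← sum_cr_right (fun d hd => (hD d hd).2.1) c]
      apply Finset.sum_congr rfl
      intro y _
      cases hy : C y with
      | true => simp
      | false => simp only [Bool.false_eq_true, if_false]; rw [hμ', hII c y hc hy]
    rw [e, hμ]
    have := hI c a
    rw [hII c a hc h1, sm_congr (F := fun u v => s u v c a) (F' := cr c a),
      sm_zero (F := fun _ v => s (linv a) v c a),
      sm_congr (F := fun u _ => s u a c a) (F' := fun u _ => if u = c then 1 else 0)] at this
    · omega
    · intro d hd
      have := (hD d hd).1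
      unfold s
      rw [if_neg (fun h : d.1 = a ∧ a = c => tf this h1 h.1), Nat.add_zero]
      exact if_congr ⟨fun h => h.1, fun h => ⟨h, rfl⟩⟩ rfl rfl
    · intro d hd
      exact s_of_ne (fun h => tf hc h2 h.1.symm) (fun h => linv_ne a h.1)
    · intro d hd
      exact s_cross (hD d hd).1 (hD d hd).2.1 hc h1

/-! ### splits -/

/-- sums over a list of letters -/
def sl (F : Letter M → ℕ) (U : List (Letter M)) : ℕ := (U.map F).sum

@[simp] theorem sl_nil (F : Letter M → ℕ) : sl F [] = 0 := rfl
@[simp] theorem sl_cons (F : Letter M → ℕ) (u : Letter M) (U : List (Letter M)) :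
    sl F (u :: U) = F u + sl F U := by simp [sl]
@[simp] theorem sl_append (F : Letter M → ℕ) (U U' : List (Letter M)) :
    sl F (U ++ U') = sl F U + sl F U' := by simp [sl]

theorem sl_zero {F : Letter M → ℕ} {U : List (Letter M)} (h : ∀ u ∈ U, F u = 0) : sl F U = 0 := by
  induction U with
  | nil => rfl
  | cons u U ih => rw [sl_cons, h u (by simp), ih (fun u' hu' => h u' (by simp [hu']))]

theorem sl_congr {F F' : Letter M → ℕ} {U : List (Letter M)} (h : ∀ u ∈ U, F u = F' u) :
    sl F U = sl F' U := by
  induction U with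
  | nil => rfl
  | cons u U ih =>
    rw [sl_cons, sl_cons, h u (by simp), ih (fun u' hu' => h u' (by simp [hu']))]

/-- data of a split, with number functions -/
structure SD (C : Letter M → Bool) (a f : Letter M) (new old : Letter M → Letter M → ℕ)
    (U V : List (Letter M)) : Prop where
  hU : ∀ u ∈ U, C u = true
  hV : ∀ v ∈ V, C v = false ∧ v ≠ linv a ∧ v.1 ≠ f.1
  hI : ∀ p q, old p q + sl (fun u => s u f p q) U + sl (fun v => s (linv f) v p q) V =
      new p q + sl (fun u => s u a p q) U + sl (fun v => s (linv a) v p q) V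
  hII : ∀ c y, C c = true → C y = false → new c y = sl (fun u => cr c y u f) U

theorem turn_sp {C : Letter M → Bool} {a f : Letter M} (h1 : C a = false) (h2 : C (linv a) = false)
    (hf : C f = false) (hf' : C (linv f) = false) {y y' x x' : Letter M} (g : GP C a y x)
    (hyf : y.1 ≠ f.1) (hxf : x.1 ≠ f.1)
    (hy : (y' = y ∧ ¬ (y = linv a ∧ C x = true)) ∨ (y = a ∧ y' = f) ∨
      (y = linv a ∧ C x = true ∧ y' = linv f))
    (hx : (x' = x ∧ ¬ (x = a ∧ C (linv y) = true)) ∨ (x = a ∧ C (linv y) = true ∧ x' = f) ∨
      (x = linv a ∧ x' = linv f)) :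
    ∃ U V, SD C a f (s (linv y') x') (s (linv y) x) U V := by
  have haa : linv a ≠ a := linv_ne a
  rcases hy with ⟨rfl, hy⟩ | ⟨rfl, rfl⟩ | ⟨rfl, hCx, rfl⟩
  · rcases hx with ⟨rfl, hx⟩ | ⟨rfl, hCy, rfl⟩ | ⟨rfl, rfl⟩
    · refine ⟨[], [], by simp, by simp, fun p q => by simp, fun c y0 hc hy0 => ?_⟩
      rw [sl_nil]
      apply s_nocross _ hc hy0
      cases h3 : C (linv y') <;> cases h4 : C x'
      · rfl
      · exact absurd ⟨by rw [← g.2.2 h3 h4, linv_linv], h4⟩ hy
      · exact absurd ⟨g.2.1 h3 h4, h3⟩ hx
      · rfl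
    · refine ⟨[linv y'], [], by simpa using hCy, by simp, fun p q => ?_, fun c y0 hc hy0 => ?_⟩
      · simp only [sl_cons, sl_nil, Nat.add_zero]
        rw [Nat.add_comm]
      · simp only [sl_cons, sl_nil, Nat.add_zero]
        exact s_cross hCy hf hc hy0
    · have hy3 : C (linv y') = false := by
        by_contra hcon
        rw [Bool.not_eq_false] at hcon
        exact haa (g.2.1 hcon h2)
      refine ⟨[], [linv y'], by simp, ?_, fun p q => ?_, fun c y0 hc hy0 => ?_⟩
      · intro v hv
        rw [List.mem_singleton] at hv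
        subst hv
        exact ⟨hy3, fun hh => g.1 hh.symm, hyf⟩
      · simp only [sl_cons, sl_nil, Nat.add_zero]
        rw [s_symm (linv f), s_symm (linv a) (linv y'), Nat.add_comm]
      · rw [sl_nil]
        exact s_nocross (by rw [hy3, hf']) hc hy0
  · have hxC : C x = false := by
      by_contra hcon
      rw [Bool.not_eq_false] at hcon
      exact haa (g.2.2 h2 hcon)
    rcases hx with ⟨rfl, hx⟩ | ⟨rfl, hCy, rfl⟩ | ⟨rfl, rfl⟩
    · refine ⟨[], [x'], by simp, ?_, fun p q => ?_, fun c y0 hc hy0 => ?_⟩
      · intro v hv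
        rw [List.mem_singleton] at hv
        subst hv
        exact ⟨hxC, g.1, hxf⟩
      · simp only [sl_cons, sl_nil, Nat.add_zero]
        rw [Nat.add_comm]
      · rw [sl_nil]
        exact s_nocross (by rw [hxC, hf']) hc hy0
    · rw [h2] at hCy; exact absurd hCy (by simp)
    · exact absurd rfl g.1
  · rcases hx with ⟨rfl, hx⟩ | ⟨rfl, hCy, rfl⟩ | ⟨rfl, rfl⟩
    · refine ⟨[x'], [], by simpa using hCx, by simp, fun p q => ?_, fun c y0 hc hy0 => ?_⟩
      · simp only [sl_cons, sl_nil, Nat.add_zero, linv_linv]
        rw [s_symm a, s_symm f, Nat.add_comm]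
      · simp only [sl_cons, sl_nil, Nat.add_zero, linv_linv]
        rw [s_symm]
        exact s_cross hCx hf hc hy0
    · rw [h1] at hCx; exact absurd hCx (by simp)
    · rw [h2] at hCx; exact absurd hCx (by simp)

theorem split_cnt {C : Letter M → Bool} {a f : Letter M} (h1 : C a = false)
    (h2 : C (linv a) = false) (hf : C f = false) (hf' : C (linv f) = false) (z : Letter M)
    (hzf : z.1 ≠ f.1) : ∀ (l : List (Letter M)) (y y' : Letter M),
    (∀ t ∈ prs (y :: (l ++ [z])), GP C a t.1 t.2) → y.1 ≠ f.1 → (∀ x ∈ l, x.1 ≠ f.1) →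
    ((y' = y ∧ ¬ (y = linv a ∧ C (l.headD z) = true)) ∨ (y = a ∧ y' = f) ∨
      (y = linv a ∧ C (l.headD z) = true ∧ y' = linv f)) →
    ¬ (z = a ∧ C (linv ((y :: l).getLast (by simp))) = true) →
    ∃ U V, SD C a f (cnt (y' :: (run C a (some f) y l z ++ [z]))) (cnt (y :: (l ++ [z]))) U V := by
  intro l
  induction l with
  | nil =>
    intro y y' hG hyf _ hy hz
    have g := hG (y, z) (by simp)
    obtain ⟨U, V, h⟩ := turn_sp h1 h2 hf hf' (y' := y') (x' := z) g hyf hzf hy (Or.inl ⟨rfl, hz⟩)
    refine ⟨U, V, ?_⟩
    have e1 : cnt (y' :: (run C a (some f) y [] z ++ [z])) = s (linv y') z := by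
      funext p q; simp only [run, List.nil_append]; exact cnt_two _ _ _ _
    have e2 : cnt (y :: ([] ++ [z])) = s (linv y) z := by
      funext p q; simp only [List.nil_append]; exact cnt_two _ _ _ _
    rw [e1, e2]
    exact h
  | cons x l ih =>
    intro y y' hG hyf hlf hy hz
    simp only [List.cons_append, prs_cons, List.forall_mem_cons] at hG hlf
    obtain ⟨g, hG'⟩ := hG
    obtain ⟨hxf, hlf'⟩ := hlf
    rw [List.getLast_cons (by simp)] at hz
    simp only [run]
    simp only [List.headD_cons] at hy
    obtain ⟨x', hx', hop, hx''⟩ : ∃ x', (((x' = x ∧ ¬ (x = linv a ∧ C (l.headD z) = true)) ∨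
        (x = a ∧ x' = f) ∨ (x = linv a ∧ C (l.headD z) = true ∧ x' = linv f))) ∧
        opL C a (some f) (y, (x, l.headD z)) = some x' ∧
        ((x' = x ∧ ¬ (x = a ∧ C (linv y) = true)) ∨ (x = a ∧ C (linv y) = true ∧ x' = f) ∨
          (x = linv a ∧ x' = linv f)) := by
      by_cases hA : x = a ∧ C (linv y) = true
      · refine ⟨f, Or.inr (Or.inl ⟨hA.1, rfl⟩), ?_, Or.inr (Or.inl ⟨hA.1, hA.2, rfl⟩)⟩
        unfold opL; rw [if_pos hA]
      · by_cases hB : x = linv a ∧ C (l.headD z) = true
        · refine ⟨linv f, Or.inr (Or.inr ⟨hB.1, hB.2, rfl⟩), ?_, Or.inr (Or.inr ⟨hB.1, rfl⟩)⟩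
          unfold opL; rw [if_neg hA, if_pos hB]; rfl
        · refine ⟨x, Or.inl ⟨rfl, hB⟩, ?_, Or.inl ⟨rfl, hA⟩⟩
          unfold opL; rw [if_neg hA, if_neg hB]
    rw [hop]
    simp only [Option.toList_some, List.cons_append, List.nil_append]
    obtain ⟨U1, V1, t1⟩ := turn_sp h1 h2 hf hf' g hyf hxf hy hx''
    obtain ⟨U2, V2, t2⟩ := ih x x' hG' hxf hlf' hx' hz
    refine ⟨U1 ++ U2, V1 ++ V2, ?_, ?_, fun p q => ?_, fun c y0 hc hy0 => ?_⟩
    · intro u hu
      rw [List.mem_append] at hu
      exact hu.elim (t1.hU u) (t2.hU u)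
    · intro v hv
      rw [List.mem_append] at hv
      exact hv.elim (t1.hV v) (t2.hV v)
    · have a1 := t1.hI p q
      have a2 := t2.hI p q
      rw [cnt_cons, cnt_cons]
      simp only [sl_append]
      omega
    · rw [cnt_cons, t1.hII c y0 hc hy0, t2.hII c y0 hc hy0, sl_append]

theorem split_tm {w : List (Letter M)} {C : Letter M → Bool} {a f : Letter M} (hw : CR w)
    (hok : Ok w C a) (hf : ∀ x ∈ w, x.1 ≠ f.1) (hCf : C f = false) (hCf' : C (linv f) = false) :
    ∃ U V, SD C a f (tm (op C a (some f) w)) (tm w) U V := by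
  rcases eq_or_ne w [] with rfl | hne
  · refine ⟨[], [], by simp, by simp, fun p q => ?_, fun c y _ _ => ?_⟩
    · simp [op, ctx, tm, tc, cpairs]
    · simp [op, ctx, tm, tc, cpairs]
  obtain ⟨x, l, hrot, hx1, hx2⟩ := exists_start hne hok.a_not hok.a_inv_not
  have hr := op_rot C a (some f) hrot
  have hG := gp_of (cr_rot hrot hw) (ok_rot hrot hok)
  rw [cpairs_cons] at hG
  have hf' : ∀ y ∈ x :: l, y.1 ≠ f.1 := fun y hy => hf y (hrot.perm.mem_iff.2 hy)
  rw [List.forall_mem_cons] at hf'
  have hop : op C a (some f) (x :: l) = x :: run C a (some f) x l x := by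
    rw [op_cons, run]
    have : opL C a (some f) ((x :: l).getLast (by simp), (x, l.headD x)) = some x := by
      unfold opL
      rw [if_neg hx1, if_neg hx2]
    rw [this]; rfl
  obtain ⟨U, V, h⟩ := split_cnt hok.a_not hok.a_inv_not hCf hCf' x hf'.1 l x x hG hf'.1 hf'.2
    (Or.inl ⟨rfl, hx2⟩) hx1
  refine ⟨U, V, ?_⟩
  have e1 : tm (op C a (some f) w) = cnt (x :: (run C a (some f) x l x ++ [x])) := by
    funext p q; rw [tm_rot hr, hop, tm_cons]
  have e2 : tm w = cnt (x :: (l ++ [x])) := by
    funext p q; rw [tm_rot hrot, tm_cons]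
  rw [e1, e2]
  exact h

theorem tm_absent {w : List (Letter M)} {f : Letter M} (hf : ∀ x ∈ w, x.1 ≠ f.1) (q : Letter M) :
    tm w f q = 0 ∧ tm w q f = 0 := by
  have key : ∀ p q : Letter M, (p.1 = f.1 ∨ q.1 = f.1) → tc w p q = 0 := by
    intro p q h
    unfold tc
    rw [List.countP_eq_zero]
    intro z hz h2
    rw [decide_eq_true_eq] at h2
    have hz1 : z.1 ∈ w := (List.of_mem_zip (l₁ := w) (l₂ := w.rotate 1) (a := z.1) (b := z.2)
      hz).1
    have hz2 : z.2 ∈ w := by
      have := (List.of_mem_zip (l₁ := w) (l₂ := w.rotate 1) (a := z.1) (b := z.2) hz).2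
      rwa [List.mem_rotate] at this
    rw [h2] at hz1 hz2
    rcases h with h | h
    · exact hf _ hz1 h
    · exact hf _ hz2 h
  unfold tm
  rw [key f q (Or.inl rfl), key q f (Or.inr rfl)]
  exact ⟨rfl, rfl⟩

/-- OF, splits -/
theorem ofSplit : OfSplitStmt := by
  intro M w C a f μ μ' hw hok hf hCf hCf' haf hμ hμ'
  obtain ⟨U, V, hU, hV, hI, hII⟩ := split_tm hw hok hf hCf hCf'
  have hw' : CR (op C a (some f) w) := split_cr hw hok hf
  have h1 := hok.a_not
  have h2 := hok.a_inv_not
  have haf1 : a ≠ f := fun h => haf (by rw [h])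
  have haf2 : a ≠ linv f := fun h => haf (by rw [h]; rfl)
  have haf3 : linv a ≠ f := fun h => haf (by rw [← h]; rfl)
  have haf4 : linv a ≠ linv f := fun h => haf1 (linv_inj.1 h)
  have hff : linv f ≠ f := linv_ne f
  have hVf : ∀ v ∈ V, v ≠ f ∧ v ≠ linv f := fun v hv =>
    ⟨fun h => (hV v hv).2.2 (by rw [h]), fun h => (hV v hv).2.2 (by rw [h]; rfl)⟩
  have habs := tm_absent hf
  have habs' : ∀ q, tm w (linv f) q = 0 ∧ tm w q (linv f) = 0 :=
    tm_absent (f := linv f) (fun x hx => hf x hx)
  refine ⟨ok_of hok hμ, ?_, hCf, hCf', haf, ?_, ?_, ?_, ?_, ?_, ?_⟩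
  · unfold St.x
    apply Finset.sum_eq_zero
    intro q _
    rw [hμ, (habs q).1]
  · -- inC
    intro p q hp hq
    rw [hμ, hμ']
    have := hI p q
    rw [sl_zero (F := fun u => s u f p q), sl_zero (F := fun v => s (linv f) v p q),
      sl_zero (F := fun u => s u a p q), sl_zero (F := fun v => s (linv a) v p q)] at this
    · omega
    · intro v hv
      exact s_of_ne (fun h => tf hp h2 h.1.symm) (fun h => tf hq h2 h.1.symm)
    · intro u hu
      exact s_of_ne (fun h => tf hq h1 h.2.symm) (fun h => tf hp h1 h.2.symm)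
    · intro v hv
      exact s_of_ne (fun h => tf hp hCf' h.1.symm) (fun h => tf hq hCf' h.1.symm)
    · intro u hu
      exact s_of_ne (fun h => tf hq hCf h.2.symm) (fun h => tf hp hCf h.2.symm)
  · -- toF
    intro c hc
    rw [hμ, hμ', hII c f hc hCf]
    have := hI c a
    rw [hII c a hc h1, sl_zero (F := fun u => s u f c a), sl_zero (F := fun v => s (linv f) v c a),
      sl_zero (F := fun u => cr c a u f), sl_zero (F := fun v => s (linv a) v c a)] at this
    · rw [sl_congr (F := fun u => cr c f u f) (F' := fun u => s u a c a)]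
      · omega
      · intro u hu
        unfold cr s
        rw [if_neg (fun h : u = a ∧ a = c => tf hc h1 h.2.symm), Nat.add_zero]
        exact if_congr ⟨fun h => ⟨h.1, rfl⟩, fun h => ⟨h.1, rfl⟩⟩ rfl rfl
    · intro v hv
      exact s_of_ne (fun h => tf hc h2 h.1.symm) (fun h => linv_ne a h.1)
    · intro u hu
      unfold cr
      rw [if_neg (fun h : u = c ∧ f = a => haf1 h.2.symm)]
    · intro v hv
      exact s_of_ne (fun h => tf hc hCf' h.1.symm) (fun h => haf2 h.1.symm)
    · intro u hu
      exact s_of_ne (fun h => haf1 h.2.symm) (fun h => tf hc hCf h.2.symm)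
  · -- toO
    intro c y hc hy hyf
    rw [hμ', hII c y hc hy]
    apply sl_zero
    intro u hu
    unfold cr
    rw [if_neg (fun h : u = c ∧ f = y => hyf h.2.symm)]
  · -- fO
    intro y hy
    rw [hμ']
    have := hI f y
    rw [(habs y).1, sl_zero (F := fun u => s u f f y), sl_zero (F := fun v => s (linv f) v f y)]
      at this
    · omega
    · intro v hv
      exact s_of_ne (fun h => hff h.1) (fun h => (hVf v hv).1 h.2)
    · intro u hu
      exact s_of_ne (fun h => tf (hU u hu) hCf h.1) (fun h => tf (hU u hu) hy h.1)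
  · -- outC
    intro p q hp hq hpa hqa hpf hqf
    rw [hμ, hμ']
    have hpf' : p ≠ linv f := fun h => hpf (by rw [h]; rfl)
    have hqf' : q ≠ linv f := fun h => hqf (by rw [h]; rfl)
    have := hI p q
    rw [sl_zero (F := fun u => s u f p q), sl_zero (F := fun v => s (linv f) v p q),
      sl_zero (F := fun u => s u a p q), sl_zero (F := fun v => s (linv a) v p q)] at this
    · omega
    · intro v hv
      exact s_of_ne (fun h => hpa h.1.symm) (fun h => hqa h.1.symm)
    · intro u hu
      exact s_of_ne (fun h => tf (hU u hu) hp h.1) (fun h => tf (hU u hu) hq h.1)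
    · intro v hv
      exact s_of_ne (fun h => hpf' h.1.symm) (fun h => hqf' h.1.symm)
    · intro u hu
      exact s_of_ne (fun h => tf (hU u hu) hp h.1) (fun h => tf (hU u hu) hq h.1)
  · -- old
    intro y hy
    rw [hμ, hμ', hμ']
    -- the number of `v` equal to `y`
    have hnf : tm (op C a (some f) w) (linv f) y = sl (fun v => if v = y then 1 else 0) V := by
      have := hI (linv f) y
      rw [(habs' y).1, sl_zero (F := fun u => s u f (linv f) y),
        sl_zero (F := fun u => s u a (linv f) y),
        sl_zero (F := fun v => s (linv a) v (linv f) y)] at this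
      · rw [sl_congr (F := fun v => s (linv f) v (linv f) y)
          (F' := fun v => if v = y then 1 else 0)] at this
        · omega
        · intro v hv
          unfold s
          rw [if_neg (fun h : linv f = y ∧ v = linv f => (hVf v hv).2 h.2), Nat.add_zero]
          exact if_congr ⟨fun h => h.2, fun h => ⟨rfl, h⟩⟩ rfl rfl
      · intro v hv
        exact s_of_ne (fun h => haf4 h.1) (fun h => (hVf v hv).2 h.2)
      · intro u hu
        exact s_of_ne (fun h => tf (hU u hu) hCf' h.1) (fun h => tf (hU u hu) hy h.1)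
      · intro u hu
        exact s_of_ne (fun h => tf (hU u hu) hCf' h.1) (fun h => tf (hU u hu) hy h.1)
    rw [hnf]
    by_cases hya : y = linv a
    · subst hya
      rw [tm_diag hw, tm_diag hw', sl_zero]
      intro v hv
      rw [if_neg (hV v hv).2.1]
    · have := hI (linv a) y
      rw [sl_zero (F := fun u => s u f (linv a) y), sl_zero (F := fun v => s (linv f) v (linv a) y),
        sl_zero (F := fun u => s u a (linv a) y)] at this
      · rw [sl_congr (F := fun v => s (linv a) v (linv a) y)
          (F' := fun v => if v = y then 1 else 0)] at this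
        · omega
        · intro v hv
          unfold s
          rw [if_neg (fun h : linv a = y ∧ v = linv a => hya h.1.symm), Nat.add_zero]
          exact if_congr ⟨fun h => h.2, fun h => ⟨rfl, h⟩⟩ rfl rfl
      · intro u hu
        exact s_of_ne (fun h => tf (hU u hu) h2 h.1) (fun h => tf (hU u hu) hy h.1)
      · intro v hv
        exact s_of_ne (fun h => haf4 h.1.symm) (fun h => (hV v hv).2.1 h.2)
      · intro u hu
        exact s_of_ne (fun h => tf (hU u hu) h2 h.1) (fun h => tf (hU u hu) hy h.1)

/-! ### existence and weights -/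

theorem sum_tc_right (w : List (Letter M)) (p : Letter M) : ∑ q, tc w p q = w.count (linv p) := by
  have key : ∀ L : List (Letter M × Letter M),
      ∑ q, L.countP (fun z => decide (z = (linv p, q))) = (L.map Prod.fst).count (linv p) := by
    intro L
    induction L with
    | nil => simp
    | cons t L ih =>
      simp only [List.countP_cons, Finset.sum_add_distrib, ih, List.map_cons, List.count_cons]
      congr 1
      rw [Finset.sum_eq_single t.2]
      · by_cases h : t.1 = linv p
        · rw [if_pos (by rw [decide_eq_true_eq]; ext1 <;> simp [h]), if_pos (by simp [h])]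
        · rw [if_neg (by rw [decide_eq_true_eq]; intro hh; rw [hh] at h; exact h rfl),
            if_neg (by simp [h])]
      · intro q _ hq
        rw [if_neg]
        rw [decide_eq_true_eq]
        intro hh; rw [hh] at hq; exact hq rfl
      · intro h; exact absurd (Finset.mem_univ _) h
  have e : (cpairs w).map Prod.fst = w := by
    unfold cpairs
    exact List.map_fst_zip (by simp)
  unfold tc
  rw [key, e]

theorem sum_tc_left (w : List (Letter M)) (p : Letter M) : ∑ q, tc w q p = w.count p := by
  have key : ∀ L : List (Letter M × Letter M),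
      ∑ q, L.countP (fun z => decide (z = (linv q, p))) = (L.map Prod.snd).count p := by
    intro L
    induction L with
    | nil => simp
    | cons t L ih =>
      simp only [List.countP_cons, Finset.sum_add_distrib, ih, List.map_cons, List.count_cons]
      congr 1
      rw [Finset.sum_eq_single (linv t.1)]
      · by_cases h : t.2 = p
        · rw [if_pos (by rw [decide_eq_true_eq, linv_linv]; ext1 <;> simp [h]),
            if_pos (by simp [h])]
        · rw [if_neg (by rw [decide_eq_true_eq]; intro hh; rw [hh] at h; exact h rfl),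
            if_neg (by simp [h])]
      · intro q _ hq
        rw [if_neg]
        rw [decide_eq_true_eq]
        intro hh; rw [hh] at hq; exact hq (by rw [linv_linv])
      · intro h; exact absurd (Finset.mem_univ _) h
  have e : (cpairs w).map Prod.snd = w.rotate 1 := by
    unfold cpairs
    exact List.map_snd_zip (by simp)
  unfold tc
  rw [key, e]
  exact (List.rotate_perm w 1).count_eq p

theorem sum_tm (w : List (Letter M)) (p : Letter M) : ∑ q, tm w p q = wt w p := by
  unfold tm wt
  rw [Finset.sum_add_distrib, sum_tc_right, sum_tc_left, Nat.add_comm]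

/-- OF -/
theorem of : OfStmt := by
  intro M w hw
  refine ⟨⟨⟨tm w, fun p q => by unfold tm; rw [Nat.add_comm], tm_diag hw, fun p => ?_⟩,
    fun p q => rfl⟩, ?_, ?_⟩
  · rw [sum_tm, sum_tm]
    unfold wt
    rw [linv_linv, Nat.add_comm]
  · intro μ hμ p
    unfold St.x
    rw [← sum_tm]
    exact Finset.sum_congr rfl (fun q _ => hμ p q)
  · intro w' hr
    refine ⟨cr_rot hr.symm hw, fun p q => tm_rot hr p q, fun p => ?_, fun C => cap_rot hr C⟩
    unfold wt
    rw [hr.perm.count_eq, hr.perm.count_eq]

end OF

/-- OF: existence of the abstract state, its weights, invariance under rotation. -/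
theorem of : OfStmt := OF.of

/-- OF: slides -/
theorem ofSlide : OfSlideStmt := OF.ofSlide

/-- OF: splits -/
theorem ofSplit : OfSplitStmt := OF.ofSplit

end Pool.Agent.Lib.MP_0c2883_lc.All
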