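import Pool.Agent.Lib.MP_0c2883_lc.All.AlgStmts
import Pool.Agent.Lib.MP_0c2883_lc.All.Ops

/-!
# PATH: the path of a chain of slides is read off behind any exit
-/

set_option autoImplicit false

namespace Pool.Agent.Lib.MP_0c2883_lc.All.Path

open Pool.Agent.Lib.PolyTime List Pool.Agent.Lib.MP_0c2883_lc.All
open Pool.Agent.Lib.MP_0c2883_lc.All.Ops

variable {M : ℕ}

theorem chain_letters {C : Letter M → Bool} {w p w' : List (Letter M)} (h : ChainW C w p w') :
    ∀ q ∈ p, C q = false ∧ C (linv q) = false := by
  induction h with
  | nil => simp
  | cons w w' p a hok hc ih =>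
    rw [List.forall_mem_cons]
    exact ⟨⟨hok.a_not, hok.a_inv_not⟩, ih⟩

theorem run_len (C : Letter M → Bool) (a z : Letter M) : ∀ (l : List (Letter M)) (y : Letter M),
    (run C a none y l z).length ≤ l.length
  | [], y => by simp [run]
  | x :: l, y => by
    have ih := run_len C a z l x
    simp only [run, List.length_append, List.length_cons]
    cases opL C a none (y, (x, l.headD z)) <;> simp <;> omega

theorem run_concat (C : Letter M → Bool) (a z x : Letter M) (g : Option (Letter M)) :
    ∀ (l : List (Letter M)) (y : Letter M), run C a g y (l ++ [x]) z =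
      run C a g y l x ++ (opL C a g ((y :: l).getLast (by simp), (x, z))).toList
  | [], y => by simp [run]
  | x' :: l, y => by
    have h1 : (y :: x' :: l).getLast (by simp) = (x' :: l).getLast (by simp) :=
      List.getLast_cons (by simp)
    rw [List.cons_append, run, run_concat C a z x g l x', h1]
    rw [run, List.append_assoc]
    congr 2
    cases l <;> rfl

theorem run_take {C : Letter M → Bool} {a z : Letter M} (h1 : C a = false)
    (h2 : C (linv a) = false) (hz : C z = false) : ∀ (l : List (Letter M)) (y : Letter M) (k : ℕ),
    C (linv y) = false → (∀ q ∈ (run C a none y l z).take k, C q = false ∧ C (linv q) = false) →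
    (run C a none y l z).take k = l.take k
  | [], y, k, _, _ => by simp [run]
  | x :: l, y, 0, _, _ => by simp
  | x :: l, y, k + 1, hy, hq => by
    have haa : linv a ≠ a := linv_ne a
    have hB : ¬ (x = linv a ∧ C (l.headD z) = true) := by
      rintro ⟨rfl, hC⟩
      cases l with
      | nil =>
        rw [List.headD_nil, hz] at hC
        exact absurd hC (by simp)
      | cons v l =>
        rw [List.headD_cons] at hC
        have hva : v ≠ a := by rintro rfl; rw [h1] at hC; exact absurd hC (by simp)
        have hva' : v ≠ linv a := by rintro rfl; rw [h2] at hC; exact absurd hC (by simp)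
        have h3 : opL C a none (y, (linv a, (v :: l).headD z)) = none := by
          unfold opL
          rw [if_neg (fun hh => haa hh.1), List.headD_cons, if_pos ⟨rfl, hC⟩]; rfl
        have h4 : opL C a none (linv a, (v, l.headD z)) = some v := by
          unfold opL
          rw [if_neg (fun hh => hva hh.1), if_neg (fun hh => hva' hh.1)]
        have h6 : run C a none y (linv a :: v :: l) z = v :: run C a none v l z := by
          rw [run, h3, run, h4]; rfl
        have h5 := (hq v (by rw [h6, List.take_succ_cons]; exact List.mem_cons_self ..)).1
        rw [hC] at h5; exact absurd h5 (by simp)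
    have hop : opL C a none (y, (x, l.headD z)) = some x := by
      unfold opL
      rw [if_neg (fun hh => by rw [hy] at hh; exact absurd hh.2 (by simp)), if_neg hB]
    simp only [run, hop, Option.toList_some, List.cons_append, List.nil_append,
      List.take_succ_cons, List.forall_mem_cons] at hq ⊢
    rw [run_take h1 h2 hz l x k hq.1.2 hq.2]

theorem path_aux {C : Letter M → Bool} {w p w' : List (Letter M)} (h : ChainW C w p w') :
    ∀ x y, CR w → w.getLast? = some x → C (linv x) = true → w.head? = some y → C y = false →
      p = w.take p.length ∧ p.length < w.length := by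
  induction h with
  | nil w w' h =>
    intro x y _ _ _ hy _
    refine ⟨by simp, ?_⟩
    cases w with
    | nil => simp at hy
    | cons y' l => simp
  | cons w w' p a hok hc ih =>
    intro x y hw hx hCx hy hCy
    obtain ⟨y', l, rfl⟩ : ∃ y' l, w = y' :: l := by
      cases w with
      | nil => simp at hy
      | cons y' l => exact ⟨y', l, rfl⟩
    simp only [List.head?_cons, Option.some.injEq] at hy
    subst hy
    have hlast : (y' :: l).getLast (by simp) = x := by
      rw [List.getLast?_eq_getLast_of_ne_nil (by simp)] at hx
      exact Option.some.inj hx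
    have hG := gp_of hw hok
    rw [cpairs_cons] at hG
    have hg := hG _ (last_mem_prs y' l y')
    rw [hlast] at hg
    have hya : y' = a := hg.2.1 hCx hCy
    subst hya
    have hxa : x ≠ y' := by rintro rfl; rw [hok.a_inv_not] at hCx; exact absurd hCx (by simp)
    have hxa' : x ≠ linv y' := by
      rintro rfl; rw [linv_linv, hok.a_not] at hCx; exact absurd hCx (by simp)
    have hop : op C y' none (y' :: l) = run C y' none y' l y' := by
      rw [op_cons, run, hlast]
      have : opL C y' none (x, (y', l.headD y')) = none := by
        unfold opL; rw [if_pos ⟨rfl, hCx⟩]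
      rw [this]; rfl
    -- the shape of l
    obtain ⟨l', hl'⟩ : ∃ l', l = l' ++ [x] := by
      rcases List.eq_nil_or_concat l with rfl | ⟨l', v, rfl⟩
      · simp at hlast; exact absurd hlast.symm hxa
      · refine ⟨l', ?_⟩
        have : (y' :: l'.concat v).getLast (by simp) = v := by simp
        rw [this] at hlast
        rw [hlast, List.concat_eq_append]
    obtain ⟨y₁, l₁, hl₁⟩ : ∃ y₁ l₁, l = y₁ :: l₁ := by
      cases l with
      | nil => simp at hl'
      | cons y₁ l₁ => exact ⟨y₁, l₁, rfl⟩
    have hg1 : GP C y' y' y₁ := by
      apply hG (y', y₁)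
      rw [hl₁, List.cons_append, prs_cons]
      exact List.mem_cons_self ..
    have hCy1 : C y₁ = false := by
      by_contra hcon
      rw [Bool.not_eq_false] at hcon
      exact linv_ne y' (hg1.2.2 hok.a_inv_not hcon)
    have hrun1 : run C y' none y' l y' = y₁ :: run C y' none y₁ l₁ y' := by
      rw [hl₁, run]
      have : opL C y' none (y', (y₁, l₁.headD y')) = some y₁ := by
        unfold opL
        rw [if_neg (fun hh => by rw [hok.a_inv_not] at hh; exact absurd hh.2 (by simp)),
          if_neg (fun hh => hg1.1 hh.1)]
      rw [this]; rfl
    have hrun2 : (run C y' none y' l y').getLast? = some x := by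
      rw [hl', run_concat]
      have : opL C y' none ((y' :: l').getLast (by simp), (x, y')) = some x := by
        unfold opL
        rw [if_neg (fun hh => hxa hh.1), if_neg (fun hh => hxa' hh.1)]
      rw [this]; simp
    have hcr := (slide_cr hw hok).1
    rw [hop] at ih hc hcr
    obtain ⟨i1, i2⟩ := ih x y₁ hcr hrun2 hCx (by rw [hrun1]; rfl) hCy1
    have i3 := run_len C y' y' l y'
    refine ⟨?_, ?_⟩
    · rw [List.length_cons, List.take_succ_cons]
      congr 1
      conv_lhs => rw [i1]
      apply run_take hok.a_not hok.a_inv_not hok.a_not _ _ _ hok.a_inv_not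
      rw [← i1]
      exact chain_letters hc
    · simp only [List.length_cons]
      omega

/-- PATH. -/
theorem path : PathStmt := by
  intro M w w' p C x y hw hx hCx hy hCy h
  exact path_aux h x y hw hx hCx hy hCy

end Pool.Agent.Lib.MP_0c2883_lc.All.Path
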