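import Pool.Agent.Lib.MP_0c2883_lc.All.Stmts

/-! # PRIM: primitivity and the property `PQ` -/

set_option autoImplicit false

namespace Pool.Agent.Lib.MP_0c2883_lc.All

open List

namespace Prim

/-- `PQ` is invariant under isomorphisms. -/
theorem pq_equiv {G H : Type} [Group G] [Group H] (e : G ≃* H) {w : G} (h : PQ w) : PQ (e w) := by
  obtain ⟨A, hA, hw⟩ := h
  refine ⟨{y | e.symm y ∈ A}, ?_, ?_⟩
  · intro k
    have h1 := (hA (e.symm k)).image e
    refine h1.subset ?_
    intro y hy
    refine ⟨e.symm y, ?_, by simp⟩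
    simp only [Set.mem_ofPred_eq, map_mul] at hy ⊢
    exact hy
  · ext y
    have h2 : e.symm y ∈ {g : G | ¬ (g * w ∈ A ↔ g ∈ A)} ↔ e.symm y ∈ ({1} : Set G) := by rw [hw]
    simp only [Set.mem_ofPred_eq, Set.mem_singleton_iff, map_mul, MulEquiv.symm_apply_apply] at h2 ⊢
    rw [h2]
    exact ⟨fun h => by simpa using congrArg e h, fun h => by rw [h, map_one]⟩

/-- `PQ` of a restriction. -/
theorem pq_of_injective {G H : Type} [Group G] [Group H] (e : G →* H) (he : Function.Injective e)
    {w : G} (h : PQ (e w)) : PQ w := by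
  obtain ⟨A, hA, hw⟩ := h
  refine ⟨e ⁻¹' A, ?_, ?_⟩
  · intro k
    have h1 := (hA (e k)).preimage (he.injOn)
    refine h1.subset ?_
    intro y hy
    simpa using hy
  · ext y
    have h2 : e y ∈ {g : H | ¬ (g * e w ∈ A ↔ g ∈ A)} ↔ e y ∈ ({1} : Set H) := by rw [hw]
    simp only [Set.mem_ofPred_eq, Set.mem_singleton_iff, Set.mem_preimage, map_mul] at h2 ⊢
    rw [h2]
    exact ⟨fun h => he (by rw [h, map_one]), fun h => by rw [h, map_one]⟩

theorem not_pq_one {G : Type} [Group G] : ¬ PQ (1 : G) := by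
  rintro ⟨A, -, hw⟩
  have : (1 : G) ∈ {g : G | ¬ (g * 1 ∈ A ↔ g ∈ A)} := by rw [hw]; rfl
  simp at this

/-- `IsPrim` is invariant under isomorphisms. -/
theorem isPrim_equiv {β : Type} (e : FreeGroup β ≃* FreeGroup β) {w : FreeGroup β}
    (h : IsPrim w) : IsPrim (e w) := by
  obtain ⟨ι, b, i, hb⟩ := h
  exact ⟨ι, b.map e, i, by rw [FreeGroupBasis.map_apply, hb]⟩

section letter

variable {ι : Type} [DecidableEq ι]

/-- last letter of the reduced word -/
def lastIs (i : ι) (u : FreeGroup ι) : Prop := u.toWord.getLast? = some (i, false)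

theorem lastIs_mul (i : ι) (x : ι × Bool) (u : FreeGroup ι)
    (h1 : ¬ (u = 1 ∧ x = (i, false))) (h2 : ¬ (u = FreeGroup.mk [(i, false)] ∧ x = (i, true))) :
    lastIs i (FreeGroup.mk [x] * u) ↔ lastIs i u := by
  have hu : FreeGroup.IsReduced u.toWord := FreeGroup.isReduced_toWord
  have hur : FreeGroup.reduce u.toWord = u.toWord := hu.reduce_eq
  have hm : (FreeGroup.mk [x] * u).toWord = FreeGroup.reduce (x :: u.toWord) := by
    conv_lhs => rw [← FreeGroup.mk_toWord (x := u), FreeGroup.mul_mk, FreeGroup.toWord_mk]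
    rfl
  unfold lastIs
  rw [hm, FreeGroup.reduce.cons, hur]
  rcases hL : u.toWord with _ | ⟨y, L⟩
  · have hu1 : u = 1 := by rwa [FreeGroup.toWord_eq_nil_iff] at hL
    have hx : x ≠ (i, false) := fun h => h1 ⟨hu1, h⟩
    simp [hx]
  · simp only
    split_ifs with hxy
    · cases L with
      | nil =>
        simp only [List.getLast?_nil, reduceCtorEq, List.getLast?_singleton, Option.some.injEq,
          false_iff]
        intro hy
        refine h2 ⟨?_, ?_⟩
        · rw [← FreeGroup.mk_toWord (x := u), hL, hy]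
        · rcases x with ⟨x1, x2⟩
          subst hy
          simp only [Bool.not_false] at hxy
          rw [hxy.1, hxy.2]
      | cons z L => simp
    · simp

omit [DecidableEq ι] in
theorem mk_single_true (i : ι) : FreeGroup.mk [(i, true)] = FreeGroup.of i := rfl

omit [DecidableEq ι] in
theorem mk_single_false (i : ι) : FreeGroup.mk [(i, false)] = (FreeGroup.of i)⁻¹ := by
  rw [← mk_single_true, FreeGroup.inv_mk]
  simp [FreeGroup.invRev]

/-- the elements whose reduced word starts with `i`. -/
def startSet (i : ι) : Set (FreeGroup ι) := {g | lastIs i g⁻¹}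

theorem start_mul (i : ι) (x : ι × Bool) (g : FreeGroup ι)
    (h1 : ¬ (g = 1 ∧ x = (i, false))) (h2 : ¬ (g = FreeGroup.of i ∧ x = (i, true))) :
    g * (FreeGroup.mk [x])⁻¹ ∈ startSet i ↔ g ∈ startSet i := by
  unfold startSet
  simp only [Set.mem_ofPred_eq, mul_inv_rev, inv_inv]
  refine lastIs_mul i x g⁻¹ ?_ ?_
  · rintro ⟨h3, h4⟩
    exact h1 ⟨by simpa using h3, h4⟩
  · rintro ⟨h3, h4⟩
    refine h2 ⟨?_, h4⟩
    rw [mk_single_false] at h3
    simpa using h3

/-- the exceptional set of a right translation is finite -/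
def Fin' (A : Set (FreeGroup ι)) (h : FreeGroup ι) : Prop :=
  {g : FreeGroup ι | ¬ (g * h ∈ A ↔ g ∈ A)}.Finite

omit [DecidableEq ι] in
theorem fin_one (A : Set (FreeGroup ι)) : Fin' A 1 := by
  unfold Fin'
  simp

omit [DecidableEq ι] in
theorem fin_mul {A : Set (FreeGroup ι)} {h k : FreeGroup ι} (hh : Fin' A h) (hk : Fin' A k) :
    Fin' A (h * k) := by
  have h1 : {g : FreeGroup ι | ¬ (g * (h * k) ∈ A ↔ g ∈ A)} ⊆
      {g : FreeGroup ι | ¬ (g * h ∈ A ↔ g ∈ A)} ∪
      (fun g => g * h) ⁻¹' {g : FreeGroup ι | ¬ (g * k ∈ A ↔ g ∈ A)} := by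
    intro g hg
    simp only [Set.mem_ofPred_eq, Set.mem_union, Set.mem_preimage] at hg ⊢
    rw [← mul_assoc] at hg
    by_contra hc
    push Not at hc
    obtain ⟨h2, h3⟩ := hc
    apply hg
    rw [h3, h2]
  refine Set.Finite.subset (Set.Finite.union hh (Set.Finite.preimage ?_ hk)) h1
  exact (mul_left_injective h).injOn

omit [DecidableEq ι] in
theorem fin_inv {A : Set (FreeGroup ι)} {h : FreeGroup ι} (hh : Fin' A h) :
    Fin' A h⁻¹ := by
  have h1 : {g : FreeGroup ι | ¬ (g * h⁻¹ ∈ A ↔ g ∈ A)} ⊆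
      (fun g => g * h⁻¹) ⁻¹' {g : FreeGroup ι | ¬ (g * h ∈ A ↔ g ∈ A)} := by
    intro g hg
    simp only [Set.mem_ofPred_eq, Set.mem_preimage, inv_mul_cancel_right] at hg ⊢
    exact fun h2 => hg h2.symm
  refine Set.Finite.subset (Set.Finite.preimage ?_ hh) h1
  exact (mul_left_injective h⁻¹).injOn

omit [DecidableEq ι] in
theorem fin_all {A : Set (FreeGroup ι)} (h : ∀ j, Fin' A (FreeGroup.of j)) (g : FreeGroup ι) :
    Fin' A g := by
  refine FreeGroup.induction_on g (fin_one A) (fun x => h x) (fun x hx => fin_inv hx)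
    (fun x y hx hy => fin_mul hx hy)

theorem pq_of (i : ι) : PQ (FreeGroup.of i) := by
  have hof : ∀ j : ι, FreeGroup.of j = (FreeGroup.mk [(j, false)])⁻¹ := by
    intro j
    rw [mk_single_false, inv_inv]
  refine ⟨startSet i, fun h => fin_all ?_ h, ?_⟩
  · intro j
    refine Set.Finite.subset (Set.finite_singleton (1 : FreeGroup ι)) ?_
    intro g hg
    simp only [Set.mem_ofPred_eq, Set.mem_singleton_iff] at hg ⊢
    by_contra h1
    apply hg
    rw [hof j]
    refine start_mul i (j, false) g (fun h => h1 h.1) (by simp)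
  · ext g
    simp only [Set.mem_ofPred_eq, Set.mem_singleton_iff]
    constructor
    · intro hg
      by_contra h1
      apply hg
      rw [hof i]
      exact start_mul i (i, false) g (fun h => h1 h.1) (by simp)
    · rintro rfl
      rw [one_mul]
      intro h
      have h1 : FreeGroup.of i ∈ startSet i := by
        unfold startSet lastIs
        rw [Set.mem_ofPred_eq, ← mk_single_false, FreeGroup.toWord_mk]
        rfl
      have h2 := h.1 h1
      unfold startSet lastIs at h2
      simp at h2

end letter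

theorem pq_of_isPrim {r : ℕ} {g : FreeGroup (Fin r)} (h : IsPrim g) : PQ g := by
  classical
  obtain ⟨ι, b, i, rfl⟩ := h
  have h1 : b i = b.repr.symm (FreeGroup.of i) := rfl
  rw [h1]
  exact pq_equiv _ (pq_of i)

theorem isPrim_of {r : ℕ} (i : Fin r) : IsPrim (FreeGroup.of i) :=
  ⟨Fin r, FreeGroupBasis.ofFreeGroup _, i, by simp⟩

/-- the automorphism inverting all generators -/
noncomputable def invAut (r : ℕ) : FreeGroup (Fin r) ≃* FreeGroup (Fin r) :=
  MulEquiv.ofBijective (FreeGroup.lift (fun j => (FreeGroup.of j)⁻¹)) (by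
    have h1 : ∀ x : FreeGroup (Fin r), FreeGroup.lift (fun j => (FreeGroup.of j)⁻¹)
        (FreeGroup.lift (fun j => (FreeGroup.of j)⁻¹) x) = x := by
      intro x
      have : (FreeGroup.lift (fun j : Fin r => (FreeGroup.of j)⁻¹)).comp
          (FreeGroup.lift (fun j => (FreeGroup.of j)⁻¹)) = MonoidHom.id _ := by
        ext j
        simp
      exact DFunLike.congr_fun this x
    exact Function.Involutive.bijective h1)

theorem isPrim_of_inv {r : ℕ} (i : Fin r) : IsPrim (FreeGroup.of i)⁻¹ := by
  have h1 : invAut r (FreeGroup.of i) = (FreeGroup.of i)⁻¹ := by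
    simp [invAut]
  rw [← h1]
  exact isPrim_equiv _ (isPrim_of i)

theorem cap_pos {M : ℕ} {w : List (Letter M)} {C : Letter M → Bool} {p q : Letter M}
    (hp : C p = true) (hq : C q = false) (h : 0 < tm w p q) : 0 < cap w C := by
  unfold tm tc at h
  unfold cap
  rw [List.countP_pos_iff]
  rcases Nat.eq_zero_or_pos ((cpairs w).countP (fun z => decide (z = (linv p, q)))) with h1 | h1
  · have h2 : 0 < (cpairs w).countP (fun z => decide (z = (linv q, p))) := by omega
    rw [List.countP_pos_iff] at h2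
    obtain ⟨z, hz, hz'⟩ := h2
    refine ⟨z, hz, ?_⟩
    simp only [decide_eq_true_eq] at hz'
    subst hz'
    simp [hp, hq]
  · obtain ⟨z, hz, hz'⟩ := List.countP_pos_iff.mp h1
    refine ⟨z, hz, ?_⟩
    simp only [decide_eq_true_eq] at hz'
    subst hz'
    simp [hp, hq]

theorem ok_of_merge {M : ℕ} {w : List (Letter M)} {c a : Letter M} (h : MergeAt w c a) :
    Ok w (fun x => decide (x = c)) a where
  a_not := by simpa using Ne.symm h.ne
  a_inv_not := by simpa using Ne.symm h.ne'
  bd := by
    intro p q hpq hp hq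
    simp only [decide_eq_true_eq] at hp
    subst hp
    exact h.left q hpq

theorem isPrim_of_pq_aux (hWL : WLStmt) (hSl : SlideStmt) (r : ℕ) (n : ℕ) :
    ∀ w : List (Letter r), w.length ≤ n → CR w → PQ (FreeGroup.mk w) → IsPrim (FreeGroup.mk w) := by
  induction n with
  | zero =>
    intro w hw _ hq
    have : w = [] := List.length_eq_zero_iff.mp (by omega)
    subst this
    exact absurd hq not_pq_one
  | succ n ih =>
    intro w hw hc hq
    rcases Nat.lt_or_ge w.length 2 with h2 | h2
    · rcases w with _ | ⟨x, w⟩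
      · exact absurd hq not_pq_one
      · have : w = [] := by
          apply List.length_eq_zero_iff.mp
          simp only [List.length_cons] at h2
          omega
        subst this
        rcases x with ⟨i, s⟩
        cases s with
        | true => exact isPrim_of i
        | false =>
          rw [mk_single_false]
          exact isPrim_of_inv i
    · have key : ∃ (C : Letter r → Bool) (a : Letter r), Ok w C a ∧ 0 < cap w C := by
        rcases hWL r w hc h2 hq with ⟨c, a, hm⟩ | ⟨C, a, hm⟩
        · refine ⟨_, a, ok_of_merge hm, ?_⟩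
          exact cap_pos (p := c) (q := a) (by simp) (by simpa using Ne.symm hm.ne) hm.pos
        · obtain ⟨c, hc1, hc2⟩ := hm.exit
          exact ⟨C, a, hm.ok, cap_pos hc1 hm.ok.a_not hc2⟩
      obtain ⟨C, a, hok, hcap⟩ := key
      obtain ⟨h3, h4, -, φ, h5⟩ := hSl r w C a hc hok
      have h6 : PQ (FreeGroup.mk (op C a none w)) := by
        rw [← h5]
        exact pq_equiv φ hq
      have h7 := ih (op C a none w) (by omega) h3 h6
      have h8 : FreeGroup.mk w = φ.symm (FreeGroup.mk (op C a none w)) := by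
        rw [← h5]
        simp
      rw [h8]
      exact isPrim_equiv _ h7

theorem isPrim_of_pq (hWL : WLStmt) (hSl : SlideStmt) {r : ℕ} {g : FreeGroup (Fin r)}
    (h : PQ g) : IsPrim g := by
  classical
  have h1 := FreeGroup.reduceCyclically.conj_conjugator_reduceCyclically g.toWord
  set w := FreeGroup.reduceCyclically g.toWord with hw
  set c := FreeGroup.reduceCyclically.conjugator g.toWord with hc
  have hcr : CR w := FreeGroup.reduceCyclically.isCyclicallyReduced FreeGroup.isReduced_toWord
  have h2 : FreeGroup.mk c * FreeGroup.mk w * (FreeGroup.mk c)⁻¹ = g := by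
    rw [FreeGroup.inv_mk, FreeGroup.mul_mk, FreeGroup.mul_mk, h1, FreeGroup.mk_toWord]
  have h3 : MulAut.conj (FreeGroup.mk c) (FreeGroup.mk w) = g := by
    rw [MulAut.conj_apply, h2]
  have h4 : PQ (FreeGroup.mk w) := by
    have : FreeGroup.mk w = (MulAut.conj (FreeGroup.mk c)).symm g := by
      rw [← h3]
      exact ((MulAut.conj (FreeGroup.mk c)).symm_apply_apply _).symm
    rw [this]
    exact pq_equiv _ h
  rw [← h3]
  exact isPrim_equiv _ (isPrim_of_pq_aux hWL hSl r w.length w le_rfl hcr h4)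

/-! ### adding letters -/

theorem isPrim_map {r M : ℕ} (h : r ≤ M) {g : FreeGroup (Fin r)} (hg : IsPrim g) :
    IsPrim (FreeGroup.map (Fin.castLE h) g) := by
  classical
  obtain ⟨ι, b, i, rfl⟩ := hg
  set κ := {j : Fin M // r ≤ j.val} with hκ
  let φ : FreeGroup (Fin r) ≃* FreeGroup ι := b.repr
  let F : FreeGroup (Fin M) →* FreeGroup (ι ⊕ κ) := FreeGroup.lift (fun j =>
    if hj : j.val < r then FreeGroup.map Sum.inl (φ (FreeGroup.of ⟨j.val, hj⟩))
    else FreeGroup.of (Sum.inr ⟨j, not_lt.mp hj⟩))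
  let G : FreeGroup (ι ⊕ κ) →* FreeGroup (Fin M) := FreeGroup.lift (Sum.elim
    (fun i => FreeGroup.map (Fin.castLE h) (φ.symm (FreeGroup.of i)))
    (fun k => FreeGroup.of k.1))
  have hG1 : G.comp (FreeGroup.map Sum.inl) =
      (FreeGroup.map (Fin.castLE h)).comp φ.symm.toMonoidHom := by
    ext i
    simp [G]
  have hF1 : F.comp (FreeGroup.map (Fin.castLE h)) =
      (FreeGroup.map Sum.inl).comp φ.toMonoidHom := by
    ext j
    simp [F]
  have hGF : G.comp F = MonoidHom.id _ := by
    ext j
    simp only [MonoidHom.coe_comp, Function.comp_apply, MonoidHom.id_apply]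
    by_cases hj : j.val < r
    · have h1 : F (FreeGroup.of j) = FreeGroup.map Sum.inl (φ (FreeGroup.of ⟨j.val, hj⟩)) := by
        simp [F, hj]
      rw [h1]
      have h2 := DFunLike.congr_fun hG1 (φ (FreeGroup.of ⟨j.val, hj⟩))
      simp only [MonoidHom.coe_comp, Function.comp_apply] at h2
      rw [h2]
      simp
    · have h1 : F (FreeGroup.of j) = FreeGroup.of (Sum.inr ⟨j, not_lt.mp hj⟩) := by
        simp [F, hj]
      rw [h1]
      simp [G]
  have hFG : F.comp G = MonoidHom.id _ := by
    ext x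
    simp only [MonoidHom.coe_comp, Function.comp_apply, MonoidHom.id_apply]
    rcases x with i | k
    · have h1 : G (FreeGroup.of (Sum.inl i)) =
          FreeGroup.map (Fin.castLE h) (φ.symm (FreeGroup.of i)) := by
        simp [G]
      rw [h1]
      have h2 := DFunLike.congr_fun hF1 (φ.symm (FreeGroup.of i))
      simp only [MonoidHom.coe_comp, Function.comp_apply] at h2
      rw [h2]
      simp
    · have h1 : G (FreeGroup.of (Sum.inr k)) = FreeGroup.of k.1 := by
        simp [G]
      rw [h1]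
      have : ¬ (k.1.val < r) := not_lt.mpr k.2
      simp [F, this]
  let E : FreeGroup (Fin M) ≃* FreeGroup (ι ⊕ κ) :=
    { F with
      invFun := G
      left_inv := fun x => DFunLike.congr_fun hGF x
      right_inv := fun x => DFunLike.congr_fun hFG x }
  refine ⟨ι ⊕ κ, FreeGroupBasis.ofRepr E, Sum.inl i, ?_⟩
  have h1 : (FreeGroupBasis.ofRepr E) (Sum.inl i) = E.symm (FreeGroup.of (Sum.inl i)) := rfl
  have h2 : E.symm (FreeGroup.of (Sum.inl i)) = G (FreeGroup.of (Sum.inl i)) := rfl
  have h3 : b i = φ.symm (FreeGroup.of i) := rfl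
  rw [h1, h2, h3]
  simp [G]

end Prim

/-- PRIM1, from WL and OPS1. -/
theorem primPQ (hWL : WLStmt) (hSl : SlideStmt) : PrimPQStmt :=
  fun _ _ => ⟨Prim.pq_of_isPrim, Prim.isPrim_of_pq hWL hSl⟩

/-- PRIM2, from WL and OPS1. -/
theorem primMap (hWL : WLStmt) (hSl : SlideStmt) : PrimMapStmt := by
  intro r M h g
  constructor
  · intro hg
    refine Prim.isPrim_of_pq hWL hSl ?_
    exact Prim.pq_of_injective _ (FreeGroup.map_injective (Fin.castLE_injective h))
      (Prim.pq_of_isPrim hg)
  · exact Prim.isPrim_map h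

end Pool.Agent.Lib.MP_0c2883_lc.All
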