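import Pool.Agent.Lib.MP_0c2883_lc.All.AlgStmts
import Pool.Agent.Lib.MP_0c2883_lc.All.RedPT

/-!
# Rotation and inversion of compressed words
-/

set_option autoImplicit false

namespace Pool.Agent.Lib.MP_0c2883_lc.All

open Pool.Agent.Lib.PolyTime List

namespace Rot

variable {M : ℕ}

/-- The first position between two letters `x`, `y`. -/
def fp (x y : Letter M) : List (Letter M) → Option ℕ
  | [] => none
  | [_] => none
  | a :: b :: w => if a = x ∧ b = y then some 1 else (fp x y (b :: w)).map (fun k => 1 + k)

theorem fp_append (x y : Letter M) : ∀ u v : List (Letter M),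
    fp x y (u ++ v) = (fp x y u).or (if u.getLast? = some x ∧ v.head? = some y then some u.length
      else (fp x y v).map (fun k => u.length + k))
  | [], v => by simp [fp]
  | [a], [] => by simp [fp]
  | [a], b :: v => by simp [fp]
  | a :: b :: u, v => by
    have ih := fp_append x y (b :: u) v
    rw [List.cons_append] at ih
    rw [List.cons_append, List.cons_append, fp, fp, ih]
    by_cases h : a = x ∧ b = y
    · rw [if_pos h, if_pos h]; rfl
    · rw [if_neg h, if_neg h]
      rcases h1 : fp x y (b :: u) with _ | k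
      · have e : (a :: b :: u).getLast? = (b :: u).getLast? := by simp
        rw [e]
        simp only [Option.none_or, Option.map_none]
        by_cases h2 : (b :: u).getLast? = some x ∧ v.head? = some y
        · rw [if_pos h2, if_pos h2]
          simp only [Option.map_some, List.length_cons, Option.some.injEq]; omega
        · rw [if_neg h2, if_neg h2, Option.map_map]
          congr 1
          funext k
          simp only [Function.comp, List.length_cons]; omega
      · simp

theorem fp_some (x y : Letter M) : ∀ (w : List (Letter M)) (k : ℕ), fp x y w = some k →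
    k ≤ w.length ∧ (w.take k).getLast? = some x ∧ (w.drop k).head? = some y
  | [], k, h => by simp [fp] at h
  | [a], k, h => by simp [fp] at h
  | a :: b :: w, k, h => by
    rw [fp] at h
    by_cases h1 : a = x ∧ b = y
    · rw [if_pos h1, Option.some.injEq] at h
      subst h
      simp [h1.1, h1.2]
    · rw [if_neg h1, Option.map_eq_some_iff] at h
      obtain ⟨k', h2, rfl⟩ := h
      obtain ⟨i1, i2, i3⟩ := fp_some x y (b :: w) k' h2
      rw [Nat.add_comm 1 k']
      refine ⟨by simp only [List.length_cons] at i1 ⊢; omega, ?_, ?_⟩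
      · rw [List.take_succ_cons, List.getLast?_cons, i2]; rfl
      · rw [List.drop_succ_cons]; exact i3

theorem fp_none (x y : Letter M) : ∀ (w : List (Letter M)) (a c : Letter M),
    fp x y (a :: w) = none → (x, y) ∈ (a :: w).zip (w ++ [c]) →
    (a :: w).getLast? = some x ∧ c = y
  | [], a, c, _, h => by
    simp only [List.nil_append, List.zip_cons_cons, List.zip_nil_left, List.mem_singleton,
      Prod.mk.injEq] at h
    simp [h.1, h.2]
  | b :: w, a, c, h0, h => by
    rw [fp] at h0
    rw [List.cons_append, List.zip_cons_cons, List.mem_cons, Prod.mk.injEq] at h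
    by_cases h1 : a = x ∧ b = y
    · rw [if_pos h1] at h0; simp at h0
    · rw [if_neg h1, Option.map_eq_none_iff] at h0
      rcases h with h | h
      · exact absurd ⟨h.1.symm, h.2.symm⟩ h1
      · obtain ⟨i1, i2⟩ := fp_none x y w b c h0 h
        refine ⟨?_, i2⟩
        rw [← i1]; simp

theorem fp_none' {x y : Letter M} {w : List (Letter M)} (h0 : fp x y w = none)
    (h : (x, y) ∈ cpairs w) : w.getLast? = some x ∧ w.head? = some y := by
  rcases w with _ | ⟨a, w⟩
  · simp [cpairs] at h
  · unfold cpairs at h
    rw [List.rotate_cons_succ, List.rotate_zero] at h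
    obtain ⟨i1, i2⟩ := fp_none x y w a a h0 h
    exact ⟨i1, by simp [i2]⟩

/-! ### The table -/

/-- entries of the table: length, first and last letter, position -/
abbrev Ent (M : ℕ) := BNz × (Option (Letter M) × (Option (Letter M) × Option BNz))

/-- default entry -/
def e0 : Ent M := (⟨0⟩, (none, (none, none)))

/-- the entry of a word -/
def ent (x y : Letter M) (w : List (Letter M)) : Ent M :=
  (⟨w.length⟩, (w.head?, (w.getLast?, (fp x y w).map BNz.mk)))

/-- the entry of a concatenation -/
def jn (x y : Letter M) (a b : Ent M) : Ent M :=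
  (⟨a.1.val + b.1.val⟩, (a.2.1.or b.2.1, (b.2.2.1.or a.2.2.1,
    a.2.2.2.or (if (decide (a.2.2.1 = some x) && decide (b.2.1 = some y)) = true then some a.1
      else match b.2.2.2 with
        | none => none
        | some k => some ⟨a.1.val + k.val⟩))))

theorem ent_append (x y : Letter M) (u v : List (Letter M)) :
    ent x y (u ++ v) = jn x y (ent x y u) (ent x y v) := by
  unfold ent jn
  simp only [List.length_append, List.head?_append, List.getLast?_append, fp_append]
  congr 3
  rcases h1 : fp x y u with _ | k
  · simp only [Option.none_or, Option.map_none]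
    by_cases h2 : u.getLast? = some x ∧ v.head? = some y
    · rw [if_pos h2, decide_eq_true h2.1, decide_eq_true h2.2]; rfl
    · rw [if_neg h2]
      have : (decide (u.getLast? = some x) && decide (v.head? = some y)) = false := by
        rw [Bool.and_eq_false_iff, decide_eq_false_iff_not, decide_eq_false_iff_not]
        tauto
      rw [this]
      rcases fp x y v with _ | k <;> rfl
  · simp

/-- one step of the table -/
def stp (x y : Letter M) (t : List (Ent M)) (r : GRule M) : Ent M :=
  match r with
  | none => e0
  | some (Sum.inl z) => (⟨1⟩, (some z, (some z, none)))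
  | some (Sum.inr p) => jn x y (t[p.1]?.getD e0) (t[p.2]?.getD e0)

theorem tab_eq (x y : Letter M) (G : Gram M) :
    (tab ruleVal G).map (ent x y) = tab (stp x y) G := by
  refine tab_map ruleVal ?_ G
  intro t r
  rcases r with _ | z | ⟨a, b⟩
  · rfl
  · rfl
  · have ea : ((t.map (ent x y))[a]?.getD e0) = ent x y (t[a]?.getD []) :=
      (getD_map (ent x y) t a []).symm
    have eb : ((t.map (ent x y))[b]?.getD e0) = ent x y (t[b]?.getD []) :=
      (getD_map (ent x y) t b []).symm
    simp only [ruleVal, stp, ent_append, ea, eb]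

theorem get_eq (x y : Letter M) (G : Gram M) (i : ℕ) :
    (tab (stp x y) G)[i]?.getD e0 = ent x y (V G i) := by
  rw [← tab_eq, V]
  exact (getD_map (ent x y) _ i []).symm

theorem len_le (G : Gram M) : ∀ v ∈ tab ruleVal G, v.length ≤ 2 ^ G.length := by
  induction G using List.reverseRecOn with
  | nil => simp
  | append_singleton G r ih =>
    intro v hv
    have hget : ∀ i : ℕ, ((tab ruleVal G)[i]?.getD []).length ≤ 2 ^ G.length := by
      intro i
      rcases h : (tab ruleVal G)[i]? with _ | c
      · simp
      · exact ih c (List.mem_of_getElem? h)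
    rw [tab_concat, List.mem_append, List.mem_singleton] at hv
    rw [List.length_append, List.length_singleton, pow_succ]
    rcases hv with hv | rfl
    · have := ih v hv; omega
    · have := Nat.one_le_two_pow (n := G.length)
      rcases r with _ | z | p
      · simp [ruleVal]
      · simp only [ruleVal, List.length_singleton]; omega
      · simp only [ruleVal, List.length_append]
        have h1 := hget p.1
        have h2 := hget p.2
        omega

theorem size_bn_pow {n k : ℕ} (h : k ≤ 2 ^ n) : size (BNz.mk k) ≤ 4 * n + 5 := by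
  have h2 : Nat.size k ≤ n + 1 := by
    rw [Nat.size_le]
    have := Nat.one_le_two_pow (n := n)
    rw [pow_succ]; omega
  have h3 := size_bn_le (BNz.mk k)
  simp only at h3
  omega

theorem size_ent {x y : Letter M} {w : List (Letter M)} {n : ℕ} (h : w.length ≤ 2 ^ n) :
    size (ent x y w) ≤ 8 * n + (4 * M + 60) := by
  have h1 := size_bn_pow h
  have h2 := size_optionLetter_le w.head?
  have h3 := size_optionLetter_le w.getLast?
  have h4 : size ((fp x y w).map BNz.mk) ≤ 4 * n + 7 := by
    rcases hf : fp x y w with _ | k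
    · show (1 : ℕ) ≤ _
      omega
    · have h5 := (fp_some x y w k hf).1
      have h6 := size_bn_pow (n := n) (k := k) (by omega)
      have h7 : size (some (BNz.mk k)) = size (BNz.mk k) + 2 := by
        show (BT.node (enc (BNz.mk k)) BT.leaf).size = _
        rw [BT.size_node, BT.size_leaf]; rfl
      simp only [Option.map_some]
      omega
  unfold ent
  rw [size_prod, size_prod, size_prod]
  simp only
  omega

section PT

variable {α : Type} [Enc α]

theorem PT.jn (x y : Letter M) {f g : α → Ent M} (hf : PT f) (hg : PT g) :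
    PT (fun a => Rot.jn x y (f a) (g a)) := by
  refine PT.pair (PT.bnzAdd hf.fst' hg.fst') (PT.pair (PT.or' hf.snd'.fst' hg.snd'.fst')
    (PT.pair (PT.or' hg.snd'.snd'.fst' hf.snd'.snd'.fst') (PT.or' hf.snd'.snd'.snd' ?_)))
  refine PT.cond (PT.and ?_ ?_) hf.fst'.some ?_
  · exact (PT.eqConst (some x)).comp hf.snd'.snd'.fst'
  · exact (PT.eqConst (some y)).comp hg.snd'.fst'
  · exact (PT.optCases (h := fun a k => some (BNz.mk ((f a).1.val + k.val))) hg.snd'.snd'.snd'
      (PT.const none) (PT.some (PT.bnzAdd (hf.fst'.comp PT.fst) PT.snd))).congr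
      (fun a => by rcases (g a).2.2.2 with _ | k <;> rfl)

theorem PT.tb (x y : Letter M) {f : α → Gram M} (hf : PT f) :
    PT (fun a => All.tab (stp x y) (f a)) := by
  refine PT.tab hf ?_ (Polynomial.C 8 * Polynomial.X + Polynomial.C (4 * M + 60)) ?_
  · exact (PT.ruleCases (f := fun z : List (Ent M) × GRule M => z.2) (g := fun _ => (e0 : Ent M))
      (h := fun _ z => (((⟨1⟩ : BNz), (some z, (some z, (none : Option BNz)))) : Ent M))
      (k := fun z p => Rot.jn x y (z.1[p.1]?.getD e0) (z.1[p.2]?.getD e0))
      PT.snd (PT.const _)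
      ((PT.const _).pair (PT.snd.some.pair (PT.snd.some.pair (PT.const _))))
      (PT.jn x y (PT.getDv PT.snd.fst' PT.fst.fst' _) (PT.getDv PT.snd.snd' PT.fst.fst' _))).congr
      (fun z => by rcases z.2 with _ | u | p <;> rfl)
  · intro G b hb
    rw [← tab_eq, List.mem_map] at hb
    obtain ⟨v, hv, rfl⟩ := hb
    have h1 := size_ent (x := x) (y := y) (len_le G v hv)
    have h2 := length_le_size G
    simp only [Polynomial.eval_add, Polynomial.eval_mul, Polynomial.eval_C, Polynomial.eval_X]
    omega

end PT

/-- cut at position `k` and exchange the two parts -/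
def rotAt (z : Gram M × ℕ) (k : BNz) : Gram M × ℕ :=
  let A := cut' false z.1 z.2 k
  let B := cut' true A.1 z.2 ⟨(len (mkEnv z.1) z.2).val - k.val⟩
  (B.1 ++ [some (Sum.inr (B.2, A.2))], B.1.length)

theorem rotAt_spec {z : Gram M × ℕ} {k : BNz} (hz : GI z) (hk : k.val ≤ (wd z).length) :
    GI (rotAt z k) ∧ wd (rotAt z k) = (wd z).drop k.val ++ (wd z).take k.val := by
  obtain ⟨A', a1, a2, a3, a4, _, _⟩ := cut_spec (r := false) hz.1 hz.2 hk
  unfold rotAt
  simp only
  set A := cut' false z.1 z.2 k with hA
  rw [← a1] at a2 a3 a4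
  have hz2 : z.2 < A.1.length := by
    rw [a1, List.length_append]; have := hz.2; omega
  have hV : V A.1 z.2 = wd z := by rw [a1]; exact V_append hz.2
  obtain ⟨B', b1, b2, b3, b4, _, _⟩ := cut_spec (r := true) a2 hz2
    (c := ⟨(len (mkEnv z.1) z.2).val - k.val⟩) (by
      rw [len_mk, hV]; simp only [wd]; omega)
  set B := cut' true A.1 z.2 ⟨(len (mkEnv z.1) z.2).val - k.val⟩ with hB
  rw [← b1] at b2 b3 b4
  have hA2 : A.2 < B.1.length := by
    rw [b1, List.length_append]; omega
  obtain ⟨v1, _⟩ := V_concat b2.1 b3 hA2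
  have e1 : V B.1 A.2 = (wd z).take k.val := by
    rw [b1, V_append a3, a4]; simp [part, wd]
  have e2 : V B.1 B.2 = (wd z).drop k.val := by
    rw [b4, part_true_eq, hV, len_mk]
    simp only
    have : (wd z).length - ((V z.1 z.2).length - k.val) = k.val := by
      have h := hk; unfold wd at h ⊢; omega
    rw [this]
  refine ⟨⟨?_, ?_⟩, ?_⟩
  · refine b2.concat ?_
    intro a b h
    simp only [Option.some.injEq, Sum.inr.injEq, Prod.mk.injEq] at h
    omega
  · simp
  · unfold wd
    simp only
    rw [v1, e1, e2]; rfl

theorem PT.rotAt {α : Type} [Enc α] {f : α → Gram M × ℕ} {g : α → BNz} (hf : PT f) (hg : PT g) :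
    PT (fun a => Rot.rotAt (f a) (g a)) := by
  have hA := PT.cut' false hf.fst' hf.snd' hg
  have hB := PT.cut' true hA.fst' hf.snd' (PT.bnzSub (PT.len (PT.mkEnv hf.fst') hf.snd') hg)
  exact (PT.append hB.fst' (PT.list1 (PT.some (PT.inr (hB.snd'.pair hA.snd'))))).pair
    hB.fst'.length

/-- the rotation -/
def rot (x y : Letter M) (z : Gram M × ℕ) : Gram M × ℕ :=
  match ((tab (stp x y) z.1)[z.2]?.getD e0).2.2.2 with
  | none => z
  | some k => rotAt z k

theorem rot1 (x y : Letter M) : PT (rot x y) ∧ ∀ z, GI z → (x, y) ∈ cpairs (wd z) →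
    GI (rot x y z) ∧ wd (rot x y z) ~r wd z ∧ (wd (rot x y z)).getLast? = some x ∧
      (wd (rot x y z)).head? = some y := by
  constructor
  · have h1 : PT (fun z : Gram M × ℕ => ((tab (stp x y) z.1)[z.2]?.getD e0).2.2.2) :=
      (PT.getDv PT.snd (PT.tb x y PT.fst) e0).snd'.snd'.snd'
    exact (PT.optCases (h := fun z k => rotAt z k) h1 PT.id (PT.rotAt PT.fst PT.snd)).congr
      (fun z => by
        unfold rot
        rcases ((All.tab (stp x y) z.1)[z.2]?.getD e0).2.2.2 with _ | k <;> rfl)
  · intro z hz hxy
    have e : ((tab (stp x y) z.1)[z.2]?.getD e0).2.2.2 = (fp x y (wd z)).map BNz.mk := by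
      rw [get_eq]; rfl
    unfold rot
    rw [e]
    rcases hf : fp x y (wd z) with _ | k
    · simp only [Option.map_none]
      obtain ⟨i1, i2⟩ := fp_none' hf hxy
      exact ⟨hz, List.IsRotated.refl _, i1, i2⟩
    · simp only [Option.map_some]
      obtain ⟨i1, i2, i3⟩ := fp_some x y _ k hf
      obtain ⟨j1, j2⟩ := rotAt_spec (k := ⟨k⟩) hz i1
      simp only at j2
      refine ⟨j1, ?_, ?_, ?_⟩
      · rw [j2]
        have h := List.isRotated_append (l := (wd z).drop k) (l' := (wd z).take k)
        rw [List.take_append_drop] at h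
        exact h
      · rw [j2, List.getLast?_append, i2]; rfl
      · rw [j2, List.head?_append, i3]; rfl

/-- the inverse -/
def inv (z : Gram M × ℕ) : Gram M × ℕ := (invG z.1, z.2 + z.1.length)

theorem inv1 : PT (inv (M := M)) ∧ ∀ z : Gram M × ℕ, GI z →
    GI (inv z) ∧ wd (inv z) = FreeGroup.invRev (wd z) := by
  constructor
  · exact (PT.invG PT.fst).pair (PT.add PT.snd PT.fst.length)
  · intro z hz
    refine ⟨⟨invG_good hz.1, ?_⟩, ?_⟩
    · have := hz.2
      simp only [inv, invG, List.length_append, List.length_map]; omega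
    · exact V_invG hz.1.1 z.2 hz.2

end Rot

/-- ROT -/
theorem rotStmt : RotStmt := fun _ =>
  ⟨fun x y => ⟨Rot.rot x y, Rot.rot1 x y⟩, ⟨Rot.inv, Rot.inv1⟩⟩

end Pool.Agent.Lib.MP_0c2883_lc.All
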