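import Pool.Agent.Lib.MP_0c2883_lc.All.SBMeas

/-!
# Step bound, module SBA: the number of steps is polynomial
-/

set_option autoImplicit false

namespace Pool.Agent.Lib.MP_0c2883_lc.All

open Pool.Agent.Lib.PolyTime List

namespace SBA

variable {M : ℕ}

theorem two_le_Bb (M : ℕ) : 2 ≤ Bb M := by
  unfold Bb
  calc 2 = 2 ^ 1 := by norm_num
    _ ≤ (2 * M + 2) ^ 1 := Nat.pow_le_pow_left (by omega) 1
    _ ≤ (2 * M + 2) ^ (M + 4) := Nat.pow_le_pow_right (by omega) (by omega)

theorem Bb_pos (M : ℕ) : 0 < Bb M := lt_of_lt_of_le (by norm_num) (two_le_Bb M)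

theorem pow_pos' (M j : ℕ) : 1 ≤ Bb M ^ j := Nat.one_le_pow _ _ (Bb_pos M)

theorem card_letter (M : ℕ) : Fintype.card (Letter M) = 2 * M := by
  unfold Letter
  rw [Fintype.card_prod, Fintype.card_fin, Fintype.card_bool, Nat.mul_comm]

/-- bound of the potential -/
def PotMax (M : ℕ) : ℕ := M * (2 * Kk M * Bb M ^ (24 * M + 25))

theorem yv_antitone (hY : YScaleStmt) (μ : St M) (j : ℕ) : μ.yv (j + 1) ≤ μ.yv j := by
  have h := (hY M μ).1 (Bb M ^ j) (Bb M ^ (j + 1)) (pow_pos' M j)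
    (Nat.pow_le_pow_right (Bb_pos M) (by omega))
  exact Nat.add_le_add h.1 h.2

theorem yv_le (hY : YScaleStmt) (μ : St M) (j : ℕ) : μ.yv j ≤ 2 * M := by
  have h := (hY M μ).2.1 (Bb M ^ j)
  have : μ.yv j = μ.X (Bb M ^ j) + Module.finrank (ZMod 2) (μ.Z (Bb M ^ j)) := rfl
  omega

theorem Pot_le (hB : BandStmt) (hY : YScaleStmt) (μ : St M) : μ.Pot ≤ PotMax M := by
  have h := (hB μ.yv (2 * M) (yv_antitone hY μ) (yv_le hY μ 0)).2.2.1
  unfold St.Pot PotMax
  calc _ ≤ ∑ _i : Fin M, 2 * Kk M * Bb M ^ (24 * M + 25) := by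
        refine Finset.sum_le_sum fun i _ => ?_
        split
        · exact Nat.zero_le _
        · rename_i h0
          apply Nat.div_le_of_le_mul
          have h1 : μ.x (i, true) < Bb M ^ (Nat.log (Bb M) (μ.x (i, true)) + 1) :=
            Nat.lt_pow_succ_log_self (two_le_Bb M) _
          have h2 := h (Nat.log (Bb M) (μ.x (i, true)))
          calc 2 * Kk M * μ.x (i, true)
              ≤ 2 * Kk M * Bb M ^ (μ.bt (μ.x (i, true)) + (24 * M + 25)) := by
                refine Nat.mul_le_mul_left _ (le_trans h1.le ?_)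
                refine Nat.pow_le_pow_right (Bb_pos M) ?_
                unfold St.bt
                omega
            _ = Bb M ^ μ.bt (μ.x (i, true)) * (2 * Kk M * Bb M ^ (24 * M + 25)) := by
                rw [pow_add]; ring
    _ = _ := by simp

theorem unused_le (μ : St M) : μ.unused ≤ M := by
  unfold St.unused
  exact le_trans (Finset.card_le_univ _) (by simp)

theorem quiet_lt (μ : St M) (J : ℕ) : μ.quiet J < St.A2 M J := by
  classical
  unfold St.quiet St.A2
  have h1 : μ.ncp (μ.Lam (μ.lam J)) ≤ 4 * M * M := by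
    unfold St.ncp
    refine le_trans (Finset.card_le_univ _) ?_
    rw [Fintype.card_prod, card_letter]
    nlinarith
  have h2 : μ.frh (μ.Lam (μ.lam J)) ≤ 2 * M := by
    unfold St.frh
    refine le_trans (Finset.card_le_univ _) ?_
    rw [card_letter]
  have h3 : (J - μ.lam J) * ((4 * M * M + 1) * (2 * M + 1)) ≤
      J * ((4 * M * M + 1) * (2 * M + 1)) := Nat.mul_le_mul_right _ (Nat.sub_le _ _)
  have h4 : μ.ncp (μ.Lam (μ.lam J)) * (2 * M + 1) ≤ 4 * M * M * (2 * M + 1) :=
    Nat.mul_le_mul_right _ h1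
  have h5 : (J + 2) * ((4 * M * M + 1) * (2 * M + 1)) =
      J * ((4 * M * M + 1) * (2 * M + 1)) + (4 * M * M + 1) * (2 * M + 1) +
        (4 * M * M * (2 * M + 1) + (2 * M + 1)) := by ring
  rw [h5]
  omega

/-- bound of the measure -/
def PsiMax (M J : ℕ) : ℕ := PotMax M * ((M + 1) * St.A2 M J) + M * St.A2 M J + St.A2 M J

theorem Psi_le (hB : BandStmt) (hY : YScaleStmt) (μ : St M) (J : ℕ) : μ.Psi J ≤ PsiMax M J := by
  unfold St.Psi PsiMax
  have h1 := Nat.mul_le_mul_right ((M + 1) * St.A2 M J) (Pot_le hB hY μ)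
  have h2 := Nat.mul_le_mul_right (St.A2 M J) (unused_le μ)
  have h3 := quiet_lt μ J
  omega

theorem Psi_step (hP : PotStmt) (hQ : QuietStmt) (μ μ' : St M) (J : ℕ)
    (hJ : ∀ p, μ.x p < Bb M ^ J) (hs : AStep (Kk M) μ μ') (hy : μ'.yv = μ.yv) :
    μ'.Psi J < μ.Psi J := by
  unfold St.Psi
  have hu := Nat.mul_le_mul_right (St.A2 M J) (unused_le μ')
  have hq := quiet_lt μ' J
  rcases hP M μ μ' hs hy with h | ⟨h1, h2⟩ | ⟨h1, h2, h3⟩
  · have h4 := Nat.mul_le_mul_right ((M + 1) * St.A2 M J) (Nat.succ_le_of_lt h)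
    rw [Nat.succ_mul] at h4
    have h5 : (M + 1) * St.A2 M J = M * St.A2 M J + St.A2 M J := by ring
    omega
  · have h4 := Nat.mul_le_mul_right ((M + 1) * St.A2 M J) h1
    have h5 := Nat.mul_le_mul_right (St.A2 M J) (Nat.succ_le_of_lt h2)
    rw [Nat.succ_mul] at h5
    omega
  · have h4 := Nat.mul_le_mul_right ((M + 1) * St.A2 M J) h1
    have h5 := hQ M μ μ' J hJ h3
    rw [h2]
    omega

/-- the total measure -/
noncomputable def Om (M J : ℕ) (μ : St M) : ℕ :=
  (∑ j ∈ Finset.range J, μ.yv j) * (PsiMax M J + 1) + μ.Psi J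

theorem yv_zero (hY : YScaleStmt) (μ : St M) (J j : ℕ) (hj : J ≤ j) (hJ : ∀ p, μ.x p < Bb M ^ J) :
    μ.yv j = 0 :=
  (hY M μ).2.2 (Bb M ^ j) fun p =>
    lt_of_lt_of_le (hJ p) (Nat.pow_le_pow_right (Bb_pos M) hj)

theorem Om_step (hP : PotStmt) (hQ : QuietStmt) (hYS : YStepStmt) (hB : BandStmt)
    (hY : YScaleStmt) (μ μ' : St M) (J : ℕ) (hJ : ∀ p, μ.x p < Bb M ^ J)
    (hJ' : ∀ p, μ'.x p < Bb M ^ J)
    (hs : AStep (Kk M) μ μ') : Om M J μ' < Om M J μ := by
  have h1 := (hYS M μ μ' hs).1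
  unfold Om
  by_cases hy : μ'.yv = μ.yv
  · have := Psi_step hP hQ μ μ' J hJ hs hy
    rw [hy]
    omega
  · have h2 : ∑ j ∈ Finset.range J, μ'.yv j < ∑ j ∈ Finset.range J, μ.yv j := by
      refine Finset.sum_lt_sum (fun j _ => h1 j) ?_
      by_contra hc
      push Not at hc
      apply hy
      funext j
      by_cases hj : j < J
      · exact le_antisymm (h1 j) (hc j (Finset.mem_range.mpr hj))
      · rw [yv_zero hY μ' J j (by omega) hJ', yv_zero hY μ J j (by omega) hJ]
    have h3 := Nat.mul_le_mul_right (PsiMax M J + 1) (Nat.succ_le_of_lt h2)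
    rw [Nat.succ_mul] at h3
    have h4 := Psi_le hB hY μ' J
    omega

theorem Om_le (hB : BandStmt) (hY : YScaleStmt) (μ : St M) (J : ℕ) :
    Om M J μ ≤ J * (2 * M) * (PsiMax M J + 1) + PsiMax M J := by
  unfold Om
  have h1 : ∑ j ∈ Finset.range J, μ.yv j ≤ J * (2 * M) := by
    calc _ ≤ ∑ _j ∈ Finset.range J, 2 * M := Finset.sum_le_sum fun j _ => yv_le hY μ j
      _ = _ := by simp
  have h2 := Nat.mul_le_mul_right (PsiMax M J + 1) h1
  have h3 := Psi_le hB hY μ J
  omega

end SBA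

open SBA in
/-- The step bound. -/
theorem sbA (hP : PotStmt) (hQ : QuietStmt) (hYS : YStepStmt) (hB : BandStmt)
    (hY : YScaleStmt) : SBStmt := by
  intro M
  refine ⟨fun n => (n + 1) * (2 * M) * (PsiMax M (n + 1) + 1) + PsiMax M (n + 1), ?_, ?_⟩
  · let a2 : Polynomial ℕ := (Polynomial.X + Polynomial.C 3) *
      Polynomial.C ((4 * M * M + 1) * (2 * M + 1))
    let ps : Polynomial ℕ := Polynomial.C (PotMax M * (M + 1) + M + 1) * a2
    refine ⟨(Polynomial.X + Polynomial.C 1) * Polynomial.C (2 * M) * (ps + Polynomial.C 1) + ps,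
      fun n => le_of_eq ?_⟩
    have ha : a2.eval n = St.A2 M (n + 1) := by
      simp only [a2, Polynomial.eval_mul, Polynomial.eval_add, Polynomial.eval_X,
        Polynomial.eval_C, St.A2]
    have hp : ps.eval n = PsiMax M (n + 1) := by
      simp only [ps, Polynomial.eval_mul, Polynomial.eval_C, ha, PsiMax]
      ring
    simp only [Polynomial.eval_mul, Polynomial.eval_add, Polynomial.eval_X,
      Polynomial.eval_C, hp]
  · intro n N run h0 hrun
    have hb : ∀ i ≤ N, ∀ p, (run i).x p ≤ 2 ^ n := by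
      intro i
      induction i with
      | zero => intro _; exact h0
      | succ i ih =>
        intro hi
        exact (hYS M _ _ (hrun i (by omega))).2 (2 ^ n) (ih (by omega))
    have hb' : ∀ i ≤ N, ∀ p, (run i).x p < Bb M ^ (n + 1) := by
      intro i hi p
      calc (run i).x p ≤ 2 ^ n := hb i hi p
        _ < 2 ^ (n + 1) := Nat.pow_lt_pow_right (by norm_num) (by omega)
        _ ≤ Bb M ^ (n + 1) := Nat.pow_le_pow_left (two_le_Bb M) _
    have hdec : ∀ i ≤ N, Om M (n + 1) (run i) + i ≤ Om M (n + 1) (run 0) := by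
      intro i
      induction i with
      | zero => intro _; omega
      | succ i ih =>
        intro hi
        have h1 := Om_step hP hQ hYS hB hY (run i) (run (i + 1)) (n + 1) (hb' i (by omega))
          (hb' (i + 1) hi) (hrun i (by omega))
        have h2 := ih (by omega)
        omega
    have h1 := hdec N le_rfl
    have h2 := Om_le hB hY (run 0) (n + 1)
    show N ≤ (n + 1) * (2 * M) * (PsiMax M (n + 1) + 1) + PsiMax M (n + 1)
    omega

end Pool.Agent.Lib.MP_0c2883_lc.All
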