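import Pool.Agent.Lib.MP_0c2883_lc.All.SBStmts

/-!
# SBB: bands of occupied indices
-/

set_option autoImplicit false

namespace Pool.Agent.Lib.MP_0c2883_lc.All

namespace SBB

theorem anti {y : ℕ → ℕ} (hy : ∀ j, y (j + 1) ≤ y j) {i j : ℕ} (h : i ≤ j) : y j ≤ y i := by
  induction h with
  | refl => exact le_refl _
  | step _ ih => exact (hy _).trans ih

theorem fg_le {P : ℕ → Prop} {inst : DecidablePred P} {n m : ℕ} (h : m ≤ n) (hm : P m) :
    m ≤ @Nat.findGreatest P inst n := Nat.le_findGreatest h hm

theorem fg_spec {P : ℕ → Prop} {inst : DecidablePred P} {n : ℕ} (h0 : P 0) :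
    P (@Nat.findGreatest P inst n) := Nat.findGreatest_spec (Nat.zero_le n) h0

theorem fg_bd {P : ℕ → Prop} {inst : DecidablePred P} {n : ℕ} :
    @Nat.findGreatest P inst n ≤ n := Nat.findGreatest_le n

end SBB

theorem sbBand : BandStmt := by
  classical
  intro y D hy h0
  have key : ∀ i i₀, i₀ ≤ i → (i₀ = 0 ∨ (6 < i₀ ∧ ∀ t, 1 ≤ t → t ≤ 6 → ¬ occ y (i₀ - t))) →
      i₀ ≤ bot y i := by
    intro i i₀ h1 h2
    unfold bot
    exact SBB.fg_le h1 h2
  have spec : ∀ i, bot y i = 0 ∨ (6 < bot y i ∧ ∀ t, 1 ≤ t → t ≤ 6 → ¬ occ y (bot y i - t)) := by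
    intro i
    unfold bot
    exact @SBB.fg_spec (fun i₀ => i₀ = 0 ∨ (6 < i₀ ∧ ∀ t, 1 ≤ t → t ≤ 6 → ¬ occ y (i₀ - t))) _ _
      (Or.inl rfl)
  have hle : ∀ i, bot y i ≤ i := by
    intro i
    unfold bot
    exact SBB.fg_bd
  refine ⟨hle, ?_, ?_, ?_⟩
  · intro i i' h
    exact key i' _ ((hle i).trans h) (spec i)
  · intro i
    by_contra hcon
    push Not at hcon
    have hstep : ∀ r, r ≤ D → y (bot y i + 12 * (r + 1)) < y (bot y i + 12 * r) := by
      intro r hr
      by_contra hno
      have hnot : ¬ (6 < bot y i + 12 * r + 7 ∧ ∀ t, 1 ≤ t → t ≤ 6 →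
          ¬ occ y (bot y i + 12 * r + 7 - t)) := by
        intro h
        have := key i (bot y i + 12 * r + 7) (by omega) (Or.inr h)
        omega
      push Not at hnot
      obtain ⟨t, ht1, ht2, ht3⟩ := hnot (by omega)
      rcases ht3 with h | h | h
      · omega
      · have h1 := SBB.anti hy (i := bot y i + 12 * r) (j := bot y i + 12 * r + 7 - t - 1) (by omega)
        have h2 := SBB.anti hy (i := bot y i + 12 * r + 7 - t) (j := bot y i + 12 * (r + 1))
          (by omega)
        omega
      · have h1 := SBB.anti hy (i := bot y i + 12 * r) (j := bot y i + 12 * r + 7 - t) (by omega)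
        have h2 := SBB.anti hy (i := bot y i + 12 * r + 7 - t + 1) (j := bot y i + 12 * (r + 1))
          (by omega)
        omega
    have hsum : ∀ r, r ≤ D + 1 → y (bot y i + 12 * r) + r ≤ y (bot y i) := by
      intro r
      induction r with
      | zero => intro _; simp
      | succ r ih =>
        intro hr
        have h1 := ih (by omega)
        have h2 := hstep r (by omega)
        omega
    have h1 := hsum (D + 1) le_rfl
    have h2 := SBB.anti hy (i := 0) (j := bot y i) (by omega)
    omega
  · intro i i' hi hi' hlt hne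
    have hmono : bot y i' ≤ bot y i := key i _ ((hle i').trans hlt.le) (spec i')
    have hlt' : bot y i' < bot y i := lt_of_le_of_ne hmono (Ne.symm hne)
    rcases spec i with h | ⟨h6, h⟩
    · omega
    · have h7 : ¬ bot y i ≤ i' := by
        intro hh
        have := key i' _ hh (spec i)
        omega
      have h8 : i' + 6 < bot y i := by
        by_contra hh
        have := h (bot y i - i') (by omega) (by omega)
        rw [show bot y i - (bot y i - i') = i' by omega] at this
        exact this hi'
      have := hle i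
      omega

end Pool.Agent.Lib.MP_0c2883_lc.All
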