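import Pool.Agent.Lib.MP_0c2883_lc.All.SBStmts
import Mathlib.Combinatorics.Pigeonhole

/-!
# The flow lemma: a largest maximiser of `#letters - #vertices` contains all heavy letters
-/

set_option autoImplicit false

namespace Pool.Agent.Lib.MP_0c2883_lc.All

namespace SBF



variable {M : ℕ}

theorem conn_symm {μ : St M} {p q : Letter M} (h : μ.Conn p q) : μ.Conn q p := by
  induction h with
  | refl => exact Relation.ReflTransGen.refl
  | tail _ h2 ih =>
    exact Relation.ReflTransGen.head (by rw [μ.symm]; exact h2) ih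

theorem mem_comp {μ : St M} {p q : Letter M} : q ∈ μ.comp p ↔ μ.Conn p q := by
  simp [St.comp]

theorem comp_eq {μ : St M} {p q : Letter M} (h : μ.Conn p q) : μ.comp p = μ.comp q := by
  ext r
  rw [mem_comp, mem_comp]
  exact ⟨fun h' => (conn_symm h).trans h', fun h' => Relation.ReflTransGen.trans h h'⟩

theorem conn_of_comp_eq {μ : St M} {p q : Letter M} (h : μ.comp p = μ.comp q) : μ.Conn p q := by
  have : q ∈ μ.comp q := mem_comp.2 Relation.ReflTransGen.refl
  rw [← h] at this
  exact mem_comp.1 this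

theorem x_linv (μ : St M) (p : Letter M) : μ.x (linv p) = μ.x p := (μ.bal p).symm

theorem x_fst (μ : St M) (p : Letter M) : μ.x p = μ.x (p.1, true) := by
  rcases p with ⟨i, s⟩
  cases s with
  | true => rfl
  | false =>
    have := x_linv μ (i, true)
    simpa [linv] using this

theorem x_eq_of_fst (μ : St M) {p q : Letter M} (h : p.1 = q.1) : μ.x p = μ.x q := by
  rw [x_fst μ p, x_fst μ q, h]

theorem le_x (μ : St M) (p q : Letter M) : μ.m p q ≤ μ.x q := by
  rw [μ.symm]
  exact Finset.single_le_sum (f := fun r => μ.m q r) (fun _ _ => Nat.zero_le _) (Finset.mem_univ p)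

/-- if all other half-edges at the vertex of `p` have weight at most `B`, then `p` has weight at
most `2 M B` -/
theorem x_le_of_nbrs (μ : St M) (p : Letter M) (B : ℕ)
    (h : ∀ q, μ.Conn p q → q ≠ p → μ.x q ≤ B) : μ.x p ≤ 2 * M * B := by
  have h1 : μ.x p ≤ ∑ _q : Letter M, B := by
    unfold St.x
    apply Finset.sum_le_sum
    intro q _
    by_cases hq : q = p
    · subst hq; rw [μ.diag]; exact Nat.zero_le _
    · rcases Nat.eq_zero_or_pos (μ.m p q) with h0 | h0
      · rw [h0]; exact Nat.zero_le _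
      · exact (le_x μ p q).trans (h q (Relation.ReflTransGen.single h0) hq)
  refine h1.trans ?_
  rw [Finset.sum_const, smul_eq_mul]
  apply Nat.mul_le_mul_right
  simp [Letter, Fintype.card_prod, Finset.card_univ, mul_comm]

/-- The peeling lemma: `G` is a set of letters such that each nonempty subset `G'` of `G` has a
half-edge `p` which is the only half-edge of `G'` at its vertex, the other half-edges at the vertex
being in `G` or light. Then all letters of `G` are light. -/
theorem peel (μ : St M) (s : ℕ) (G : Finset (Fin M))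
    (hG : ∀ G' ⊆ G, G'.Nonempty → ∃ p : Letter M, p.1 ∈ G' ∧
      (∀ q, μ.Conn p q → q.1 ∈ G' → q = p) ∧ (∀ q, μ.Conn p q → q.1 ∈ G ∨ μ.x q ≤ s)) :
    ∀ p : Letter M, p.1 ∈ G → μ.x p ≤ (2 * M) ^ G.card * s := by
  classical
  have key : ∀ n : ℕ, ∀ G' ⊆ G, G'.card = n →
      (∀ p : Letter M, p.1 ∈ G → p.1 ∉ G' → μ.x p ≤ (2 * M) ^ (G.card - n) * s) →
      ∀ p : Letter M, p.1 ∈ G → μ.x p ≤ (2 * M) ^ G.card * s := by
    intro n
    induction n with
    | zero =>
      intro G' _ hc h p hp
      rw [Finset.card_eq_zero] at hc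
      subst hc
      simpa using h p hp (Finset.notMem_empty _)
    | succ n ih =>
      intro G' hsub hc h
      have hne : G'.Nonempty := by
        rw [← Finset.card_pos]; omega
      have hle : G'.card ≤ G.card := Finset.card_le_card hsub
      obtain ⟨p, hp, huniq, hnb⟩ := hG G' hsub hne
      have hM : 1 ≤ 2 * M := by
        have : 0 < M := Fin.pos p.1
        omega
      have hpow : (2 * M) ^ (G.card - n) = 2 * M * (2 * M) ^ (G.card - (n + 1)) := by
        have : G.card - n = (G.card - (n + 1)) + 1 := by omega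
        rw [this, pow_succ, mul_comm]
      have h1 : 1 ≤ (2 * M) ^ (G.card - (n + 1)) := Nat.one_le_pow _ _ hM
      have hxp : μ.x p ≤ (2 * M) ^ (G.card - n) * s := by
        rw [hpow, mul_assoc]
        apply x_le_of_nbrs
        intro q hq hqp
        rcases hnb q hq with hqG | hqs
        · by_cases hqG' : q.1 ∈ G'
          · exact absurd (huniq q hq hqG') hqp
          · exact h q hqG hqG'
        · exact hqs.trans (Nat.le_mul_of_pos_left s h1)
      refine ih (G'.erase p.1) ((Finset.erase_subset _ _).trans hsub) ?_ ?_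
      · rw [Finset.card_erase_of_mem hp]; omega
      · intro q hq hq'
        by_cases hqp : q.1 = p.1
        · rw [x_eq_of_fst μ hqp]; exact hxp
        · have hq2 : q.1 ∉ G' := fun hc2 => hq' (Finset.mem_erase.2 ⟨hqp, hc2⟩)
          refine (h q hq hq2).trans ?_
          apply Nat.mul_le_mul_right
          exact Nat.pow_le_pow_right hM (by omega)
  intro p hp
  exact key G.card G (Finset.Subset.refl _) rfl (fun q hq hq' => absurd hq hq') p hp

/-- The half-edges of a set of letters. -/
def half (F : Finset (Fin M)) : Finset (Letter M) :=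
  Finset.univ.filter (fun p : Letter M => p.1 ∈ F)

theorem mem_half {F : Finset (Fin M)} {p : Letter M} : p ∈ half F ↔ p.1 ∈ F := by
  simp [half]

theorem card_half (F : Finset (Fin M)) : (half F).card = 2 * F.card := by
  have : half F = F ×ˢ (Finset.univ : Finset Bool) := by
    ext ⟨i, b⟩
    simp [half]
  rw [this, Finset.card_product]
  simp [mul_comm]

theorem vx_eq (μ : St M) (F : Finset (Fin M)) : μ.Vx F = (half F).image μ.comp := by
  unfold St.Vx half
  congr

theorem mem_vx {μ : St M} {F : Finset (Fin M)} {v : Finset (Letter M)} :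
    v ∈ μ.Vx F ↔ ∃ p : Letter M, p.1 ∈ F ∧ μ.comp p = v := by
  simp [St.Vx]

theorem vx_union (μ : St M) (F G : Finset (Fin M)) : μ.Vx (F ∪ G) = μ.Vx F ∪ μ.Vx G := by
  ext v
  rw [Finset.mem_union, mem_vx, mem_vx, mem_vx]
  constructor
  · rintro ⟨p, hp, h⟩
    rcases Finset.mem_union.1 hp with hp | hp
    · exact Or.inl ⟨p, hp, h⟩
    · exact Or.inr ⟨p, hp, h⟩
  · rintro (⟨p, hp, h⟩ | ⟨p, hp, h⟩)
    · exact ⟨p, Finset.mem_union_left _ hp, h⟩
    · exact ⟨p, Finset.mem_union_right _ hp, h⟩

theorem le_X (μ : St M) (s : ℕ) {F : Finset (Fin M)} (hF : F ⊆ μ.E s) :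
    F.card ≤ (μ.Vx F).card + μ.X s := by
  have h : F.card - (μ.Vx F).card ≤ μ.X s :=
    Finset.le_sup (f := fun F : Finset (Fin M) => F.card - (μ.Vx F).card)
      (Finset.mem_powerset.2 hF)
  omega

theorem exists_max (μ : St M) (s : ℕ) : ∃ F ⊆ μ.E s, (μ.Vx F).card + μ.X s = F.card := by
  rcases Nat.eq_zero_or_pos (μ.X s) with h0 | h0
  · refine ⟨∅, Finset.empty_subset _, ?_⟩
    rw [h0]
    simp [St.Vx]
  · obtain ⟨F, hF, he⟩ := Finset.exists_mem_eq_sup (μ.E s).powerset ⟨∅, by simp⟩
      (fun F : Finset (Fin M) => F.card - (μ.Vx F).card)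
    refine ⟨F, Finset.mem_powerset.1 hF, ?_⟩
    have : μ.X s = F.card - (μ.Vx F).card := he
    omega

/-- a largest maximiser -/
theorem exists_largest (μ : St M) (s : ℕ) : ∃ F ⊆ μ.E s, (μ.Vx F).card + μ.X s = F.card ∧
    ∀ F' ⊆ μ.E s, (μ.Vx F').card + μ.X s = F'.card → F'.card ≤ F.card := by
  classical
  obtain ⟨F0, hF0, he0⟩ := exists_max μ s
  obtain ⟨F, hF, hmax⟩ := Finset.exists_max_image
    ((μ.E s).powerset.filter (fun F => (μ.Vx F).card + μ.X s = F.card)) Finset.card
    ⟨F0, by simp [hF0, he0]⟩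
  rw [Finset.mem_filter, Finset.mem_powerset] at hF
  refine ⟨F, hF.1, hF.2, fun F' h1 h2 => hmax F' ?_⟩
  rw [Finset.mem_filter, Finset.mem_powerset]
  exact ⟨h1, h2⟩

/-- for a largest maximiser `F`: each nonempty set `G` of other letters meets at least `#G + 1`
vertices which are not vertices of `F` -/
theorem card_new (μ : St M) (s : ℕ) {F : Finset (Fin M)} (hF : F ⊆ μ.E s)
    (he : (μ.Vx F).card + μ.X s = F.card)
    (hmax : ∀ F' ⊆ μ.E s, (μ.Vx F').card + μ.X s = F'.card → F'.card ≤ F.card)
    {G : Finset (Fin M)} (hG : G ⊆ μ.E s \ F) (hne : G.Nonempty) :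
    G.card + 1 ≤ (μ.Vx G \ μ.Vx F).card := by
  classical
  have hdisj : Disjoint F G := by
    rw [Finset.disjoint_left]
    intro i hi hi'
    exact (Finset.mem_sdiff.1 (hG hi')).2 hi
  have hsub : F ∪ G ⊆ μ.E s := Finset.union_subset hF (hG.trans Finset.sdiff_subset)
  have h1 := le_X μ s hsub
  have h2 : (F ∪ G).card = F.card + G.card := Finset.card_union_of_disjoint hdisj
  have h3 : (μ.Vx (F ∪ G)).card = (μ.Vx F).card + (μ.Vx G \ μ.Vx F).card := by
    rw [vx_union, ← Finset.union_sdiff_self_eq_union, Finset.card_union_of_disjoint]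
    exact Finset.disjoint_sdiff
  have h4 := hmax (F ∪ G) hsub
  have h5 : 0 < G.card := Finset.card_pos.2 hne
  by_contra hlt
  have : (μ.Vx (F ∪ G)).card + μ.X s = (F ∪ G).card := by omega
  have := h4 this
  omega

/-- SBF -/
theorem flow : FlowStmt := by
  classical
  intro M μ s hs
  obtain ⟨F, hF, he, hmax⟩ := exists_largest μ s
  refine ⟨F, hF, he, ?_⟩
  have hdisj : ∀ p : Letter M, p.1 ∈ μ.E s \ F → μ.comp p ∉ μ.Vx F := by
    intro p hp hv
    have h1 := card_new μ s hF he hmax (G := {p.1}) (by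
      intro i hi; rw [Finset.mem_singleton] at hi; rw [hi]; exact hp) ⟨p.1, by simp⟩
    have h2 : μ.Vx {p.1} \ μ.Vx F ⊆ {μ.comp (linv p)} := by
      intro v hv2
      rw [Finset.mem_sdiff, mem_vx] at hv2
      obtain ⟨⟨q, hq, hqv⟩, hv3⟩ := hv2
      rw [Finset.mem_singleton] at hq
      rw [Finset.mem_singleton, ← hqv]
      have : q = p ∨ q = linv p := by
        rcases p with ⟨i, b⟩
        rcases q with ⟨j, c⟩
        simp only at hq
        subst hq
        cases b <;> cases c <;> simp [linv]
      rcases this with h | h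
      · subst h
        rw [← hqv] at hv3
        exact absurd hv hv3
      · rw [h]
    have h3 := Finset.card_le_card h2
    simp at h1 h3
    omega
  have hpeel := peel μ s (μ.E s \ F) (by
    intro G' hsub hne
    have hcard := card_new μ s hF he hmax hsub hne
    have hlt : (half G').card < (μ.Vx G').card * 2 := by
      rw [card_half]
      have : (μ.Vx G' \ μ.Vx F).card ≤ (μ.Vx G').card := Finset.card_le_card Finset.sdiff_subset
      omega
    obtain ⟨v, hv, hfib⟩ := Finset.exists_card_fiber_lt_of_card_lt_mul (f := μ.comp) hlt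
    obtain ⟨p, hp, hpv⟩ := mem_vx.1 hv
    refine ⟨p, hp, ?_, ?_⟩
    · intro q hq hq'
      have hle : ((half G').filter (fun x => μ.comp x = v)).card ≤ 1 := by omega
      rw [Finset.card_le_one] at hle
      exact hle q (by
        rw [Finset.mem_filter, mem_half]
        exact ⟨hq', by rw [← comp_eq hq, hpv]⟩) p (by
        rw [Finset.mem_filter, mem_half]
        exact ⟨hp, hpv⟩)
    · intro q hq
      by_cases hqE : q.1 ∈ μ.E s
      · left
        rw [Finset.mem_sdiff]
        refine ⟨hqE, fun hqF => ?_⟩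
        apply hdisj p (hsub hp)
        rw [mem_vx]
        exact ⟨q, hqF, (comp_eq hq).symm⟩
      · right
        rw [x_fst]
        simp only [St.E, Finset.mem_filter, Finset.mem_univ, true_and, not_le] at hqE
        exact hqE.le)
  intro p hp
  by_contra hpF
  have hB1 : 1 ≤ Bb M := Nat.one_le_pow _ _ (by omega)
  have hpE : p.1 ∈ μ.E s := by
    simp only [St.E, Finset.mem_filter, Finset.mem_univ, true_and]
    rw [← x_fst]
    exact (Nat.le_mul_of_pos_left s hB1).trans hp
  have h1 := hpeel p (Finset.mem_sdiff.2 ⟨hpE, hpF⟩)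
  have hM : 0 < M := Fin.pos p.1
  have h2 : (μ.E s \ F).card ≤ M := by
    have := Finset.card_le_univ (μ.E s \ F)
    simpa using this
  have h3 : (2 * M) ^ (μ.E s \ F).card < Bb M := by
    unfold Bb
    calc (2 * M) ^ (μ.E s \ F).card ≤ (2 * M) ^ M := Nat.pow_le_pow_right (by omega) h2
      _ < (2 * M + 2) ^ M := Nat.pow_lt_pow_left (by omega) (by omega)
      _ ≤ (2 * M + 2) ^ (M + 4) := Nat.pow_le_pow_right (by omega) (by omega)
  have h4 : (2 * M) ^ (μ.E s \ F).card * s < Bb M * s := Nat.mul_lt_mul_of_pos_right h3 hs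
  omega

end SBF

/-- SBF: there is a set of letters maximising `#letters - #vertices` which contains all heavy
letters -/
theorem sbFlow : FlowStmt := SBF.flow

end Pool.Agent.Lib.MP_0c2883_lc.All
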