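import Pool.Agent.Lib.MP_0c2883_lc.All.SBStmts

/-!
# SBJ: the invariant `Y` jumps around the weight of every letter
-/

set_option autoImplicit false

namespace Pool.Agent.Lib.MP_0c2883_lc.All

open Finset

namespace SBJ

variable {M : ℕ}

theorem eq_linv_of_fst {p q : Letter M} (h : p.1 = q.1) : p = q ∨ p = linv q := by
  rcases p with ⟨i, s⟩
  rcases q with ⟨j, t⟩
  simp only at h
  subst h
  cases s <;> cases t <;> simp [linv]

theorem x_linv (μ : St M) (p : Letter M) : μ.x (linv p) = μ.x p := (μ.bal p).symm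

theorem x_fst (μ : St M) {p q : Letter M} (h : p.1 = q.1) : μ.x p = μ.x q := by
  rcases eq_linv_of_fst h with h | h
  · rw [h]
  · rw [h, x_linv]

theorem mem_E (μ : St M) (s : ℕ) (p : Letter M) : p.1 ∈ μ.E s ↔ s ≤ μ.x p := by
  unfold St.E
  rw [mem_filter, x_fst μ (p := (p.1, true)) (q := p) rfl]
  simp

theorem conn_symm (μ : St M) {p q : Letter M} (h : μ.Conn p q) : μ.Conn q p := by
  unfold St.Conn at *
  induction h with
  | refl => exact Relation.ReflTransGen.refl
  | tail _ h2 ih =>
    exact Relation.ReflTransGen.head (by rw [μ.symm]; exact h2) ih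

theorem mem_comp (μ : St M) {p q : Letter M} : q ∈ μ.comp p ↔ μ.Conn p q := by
  unfold St.comp; simp

theorem self_mem (μ : St M) (p : Letter M) : p ∈ μ.comp p := (mem_comp μ).mpr Relation.ReflTransGen.refl

theorem comp_eq (μ : St M) {p q : Letter M} (h : q ∈ μ.comp p) : μ.comp q = μ.comp p := by
  have h' := (mem_comp μ).mp h
  ext r
  rw [mem_comp, mem_comp]
  exact ⟨fun h2 => Relation.ReflTransGen.trans h' h2, fun h2 => Relation.ReflTransGen.trans (conn_symm μ h') h2⟩

theorem mem_symm (μ : St M) {p q : Letter M} (h : q ∈ μ.comp p) : p ∈ μ.comp q := by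
  rw [comp_eq μ h]; exact self_mem μ p

theorem mem_comp_iff (μ : St M) {p q : Letter M} : q ∈ μ.comp p ↔ μ.comp q = μ.comp p :=
  ⟨comp_eq μ, fun h => by rw [← h]; exact self_mem μ q⟩

/-- the weight of a half-edge is at most the sum of the weights of the other half-edges at its vertex -/
theorem x_le (μ : St M) (p : Letter M) (D : ℕ) (h : ∀ q ∈ μ.comp p, q ≠ p → μ.x q ≤ D) :
    μ.x p ≤ 2 * M * D := by
  have hcard : (univ : Finset (Letter M)).card = 2 * M := by
    rw [card_univ, Fintype.card_prod, Fintype.card_fin, Fintype.card_bool, mul_comm]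
  calc μ.x p = ∑ q, μ.m p q := rfl
    _ ≤ ∑ _q : Letter M, D := by
        apply sum_le_sum
        intro q _
        by_cases h0 : μ.m p q = 0
        · rw [h0]; exact Nat.zero_le _
        · have hq : q ∈ μ.comp p :=
            (mem_comp μ).mpr (Relation.ReflTransGen.single (Nat.pos_of_ne_zero h0))
          have hqp : q ≠ p := by
            rintro rfl
            exact h0 (μ.diag q)
          have h1 := h q hq hqp
          have h2 : μ.m q p ≤ μ.x q :=
            single_le_sum (f := fun r => μ.m q r) (fun _ _ => Nat.zero_le _) (mem_univ p)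
          rw [μ.symm p q]
          exact h2.trans h1
    _ = 2 * M * D := by rw [sum_const, hcard, smul_eq_mul]

theorem mem_Vx (μ : St M) {F : Finset (Fin M)} {p : Letter M} (h : p.1 ∈ F) : μ.comp p ∈ μ.Vx F := by
  classical
  unfold St.Vx
  exact mem_image_of_mem _ (by simp [h])

theorem mem_Vx_iff (μ : St M) {F : Finset (Fin M)} {v : Finset (Letter M)} :
    v ∈ μ.Vx F ↔ ∃ p : Letter M, p.1 ∈ F ∧ μ.comp p = v := by
  classical
  unfold St.Vx
  simp

theorem Vx_union (μ : St M) (F G : Finset (Fin M)) : μ.Vx (F ∪ G) ⊆ μ.Vx F ∪ μ.Vx G := by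
  intro v hv
  obtain ⟨p, hp, rfl⟩ := (mem_Vx_iff μ).mp hv
  rcases mem_union.mp hp with h | h
  · exact mem_union_left _ (mem_Vx μ h)
  · exact mem_union_right _ (mem_Vx μ h)

theorem Vx_mono (μ : St M) {F G : Finset (Fin M)} (h : F ⊆ G) : μ.Vx F ⊆ μ.Vx G := by
  intro v hv
  obtain ⟨p, hp, rfl⟩ := (mem_Vx_iff μ).mp hv
  exact mem_Vx μ (h hp)

/-- a forest has a leaf different from any given vertex -/
theorem leaf (μ : St M) (v : Finset (Letter M)) (G : Finset (Fin M)) (hG : G.card < (μ.Vx G).card) :
    ∃ q : Letter M, q.1 ∈ G ∧ μ.comp q ≠ v ∧ ∀ q' ∈ μ.comp q, q'.1 ∈ G → q' = q := by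
  classical
  by_contra hcon
  push Not at hcon
  set H : Finset (Letter M) := univ.filter (fun p : Letter M => p.1 ∈ G) with hH
  have hHc : H.card = 2 * G.card := by
    have : H = G ×ˢ (univ : Finset Bool) := by
      ext ⟨i, b⟩; simp [hH]
    rw [this, card_product, card_univ, Fintype.card_bool, mul_comm]
  have hV : μ.Vx G = H.image μ.comp := by unfold St.Vx; rfl
  have hsum : H.card = ∑ w ∈ μ.Vx G, (H.filter (fun p => μ.comp p = w)).card := by
    rw [hV]
    exact card_eq_sum_card_image μ.comp H
  have h2 : ∀ w ∈ μ.Vx G, 2 ≤ (H.filter (fun p => μ.comp p = w)).card + (if w = v then 1 else 0) := by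
    intro w hw
    obtain ⟨q, hq, rfl⟩ := (mem_Vx_iff μ).mp hw
    have hq1 : q ∈ H.filter (fun p => μ.comp p = μ.comp q) := by simp [hH, hq]
    by_cases hv : μ.comp q = v
    · rw [if_pos hv]
      have : 0 < (H.filter (fun p => μ.comp p = μ.comp q)).card := card_pos.mpr ⟨q, hq1⟩
      omega
    · rw [if_neg hv]
      obtain ⟨q', hq', hq'G, hne⟩ := hcon q hq hv
      have hq2 : q' ∈ H.filter (fun p => μ.comp p = μ.comp q) := by
        simp [hH, hq'G, comp_eq μ hq']
      have : 1 < (H.filter (fun p => μ.comp p = μ.comp q)).card :=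
        one_lt_card.mpr ⟨q', hq2, q, hq1, hne⟩
      omega
  have h3 := sum_le_sum h2
  rw [sum_add_distrib, ← hsum, hHc, sum_const, smul_eq_mul] at h3
  have h4 : (∑ w ∈ μ.Vx G, if w = v then 1 else 0) ≤ 1 := by
    rw [sum_ite_eq']
    split <;> omega
  omega

/-- peeling a forest -/
theorem peel (μ : St M) (v : Finset (Letter M)) (T : Finset (Fin M)) (s : ℕ)
    (hT : ∀ G ⊆ T, G.Nonempty → G.card < (μ.Vx G).card)
    (hN : ∀ q : Letter M, q.1 ∈ T → μ.comp q ≠ v → ∀ q' ∈ μ.comp q, q'.1 ∈ T ∨ μ.x q' ≤ s) :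
    ∀ (k : ℕ) (G : Finset (Fin M)) (D : ℕ), G.card = k → G ⊆ T → s ≤ D →
      (∀ q : Letter M, q.1 ∈ T → q.1 ∉ G → μ.x q ≤ D) → ∀ q : Letter M, q.1 ∈ T → μ.x q ≤ (2 * M) ^ k * D := by
  intro k
  induction k with
  | zero =>
    intro G D hk _ _ hD q hq
    rw [card_eq_zero] at hk
    subst hk
    simpa using hD q hq (by simp)
  | succ k ih =>
    intro G D hk hGT hs hD q hq
    have hne : G.Nonempty := card_pos.mp (by omega)
    obtain ⟨q0, hq0, hv, huniq⟩ := leaf μ v G (hT G hGT hne)
    have hM : 1 ≤ 2 * M := by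
      have := q0.1.pos
      omega
    have h1 : μ.x q0 ≤ 2 * M * D := by
      apply x_le
      intro q' hq' hne'
      rcases hN q0 (hGT hq0) hv q' hq' with h | h
      · exact hD q' h fun h2 => hne' (huniq q' hq' h2)
      · exact h.trans hs
    have h2 := ih (G.erase q0.1) (2 * M * D) (by rw [card_erase_of_mem hq0, hk]; rfl)
      ((erase_subset _ _).trans hGT) (hs.trans (Nat.le_mul_of_pos_left _ hM)) (by
        intro r hr hrG
        by_cases h : r.1 = q0.1
        · rw [x_fst μ h]; exact h1
        · have : r.1 ∉ G := fun h3 => hrG (mem_erase.mpr ⟨h, h3⟩)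
          exact (hD r hr this).trans (Nat.le_mul_of_pos_left _ hM)) q hq
    calc μ.x q ≤ (2 * M) ^ k * (2 * M * D) := h2
      _ = (2 * M) ^ (k + 1) * D := by ring

/-- moves inside the vertices and along the letters of `A` -/
def Mv (μ : St M) (A : Finset (Fin M)) (q q' : Letter M) : Prop :=
  q' ∈ μ.comp q ∨ (q' = linv q ∧ q.1 ∈ A)

/-- paths give chains modulo two with given boundary -/
theorem chain (μ : St M) (A : Finset (Fin M)) {p q : Letter M} (h : Relation.ReflTransGen (Mv μ A) p q) :
    ∃ z : Fin M → ZMod 2, (∀ i, i ∉ A → z i = 0) ∧ ∀ r, ∑ q' ∈ μ.comp r, z q'.1 =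
      (if p ∈ μ.comp r then 1 else 0) + (if q ∈ μ.comp r then 1 else 0) := by
  induction h with
  | refl =>
    refine ⟨0, fun _ _ => rfl, fun r => ?_⟩
    split
    · simp only [Pi.zero_apply, sum_const_zero]; decide
    · simp
  | @tail q q' _ h2 ih =>
    obtain ⟨z, hz, hb⟩ := ih
    rcases h2 with h2 | ⟨rfl, hA⟩
    · refine ⟨z, hz, fun r => ?_⟩
      rw [hb r]
      congr 1
      have : q ∈ μ.comp r ↔ q' ∈ μ.comp r := by
        rw [mem_comp_iff, mem_comp_iff, comp_eq μ h2]
      simp only [this]
    · refine ⟨fun i => z i + if i = q.1 then 1 else 0, ?_, fun r => ?_⟩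
      · intro i hi
        have : i ≠ q.1 := by rintro rfl; exact hi hA
        simp [hz i hi, this]
      · rw [sum_add_distrib, hb r]
        have h3 : ∀ q' : Letter M, (if q'.1 = q.1 then (1 : ZMod 2) else 0) =
            (if q' = q then 1 else 0) + (if q' = linv q then 1 else 0) := by
          intro q'
          by_cases h : q'.1 = q.1
          · rw [if_pos h]
            rcases eq_linv_of_fst h with h4 | h4
            · rw [if_pos h4, if_neg, add_zero]
              rw [h4]; exact fun h5 => linv_ne q h5.symm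
            · rw [if_pos h4, if_neg, zero_add]
              rw [h4]; exact linv_ne q
          · rw [if_neg h, if_neg, if_neg, add_zero]
            · rintro rfl; exact h rfl
            · rintro rfl; exact h rfl
        simp only [h3]
        rw [sum_add_distrib, sum_ite_eq', sum_ite_eq']
        have h5 : ∀ x y t : ZMod 2, x + y + (y + t) = x + t := by decide
        exact h5 _ _ _

end SBJ

open SBJ in
theorem sbJump : JumpStmt := by
  classical
  intro M μ s s' p hs hp hp'
  have hB : 1 ≤ Bb M := Nat.one_le_pow _ _ (by omega)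
  have hss : s ≤ s' := (Nat.le_mul_of_pos_left s hB).trans (hp.trans hp'.le)
  have hEE : μ.E s' ⊆ μ.E s := by
    intro i hi
    have := (mem_E μ s' (i, true)).mp hi
    exact (mem_E μ s (i, true)).mpr (hss.trans this)
  have hXX : μ.X s' ≤ μ.X s := sup_mono (powerset_mono.mpr hEE)
  have hZZ : μ.Z s' ≤ μ.Z s := by
    intro z hz
    exact ⟨fun i hi => hz.1 i fun h => hi (hEE h), hz.2⟩
  have hfr : Module.finrank (ZMod 2) (μ.Z s') ≤ Module.finrank (ZMod 2) (μ.Z s) :=
    Submodule.finrank_mono hZZ
  unfold St.Y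
  by_contra hcon
  have hX : μ.X s' = μ.X s := by omega
  have hZd : Module.finrank (ZMod 2) (μ.Z s') = Module.finrank (ZMod 2) (μ.Z s) := by omega
  have hZ : μ.Z s' = μ.Z s := Submodule.eq_of_le_of_finrank_eq hZZ hZd
  clear hcon hfr hZd
  set e := p.1 with he
  have heE : e ∈ μ.E s := (mem_E μ s p).mpr ((Nat.le_mul_of_pos_left s hB).trans hp)
  have heE' : e ∉ μ.E s' := fun h => by
    have := (mem_E μ s' p).mp h
    omega
  -- general upper bound
  have hup : ∀ F ⊆ μ.E s, F.card ≤ (μ.Vx F).card + μ.X s := by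
    intro F hF
    have h1 : F.card - (μ.Vx F).card ≤ μ.X s :=
      le_sup (f := fun F => F.card - (μ.Vx F).card) (mem_powerset.mpr hF)
    omega
  -- the largest maximiser
  set A := (μ.E s).erase e with hA
  have hAE : μ.E s' ⊆ A := by
    intro i hi
    exact mem_erase.mpr ⟨fun h => heE' (h ▸ hi), hEE hi⟩
  have hex : ∃ F, F ⊆ A ∧ F.card = (μ.Vx F).card + μ.X s := by
    obtain ⟨F, hF, hFe⟩ := exists_mem_eq_sup (μ.E s').powerset ⟨∅, empty_mem_powerset _⟩
      (fun F => F.card - (μ.Vx F).card)
    by_cases h0 : μ.X s = 0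
    · refine ⟨∅, empty_subset _, ?_⟩
      rw [h0]
      have : μ.Vx ∅ = ∅ := by
        rw [eq_empty_iff_forall_notMem]
        intro v hv
        obtain ⟨q, hq, _⟩ := (mem_Vx_iff μ).mp hv
        simp at hq
      rw [this]; simp
    · refine ⟨F, (mem_powerset.mp hF).trans hAE, ?_⟩
      have : μ.X s' = F.card - (μ.Vx F).card := hFe
      omega
  obtain ⟨F, ⟨hFA, hFX⟩, hFmax⟩ : ∃ F, (F ⊆ A ∧ F.card = (μ.Vx F).card + μ.X s) ∧
      ∀ F', (F' ⊆ A ∧ F'.card = (μ.Vx F').card + μ.X s) → F'.card ≤ F.card := by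
    obtain ⟨F0, hF0⟩ := hex
    obtain ⟨F, hF, hmax⟩ := exists_max_image
      (A.powerset.filter (fun F => F.card = (μ.Vx F).card + μ.X s)) card
      ⟨F0, by simp [hF0.1, hF0.2]⟩
    refine ⟨F, by simpa using hF, fun F' hF' => hmax F' (by simp [hF'.1, hF'.2])⟩
  have hAs : A ⊆ μ.E s := erase_subset _ _
  -- adding sets
  have hadd : ∀ G, G ⊆ A → Disjoint F G → G.Nonempty → (μ.Vx F).card + G.card < (μ.Vx (F ∪ G)).card := by
    intro G hGA hdis hne
    by_contra hcon
    push Not at hcon
    have h1 := hup (F ∪ G) (union_subset (hFA.trans hAs) (hGA.trans hAs))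
    have h2 : (F ∪ G).card = F.card + G.card := card_union_of_disjoint hdis
    have h3 : 0 < G.card := card_pos.mpr hne
    have h4 := hFmax (F ∪ G) ⟨union_subset hFA hGA, by omega⟩
    omega
  -- letters outside `F` do not touch the vertices of `F`
  have hout : ∀ q : Letter M, q.1 ∈ A → q.1 ∉ F → μ.comp q ∉ μ.Vx F := by
    intro q hqA hqF hmem
    have h1 := hadd {q.1} (singleton_subset_iff.mpr hqA) (disjoint_singleton_right.mpr hqF)
      (singleton_nonempty _)
    have h2 : μ.Vx (F ∪ {q.1}) ⊆ insert (μ.comp (linv q)) (μ.Vx F) := by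
      intro v hv
      obtain ⟨r, hr, rfl⟩ := (mem_Vx_iff μ).mp hv
      rcases mem_union.mp hr with h | h
      · exact mem_insert_of_mem (mem_Vx μ h)
      · rcases eq_linv_of_fst (mem_singleton.mp h) with h3 | h3
        · rw [h3]; exact mem_insert_of_mem hmem
        · rw [h3]; exact mem_insert_self _ _
    have h3 := (card_le_card h2).trans (card_insert_le _ _)
    rw [card_singleton] at h1
    omega
  have hforest : ∀ G, G ⊆ A → Disjoint F G → G.Nonempty → G.card < (μ.Vx G).card := by
    intro G hGA hdis hne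
    have h1 := hadd G hGA hdis hne
    have h2 := (card_le_card (Vx_union μ F G)).trans (card_union_le _ _)
    omega
  have heF : e ∉ F := fun h => by
    have := hFA h
    rw [hA] at this
    exact absurd this (notMem_erase _ _)
  -- an end of `e` outside
  obtain ⟨p', hp'1, hp'F⟩ : ∃ p' : Letter M, p'.1 = e ∧ μ.comp p' ∉ μ.Vx F := by
    by_contra hcon
    push Not at hcon
    have h1 : μ.Vx (insert e F) ⊆ μ.Vx F := by
      intro v hv
      obtain ⟨r, hr, rfl⟩ := (mem_Vx_iff μ).mp hv
      rcases mem_insert.mp hr with h | h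
      · exact hcon r h
      · exact mem_Vx μ h
    have h2 := hup (insert e F) (insert_subset heE (hFA.trans hAs))
    have h3 := card_le_card h1
    rw [card_insert_of_notMem heF] at h2
    omega
  have hxp' : μ.x p' = μ.x p := x_fst μ hp'1
  have heA : e ∉ A := notMem_erase _ _
  by_cases hcase : Relation.ReflTransGen (Mv μ A) p' (linv p')
  · -- a cycle through `e`
    obtain ⟨z, hz, hb⟩ := chain μ A hcase
    have hz' : (fun i => z i + if i = e then (1 : ZMod 2) else 0) ∈ μ.Z s := by
      refine ⟨fun i hi => ?_, fun r => ?_⟩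
      · have h1 : i ≠ e := by rintro rfl; exact hi heE
        have h2 : i ∉ A := fun h => hi (hAs h)
        simp [hz i h2, h1]
      · rw [sum_add_distrib, hb r]
        have h3 : ∀ q' : Letter M, (if q'.1 = e then (1 : ZMod 2) else 0) =
            (if q' = p' then 1 else 0) + (if q' = linv p' then 1 else 0) := by
          intro q'
          by_cases h : q'.1 = e
          · rw [if_pos h]
            rcases eq_linv_of_fst (h.trans hp'1.symm) with h4 | h4
            · rw [if_pos h4, if_neg, add_zero]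
              rw [h4]; exact fun h5 => linv_ne p' h5.symm
            · rw [if_pos h4, if_neg, zero_add]
              rw [h4]; exact linv_ne p'
          · rw [if_neg h, if_neg, if_neg, add_zero]
            · rintro rfl; exact h hp'1
            · rintro rfl; exact h hp'1
        simp only [h3]
        rw [sum_add_distrib, sum_ite_eq', sum_ite_eq']
        have h5 : ∀ x y : ZMod 2, x + y + (x + y) = 0 := by decide
        exact h5 _ _
    rw [← hZ] at hz'
    have h1 := hz'.1 e heE'
    simp [hz e heA] at h1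
  · -- peeling
    have hS : ∀ q, Relation.ReflTransGen (Mv μ A) p' q → μ.comp q ∉ μ.Vx F := by
      intro q hq
      induction hq with
      | refl => exact hp'F
      | @tail q q' _ h2 ih =>
        rcases h2 with h2 | ⟨rfl, hqA⟩
        · rw [comp_eq μ h2]; exact ih
        · exact hout (linv q) hqA fun h => ih (mem_Vx μ h)
    set T := A.filter (fun i => Relation.ReflTransGen (Mv μ A) p' (i, true)) with hTdef
    have hT1 : ∀ q : Letter M, q.1 ∈ A → Relation.ReflTransGen (Mv μ A) p' q → q.1 ∈ T := by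
      intro q hqA hq
      refine mem_filter.mpr ⟨hqA, ?_⟩
      rcases eq_linv_of_fst (p := (q.1, true)) (q := q) rfl with h | h
      · rw [h]; exact hq
      · rw [h]; exact hq.tail (Or.inr ⟨rfl, hqA⟩)
    have hT2 : ∀ q : Letter M, q.1 ∈ T → Relation.ReflTransGen (Mv μ A) p' q := by
      intro q hq
      obtain ⟨hqA, hq'⟩ := mem_filter.mp hq
      rcases eq_linv_of_fst (p := q) (q := (q.1, true)) rfl with h | h
      · rw [h]; exact hq'
      · have := hq'.tail (Or.inr ⟨rfl, hqA⟩ : Mv μ A (q.1, true) (linv (q.1, true)))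
        rwa [← h] at this
    have hTA : T ⊆ A := filter_subset _ _
    have hTF : ∀ G, G ⊆ T → Disjoint F G := by
      intro G hG
      rw [disjoint_left]
      intro i hiF hiG
      exact hS (i, true) (hT2 (i, true) (hG hiG)) (mem_Vx μ (p := (i, true)) hiF)
    -- neighbours
    have hnb : ∀ q, Relation.ReflTransGen (Mv μ A) p' q → q ≠ p' → q.1 ∈ T ∨ μ.x q ≤ s := by
      intro q hq hne
      by_cases hqE : q.1 ∈ μ.E s
      · left
        by_cases hqe : q.1 = e
        · exfalso
          rcases eq_linv_of_fst (hqe.trans hp'1.symm) with h | h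
          · exact hne h
          · rw [h] at hq; exact hcase hq
        · exact hT1 q (mem_erase.mpr ⟨hqe, hqE⟩) hq
      · right
        rw [mem_E] at hqE
        omega
    have hpeel := peel μ (μ.comp p') T s
      (fun G hG hne => hforest G (hG.trans hTA) (hTF G hG) hne)
      (fun q hq hv q' hq' => hnb q' ((hT2 q hq).tail (Or.inl hq')) (by
        rintro rfl
        exact hv (comp_eq μ hq').symm)) T.card T s rfl (Subset.refl _) le_rfl
      (fun q hq hq' => absurd hq hq')
    have hM : 1 ≤ 2 * M := by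
      have := p.1.pos
      omega
    have hTc : T.card ≤ M := by
      have := card_le_univ T
      rwa [Fintype.card_fin] at this
    have hfin : μ.x p' ≤ 2 * M * ((2 * M) ^ M * s) := by
      apply x_le
      intro q hq hne
      rcases hnb q (Relation.ReflTransGen.single (Or.inl hq)) hne with h | h
      · exact (hpeel q h).trans (Nat.mul_le_mul_right _ (Nat.pow_le_pow_right hM hTc))
      · exact h.trans (Nat.le_mul_of_pos_left _ (Nat.pow_pos hM))
    have hlt : 2 * M * ((2 * M) ^ M * s) < Bb M * s := by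
      rw [← mul_assoc, ← pow_succ']
      apply Nat.mul_lt_mul_of_pos_right _ hs
      unfold Bb
      calc (2 * M) ^ (M + 1) < (2 * M + 2) ^ (M + 1) := Nat.pow_lt_pow_left (by omega) (by omega)
        _ ≤ (2 * M + 2) ^ (M + 4) := Nat.pow_le_pow_right (by omega) (by omega)
    omega

end Pool.Agent.Lib.MP_0c2883_lc.All
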