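import Pool.Agent.Lib.MP_0c2883_lc.All.SBMeas

/-!
# Quiet steps decrease the quiet part of the measure
-/

set_option autoImplicit false

namespace Pool.Agent.Lib.MP_0c2883_lc.All

open Pool.Agent.Lib.PolyTime List

namespace SBQ

variable {M : ℕ}

theorem x_linv (μ : St M) (p : Letter M) : μ.x (linv p) = μ.x p := (μ.bal p).symm

theorem le_x (μ : St M) (p q : Letter M) : μ.m p q ≤ μ.x p :=
  Finset.single_le_sum (f := fun q => μ.m p q) (fun _ _ => Nat.zero_le _) (Finset.mem_univ q)

theorem le_h (μ : St M) {C : Letter M → Bool} {c : Letter M} (hc : C c = true) :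
    μ.x c ≤ μ.h C := by
  have := Finset.le_sup (s := Finset.univ) (f := fun c => if C c then μ.x c else 0)
    (Finset.mem_univ c)
  simp only [hc, if_true] at this
  exact this

theorem exists_h (μ : St M) {C : Letter M → Bool} {d : Letter M} (hd : C d = true) :
    ∃ c, C c = true ∧ μ.x c = μ.h C := by
  obtain ⟨c, -, hc⟩ := Finset.exists_mem_eq_sup (Finset.univ : Finset (Letter M))
    ⟨d, Finset.mem_univ d⟩ (fun c => if C c then μ.x c else 0)
  by_cases h : C c = true
  · exact ⟨c, h, by simpa [h, St.h] using hc.symm⟩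
  · refine ⟨d, hd, le_antisymm (le_h μ hd) ?_⟩
    have h0 : μ.h C = 0 := by simpa [h, St.h] using hc
    omega

theorem cand_pos {μ : St M} {C : Letter M → Bool} {a p : Letter M} (h : μ.Cand C a)
    (hp : C p = true) : 0 < μ.x p := by
  obtain ⟨c, hc, hca⟩ := h.exit
  rcases (h.conn p c hp hc).cases_head with rfl | ⟨q, ⟨-, -, hq⟩, -⟩
  · exact lt_of_lt_of_le hca (le_x μ _ _)
  · exact lt_of_lt_of_le hq (le_x μ _ _)

theorem one_lt_Bb (M : ℕ) : 1 < Bb M := by
  unfold Bb
  exact Nat.one_lt_pow (by omega) (by omega)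

theorem le_Bb (M : ℕ) : 2 * M + 2 ≤ Bb M := by
  unfold Bb
  calc 2 * M + 2 = (2 * M + 2) ^ 1 := (pow_one _).symm
    _ ≤ (2 * M + 2) ^ (M + 4) := Nat.pow_le_pow_right (by omega) (by omega)

theorem Bpow_pos (M j : ℕ) : 1 ≤ Bb M ^ j := Nat.one_le_pow _ _ (by have := one_lt_Bb M; omega)

theorem yv_anti (hY : YScaleStmt) (μ : St M) (j : ℕ) : μ.yv (j + 1) ≤ μ.yv j := by
  have h := (hY M μ).1 (Bb M ^ j) (Bb M ^ (j + 1)) (Bpow_pos M j)
    (Nat.pow_le_pow_right (by have := one_lt_Bb M; omega) (by omega))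
  simp only [St.yv, St.Y]
  omega

/-- The index of a weight is occupied. -/
theorem occ_log (hJ : JumpStmt) (μ : St M) (p : Letter M) (hp : 0 < μ.x p) :
    occ μ.yv (Nat.log (Bb M) (μ.x p)) := by
  have hB := one_lt_Bb M
  set i := Nat.log (Bb M) (μ.x p) with hi
  by_cases h0 : i = 0
  · exact Or.inl h0
  · right
    have h1 : Bb M ^ i ≤ μ.x p := Nat.pow_log_le_self _ (by omega)
    have h2 : μ.x p < Bb M ^ (i + 1) := Nat.lt_pow_succ_log_self hB _
    obtain ⟨k, hk⟩ : ∃ k, i = k + 1 := ⟨i - 1, by omega⟩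
    have h3 : Bb M * Bb M ^ k ≤ μ.x p := by
      rw [hk, pow_succ] at h1
      rwa [mul_comm]
    have := hJ M μ (Bb M ^ k) (Bb M ^ (i + 1)) p (Bpow_pos M k) h3 h2
    have e : i - 1 = k := by omega
    by_contra hcon
    push Not at hcon
    have c1 := hcon.1
    have c2 := hcon.2
    rw [e] at c1
    have t : μ.yv (i + 1) < μ.yv k := this
    omega

theorem bt_mono (hY : YScaleStmt) (hBd : BandStmt) (μ : St M) {w w' : ℕ} (h : w ≤ w') :
    μ.bt w ≤ μ.bt w' :=
  (hBd μ.yv (μ.yv 0) (yv_anti hY μ) le_rfl).2.1 _ _ (Nat.log_mono_right h)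

theorem bt_le (hY : YScaleStmt) (hBd : BandStmt) (μ : St M) (w : ℕ) :
    μ.bt w ≤ Nat.log (Bb M) w :=
  (hBd μ.yv (μ.yv 0) (yv_anti hY μ) le_rfl).1 _

theorem lam_symm (μ : St M) (l : ℕ) (p : Letter M) : μ.Lam l p ↔ μ.Lam l (linv p) := by
  simp only [St.Lam, x_linv]

/-- A candidate lies in the bands up to that of its height. -/
theorem cand_lam (hY : YScaleStmt) (hBd : BandStmt) {μ : St M} {C : Letter M → Bool}
    {a : Letter M} (h : μ.Cand C a) {p : Letter M} (hp : C p = true) :
    μ.Lam (μ.bt (μ.h C)) p :=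
  ⟨cand_pos h hp, bt_mono hY hBd μ (le_h μ hp)⟩

theorem lam_le (μ : St M) (J : ℕ) : μ.lam J ≤ J := Nat.sInf_le (Or.inl rfl)

theorem lam_le_of {μ : St M} {C : Letter M → Bool} {a : Letter M} (h : μ.Cand C a) (J : ℕ) :
    μ.lam J ≤ μ.bt (μ.h C) := Nat.sInf_le (Or.inr ⟨C, a, h, rfl⟩)

theorem le_lam {μ : St M} {J l : ℕ} (hl : l ≤ J)
    (h : ∀ C a, μ.Cand C a → l ≤ μ.bt (μ.h C)) : l ≤ μ.lam J := by
  refine le_csInf ⟨J, Or.inl rfl⟩ ?_
  rintro b (rfl | ⟨C, a, hC, rfl⟩)
  · exact hl
  · exact h C a hC

theorem card_le (P : Letter M → Prop) [DecidablePred P] :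
    (Finset.univ.filter P).card ≤ 2 * M := by
  refine (Finset.card_le_univ _).trans ?_
  simp [Fintype.card_prod, mul_comm]

theorem frh_le (μ : St M) (L : Letter M → Prop) : μ.frh L ≤ 2 * M := by
  classical
  exact card_le _

theorem ncp_le (μ : St M) (L : Letter M → Prop) : μ.ncp L ≤ 4 * M * M := by
  refine (Finset.card_le_univ _).trans ?_
  simp only [Fintype.card_prod, Fintype.card_fin, Fintype.card_bool]
  nlinarith

/-- The absence of candidates inside `L'` is preserved along a chain. -/
theorem chain_U (hU : UStmt) {C : Letter M → Bool} {L L' : Letter M → Prop}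
    (hsym : ∀ p, L' p ↔ L' (linv p)) (hLL : ∀ p, L' p → L p) (hC : ∃ c, C c = true ∧ ¬ L' c)
    {μ μ' : St M} (hq : QChain C L μ μ')
    (h : ∀ D b, (∀ p, D p = true → L' p) → ¬ μ.Cand D b) :
    ∀ D b, (∀ p, D p = true → L' p) → ¬ μ'.Cand D b := by
  induction hq with
  | single μ' a hCa hs hL => exact hU M μ μ' C a L' hsym hs hCa hC (fun h => hL (hLL _ h)) h
  | tail μ' μ'' a _ hCa hs hL ih =>
    exact hU M μ' μ'' C a L' hsym hs hCa hC (fun h => hL (hLL _ h)) ih

theorem chain_conn (hCl : ClusterStmt) {C : Letter M → Bool} {L : Letter M → Prop}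
    (hsym : ∀ p, L p ↔ L (linv p)) (hCL : ∀ p, C p = true → L p) {μ μ' : St M}
    (hq : QChain C L μ μ') : ∀ p q, μ.ConnL L p q → μ'.ConnL L p q := by
  induction hq with
  | single μ' a hCa hs hL => exact (hCl M μ μ' C a L hsym hs hCL hL).1
  | tail μ' μ'' a _ hCa hs hL ih =>
    exact fun p q h => (hCl M μ' μ'' C a L hsym hs hCL hL).1 p q (ih p q h)

theorem chain_dich (hCl : ClusterStmt) {C : Letter M → Bool} {L : Letter M → Prop}
    (hsym : ∀ p, L p ↔ L (linv p)) (hCL : ∀ p, C p = true → L p) {μ μ' : St M}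
    (hq : QChain C L μ μ') :
    (∃ c y, C c = true ∧ C y = false ∧ L y ∧ μ'.ConnL L c y) ∨
    ((∀ p q, L p → L q → μ'.m p q = μ.m p q) ∧
      (∀ p q, L p → C p = false → μ'.m p q = μ.m p q)) := by
  have key : ∀ (μ μ' : St M) (a : Letter M), ASlide μ μ' C a → ¬ L a →
      (∃ c y, C c = true ∧ C y = false ∧ L y ∧ μ'.ConnL L c y) ∨
      ((∀ p q, L p → L q → μ'.m p q = μ.m p q) ∧
        (∀ p q, L p → C p = false → μ'.m p q = μ.m p q)) := by
    intro μ μ' a hs hL
    by_cases hex : ∃ c y, C c = true ∧ C y = false ∧ L y ∧ 0 < μ'.m c y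
    · obtain ⟨c, y, h1, h2, h3, h4⟩ := hex
      exact Or.inl ⟨c, y, h1, h2, h3, Relation.ReflTransGen.single ⟨hCL c h1, h3, h4⟩⟩
    · right
      refine (hCl M μ μ' C a L hsym hs hCL hL).2 ?_
      intro c y h1 h2 h3
      by_contra h4
      exact hex ⟨c, y, h1, h2, h3, Nat.pos_of_ne_zero h4⟩
  induction hq with
  | single μ' a hCa hs hL => exact key μ μ' a hs hL
  | tail μ' μ'' a _ hCa hs hL ih =>
    rcases ih with ⟨c, y, h1, h2, h3, h4⟩ | ⟨h1, h2⟩
    · exact Or.inl ⟨c, y, h1, h2, h3, (hCl M μ' μ'' C a L hsym hs hCL hL).1 _ _ h4⟩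
    · rcases key μ' μ'' a hs hL with h | ⟨h3, h4⟩
      · exact Or.inl h
      · exact Or.inr ⟨fun p q hp hq => (h3 p q hp hq).trans (h1 p q hp hq),
          fun p q hp hq => (h4 p q hp hq).trans (h2 p q hp hq)⟩

/-- The weights of the elements of `C` do not change along a chain. -/
theorem chain_x (hW : WSlideStmt) {C : Letter M → Bool} {L : Letter M → Prop} {μ μ' : St M}
    (hq : QChain C L μ μ') : ∀ c, C c = true → μ'.x c = μ.x c := by
  have key : ∀ (μ μ' : St M) (a : Letter M), ASlide μ μ' C a → ∀ c, C c = true →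
      μ'.x c = μ.x c := by
    intro μ μ' a hs c hc
    refine (hW M μ μ' C a hs).2.1 c ?_
    intro he
    rcases c with ⟨i, s⟩
    rcases a with ⟨j, t⟩
    simp only at he
    subst he
    have h1 := hs.ok.a_not
    have h2 := hs.ok.a_inv_not
    simp only [linv] at h2
    cases s <;> cases t <;> simp_all
  induction hq with
  | single μ' a hCa hs hL => exact key μ μ' a hs
  | tail μ' μ'' a _ hCa hs hL ih =>
    exact fun c hc => (key μ' μ'' a hs c hc).trans (ih c hc)

theorem chain_first {C : Letter M → Bool} {L : Letter M → Prop} {μ μ' : St M}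
    (hq : QChain C L μ μ') : ∃ a, μ.Cand C a ∧ ¬ L a := by
  induction hq with
  | single μ' a hCa hs hL => exact ⟨a, hCa, hL⟩
  | tail μ' μ'' a _ hCa hs hL ih => exact ih

/-- The cluster of an element of `C` is `C`. -/
theorem cluster_C {μ : St M} {C : Letter M → Bool} {L : Letter M → Prop} {a : Letter M}
    (hC : μ.Cand C a) (hL : ¬ L a) {p q : Letter M} (hp : C p = true) (h : μ.ConnL L p q) :
    C q = true := by
  induction h with
  | refl => exact hp
  | tail _ hst ih =>
    obtain ⟨_, h2, h3⟩ := hst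
    by_contra hcon
    have := hC.ok.bd _ _ h3 ih (by simpa using hcon)
    exact hL (this ▸ h2)

theorem connL_symm {μ : St M} {L : Letter M → Prop} {p q : Letter M} (h : μ.ConnL L p q) :
    μ.ConnL L q p := by
  induction h with
  | refl => exact Relation.ReflTransGen.refl
  | tail _ hst ih =>
    exact Relation.ReflTransGen.head ⟨hst.2.1, hst.1, by rw [μ.symm]; exact hst.2.2⟩ ih

theorem connL_of_C {μ : St M} {C : Letter M → Bool} {L : Letter M → Prop} {a : Letter M}
    (hC : μ.Cand C a) (hCL : ∀ p, C p = true → L p) {p q : Letter M} (hp : C p = true)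
    (hq : C q = true) : μ.ConnL L p q :=
  Relation.ReflTransGen.mono (fun _ _ h => ⟨hCL _ h.1, hCL _ h.2.1, h.2.2⟩) _ _
    (hC.conn p q hp hq)

end SBQ

open SBQ in
/-- Quiet steps decrease the quiet part of the measure. -/
theorem sbq (hU : UStmt) (hCl : ClusterStmt) (hW : WSlideStmt) (hJ : JumpStmt)
    (hBd : BandStmt) (hY : YScaleStmt) : QuietStmt := by
  intro M μ μ' J hx hstep
  obtain ⟨C, a₀, hC₀, hmin, hq, hmax, hband, hyv⟩ := hstep
  set l := μ.bt (μ.h C) with hl
  obtain ⟨a, hC, haL⟩ := chain_first hq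
  have hB := one_lt_Bb M
  obtain ⟨e₀, he₀, -⟩ := hC.exit
  obtain ⟨c₀, hc₀, hc₀x⟩ := exists_h μ he₀
  -- the bands are the same
  have hLam : ∀ l p, μ'.Lam l p ↔ μ.Lam l p := by
    intro l p
    simp only [St.Lam, (hband p).1, Nat.pos_iff_ne_zero, ne_eq, (hband p).2]
  have hLam' : ∀ l, μ'.Lam l = μ.Lam l := fun l => funext fun p => propext (hLam l p)
  -- l is the lowest band
  have hlJ : l ≤ J := by
    have h1 : l ≤ Nat.log (Bb M) (μ.h C) := bt_le hY hBd μ _
    have h2 : μ.h C < Bb M ^ J := by rw [← hc₀x]; exact hx c₀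
    have h3 : μ.h C ≠ 0 := by
      rw [← hc₀x]
      exact (cand_pos hC hc₀).ne'
    have h4 := Nat.log_lt_of_lt_pow h3 h2
    omega
  have hlam : μ.lam J = l := by
    apply le_antisymm (lam_le_of hC J)
    exact le_lam hlJ fun C' a' h' => bt_mono hY hBd μ (hmin C' a' h')
  have hlam' : l ≤ μ'.lam J := by
    apply le_lam hlJ
    intro D b hD
    by_contra hcon
    push Not at hcon
    set l' := μ'.bt (μ'.h D) with hl'
    have hDL : ∀ p, D p = true → μ.Lam l' p := fun p hp =>
      (hLam _ _).1 (cand_lam hY hBd hD hp)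
    refine chain_U hU (L' := μ.Lam l') (lam_symm μ l') (fun p hp => ⟨hp.1, hp.2.trans hcon.le⟩)
      ⟨c₀, hc₀, ?_⟩ hq ?_ D b hDL hD
    · intro h
      have := h.2
      rw [hc₀x] at this
      omega
    · intro D' b' hD' hcand
      obtain ⟨e, he, -⟩ := hcand.exit
      obtain ⟨d, hd, hdx⟩ := exists_h μ he
      have h1 := (hD' d hd).2
      rw [hdx] at h1
      have h2 := bt_mono hY hBd μ (hmin D' b' hcand)
      omega
  unfold St.quiet
  rw [hlam, hLam']
  rcases hlam'.lt_or_eq with hlt | heq
  · -- the lowest band goes up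
    have h1 := ncp_le μ' (μ.Lam (μ'.lam J))
    have h2 := frh_le μ' (μ.Lam (μ'.lam J))
    have h3 := lam_le μ' J
    obtain ⟨k, hk⟩ : ∃ k, J - l = (J - μ'.lam J) + 1 + k := ⟨J - l - ((J - μ'.lam J) + 1), by omega⟩
    rw [hk]
    set A := J - μ'.lam J
    set n := μ'.ncp (μ.Lam (μ'.lam J))
    set f := μ'.frh (μ.Lam (μ'.lam J))
    have h4 : n * (2 * M + 1) ≤ 4 * M * M * (2 * M + 1) := Nat.mul_le_mul_right _ h1
    have h5 : (A + 1 + k) * ((4 * M * M + 1) * (2 * M + 1)) =
      A * ((4 * M * M + 1) * (2 * M + 1)) + 4 * M * M * (2 * M + 1) + (2 * M + 1) +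
        k * ((4 * M * M + 1) * (2 * M + 1)) := by ring
    rw [h5]
    have h6 : 0 ≤ k * ((4 * M * M + 1) * (2 * M + 1)) := Nat.zero_le _
    omega
  · rw [← heq]
    set L := μ.Lam l with hL
    have hsym : ∀ p, L p ↔ L (linv p) := lam_symm μ l
    have hCL : ∀ p, C p = true → L p := fun p hp => cand_lam hY hBd hC hp
    have hconn := chain_conn hCl hsym hCL hq
    classical
    have hncp : μ'.ncp L ≤ μ.ncp L := by
      unfold St.ncp
      apply Finset.card_le_card
      intro z hz
      simp only [Finset.mem_filter, Finset.mem_univ, true_and] at hz ⊢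
      exact ⟨hz.1, hz.2.1, fun h => hz.2.2 (hconn _ _ h)⟩
    rcases chain_dich hCl hsym hCL hq with ⟨c, y, h1, h2, h3, h4⟩ | ⟨h1, h2⟩
    · -- clusters merge
      have hlt : μ'.ncp L < μ.ncp L := by
        unfold St.ncp
        apply Finset.card_lt_card
        rw [Finset.ssubset_iff_of_subset]
        · refine ⟨(c, y), ?_, ?_⟩
          · simp only [Finset.mem_filter, Finset.mem_univ, true_and]
            refine ⟨hCL c h1, h3, fun h => ?_⟩
            have := cluster_C hC haL h1 h
            simp [h2] at this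
          · simp only [Finset.mem_filter, Finset.mem_univ, true_and]
            exact fun h => h.2.2 h4
        · intro z hz
          simp only [Finset.mem_filter, Finset.mem_univ, true_and] at hz ⊢
          exact ⟨hz.1, hz.2.1, fun h => hz.2.2 (hconn _ _ h)⟩
      have h5 := frh_le μ' L
      have h6 : (μ'.ncp L + 1) * (2 * M + 1) ≤ μ.ncp L * (2 * M + 1) :=
        Nat.mul_le_mul_right _ hlt
      have h7 : (μ'.ncp L + 1) * (2 * M + 1) = μ'.ncp L * (2 * M + 1) + (2 * M + 1) := by ring
      omega
    · -- C is not free any more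
      have hcn : ∀ p q, μ'.ConnL L p q ↔ μ.ConnL L p q := by
        intro p q
        constructor
        · intro h
          refine Relation.ReflTransGen.mono (fun u v huv => ⟨huv.1, huv.2.1, ?_⟩) _ _ h
          rw [← h1 u v huv.1 huv.2.1]
          exact huv.2.2
        · exact hconn p q
      -- elements of C are free in μ
      have hfree : ∀ c, C c = true → μ.Free L c := by
        intro c hc
        obtain ⟨e, he, hea⟩ := hC.exit
        refine ⟨hCL c hc, a, haL, ⟨e, connL_of_C hC hCL hc he, hea⟩, ?_⟩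
        intro q r hcq hqr hr
        have hCq := cluster_C hC haL hc hcq
        refine hC.ok.bd q r hqr hCq ?_
        by_contra hcon
        exact hr (hCL r (by simpa using hcon))
      -- and not free in μ'
      have hnfree : ∀ c, C c = true → ¬ μ'.Free L c := by
        rintro c hc ⟨-, b, hbL, ⟨q, hcq, hqb⟩, hbd⟩
        have hCq : C q = true := cluster_C hC haL hc ((hcn _ _).1 hcq)
        have hok : μ'.Ok C b := by
          refine ⟨?_, ?_, ?_⟩
          · by_contra hcon
            exact hbL (hCL b (by simpa using hcon))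
          · by_contra hcon
            exact hbL ((hsym b).2 (hCL _ (by simpa using hcon)))
          · intro p r hpr hp hr
            by_cases hrL : L r
            · exfalso
              rw [h1 p r (hCL p hp) hrL] at hpr
              have := hC.ok.bd p r hpr hp hr
              exact haL (this ▸ hrL)
            · exact hbd p r ((hcn _ _).2 (connL_of_C hC hCL hc hp)) hpr hrL
        have hxb := hmax b hok
        have hxb0 : 0 < μ'.x b := by
          rw [μ'.symm] at hqb
          exact lt_of_lt_of_le hqb (le_x μ' _ _)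
        have hn : μ'.n C b ≤ 2 * M * μ.h C := by
          unfold St.n
          calc ∑ c, (if C c = true then μ'.m c b else 0) ≤ ∑ _c : Letter M, μ.h C := by
                refine Finset.sum_le_sum fun c _ => ?_
                split_ifs with hc
                · refine (le_x μ' c b).trans ?_
                  rw [chain_x hW hq c hc]
                  exact le_h μ hc
                · exact Nat.zero_le _
            _ = 2 * M * μ.h C := by
                simp [Fintype.card_prod, mul_comm]
        have hlog : Nat.log (Bb M) (μ'.x b) ≤ Nat.log (Bb M) (μ.h C) + 1 := by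
          have hh : 0 < μ.h C := by rw [← hc₀x]; exact cand_pos hC hc₀
          have e1 : μ'.x b ≤ Bb M * μ.h C := by
            have := Nat.mul_le_mul_right (μ.h C) (le_Bb M)
            have e2 : (2 * M + 2) * μ.h C = 2 * M * μ.h C + μ.h C + μ.h C := by ring
            omega
          calc Nat.log (Bb M) (μ'.x b) ≤ Nat.log (Bb M) (Bb M * μ.h C) := Nat.log_mono_right e1
            _ = Nat.log (Bb M) (μ.h C) + 1 := by
              rw [mul_comm, Nat.log_mul_base hB hh.ne']
        have hocc : occ μ.yv (Nat.log (Bb M) (μ'.x b)) := by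
          rw [← hyv]
          exact occ_log hJ μ' b hxb0
        have hocc' : occ μ.yv (Nat.log (Bb M) (μ.h C)) := by
          rw [← hc₀x]
          exact occ_log hJ μ c₀ (cand_pos hC hc₀)
        have hbt : μ'.bt (μ'.x b) ≤ l := by
          have hbb := hBd μ.yv (μ.yv 0) (yv_anti hY μ) le_rfl
          have e0 : μ'.bt (μ'.x b) = bot μ.yv (Nat.log (Bb M) (μ'.x b)) := by
            unfold St.bt
            rw [hyv]
          rw [e0, hl]
          unfold St.bt
          rcases le_or_gt (Nat.log (Bb M) (μ'.x b)) (Nat.log (Bb M) (μ.h C)) with hle | hgt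
          · exact hbb.2.1 _ _ hle
          · by_contra hne
            have := hbb.2.2.2 _ _ hocc hocc' hgt (by omega)
            omega
        apply hbL
        rw [hL, ← hLam']
        exact ⟨hxb0, hbt⟩
      have hfr : μ'.frh L < μ.frh L := by
        unfold St.frh
        apply Finset.card_lt_card
        rw [Finset.ssubset_iff_of_subset]
        · refine ⟨c₀, ?_, ?_⟩
          · simp only [Finset.mem_filter, Finset.mem_univ, true_and]
            exact hfree c₀ hc₀
          · simp only [Finset.mem_filter, Finset.mem_univ, true_and]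
            exact hnfree c₀ hc₀
        · intro p hp
          simp only [Finset.mem_filter, Finset.mem_univ, true_and] at hp ⊢
          by_cases hpC : C p = true
          · exact absurd hp (hnfree p hpC)
          · obtain ⟨hpL, b, hbL, ⟨q, hpq, hqb⟩, hbd⟩ := hp
            have hout : ∀ q, μ.ConnL L p q → L q ∧ C q = false := by
              intro q hpq
              constructor
              · rcases hpq.cases_tail with rfl | ⟨r, -, hr⟩
                · exact hpL
                · exact hr.2.1
              · by_contra hcon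
                exact hpC (cluster_C hC haL (by simpa using hcon) (connL_symm hpq))
            refine ⟨hpL, b, hbL, ⟨q, (hcn _ _).1 hpq, ?_⟩, ?_⟩
            · have := hout q ((hcn _ _).1 hpq)
              rw [← h2 q b this.1 this.2]
              exact hqb
            · intro q r hpq hqr hr
              have := hout q hpq
              rw [← h2 q r this.1 this.2] at hqr
              exact hbd q r ((hcn _ _).2 hpq) hqr hr
      have h5 : μ'.ncp L * (2 * M + 1) ≤ μ.ncp L * (2 * M + 1) := Nat.mul_le_mul_right _ hncp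
      omega

end Pool.Agent.Lib.MP_0c2883_lc.All
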