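import Pool.Agent.Lib.MP_0c2883_lc.All.YStep
import Pool.Agent.Lib.MP_0c2883_lc.All.SBQ
import Pool.Agent.Lib.MP_0c2883_lc.All.SBW

/-!
# Potential: accelerated slides
-/

set_option autoImplicit false

namespace Pool.Agent.Lib.MP_0c2883_lc.All

open Pool.Agent.Lib.PolyTime List

namespace SBPb

variable {M : ℕ}

theorem bt_congr {μ μ' : St M} (hy : μ'.yv = μ.yv) (w : ℕ) : μ'.bt w = μ.bt w := by
  unfold St.bt
  rw [hy]

/-- weights which differ by a factor less than `Bb M` lie in the same band -/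
theorem bt_eq (hJ : JumpStmt) (hY : YScaleStmt) (hBd : BandStmt) {μ μ' : St M}
    (hy : μ'.yv = μ.yv) {p p' : Letter M} (hp' : 0 < μ'.x p') (h1 : μ'.x p' ≤ μ.x p)
    (h2 : μ.x p ≤ Bb M * μ'.x p') : μ'.bt (μ'.x p') = μ.bt (μ.x p) := by
  have hB := SBQ.one_lt_Bb M
  have hp : 0 < μ.x p := lt_of_lt_of_le hp' h1
  have o1 := SBQ.occ_log hJ μ p hp
  have o2 := SBQ.occ_log hJ μ' p' hp'
  rw [hy] at o2
  have l1 : Nat.log (Bb M) (μ'.x p') ≤ Nat.log (Bb M) (μ.x p) := Nat.log_mono_right h1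
  have l2 : Nat.log (Bb M) (μ.x p) ≤ Nat.log (Bb M) (μ'.x p') + 1 := by
    refine (Nat.log_mono_right h2).trans ?_
    rw [mul_comm, Nat.log_mul_base hB (by omega)]
  rw [bt_congr hy]
  unfold St.bt
  by_cases hl : Nat.log (Bb M) (μ'.x p') = Nat.log (Bb M) (μ.x p)
  · rw [hl]
  · by_contra hne
    have := (hBd μ.yv (μ.yv 0) (SBQ.yv_anti hY μ) le_rfl).2.2.2 _ _ o1 o2 (by omega)
      (fun h => hne h.symm)
    omega

/-- one term of the potential -/
noncomputable def Tt (μ : St M) (w : ℕ) : ℕ :=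
  if w = 0 then 0 else 2 * Kk M * w / Bb M ^ μ.bt w

theorem pot_eq (μ : St M) : μ.Pot = ∑ i : Fin M, Tt μ (μ.x (i, true)) := rfl

theorem Tt_le {μ μ' : St M} {w w' : ℕ} (hb : μ'.bt w' = μ.bt w) (h : w' ≤ w) :
    Tt μ' w' ≤ Tt μ w := by
  unfold Tt
  by_cases h0 : w' = 0
  · rw [if_pos h0]; exact Nat.zero_le _
  · rw [if_neg h0, if_neg (by omega), hb]
    exact Nat.div_le_div_right (Nat.mul_le_mul_left _ h)

theorem Tt_lt {μ μ' : St M} {w w' n : ℕ} (hb : μ'.bt w' = μ.bt w) (h : w' + n = w) (h0 : 0 < w')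
    (hn : Bb M ^ μ.bt w ≤ 2 * Kk M * n) : Tt μ' w' < Tt μ w := by
  unfold Tt
  have hB : 0 < Bb M ^ μ.bt w := SBQ.Bpow_pos M _
  rw [if_neg (by omega), if_neg (by omega), hb, ← h, Nat.mul_add, h]
  refine lt_of_lt_of_le (Nat.lt_succ_self _) ?_
  rw [Nat.succ_eq_add_one, ← Nat.add_div_right _ hB]
  exact Nat.div_le_div_right (Nat.add_le_add_left hn _)

theorem x_fst (μ : St M) {p q : Letter M} (h : p.1 = q.1) : μ.x p = μ.x q := SBX2.x_fst μ h

/-- one slide in which the letter keeps its band -/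
theorem slide_step (hW : WSlideStmt) {μ μ' : St M} {C : Letter M → Bool} {b : Letter M}
    (hs : ASlide μ μ' C b) (hy : μ'.yv = μ.yv) (hbt : μ'.bt (μ'.x b) = μ.bt (μ.x b))
    (hpos : 0 < μ'.x b) :
    μ'.Pot ≤ μ.Pot ∧ (∀ p, μ'.bt (μ'.x p) = μ.bt (μ.x p) ∧ (μ'.x p = 0 ↔ μ.x p = 0)) ∧
      (Bb M ^ μ.bt (μ.x b) ≤ 2 * Kk M * μ.n C b → μ'.Pot < μ.Pot) := by
  obtain ⟨w1, w2, -⟩ := hW M μ μ' C b hs
  have key : ∀ p : Letter M, μ'.bt (μ'.x p) = μ.bt (μ.x p) ∧ (μ'.x p = 0 ↔ μ.x p = 0) := by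
    intro p
    by_cases hp : p.1 = b.1
    · rw [x_fst μ' hp, x_fst μ hp]
      exact ⟨hbt, by omega⟩
    · rw [w2 p hp]
      exact ⟨bt_congr hy _, Iff.rfl⟩
  have hle : ∀ i ∈ (Finset.univ : Finset (Fin M)), Tt μ' (μ'.x (i, true)) ≤ Tt μ (μ.x (i, true)) := by
    intro i _
    exact Tt_le (key _).1 (YStep.wSl hW hs _)
  refine ⟨?_, key, ?_⟩
  · rw [pot_eq, pot_eq]
    exact Finset.sum_le_sum hle
  · intro hn
    rw [pot_eq, pot_eq]
    refine Finset.sum_lt_sum hle ⟨b.1, Finset.mem_univ _, ?_⟩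
    have e1 : μ'.x (b.1, true) = μ'.x b := x_fst μ' rfl
    have e2 : μ.x (b.1, true) = μ.x b := x_fst μ rfl
    rw [e1, e2]
    exact Tt_lt hbt w1 hpos hn

theorem n_cap {μ : St M} {C : Letter M → Bool} {b : Letter M} (h : μ.Ok C b) :
    (∑ c, ∑ y, (if C c && !C y then μ.m c y else 0)) = μ.n C b := by
  unfold St.n
  apply Finset.sum_congr rfl
  intro c _
  cases hC : C c with
  | false => simp
  | true =>
    have := SBW.Ok.out h hC
    simp only [Bool.true_and, if_true]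
    rw [← this]
    apply Finset.sum_congr rfl
    intro y _
    cases C y <;> simp

theorem n_le (μ : St M) (C : Letter M → Bool) (a : Letter M) : μ.n C a ≤ 2 * M * μ.h C := by
  unfold St.n
  have h1 : ∀ c ∈ (Finset.univ : Finset (Letter M)), (if C c then μ.m c a else 0) ≤ μ.h C := by
    intro c _
    by_cases hc : C c = true
    · rw [if_pos hc]
      exact (SBQ.le_x μ c a).trans (SBQ.le_h μ hc)
    · rw [if_neg hc]; exact Nat.zero_le _
  refine (Finset.sum_le_card_nsmul _ _ _ h1).trans ?_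
  simp [Fintype.card_prod, mul_comm]

theorem n_pos {μ : St M} {C : Letter M → Bool} {a : Letter M} (h : ∃ c, C c = true ∧ 0 < μ.m c a) :
    0 < μ.n C a := by
  obtain ⟨c, hc, hm⟩ := h
  unfold St.n
  refine lt_of_lt_of_le hm ?_
  have := Finset.single_le_sum (f := fun c => if C c then μ.m c a else 0)
    (fun _ _ => Nat.zero_le _) (Finset.mem_univ c)
  simpa [hc] using this

/-- invariant along an accelerated slide -/
structure Inv (μ ν : St M) (C : Letter M → Bool) (n : ℕ) : Prop where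
  pot : ν.Pot ≤ μ.Pot
  btx : ∀ p, ν.bt (ν.x p) = μ.bt (μ.x p) ∧ (ν.x p = 0 ↔ μ.x p = 0)
  inC : ∀ p q, C p = true → C q = true → ν.m p q = μ.m p q
  hh : ν.h C = μ.h C
  cap : (∑ c, ∑ y, (if C c && !C y then ν.m c y else 0)) = n
  alt : ν.Pot < μ.Pot ∨ QChain C (μ.Lam (μ.bt (μ.h C))) μ ν

/-- small weights: the potential drops -/
theorem drop_of_lam (hY : YScaleStmt) (hBd : BandStmt) {μ : St M} {C : Letter M → Bool}
    {n w : ℕ} (hh : 0 < μ.h C) (hn : μ.h C ≤ Kk M * n) (hw : μ.bt w ≤ μ.bt (μ.h C)) :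
    Bb M ^ μ.bt w ≤ 2 * Kk M * n := by
  have hB := SBQ.one_lt_Bb M
  calc Bb M ^ μ.bt w ≤ Bb M ^ μ.bt (μ.h C) := Nat.pow_le_pow_right (by omega) hw
    _ ≤ Bb M ^ Nat.log (Bb M) (μ.h C) := Nat.pow_le_pow_right (by omega) (SBQ.bt_le hY hBd μ _)
    _ ≤ μ.h C := Nat.pow_log_le_self _ (by omega)
    _ ≤ Kk M * n := hn
    _ ≤ 2 * Kk M * n := by
      rw [Nat.mul_assoc]; omega

theorem inv_step (hJ : JumpStmt) (hY : YScaleStmt) (hBd : BandStmt) (hW : WSlideStmt)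
    {μ ν ν' : St M} {C : Letter M → Bool} {a b : Letter M} (hC : μ.Cand C a)
    (h2 : μ.h C ≤ Kk M * μ.n C a) (hI : Inv μ ν C (μ.n C a)) (hyν : ν.yv = μ.yv)
    (hy : ν'.yv = ν.yv) (hs : ASlide ν ν' C b) (hx : μ.h C ≤ ν'.x b) :
    Inv μ ν' C (μ.n C a) := by
  obtain ⟨w1, w2, w3⟩ := hW M ν ν' C b hs
  have hn : ν.n C b = μ.n C a := by rw [← n_cap hs.ok, hI.cap]
  have hnpos : 0 < μ.n C a := n_pos hC.exit
  have hhpos : 0 < μ.h C := by
    obtain ⟨c, hc, hm⟩ := hC.exit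
    exact lt_of_lt_of_le (SBQ.cand_pos hC hc) (SBQ.le_h μ hc)
  have hnle := n_le μ C a
  have hbt : ν'.bt (ν'.x b) = ν.bt (ν.x b) := by
    refine bt_eq hJ hY hBd hy (by omega) (by omega) ?_
    have hBM := SBQ.le_Bb M
    have e1 : ν.x b ≤ ν'.x b + 2 * M * ν'.x b := by
      have : 2 * M * μ.h C ≤ 2 * M * ν'.x b := Nat.mul_le_mul_left _ hx
      omega
    calc ν.x b ≤ ν'.x b + 2 * M * ν'.x b := e1
      _ = (2 * M + 1) * ν'.x b := by ring
      _ ≤ Bb M * ν'.x b := Nat.mul_le_mul_right _ (by omega)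
  obtain ⟨s1, s2, s3⟩ := slide_step hW hs hy hbt (by omega)
  refine ⟨s1.trans hI.pot, fun p => ⟨(s2 p).1.trans (hI.btx p).1, (s2 p).2.trans (hI.btx p).2⟩,
    fun p q hp hq => (hs.inC p q hp hq).trans (hI.inC p q hp hq),
    (SBX1.h_eq hW hs).trans hI.hh, by rw [w3, hn], ?_⟩
  rcases hI.alt with hlt | hq
  · exact Or.inl (lt_of_le_of_lt s1 hlt)
  · by_cases hL : μ.Lam (μ.bt (μ.h C)) b
    · left
      refine lt_of_lt_of_le (s3 ?_) hI.pot
      rw [hn, (hI.btx b).1]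
      exact drop_of_lam hY hBd hhpos h2 hL.2
    · right
      refine QChain.tail μ ν ν' b hq ⟨hs.ok, ?_, ?_, ?_⟩ hs hL
      · intro p q hp hq'
        refine Relation.ReflTransGen.mono (fun x y h => ⟨h.1, h.2.1, ?_⟩) _ _ (hC.conn p q hp hq')
        rw [hI.inC x y h.1 h.2.1]
        exact h.2.2
      · by_contra hcon
        push Not at hcon
        have : ν.n C b = 0 := by
          unfold St.n
          apply Finset.sum_eq_zero
          intro c _
          by_cases hc : C c = true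
          · rw [if_pos hc]
            exact Nat.le_zero.mp (hcon c hc)
          · rw [if_neg hc]
        omega
      · by_contra hcon
        push Not at hcon
        have e1 : ν.x b = _ := SBW.sum_split C (fun q => ν.m b q)
        have e2 : (∑ q, if C q then 0 else ν.m b q) = 0 := by
          apply Finset.sum_eq_zero
          intro q _
          cases hq : C q with
          | true => simp
          | false =>
            simp only [Bool.false_eq_true, if_false]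
            exact Nat.le_zero.mp (hcon q hq)
        have e3 := SBW.into_a ν C b
        omega

/-- invariants of the first slide -/
theorem inv_first (hY : YScaleStmt) (hBd : BandStmt) (hW : WSlideStmt)
    {μ ν : St M} {C : Letter M → Bool} {a : Letter M} (hC : μ.Cand C a)
    (h2 : μ.h C ≤ Kk M * μ.n C a) (hy : ν.yv = μ.yv) (hs : ASlide μ ν C a)
    (hpos : 0 < ν.x a) (hbt : ν.bt (ν.x a) = μ.bt (μ.x a)) :
    Inv μ ν C (μ.n C a) := by
  obtain ⟨w1, w2, w3⟩ := hW M μ ν C a hs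
  have hhpos : 0 < μ.h C := by
    obtain ⟨c, hc, hm⟩ := hC.exit
    exact lt_of_lt_of_le (SBQ.cand_pos hC hc) (SBQ.le_h μ hc)
  obtain ⟨s1, s2, s3⟩ := slide_step hW hs hy hbt hpos
  refine ⟨s1, s2, hs.inC, SBX1.h_eq hW hs, w3, ?_⟩
  by_cases hL : μ.Lam (μ.bt (μ.h C)) a
  · exact Or.inl (s3 (drop_of_lam hY hBd hhpos h2 hL.2))
  · exact Or.inr (QChain.single μ ν a hC hs hL)

theorem inv_chain (hJ : JumpStmt) (hY : YScaleStmt) (hBd : BandStmt) (hW : WSlideStmt)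
    (hX : XSlideStmt) (hZ : ZSlideStmt)
    {μ ν ν' : St M} {C : Letter M → Bool} {a : Letter M} (hC : μ.Cand C a)
    (h2 : μ.h C ≤ Kk M * μ.n C a) (hI : Inv μ ν C (μ.n C a)) (hyν : ν.yv = μ.yv)
    (hc : AChain C (μ.h C) ν ν') (hy : ν'.yv = μ.yv) : Inv μ ν' C (μ.n C a) := by
  have hB : 0 < Bb M := by have := SBQ.one_lt_Bb M; omega
  induction hc with
  | refl => exact hI
  | tail ν₁ ν₂ b hc hs hx ih =>
    have hh : ν.h C ≤ μ.h C := le_of_eq hI.hh
    obtain ⟨c1, c2, -⟩ := YStep.yChain hW hX hZ hc hh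
    have hy1 : ν₁.yv = μ.yv := by
      funext j
      apply le_antisymm
      · rw [← hyν]
        exact c1 _ (Nat.pow_pos hB)
      · rw [← hy]
        refine YStep.ySlide hX hZ hs (Or.inl ?_) (Nat.pow_pos hB)
        have := YStep.wSl hW hs b
        have e := hI.hh
        omega
    exact inv_step hJ hY hBd hW hC h2 (ih hy1) hy1 (hy.trans hy1.symm) hs hx

/-- the first slide: band of the letter (proved in SBPa) -/
def SlideBt : Prop := ∀ {M : ℕ} {μ μ' : St M} {C : Letter M → Bool} {a : Letter M}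
    (_ : μ.Cand C a) (_ : ∀ C' a', μ.Cand C' a' → μ.h C ≤ μ.h C')
    (_ : μ.h C ≤ μ.x a ∨ μ.Conn a (linv a)) (_ : ASlide μ μ' C a) (_ : μ'.yv = μ.yv),
    0 < μ'.x a ∧ μ'.bt (μ'.x a) = μ.bt (μ.x a)

/-- accelerated slides -/
theorem acc (hSB : SlideBt) (hJ : JumpStmt) (hY : YScaleStmt) (hBd : BandStmt) (hW : WSlideStmt)
    (hX : XSlideStmt) (hZ : ZSlideStmt) {μ μ₁ μ' : St M} {C : Letter M → Bool} {a : Letter M}
    (hC : μ.Cand C a) (hmin : ∀ C' a', μ.Cand C' a' → μ.h C ≤ μ.h C')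
    (h1 : μ.h C ≤ μ.x a) (h2 : μ.h C ≤ Kk M * μ.n C a) (hs : ASlide μ μ₁ C a)
    (hc : AChain C (μ.h C) μ₁ μ') (hmax : ∀ b, μ'.Ok C b → μ'.x b < μ.h C + μ'.n C b)
    (hy : μ'.yv = μ.yv) :
    μ'.Pot < μ.Pot ∨ (μ'.Pot ≤ μ.Pot ∧ μ'.unused < μ.unused) ∨
    (μ'.Pot ≤ μ.Pot ∧ μ'.unused = μ.unused ∧ QuietStep μ μ') := by
  have hB : 0 < Bb M := by have := SBQ.one_lt_Bb M; omega
  have e := SBX1.h_eq hW hs
  obtain ⟨c1, -, -⟩ := YStep.yChain hW hX hZ hc (by omega)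
  have hy1 : μ₁.yv = μ.yv := by
    funext j
    apply le_antisymm
    · exact YStep.ySlide hX hZ hs (Or.inl h1) (Nat.pow_pos hB)
    · rw [← hy]
      exact c1 _ (Nat.pow_pos hB)
  obtain ⟨b1, b2⟩ := hSB hC hmin (Or.inl h1) hs hy1
  have hI := inv_first hY hBd hW hC h2 hy1 hs b1 b2
  have hI' := inv_chain hJ hY hBd hW hX hZ hC h2 hI hy1 hc hy
  rcases hI'.alt with hlt | hq
  · exact Or.inl hlt
  · refine Or.inr (Or.inr ⟨hI'.pot, ?_, C, a, hC, hmin, hq, hmax, hI'.btx, hy⟩)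
    unfold St.unused
    congr 1
    apply Finset.filter_congr
    intro i _
    exact (hI'.btx (i, true)).2

end SBPb

end Pool.Agent.Lib.MP_0c2883_lc.All
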