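import Pool.Agent.Lib.MP_0c2883_lc.All.SBPa
import Pool.Agent.Lib.MP_0c2883_lc.All.SBPb

/-!
# SBP: the potential
-/

set_option autoImplicit false

namespace Pool.Agent.Lib.MP_0c2883_lc.All

/-- SBP: steps which do not change the invariants decrease the potential, or keep it and use up an
unused letter, or are quiet. -/
theorem sbPot (hJ : JumpStmt) (hY : YScaleStmt) (hBd : BandStmt) (hW : WSlideStmt)
    (hW' : WSplitStmt) (hX : XSlideStmt) (hZ : ZSlideStmt) (hZ' : ZSplitStmt)
    (hSS : StrictSplitStmt) (hBS : BandSlideStmt) (hBS' : BandSplitStmt) : PotStmt := by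
  intro M μ μ' hst hy
  cases hst with
  | merge c a hm hs => exact Or.inl (SBP.merge_case hW hY hBd hm hs hy)
  | acc C a μ₁ hno hC hmin h1 h2 hs hc hmax =>
    exact SBPb.acc (fun hC hmin h hs hy => SBP.slide_bt hJ hY hBd hW hX hZ hBS hC hmin h hs hy)
      hJ hY hBd hW hX hZ hC hmin h1 h2 hs hc hmax hy
  | loop C a hno hC hmin hl h1 h2 hs =>
    exact Or.inl (SBP.loop_case hJ hY hBd hW hX hZ hBS hC hmin hl h2 hs hy)
  | split C a f hno hC hmin h1 h2 hs =>
    exact Or.inr (Or.inl (SBP.split_case hJ hY hBd hW' hZ' hSS hBS' hC hmin h1 h2 hs hy))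

end Pool.Agent.Lib.MP_0c2883_lc.All
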