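import Pool.Agent.Lib.MP_0c2883_lc.All.SBStmts

/-!
# Candidates and clusters inside a set of light letters (module SBU)
-/

set_option autoImplicit false

namespace Pool.Agent.Lib.MP_0c2883_lc.All

open List

namespace SBU

variable {M : ℕ}

theorem rtg_mono {α : Type*} {r s : α → α → Prop} (h : ∀ u v, r u v → s u v) {p q : α}
    (hpq : Relation.ReflTransGen r p q) : Relation.ReflTransGen s p q := by
  induction hpq with
  | refl => exact Relation.ReflTransGen.refl
  | tail h1 h2 ih => exact ih.tail (h _ _ h2)

theorem exists_cross {α : Type*} {r : α → α → Prop} {P : α → Prop} {p q : α}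
    (h : Relation.ReflTransGen r p q) (hp : P p) (hq : ¬ P q) : ∃ u v, r u v ∧ P u ∧ ¬ P v := by
  induction h with
  | refl => exact absurd hp hq
  | tail h1 h2 ih =>
    rename_i b c
    by_cases hb : P b
    · exact ⟨b, c, h2, hb, hq⟩
    · exact ih hb

/-- the sum over `C` is at most the weight, with one more neighbour outside -/
theorem n_lt {μ : St M} {C : Letter M → Bool} {a : Letter M}
    (hrest : ∃ q, C q = false ∧ 0 < μ.m a q) : μ.n C a < μ.x (linv a) := by
  obtain ⟨q0, hq0, hq1⟩ := hrest
  have h1 : μ.x (linv a) = μ.x a := (μ.bal a).symm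
  rw [h1]
  unfold St.n St.x
  refine Finset.sum_lt_sum (fun c _ => ?_) ⟨q0, Finset.mem_univ _, ?_⟩
  · by_cases hc : C c = true
    · simp only [hc, if_true]
      exact (μ.symm c a).le
    · simp [hc]
  · simp only [hq0, Bool.false_eq_true, if_false]
    exact hq1

/-- if all neighbours of `a⁻¹` lie in a set disjoint from `C` in which `a⁻¹` has no new neighbour then
the rest of `(C, a)` is empty -/
theorem rest_aux {μ μ' : St M} {C : Letter M → Bool} {a : Letter M} (hs : ASlide μ μ' C a)
    (hC : μ.Cand C a) (D1 : Letter M → Prop) (hD1 : ∀ p, D1 p → C p = false)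
    (hnew : ∀ q, D1 q → μ'.m (linv a) q = 0) : ∃ q, ¬ D1 q ∧ 0 < μ.m (linv a) q := by
  by_contra hcon
  push Not at hcon
  have h1 : μ.n C a < μ.x (linv a) := n_lt hC.rest
  have h2 : μ.x (linv a) ≤ ∑ q, ∑ c, (if C c && !C q then μ'.m c q else 0) := by
    unfold St.x
    refine Finset.sum_le_sum (fun q _ => ?_)
    by_cases hq : D1 q
    · rw [hs.old q (hD1 q hq), hnew q hq, zero_add]
      refine Finset.sum_le_sum (fun c _ => ?_)
      rw [hD1 q hq]
      by_cases hc : C c = true
      · simp [hc]
      · simp [hc]
    · have := hcon q hq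
      have h3 : μ.m (linv a) q = 0 := by omega
      rw [h3]
      exact Nat.zero_le _
  rw [Finset.sum_comm] at h2
  have h3 : ∑ c, ∑ q, (if C c && !C q then μ'.m c q else 0) = μ.n C a := by
    unfold St.n
    refine Finset.sum_congr rfl (fun c _ => ?_)
    by_cases hc : C c = true
    · rw [if_pos hc, ← hs.cap c hc]
      refine Finset.sum_congr rfl (fun y _ => ?_)
      by_cases hy : C y = true
      · simp [hy]
      · simp [hc, hy]
    · simp [hc]
  omega

/-- a slide does not change the turns from `C` to `C` and from the outside to the outside -/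
theorem m_eq_of_L {μ μ' : St M} {C : Letter M → Bool} {a : Letter M} {L : Letter M → Prop}
    (hL : ∀ p, L p ↔ L (linv p)) (hs : ASlide μ μ' C a) (ha : ¬ L a) {p q : Letter M}
    (hp : L p) (hq : L q) (hpC : C p = false) (hqC : C q = false) : μ'.m p q = μ.m p q := by
  have hla : ¬ L (linv a) := fun h => ha ((hL a).2 h)
  exact hs.outC p q hpC hqC (fun h => hla (h ▸ hp)) (fun h => hla (h ▸ hq))

end SBU

open SBU in
theorem sbu_U : UStmt := by
  classical
  intro M μ μ' C a L hL hs hC ⟨c0, hc0, hc0L⟩ ha H D b hDL hD
  have hla : ¬ L (linv a) := fun h => ha ((hL a).2 h)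
  have hDa : ∀ p, D p = true → p ≠ a := fun p hp h => ha (h ▸ hDL p hp)
  have hDla : ∀ p, D p = true → p ≠ linv a := fun p hp h => hla (h ▸ hDL p hp)
  have hbf : ∀ {x : Bool}, x ≠ true → x = false := fun {x} h => by simpa using h
  by_cases h1 : ∀ p, D p = true → C p = false
  · -- `D` and `C` are disjoint
    by_cases h1a : ∃ y c, D y = true ∧ C c = true ∧ 0 < μ'.m c y
    · obtain ⟨y, c, hy, hc, hcy⟩ := h1a
      have hcD : D c = false := by
        by_contra h
        have := h1 c (by simpa using h)
        rw [hc] at this
        exact Bool.noConfusion this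
      have hcb : c = b := hD.ok.bd y c (by rw [μ'.symm]; exact hcy) hy hcD
      subst hcb
      refine H D (linv a) hDL ⟨⟨?_, ?_, ?_⟩, ?_, ?_, ?_⟩
      · exact hbf (fun h => hDla _ h rfl)
      · rw [linv_linv]
        exact hbf (fun h => hDa _ h rfl)
      · intro p q hpq hp hq
        by_contra hql
        by_cases hqC : C q = true
        · have := hs.ok.bd q p (by rw [μ.symm]; exact hpq) hqC (h1 p hp)
          exact hDa p hp this
        · have h2 : μ'.m p q = μ.m p q := hs.outC p q (h1 p hp) (hbf hqC) (hDla p hp) hql
          have h3 := hD.ok.bd p q (by rw [h2]; exact hpq) hp hq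
          exact hqC (h3 ▸ hc)
      · intro p q hp hq
        refine rtg_mono ?_ (hD.conn p q hp hq)
        rintro u v ⟨hu, hv, huv⟩
        refine ⟨hu, hv, ?_⟩
        rwa [← hs.outC u v (h1 u hu) (h1 v hv) (hDla u hu) (hDla v hv)]
      · refine ⟨y, hy, ?_⟩
        rw [μ.symm]
        exact hs.new c y hc (h1 y hy) hcy
      · obtain ⟨q, hq, hq1⟩ := rest_aux hs hC (fun p => D p = true) h1 (fun q hq => by
          by_contra h
          have h2 := hD.ok.bd q (linv a) (by rw [μ'.symm]; omega) hq
            (hbf (fun h => hDla _ h rfl))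
          rw [← h2, hs.ok.a_inv_not] at hc
          exact Bool.noConfusion hc)
        exact ⟨q, hbf hq, hq1⟩
    · push Not at h1a
      have hz : ∀ y c, D y = true → C c = true → μ'.m c y = 0 := fun y c hy hc =>
        Nat.le_zero.1 (h1a y c hy hc)
      have hrow : ∀ p q, D p = true → μ.m p q = μ'.m p q := by
        intro p q hp
        by_cases hqC : C q = true
        · rw [μ'.symm, hz p q hp hqC]
          by_contra h
          have := hs.ok.bd q p (by rw [μ.symm]; omega) hqC (h1 p hp)
          exact hDa p hp this
        · by_cases hq : q = linv a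
          · subst hq
            rw [μ.symm, hs.old p (h1 p hp), μ'.symm]
            have h2 : ∑ c, (if C c then μ'.m c p else 0) = 0 := by
              refine Finset.sum_eq_zero (fun c _ => ?_)
              by_cases hc : C c = true
              · rw [if_pos hc, hz p c hp hc]
              · rw [if_neg hc]
            rw [h2, add_zero]
          · exact (hs.outC p q (h1 p hp) (hbf hqC) (hDla p hp) hq).symm
      have hbC : C b = false := by
        obtain ⟨e, he, he1⟩ := hD.exit
        refine hbf (fun h => ?_)
        rw [μ'.symm, hz e b he h] at he1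
        exact lt_irrefl _ he1
      refine H D b hDL ⟨⟨hD.ok.a_not, hD.ok.a_inv_not, ?_⟩, ?_, ?_, ?_⟩
      · intro p q hpq hp hq
        exact hD.ok.bd p q (by rw [← hrow p q hp]; exact hpq) hp hq
      · intro p q hp hq
        refine rtg_mono ?_ (hD.conn p q hp hq)
        rintro u v ⟨hu, hv, huv⟩
        exact ⟨hu, hv, by rw [hrow u v hu]; exact huv⟩
      · obtain ⟨e, he, he1⟩ := hD.exit
        exact ⟨e, he, by rw [hrow e b he]; exact he1⟩
      · obtain ⟨q, hq, hq1⟩ := hD.rest
        by_cases hqC : C q = true
        · refine ⟨linv a, hbf (fun h => hDla _ h rfl), ?_⟩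
          rw [μ.symm]
          exact hs.new q b hqC hbC (by rw [μ'.symm]; exact hq1)
        · by_cases hbl : b = linv a
          · refine ⟨q, hq, ?_⟩
            rw [hbl, hs.old q (hbf hqC)]
            rw [hbl] at hq1
            omega
          · by_cases hql : q = linv a
            · refine ⟨q, hq, ?_⟩
              rw [hql, μ.symm, hs.old b hbC]
              rw [hql, μ'.symm] at hq1
              omega
            · exact ⟨q, hq, by rw [← hs.outC b q hbC (hbf hqC) hbl hql]; exact hq1⟩
  · push Not at h1
    obtain ⟨e0, he0, he0C⟩ := h1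
    have he0C : C e0 = true := by simpa using he0C
    have hc0D : ¬ D c0 = true := fun h => hc0L (hDL c0 h)
    -- an edge inside `C` from `D` to the complement of `D`
    obtain ⟨u, v, ⟨huC, hvC, huv⟩, hu, hv⟩ :=
      exists_cross (P := fun p => D p = true) (hC.conn e0 c0 he0C hc0) he0 hc0D
    have hvb : v = b := hD.ok.bd u v (by rw [hs.inC u v huC hvC]; exact huv) hu (hbf hv)
    subst hvb
    by_cases h2 : ∀ p, D p = true → C p = true
    · -- `D ⊂ C`
      have hz : ∀ c y, D c = true → C y = false → μ'.m c y = 0 := by
        intro c y hc hy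
        by_contra h
        have hyD : D y = false := hbf (fun h' => by
          have := h2 y h'
          rw [hy] at this
          exact Bool.noConfusion this)
        have := hD.ok.bd c y (by omega) hc hyD
        rw [this, hvC] at hy
        exact Bool.noConfusion hy
      have hrow : ∀ p q, D p = true → μ.m p q = μ'.m p q := by
        intro p q hp
        by_cases hqC : C q = true
        · exact (hs.inC p q (h2 p hp) hqC).symm
        · rw [hz p q hp (hbf hqC)]
          by_contra h
          have hqa := hs.ok.bd p q (by omega) (h2 p hp) (hbf hqC)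
          have h3 := hs.cap p (h2 p hp)
          have h4 : ∑ y, (if C y then 0 else μ'.m p y) = 0 := by
            refine Finset.sum_eq_zero (fun y _ => ?_)
            by_cases hy : C y = true
            · rw [if_pos hy]
            · rw [if_neg hy, hz p y hp (hbf hy)]
          rw [h4] at h3
          rw [hqa] at h
          exact h h3.symm
      refine H D v hDL ⟨⟨hD.ok.a_not, hD.ok.a_inv_not, ?_⟩, ?_, ?_, ?_⟩
      · intro p q hpq hp hq
        exact hD.ok.bd p q (by rw [← hrow p q hp]; exact hpq) hp hq
      · intro p q hp hq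
        refine rtg_mono ?_ (hD.conn p q hp hq)
        rintro u v ⟨hu, hv, huv⟩
        exact ⟨hu, hv, by rw [hrow u v hu]; exact huv⟩
      · obtain ⟨e, he, he1⟩ := hD.exit
        exact ⟨e, he, by rw [hrow e v he]; exact he1⟩
      · obtain ⟨q, hq, hq1⟩ := hD.rest
        by_cases hqC : C q = true
        · exact ⟨q, hq, by rw [← hs.inC v q hvC hqC]; exact hq1⟩
        · refine ⟨a, hbf (fun h => hDa _ h rfl), ?_⟩
          rw [← hs.cap v hvC]
          refine lt_of_lt_of_le hq1 ?_
          have := Finset.single_le_sum (f := fun y => if C y then 0 else μ'.m v y)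
            (fun y _ => Nat.zero_le _) (Finset.mem_univ q)
          simpa [hqC] using this
    · push Not at h2
      obtain ⟨z0, hz0, hz0C⟩ := h2
      obtain ⟨c, y, ⟨hcD, hyD, hcy⟩, hc, hy⟩ :=
        exists_cross (P := fun p => C p = true) (hD.conn e0 z0 he0 hz0) he0C hz0C
      have hyC : C y = false := hbf hy
      have hly : 0 < μ.m (linv a) y := hs.new c y hc hyC hcy
      let R : Letter M → Letter M → Prop := fun p q =>
        (D p = true ∧ C p = false) ∧ (D q = true ∧ C q = false) ∧ 0 < μ.m p q
      let P1 : Letter M → Prop := fun p =>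
        (D p = true ∧ C p = false) ∧ Relation.ReflTransGen R y p
      refine H (fun p => decide (P1 p)) (linv a) ?_ ⟨⟨?_, ?_, ?_⟩, ?_, ?_, ?_⟩
      · intro p hp
        exact hDL p (of_decide_eq_true hp).1.1
      · exact decide_eq_false (fun h => hDla _ h.1.1 rfl)
      · rw [linv_linv]
        exact decide_eq_false (fun h => hDa _ h.1.1 rfl)
      · intro p q hpq hp hq
        have hp := of_decide_eq_true hp
        have hq := of_decide_eq_false hq
        by_contra hql
        by_cases hqC : C q = true
        · exact hDa p hp.1.1 (hs.ok.bd q p (by rw [μ.symm]; exact hpq) hqC hp.1.2)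
        · have hqC := hbf hqC
          by_cases hqD : D q = true
          · exact hq ⟨⟨hqD, hqC⟩, hp.2.tail ⟨hp.1, ⟨hqD, hqC⟩, hpq⟩⟩
          · have h3 : μ'.m p q = μ.m p q := hs.outC p q hp.1.2 hqC (hDla p hp.1.1) hql
            have h4 := hD.ok.bd p q (by rw [h3]; exact hpq) hp.1.1 (hbf hqD)
            rw [h4, hvC] at hqC
            exact Bool.noConfusion hqC
      · intro p q hp hq
        have hp := of_decide_eq_true hp
        have hq := of_decide_eq_true hq
        -- paths from `y` stay inside
        have key : ∀ z, Relation.ReflTransGen R y z → Relation.ReflTransGen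
            (fun u v => decide (P1 u) = true ∧ decide (P1 v) = true ∧ 0 < μ.m u v) y z := by
          intro z hz
          induction hz with
          | refl => exact Relation.ReflTransGen.refl
          | tail h3 h4 ih =>
            exact ih.tail ⟨decide_eq_true ⟨h4.1, h3⟩, decide_eq_true ⟨h4.2.1, h3.tail h4⟩, h4.2.2⟩
        have key2 : ∀ z, Relation.ReflTransGen
            (fun u v => decide (P1 u) = true ∧ decide (P1 v) = true ∧ 0 < μ.m u v) y z →
            Relation.ReflTransGen
            (fun u v => decide (P1 u) = true ∧ decide (P1 v) = true ∧ 0 < μ.m u v) z y := by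
          intro z hz
          induction hz with
          | refl => exact Relation.ReflTransGen.refl
          | tail h3 h4 ih =>
            exact Relation.ReflTransGen.head ⟨h4.2.1, h4.1, by rw [μ.symm]; exact h4.2.2⟩ ih
        exact (key2 p (key p hp.2)).trans (key q hq.2)
      · exact ⟨y, decide_eq_true ⟨⟨hyD, hyC⟩, Relation.ReflTransGen.refl⟩, by
          rw [μ.symm]; exact hly⟩
      · obtain ⟨q, hq, hq1⟩ := rest_aux hs hC P1 (fun p hp => hp.1.2) (fun q hq => by
          by_contra h
          have h2 := hD.ok.bd q (linv a) (by rw [μ'.symm]; omega) hq.1.1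
            (hbf (fun h => hDla _ h rfl))
          rw [← h2, hs.ok.a_inv_not] at hvC
          exact Bool.noConfusion hvC)
        exact ⟨q, decide_eq_false hq, hq1⟩

open SBU in
theorem sbu_cluster : ClusterStmt := by
  intro M μ μ' C a L hL hs hCL ha
  have hla : ¬ L (linv a) := fun h => ha ((hL a).2 h)
  have hbf : ∀ {x : Bool}, x ≠ true → x = false := fun {x} h => by simpa using h
  refine ⟨?_, ?_⟩
  · intro p q h
    refine rtg_mono ?_ h
    rintro u v ⟨hu, hv, huv⟩
    refine ⟨hu, hv, ?_⟩
    by_cases huC : C u = true
    · by_cases hvC : C v = true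
      · rw [hs.inC u v huC hvC]; exact huv
      · have := hs.ok.bd u v huv huC (hbf hvC)
        exact absurd (this ▸ hv) ha
    · by_cases hvC : C v = true
      · have := hs.ok.bd v u (by rw [μ.symm]; exact huv) hvC (hbf huC)
        exact absurd (this ▸ hu) ha
      · rw [m_eq_of_L hL hs ha hu hv (hbf huC) (hbf hvC)]; exact huv
  · intro hz
    have h1 : ∀ p q, L p → L q → μ'.m p q = μ.m p q := by
      intro p q hp hq
      by_cases hpC : C p = true
      · by_cases hqC : C q = true
        · exact hs.inC p q hpC hqC
        · rw [hz p q hpC (hbf hqC) hq]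
          by_contra h
          have := hs.ok.bd p q (by omega) hpC (hbf hqC)
          exact ha (this ▸ hq)
      · by_cases hqC : C q = true
        · rw [μ'.symm, hz q p hqC (hbf hpC) hp]
          by_contra h
          have := hs.ok.bd q p (by rw [μ.symm]; omega) hqC (hbf hpC)
          exact ha (this ▸ hp)
        · exact m_eq_of_L hL hs ha hp hq (hbf hpC) (hbf hqC)
    refine ⟨h1, ?_⟩
    intro p q hp hpC
    by_cases hq : L q
    · exact h1 p q hp hq
    · have hqC : C q = false := hbf (fun h => hq (hCL q h))
      by_cases hql : q = linv a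
      · rw [hql, μ'.symm, μ.symm, hs.old p hpC]
        have h2 : ∑ c, (if C c then μ'.m c p else 0) = 0 := by
          refine Finset.sum_eq_zero (fun c _ => ?_)
          by_cases hc : C c = true
          · rw [if_pos hc, hz c p hc hpC hp]
          · rw [if_neg hc]
        rw [h2, add_zero]
      · exact hs.outC p q hpC hqC (fun h => hla (h ▸ hp)) hql

end Pool.Agent.Lib.MP_0c2883_lc.All
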