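import Pool.Agent.Lib.MP_0c2883_lc.All.SBStmts

/-!
# The invariant `X` does not increase under slides and splits
-/

set_option autoImplicit false

namespace Pool.Agent.Lib.MP_0c2883_lc.All.SBX1

open Pool.Agent.Lib.MP_0c2883_lc.All

variable {M : ℕ}

theorem conn_symm {μ : St M} {p q : Letter M} (h : μ.Conn p q) : μ.Conn q p := by
  induction h with
  | refl => exact Relation.ReflTransGen.refl
  | tail _ h2 ih =>
    exact Relation.ReflTransGen.head (by rw [μ.symm]; exact h2) ih

theorem conn_trans {μ : St M} {p q r : Letter M} (h : μ.Conn p q) (h' : μ.Conn q r) :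
    μ.Conn p r := Relation.ReflTransGen.trans h h'

theorem conn_of {μ : St M} {p q : Letter M} (h : 0 < μ.m p q) : μ.Conn p q :=
  Relation.ReflTransGen.single h

theorem mem_comp {μ : St M} {p q : Letter M} : q ∈ μ.comp p ↔ μ.Conn p q := by
  simp [St.comp]

theorem comp_eq {μ : St M} {p q : Letter M} (h : μ.Conn p q) : μ.comp p = μ.comp q := by
  ext r
  rw [mem_comp, mem_comp]
  exact ⟨fun h' => conn_trans (conn_symm h) h', fun h' => conn_trans h h'⟩

theorem conn_of_comp_eq {μ : St M} {p q : Letter M} (h : μ.comp p = μ.comp q) : μ.Conn p q := by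
  have : q ∈ μ.comp q := mem_comp.2 Relation.ReflTransGen.refl
  rw [← h] at this
  exact mem_comp.1 this

/-- The half-edges of a set of letters. -/
def half (F : Finset (Fin M)) : Finset (Letter M) := Finset.univ.filter (fun p : Letter M => p.1 ∈ F)

theorem mem_half {F : Finset (Fin M)} {p : Letter M} : p ∈ half F ↔ p.1 ∈ F := by
  simp [half]

theorem vx_eq (μ : St M) (F : Finset (Fin M)) : μ.Vx F = (half F).image μ.comp := by
  unfold St.Vx half
  congr

theorem card_image_le_image {α β γ : Type*} [DecidableEq β] [DecidableEq γ] (S : Finset α)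
    (f : α → β) (g : α → γ) (h : ∀ p ∈ S, ∀ q ∈ S, f p = f q → g p = g q) :
    (S.image g).card ≤ (S.image f).card := by
  classical
  rcases S.eq_empty_or_nonempty with rfl | ⟨s0, hs0⟩
  · simp
  · have hex : ∀ b : γ, ∃ p, p ∈ S ∧ (b ∈ S.image g → g p = b) := by
      intro b
      by_cases hb : b ∈ S.image g
      · obtain ⟨p, hp, hpb⟩ := Finset.mem_image.1 hb
        exact ⟨p, hp, fun _ => hpb⟩
      · exact ⟨s0, hs0, fun h' => absurd h' hb⟩
    choose c hc1 hc2 using hex
    refine Finset.card_le_card_of_injOn (fun b => f (c b)) ?_ ?_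
    · intro b _
      exact Finset.mem_coe.2 (Finset.mem_image_of_mem f (hc1 b))
    · intro b hb b' hb' hbb
      have := h _ (hc1 b) _ (hc1 b') hbb
      rw [hc2 b hb, hc2 b' hb'] at this
      exact this

theorem card_image_lt_image {α β γ : Type*} [DecidableEq β] [DecidableEq γ] (S : Finset α)
    (f : α → β) (g : α → γ) (h : ∀ p ∈ S, ∀ q ∈ S, f p = f q → g p = g q)
    (u v : α) (hu : u ∈ S) (hv : v ∈ S) (hf : f u ≠ f v) (hg : g u = g v) :
    (S.image g).card < (S.image f).card := by
  classical
  have hex : ∀ b : γ, ∃ p, p ∈ S ∧ (b ∈ S.image g → g p = b) := by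
    intro b
    by_cases hb : b ∈ S.image g
    · obtain ⟨p, hp, hpb⟩ := Finset.mem_image.1 hb
      exact ⟨p, hp, fun _ => hpb⟩
    · exact ⟨u, hu, fun h' => absurd h' hb⟩
  choose c hc1 hc2 using hex
  obtain ⟨w, hw, hwg, hwf⟩ : ∃ w ∈ S, g w = g u ∧ f w ≠ f (c (g u)) := by
    by_cases h1 : f u = f (c (g u))
    · exact ⟨v, hv, hg.symm, fun h2 => hf (h1.trans h2.symm)⟩
    · exact ⟨u, hu, rfl, h1⟩
  have hle : (S.image g).card ≤ ((S.image f).erase (f w)).card := by
    refine Finset.card_le_card_of_injOn (fun b => f (c b)) ?_ ?_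
    · intro b hb
      refine Finset.mem_coe.2 (Finset.mem_erase.2 ⟨?_, Finset.mem_image_of_mem f (hc1 b)⟩)
      intro hEq
      have h1 := h _ (hc1 b) _ hw hEq
      rw [hc2 b hb, hwg] at h1
      rw [h1] at hEq
      exact hwf hEq.symm
    · intro b hb b' hb' hbb
      have := h _ (hc1 b) _ (hc1 b') hbb
      rw [hc2 b hb, hc2 b' hb'] at this
      exact this
  have hmem : f w ∈ S.image f := Finset.mem_image_of_mem f hw
  have := Finset.card_erase_lt_of_mem hmem
  omega

theorem x_linv (μ : St M) (p : Letter M) : μ.x (linv p) = μ.x p := (μ.bal p).symm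

theorem x_fst (μ : St M) (p : Letter M) : μ.x (p.1, true) = μ.x p := by
  rcases p with ⟨i, b⟩
  cases b
  · have := x_linv μ (i, true)
    simpa [linv] using this.symm
  · rfl

theorem mem_E {μ : St M} {s : ℕ} {p : Letter M} : p.1 ∈ μ.E s ↔ s ≤ μ.x p := by
  unfold St.E
  rw [Finset.mem_filter, x_fst]
  simp

theorem mem_E' {μ : St M} {s : ℕ} {i : Fin M} : i ∈ μ.E s ↔ s ≤ μ.x (i, true) := by
  unfold St.E
  simp

theorem X_le {μ μ' : St M} {s : ℕ}
    (h : ∀ F, F ⊆ μ'.E s → ∃ F' ⊆ μ.E s, F.card + (μ.Vx F').card ≤ F'.card + (μ'.Vx F).card) :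
    μ'.X s ≤ μ.X s := by
  unfold St.X
  refine Finset.sup_le fun F hF => ?_
  obtain ⟨F', hF', hc⟩ := h F (Finset.mem_powerset.1 hF)
  have h1 : F'.card - (μ.Vx F').card ≤
      (μ.E s).powerset.sup (fun F => F.card - (μ.Vx F).card) :=
    Finset.le_sup (f := fun F => F.card - (μ.Vx F).card) (Finset.mem_powerset.2 hF')
  omega

theorem fst_eq {p a : Letter M} (h : p.1 = a.1) : p = a ∨ p = linv a := by
  rcases p with ⟨i, b⟩
  rcases a with ⟨j, c⟩
  simp only at h
  subst h
  cases b <;> cases c <;> simp [linv]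

/-! ### Slides -/

section slide

variable {μ μ' : St M} {C : Letter M → Bool} {a : Letter M}

theorem fst_ne_of_C (hs : ASlide μ μ' C a) {p : Letter M} (hp : C p = true) : p.1 ≠ a.1 := by
  intro h
  rcases fst_eq h with rfl | rfl
  · rw [hs.ok.a_not] at hp; cases hp
  · rw [hs.ok.a_inv_not] at hp; cases hp

open Classical in
/-- The vertex of a half-edge after the slide. -/
noncomputable def rho (μ : St M) (C : Letter M → Bool) (a : Letter M) (p : Letter M) :
    Finset (Letter M) :=
  if C p = true ∧ μ.Conn p a then μ.comp (linv a) else μ.comp p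

theorem rho_step_aux (hs : ASlide μ μ' C a) {p q : Letter M} (hp : C p = true)
    (h : 0 < μ'.m p q) : rho μ C a p = rho μ C a q := by
  unfold rho
  by_cases hq : C q = true
  · have h1 : 0 < μ.m p q := by rw [← hs.inC p q hp hq]; exact h
    by_cases hc : μ.Conn p a
    · have hc' : μ.Conn q a := conn_trans (conn_symm (conn_of h1)) hc
      rw [if_pos ⟨hp, hc⟩, if_pos ⟨hq, hc'⟩]
    · have hc' : ¬ μ.Conn q a := fun h2 => hc (conn_trans (conn_of h1) h2)
      rw [if_neg (fun h2 => hc h2.2), if_neg (fun h2 => hc' h2.2)]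
      exact comp_eq (conn_of h1)
  · have hq' : C q = false := by simpa using hq
    have h1 : 0 < μ.m (linv a) q := hs.new p q hp hq' h
    have h2 : 0 < μ.m p a := by
      rw [← hs.cap p hp]
      refine lt_of_lt_of_le ?_ (Finset.single_le_sum
        (f := fun y => if C y then 0 else μ'.m p y) (fun _ _ => Nat.zero_le _)
        (Finset.mem_univ q))
      simp only [hq']
      simpa using h
    rw [if_pos ⟨hp, conn_of h2⟩, if_neg (fun h3 => hq h3.1)]
    exact comp_eq (conn_of h1)

theorem rho_step (hs : ASlide μ μ' C a) {p q : Letter M}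
    (h : 0 < μ'.m p q) : rho μ C a p = rho μ C a q := by
  by_cases hp : C p = true
  · exact rho_step_aux hs hp h
  by_cases hq : C q = true
  · exact (rho_step_aux hs hq (by rw [μ'.symm]; exact h)).symm
  have hp' : C p = false := by simpa using hp
  have hq' : C q = false := by simpa using hq
  unfold rho
  rw [if_neg (fun h3 => hp h3.1), if_neg (fun h3 => hq h3.1)]
  by_cases hpa : p = linv a
  · subst hpa
    have h1 := hs.old q hq'
    exact comp_eq (conn_of (by omega))
  by_cases hqa : q = linv a
  · subst hqa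
    have h1 := hs.old p hp'
    have h2 : 0 < μ'.m (linv a) p := by rw [μ'.symm]; exact h
    exact (comp_eq (conn_of (by omega))).symm
  · exact comp_eq (conn_of (by rw [← hs.outC p q hp' hq' hpa hqa]; exact h))

theorem rho_conn (hs : ASlide μ μ' C a) {p q : Letter M}
    (h : μ'.Conn p q) : rho μ C a p = rho μ C a q := by
  induction h with
  | refl => rfl
  | tail _ h2 ih => exact ih.trans (rho_step hs h2)

theorem rho_of_comp (hs : ASlide μ μ' C a) {p q : Letter M}
    (h : μ'.comp p = μ'.comp q) : rho μ C a p = rho μ C a q :=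
  rho_conn hs (conn_of_comp_eq h)

theorem card_rho_le (hs : ASlide μ μ' C a) (F : Finset (Fin M)) :
    ((half F).image (rho μ C a)).card ≤ (μ'.Vx F).card := by
  rw [vx_eq]
  exact card_image_le_image _ _ _ (fun p _ q _ h => rho_of_comp hs h)

end slide

/-- Weights after a slide. -/
theorem xSlide (hW : WSlideStmt) : XSlideStmt := by
  classical
  intro M μ μ' C a s hs hor h1
  obtain ⟨hWa, hWp, -⟩ := hW M μ μ' C a hs
  have hxle : ∀ p, μ'.x p ≤ μ.x p := by
    intro p
    by_cases hp : p.1 = a.1
    · have e1 : μ'.x p = μ'.x a := by rw [← x_fst μ' p, ← x_fst μ' a, hp]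
      have e2 : μ.x p = μ.x a := by rw [← x_fst μ p, ← x_fst μ a, hp]
      rw [e1, e2]; omega
    · rw [hWp p hp]
  have hEsub : μ'.E s ⊆ μ.E s := by
    intro i hi
    rw [mem_E'] at hi ⊢
    exact hi.trans (hxle _)
  refine X_le fun F hF => ?_
  have hcard := card_rho_le hs F
  -- if `rho = comp` on `F` we are done
  have key : (∀ p ∈ half F, rho μ C a p = μ.comp p) →
      ∃ F' ⊆ μ.E s, F.card + (μ.Vx F').card ≤ F'.card + (μ'.Vx F).card := by
    intro h
    refine ⟨F, hF.trans hEsub, ?_⟩
    have : (half F).image (rho μ C a) = μ.Vx F := by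
      rw [vx_eq]
      exact Finset.image_congr (fun p hp => h p (by simpa using hp))
    rw [this] at hcard
    omega
  by_cases hloop : μ.Conn a (linv a)
  · refine key fun p _ => ?_
    unfold rho
    split_ifs with hc
    · exact comp_eq (conn_symm (conn_trans hc.2 hloop))
    · rfl
  have hh : μ.h C ≤ μ.x a := hor.resolve_right hloop
  by_cases hsa : s ≤ μ.x a
  · by_cases hex : ∃ p ∈ half F, rho μ C a p = μ.comp (linv a)
    · obtain ⟨p0, hp0, hp0'⟩ := hex
      refine ⟨insert a.1 F, ?_, ?_⟩
      · intro i hi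
        rcases Finset.mem_insert.1 hi with rfl | hi
        · exact mem_E.2 hsa
        · exact hEsub (hF hi)
      · have hmem' : μ.comp (linv a) ∈ (half F).image (rho μ C a) := by
          rw [← hp0']; exact Finset.mem_image_of_mem _ hp0
        have hsub : μ.Vx (insert a.1 F) ⊆ insert (μ.comp a) ((half F).image (rho μ C a)) := by
          rw [vx_eq]
          intro S hS
          obtain ⟨p, hp, rfl⟩ := Finset.mem_image.1 hS
          rw [mem_half, Finset.mem_insert] at hp
          rcases hp with hp | hp
          · rcases fst_eq hp with rfl | rfl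
            · exact Finset.mem_insert_self _ _
            · exact Finset.mem_insert_of_mem hmem'
          · by_cases hc : C p = true ∧ μ.Conn p a
            · rw [comp_eq hc.2]
              exact Finset.mem_insert_self _ _
            · refine Finset.mem_insert_of_mem (Finset.mem_image.2 ⟨p, mem_half.2 hp, ?_⟩)
              unfold rho
              rw [if_neg hc]
        by_cases haF : a.1 ∈ F
        · have hmem : μ.comp a ∈ (half F).image (rho μ C a) := by
            refine Finset.mem_image.2 ⟨a, mem_half.2 haF, ?_⟩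
            unfold rho
            rw [if_neg (fun h => by rw [hs.ok.a_not] at h; exact absurd h.1 (by simp))]
          rw [Finset.insert_eq_of_mem hmem] at hsub
          have := Finset.card_le_card hsub
          rw [Finset.insert_eq_of_mem haF] at this ⊢
          omega
        · have := (Finset.card_le_card hsub).trans (Finset.card_insert_le _ _)
          rw [Finset.card_insert_of_notMem haF]
          omega
    · push Not at hex
      refine key fun p hp => ?_
      have := hex p hp
      unfold rho at this ⊢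
      split_ifs with hc
      · rw [if_pos hc] at this
        exact absurd rfl this
      · rfl
  · refine key fun p hp => ?_
    unfold rho
    rw [if_neg]
    rintro ⟨hc, -⟩
    have hne := fst_ne_of_C hs hc
    have h2 : s ≤ μ'.x p := mem_E.1 (hF (mem_half.1 hp))
    rw [hWp p hne] at h2
    have h3 : μ.x p ≤ μ.h C := by
      unfold St.h
      have := Finset.le_sup (f := fun c => if C c then μ.x c else 0) (Finset.mem_univ p)
      simpa [hc] using this
    omega

/-! ### Splits -/

section split

variable {μ μ' : St M} {C : Letter M → Bool} {a f : Letter M}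

theorem free_row (hs : ASplit μ μ' C a f) (q : Letter M) : μ.m f q = 0 := by
  have h := hs.free
  unfold St.x at h
  exact (Finset.sum_eq_zero_iff.1 h) q (Finset.mem_univ q)

theorem free_row' (hs : ASplit μ μ' C a f) (q : Letter M) : μ.m (linv f) q = 0 := by
  have h := hs.free
  rw [← x_linv] at h
  unfold St.x at h
  exact (Finset.sum_eq_zero_iff.1 h) q (Finset.mem_univ q)

open Classical in
/-- The vertex of a half-edge after the split. -/
noncomputable def rhos (μ : St M) (a f : Letter M) (p : Letter M) : Finset (Letter M) :=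
  if p = f then μ.comp a else if p = linv f then μ.comp (linv a) else μ.comp p

theorem rhos_f (μ : St M) (a f : Letter M) : rhos μ a f f = μ.comp a := by
  unfold rhos; rw [if_pos rfl]

theorem rhos_linv_f (μ : St M) (a f : Letter M) : rhos μ a f (linv f) = μ.comp (linv a) := by
  unfold rhos; rw [if_neg (linv_ne f), if_pos rfl]

theorem rhos_of_ne (μ : St M) (a f : Letter M) {p : Letter M} (h : p.1 ≠ f.1) :
    rhos μ a f p = μ.comp p := by
  unfold rhos
  rw [if_neg (fun h' => h (by rw [h'])), if_neg (fun h' => h (by rw [h']; rfl))]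

theorem fst_ne_f_of_C (hs : ASplit μ μ' C a f) {p : Letter M} (hp : C p = true) :
    p.1 ≠ f.1 := by
  intro h
  rcases fst_eq h with rfl | rfl
  · rw [hs.f_not] at hp; cases hp
  · rw [hs.f_inv_not] at hp; cases hp

theorem rhos_step_aux (hs : ASplit μ μ' C a f) {p q : Letter M} (hp : C p = true)
    (h : 0 < μ'.m p q) : rhos μ a f p = rhos μ a f q := by
  have hpf := fst_ne_f_of_C hs hp
  by_cases hq : C q = true
  · have hqf := fst_ne_f_of_C hs hq
    have h1 : 0 < μ.m p q := by rw [← hs.inC p q hp hq]; exact h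
    rw [rhos_of_ne μ a f hpf, rhos_of_ne μ a f hqf]
    exact comp_eq (conn_of h1)
  · have hq' : C q = false := by simpa using hq
    by_cases hqf : q = f
    · subst hqf
      rw [hs.toF p hp] at h
      rw [rhos_of_ne μ a q hpf, rhos_f]
      exact comp_eq (conn_of h)
    · rw [hs.toO p q hp hq' hqf] at h
      exact absurd h (lt_irrefl _)

theorem rhos_step_aux2 (hs : ASplit μ μ' C a f) {q : Letter M} (hq : C q = false)
    (hqf : q ≠ f) {p : Letter M} (hp : p = linv a ∨ p = linv f)
    (h : 0 < μ'.m p q) : rhos μ a f p = rhos μ a f q := by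
  have h1 := hs.old q hq
  have h2 : 0 < μ.m (linv a) q := by
    rcases hp with rfl | rfl <;> omega
  have h3 : q ≠ linv f := by
    rintro rfl
    rw [μ.symm, free_row' hs] at h2
    exact absurd h2 (lt_irrefl _)
  have h4 : q.1 ≠ f.1 := fun h5 => (fst_eq h5).elim hqf h3
  rw [rhos_of_ne μ a f h4, ← comp_eq (conn_of h2)]
  rcases hp with rfl | rfl
  · exact rhos_of_ne μ a f (by simpa using hs.f_ne)
  · exact rhos_linv_f μ a f

theorem rhos_step (hs : ASplit μ μ' C a f) {p q : Letter M}
    (h : 0 < μ'.m p q) : rhos μ a f p = rhos μ a f q := by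
  have h' : 0 < μ'.m q p := by rw [μ'.symm]; exact h
  by_cases hp : C p = true
  · exact rhos_step_aux hs hp h
  by_cases hq : C q = true
  · exact (rhos_step_aux hs hq h').symm
  have hp' : C p = false := by simpa using hp
  have hq' : C q = false := by simpa using hq
  have hpf : p ≠ f := by
    rintro rfl
    rw [hs.fO q hq'] at h
    exact absurd h (lt_irrefl _)
  have hqf : q ≠ f := by
    rintro rfl
    rw [hs.fO p hp'] at h'
    exact absurd h' (lt_irrefl _)
  by_cases hpa : p = linv a ∨ p = linv f
  · exact rhos_step_aux2 hs hq' hqf hpa h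
  by_cases hqa : q = linv a ∨ q = linv f
  · exact (rhos_step_aux2 hs hp' hpf hqa h').symm
  push Not at hpa hqa
  have hp1 : p.1 ≠ f.1 := fun h5 => (fst_eq h5).elim hpf hpa.2
  have hq1 : q.1 ≠ f.1 := fun h5 => (fst_eq h5).elim hqf hqa.2
  rw [hs.outC p q hp' hq' hpa.1 hqa.1 hp1 hq1] at h
  rw [rhos_of_ne μ a f hp1, rhos_of_ne μ a f hq1]
  exact comp_eq (conn_of h)

theorem rhos_conn (hs : ASplit μ μ' C a f) {p q : Letter M}
    (h : μ'.Conn p q) : rhos μ a f p = rhos μ a f q := by
  induction h with
  | refl => rfl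
  | tail _ h2 ih => exact ih.trans (rhos_step hs h2)

theorem rhos_of_comp (hs : ASplit μ μ' C a f) {p q : Letter M}
    (h : μ'.comp p = μ'.comp q) : rhos μ a f p = rhos μ a f q :=
  rhos_conn hs (conn_of_comp_eq h)

theorem card_rhos_le (hs : ASplit μ μ' C a f) (F : Finset (Fin M)) :
    ((half F).image (rhos μ a f)).card ≤ (μ'.Vx F).card := by
  rw [vx_eq]
  exact card_image_le_image _ _ _ (fun p _ q _ h => rhos_of_comp hs h)

/-- The component of `f` after the split is contained in `C ∪ {f}`. -/
theorem conn_f (hs : ASplit μ μ' C a f) {q : Letter M} (h : μ'.Conn f q) :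
    q = f ∨ C q = true := by
  induction h with
  | refl => exact Or.inl rfl
  | @tail b c _ h2 ih =>
    rcases ih with rfl | hb
    · right
      by_contra hc
      rw [hs.fO c (by simpa using hc)] at h2
      exact absurd h2 (lt_irrefl _)
    · by_cases hc : C c = true
      · exact Or.inr hc
      · left
        by_contra hcf
        rw [hs.toO b c hb (by simpa using hc) hcf] at h2
        exact absurd h2 (lt_irrefl _)

end split

theorem xSplit (hW : WSplitStmt) : XSplitStmt := by
  classical
  intro M μ μ' C a f s hs h1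
  obtain ⟨hWa, hWf, hWp⟩ := hW M μ μ' C a f hs
  have hxle : ∀ p : Letter M, p.1 ≠ f.1 → μ'.x p ≤ μ.x p := by
    intro p hpf
    by_cases hp : p.1 = a.1
    · have e1 : μ'.x p = μ'.x a := by rw [← x_fst μ' p, ← x_fst μ' a, hp]
      have e2 : μ.x p = μ.x a := by rw [← x_fst μ p, ← x_fst μ a, hp]
      rw [e1, e2]; omega
    · rw [hWp p hp hpf]
  have hEsub : ∀ i ∈ μ'.E s, i ≠ f.1 → i ∈ μ.E s := by
    intro i hi hif
    rw [mem_E'] at hi ⊢
    exact hi.trans (hxle _ hif)
  refine X_le fun F hF => ?_
  have hcard := card_rhos_le hs F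
  by_cases hfF : f.1 ∈ F
  · have hsf : s ≤ μ'.x f := mem_E.1 (hF hfF)
    have hsa : s ≤ μ.x a := by omega
    refine ⟨insert a.1 (F.erase f.1), ?_, ?_⟩
    · intro i hi
      rcases Finset.mem_insert.1 hi with rfl | hi
      · exact mem_E.2 hsa
      · exact hEsub i (hF (Finset.mem_of_mem_erase hi)) (Finset.ne_of_mem_erase hi)
    · have hsub : μ.Vx (insert a.1 (F.erase f.1)) ⊆ (half F).image (rhos μ a f) := by
        rw [vx_eq]
        intro S hS
        obtain ⟨p, hp, rfl⟩ := Finset.mem_image.1 hS
        rw [mem_half, Finset.mem_insert] at hp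
        rcases hp with hp | hp
        · rcases fst_eq hp with rfl | rfl
          · exact Finset.mem_image.2 ⟨f, mem_half.2 hfF, rhos_f μ p f⟩
          · exact Finset.mem_image.2 ⟨linv f, mem_half.2 (by simpa using hfF), rhos_linv_f μ a f⟩
        · exact Finset.mem_image.2 ⟨p, mem_half.2 (Finset.mem_of_mem_erase hp),
            rhos_of_ne μ a f (Finset.ne_of_mem_erase hp)⟩
      have hle := Finset.card_le_card hsub
      have hpos : 0 < F.card := Finset.card_pos.2 ⟨_, hfF⟩
      by_cases haF : a.1 ∈ F
      · have haF' : a.1 ∈ F.erase f.1 := Finset.mem_erase.2 ⟨hs.f_ne, haF⟩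
        have hlt : ((half F).image (rhos μ a f)).card < (μ'.Vx F).card := by
          rw [vx_eq]
          refine card_image_lt_image _ _ _ (fun p _ q _ h => rhos_of_comp hs h) f a
            (mem_half.2 hfF) (mem_half.2 haF) ?_ ?_
          · intro h
            rcases conn_f hs (conn_of_comp_eq h) with h2 | h2
            · exact hs.f_ne (by rw [h2])
            · rw [hs.ok.a_not] at h2; cases h2
          · rw [rhos_f, rhos_of_ne μ a f hs.f_ne]
        rw [Finset.insert_eq_of_mem haF'] at hle ⊢
        rw [Finset.card_erase_of_mem hfF]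
        omega
      · have haF' : a.1 ∉ F.erase f.1 := fun h => haF (Finset.mem_of_mem_erase h)
        rw [Finset.card_insert_of_notMem haF', Finset.card_erase_of_mem hfF]
        omega
  · refine ⟨F, fun i hi => hEsub i (hF hi) (fun h => hfF (h ▸ hi)), ?_⟩
    have : (half F).image (rhos μ a f) = μ.Vx F := by
      rw [vx_eq]
      refine Finset.image_congr (fun p hp => rhos_of_ne μ a f (fun h => hfF ?_))
      rw [← h]
      exact mem_half.1 (by simpa using hp)
    rw [this] at hcard
    omega

/-! ### Steps -/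

theorem h_eq {M : ℕ} {μ μ' : St M} {C : Letter M → Bool} {a : Letter M} (hW : WSlideStmt)
    (hs : ASlide μ μ' C a) : μ'.h C = μ.h C := by
  obtain ⟨-, hWp, -⟩ := hW M μ μ' C a hs
  unfold St.h
  refine Finset.sup_congr rfl fun p _ => ?_
  by_cases hp : C p = true
  · simp only [hp, if_true]
    exact hWp p (fst_ne_of_C hs hp)
  · simp [hp]

theorem chain {M : ℕ} (hW : WSlideStmt) {C : Letter M → Bool} {h : ℕ} {μ μ' : St M}
    (hc : AChain C h μ μ') (hh : μ.h C ≤ h) : ∀ s, 1 ≤ s → μ'.X s ≤ μ.X s ∧ μ'.h C = μ.h C := by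
  induction hc with
  | refl => exact fun s _ => ⟨le_rfl, rfl⟩
  | tail μ' μ'' a hc hs hx ih =>
    intro s h1
    obtain ⟨i1, i2⟩ := ih s h1
    have e := h_eq hW hs
    obtain ⟨hWa, -, -⟩ := hW M μ' μ'' C a hs
    refine ⟨(xSlide hW M μ' μ'' C a s hs (Or.inl (by omega)) h1).trans i1, by omega⟩

theorem xStep (hW : WSlideStmt) (hW' : WSplitStmt) : XStepStmt := by
  intro M μ μ' hst
  cases hst with
  | merge c a hm hs =>
    refine xSlide hW M μ μ' _ a 1 hs (Or.inl ?_) le_rfl
    have hxc : μ.x c = μ.m c a := by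
      unfold St.x
      refine Finset.sum_eq_single a (fun q _ hq => ?_) (fun h => absurd (Finset.mem_univ a) h)
      by_contra hne
      exact hq (hm.left q (Nat.pos_of_ne_zero hne))
    have hxa : μ.m c a ≤ μ.x a := by
      rw [μ.symm]
      unfold St.x
      exact Finset.single_le_sum (f := fun q => μ.m a q) (fun _ _ => Nat.zero_le _)
        (Finset.mem_univ c)
    unfold St.h
    refine Finset.sup_le fun p _ => ?_
    by_cases hp : p = c
    · subst hp
      simp only [decide_true, if_true]
      omega
    · simp [hp]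
  | acc C a μ₁ hno hC hmin h1 h2 hs hc hmax =>
    have e := h_eq hW hs
    exact (chain hW hc (by omega) 1 le_rfl).1.trans
      (xSlide hW M μ μ₁ C a 1 hs (Or.inl h1) le_rfl)
  | loop C a hno hC hmin hl h1 h2 hs =>
    exact xSlide hW M μ μ' C a 1 hs (Or.inr hl) le_rfl
  | split C a f hno hC hmin h1 h2 hs =>
    exact xSplit hW' M μ μ' C a f 1 hs le_rfl

end Pool.Agent.Lib.MP_0c2883_lc.All.SBX1

namespace Pool.Agent.Lib.MP_0c2883_lc.All

theorem sbXSlide (hW : WSlideStmt) : XSlideStmt := SBX1.xSlide hW

theorem sbXSplit (hW : WSplitStmt) : XSplitStmt := SBX1.xSplit hW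

theorem sbXStep (hW : WSlideStmt) (hW' : WSplitStmt) : XStepStmt := SBX1.xStep hW hW'

end Pool.Agent.Lib.MP_0c2883_lc.All
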