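import Pool.Agent.Lib.MP_0c2883_lc.All.SBStmts

/-!
# SBX2: strict decrease of the invariant `X`
-/

set_option autoImplicit false

namespace Pool.Agent.Lib.MP_0c2883_lc.All

open Pool.Agent.Lib.PolyTime List

namespace SBX2

variable {M : ℕ}

/-! ### Counting -/

theorem card_image_le {α β γ : Type*} [DecidableEq β] [DecidableEq γ] (S : Finset α)
    (g : α → β) (h : α → γ) (hf : ∀ p ∈ S, ∀ q ∈ S, g p = g q → h p = h q) :
    (S.image h).card ≤ (S.image g).card := by
  classical
  rcases S.eq_empty_or_nonempty with rfl | ⟨p0, hp0⟩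
  · simp
  have hex : ∀ b : β, ∃ p, b ∈ S.image g → p ∈ S ∧ g p = b := by
    intro b
    by_cases hb : b ∈ S.image g
    · obtain ⟨p, hp, hpb⟩ := Finset.mem_image.1 hb
      exact ⟨p, fun _ => ⟨hp, hpb⟩⟩
    · exact ⟨p0, fun h => absurd h hb⟩
  choose w hw using hex
  have : S.image h ⊆ (S.image g).image (fun b => h (w b)) := by
    intro y hy
    obtain ⟨p, hp, rfl⟩ := Finset.mem_image.1 hy
    have hb : g p ∈ S.image g := Finset.mem_image_of_mem g hp
    refine Finset.mem_image.2 ⟨g p, hb, ?_⟩
    exact hf _ (hw _ hb).1 _ hp (hw _ hb).2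
  exact (Finset.card_le_card this).trans Finset.card_image_le

theorem card_image_lt {α β γ : Type*} [DecidableEq β] [DecidableEq γ] (S : Finset α)
    (g : α → β) (h : α → γ) (hf : ∀ p ∈ S, ∀ q ∈ S, g p = g q → h p = h q) (c c' : α)
    (hc : c ∈ S) (hc' : c' ∈ S) (h1 : h c = h c') (h2 : g c ≠ g c') :
    (S.image h).card < (S.image g).card := by
  classical
  have hsub : S.image h ⊆ (S.filter (fun p => g p ≠ g c')).image h := by
    intro y hy
    obtain ⟨p, hp, rfl⟩ := Finset.mem_image.1 hy
    by_cases hpc : g p = g c'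
    · exact Finset.mem_image.2 ⟨c, by simp [hc, h2], by rw [hf p hp c' hc' hpc, h1]⟩
    · exact Finset.mem_image.2 ⟨p, by simp [hp, hpc], rfl⟩
  have h3 : ((S.filter (fun p => g p ≠ g c')).image h).card ≤
      ((S.filter (fun p => g p ≠ g c')).image g).card :=
    card_image_le _ g h (fun p hp q hq => hf p (Finset.mem_of_mem_filter p hp) q
      (Finset.mem_of_mem_filter q hq))
  have h4 : (S.filter (fun p => g p ≠ g c')).image g ⊂ S.image g := by
    refine (Finset.ssubset_iff_of_subset
      (Finset.image_subset_image (Finset.filter_subset _ _))).2 ?_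
    refine ⟨g c', Finset.mem_image_of_mem g hc', ?_⟩
    intro hmem
    obtain ⟨p, hp, hpc⟩ := Finset.mem_image.1 hmem
    exact (Finset.mem_filter.1 hp).2 hpc
  exact (Finset.card_le_card hsub).trans_lt (h3.trans_lt (Finset.card_lt_card h4))

/-! ### Components -/

theorem conn_symm (μ : St M) {p q : Letter M} (h : μ.Conn p q) : μ.Conn q p := by
  induction h with
  | refl => exact Relation.ReflTransGen.refl
  | tail _ h2 ih => exact Relation.ReflTransGen.head (by rw [μ.symm]; exact h2) ih

theorem conn_trans (μ : St M) {p q r : Letter M} (h : μ.Conn p q) (h' : μ.Conn q r) :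
    μ.Conn p r := Relation.ReflTransGen.trans h h'

theorem comp_eq (μ : St M) {p q : Letter M} : μ.comp p = μ.comp q ↔ μ.Conn p q := by
  constructor
  · intro h
    have : q ∈ μ.comp q := by
      simp only [St.comp, Finset.mem_filter, Finset.mem_univ, true_and]
      exact Relation.ReflTransGen.refl
    rw [← h] at this
    simpa [St.comp] using this
  · intro h
    ext r
    simp only [St.comp, Finset.mem_filter, Finset.mem_univ, true_and]
    exact ⟨fun h' => conn_trans μ (conn_symm μ h) h', fun h' => conn_trans μ h h'⟩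

theorem conn_single (μ : St M) {p q : Letter M} (h : 0 < μ.m p q) : μ.Conn p q :=
  Relation.ReflTransGen.single h

theorem map_of_conn {γ : Type*} (μ : St M) (h : Letter M → γ)
    (hh : ∀ p q, 0 < μ.m p q → h p = h q) {p q : Letter M} (hpq : μ.Conn p q) : h p = h q := by
  induction hpq with
  | refl => rfl
  | tail _ h2 ih => exact ih.trans (hh _ _ h2)

theorem x_linv (μ : St M) (p : Letter M) : μ.x (linv p) = μ.x p := (μ.bal p).symm

theorem x_fst (μ : St M) {p q : Letter M} (h : p.1 = q.1) : μ.x p = μ.x q := by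
  rcases p with ⟨i, s⟩
  rcases q with ⟨j, t⟩
  obtain rfl : i = j := h
  have := x_linv μ (i, s)
  cases s <;> cases t <;> simp [linv] at this ⊢ <;> first | exact this | exact this.symm

theorem mem_E (μ : St M) (s : ℕ) (p : Letter M) : p.1 ∈ μ.E s ↔ s ≤ μ.x p := by
  have : μ.x (p.1, true) = μ.x p := x_fst μ rfl
  simp [St.E, this]

theorem le_X (μ : St M) (s : ℕ) (F : Finset (Fin M)) (hF : F ⊆ μ.E s) :
    F.card - (μ.Vx F).card ≤ μ.X s :=
  Finset.le_sup (f := fun F => F.card - (μ.Vx F).card) (Finset.mem_powerset.2 hF)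

/-- half-edges of a set of letters -/
def HE (F : Finset (Fin M)) : Finset (Letter M) :=
  Finset.univ.filter (fun p : Letter M => p.1 ∈ F)

theorem mem_HE (F : Finset (Fin M)) (p : Letter M) : p ∈ HE F ↔ p.1 ∈ F := by
  simp [HE]

theorem Vx_def (μ : St M) (F : Finset (Fin M)) [DecidableEq (Finset (Letter M))] :
    μ.Vx F = (HE F).image μ.comp := by
  unfold St.Vx HE
  congr
  exact Subsingleton.elim _ _

theorem fst_eq {p q : Letter M} (h : p.1 = q.1) : p = q ∨ p = linv q := by
  rcases p with ⟨i, s⟩
  rcases q with ⟨j, t⟩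
  obtain rfl : i = j := h
  cases s <;> cases t <;> simp [linv]

theorem ne_of_C {C : Letter M → Bool} {a c : Letter M} (hc : C c = true) (h1 : C a = false)
    (h2 : C (linv a) = false) : c.1 ≠ a.1 := by
  intro h
  rcases fst_eq h with rfl | rfl
  · rw [h1] at hc; exact absurd hc (by simp)
  · rw [h2] at hc; exact absurd hc (by simp)

/-! ### Slides -/

open Classical in
/-- the vertex of a half-edge after a slide, seen in the old state -/
noncomputable def rho (μ : St M) (C : Letter M → Bool) (a : Letter M) (p : Letter M) :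
    Finset (Letter M) := if C p = true ∧ μ.Conn a p then μ.comp (linv a) else μ.comp p

theorem rho_step {μ μ' : St M} {C : Letter M → Bool} {a : Letter M} (h : ASlide μ μ' C a)
    (p q : Letter M) (hpq : 0 < μ'.m p q) : rho μ C a p = rho μ C a q := by
  -- the case `p ∈ C`, `q ∉ C`
  have key : ∀ p q, 0 < μ'.m p q → C p = true → C q = false →
      rho μ C a p = rho μ C a q := by
    intro p q hpq hp hq
    have h1 : 0 < μ.m (linv a) q := h.new p q hp hq hpq
    have h2 : 0 < μ.m p a := by
      rw [← h.cap p hp]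
      have : (if C q then 0 else μ'.m p q) ≤ ∑ y, (if C y then 0 else μ'.m p y) :=
        Finset.single_le_sum (f := fun y => if C y then 0 else μ'.m p y)
          (fun _ _ => Nat.zero_le _) (Finset.mem_univ q)
      rw [hq] at this
      simp only [Bool.false_eq_true, if_false] at this
      omega
    have h3 : μ.Conn a p := conn_symm μ (conn_single μ h2)
    unfold rho
    rw [if_pos ⟨hp, h3⟩, if_neg (by simp [hq])]
    exact (comp_eq μ).2 (conn_single μ h1)
  by_cases hp : C p = true
  · by_cases hq : C q = true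
    · rw [h.inC p q hp hq] at hpq
      have hc := conn_single μ hpq
      have hiff : μ.Conn a p ↔ μ.Conn a q :=
        ⟨fun h' => conn_trans μ h' hc, fun h' => conn_trans μ h' (conn_symm μ hc)⟩
      unfold rho
      by_cases hap : μ.Conn a p
      · rw [if_pos ⟨hp, hap⟩, if_pos ⟨hq, hiff.1 hap⟩]
      · rw [if_neg (fun h' => hap h'.2), if_neg (fun h' => hap (hiff.2 h'.2))]
        exact (comp_eq μ).2 hc
    · exact key p q hpq hp (by simpa using hq)
  · have hp' : C p = false := by simpa using hp
    by_cases hq : C q = true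
    · rw [μ'.symm] at hpq
      exact (key q p hpq hq hp').symm
    · have hq' : C q = false := by simpa using hq
      have hm : 0 < μ.m p q := by
        by_cases h1 : p = linv a
        · subst h1
          have := h.old q hq'
          omega
        · by_cases h2 : q = linv a
          · subst h2
            have := h.old p hp'
            rw [μ'.symm] at hpq
            rw [μ.symm]
            omega
          · rw [h.outC p q hp' hq' h1 h2] at hpq
            exact hpq
      unfold rho
      rw [if_neg (by simp [hp']), if_neg (by simp [hq'])]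
      exact (comp_eq μ).2 (conn_single μ hm)

theorem bandSlide (hW : WSlideStmt) (hF : FlowStmt) : BandSlideStmt := by
  classical
  intro M μ μ' C a c s h hs hsa hsa' hc hac hBc hor
  obtain ⟨w1, w2, w3⟩ := hW M μ μ' C a h
  obtain ⟨F, hFE, hFX, hFB⟩ := hF M μ' s hs
  have haF : a.1 ∉ F := by
    intro hmem
    have := (mem_E μ' s a).1 (hFE hmem)
    omega
  have hca : c.1 ≠ a.1 := ne_of_C hc h.ok.a_not h.ok.a_inv_not
  have hcF : c.1 ∈ F := hFB c (by rw [w2 c hca]; exact hBc)
  have hFE' : insert a.1 F ⊆ μ.E s := by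
    intro i hi
    rcases Finset.mem_insert.1 hi with rfl | hi
    · exact (mem_E μ s a).2 hsa
    · have hia : i ≠ a.1 := fun h' => haF (h' ▸ hi)
      have h1 := (mem_E μ' s (i, true)).1 (hFE hi)
      rw [w2 (i, true) hia] at h1
      exact (mem_E μ s (i, true)).2 h1
  -- the class of `a`
  have hclass : μ.comp a ∈ (HE F).image (rho μ C a) := by
    by_cases hl : μ.Conn a (linv a)
    · refine Finset.mem_image.2 ⟨c, (mem_HE F c).2 hcF, ?_⟩
      unfold rho
      rw [if_pos ⟨hc, hac⟩]
      exact (comp_eq μ).2 (conn_symm μ hl)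
    · rcases hor with hor | ⟨c', h1, h2, h3, h4⟩
      · exact absurd hor hl
      · have h5 : c'.1 ≠ a.1 := by
          intro h'
          rcases fst_eq h' with rfl | rfl
          · exact h2 rfl
          · exact hl h3
        have h6 : c'.1 ∈ F := hFB c' (by rw [w2 c' h5]; exact h4)
        refine Finset.mem_image.2 ⟨c', (mem_HE F c').2 h6, ?_⟩
        unfold rho
        rw [if_neg (by simp [h1])]
        exact (comp_eq μ).2 (conn_symm μ h3)
  have hsub : μ.Vx (insert a.1 F) ⊆ (HE F).image (rho μ C a) := by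
    rw [Vx_def]
    intro v hv
    obtain ⟨p, hp, rfl⟩ := Finset.mem_image.1 hv
    rw [mem_HE] at hp
    rcases Finset.mem_insert.1 hp with hp | hp
    · rcases fst_eq hp with rfl | rfl
      · exact hclass
      · refine Finset.mem_image.2 ⟨c, (mem_HE F c).2 hcF, ?_⟩
        unfold rho
        rw [if_pos ⟨hc, hac⟩]
    · by_cases hpC : C p = true ∧ μ.Conn a p
      · rw [(comp_eq μ).2 (conn_symm μ hpC.2)]
        exact hclass
      · refine Finset.mem_image.2 ⟨p, (mem_HE F p).2 hp, ?_⟩
        unfold rho
        rw [if_neg hpC]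
  have hle : ((HE F).image (rho μ C a)).card ≤ (μ'.Vx F).card := by
    rw [Vx_def]
    refine card_image_le _ _ _ ?_
    intro p _ q _ hpq
    exact map_of_conn μ' _ (rho_step h) ((comp_eq μ').1 hpq)
  have h1 := le_X μ s _ hFE'
  have h2 := Finset.card_le_card hsub
  rw [Finset.card_insert_of_notMem haF] at h1
  omega

/-! ### Splits -/

open Classical in
noncomputable def rhoS (μ : St M) (a f : Letter M) (p : Letter M) :
    Finset (Letter M) :=
  if p = f then μ.comp a else if p = linv f then μ.comp (linv a) else μ.comp p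

theorem m_f (μ : St M) {f : Letter M} (hf : μ.x f = 0) (p q : Letter M) (hp : p.1 = f.1) :
    μ.m p q = 0 := by
  have h1 : μ.x p = 0 := by rw [x_fst μ hp]; exact hf
  unfold St.x at h1
  exact Finset.sum_eq_zero_iff.1 h1 q (Finset.mem_univ q)

theorem rhoS_of_ne (μ : St M) (a f p : Letter M) (h : p.1 ≠ f.1) :
    rhoS μ a f p = μ.comp p := by
  unfold rhoS
  rw [if_neg (fun h' => h (by rw [h'])), if_neg (fun h' => h (by rw [h', linv_fst]))]

theorem rhoS_f (μ : St M) (a f : Letter M) : rhoS μ a f f = μ.comp a := by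
  unfold rhoS; rw [if_pos rfl]

theorem rhoS_f' (μ : St M) (a f : Letter M) : rhoS μ a f (linv f) = μ.comp (linv a) := by
  unfold rhoS; rw [if_neg (linv_ne f), if_pos rfl]

theorem rhoS_step {μ μ' : St M} {C : Letter M → Bool} {a f : Letter M} (h : ASplit μ μ' C a f)
    (p q : Letter M) (hpq : 0 < μ'.m p q) : rhoS μ a f p = rhoS μ a f q := by
  have hCne : ∀ c, C c = true → c.1 ≠ f.1 := fun c hc => ne_of_C hc h.f_not h.f_inv_not
  have hfC : ∀ c, C c = true → 0 < μ'.m c f → rhoS μ a f c = rhoS μ a f f := by
    intro c hc hm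
    rw [h.toF c hc] at hm
    rw [rhoS_of_ne μ a f c (hCne c hc), rhoS_f]
    exact (comp_eq μ).2 (conn_single μ hm)
  -- one end in `C`
  have key : ∀ p q, 0 < μ'.m p q → C p = true → rhoS μ a f p = rhoS μ a f q := by
    intro p q hpq hp
    by_cases hq : C q = true
    · rw [h.inC p q hp hq] at hpq
      rw [rhoS_of_ne μ a f p (hCne p hp), rhoS_of_ne μ a f q (hCne q hq)]
      exact (comp_eq μ).2 (conn_single μ hpq)
    · have hq' : C q = false := by simpa using hq
      by_cases hqf : q = f
      · subst hqf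
        exact hfC p hp hpq
      · have := h.toO p q hp hq' hqf
        omega
  -- one end is `linv f`, the other outside of `C`
  have key2 : ∀ q, 0 < μ'.m (linv f) q → C q = false → q ≠ f →
      rhoS μ a f (linv f) = rhoS μ a f q := by
    intro q hpq hq hqf
    have h1 : 0 < μ.m (linv a) q := by
      have := h.old q hq
      omega
    have h2 : q.1 ≠ f.1 := by
      intro h'
      rcases fst_eq h' with h'' | h''
      · exact hqf h''
      · rw [h'', μ'.diag] at hpq
        exact absurd hpq (by simp)
    rw [rhoS_f', rhoS_of_ne μ a f q h2]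
    exact (comp_eq μ).2 (conn_single μ h1)
  by_cases hp : C p = true
  · exact key p q hpq hp
  by_cases hq : C q = true
  · rw [μ'.symm] at hpq
    exact (key q p hpq hq).symm
  have hp' : C p = false := by simpa using hp
  have hq' : C q = false := by simpa using hq
  by_cases hpf : p = f
  · subst hpf
    have := h.fO q hq'
    omega
  by_cases hqf : q = f
  · subst hqf
    have := h.fO p hp'
    rw [μ'.symm] at hpq
    omega
  by_cases hpf' : p = linv f
  · subst hpf'
    exact key2 q hpq hq' hqf
  by_cases hqf' : q = linv f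
  · subst hqf'
    rw [μ'.symm] at hpq
    exact (key2 p hpq hp' hpf).symm
  have hp1 : p.1 ≠ f.1 := fun h' => (fst_eq h').elim hpf hpf'
  have hq1 : q.1 ≠ f.1 := fun h' => (fst_eq h').elim hqf hqf'
  rw [rhoS_of_ne μ a f p hp1, rhoS_of_ne μ a f q hq1]
  refine (comp_eq μ).2 (conn_single μ ?_)
  by_cases h1 : p = linv a
  · subst h1
    have := h.old q hq'
    omega
  · by_cases h2 : q = linv a
    · subst h2
      have := h.old p hp'
      rw [μ'.symm] at hpq
      rw [μ.symm]
      omega
    · rw [h.outC p q hp' hq' h1 h2 hp1 hq1] at hpq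
      exact hpq

/-- after a split `C` together with `f` is closed under turns -/
theorem sep {μ μ' : St M} {C : Letter M → Bool} {a f : Letter M} (h : ASplit μ μ' C a f)
    {c c' : Letter M} (hc : C c = true) (hc' : C c' = false) (hf : c' ≠ f) :
    μ'.comp c ≠ μ'.comp c' := by
  intro heq
  have hconn := (comp_eq μ').1 heq
  have hstep : ∀ p q, 0 < μ'.m p q → ((C p = true ∨ p = f) ↔ (C q = true ∨ q = f)) := by
    have one : ∀ p q, 0 < μ'.m p q → (C p = true ∨ p = f) → (C q = true ∨ q = f) := by
      intro p q hpq hp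
      by_contra hcon
      push Not at hcon
      have hq' : C q = false := by simpa using hcon.1
      rcases hp with hp | rfl
      · have := h.toO p q hp hq' hcon.2
        omega
      · have := h.fO q hq'
        omega
    intro p q hpq
    exact ⟨one p q hpq, one q p (by rw [μ'.symm]; exact hpq)⟩
  have := map_of_conn μ' (fun p => (C p = true ∨ p = f)) (fun p q hpq => propext (hstep p q hpq))
    hconn
  simp only [eq_iff_iff] at this
  rcases this.1 (Or.inl hc) with h1 | h1
  · rw [hc'] at h1; exact absurd h1 (by simp)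
  · exact hf h1

theorem strictSplit (hW : WSplitStmt) (hF : FlowStmt) : StrictSplitStmt := by
  classical
  intro M μ μ' C a f c c' s h hn hc hc' hcc hBc hBc'
  obtain ⟨w1, w2, w3⟩ := hW M μ μ' C a f h
  obtain ⟨F, hFE, hFX, hFB⟩ := hF M μ' s (by omega)
  have hfF : f.1 ∉ F := by
    intro hmem
    have := (mem_E μ' s f).1 (hFE hmem)
    omega
  have hcF : c.1 ∈ F := hFB c hBc
  have hcF' : c'.1 ∈ F := hFB c' hBc'
  have hFE' : F ⊆ μ.E s := by
    intro i hi
    have hif : i ≠ f.1 := fun h' => hfF (h' ▸ hi)
    have h1 := (mem_E μ' s (i, true)).1 (hFE hi)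
    refine (mem_E μ s (i, true)).2 ?_
    by_cases hia : i = a.1
    · have e1 : μ.x (i, true) = μ.x a := x_fst μ hia
      have e2 : μ'.x (i, true) = μ'.x a := x_fst μ' hia
      omega
    · rw [w3 (i, true) hia hif] at h1
      exact h1
  have hlt : (μ.Vx F).card < (μ'.Vx F).card := by
    rw [Vx_def, Vx_def]
    refine card_image_lt (HE F) μ'.comp μ.comp ?_ c c' ((mem_HE F c).2 hcF)
      ((mem_HE F c').2 hcF') ((comp_eq μ).2 hcc) (sep h hc hc' ?_)
    · intro p hp q hq hpq
      rw [mem_HE] at hp hq
      have h1 := map_of_conn μ' _ (rhoS_step h) ((comp_eq μ').1 hpq)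
      rwa [rhoS_of_ne μ a f p (fun h' => hfF (h' ▸ hp)),
        rhoS_of_ne μ a f q (fun h' => hfF (h' ▸ hq))] at h1
    · rintro rfl
      exact hfF hcF'
  have h1 := le_X μ s F hFE'
  omega

theorem bandSplit (hW : WSplitStmt) (hF : FlowStmt) : BandSplitStmt := by
  classical
  intro M μ μ' C a f c c' s h hs hn hsa' hc hac hBc hc' hca' hl hac' hBc'
  obtain ⟨w1, w2, w3⟩ := hW M μ μ' C a f h
  obtain ⟨F, hFE, hFX, hFB⟩ := hF M μ' s hs
  have haF : a.1 ∉ F := by
    intro hmem
    have := (mem_E μ' s a).1 (hFE hmem)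
    omega
  have hBpos : 0 < Bb M := by unfold Bb; positivity
  have hpos : 0 < Bb M * s := Nat.mul_pos hBpos hs
  have h1 : c.1 ≠ a.1 := ne_of_C hc h.ok.a_not h.ok.a_inv_not
  have h2 : c.1 ≠ f.1 := ne_of_C hc h.f_not h.f_inv_not
  have h3 : c'.1 ≠ a.1 := by
    intro h'
    rcases fst_eq h' with rfl | rfl
    · exact hca' rfl
    · exact hl hac'
  have h4 : c'.1 ≠ f.1 := by
    intro h'
    have := x_fst μ h'
    have := h.free
    omega
  have hcF : c.1 ∈ F := hFB c (by rw [w3 c h1 h2]; exact hBc)
  have hcF' : c'.1 ∈ F := hFB c' (by rw [w3 c' h3 h4]; exact hBc')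
  have hFE' : insert a.1 (F.erase f.1) ⊆ μ.E s := by
    intro i hi
    rcases Finset.mem_insert.1 hi with rfl | hi
    · refine (mem_E μ s a).2 ?_
      omega
    · obtain ⟨hif, hi⟩ := Finset.mem_erase.1 hi
      have hia : i ≠ a.1 := fun h' => haF (h' ▸ hi)
      have h5 := (mem_E μ' s (i, true)).1 (hFE hi)
      rw [w3 (i, true) hia hif] at h5
      exact (mem_E μ s (i, true)).2 h5
  have hX := le_X μ s _ hFE'
  have hac0 : μ.comp a = μ.comp c := (comp_eq μ).2 hac
  have hcc0 : μ.comp c = μ.comp c' := by rw [← hac0]; exact (comp_eq μ).2 hac'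
  have hcf' : c' ≠ f := by rintro rfl; exact h4 rfl
  have hlt : ((HE F).image (rhoS μ a f)).card < (μ'.Vx F).card := by
    rw [Vx_def]
    refine card_image_lt (HE F) μ'.comp _ ?_ c c' ((mem_HE F c).2 hcF)
      ((mem_HE F c').2 hcF') ?_ (sep h hc hc' hcf')
    · intro p _ q _ hpq
      exact map_of_conn μ' _ (rhoS_step h) ((comp_eq μ').1 hpq)
    · rw [rhoS_of_ne μ a f c h2, rhoS_of_ne μ a f c' h4]
      exact hcc0
  have haF' : a.1 ∉ F.erase f.1 := fun h' => haF (Finset.mem_of_mem_erase h')
  rw [Finset.card_insert_of_notMem haF'] at hX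
  have hother : ∀ p : Letter M, p.1 ∈ F.erase f.1 → μ.comp p ∈ (HE F).image (rhoS μ a f) := by
    intro p hp
    obtain ⟨hpf, hp⟩ := Finset.mem_erase.1 hp
    exact Finset.mem_image.2 ⟨p, (mem_HE F p).2 hp, rhoS_of_ne μ a f p hpf⟩
  have hca : μ.comp a ∈ (HE F).image (rhoS μ a f) := by
    rw [hac0]
    exact hother c (Finset.mem_erase.2 ⟨h2, hcF⟩)
  by_cases hfF : f.1 ∈ F
  · have hsub : μ.Vx (insert a.1 (F.erase f.1)) ⊆ (HE F).image (rhoS μ a f) := by
      rw [Vx_def]
      intro v hv
      obtain ⟨p, hp, rfl⟩ := Finset.mem_image.1 hv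
      rw [mem_HE] at hp
      rcases Finset.mem_insert.1 hp with hp | hp
      · rcases fst_eq hp with rfl | rfl
        · exact hca
        · exact Finset.mem_image.2 ⟨linv f, (mem_HE F _).2 (by simpa using hfF),
            rhoS_f' μ a f⟩
      · exact hother p hp
    have h5 := Finset.card_le_card hsub
    have h6 := Finset.card_erase_add_one hfF
    omega
  · have hsub : μ.Vx (insert a.1 (F.erase f.1)) ⊆
        insert (μ.comp (linv a)) ((HE F).image (rhoS μ a f)) := by
      rw [Vx_def]
      intro v hv
      obtain ⟨p, hp, rfl⟩ := Finset.mem_image.1 hv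
      rw [mem_HE] at hp
      rcases Finset.mem_insert.1 hp with hp | hp
      · rcases fst_eq hp with rfl | rfl
        · exact Finset.mem_insert_of_mem hca
        · exact Finset.mem_insert_self _ _
      · exact Finset.mem_insert_of_mem (hother p hp)
    have h5 := Finset.card_le_card hsub
    have h6 := Finset.card_insert_le (μ.comp (linv a)) ((HE F).image (rhoS μ a f))
    rw [Finset.erase_eq_of_notMem hfF] at hX h5
    omega

end SBX2

/-- SBX2: structural splits decrease `X` strictly. -/
theorem strictSplit (hW : WSplitStmt) (hF : FlowStmt) : StrictSplitStmt :=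
  SBX2.strictSplit hW hF

/-- SBX2: slides which make the letter light decrease `X` strictly. -/
theorem bandSlide (hW : WSlideStmt) (hF : FlowStmt) : BandSlideStmt :=
  SBX2.bandSlide hW hF

/-- SBX2: splits which make the letter light decrease `X` strictly. -/
theorem bandSplit (hW : WSplitStmt) (hF : FlowStmt) : BandSplitStmt :=
  SBX2.bandSplit hW hF

end Pool.Agent.Lib.MP_0c2883_lc.All
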