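import Pool.Agent.Lib.MP_0c2883_lc.All.SBX1
import Mathlib.LinearAlgebra.FiniteDimensional.Basic

/-!
# The dimension of the cycle space does not increase under slides and splits
-/

set_option autoImplicit false

namespace Pool.Agent.Lib.MP_0c2883_lc.All.SBZ

open Pool.Agent.Lib.MP_0c2883_lc.All SBX1

variable {M : ℕ}

/-- comparison of dimensions -/
theorem finrank_le {Z' Z : Submodule (ZMod 2) (Fin M → ZMod 2)}
    (T : (Fin M → ZMod 2) →ₗ[ZMod 2] (Fin M → ZMod 2)) (h : ∀ z ∈ Z', T z ∈ Z)
    (hi : ∀ z ∈ Z', T z = 0 → z = 0) :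
    Module.finrank (ZMod 2) Z' ≤ Module.finrank (ZMod 2) Z := by
  refine LinearMap.finrank_le_finrank_of_injective (f := T.restrict h) ?_
  rw [← LinearMap.ker_eq_bot, LinearMap.ker_eq_bot']
  rintro ⟨z, hz⟩ h0
  have h1 : T z = 0 := by
    have := congrArg Subtype.val h0
    simpa using this
  exact Subtype.ext (hi z hz h1)

theorem mem_Z {μ : St M} {s : ℕ} {z : Fin M → ZMod 2} :
    z ∈ μ.Z s ↔ (∀ i, i ∉ μ.E s → z i = 0) ∧ ∀ p, ∑ q ∈ μ.comp p, z q.1 = 0 := Iff.rfl

/-- sums over sets which are closed under turns -/
theorem sum_closed {μ : St M} {z : Fin M → ZMod 2} (hz : ∀ p, ∑ q ∈ μ.comp p, z q.1 = 0)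
    (S : Finset (Letter M)) (hS : ∀ p ∈ S, ∀ q, μ.Conn p q → q ∈ S) : ∑ q ∈ S, z q.1 = 0 := by
  classical
  rw [← Finset.sum_fiberwise_of_maps_to (g := μ.comp) (t := S.image μ.comp)
    (fun q hq => Finset.mem_image_of_mem _ hq)]
  refine Finset.sum_eq_zero fun V hV => ?_
  obtain ⟨p, hp, rfl⟩ := Finset.mem_image.1 hV
  rw [← hz p]
  refine Finset.sum_congr ?_ fun _ _ => rfl
  ext q
  rw [Finset.mem_filter, mem_comp]
  constructor
  · rintro ⟨-, h⟩
    exact conn_of_comp_eq h.symm
  · intro h
    exact ⟨hS p hp q h, (comp_eq h).symm⟩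

/-- the fibre sums vanish -/
theorem sum_fibre {μ : St M} {z : Fin M → ZMod 2} (hz : ∀ p, ∑ q ∈ μ.comp p, z q.1 = 0)
    (ρ : Letter M → Finset (Letter M)) (hρ : ∀ p q, μ.Conn p q → ρ p = ρ q)
    (V : Finset (Letter M)) : ∑ q, (if ρ q = V then z q.1 else 0) = 0 := by
  classical
  rw [← Finset.sum_filter]
  refine sum_closed hz _ fun p hp q hq => ?_
  rw [Finset.mem_filter] at hp ⊢
  exact ⟨Finset.mem_univ _, by rw [← hρ p q hq]; exact hp.2⟩

theorem comp_sum (μ : St M) (z : Fin M → ZMod 2) (p : Letter M) :
    ∑ q ∈ μ.comp p, z q.1 = ∑ q, if μ.comp q = μ.comp p then z q.1 else 0 := by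
  classical
  rw [← Finset.sum_filter]
  refine Finset.sum_congr ?_ fun _ _ => rfl
  ext q
  rw [mem_comp, Finset.mem_filter]
  exact ⟨fun h => ⟨Finset.mem_univ _, (comp_eq h).symm⟩, fun h => conn_of_comp_eq h.2.symm⟩

theorem E_mono {μ μ' : St M} {s : ℕ} (h : ∀ p, μ'.x p ≤ μ.x p) : μ'.E s ⊆ μ.E s := by
  intro i hi
  rw [mem_E'] at hi ⊢
  exact hi.trans (h _)

theorem add_self (c : ZMod 2) : c + c = 0 := by
  have h : (2 : ZMod 2) = 0 := rfl
  linear_combination c * h

/-- the two half-edges of the letter of `a` -/
theorem sum_two (a : Letter M) (w : Letter M → ZMod 2) :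
    (∑ q : Letter M, if q.1 = a.1 then w q else 0) = w a + w (linv a) := by
  classical
  have h : ∀ q : Letter M, (if q.1 = a.1 then w q else 0)
      = (if q = a then w q else 0) + (if q = linv a then w q else 0) := by
    intro q
    by_cases h1 : q.1 = a.1
    · rcases fst_eq h1 with rfl | rfl
      · rw [if_pos rfl, if_pos rfl, if_neg (fun h => linv_ne q h.symm), add_zero]
      · rw [if_pos h1, if_neg (linv_ne a), if_pos rfl, zero_add]
    · rw [if_neg h1, if_neg (fun h => h1 (by rw [h])), if_neg (fun h => h1 (by rw [h]; rfl)),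
        add_zero]
  simp_rw [h]
  rw [Finset.sum_add_distrib, Finset.sum_ite_eq' Finset.univ a, Finset.sum_ite_eq' Finset.univ (linv a)]
  simp

/-- the map for slides -/
def T1 (S : Finset (Letter M)) (i : Fin M) : (Fin M → ZMod 2) →ₗ[ZMod 2] (Fin M → ZMod 2) where
  toFun z := z + (∑ c ∈ S, z c.1) • Pi.single i 1
  map_add' z w := by
    simp only [Pi.add_apply, Finset.sum_add_distrib, add_smul]
    abel
  map_smul' c z := by
    simp only [Pi.smul_apply, RingHom.id_apply, smul_add, smul_smul, smul_eq_mul, Finset.mul_sum]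

theorem T1_apply (S : Finset (Letter M)) (i : Fin M) (z : Fin M → ZMod 2) (j : Fin M) :
    T1 S i z j = z j + (if j = i then ∑ c ∈ S, z c.1 else 0) := by
  simp only [T1, LinearMap.coe_mk, AddHom.coe_mk, Pi.add_apply, Pi.smul_apply, Pi.single_apply,
    smul_eq_mul]
  split_ifs <;> simp

/-- the map for splits -/
def T2 (i j : Fin M) : (Fin M → ZMod 2) →ₗ[ZMod 2] (Fin M → ZMod 2) where
  toFun z := z + z i • (Pi.single i 1 + Pi.single j 1)
  map_add' z w := by
    simp only [Pi.add_apply, add_smul]
    abel
  map_smul' c z := by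
    simp only [Pi.smul_apply, RingHom.id_apply, smul_add, smul_smul, smul_eq_mul]

theorem T2_apply (i j : Fin M) (z : Fin M → ZMod 2) (k : Fin M) :
    T2 i j z k = z k + ((if k = i then z i else 0) + (if k = j then z i else 0)) := by
  simp only [T2, LinearMap.coe_mk, AddHom.coe_mk, Pi.add_apply, Pi.smul_apply, Pi.single_apply,
    smul_eq_mul, mul_add]
  split_ifs <;> simp

end SBZ

open SBX1 SBZ

/-- SBZ, slides -/
theorem zSlide (hW : WSlideStmt) : ZSlideStmt := by
  classical
  intro M μ μ' C a s hs hor h1
  obtain ⟨hWa, hWp, -⟩ := hW M μ μ' C a hs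
  have hxle : ∀ p, μ'.x p ≤ μ.x p := by
    intro p
    by_cases hp : p.1 = a.1
    · have e1 : μ'.x p = μ'.x a := by rw [← x_fst μ' p, ← x_fst μ' a, hp]
      have e2 : μ.x p = μ.x a := by rw [← x_fst μ p, ← x_fst μ a, hp]
      rw [e1, e2]; omega
    · rw [hWp p hp]
  have hE := E_mono (s := s) hxle
  have hfib : ∀ z ∈ μ'.Z s, ∀ V, ∑ q, (if rho μ C a q = V then z q.1 else 0) = 0 :=
    fun z hz V => sum_fibre hz.2 _ (fun p q h => rho_conn hs h) V
  -- identity map
  have key : (∀ z ∈ μ'.Z s, ∀ q, rho μ C a q ≠ μ.comp q → z q.1 = 0) →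
      Module.finrank (ZMod 2) (μ'.Z s) ≤ Module.finrank (ZMod 2) (μ.Z s) := by
    intro hid
    refine Submodule.finrank_mono fun z hz => mem_Z.2 ⟨fun i hi => hz.1 i (fun h => hi (hE h)), fun p => ?_⟩
    rw [comp_sum]
    refine (Finset.sum_congr rfl fun q _ => ?_).trans (hfib z hz (μ.comp p))
    by_cases h : rho μ C a q = μ.comp q
    · rw [h]
    · rw [hid z hz q h, ite_self, ite_self]
  by_cases hloop : μ.Conn a (linv a)
  · refine key fun z _ q hq => absurd ?_ hq
    unfold rho
    split_ifs with hc
    · exact comp_eq (conn_symm (conn_trans hc.2 hloop))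
    · rfl
  have hh : μ.h C ≤ μ.x a := hor.resolve_right hloop
  have hne : μ.comp a ≠ μ.comp (linv a) := fun h => hloop (conn_of_comp_eq h)
  by_cases hsa : s ≤ μ.x a
  · set S : Finset (Letter M) := Finset.univ.filter (fun c => C c = true ∧ μ.Conn c a) with hS
    refine finrank_le (T1 S a.1) (fun z hz => ?_) fun z hz h0 => ?_
    · refine mem_Z.2 ⟨fun i hi => ?_, fun p => ?_⟩
      · rw [T1_apply, hz.1 i (fun h => hi (hE h)), if_neg, add_zero]
        rintro rfl
        exact hi (mem_E.2 hsa)
      · rw [comp_sum]
        set V := μ.comp p with hV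
        set lam := ∑ c ∈ S, z c.1 with hlam
        have e1 : ∀ q : Letter M, (if μ.comp q = V then T1 S a.1 z q.1 else 0)
            = (if μ.comp q = V then z q.1 else 0)
              + (if q.1 = a.1 then (if μ.comp q = V then lam else 0) else 0) := by
          intro q
          rw [T1_apply, ← hlam]
          split_ifs <;> simp
        simp_rw [e1]
        rw [Finset.sum_add_distrib, sum_two]
        have e2 : ∀ q : Letter M, (if μ.comp q = V then z q.1 else 0)
            = (if rho μ C a q = V then z q.1 else 0)
              + (if q ∈ S then (if μ.comp a = V then z q.1 else 0)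
                  + (if μ.comp (linv a) = V then z q.1 else 0) else 0) := by
          intro q
          by_cases hq : C q = true ∧ μ.Conn q a
          · have h2 : rho μ C a q = μ.comp (linv a) := if_pos hq
            have h3 : q ∈ S := by rw [hS, Finset.mem_filter]; exact ⟨Finset.mem_univ _, hq⟩
            rw [h2, if_pos h3, comp_eq hq.2]
            split_ifs with h4 h5
            · exact absurd (h4.trans h5.symm) hne
            · simp
            · rw [zero_add]; simp only [add_self]
            · simp
          · have h2 : rho μ C a q = μ.comp q := if_neg hq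
            have h3 : q ∉ S := by rw [hS, Finset.mem_filter]; exact fun h => hq h.2
            rw [h2, if_neg h3, add_zero]
        simp_rw [e2]
        rw [Finset.sum_add_distrib, hfib z hz V, zero_add]
        have e3 : (∑ q : Letter M, if q ∈ S then (if μ.comp a = V then z q.1 else 0)
            + (if μ.comp (linv a) = V then z q.1 else 0) else 0)
            = (if μ.comp a = V then lam else 0) + (if μ.comp (linv a) = V then lam else 0) := by
          rw [← Finset.sum_filter, Finset.filter_mem_eq_inter, Finset.univ_inter,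
            Finset.sum_add_distrib]
          split_ifs <;> simp [hlam]
        rw [e3]
        exact add_self _
    · have h2 : ∀ j, j ≠ a.1 → z j = 0 := fun j hj => by
        have := congrFun h0 j
        rw [T1_apply, if_neg hj, add_zero] at this
        exact this
      have h3 : ∑ c ∈ S, z c.1 = 0 := by
        refine Finset.sum_eq_zero fun c hc => h2 _ ?_
        rw [hS, Finset.mem_filter] at hc
        exact fst_ne_of_C hs hc.2.1
      funext j
      have := congrFun h0 j
      rw [T1_apply, h3, ite_self, add_zero] at this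
      exact this
  · refine key fun z hz q hq => ?_
    have hc : C q = true := by
      by_contra hc
      exact hq (if_neg (fun h => hc h.1))
    have hne := fst_ne_of_C hs hc
    refine hz.1 _ fun h2 => ?_
    have h2' := mem_E.1 h2
    rw [hWp q hne] at h2'
    have h3 : μ.x q ≤ μ.h C := by
      unfold St.h
      have := Finset.le_sup (f := fun c => if C c then μ.x c else 0) (Finset.mem_univ q)
      simpa [hc] using this
    omega

/-- SBZ, splits -/
theorem zSplit (hW : WSplitStmt) : ZSplitStmt := by
  classical
  intro M μ μ' C a f s hs h1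
  obtain ⟨hWa, hWf, hWp⟩ := hW M μ μ' C a f hs
  have hxle : ∀ p : Letter M, p.1 ≠ f.1 → μ'.x p ≤ μ.x p := by
    intro p hpf
    by_cases hp : p.1 = a.1
    · have e1 : μ'.x p = μ'.x a := by rw [← x_fst μ' p, ← x_fst μ' a, hp]
      have e2 : μ.x p = μ.x a := by rw [← x_fst μ p, ← x_fst μ a, hp]
      rw [e1, e2]; omega
    · rw [hWp p hp hpf]
  have hEsub : ∀ i ∈ μ'.E s, i ≠ f.1 → i ∈ μ.E s := by
    intro i hi hif
    rw [mem_E'] at hi ⊢
    exact hi.trans (hxle _ hif)
  have hfib : ∀ z ∈ μ'.Z s, ∀ V, ∑ q, (if rhos μ a f q = V then z q.1 else 0) = 0 :=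
    fun z hz V => sum_fibre hz.2 _ (fun p q h => rhos_conn hs h) V
  -- `f` and `f⁻¹` are isolated
  have hiso : ∀ p, μ.Conn f p → p = f := by
    intro p h
    induction h with
    | refl => rfl
    | tail _ h2 ih =>
      rw [ih, free_row hs] at h2
      exact absurd h2 (lt_irrefl _)
  have hiso' : ∀ p, μ.Conn (linv f) p → p = linv f := by
    intro p h
    induction h with
    | refl => rfl
    | tail _ h2 ih =>
      rw [ih, free_row' hs] at h2
      exact absurd h2 (lt_irrefl _)
  refine finrank_le (T2 f.1 a.1) (fun z hz => ?_) fun z hz h0 => ?_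
  · refine mem_Z.2 ⟨fun i hi => ?_, fun p => ?_⟩
    · rw [T2_apply]
      by_cases hif : i = f.1
      · subst hif
        rw [if_pos rfl, if_neg (fun h => hs.f_ne h.symm), add_zero, add_self]
      · rw [if_neg hif, zero_add]
        have hzi : z i = 0 := hz.1 i (fun h => hi (hEsub i h hif))
        rw [hzi, zero_add]
        split_ifs with hia
        · subst hia
          refine hz.1 _ fun h => ?_
          have h2 : s ≤ μ'.x f := mem_E.1 h
          exact hi (mem_E.2 (by omega))
        · rfl
    · rw [comp_sum]
      set V := μ.comp p with hV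
      have e1 : ∀ q : Letter M, (if μ.comp q = V then T2 f.1 a.1 z q.1 else 0)
          = (if μ.comp q = V then z q.1 else 0)
            + ((if q.1 = f.1 then (if μ.comp q = V then z f.1 else 0) else 0)
              + (if q.1 = a.1 then (if μ.comp q = V then z f.1 else 0) else 0)) := by
        intro q
        rw [T2_apply]
        split_ifs <;> simp
      simp_rw [e1]
      rw [Finset.sum_add_distrib, Finset.sum_add_distrib, sum_two, sum_two]
      have e2 : ∀ q : Letter M, (if μ.comp q = V then z q.1 else 0)
          = (if rhos μ a f q = V then z q.1 else 0)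
            + (if q.1 = f.1 then ((if μ.comp q = V then z q.1 else 0)
                + (if rhos μ a f q = V then z q.1 else 0)) else 0) := by
        intro q
        by_cases hq : q.1 = f.1
        · rw [if_pos hq]
          rw [add_comm (if μ.comp q = V then z q.1 else 0), ← add_assoc, add_self, zero_add]
        · rw [if_neg hq, add_zero, rhos_of_ne μ a f hq]
      rw [Finset.sum_congr rfl (fun q _ => e2 q)]
      rw [Finset.sum_add_distrib, hfib z hz V, zero_add, sum_two, rhos_f, rhos_linv_f, linv_fst]
      have e4 : ∀ A B A' B' : ZMod 2, A + B + (A' + B') + (A + A' + (B + B')) = 0 := by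
        intro A B A' B'
        have h1 := add_self A
        have h2 := add_self B
        have h3 := add_self A'
        have h4 := add_self B'
        calc A + B + (A' + B') + (A + A' + (B + B')) = (A + A) + (B + B) + (A' + A') + (B' + B') := by abel
          _ = 0 := by rw [h1, h2, h3, h4]; simp
      exact e4 _ _ _ _
  · have h3 : z f.1 = 0 := by
      have h4 := hz.2 f
      rw [Finset.sum_eq_single f] at h4
      · exact h4
      · intro q hq hqf
        rcases conn_f hs (mem_comp.1 hq) with h5 | h5
        · exact absurd h5 hqf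
        · have h6 := fst_ne_f_of_C hs h5
          have h7 : q.1 ≠ a.1 := by
            intro h
            rcases fst_eq h with rfl | rfl
            · rw [hs.ok.a_not] at h5; cases h5
            · rw [hs.ok.a_inv_not] at h5; cases h5
          have := congrFun h0 q.1
          rw [T2_apply, if_neg h6, if_neg h7, add_zero, add_zero] at this
          exact this
      · intro h
        exact absurd (mem_comp.2 Relation.ReflTransGen.refl) h
    funext j
    have := congrFun h0 j
    rw [T2_apply, h3, ite_self, ite_self, add_zero, add_zero] at this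
    exact this

/-- SBZ, scales -/
theorem yScale : YScaleStmt := by
  classical
  intro M μ
  refine ⟨fun s s' _ hss => ?_, fun s => ⟨?_, ?_⟩, fun s h => ?_⟩
  · have hE : μ.E s' ⊆ μ.E s := by
      intro i hi
      rw [mem_E'] at hi ⊢
      omega
    refine ⟨?_, ?_⟩
    · unfold St.X
      exact Finset.sup_mono (Finset.powerset_mono.2 hE)
    · exact Submodule.finrank_mono fun z hz => mem_Z.2 ⟨fun i hi => hz.1 i (fun h => hi (hE h)), hz.2⟩
  · unfold St.X
    refine Finset.sup_le fun F _ => ?_
    have := Finset.card_le_univ F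
    rw [Fintype.card_fin] at this
    omega
  · refine (Submodule.finrank_le _).trans ?_
    rw [Module.finrank_fin_fun]
  · have hE : μ.E s = ∅ := by
      ext i
      rw [mem_E']
      simp only [Finset.notMem_empty, iff_false, not_le]
      exact h _
    have h1 : μ.X s = 0 := by
      unfold St.X
      rw [hE, Finset.powerset_empty, Finset.sup_singleton]
      simp
    have h2 : μ.Z s = ⊥ := by
      rw [eq_bot_iff]
      intro z hz
      rw [Submodule.mem_bot]
      funext i
      exact hz.1 i (by rw [hE]; simp)
    unfold St.Y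
    rw [h1, h2, finrank_bot]

end Pool.Agent.Lib.MP_0c2883_lc.All
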