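import Pool.Agent.Lib.MP_0c2883_lc.All.SGDefs

/-!
# SG, part UL: the uniform lookup property is preserved by elementary steps
-/

set_option autoImplicit false

namespace Pool.Agent.Lib.MP_0c2883_lc.All.SG

open Pool.Agent.Lib.PolyTime List Pool.Agent.Lib.MP_0c2883_lc.All

variable {M : ℕ} {nm nm' : ℤ → Option (Letter M)} {C : Letter M → Bool} {a : Letter M}

theorem St.unique {b : ℤ} {p r p' r' : Letter M} {o e o' e' : ℕ} (h : St nm b p r o e)
    (h' : St nm b p' r' o' e') : p = p' ∧ r = r' ∧ o = o' ∧ e = e' := by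
  obtain ⟨h1, h2, h3⟩ := h
  obtain ⟨h1', h2', h3'⟩ := h'
  have ho : o = o' := by
    rcases lt_trichotomy o o' with hlt | heq | hgt
    · have := h3' (b - o) (by omega) (by omega)
      rw [h1] at this; exact absurd this (by simp)
    · exact heq
    · have := h3 (b - o') (by omega) (by omega)
      rw [h1'] at this; exact absurd this (by simp)
  have he : e = e' := by
    rcases lt_trichotomy e e' with hlt | heq | hgt
    · have := h3' (b + 1 + e) (by omega) (by omega)
      rw [h2] at this; exact absurd this (by simp)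
    · exact heq
    · have := h3 (b + 1 + e') (by omega) (by omega)
      rw [h2'] at this; exact absurd this (by simp)
  subst ho; subst he
  rw [h1] at h1'
  rw [h2] at h2'
  exact ⟨linv_inj.1 (Option.some.inj h1'), Option.some.inj h2', rfl, rfl⟩

/-- Moving the boundary point inside its gap. -/
theorem St.move {b b' : ℤ} {p r : Letter M} {o e o' e' : ℕ} (h : St nm b p r o e)
    (hb : b' - o' = b - o) (he : b' + e' = b + e) : St nm b' p r o' e' := by
  obtain ⟨h1, h2, h3⟩ := h
  refine ⟨by rw [hb]; exact h1, ?_, ?_⟩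
  · have : b' + 1 + (e' : ℤ) = b + 1 + e := by omega
    rw [this]; exact h2
  · intro j hj hj'
    exact h3 j (by omega) (by omega)

/-- The status just before an alive position. -/
theorem before (tot : ∀ b, ∃ p r o e, St nm b p r o e) {k : ℤ} {x : Letter M} (hk : nm k = some x) :
    ∃ p o, St nm (k - 1) p x o 0 := by
  obtain ⟨p, r, o, e, h⟩ := tot (k - 1)
  have he : e = 0 := by
    by_contra hne
    have := h.2.2 k (by omega) (by omega)
    rw [hk] at this; exact absurd this (by simp)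
  subst he
  have h2 := h.2.1
  have : k - 1 + 1 + ((0 : ℕ) : ℤ) = k := by push_cast; ring
  rw [this, hk] at h2
  rw [← Option.some.inj h2] at h
  exact ⟨p, o, h⟩

/-- The status just after an alive position. -/
theorem after (tot : ∀ b, ∃ p r o e, St nm b p r o e) {k : ℤ} {x : Letter M} (hk : nm k = some x) :
    ∃ r e, St nm k (linv x) r 0 e := by
  obtain ⟨p, r, o, e, h⟩ := tot k
  have ho : o = 0 := by
    by_contra hne
    have := h.2.2 k (by omega) (by omega)
    rw [hk] at this; exact absurd this (by simp)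
  subst ho
  have h1 := h.1
  have : k - ((0 : ℕ) : ℤ) = k := by push_cast; ring
  rw [this, hk] at h1
  have hx : linv x = p := by rw [Option.some.inj h1, linv_linv]
  rw [← hx] at h
  exact ⟨r, e, h⟩

/-- What a transition of names has to satisfy. -/
structure Tr (vol : Letter M × Letter M → ℕ) (nm nm' : ℤ → Option (Letter M))
    (par : Letter M × Letter M → Finset (Letter M × Letter M)) : Prop where
  tot : ∀ b, ∃ p r o e, St nm' b p r o e
  red : ∀ b p r o e, St nm' b p r o e → p ≠ r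
  p1 : ∀ b p r o e p' r' o' e', St nm b p r o e → St nm' b p' r' o' e' → (p, r) ∈ par (p', r')
  gap : ∀ b p' r' o' e', St nm' b p' r' o' e' → o' + e' + 1 = ∑ τ ∈ par (p', r'), vol τ
  p2 : ∀ b b2 p r o e p' r' o1 e1 o2 e2, St nm b p r o e → St nm b2 p r o e →
    St nm' b p' r' o1 e1 → St nm' b2 p' r' o2 e2 → o1 = o2
  p3 : ∀ b b2 p r o e, St nm b p r o e → St nm b2 p r o e →
    (∀ p' r' o' e', St nm (b + e + 1) p' r' o' e' → St nm (b2 + e + 1) p' r' o' e') →
    (∀ p' r' o' e', St nm (b - o - 1) p' r' o' e' → St nm (b2 - o - 1) p' r' o' e') →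
    ∀ p' r' o' e', St nm' b p' r' o' e' → St nm' b2 p' r' o' e'
  ne : ∀ σ, (par σ).Nonempty

theorem ul_step {c : ℤ → Letter M} {vol : Letter M × Letter M → ℕ}
    {par : Letter M × Letter M → Finset (Letter M × Letter M)} (hI : Inv c nm vol)
    (hT : Tr vol nm nm' par) : Inv c nm' (fun σ => ∑ τ ∈ par σ, vol τ) := by
  refine ⟨hT.tot, hT.red, hT.gap, ?_, ?_⟩
  · intro σ
    obtain ⟨τ, hτ⟩ := hT.ne σ
    exact (hI.pos τ).trans (Finset.single_le_sum (f := vol) (fun _ _ => Nat.zero_le _) hτ)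
  · intro S b b' L hP hP' hc j hj hj' p' r' o' e' hst
    set Sm : Finset (Letter M × Letter M) := S.biUnion par with hSm
    have hpure : ∀ b0 : ℤ, Pure nm' S b0 L → Pure nm Sm b0 L := by
      intro b0 h0 i hi
      obtain ⟨p, r, o, e, h1⟩ := hI.total (b0 + i)
      obtain ⟨p1, r1, o1, e1, h2, h3⟩ := h0 i hi
      exact ⟨p, r, o, e, h1, Finset.mem_biUnion.2 ⟨_, h3, hT.p1 _ _ _ _ _ _ _ _ _ h1 h2⟩⟩
    have hS1 := hpure b hP
    have hS2 := hpure b' hP'
    -- the double count
    have hdc : VS (fun σ => ∑ τ ∈ par σ, vol τ) S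
        = ∑ τ ∈ Sm, (S.filter (fun σ => τ ∈ par σ)).card * vol τ := by
      unfold VS
      have : ∀ σ ∈ S, ∑ τ ∈ par σ, vol τ = ∑ τ ∈ Sm, if τ ∈ par σ then vol τ else 0 := by
        intro σ hσ
        rw [← Finset.sum_filter]
        apply Finset.sum_congr _ (fun _ _ => rfl)
        ext τ
        simp only [Finset.mem_filter, hSm, Finset.mem_biUnion]
        constructor
        · intro h; exact ⟨⟨σ, hσ, h⟩, h⟩
        · intro h; exact h.2
      rw [Finset.sum_congr rfl this, Finset.sum_comm]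
      apply Finset.sum_congr rfl
      intro τ _
      rw [← Finset.sum_filter, Finset.sum_const, smul_eq_mul]
    have hge : ∀ τ ∈ Sm, 1 ≤ (S.filter (fun σ => τ ∈ par σ)).card := by
      intro τ hτ
      obtain ⟨σ, hσ, h⟩ := Finset.mem_biUnion.1 hτ
      exact Finset.card_pos.2 ⟨σ, Finset.mem_filter.2 ⟨hσ, h⟩⟩
    have hV1 : VS vol Sm ≤ VS (fun σ => ∑ τ ∈ par σ, vol τ) S := by
      rw [hdc]
      apply Finset.sum_le_sum
      intro τ hτ
      exact Nat.le_mul_of_pos_left _ (hge τ hτ)
    have hjm : VS vol Sm ≤ j := hV1.trans hj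
    have hjm' : j + VS vol Sm ≤ L := (Nat.add_le_add_left hV1 j).trans hj'
    obtain ⟨p, r, o, e, h1⟩ := hI.total (b + j)
    have h2 := hI.ul Sm b b' L hS1 hS2 hc j hjm hjm' p r o e h1
    have hgap := hI.gap _ _ _ _ _ h1
    obtain ⟨pa, ra, oa, ea, ha, haS⟩ := hP j (by omega)
    obtain ⟨pb, rb, ob, eb, hb, hbS⟩ := hP' j (by omega)
    obtain ⟨rfl, rfl, rfl, rfl⟩ := hst.unique ha
    have hτa := hT.p1 _ _ _ _ _ _ _ _ _ h1 hst
    have hτb := hT.p1 _ _ _ _ _ _ _ _ _ h2 hb
    have hτ : (p, r) ∈ Sm := Finset.mem_biUnion.2 ⟨_, haS, hτa⟩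
    by_cases hcard : (S.filter (fun σ => (p, r) ∈ par σ)).card ≤ 1
    · have hσ : (p', r') = (pb, rb) := by
        apply Finset.card_le_one.1 hcard
        · exact Finset.mem_filter.2 ⟨haS, hτa⟩
        · exact Finset.mem_filter.2 ⟨hbS, hτb⟩
      obtain ⟨rfl, rfl⟩ := Prod.mk.inj hσ
      have ho := hT.p2 _ _ _ _ _ _ _ _ _ _ _ _ h1 h2 hst hb
      subst ho
      have g1 := hT.gap _ _ _ _ _ hst
      have g2 := hT.gap _ _ _ _ _ hb
      have : e' = eb := by omega
      rw [this]; exact hb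
    · rw [not_le] at hcard
      have hV2 : VS vol Sm + vol (p, r) ≤ VS (fun σ => ∑ τ ∈ par σ, vol τ) S := by
        rw [hdc]
        unfold VS
        rw [← Finset.add_sum_erase _ _ hτ, ← Finset.add_sum_erase (f := fun τ =>
          (S.filter (fun σ => τ ∈ par σ)).card * vol τ) _ hτ]
        have h3 : ∑ x ∈ Sm.erase (p, r), vol x ≤
            ∑ x ∈ Sm.erase (p, r), (S.filter (fun σ => x ∈ par σ)).card * vol x := by
          apply Finset.sum_le_sum
          intro τ hτ
          exact Nat.le_mul_of_pos_left _ (hge τ (Finset.mem_of_mem_erase hτ))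
        have h4 : 2 * vol (p, r) ≤ (S.filter (fun σ => (p, r) ∈ par σ)).card * vol (p, r) :=
          Nat.mul_le_mul_right _ hcard
        omega
      refine hT.p3 _ _ _ _ _ _ h1 h2 ?_ ?_ _ _ _ _ hst
      · intro p3 r3 o3 e3 h3
        have e1 : b + (j : ℤ) + e + 1 = b + ((j + e + 1 : ℕ) : ℤ) := by push_cast; ring
        have e2 : b' + (j : ℤ) + e + 1 = b' + ((j + e + 1 : ℕ) : ℤ) := by push_cast; ring
        rw [e1] at h3; rw [e2]
        exact hI.ul Sm b b' L hS1 hS2 hc (j + e + 1) (by omega) (by omega) _ _ _ _ h3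
      · intro p3 r3 o3 e3 h3
        have hle : o + 1 ≤ j := by omega
        have e1 : b + (j : ℤ) - o - 1 = b + ((j - o - 1 : ℕ) : ℤ) := by omega
        have e2 : b' + (j : ℤ) - o - 1 = b' + ((j - o - 1 : ℕ) : ℤ) := by omega
        rw [e1] at h3; rw [e2]
        exact hI.ul Sm b b' L hS1 hS2 hc (j - o - 1) (by omega) (by omega) _ _ _ _ h3

/-- UL at time `0`. -/
theorem ul0 : UL0Stmt := by
  intro M c hc
  have key : ∀ (b : ℤ) (p r : Letter M) (o e : ℕ), St (fun k => some (c k)) b p r o e →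
      o = 0 ∧ e = 0 ∧ linv p = c b ∧ r = c (b + 1) := by
    intro b p r o e h
    have ho : o = 0 := by
      by_contra hne
      exact absurd (h.2.2 b (by omega) (by omega)) (by simp)
    have he : e = 0 := by
      by_contra hne
      exact absurd (h.2.2 (b + 1) (by omega) (by omega)) (by simp)
    subst ho; subst he
    have h1 := h.1
    have h2 := h.2.1
    simp at h1 h2
    exact ⟨rfl, rfl, h1.symm, h2.symm⟩
  have mkst : ∀ b : ℤ, St (fun k => some (c k)) b (linv (c b)) (c (b + 1)) 0 0 := by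
    intro b
    refine ⟨by simp, by simp, ?_⟩
    intro j hj hj'
    exfalso; push_cast at hj hj'; omega
  refine ⟨fun b => ⟨_, _, _, _, mkst b⟩, ?_, ?_, fun _ => le_rfl, ?_⟩
  · intro b p r o e h hpr
    obtain ⟨-, -, h1, h2⟩ := key _ _ _ _ _ h
    apply hc b
    rw [← h2, ← hpr, ← h1, linv_linv]
  · intro b p r o e h
    obtain ⟨h1, h2, -, -⟩ := key _ _ _ _ _ h
    omega
  · intro S b b' L hP hP' hcc j hj hj' p r o e h
    obtain ⟨p0, r0, o0, e0, -, hS⟩ := hP 0 (Nat.zero_le _)
    have hV : 1 ≤ VS (fun _ => 1) S := by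
      unfold VS
      rw [Finset.sum_const, smul_eq_mul, mul_one]
      exact Finset.card_pos.2 ⟨_, hS⟩
    obtain ⟨rfl, rfl, h1, h2⟩ := key _ _ _ _ _ h
    have hb1 := hcc j (by omega) (by omega)
    have hb2 := hcc (j + 1) (by omega) (by omega)
    have := mkst (b' + j)
    rw [← hb1, ← h1, linv_linv] at this
    have e1 : b' + (j : ℤ) + 1 = b' + ((j + 1 : ℕ) : ℤ) := by push_cast; ring
    have e2 : b + (j : ℤ) + 1 = b + ((j + 1 : ℕ) : ℤ) := by push_cast; ring
    rw [e1, ← hb2, ← e2, ← h2] at this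
    exact this

/-! ### The names after a step -/

section step

variable {c : ℤ → Letter M} {vol : Letter M × Letter M → ℕ}

/-- `nm'` at a position followed by the status `(p, x, o, 0)` and preceding `(x⁻¹, z, 0, e)`. -/
theorem step_val {g : Option (Letter M)} (hs : StepNm C a g nm nm') {k : ℤ} {p x z : Letter M} {o e : ℕ}
    (h1 : St nm (k - 1) p x o 0) (h2 : St nm k (linv x) z 0 e) :
    nm' k = if x = a ∧ C p = true then g else if x = linv a ∧ C z = true then g.map linv
      else some x := by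
  have := hs.2 k (linv p) x z ⟨⟨o, by rw [linv_linv]; exact h1⟩, e, h2⟩
  rw [this]
  simp only [opL, linv_linv]

/-- Positions that keep their name. -/
theorem keep {g : Option (Letter M)} (tot : ∀ b, ∃ p r o e, St nm b p r o e)
    (hs : StepNm C a g nm nm') {k : ℤ} {x : Letter M} (hk : nm k = some x)
    (h1 : x = a → ∀ p o, St nm (k - 1) p x o 0 → C p = false)
    (h2 : x = linv a → ∀ z e, St nm k (linv x) z 0 e → C z = false) : nm' k = some x := by
  obtain ⟨p, o, hb⟩ := before tot hk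
  obtain ⟨z, e, ha⟩ := after tot hk
  rw [step_val hs hb ha, if_neg, if_neg]
  · rintro ⟨hx, hC⟩
    rw [h2 hx z e ha] at hC; exact absurd hC (by simp)
  · rintro ⟨hx, hC⟩
    rw [h1 hx p o hb] at hC; exact absurd hC (by simp)

/-- The left end of a gap keeps its name unless its turn starts with `a⁻¹` (preceded by `C`)
or is `(a, C)`. -/
theorem keepL {g : Option (Letter M)} (tot : ∀ b, ∃ p r o e, St nm b p r o e)
    (hs : StepNm C a g nm nm') {b : ℤ} {p r : Letter M} {o e : ℕ} (h : St nm b p r o e)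
    (h1 : p = linv a → ∀ q i, St nm (b - o - 1) q a i 0 → C q = false)
    (h2 : p = a → C r = false) : nm' (b - o) = some (linv p) := by
  apply keep tot hs h.1
  · intro hx q i hq
    exact h1 (by rw [← hx, linv_linv]) q i (by rw [hx] at hq; exact hq)
  · intro hx z i hz
    have hpa : p = a := linv_inj.1 hx
    rw [linv_linv] at hz
    have h3 : St nm (b - o) p r 0 (o + e) := h.move (by push_cast; ring) (by push_cast; ring)
    obtain ⟨-, rfl, -, -⟩ := hz.unique h3
    exact h2 hpa

/-- The right end of a gap. -/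
theorem keepR {g : Option (Letter M)} (tot : ∀ b, ∃ p r o e, St nm b p r o e)
    (hs : StepNm C a g nm nm') {b : ℤ} {p r : Letter M} {o e : ℕ} (h : St nm b p r o e)
    (h1 : r = a → C p = false)
    (h2 : r = linv a → ∀ z i, St nm (b + 1 + e) a z 0 i → C z = false) :
    nm' (b + 1 + e) = some r := by
  apply keep tot hs h.2.1
  · intro hx q i hq
    have h3 : St nm (b + 1 + e - 1) p r (o + e) 0 := h.move (by push_cast; ring) (by push_cast; ring)
    obtain ⟨rfl, -, -, -⟩ := hq.unique h3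
    exact h1 hx
  · intro hx z i hz
    refine h2 hx z i ?_
    rw [hx, linv_linv] at hz
    exact hz


theorem same {g : Option (Letter M)} (hs : StepNm C a g nm nm') {b : ℤ} {p r p' r' : Letter M}
    {o e : ℕ} (h : St nm b p r o e) (hL : nm' (b - o) = some (linv p'))
    (hR : nm' (b + 1 + e) = some r') : St nm' b p' r' o e :=
  ⟨hL, hR, fun j hj hj' => hs.1 j (h.2.2 j hj hj')⟩

theorem glueR {g : Option (Letter M)} (hs : StepNm C a g nm nm') {b : ℤ} {p r p' x : Letter M}
    {o e e' : ℕ} (h : St nm b p r o e) (h' : St nm (b + 1 + e) p' x 0 e')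
    (hL : nm' (b - o) = some (linv p)) (hM : nm' (b + 1 + e) = none)
    (hR : nm' (b + 1 + e + 1 + e') = some x) : St nm' b p x o (e + 1 + e') := by
  refine ⟨hL, ?_, ?_⟩
  · rw [← hR]; congr 1; push_cast; ring
  · intro j hj hj'
    push_cast at hj'
    rcases lt_trichotomy j (b + 1 + e) with hlt | heq | hgt
    · exact hs.1 j (h.2.2 j hj hlt)
    · rw [heq]; exact hM
    · exact hs.1 j (h'.2.2 j (by push_cast; omega) (by omega))

theorem glueL {g : Option (Letter M)} (hs : StepNm C a g nm nm') {b : ℤ} {p r q x : Letter M}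
    {o e o' : ℕ} (h : St nm b p r o e) (h' : St nm (b - o - 1) q x o' 0)
    (hL : nm' (b - o - 1 - o') = some (linv q)) (hM : nm' (b - o) = none)
    (hR : nm' (b + 1 + e) = some r) : St nm' b q r (o + 1 + o') e := by
  refine ⟨?_, hR, ?_⟩
  · rw [← hL]; congr 1; push_cast; ring
  · intro j hj hj'
    push_cast at hj
    rcases lt_trichotomy j (b - o) with hlt | heq | hgt
    · exact hs.1 j (h'.2.2 j (by omega) (by push_cast; omega))
    · rw [heq]; exact hM
    · exact hs.1 j (h.2.2 j hgt hj')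

/-- The five cases of a slide. -/
theorem slide_cases (tot : ∀ b, ∃ p r o e, St nm b p r o e)
    (red : ∀ b p r o e, St nm b p r o e → p ≠ r) (hok : OkNm nm C a)
    (hs : StepNm C a none nm nm') {b : ℤ} {p r : Letter M} {o e : ℕ} (h : St nm b p r o e) :
    (C p = true ∧ r = a ∧ ∃ x i, St nm (b + 1 + e) (linv a) x 0 i ∧ C x = false ∧
      St nm' b p x o (e + 1 + i)) ∨
    (p = linv a ∧ C r = false ∧ ∃ q i, St nm (b - o - 1) q a i 0 ∧
      ((C q = true ∧ St nm' b q r (o + 1 + i) e) ∨ (C q = false ∧ St nm' b p r o e))) ∨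
    (r = linv a ∧ C p = false ∧ ∃ z i, St nm (b + 1 + e) a z 0 i ∧
      ((C z = true ∧ St nm' b p z o (e + 1 + i)) ∨ (C z = false ∧ St nm' b p r o e))) ∨
    (p = a ∧ C r = true ∧ ∃ x i, St nm (b - o - 1) x (linv a) i 0 ∧ C x = false ∧
      St nm' b x r (o + 1 + i) e) ∨
    (C p = C r ∧ p ≠ linv a ∧ r ≠ linv a ∧ St nm' b p r o e) := by
  have hpr := red _ _ _ _ _ h
  have haa : linv a ≠ a := linv_ne a
  have hne : ∀ x : Letter M, C x = true → x ≠ a ∧ x ≠ linv a := by
    intro x hx
    constructor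
    · rintro rfl; rw [hok.a_not] at hx; exact absurd hx (by simp)
    · rintro rfl; rw [hok.a_inv_not] at hx; exact absurd hx (by simp)
  by_cases hA : C p = true ∧ r = a
  · obtain ⟨hCp, rfl⟩ := hA
    refine Or.inl ⟨hCp, rfl, ?_⟩
    obtain ⟨x, i, hx⟩ := after tot h.2.1
    have hCx : C x = false := by
      by_contra hcon
      rw [Bool.not_eq_false] at hcon
      exact haa (hok.bd' _ _ _ _ _ hx hok.a_inv_not hcon)
    refine ⟨x, i, hx, hCx, glueR hs h hx ?_ ?_ ?_⟩
    · apply keepL tot hs h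
      · intro h1; exact absurd h1 (hne p hCp).2
      · intro h1; exact absurd h1 (hne p hCp).1
    · have hb : St nm (b + 1 + e - 1) p r (o + e) 0 := h.move (by push_cast; ring) (by push_cast; ring)
      rw [step_val hs hb hx, if_pos ⟨rfl, hCp⟩]
    · apply keepR tot hs hx
      · intro _; exact hok.a_inv_not
      · intro h1; exact absurd h1.symm (red _ _ _ _ _ hx)
  by_cases hB : p = linv a
  · subst hB
    have hCr : C r = false := by
      by_contra hcon
      rw [Bool.not_eq_false] at hcon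
      exact haa (hok.bd' _ _ _ _ _ h hok.a_inv_not hcon)
    have hkR : nm' (b + 1 + e) = some r := by
      apply keepR tot hs h
      · intro _; exact hok.a_inv_not
      · intro h1; exact absurd h1.symm hpr
    obtain ⟨q, i, hq⟩ := before tot h.1
    rw [linv_linv] at hq
    refine Or.inr (Or.inl ⟨rfl, hCr, q, i, hq, ?_⟩)
    by_cases hCq : C q = true
    · refine Or.inl ⟨hCq, glueL hs h hq ?_ ?_ hkR⟩
      · apply keepL tot hs hq
        · intro h1; exact absurd h1 (hne q hCq).2
        · intro h1; exact absurd h1 (hne q hCq).1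
      · have ha : St nm (b - o) (linv a) r 0 (o + e) := h.move (by push_cast; ring) (by push_cast; ring)
        rw [step_val hs hq ha, if_pos ⟨rfl, hCq⟩]
    · rw [Bool.not_eq_true] at hCq
      refine Or.inr ⟨hCq, same hs h ?_ hkR⟩
      apply keepL tot hs h
      · intro _ q' i' hq'
        obtain ⟨rfl, -, -, -⟩ := hq'.unique hq
        exact hCq
      · intro h1; exact absurd h1 haa
  by_cases hCc : r = linv a
  · subst hCc
    have hCp : C p = false := by
      by_contra hcon
      rw [Bool.not_eq_false] at hcon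
      exact haa (hok.bd _ _ _ _ _ h hcon hok.a_inv_not)
    have hkL : nm' (b - o) = some (linv p) := by
      apply keepL tot hs h
      · intro h1; exact absurd h1 hpr
      · intro _; exact hok.a_inv_not
    obtain ⟨z, i, hz⟩ := after tot h.2.1
    rw [linv_linv] at hz
    refine Or.inr (Or.inr (Or.inl ⟨rfl, hCp, z, i, hz, ?_⟩))
    by_cases hCz : C z = true
    · refine Or.inl ⟨hCz, glueR hs h hz hkL ?_ ?_⟩
      · have hb : St nm (b + 1 + e - 1) p (linv a) (o + e) 0 :=
          h.move (by push_cast; ring) (by push_cast; ring)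
        have hz' : St nm (b + 1 + e) (linv (linv a)) z 0 i := by rw [linv_linv]; exact hz
        rw [step_val hs hb hz', if_neg (fun hh => haa hh.1), if_pos ⟨rfl, hCz⟩]; rfl
      · apply keepR tot hs hz
        · intro h1; exact absurd h1 (hne z hCz).1
        · intro h1; exact absurd h1 (hne z hCz).2
    · rw [Bool.not_eq_true] at hCz
      refine Or.inr ⟨hCz, same hs h hkL ?_⟩
      apply keepR tot hs h
      · intro h1; exact absurd h1 haa
      · intro _ z' i' hz'
        obtain ⟨-, rfl, -, -⟩ := hz'.unique hz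
        exact hCz
  by_cases hD : p = a ∧ C r = true
  · obtain ⟨rfl, hCr⟩ := hD
    refine Or.inr (Or.inr (Or.inr (Or.inl ⟨rfl, hCr, ?_⟩)))
    obtain ⟨x, i, hx⟩ := before tot h.1
    have hCx : C x = false := by
      by_contra hcon
      rw [Bool.not_eq_false] at hcon
      exact haa (hok.bd _ _ _ _ _ hx hcon hok.a_inv_not)
    refine ⟨x, i, hx, hCx, glueL hs h hx ?_ ?_ ?_⟩
    · apply keepL tot hs hx
      · intro h1; exact absurd h1 (red _ _ _ _ _ hx)
      · intro _; exact hok.a_inv_not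
    · have ha : St nm (b - o) (linv (linv p)) r 0 (o + e) := by
        rw [linv_linv]; exact h.move (by push_cast; ring) (by push_cast; ring)
      rw [step_val hs hx ha, if_neg (fun hh => haa hh.1), if_pos ⟨rfl, hCr⟩]; rfl
    · apply keepR tot hs h
      · intro h1; exact absurd h1 (hne r hCr).1
      · intro h1; exact absurd h1 (hne r hCr).2
  · refine Or.inr (Or.inr (Or.inr (Or.inr ⟨?_, hB, hCc, same hs h ?_ ?_⟩)))
    · cases hCp : C p <;> cases hCr : C r
      · rfl
      · exact absurd ⟨hok.bd' _ _ _ _ _ h hCp hCr, hCr⟩ hD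
      · exact absurd ⟨hCp, hok.bd _ _ _ _ _ h hCp hCr⟩ hA
      · rfl
    · apply keepL tot hs h
      · intro h1; exact absurd h1 hB
      · intro h1
        by_contra hcon
        rw [Bool.not_eq_false] at hcon
        exact hD ⟨h1, hcon⟩
    · apply keepR tot hs h
      · intro h1
        by_contra hcon
        rw [Bool.not_eq_false] at hcon
        exact hA ⟨hcon, h1⟩
      · intro h1; exact absurd h1 hCc


/-! ### Slides -/

/-- The new status of a boundary point after a slide. -/
def ns (C : Letter M → Bool) (a p r : Letter M) (o e : ℕ) (x : Letter M) (i : ℕ) (q : Letter M)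
    (i' : ℕ) : Letter M × Letter M × ℕ × ℕ :=
  if C p = true ∧ r = a then (p, x, o, e + 1 + i)
  else if p = linv a ∧ C q = true then (q, r, o + 1 + i', e)
  else if r = linv a ∧ C x = true then (p, x, o, e + 1 + i)
  else if p = a ∧ C r = true then (q, r, o + 1 + i', e)
  else (p, r, o, e)

/-- The parents of a turn after a slide. -/
def parS (C : Letter M → Bool) (a : Letter M) (σ : Letter M × Letter M) :
    Finset (Letter M × Letter M) :=
  if C σ.1 = true ∧ C σ.2 = false then {(σ.1, a), (linv a, σ.2)}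
  else if C σ.1 = false ∧ C σ.2 = true then {(σ.1, linv a), (a, σ.2)}
  else {σ}

theorem slide_ns (tot : ∀ b, ∃ p r o e, St nm b p r o e)
    (red : ∀ b p r o e, St nm b p r o e → p ≠ r) (hok : OkNm nm C a)
    (hs : StepNm C a none nm nm') {b : ℤ} {p r x q : Letter M} {o e i i' : ℕ}
    (h : St nm b p r o e) (hx : St nm (b + 1 + e) (linv r) x 0 i)
    (hq : St nm (b - o - 1) q (linv p) i' 0) :
    St nm' b (ns C a p r o e x i q i').1 (ns C a p r o e x i q i').2.1
      (ns C a p r o e x i q i').2.2.1 (ns C a p r o e x i q i').2.2.2 := by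
  have hpr := red _ _ _ _ _ h
  have haa : linv a ≠ a := linv_ne a
  unfold ns
  rcases slide_cases tot red hok hs h with ⟨hC, rfl, y, j, hy, hCy, hn⟩ | ⟨rfl, hCr, y, j, hy, hn⟩ |
      ⟨rfl, hCp, y, j, hy, hn⟩ | ⟨rfl, hCr, y, j, hy, hCy, hn⟩ | ⟨hCC, h1, h2, hn⟩
  · obtain ⟨-, rfl, -, rfl⟩ := hy.unique hx
    rw [if_pos ⟨hC, rfl⟩]; exact hn
  · rw [linv_linv] at hq
    obtain ⟨rfl, -, rfl, -⟩ := hy.unique hq
    rw [if_neg (fun hh => by rw [hok.a_inv_not] at hh; exact absurd hh.1 (by simp))]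
    rcases hn with ⟨hC, hn⟩ | ⟨hC, hn⟩
    · rw [if_pos ⟨rfl, hC⟩]; exact hn
    · rw [if_neg (fun hh => by rw [hC] at hh; exact absurd hh.2 (by simp)),
        if_neg (fun hh => hpr hh.1.symm), if_neg (fun hh => haa hh.1)]; exact hn
  · rw [linv_linv] at hx
    obtain ⟨-, rfl, -, rfl⟩ := hy.unique hx
    rw [if_neg (fun hh => haa hh.2), if_neg (fun hh => hpr hh.1)]
    rcases hn with ⟨hC, hn⟩ | ⟨hC, hn⟩
    · rw [if_pos ⟨rfl, hC⟩]; exact hn
    · rw [if_neg (fun hh => by rw [hC] at hh; exact absurd hh.2 (by simp)),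
        if_neg (fun hh => by rw [hok.a_inv_not] at hh; exact absurd hh.2 (by simp))]; exact hn
  · obtain ⟨rfl, -, rfl, -⟩ := hy.unique hq
    rw [if_neg (fun hh => by rw [hok.a_not] at hh; exact absurd hh.1 (by simp)),
      if_neg (fun hh => haa hh.1.symm),
      if_neg (fun hh => by rw [hh.1, hok.a_inv_not] at hCr; exact absurd hCr (by simp)),
      if_pos ⟨rfl, hCr⟩]
    exact hn
  · rw [if_neg (fun hh => by rw [hh.1, hh.2, hok.a_not] at hCC; exact absurd hCC (by simp)),
      if_neg (fun hh => h1 hh.1), if_neg (fun hh => h2 hh.1),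
      if_neg (fun hh => by rw [hh.1, hh.2, hok.a_not] at hCC; exact absurd hCC (by simp))]
    exact hn

theorem slide_sum (hI : Inv c nm vol) (hok : OkNm nm C a)
    (hs : StepNm C a none nm nm') {b : ℤ} {p r : Letter M} {o e : ℕ}
    (h : St nm b p r o e) : ∃ p' r' o' e', St nm' b p' r' o' e' ∧ p' ≠ r' ∧
      (p, r) ∈ parS C a (p', r') ∧ o' + e' + 1 = ∑ τ ∈ parS C a (p', r'), vol τ ∧
      o' = if p = a ∧ C r = true then o + vol (p', linv a)
        else if p = linv a ∧ C p' = true then o + vol (p', a) else o := by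
  have hpr := hI.red _ _ _ _ _ h
  have haa : linv a ≠ a := linv_ne a
  have hg := hI.gap _ _ _ _ _ h
  have hnC : ∀ y : Letter M, C y = true → y ≠ a ∧ y ≠ linv a := by
    intro x hx
    constructor
    · rintro rfl; rw [hok.a_not] at hx; exact absurd hx (by simp)
    · rintro rfl; rw [hok.a_inv_not] at hx; exact absurd hx (by simp)
  have hneq : ∀ y z : Letter M, C y = true → C z = false → y ≠ z := by
    rintro y z h1 h2 rfl; rw [h1] at h2; exact absurd h2 (by simp)
  rcases slide_cases hI.total hI.red hok hs h with ⟨hC, rfl, y, j, hy, hCy, hn⟩ |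
      ⟨rfl, hCr, y, j, hy, ⟨hC, hn⟩ | ⟨hC, hn⟩⟩ |
      ⟨rfl, hCp, y, j, hy, ⟨hC, hn⟩ | ⟨hC, hn⟩⟩ | ⟨rfl, hCr, y, j, hy, hCy, hn⟩ | ⟨hCC, h1, h2, hn⟩
  · have hg' := hI.gap _ _ _ _ _ hy
    refine ⟨_, _, _, _, hn, hneq _ _ hC hCy, ?_, ?_, ?_⟩
    · simp [parS, hC, hCy]
    · simp only [parS, hC, hCy, and_self, if_true]
      rw [Finset.sum_pair (by intro hh; exact (hnC p hC).2 (Prod.mk.inj hh).1), ← hg, ← hg']
      omega
    · rw [if_neg (fun hh => (hnC p hC).1 hh.1), if_neg (fun hh => (hnC p hC).2 hh.1)]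
  · have hg' := hI.gap _ _ _ _ _ hy
    refine ⟨_, _, _, _, hn, hneq _ _ hC hCr, ?_, ?_, ?_⟩
    · simp [parS, hC, hCr]
    · simp only [parS, hC, hCr, and_self, if_true]
      rw [Finset.sum_pair (by intro hh; exact (hnC y hC).2 (Prod.mk.inj hh).1), ← hg, ← hg']
      omega
    · rw [if_neg (fun hh => haa hh.1), if_pos ⟨rfl, hC⟩, ← hg']; omega
  · refine ⟨_, _, _, _, hn, hpr, ?_, ?_, ?_⟩
    · simp [parS, hok.a_inv_not, hCr]
    · simp [parS, hok.a_inv_not, hCr, hg]
    · rw [if_neg (fun hh => haa hh.1),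
        if_neg (fun hh => by rw [hok.a_inv_not] at hh; exact absurd hh.2 (by simp))]
  · have hg' := hI.gap _ _ _ _ _ hy
    refine ⟨_, _, _, _, hn, (hneq _ _ hC hCp).symm, ?_, ?_, ?_⟩
    · simp [parS, hC, hCp]
    · simp only [parS, hC, hCp, and_self, if_true, Bool.false_eq_true, false_and, if_false]
      rw [Finset.sum_pair (by intro hh; exact (hnC y hC).2 (Prod.mk.inj hh).2.symm), ← hg, ← hg']
      omega
    · rw [if_neg (fun hh => by rw [hok.a_inv_not] at hh; exact absurd hh.2 (by simp)),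
        if_neg (fun hh => hpr hh.1)]
  · refine ⟨_, _, _, _, hn, hpr, ?_, ?_, ?_⟩
    · simp [parS, hok.a_inv_not, hCp]
    · simp [parS, hok.a_inv_not, hCp, hg]
    · rw [if_neg (fun hh => by rw [hok.a_inv_not] at hh; exact absurd hh.2 (by simp)),
        if_neg (fun hh => hpr hh.1)]
  · have hg' := hI.gap _ _ _ _ _ hy
    refine ⟨_, _, _, _, hn, (hneq _ _ hCr hCy).symm, ?_, ?_, ?_⟩
    · simp [parS, hCr, hCy]
    · simp only [parS, hCr, hCy, and_self, if_true, Bool.false_eq_true, false_and, if_false]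
      rw [Finset.sum_pair (by intro hh; exact (hnC r hCr).2 (Prod.mk.inj hh).2.symm), ← hg, ← hg']
      omega
    · rw [if_pos ⟨rfl, hCr⟩, ← hg']; omega
  · refine ⟨_, _, _, _, hn, hpr, ?_, ?_, ?_⟩
    · unfold parS
      cases hCr : C r <;> rw [hCr] at hCC <;> simp [hCC]
    · unfold parS
      cases hCr : C r <;> rw [hCr] at hCC <;> simp [hCC, hg]
    · rw [if_neg (fun hh => by rw [hh.1, hh.2, hok.a_not] at hCC; exact absurd hCC (by simp)),
        if_neg (fun hh => h1 hh.1)]

theorem slide_tr (hI : Inv c nm vol) (hok : OkNm nm C a) (hs : StepNm C a none nm nm') :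
    Tr vol nm nm' (parS C a) := by
  refine ⟨?_, ?_, ?_, ?_, ?_, ?_, ?_⟩
  · intro b
    obtain ⟨p, r, o, e, h⟩ := hI.total b
    obtain ⟨p', r', o', e', h', -⟩ := slide_sum hI hok hs h
    exact ⟨_, _, _, _, h'⟩
  · intro b p' r' o' e' h'
    obtain ⟨p, r, o, e, h⟩ := hI.total b
    obtain ⟨p1, r1, o1, e1, h1, h2, -⟩ := slide_sum hI hok hs h
    obtain ⟨rfl, rfl, rfl, rfl⟩ := h1.unique h'
    exact h2
  · intro b p r o e p' r' o' e' h h'
    obtain ⟨p1, r1, o1, e1, h1, h2, h3, -⟩ := slide_sum hI hok hs h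
    obtain ⟨rfl, rfl, rfl, rfl⟩ := h1.unique h'
    exact h3
  · intro b p' r' o' e' h'
    obtain ⟨p, r, o, e, h⟩ := hI.total b
    obtain ⟨p1, r1, o1, e1, h1, h2, h3, h4, -⟩ := slide_sum hI hok hs h
    obtain ⟨rfl, rfl, rfl, rfl⟩ := h1.unique h'
    exact h4
  · intro b b2 p r o e p' r' o1 e1 o2 e2 h h2 h3 h4
    obtain ⟨p1, r1, o1', e1', h1', -, -, -, h5⟩ := slide_sum hI hok hs h
    obtain ⟨rfl, rfl, rfl, rfl⟩ := h1'.unique h3
    obtain ⟨p2, r2, o2', e2', h2', -, -, -, h6⟩ := slide_sum hI hok hs h2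
    obtain ⟨rfl, rfl, rfl, rfl⟩ := h2'.unique h4
    rw [h5, h6]
  · intro b b2 p r o e h h2 hf hb p' r' o' e' h'
    obtain ⟨x, i, hx⟩ := after hI.total h.2.1
    obtain ⟨q, i', hq⟩ := before hI.total h.1
    have hx2 : St nm (b2 + 1 + e) (linv r) x 0 i := by
      have e1 : b + 1 + (e : ℤ) = b + e + 1 := by ring
      have e2 : b2 + 1 + (e : ℤ) = b2 + e + 1 := by ring
      rw [e1] at hx; rw [e2]; exact hf _ _ _ _ hx
    have hq2 := hb _ _ _ _ hq
    have n1 := slide_ns hI.total hI.red hok hs h hx hq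
    have n2 := slide_ns hI.total hI.red hok hs h2 hx2 hq2
    obtain ⟨h5, h6, h7, h8⟩ := h'.unique n1
    rw [h5, h6, h7, h8]
    exact n2
  · intro σ
    unfold parS
    split_ifs <;> simp


/-! ### Splits -/

/-- The new turn of a boundary point after a split. -/
def nt (C : Letter M → Bool) (a f p r x q : Letter M) : Letter M × Letter M :=
  (if linv p = a ∧ C q = true then linv f else if p = a ∧ C r = true then f else p,
   if r = a ∧ C p = true then f else if r = linv a ∧ C x = true then linv f else r)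

/-- The parent of a turn after a split. -/
def parent (a f : Letter M) (σ : Letter M × Letter M) : Letter M × Letter M :=
  if σ.2 = f then (σ.1, a) else if σ.1 = f then (a, σ.2) else if σ.1 = linv f then (linv a, σ.2)
  else if σ.2 = linv f then (σ.1, linv a) else σ

theorem split_nt {f : Letter M} (hs : StepNm C a (some f) nm nm') {b : ℤ} {p r x q : Letter M}
    {o e i i' : ℕ} (h : St nm b p r o e) (hx : St nm (b + 1 + e) (linv r) x 0 i)
    (hq : St nm (b - o - 1) q (linv p) i' 0) :
    St nm' b (nt C a f p r x q).1 (nt C a f p r x q).2 o e := by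
  have hb : St nm (b + 1 + e - 1) p r (o + e) 0 := h.move (by push_cast; ring) (by push_cast; ring)
  have ha : St nm (b - o) (linv (linv p)) r 0 (o + e) := by
    rw [linv_linv]; exact h.move (by push_cast; ring) (by push_cast; ring)
  apply same hs h
  · rw [step_val hs hq ha]
    unfold nt
    by_cases h1 : linv p = a ∧ C q = true
    · simp [h1]
    · by_cases h2 : p = a ∧ C r = true
      · have h2' : linv p = linv a ∧ C r = true := ⟨by rw [h2.1], h2.2⟩
        rw [if_neg h1, if_pos h2', if_neg h1, if_pos h2]; rfl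
      · have h2' : ¬ (linv p = linv a ∧ C r = true) := fun hh => h2 ⟨linv_inj.1 hh.1, hh.2⟩
        rw [if_neg h1, if_neg h2', if_neg h1, if_neg h2]
  · rw [step_val hs hb hx]
    unfold nt
    simp only
    split_ifs <;> rfl

theorem split_sum {f : Letter M} (hI : Inv c nm vol) (hok : OkNm nm C a)
    (hf : Fresh nm C a (some f)) {b : ℤ} {p r x q : Letter M} {o e : ℕ}
    (h : St nm b p r o e) : (nt C a f p r x q).1 ≠ (nt C a f p r x q).2 ∧
      parent a f (nt C a f p r x q) = (p, r) := by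
  have hpr := hI.red _ _ _ _ _ h
  have haa : linv a ≠ a := linv_ne a
  have hff : linv f ≠ f := linv_ne f
  obtain ⟨hf1, -, -, -⟩ := hf f rfl
  have hp1 : p.1 ≠ f.1 := hf1 _ (linv p) h.1
  have hr1 : r.1 ≠ f.1 := hf1 _ r h.2.1
  have hpf : p ≠ f := fun hh => hp1 (by rw [hh])
  have hpf' : p ≠ linv f := fun hh => hp1 (by rw [hh]; rfl)
  have hrf : r ≠ f := fun hh => hr1 (by rw [hh])
  have hrf' : r ≠ linv f := fun hh => hr1 (by rw [hh]; rfl)
  have hca := hok.a_not
  have hca' := hok.a_inv_not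
  by_cases hA : r = a ∧ C p = true
  · have h1 : ¬ (linv p = a ∧ C q = true) := fun hh => by
      have : p = linv a := by rw [← hh.1, linv_linv]
      rw [this, hca'] at hA; exact absurd hA.2 (by simp)
    have h2 : ¬ (p = a ∧ C r = true) := fun hh => by
      rw [hh.1, hca] at hA; exact absurd hA.2 (by simp)
    have hn : nt C a f p r x q = (p, f) := by
      unfold nt; rw [if_neg h1, if_neg h2, if_pos hA]
    rw [hn]
    refine ⟨hpf, ?_⟩
    simp [parent, hA.1]
  by_cases hB : linv p = a ∧ C q = true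
  · have hpa : p = linv a := by rw [← hB.1, linv_linv]
    have h2 : ¬ (r = linv a ∧ C x = true) := fun hh => hpr (by rw [hpa, hh.1])
    have hn : nt C a f p r x q = (linv f, r) := by
      unfold nt; rw [if_pos hB, if_neg hA, if_neg h2]
    rw [hn]
    refine ⟨hrf'.symm, ?_⟩
    simp [parent, hrf, hff, hpa]
  by_cases hD : p = a ∧ C r = true
  · have h2 : ¬ (r = linv a ∧ C x = true) := fun hh => by
      rw [hh.1, hca'] at hD; exact absurd hD.2 (by simp)
    have hn : nt C a f p r x q = (f, r) := by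
      unfold nt; rw [if_neg hB, if_pos hD, if_neg hA, if_neg h2]
    rw [hn]
    refine ⟨hrf.symm, ?_⟩
    simp [parent, hrf, hD.1]
  by_cases hC : r = linv a ∧ C x = true
  · have hn : nt C a f p r x q = (p, linv f) := by
      unfold nt; rw [if_neg hB, if_neg hD, if_neg hA, if_pos hC]
    rw [hn]
    refine ⟨hpf', ?_⟩
    simp [parent, hpf, hpf', hff, hC.1]
  · have hn : nt C a f p r x q = (p, r) := by
      unfold nt; rw [if_neg hB, if_neg hD, if_neg hA, if_neg hC]
    rw [hn]
    refine ⟨hpr, ?_⟩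
    simp [parent, hpf, hpf', hrf, hrf']

theorem split_tr {f : Letter M} (hI : Inv c nm vol) (hok : OkNm nm C a)
    (hf : Fresh nm C a (some f)) (hs : StepNm C a (some f) nm nm') :
    Tr vol nm nm' (fun σ => {parent a f σ}) := by
  have key : ∀ {b : ℤ} {p r : Letter M} {o e : ℕ}, St nm b p r o e →
      ∃ p' r', St nm' b p' r' o e ∧ p' ≠ r' ∧ parent a f (p', r') = (p, r) := by
    intro b p r o e h
    obtain ⟨x, i, hx⟩ := after hI.total h.2.1
    obtain ⟨q, i', hq⟩ := before hI.total h.1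
    obtain ⟨h1, h2⟩ := split_sum (x := x) (q := q) hI hok hf h
    exact ⟨_, _, split_nt hs h hx hq, h1, h2⟩
  refine ⟨?_, ?_, ?_, ?_, ?_, ?_, ?_⟩
  · intro b
    obtain ⟨p, r, o, e, h⟩ := hI.total b
    obtain ⟨p', r', h', -⟩ := key h
    exact ⟨_, _, _, _, h'⟩
  · intro b p' r' o' e' h'
    obtain ⟨p, r, o, e, h⟩ := hI.total b
    obtain ⟨p1, r1, h1, h2, -⟩ := key h
    obtain ⟨rfl, rfl, rfl, rfl⟩ := h1.unique h'
    exact h2
  · intro b p r o e p' r' o' e' h h'
    obtain ⟨p1, r1, h1, h2, h3⟩ := key h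
    obtain ⟨rfl, rfl, rfl, rfl⟩ := h1.unique h'
    exact Finset.mem_singleton.2 h3.symm
  · intro b p' r' o' e' h'
    obtain ⟨p, r, o, e, h⟩ := hI.total b
    obtain ⟨p1, r1, h1, h2, h3⟩ := key h
    obtain ⟨rfl, rfl, rfl, rfl⟩ := h1.unique h'
    rw [Finset.sum_singleton, h3]
    exact hI.gap _ _ _ _ _ h
  · intro b b2 p r o e p' r' o1 e1 o2 e2 h h2 h3 h4
    obtain ⟨_, _, h5, -⟩ := key h
    obtain ⟨_, _, h6, -⟩ := key h2
    obtain ⟨-, -, rfl, -⟩ := h5.unique h3
    obtain ⟨-, -, h7, -⟩ := h6.unique h4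
    exact h7
  · intro b b2 p r o e h h2 hff hb p' r' o' e' h'
    obtain ⟨x, i, hx⟩ := after hI.total h.2.1
    obtain ⟨q, i', hq⟩ := before hI.total h.1
    have hx2 : St nm (b2 + 1 + e) (linv r) x 0 i := by
      have e1 : b + 1 + (e : ℤ) = b + e + 1 := by ring
      have e2 : b2 + 1 + (e : ℤ) = b2 + e + 1 := by ring
      rw [e1] at hx; rw [e2]; exact hff _ _ _ _ hx
    have hq2 := hb _ _ _ _ hq
    have n1 := split_nt hs h hx hq
    have n2 := split_nt hs h2 hx2 hq2
    obtain ⟨h5, h6, h7, h8⟩ := h'.unique n1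
    rw [h5, h6, h7, h8]
    exact n2
  · intro σ
    exact Finset.singleton_nonempty _

end step

/-- UL: the invariant is preserved by elementary steps. -/
theorem ul : ULStmt := by
  intro M c nm nm' vol C a g hI hok hf hs
  cases g with
  | none => exact ⟨_, ul_step hI (slide_tr hI hok hs)⟩
  | some f => exact ⟨_, ul_step hI (split_tr hI hok hf hs)⟩

end Pool.Agent.Lib.MP_0c2883_lc.All.SG
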