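import Pool.Agent.Lib.MP_0c2883_lc.All.Cuts
import Pool.Agent.Lib.MP_0c2883_lc.All.SGUL

/-!
# SG, part GG: small grammars for the words of alive names
-/

set_option autoImplicit false

namespace Pool.Agent.Lib.MP_0c2883_lc.All.SGG

open Pool.Agent.Lib.PolyTime List Pool.Agent.Lib.MP_0c2883_lc.All
open Pool.Agent.Lib.MP_0c2883_lc.All.SG

variable {M : ℕ}

/-! ### Merging grammars -/

/-- `u` is the word of a rule of `G`. -/
def In (G : Gram M) (u : List (Letter M)) : Prop := ∃ i < G.length, V G i = u

theorem In.mono {G : Gram M} {u : List (Letter M)} (h : In G u) (G' : Gram M) : In (G ++ G') u := by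
  obtain ⟨i, hi, hu⟩ := h
  exact ⟨i, by rw [List.length_append]; omega, by rw [V_append hi]; exact hu⟩

theorem good0 : Good ([none] : Gram M) := by
  refine ⟨?_, rfl⟩
  intro i a b h
  rcases i with _ | i
  · simp at h
  · simp at h

theorem in_nil {G : Gram M} (h : Good G) : In G [] := ⟨0, h.pos, h.V0⟩

/-- Shifting the indices of a rule. -/
def sh (m : ℕ) (r : GRule M) : GRule M := r.map (Sum.map id (fun p => (p.1 + m, p.2 + m)))

theorem good_shift {G K : Gram M} (hG : Good G) (hK : Good K) :
    Good (G ++ K.map (sh G.length)) := by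
  refine ⟨?_, by rw [List.getElem?_append_left hG.pos]; exact hG.2⟩
  intro i a b h
  by_cases hi : i < G.length
  · rw [List.getElem?_append_left hi] at h
    exact hG.1 i a b h
  · rw [List.getElem?_append_right (by omega), List.getElem?_map] at h
    rcases hr : K[i - G.length]? with _ | r
    · rw [hr] at h; simp at h
    · rw [hr] at h
      rcases r with _ | x | ⟨a', b'⟩
      · simp [sh] at h
      · simp [sh] at h
      · simp only [sh, Option.map_some, Sum.map_inr, Option.some.injEq, Sum.inr.injEq,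
          Prod.mk.injEq] at h
        have := hK.1 _ _ _ hr
        omega

theorem V_shift {G K : Gram M} (hG : Good G) (hK : Good K) (i : ℕ) (hi : i < K.length) :
    V (G ++ K.map (sh G.length)) (G.length + i) = V K i := by
  induction i using Nat.strong_induction_on with
  | _ i ih =>
    have h1 : (G ++ K.map (sh G.length))[G.length + i]? = (K[i]?).map (sh G.length) := by
      rw [List.getElem?_append_right (by omega), List.getElem?_map]
      congr 2; omega
    rcases hr : K[i]? with _ | r
    · rw [List.getElem?_eq_none_iff] at hr; omega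
    · rw [hr] at h1
      rcases r with _ | x | ⟨a, b⟩
      · rw [V_none hr]
        exact V_none h1
      · rw [V_letter hr]
        exact V_letter h1
      · obtain ⟨ha, hb⟩ := hK.1 _ _ _ hr
        rw [V_cat hK.1 hr]
        have h2 : (G ++ K.map (sh G.length))[G.length + i]? =
            some (some (Sum.inr (a + G.length, b + G.length))) := h1
        rw [V_cat (good_shift hG hK).1 h2, Nat.add_comm a, Nat.add_comm b, ih a ha (by omega),
          ih b hb (by omega)]

/-- Adding the rules of another grammar. -/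
theorem add_gram {G K : Gram M} (hG : Good G) (hK : Good K) :
    ∃ G', Good (G ++ G') ∧ G'.length = K.length ∧ ∀ u, In K u → In (G ++ G') u := by
  refine ⟨K.map (sh G.length), good_shift hG hK, by simp, ?_⟩
  rintro u ⟨i, hi, rfl⟩
  exact ⟨G.length + i, by simp; omega, V_shift hG hK i hi⟩

/-- Adding a concatenation. -/
theorem add_cat {G : Gram M} (hG : Good G) {u v : List (Letter M)} (hu : In G u) (hv : In G v) :
    ∃ r, Good (G ++ [r]) ∧ In (G ++ [r]) (u ++ v) := by
  obtain ⟨i, hi, rfl⟩ := hu
  obtain ⟨j, hj, rfl⟩ := hv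
  refine ⟨some (Sum.inr (i, j)), hG.concat ?_, G.length, by simp, (V_concat hG.1 hi hj).1⟩
  intro a b h
  simp only [Option.some.injEq, Sum.inr.injEq, Prod.mk.injEq] at h
  omega

theorem slp_mono {m n : ℕ} {u : List (Letter M)} (h : HasSLP m u) (hmn : m ≤ n) : HasSLP n u := by
  obtain ⟨G, hG, hl, hi⟩ := h
  exact ⟨G, hG, hl.trans hmn, hi⟩

theorem slp_append {m n : ℕ} {u v : List (Letter M)} (hu : HasSLP m u) (hv : HasSLP n v) :
    HasSLP (m + n + 1) (u ++ v) := by
  obtain ⟨G, hG, hl, hi⟩ := hu
  obtain ⟨K, hK, hl', hi'⟩ := hv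
  obtain ⟨G', g1, g2, g3⟩ := add_gram hG hK
  obtain ⟨r, r1, r2⟩ := add_cat g1 (In.mono hi G') (g3 _ hi')
  refine ⟨_, r1, ?_, r2⟩
  simp only [List.length_append, List.length_singleton]
  omega

theorem hasSLP_nil : HasSLP 1 ([] : List (Letter M)) := ⟨[none], good0, by simp, in_nil good0⟩

theorem hasSLP_single (x : Letter M) : HasSLP 2 [x] := by
  have h : Good ([none] ++ [some (Sum.inl x)] : Gram M) := good0.concat (by intro a b h; simp at h)
  exact ⟨_, h, by simp, 1, by simp, V_letter (by simp)⟩

theorem hasSLP_toList (x : Option (Letter M)) : HasSLP 2 x.toList := by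
  cases x with
  | none => exact slp_mono hasSLP_nil (by omega)
  | some x => exact hasSLP_single x

theorem H_le (G : Gram M) (hG : Valid G) (i : ℕ) : H G i ≤ i := by
  induction i using Nat.strong_induction_on with
  | _ i ih =>
    rcases hr : G[i]? with _ | r
    · have : H G i = 0 := by
        unfold H
        rw [List.getElem?_eq_none_iff.2 (by rw [length_tab]; rwa [List.getElem?_eq_none_iff] at hr)]
        rfl
      omega
    · rcases r with _ | x | ⟨a, b⟩
      · rw [H_none hr]; omega
      · have : H G i = 0 := by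
          unfold H; rw [tab_getElem? hStep hr]; rfl
        omega
      · obtain ⟨ha, hb⟩ := hG _ _ _ hr
        rw [H_cat hG hr]
        have := ih a ha
        have := ih b hb
        omega

theorem slp_part {n : ℕ} {u : List (Letter M)} (h : HasSLP n u) (r : Bool) (c : ℕ)
    (hc : c ≤ u.length) : HasSLP (2 * n) (part r u c) := by
  obtain ⟨G, hG, hl, i, hi, rfl⟩ := h
  obtain ⟨G', h1, h2, h3, h4, h5, h6⟩ := cut_spec (r := r) (c := ⟨c⟩) hG hi hc
  have := H_le G hG.1 i
  exact ⟨_, h2, by rw [List.length_append]; omega, _, h3, h4⟩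

theorem slp_take {n : ℕ} {u : List (Letter M)} (h : HasSLP n u) (c : ℕ) :
    HasSLP (2 * n) (u.take c) := by
  by_cases hc : c ≤ u.length
  · exact slp_part h false c hc
  · rw [List.take_of_length_le (by omega)]
    exact slp_mono h (by omega)

theorem slp_drop {n : ℕ} {u : List (Letter M)} (h : HasSLP n u) (c : ℕ) :
    HasSLP (2 * n) (u.drop c) := by
  by_cases hc : c ≤ u.length
  · have := slp_part h true (u.length - c) (by omega)
    simp only [All.part, if_true] at this
    rwa [show u.length - (u.length - c) = c by omega] at this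
  · have h0 : u.drop c = u.take 0 := by
      rw [List.take_zero, List.drop_eq_nil_iff]; omega
    rw [h0]
    exact slp_take h 0

/-! ### Words of windows -/

theorem length_cw (c : ℤ → Letter M) (b : ℤ) (L : ℕ) : (cw c b L).length = L := by simp [cw]

theorem cw_sub (c : ℤ → Letter M) (b : ℤ) (L s L' : ℕ) (h : s + L' ≤ L) :
    cw c (b + s) L' = ((cw c b L).drop s).take L' := by
  apply List.ext_getElem
  · simp [cw]; omega
  · intro i h1 h2
    simp only [cw, List.getElem_map, List.getElem_range, List.getElem_take, List.getElem_drop]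
    congr 1
    push_cast
    ring

theorem aw_add (nm : ℤ → Option (Letter M)) (b : ℤ) (L L' : ℕ) :
    aw nm b (L + L') = aw nm b L ++ aw nm (b + L) L' := by
  unfold aw
  rw [List.range_add, List.filterMap_append, List.filterMap_map]
  congr 1
  apply List.filterMap_congr
  intro i _
  simp only [Function.comp]
  congr 1
  push_cast
  ring

theorem aw_one (nm : ℤ → Option (Letter M)) (b : ℤ) : aw nm b 1 = (nm (b + 1)).toList := by
  unfold aw
  simp only [List.range_one, Nat.cast_zero, List.filterMap_cons, add_zero, List.filterMap_nil]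
  cases nm (b + 1) <;> rfl

theorem aw_zero (nm : ℤ → Option (Letter M)) (b : ℤ) : aw nm b 0 = [] := rfl

theorem aw_dead {nm : ℤ → Option (Letter M)} {b : ℤ} {L : ℕ}
    (h : ∀ k, b < k → k ≤ b + L → nm k = none) : aw nm b L = [] := by
  unfold aw
  rw [List.filterMap_eq_nil_iff]
  intro i hi
  rw [List.mem_range] at hi
  exact h _ (by omega) (by omega)

theorem aw_congr {nm : ℤ → Option (Letter M)} {b b' : ℤ} {L : ℕ}
    (h : ∀ i : ℕ, 1 ≤ i → i ≤ L → nm (b + i) = nm (b' + i)) : aw nm b L = aw nm b' L := by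
  unfold aw
  apply List.filterMap_congr
  intro i hi
  rw [List.mem_range] at hi
  have := h (i + 1) (by omega) (by omega)
  push_cast at this
  rw [show b + 1 + (i : ℤ) = b + (i + 1) by ring, show b' + 1 + (i : ℤ) = b' + (i + 1) by ring]
  exact this

theorem pure_sub {nm : ℤ → Option (Letter M)} {S : Finset (Letter M × Letter M)} {b : ℤ} {L s L' : ℕ}
    (h : Pure nm S b L) (hs : s + L' ≤ L) : Pure nm S (b + s) L' := by
  intro j hj
  have := h (s + j) (by omega)
  push_cast at this
  rwa [← add_assoc] at this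

/-- The status determines the name. -/
theorem nm_eq {nm : ℤ → Option (Letter M)} (tot : ∀ b, ∃ p r o e, St nm b p r o e) {k k' : ℤ}
    (h : ∀ p r o e, St nm k p r o e → St nm k' p r o e) : nm k = nm k' := by
  obtain ⟨p, r, o, e, hk⟩ := tot k
  have hk' := h _ _ _ _ hk
  rcases Nat.eq_zero_or_pos o with rfl | ho
  · have h1 := hk.1
    have h2 := hk'.1
    simp only [Nat.cast_zero, sub_zero] at h1 h2
    rw [h1, h2]
  · rw [hk.2.2 k (by omega) (by omega), hk'.2.2 k' (by omega) (by omega)]

/-! ### Short windows -/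

theorem first_occ {nm : ℤ → Option (Letter M)} {S : Finset (Letter M × Letter M)} {b : ℤ} {L : ℕ}
    (h : Pure nm S b L) (τ : Letter M × Letter M) :
    Pure nm (S.erase τ) b L ∨ ∃ j ≤ L, (∃ o e, St nm (b + j) τ.1 τ.2 o e) ∧
      ∀ i < j, ∃ p r o e, St nm (b + i) p r o e ∧ (p, r) ∈ S.erase τ := by
  classical
  by_cases hex : ∃ j, j ≤ L ∧ ∃ o e, St nm (b + (j : ℕ)) τ.1 τ.2 o e
  · right
    refine ⟨Nat.find hex, (Nat.find_spec hex).1, (Nat.find_spec hex).2, ?_⟩
    intro i hi
    obtain ⟨p, r, o, e, h1, h2⟩ := h i (by have := (Nat.find_spec hex).1; omega)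
    refine ⟨p, r, o, e, h1, Finset.mem_erase.2 ⟨?_, h2⟩⟩
    rintro rfl
    exact Nat.find_min hex hi ⟨by have := (Nat.find_spec hex).1; omega, o, e, h1⟩
  · left
    intro j hj
    obtain ⟨p, r, o, e, h1, h2⟩ := h j hj
    refine ⟨p, r, o, e, h1, Finset.mem_erase.2 ⟨?_, h2⟩⟩
    rintro rfl
    exact hex ⟨j, hj, o, e, h1⟩

/-- One occurrence of the turn `τ` is cut off. -/
theorem peel {c : ℤ → Letter M} {nm : ℤ → Option (Letter M)} {vol : Letter M × Letter M → ℕ}
    (hI : Inv c nm vol) {S : Finset (Letter M × Letter M)} {τ : Letter M × Letter M}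
    {g N : ℕ} {W : ℤ → ℕ → Prop}
    (hW : ∀ b L, W b L → Pure nm S b L)
    (hW' : ∀ b L, W b L → Pure nm (S.erase τ) b L → HasSLP g (aw nm b L))
    (hW2 : ∀ (b : ℤ) (L s L' : ℕ), W b L → s + L' ≤ L → W (b + s) L') {b : ℤ} {L : ℕ} (hb : W b L)
    (ih : ∀ (s : ℕ), s ≤ L → (∃ p r e, St nm (b + s) p r 0 e) →
      ((∃ p r e, St nm b p r 0 e) → vol τ ≤ s) → 1 ≤ s → HasSLP N (aw nm (b + s) (L - s))) :
    HasSLP (N + g + 7) (aw nm b L) := by
  rcases first_occ (hW b L hb) τ with h | ⟨j, hj, ⟨o, e, h1⟩, h2⟩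
  · exact slp_mono (hW' b L hb h) (by omega)
  · -- the part before the occurrence
    have hbef : HasSLP (g + 3) (aw nm b j) := by
      rcases Nat.eq_zero_or_pos j with rfl | hj0
      · rw [aw_zero]; exact slp_mono hasSLP_nil (by omega)
      · obtain ⟨j', rfl⟩ : ∃ j', j = j' + 1 := ⟨j - 1, by omega⟩
        rw [aw_add, aw_one]
        have h3 : W b j' := by
          have := hW2 b L 0 j' hb (by omega)
          simpa using this
        have h4 : HasSLP g (aw nm b j') := hW' b j' h3 (fun i hi => h2 i (by omega))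
        exact slp_mono (slp_append h4 (hasSLP_toList _)) (by omega)
    by_cases hL : L ≤ j + e
    · obtain ⟨L', rfl⟩ : ∃ L', L = j + L' := ⟨L - j, by omega⟩
      rw [aw_add, aw_dead (b := b + j) (L := L'), List.append_nil]
      · exact slp_mono hbef (by omega)
      · intro k hk hk'
        exact h1.2.2 k (by omega) (by omega)
    · obtain ⟨L', rfl⟩ : ∃ L', L = j + (e + (1 + L')) := ⟨L - j - e - 1, by omega⟩
      have hdead : aw nm (b + j) e = [] := by
        apply aw_dead
        intro k hk hk'
        exact h1.2.2 k (by omega) (by omega)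
      have halive : nm (b + j + e + 1) = some τ.2 := by
        have := h1.2.1
        rw [← this]; congr 1; ring
      rw [aw_add, aw_add, aw_add, hdead, aw_one, List.nil_append, halive]
      have hs := ih (j + e + 1) (by omega) (by
        obtain ⟨r, e', h⟩ := after hI.total halive
        have : b + ((j + e + 1 : ℕ) : ℤ) = b + j + e + 1 := by push_cast; ring
        rw [this]
        exact ⟨_, r, e', h⟩) (by
        rintro ⟨p, r, e', h⟩
        have ho : o = 0 := by
          by_contra ho
          rcases Nat.eq_zero_or_pos j with rfl | hj0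
          · have h1' : St nm b τ.1 τ.2 o e := by simpa using h1
            exact ho (h1'.unique h).2.2.1
          · obtain ⟨p', r', o', e'', h3, h4⟩ := h2 (j - 1) (by omega)
            have h5 : St nm (b + ((j - 1 : ℕ) : ℤ)) τ.1 τ.2 (o - 1) (e + 1) :=
              h1.move (by omega) (by omega)
            obtain ⟨rfl, rfl, -, -⟩ := h3.unique h5
            exact absurd rfl (Finset.ne_of_mem_erase h4)
        have := hI.gap _ _ _ _ _ h1
        have h6 : vol τ = vol (τ.1, τ.2) := rfl
        omega) (by omega)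
      have e1 : j + (e + (1 + L')) - (j + e + 1) = L' := by omega
      have e2 : b + ((j + e + 1 : ℕ) : ℤ) = b + j + e + (1 : ℕ) := by push_cast; ring
      rw [e1, e2] at hs
      exact slp_mono (slp_append hbef (slp_append (hasSLP_single τ.2) hs)) (by omega)

/-- Windows whose length is at most `m` times the volume of `τ`. -/
theorem short {c : ℤ → Letter M} {nm : ℤ → Option (Letter M)} {vol : Letter M × Letter M → ℕ}
    (hI : Inv c nm vol) {S : Finset (Letter M × Letter M)} {τ : Letter M × Letter M}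
    {g : ℕ} {W : ℤ → ℕ → Prop}
    (hW : ∀ b L, W b L → Pure nm S b L)
    (hW' : ∀ b L, W b L → Pure nm (S.erase τ) b L → HasSLP g (aw nm b L))
    (hW2 : ∀ (b : ℤ) (L s L' : ℕ), W b L → s + L' ≤ L → W (b + s) L') (m : ℕ) :
    ∀ (b : ℤ) (L : ℕ), W b L → (∃ p r e, St nm b p r 0 e) → L < m * vol τ →
      HasSLP (m * (g + 7)) (aw nm b L) := by
  induction m with
  | zero => intro b L _ _ h; omega
  | succ m ih =>
    intro b L hb h0 hL
    have := peel hI hW hW' hW2 (N := m * (g + 7)) hb (by
      intro s hs h1 h2 h3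
      have h4 := h2 h0
      have h5 : (m + 1) * vol τ = m * vol τ + vol τ := by ring
      exact ih (b + s) (L - s) (hW2 b L s (L - s) hb (by omega)) h1 (by omega))
    exact slp_mono this (by rw [add_mul]; omega)

theorem short' {c : ℤ → Letter M} {nm : ℤ → Option (Letter M)} {vol : Letter M × Letter M → ℕ}
    (hI : Inv c nm vol) {S : Finset (Letter M × Letter M)} {τ : Letter M × Letter M}
    {g : ℕ} {W : ℤ → ℕ → Prop}
    (hW : ∀ b L, W b L → Pure nm S b L)
    (hW' : ∀ b L, W b L → Pure nm (S.erase τ) b L → HasSLP g (aw nm b L))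
    (hW2 : ∀ (b : ℤ) (L s L' : ℕ), W b L → s + L' ≤ L → W (b + s) L') (m : ℕ)
    (b : ℤ) (L : ℕ) (hb : W b L) (hL : L < m * vol τ) :
      HasSLP ((m + 1) * (g + 7)) (aw nm b L) := by
  have := peel hI hW hW' hW2 (N := m * (g + 7)) hb (by
    intro s hs h1 h2 h3
    exact short hI hW hW' hW2 m (b + s) (L - s) (hW2 b L s (L - s) hb (by omega)) h1 (by omega))
  exact slp_mono this (by rw [add_mul]; omega)

/-! ### Long windows -/

/-- Rule `a` occurs in the window at offset `s`. -/
def Occ (c : ℤ → Letter M) (G : Gram M) (b : ℤ) (L a s : ℕ) : Prop :=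
  s + (V G a).length ≤ L ∧ cw c (b + s) (V G a).length = V G a

theorem cw_add (c : ℤ → Letter M) (b : ℤ) (L L' : ℕ) :
    cw c b (L + L') = cw c b L ++ cw c (b + L) L' := by
  unfold cw
  rw [List.range_add, List.map_append, List.map_map]
  congr 1
  apply List.map_congr_left
  intro i _
  simp only [Function.comp]
  congr 1
  push_cast
  ring

theorem occ_cat {c : ℤ → Letter M} {G : Gram M} {b : ℤ} {L a s a₁ a₂ : ℕ}
    (h : Occ c G b L a s) (hV : V G a = V G a₁ ++ V G a₂) :
    Occ c G b L a₁ s ∧ Occ c G b L a₂ (s + (V G a₁).length) := by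
  obtain ⟨h1, h2⟩ := h
  rw [hV, List.length_append] at h1 h2
  rw [cw_add] at h2
  have h3 := List.append_inj h2 (length_cw _ _ _)
  refine ⟨⟨by omega, h3.1⟩, ⟨by omega, Eq.trans ?_ h3.2⟩⟩
  congr 1
  push_cast
  ring

/-- The word of alive names in the interior does not depend on the occurrence. -/
theorem interior {c : ℤ → Letter M} {nm : ℤ → Option (Letter M)} {vol : Letter M × Letter M → ℕ}
    (hI : Inv c nm vol) {S : Finset (Letter M × Letter M)} {G : Gram M} {b : ℤ} {L a s s' : ℕ}
    (hP : Pure nm S b L) (h : Occ c G b L a s) (h' : Occ c G b L a s') :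
    aw nm (b + s + VS vol S) ((V G a).length - 2 * VS vol S) =
      aw nm (b + s' + VS vol S) ((V G a).length - 2 * VS vol S) := by
  apply aw_congr
  intro i hi hi'
  apply nm_eq hI.total
  intro p r o e hst
  have hc : ∀ j : ℕ, 1 ≤ j → j ≤ (V G a).length → c (b + s + j) = c (b + s' + j) := by
    intro j hj hj'
    have h1 : cw c (b + s) (V G a).length = cw c (b + s') (V G a).length := by
      rw [h.2, h'.2]
    have h2 : (cw c (b + s) (V G a).length)[j - 1]'(by rw [length_cw]; omega) =
        (cw c (b + s') (V G a).length)[j - 1]'(by rw [length_cw]; omega) := by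
      simp only [h1]
    simp only [cw, List.getElem_map, List.getElem_range] at h2
    have e1 : b + s + 1 + ((j - 1 : ℕ) : ℤ) = b + s + j := by omega
    have e2 : b + s' + 1 + ((j - 1 : ℕ) : ℤ) = b + s' + j := by omega
    rwa [e1, e2] at h2
  have := hI.ul S (b + s) (b + s') (V G a).length (pure_sub hP h.1) (pure_sub hP h'.1) hc
    (VS vol S + i) (by omega) (by omega) p r o e (by
      have e1 : b + s + ((VS vol S + i : ℕ) : ℤ) = b + s + VS vol S + i := by push_cast; ring
      rw [e1]; exact hst)
  have e1 : b + s' + ((VS vol S + i : ℕ) : ℤ) = b + s' + VS vol S + i := by push_cast; ring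
  rw [e1] at this
  exact this

theorem table {c : ℤ → Letter M} {nm : ℤ → Option (Letter M)} {vol : Letter M × Letter M → ℕ}
    (hI : Inv c nm vol) {S : Finset (Letter M × Letter M)} {G : Gram M} (hG : Good G) {b : ℤ}
    {L R : ℕ} (hP : Pure nm S b L) (hV : 1 ≤ VS vol S)
    (hmid : ∀ s L', s + L' ≤ L → L' ≤ 2 * VS vol S → HasSLP R (aw nm (b + s) L')) (t : ℕ)
    (ht : t ≤ G.length) :
    ∃ K : Gram M, Good K ∧ K.length ≤ 1 + t * (R + 2) ∧ ∀ a < t, ∀ s, Occ c G b L a s →
      In K (aw nm (b + s + VS vol S) ((V G a).length - 2 * VS vol S)) := by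
  induction t with
  | zero => exact ⟨[none], good0, by simp, by intro a ha; omega⟩
  | succ t ih =>
    obtain ⟨K, hK, hl, hin⟩ := ih (by omega)
    set v := VS vol S with hv
    -- it is enough to treat one occurrence
    have red : ∀ s, Occ c G b L t s →
        (∃ K', Good (K ++ K') ∧ K'.length ≤ R + 2 ∧
          In (K ++ K') (aw nm (b + s + v) ((V G t).length - 2 * v))) →
        ∃ K : Gram M, Good K ∧ K.length ≤ 1 + (t + 1) * (R + 2) ∧ ∀ a < t + 1, ∀ s,
          Occ c G b L a s → In K (aw nm (b + s + v) ((V G a).length - 2 * v)) := by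
      rintro s hs ⟨K', k1, k2, k3⟩
      refine ⟨K ++ K', k1, by rw [List.length_append, add_mul]; omega, ?_⟩
      intro a ha s' hs'
      rcases Nat.lt_succ_iff_lt_or_eq.1 ha with ha | rfl
      · exact (hin a ha s' hs').mono _
      · rw [interior hI hP hs' hs]
        exact k3
    have small : (V G t).length ≤ 2 * v →
        ∃ K : Gram M, Good K ∧ K.length ≤ 1 + (t + 1) * (R + 2) ∧ ∀ a < t + 1, ∀ s,
          Occ c G b L a s → In K (aw nm (b + s + v) ((V G a).length - 2 * v)) := by
      intro hle
      refine ⟨K, hK, by rw [add_mul]; omega, ?_⟩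
      intro a ha s' hs'
      rcases Nat.lt_succ_iff_lt_or_eq.1 ha with ha | rfl
      · exact hin a ha s' hs'
      · rw [Nat.sub_eq_zero_of_le hle, aw_zero]
        exact in_nil hK
    rcases hr : G[t]? with _ | r
    · rw [List.getElem?_eq_none_iff] at hr; omega
    rcases r with _ | x | ⟨a₁, a₂⟩
    · exact small (by rw [V_none hr]; simp)
    · exact small (by rw [V_letter hr]; simp; omega)
    obtain ⟨h1, h2⟩ := hG.1 _ _ _ hr
    have hVt := V_cat hG.1 hr
    have hlen : (V G t).length = (V G a₁).length + (V G a₂).length := by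
      rw [hVt, List.length_append]
    by_cases hle : (V G t).length ≤ 2 * v
    · exact small hle
    by_cases hex : ∃ s, Occ c G b L t s
    · obtain ⟨s, hs⟩ := hex
      refine red s hs ?_
      obtain ⟨o1, o2⟩ := occ_cat hs hVt
      have i1 := hin a₁ h1 s o1
      have i2 := hin a₂ h2 _ o2
      set β := (V G a₁).length with hβ
      set γ := (V G a₂).length with hγ
      -- the middle window
      obtain ⟨lo, hlo⟩ : ∃ lo, lo = max v (β - v) := ⟨_, rfl⟩
      obtain ⟨hi, hhi⟩ : ∃ hi, hi = min (β + v) (β + γ - v) := ⟨_, rfl⟩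
      have hs1 := hs.1
      obtain ⟨K₁, m1, m2, m3⟩ := hmid (s + lo) (hi - lo) (by omega) (by omega)
      obtain ⟨K', g1, g2, g3⟩ := add_gram hK m1
      obtain ⟨r₁, q1, q2⟩ := add_cat g1 (i1.mono K') (g3 _ m3)
      obtain ⟨r₂, q3, q4⟩ := add_cat q1 q2 ((i2.mono K').mono [r₁])
      refine ⟨K' ++ [r₁] ++ [r₂], by simpa using q3, by simp; omega, ?_⟩
      have e : aw nm (b + s + v) ((V G t).length - 2 * v) =
          aw nm (b + s + v) (β - 2 * v) ++ aw nm (b + ((s + lo : ℕ) : ℤ)) (hi - lo) ++
            aw nm (b + ((s + β : ℕ) : ℤ) + v) (γ - 2 * v) := by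
        have e1 : (V G t).length - 2 * v = (β - 2 * v) + ((hi - lo) + (γ - 2 * v)) := by omega
        rw [e1, aw_add, aw_add, ← List.append_assoc]
        have e2 : b + s + v + ((β - 2 * v : ℕ) : ℤ) = b + ((s + lo : ℕ) : ℤ) := by
          push_cast; omega
        rw [e2]
        congr 1
        by_cases hγ2 : γ ≤ 2 * v
        · rw [Nat.sub_eq_zero_of_le hγ2, aw_zero, aw_zero]
        · congr 1
          push_cast
          omega
      rw [e]
      simpa using q4
    · refine ⟨K, hK, by rw [add_mul]; omega, ?_⟩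
      intro a ha s' hs'
      rcases Nat.lt_succ_iff_lt_or_eq.1 ha with ha | rfl
      · exact hin a ha s' hs'
      · exact absurd ⟨s', hs'⟩ hex

theorem card_erase_le {S : Finset (Letter M × Letter M)} {τ : Letter M × Letter M} {k : ℕ}
    (h : S.card ≤ k + 1) (hτ : τ ∈ S) : (S.erase τ).card ≤ k := by
  rw [Finset.card_erase_of_mem hτ]; omega

/-- Polynomials for the recursion. -/
noncomputable def nextP (k : ℕ) (p : Polynomial ℕ) : Polynomial ℕ :=
  (Polynomial.X + 3) * (Polynomial.C (2 * (k + 1) + 2) * (p.comp (Polynomial.C 4 * Polynomial.X) + 7) + 2)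

theorem eval_nextP (k : ℕ) (p : Polynomial ℕ) (n : ℕ) :
    (nextP k p).eval n = (n + 3) * ((2 * (k + 1) + 2) * (p.eval (4 * n) + 7) + 2) := by
  simp [nextP]

end Pool.Agent.Lib.MP_0c2883_lc.All.SGG

namespace Pool.Agent.Lib.MP_0c2883_lc.All.SG

open Pool.Agent.Lib.PolyTime List Pool.Agent.Lib.MP_0c2883_lc.All
open Pool.Agent.Lib.MP_0c2883_lc.All.SGG

theorem gg : GGStmt := by
  intro M k
  suffices h : ∃ p : Polynomial ℕ, ∀ (c : ℤ → Letter M)
      (nm : ℤ → Option (Letter M)) (vol : Letter M × Letter M → ℕ), Inv c nm vol →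
      ∀ (S : Finset (Letter M × Letter M)), S.card ≤ k → ∀ (b : ℤ) (L n : ℕ), Pure nm S b L →
        HasSLP n (cw c b L) → HasSLP (p.eval n) (aw nm b L) by
    obtain ⟨p, hp⟩ := h
    exact ⟨fun n => p.eval n, PB.poly p, hp⟩
  induction k with
  | zero =>
    refine ⟨0, ?_⟩
    intro c nm vol _ S hS b L n hP _
    obtain ⟨p, r, o, e, _, h⟩ := hP 0 (Nat.zero_le _)
    rw [Nat.le_zero, Finset.card_eq_zero] at hS
    rw [hS] at h
    exact absurd h (Finset.notMem_empty _)
  | succ k ih =>
    obtain ⟨p, hp⟩ := ih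
    refine ⟨nextP k p, ?_⟩
    intro c nm vol hI S hS b L n hP hn
    rw [eval_nextP]
    have hne : S.Nonempty := by
      obtain ⟨p, r, o, e, _, h⟩ := hP 0 (Nat.zero_le _)
      exact ⟨_, h⟩
    obtain ⟨τ, hτ, hmax⟩ := Finset.exists_max_image S vol hne
    have hV1 : 1 ≤ VS vol S := (hI.pos τ).trans (Finset.single_le_sum (fun _ _ => Nat.zero_le _) hτ)
    have hV2 : VS vol S ≤ (k + 1) * vol τ := by
      have h1 : VS vol S ≤ S.card • vol τ := Finset.sum_le_card_nsmul _ _ _ hmax
      rw [smul_eq_mul] at h1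
      exact h1.trans (Nat.mul_le_mul_right _ hS)
    -- subwindows
    set W : ℤ → ℕ → Prop := fun b' L' => ∃ s : ℕ, b' = b + s ∧ s + L' ≤ L with hWd
    have hW : ∀ b L, W b L → Pure nm S b L := by
      rintro b' L' ⟨s, rfl, hs⟩
      exact pure_sub hP hs
    have hW' : ∀ b L, W b L → Pure nm (S.erase τ) b L → HasSLP (p.eval (4 * n)) (aw nm b L) := by
      rintro b' L' ⟨s, rfl, hs⟩ hP'
      refine hp c nm vol hI _ (card_erase_le hS hτ) _ _ _ hP' ?_
      rw [cw_sub c b L s L' hs]
      exact slp_mono (slp_take (slp_drop hn s) L') (by omega)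
    have hW2 : ∀ (b : ℤ) (L s L' : ℕ), W b L → s + L' ≤ L → W (b + s) L' := by
      rintro b' L' s s' ⟨s₀, rfl, hs⟩ hs'
      exact ⟨s₀ + s, by push_cast; ring, by omega⟩
    set R := (2 * (k + 1) + 2) * (p.eval (4 * n) + 7) with hR
    have hmid : ∀ s L', s + L' ≤ L → L' ≤ 2 * VS vol S → HasSLP R (aw nm (b + s) L') := by
      intro s L' hs hL'
      refine short' hI hW hW' hW2 (2 * (k + 1) + 1) (b + s) L' ⟨s, rfl, hs⟩ ?_
      have h1 := hI.pos τ
      have h2 : (2 * (k + 1) + 1) * vol τ = 2 * ((k + 1) * vol τ) + vol τ := by ring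
      omega
    by_cases hL : L ≤ 2 * VS vol S
    · have := hmid 0 L (by omega) hL
      simp only [Nat.cast_zero, add_zero] at this
      refine slp_mono this ?_
      nlinarith
    · obtain ⟨G, hG, hGn, i, hi, hVi⟩ := hn
      obtain ⟨K, k1, k2, k3⟩ := table hI hG hP hV1 hmid G.length le_rfl
      have hlen : (V G i).length = L := by rw [hVi, length_cw]
      have hin := k3 i hi 0 ⟨by omega, by
        rw [hlen, hVi]
        simp⟩
      rw [hlen] at hin
      simp only [Nat.cast_zero, add_zero] at hin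
      have h1 := hmid 0 (VS vol S) (by omega) (by omega)
      simp only [Nat.cast_zero, add_zero] at h1
      have h2 := hmid (VS vol S + (L - 2 * VS vol S)) (VS vol S) (by omega) (by omega)
      have e : aw nm b L = aw nm b (VS vol S) ++ (aw nm (b + VS vol S) (L - 2 * VS vol S) ++
          aw nm (b + ((VS vol S + (L - 2 * VS vol S) : ℕ) : ℤ)) (VS vol S)) := by
        have e1 : L = VS vol S + ((L - 2 * VS vol S) + VS vol S) := by omega
        conv_lhs => rw [e1]
        rw [aw_add, aw_add]
        push_cast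
        rw [add_assoc]
      rw [e]
      have h3 : HasSLP (1 + G.length * (R + 2)) (aw nm (b + VS vol S) (L - 2 * VS vol S)) :=
        ⟨K, k1, k2, hin⟩
      refine slp_mono (slp_append h1 (slp_append h3 h2)) ?_
      have h4 : G.length * (R + 2) ≤ n * (R + 2) := Nat.mul_le_mul_right _ hGn
      have h5 : (n + 3) * (R + 2) = n * (R + 2) + 3 * R + 6 := by ring
      omega

end Pool.Agent.Lib.MP_0c2883_lc.All.SG
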