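import Pool.Agent.Lib.MP_0c2883_lc.All.SGDefs
import Mathlib.Data.List.Chain

/-!
# LINK: elementary steps of cyclic words are elementary steps of names
-/

set_option autoImplicit false

namespace Pool.Agent.Lib.MP_0c2883_lc.All.SGLink

open Pool.Agent.Lib.PolyTime List Pool.Agent.Lib.MP_0c2883_lc.All
open Pool.Agent.Lib.MP_0c2883_lc.All.SG

variable {M : ℕ} {α β γ : Type}

/-! ### rotations -/

theorem rot_filterMap (f : α → Option β) {l l' : List α} (h : l ~r l') :
    l.filterMap f ~r l'.filterMap f := by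
  obtain ⟨n, rfl⟩ := h
  rcases eq_or_ne l [] with h0 | h0
  · subst h0; simp
  have hn : n % l.length ≤ l.length :=
    (Nat.mod_lt _ (List.length_pos_iff.2 h0)).le
  rw [← List.rotate_mod, List.rotate_eq_drop_append_take hn]
  conv_lhs => rw [← List.take_append_drop (n % l.length) l]
  rw [List.filterMap_append, List.filterMap_append]
  exact List.isRotated_append

theorem cpairs_rotate (w : List α) (n : ℕ) : cpairs (w.rotate n) = (cpairs w).rotate n := by
  unfold cpairs List.zip
  rw [List.zipWith_rotate_distrib _ _ _ _ (by simp), List.rotate_rotate, List.rotate_rotate,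
    Nat.add_comm]

theorem ctx_rotate (w : List α) (n : ℕ) : ctx (w.rotate n) = (ctx w).rotate n := by
  unfold ctx List.zip
  rw [List.zipWith_rotate_distrib _ _ _ _ (by simp), List.zipWith_rotate_distrib _ _ _ _ (by simp)]
  simp only [List.rotate_rotate, List.length_rotate]
  rw [Nat.add_comm n 1, Nat.add_comm n (w.length - 1)]

theorem cpairs_rot {w w' : List α} (h : w ~r w') : cpairs w ~r cpairs w' := by
  obtain ⟨n, rfl⟩ := h
  exact ⟨n, (cpairs_rotate w n).symm⟩

theorem op_rot (C : Letter M → Bool) (a : Letter M) (g : Option (Letter M))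
    {w w' : List (Letter M)} (h : w ~r w') : op C a g w ~r op C a g w' := by
  unfold op
  apply rot_filterMap
  obtain ⟨n, rfl⟩ := h
  exact ⟨n, (ctx_rotate w n).symm⟩

theorem tc_pos {w : List (Letter M)} {p q : Letter M} (h : (linv p, q) ∈ cpairs w) :
    0 < tc w p q := by
  unfold tc
  rw [List.countP_pos_iff]
  exact ⟨_, h, by simp⟩

/-! ### positions -/

/-- the alive positions among `b + 1, ..., b + L` -/
def pos (nm : ℤ → Option (Letter M)) (b : ℤ) : ℕ → List ℤ
  | 0 => []
  | L + 1 => pos nm b L ++ (if (nm (b + 1 + L)).isSome then [b + 1 + (L : ℤ)] else [])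

theorem aw_def (nm : ℤ → Option (Letter M)) (b : ℤ) (L : ℕ) :
    aw nm b L = (List.range L).filterMap (fun i : ℕ => nm (b + 1 + (i : ℤ))) := rfl

theorem aw_zero (nm : ℤ → Option (Letter M)) (b : ℤ) : aw nm b 0 = [] := by simp [aw_def]

theorem aw_succ (nm : ℤ → Option (Letter M)) (b : ℤ) (L : ℕ) :
    aw nm b (L + 1) = aw nm b L ++ (nm (b + 1 + L)).toList := by
  rw [aw_def, aw_def, List.range_succ, List.filterMap_append]
  congr 1

theorem aw_succ' (nm : ℤ → Option (Letter M)) (b : ℤ) (L : ℕ) :
    aw nm b (L + 1) = (nm (b + 1)).toList ++ aw nm (b + 1) L := by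
  induction L with
  | zero => rw [aw_succ, aw_zero, aw_zero]; simp
  | succ L ih =>
    rw [aw_succ, ih, aw_succ, List.append_assoc]
    have : b + 1 + ((L + 1 : ℕ) : ℤ) = b + 1 + 1 + L := by push_cast; ring
    rw [this]

theorem aw_eq_pos (nm nm' : ℤ → Option (Letter M)) (h : ∀ k, nm k = none → nm' k = none) (b : ℤ)
    (L : ℕ) : aw nm' b L = (pos nm b L).filterMap nm' := by
  induction L with
  | zero => simp [aw_zero, pos]
  | succ L ih =>
    rw [aw_succ, ih, pos, List.filterMap_append]
    congr 1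
    cases hk : nm (b + 1 + L) with
    | none => simp [h _ hk]
    | some x => cases hk' : nm' (b + 1 + L) <;> simp [hk']

theorem mem_pos (nm : ℤ → Option (Letter M)) (b : ℤ) (L : ℕ) (k : ℤ) (h : k ∈ pos nm b L) :
    b < k ∧ k ≤ b + L ∧ (nm k).isSome := by
  induction L with
  | zero => simp [pos] at h
  | succ L ih =>
    rw [pos, List.mem_append] at h
    rcases h with h | h
    · obtain ⟨h1, h2, h3⟩ := ih h
      refine ⟨h1, ?_, h3⟩
      push_cast; omega
    · split_ifs at h with hk
      · rw [List.mem_singleton] at h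
        subst h
        refine ⟨by omega, ?_, hk⟩
        push_cast; omega
      · simp at h

/-- consecutive alive positions -/
def Cons (nm : ℤ → Option (Letter M)) (k k' : ℤ) : Prop :=
  (nm k).isSome ∧ (nm k').isSome ∧ k < k' ∧ ∀ j, k < j → j < k' → nm j = none

theorem chain_pos (nm : ℤ → Option (Letter M)) (b : ℤ) (hb : (nm b).isSome) (L : ℕ) :
    (b :: pos nm b L).IsChain (Cons nm) ∧
      (nm ((b :: pos nm b L).getLast (by simp))).isSome ∧
      (b :: pos nm b L).getLast (by simp) ≤ b + L ∧
      ∀ j, (b :: pos nm b L).getLast (by simp) < j → j ≤ b + L → nm j = none := by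
  induction L with
  | zero =>
    refine ⟨by simp [pos], by simpa [pos] using hb, by simp [pos], ?_⟩
    intro j h1 h2
    simp [pos] at h1 h2
    omega
  | succ L ih =>
    obtain ⟨ih1, ih2, ih3, ih4⟩ := ih
    by_cases hk : (nm (b + 1 + L)).isSome
    · have e : b :: pos nm b (L + 1) = (b :: pos nm b L) ++ [b + 1 + (L : ℤ)] := by
        simp [pos, hk]
      have e2 : ∀ h, (b :: pos nm b (L + 1)).getLast h = b + 1 + (L : ℤ) := by
        rw [e]; intro h; simp
      refine ⟨?_, ?_, ?_, ?_⟩
      · rw [e, List.isChain_append]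
        refine ⟨ih1, by simp, ?_⟩
        intro x hx y hy
        rw [List.getLast?_eq_some_getLast (by simp), Option.mem_some_iff] at hx
        simp only [List.head?_cons, Option.mem_some_iff] at hy
        subst hx
        subst hy
        refine ⟨ih2, hk, by omega, ?_⟩
        intro j h1 h2
        exact ih4 j h1 (by omega)
      · rw [e2]; exact hk
      · rw [e2]; push_cast; omega
      · rw [e2]; intro j h1 h2; push_cast at h2; omega
    · have e : b :: pos nm b (L + 1) = b :: pos nm b L := by simp [pos, hk]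
      have e2 : ∀ h, (b :: pos nm b (L + 1)).getLast h = (b :: pos nm b L).getLast (by simp) := by
        rw [e]; intro h; rfl
      refine ⟨by rw [e]; exact ih1, by rw [e2]; exact ih2, by rw [e2]; push_cast; omega, ?_⟩
      rw [e2]
      intro j h1 h2
      push_cast at h2
      by_cases hj : j = b + 1 + L
      · subst hj
        simpa using hk
      · exact ih4 j h1 (by omega)

theorem cons_shift {nm : ℤ → Option (Letter M)} {N : ℕ} (hp : ∀ k, nm (k + N) = nm k) {k k' : ℤ}
    (h : Cons nm k k') : Cons nm (k + N) (k' + N) := by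
  obtain ⟨h1, h2, h3, h4⟩ := h
  refine ⟨by rw [hp]; exact h1, by rw [hp]; exact h2, by omega, ?_⟩
  intro j hj hj'
  have := h4 (j - N) (by omega) (by omega)
  rw [← hp] at this
  simpa using this

/-- three consecutive alive positions make a `Trip` -/
theorem trip_of_cons {nm : ℤ → Option (Letter M)} {k1 k k2 : ℤ} {y x z : Letter M}
    (h1 : Cons nm k1 k) (h2 : Cons nm k k2) (hy : nm k1 = some y) (hx : nm k = some x)
    (hz : nm k2 = some z) : Trip nm k y x z := by
  constructor
  · refine ⟨(k - 1 - k1).toNat, ?_, ?_, ?_⟩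
    · rw [linv_linv]
      have : k - 1 - ((k - 1 - k1).toNat : ℤ) = k1 := by have := h1.2.2.1; omega
      rw [this, hy]
    · simpa using hx
    · intro j hj hj'
      refine h1.2.2.2 j ?_ (by push_cast at hj'; omega)
      have := h1.2.2.1; omega
  · refine ⟨(k2 - k - 1).toNat, ?_, ?_, ?_⟩
    · rw [linv_linv]
      simpa using hx
    · have : k + 1 + ((k2 - k - 1).toNat : ℤ) = k2 := by have := h2.2.2.1; omega
      rw [this, hz]
    · intro j hj hj'
      refine h2.2.2.2 j (by push_cast at hj; omega) ?_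
      have := h2.2.2.1; omega

/-- `St` gives consecutive alive positions -/
theorem cons_of_st {nm : ℤ → Option (Letter M)} {b : ℤ} {p r : Letter M} {o e : ℕ}
    (h : St nm b p r o e) : Cons nm (b - o) (b + 1 + e) :=
  ⟨by rw [h.1]; rfl, by rw [h.2.1]; rfl, by omega, h.2.2⟩

/-- the next alive position is unique -/
theorem cons_unique {nm : ℤ → Option (Letter M)} {k k' k'' : ℤ} (h : Cons nm k k')
    (h' : Cons nm k k'') : k' = k'' := by
  rcases lt_trichotomy k' k'' with hlt | heq | hlt
  · have := h'.2.2.2 k' h.2.2.1 hlt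
    have h2 := h.2.1
    rw [this] at h2; simp at h2
  · exact heq
  · have := h.2.2.2 k'' h'.2.2.1 hlt
    have h2 := h'.2.1
    rw [this] at h2; simp at h2

theorem cons_unique' {nm : ℤ → Option (Letter M)} {k k' k'' : ℤ} (h : Cons nm k' k)
    (h' : Cons nm k'' k) : k' = k'' := by
  rcases lt_trichotomy k' k'' with hlt | heq | hlt
  · have := h.2.2.2 k'' hlt h'.2.2.1
    have h2 := h'.1
    rw [this] at h2; simp at h2
  · exact heq
  · have := h'.2.2.2 k' hlt h.2.2.1
    have h2 := h.1
    rw [this] at h2; simp at h2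

theorem trip_cons {nm : ℤ → Option (Letter M)} {k : ℤ} {y x z : Letter M} (h : Trip nm k y x z) :
    ∃ k1 k2, Cons nm k1 k ∧ Cons nm k k2 ∧ nm k1 = some y ∧ nm k = some x ∧ nm k2 = some z := by
  obtain ⟨⟨o, h1⟩, ⟨e, h2⟩⟩ := h
  have c1 := cons_of_st h1
  have c2 := cons_of_st h2
  have hx : nm k = some x := by
    have := h1.2.1
    simpa using this
  refine ⟨_, _, ?_, ?_, h1.1.trans (by rw [linv_linv]), hx, h2.2.1⟩
  · simpa using c1
  · simpa using c2

theorem trip_unique {nm : ℤ → Option (Letter M)} {k : ℤ} {y x z y' x' z' : Letter M}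
    (h : Trip nm k y x z) (h' : Trip nm k y' x' z') : y = y' ∧ x = x' ∧ z = z' := by
  obtain ⟨k1, k2, c1, c2, e1, e2, e3⟩ := trip_cons h
  obtain ⟨k1', k2', c1', c2', e1', e2', e3'⟩ := trip_cons h'
  have f1 := cons_unique' c1 c1'
  have f2 := cons_unique c2 c2'
  subst f1; subst f2
  rw [e1] at e1'; rw [e2] at e2'; rw [e3] at e3'
  exact ⟨Option.some_injective _ e1', Option.some_injective _ e2', Option.some_injective _ e3'⟩

theorem trip_shift {nm : ℤ → Option (Letter M)} {N : ℕ} (hp : ∀ k, nm (k + N) = nm k) {k : ℤ}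
    {y x z : Letter M} (h : Trip nm k y x z) : Trip nm (k + N) y x z := by
  obtain ⟨k1, k2, c1, c2, e1, e2, e3⟩ := trip_cons h
  exact trip_of_cons (cons_shift hp c1) (cons_shift hp c2) (by rw [hp]; exact e1)
    (by rw [hp]; exact e2) (by rw [hp]; exact e3)

/-! ### the cyclic context of the list of positions -/

theorem mem_ctx {l : List α} {t : α × (α × α)} (h : t ∈ ctx l) :
    ∃ (i : ℕ) (hi : i < l.length), t.1 = l[(i + (l.length - 1)) % l.length]'(Nat.mod_lt _ (by omega)) ∧
      t.2.1 = l[i] ∧ t.2.2 = l[(i + 1) % l.length]'(Nat.mod_lt _ (by omega)) := by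
  obtain ⟨i, hi, rfl⟩ := List.mem_iff_getElem.1 h
  have hi' : i < l.length := by
    simpa [ctx] using hi
  refine ⟨i, hi', ?_, ?_, ?_⟩
  · simp [ctx, List.getElem_rotate]
  · simp [ctx]
  · simp [ctx, List.getElem_rotate]

theorem mem_cpairs {l : List α} {t : α × α} (h : t ∈ cpairs l) :
    ∃ (i : ℕ) (hi : i < l.length), t.1 = l[i] ∧
      t.2 = l[(i + 1) % l.length]'(Nat.mod_lt _ (by omega)) := by
  obtain ⟨i, hi, rfl⟩ := List.mem_iff_getElem.1 h
  have hi' : i < l.length := by
    simpa [cpairs] using hi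
  refine ⟨i, hi', ?_, ?_⟩
  · simp [cpairs]
  · simp [cpairs, List.getElem_rotate]

theorem ctx_mid (l : List α) : (ctx l).map (fun t => t.2.1) = l := by
  apply List.ext_getElem
  · simp [ctx]
  · intro i h1 h2
    simp [ctx]

theorem ctx_map (f : α → β) (l : List α) :
    ctx (l.map f) = (ctx l).map (fun t => (f t.1, (f t.2.1, f t.2.2))) := by
  apply List.ext_getElem
  · simp [ctx]
  · intro i h1 h2
    simp [ctx, List.getElem_rotate]

/-- the list of alive positions of one period, starting after an alive position `b` -/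
theorem pos_period {nm : ℤ → Option (Letter M)} {N : ℕ} (hN : 0 < N)
    (hp : ∀ k, nm (k + N) = nm k) {b : ℤ} (hb : (nm b).isSome) :
    ∃ hne : pos nm b N ≠ [], (pos nm b N).getLast hne = b + N := by
  obtain ⟨N', rfl⟩ : ∃ N', N = N' + 1 := ⟨N - 1, by omega⟩
  have hs : (nm (b + 1 + N')).isSome := by
    have := hp b
    push_cast at this
    have e : b + 1 + (N' : ℤ) = b + (N' + 1) := by ring
    rw [e, this]; exact hb
  have e : pos nm b (N' + 1) = pos nm b N' ++ [b + 1 + (N' : ℤ)] := by simp [pos, hs]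
  refine ⟨by rw [e]; simp, ?_⟩
  have : ∀ h, (pos nm b (N' + 1)).getLast h = b + 1 + (N' : ℤ) := by
    rw [e]; intro h; simp
  rw [this]; push_cast; ring

theorem ctx_pos {nm : ℤ → Option (Letter M)} {N : ℕ} (hN : 0 < N)
    (hp : ∀ k, nm (k + N) = nm k) {b : ℤ} (hb : (nm b).isSome) {t : ℤ × (ℤ × ℤ)}
    (ht : t ∈ ctx (pos nm b N)) :
    ∃ k1 k2, Cons nm k1 t.2.1 ∧ Cons nm t.2.1 k2 ∧ nm k1 = nm t.1 ∧ nm k2 = nm t.2.2 := by
  obtain ⟨hne, hlast⟩ := pos_period hN hp hb
  obtain ⟨hch, -⟩ := chain_pos nm b hb N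
  obtain ⟨i, hi, h1, h2, h3⟩ := mem_ctx ht
  set P := pos nm b N with hP
  rw [List.isChain_iff_getElem] at hch
  have hm : 0 < P.length := List.length_pos_iff.2 hne
  have hlast' : P[P.length - 1]'(by omega) = b + N := by
    rw [← hlast, List.getLast_eq_getElem]
  rw [h1, h2, h3]
  -- previous
  have hprev : ∃ k1, Cons nm k1 P[i] ∧ nm k1 = nm (P[(i + (P.length - 1)) % P.length]'(Nat.mod_lt _ hm)) := by
    have hc := hch i (by simp; omega)
    rcases Nat.eq_zero_or_pos i with h0 | h0
    · subst h0
      refine ⟨b, by simpa using hc, ?_⟩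
      have e : (0 + (P.length - 1)) % P.length = P.length - 1 := by
        rw [Nat.zero_add]; exact Nat.mod_eq_of_lt (by omega)
      simp only [e]
      rw [hlast', hp]
    · obtain ⟨i', rfl⟩ : ∃ i', i = i' + 1 := ⟨i - 1, by omega⟩
      refine ⟨P[i'], by simpa using hc, ?_⟩
      have e : (i' + 1 + (P.length - 1)) % P.length = i' := by
        have : i' + 1 + (P.length - 1) = i' + P.length := by omega
        rw [this, Nat.add_mod_right]; exact Nat.mod_eq_of_lt (by omega)
      simp only [e]
  have hnext : ∃ k2, Cons nm P[i] k2 ∧ nm k2 = nm (P[(i + 1) % P.length]'(Nat.mod_lt _ hm)) := by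
    by_cases h0 : i + 1 < P.length
    · have hc := hch (i + 1) (by simp; omega)
      refine ⟨P[i + 1], by simpa using hc, ?_⟩
      have e : (i + 1) % P.length = i + 1 := Nat.mod_eq_of_lt h0
      simp only [e]
    · have e0 : i = P.length - 1 := by omega
      have hc := cons_shift hp (hch 0 (by simp; omega))
      refine ⟨P[0] + N, ?_, ?_⟩
      · have e1 : P[i] = b + N := by
          simp only [e0]; exact hlast'
        rw [e1]
        simpa using hc
      · have e : (i + 1) % P.length = 0 := by
          rw [e0, Nat.sub_add_cancel hm, Nat.mod_self]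
        simp only [e]
        rw [hp]
  obtain ⟨k1, c1, e1⟩ := hprev
  obtain ⟨k2, c2, e2⟩ := hnext
  exact ⟨k1, k2, c1, c2, e1, e2⟩

/-- one period of the new names -/
theorem aw_step {nm nm' : ℤ → Option (Letter M)} {N : ℕ} (hN : 0 < N)
    (hp : ∀ k, nm (k + N) = nm k) {b : ℤ} (hb : (nm b).isSome) {C : Letter M → Bool} {a : Letter M}
    {g : Option (Letter M)} (hs : StepNm C a g nm nm') :
    aw nm' b N = op C a g (aw nm b N) := by
  obtain ⟨x0, hx0⟩ := Option.isSome_iff_exists.1 hb
  set f : ℤ → Letter M := fun k => (nm k).getD x0 with hf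
  have hfk : ∀ k, (nm k).isSome → nm k = some (f k) := by
    intro k hk
    obtain ⟨x, hx⟩ := Option.isSome_iff_exists.1 hk
    simp [hf, hx]
  have h1 : aw nm b N = (pos nm b N).map f := by
    rw [aw_eq_pos nm nm (fun _ h => h), ← List.filterMap_eq_map]
    apply List.filterMap_congr
    intro k hk
    exact hfk k (mem_pos nm b N k hk).2.2
  rw [h1, aw_eq_pos nm nm' hs.1, op, ctx_map, List.filterMap_map]
  conv_lhs => rw [← ctx_mid (pos nm b N)]
  rw [List.filterMap_map]
  apply List.filterMap_congr
  intro t ht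
  obtain ⟨k1, k2, c1, c2, e1, e2⟩ := ctx_pos hN hp hb ht
  simp only [Function.comp]
  apply hs.2 t.2.1
  have g1 : nm k1 = some (f t.1) := by
    rw [e1]; apply hfk; rw [← e1]; exact c1.1
  have g2 : nm t.2.1 = some (f t.2.1) := hfk _ c1.2.1
  have g3 : nm k2 = some (f t.2.2) := by
    rw [e2]; apply hfk; rw [← e2]; exact c2.2.1
  exact trip_of_cons c1 c2 g1 g2 g3

/-! ### change of the base point -/

theorem aw_rot_one {nm : ℤ → Option (Letter M)} {N : ℕ} (hp : ∀ k, nm (k + N) = nm k) (b : ℤ) :
    aw nm (b + 1) N ~r aw nm b N := by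
  rcases Nat.eq_zero_or_pos N with h0 | h0
  · subst h0; rw [aw_zero, aw_zero]
  obtain ⟨N', rfl⟩ : ∃ N', N = N' + 1 := ⟨N - 1, by omega⟩
  rw [aw_succ, aw_succ']
  have e : b + 1 + 1 + (N' : ℤ) = b + 1 + ((N' + 1 : ℕ) : ℤ) := by push_cast; ring
  rw [e, hp]
  exact List.isRotated_append

theorem aw_rot_nat {nm : ℤ → Option (Letter M)} {N : ℕ} (hp : ∀ k, nm (k + N) = nm k) (b : ℤ)
    (n : ℕ) : aw nm (b + n) N ~r aw nm b N := by
  induction n with
  | zero => simp only [Nat.cast_zero, add_zero]; exact List.IsRotated.refl _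
  | succ n ih =>
    have := aw_rot_one hp (b + n)
    have e : b + ((n + 1 : ℕ) : ℤ) = b + n + 1 := by push_cast; ring
    rw [e]
    exact this.trans ih

theorem aw_rot {nm : ℤ → Option (Letter M)} {N : ℕ} (hp : ∀ k, nm (k + N) = nm k) (b b' : ℤ) :
    aw nm b N ~r aw nm b' N := by
  rcases le_total b b' with h | h
  · have := aw_rot_nat hp b (b' - b).toNat
    have e : b + ((b' - b).toNat : ℤ) = b' := by omega
    rw [e] at this
    exact this.symm
  · have := aw_rot_nat hp b' (b - b').toNat
    have e : b' + ((b - b').toNat : ℤ) = b := by omega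
    rw [e] at this
    exact this

/-- a turn of the names is a turn of the word -/
theorem turn_mem {nm : ℤ → Option (Letter M)} {N : ℕ} (hN : 0 < N) (hp : ∀ k, nm (k + N) = nm k)
    {k k' : ℤ} (h : Cons nm k k') {x y : Letter M} (hx : nm k = some x) (hy : nm k' = some y)
    {w : List (Letter M)} {b : ℤ} (hw : w ~r aw nm b N) : (x, y) ∈ cpairs w := by
  have hw' : w ~r aw nm k N := hw.trans (aw_rot hp b k)
  have hc := cpairs_rot hw'
  rw [hc.mem_iff]
  obtain ⟨hne, hlast⟩ := pos_period hN hp h.1
  obtain ⟨hch, -⟩ := chain_pos nm k h.1 N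
  set P := pos nm k N with hP
  rw [List.isChain_iff_getElem] at hch
  have hm : 0 < P.length := List.length_pos_iff.2 hne
  have hlast' : P[P.length - 1]'(by omega) = k + N := by
    rw [← hlast, List.getLast_eq_getElem]
  have hc0 := hch 0 (by simp; omega)
  have e0 : P[0] = k' := by
    apply cons_unique _ h
    simpa using hc0
  set f : ℤ → Letter M := fun k => (nm k).getD x with hf
  have h1 : aw nm k N = P.map f := by
    rw [aw_eq_pos nm nm (fun _ h => h), ← List.filterMap_eq_map]
    apply List.filterMap_congr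
    intro j hj
    obtain ⟨z, hz⟩ := Option.isSome_iff_exists.1 (mem_pos nm k N j hj).2.2
    simp [hf, hz]
  rw [h1, List.mem_iff_getElem]
  refine ⟨P.length - 1, by simp [cpairs]; omega, ?_⟩
  simp only [cpairs, List.getElem_zip, List.getElem_map, List.getElem_rotate, List.length_map]
  have e2 : (P.length - 1 + 1) % P.length = 0 := by rw [Nat.sub_add_cancel hm, Nat.mod_self]
  simp only [e2, e0, hlast']
  simp [hf, hp, hx, hy]

theorem cons_shift' {nm : ℤ → Option (Letter M)} {N : ℕ} (hp : ∀ k, nm (k + N) = nm k) {k k' : ℤ}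
    (h : Cons nm (k + N) k') : Cons nm k (k' - N) := by
  have hp' : ∀ k, nm (k - N) = nm k := by
    intro j
    have := hp (j - N)
    rw [← this]; congr 1; ring
  obtain ⟨h1, h2, h3, h4⟩ := h
  refine ⟨by rw [← hp]; exact h1, by rw [hp']; exact h2, by omega, ?_⟩
  intro j hj hj'
  have := h4 (j + N) (by omega) (by omega)
  rwa [hp] at this

/-- every alive position has a trip -/
theorem exists_trip {nm : ℤ → Option (Letter M)} {N : ℕ} (hN : 0 < N) (hp : ∀ k, nm (k + N) = nm k)
    {k : ℤ} (hk : (nm k).isSome) : ∃ y x z, Trip nm k y x z := by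
  obtain ⟨hne, hlast⟩ := pos_period hN hp hk
  have hp' : ∀ k, nm (k - N) = nm k := by
    intro j
    have := hp (j - N)
    rw [← this]; congr 1; ring
  have hmem : k + N ∈ pos nm k N := by
    rw [← hlast]; exact List.getLast_mem hne
  rw [← ctx_mid (pos nm k N), List.mem_map] at hmem
  obtain ⟨t, ht, e⟩ := hmem
  obtain ⟨k1, k2, c1, c2, -, -⟩ := ctx_pos hN hp hk ht
  rw [e] at c1 c2
  have c2' := cons_shift' hp c2
  have c1' : Cons nm (k1 - N) k := by
    obtain ⟨h1, h2, h3, h4⟩ := c1
    refine ⟨by rw [hp']; exact h1, hk, by omega, ?_⟩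
    intro j hj hj'
    have := h4 (j + N) (by omega) (by omega)
    rwa [hp] at this
  obtain ⟨y, hy⟩ := Option.isSome_iff_exists.1 c1'.1
  obtain ⟨x, hx⟩ := Option.isSome_iff_exists.1 hk
  obtain ⟨z, hz⟩ := Option.isSome_iff_exists.1 c2'.2.1
  exact ⟨y, x, z, trip_of_cons c1' c2' hy hx hz⟩

theorem link_core {N : ℕ} {nm : ℤ → Option (Letter M)} {w w' : List (Letter M)}
    (hrep : Rep N nm w) {C : Letter M → Bool} {a : Letter M} {g : Option (Letter M)}
    (hok : Ok w C a) (hg : ∀ f, g = some f → (∀ x ∈ w, x.1 ≠ f.1) ∧ C f = false ∧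
      C (linv f) = false ∧ a.1 ≠ f.1) (hw' : w' ~r op C a g w) :
    ∃ nm' : ℤ → Option (Letter M),
      OkNm nm C a ∧ Fresh nm C a g ∧ StepNm C a g nm nm' ∧ Rep N nm' w' := by
  classical
  obtain ⟨hN, hp, b, hb, hw⟩ := hrep
  set nm' : ℤ → Option (Letter M) := fun k =>
    if h : ∃ t : Letter M × (Letter M × Letter M), Trip nm k t.1 t.2.1 t.2.2 then
      opL C a g h.choose else none with hnm'
  have hstep : StepNm C a g nm nm' := by
    constructor
    · intro k hk
      simp only [hnm']
      rw [dif_neg]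
      rintro ⟨t, ht⟩
      obtain ⟨-, -, -, -, -, e, -⟩ := trip_cons ht
      rw [hk] at e; simp at e
    · intro k y x z ht
      have hex : ∃ t : Letter M × (Letter M × Letter M), Trip nm k t.1 t.2.1 t.2.2 :=
        ⟨(y, (x, z)), ht⟩
      have hu := trip_unique hex.choose_spec ht
      have e : hex.choose = (y, (x, z)) := by
        ext1
        · exact hu.1
        · ext1
          · exact hu.2.1
          · exact hu.2.2
      simp only [hnm']
      rw [dif_pos hex, e]
  have hp' : ∀ k, nm' (k + N) = nm' k := by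
    intro k
    cases hk : nm k with
    | none => rw [hstep.1 k hk, hstep.1 (k + N) (by rw [hp]; exact hk)]
    | some x0 =>
      obtain ⟨y, x, z, ht⟩ := exists_trip hN hp (k := k) (by rw [hk]; rfl)
      rw [hstep.2 _ _ _ _ ht, hstep.2 _ _ _ _ (trip_shift hp ht)]
  have hturn : ∀ c p r o e, St nm c p r o e → 0 < tc w p r := by
    intro c p r o e h
    exact tc_pos (turn_mem hN hp (cons_of_st h) h.1 h.2.1 hw)
  have halive : ∃ b', (nm' b').isSome := by
    obtain ⟨y, x, z, ht⟩ := exists_trip hN hp hb
    obtain ⟨k1, k2, c1, c2, e1, e2, e3⟩ := trip_cons ht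
    have key : ∀ k v, nm k = some v → v ≠ a → v ≠ linv a → (nm' k).isSome := by
      intro k v hv h1 h2
      obtain ⟨y', x', z', ht'⟩ := exists_trip hN hp (k := k) (by rw [hv]; rfl)
      obtain ⟨-, -, -, -, -, e2', -⟩ := trip_cons ht'
      rw [hv] at e2'
      have e2'' := Option.some_injective _ e2'
      subst e2''
      rw [hstep.2 _ _ _ _ ht']
      simp [opL, h1, h2]
    by_cases h1 : x = a ∧ C (linv y) = true
    · refine ⟨k1, key k1 y e1 ?_ ?_⟩
      · rintro rfl
        rw [hok.a_inv_not] at h1; simp at h1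
      · rintro rfl
        rw [linv_linv, hok.a_not] at h1; simp at h1
    · by_cases h2 : x = linv a ∧ C z = true
      · refine ⟨k2, key k2 z e3 ?_ ?_⟩
        · rintro rfl
          rw [hok.a_not] at h2; simp at h2
        · rintro rfl
          rw [hok.a_inv_not] at h2; simp at h2
      · refine ⟨b, ?_⟩
        rw [hstep.2 _ _ _ _ ht]
        simp only [opL]
        rw [if_neg h1, if_neg h2]
        rfl
  refine ⟨nm', ⟨hok.a_not, hok.a_inv_not, ?_, ?_⟩, ?_, hstep, hN, hp', ?_⟩
  · intro c p r o e h h1 h2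
    exact hok.bd p r (Nat.add_pos_left (hturn c p r o e h) _) h1 h2
  · intro c p r o e h h1 h2
    exact hok.bd r p (Nat.add_pos_right _ (hturn c p r o e h)) h2 h1
  · intro f hf
    obtain ⟨h1, h2⟩ := hg f hf
    refine ⟨?_, h2⟩
    intro k x hx
    obtain ⟨y, x', z, ht⟩ := exists_trip hN hp (k := k) (by rw [hx]; rfl)
    obtain ⟨k1, k2, c1, c2, e1, e2, e3⟩ := trip_cons ht
    have := turn_mem hN hp c2 hx e3 hw
    exact h1 x (List.of_mem_zip this).1
  · obtain ⟨b', hb'⟩ := halive
    refine ⟨b', hb', ?_⟩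
    refine (hw'.trans (op_rot C a g hw)).trans ?_
    rw [← aw_step hN hp hb hstep]
    exact aw_rot hp' b b'

/-- LINK -/
theorem link : LinkStmt := by
  intro M N nm w w' _ hrep hstep
  cases hstep with
  | slide C a h hw =>
    obtain ⟨nm', h1⟩ := link_core hrep h (g := none) (by intro f hf; cases hf) hw
    exact ⟨C, a, none, nm', h1⟩
  | split C a f h hf hCf hCf' haf hw =>
    obtain ⟨nm', h1⟩ := link_core hrep h (g := some f)
      (by
        intro f' hf'
        have := Option.some_injective _ hf'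
        subst this
        exact ⟨hf, hCf, hCf', haf⟩) hw
    exact ⟨C, a, some f, nm', h1⟩

/-- LINK0 -/
theorem link0 : Link0Stmt := by
  intro M w hcr hne
  have hm : 0 < w.length := List.length_pos_iff.2 hne
  have hmz : (0 : ℤ) < w.length := by exact_mod_cast hm
  have hlt : ∀ k : ℤ, (k % w.length).toNat < w.length := by
    intro k
    have h1 := Int.emod_nonneg k (ne_of_gt hmz)
    have h2 := Int.emod_lt_of_pos k hmz
    omega
  set c : ℤ → Letter M := fun k => w[(k % w.length).toNat]'(hlt k) with hc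
  have hci : ∀ i : ℕ, ∀ h : i < w.length, c i = w[i] := by
    intro i h
    simp only [hc]
    congr 1
    rw [Int.emod_eq_of_lt (by omega) (by exact_mod_cast h)]
    simp
  have hper : ∀ k, c (k + w.length) = c k := by
    intro k
    simp only [hc, Int.add_emod_right]
  have hred : ∀ k, c (k + 1) ≠ linv (c k) := by
    intro k heq
    obtain ⟨i, hi⟩ : ∃ i : ℕ, (k % w.length) = i := by
      have h1 := Int.emod_nonneg k (ne_of_gt hmz)
      exact ⟨(k % w.length).toNat, by omega⟩
    have hilt : i < w.length := by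
      have := hlt k
      rw [hi] at this
      simpa using this
    have e1 : c k = w[i] := by
      simp only [hc]; congr 1; rw [hi]; simp
    have hk1 : (k + 1) % w.length = ((i : ℤ) + 1) % w.length := by
      rw [← hi]; simp [Int.add_emod]
    rw [e1] at heq
    have h1 : (c (k + 1)).1 = w[i].1 := by rw [heq]; rfl
    have h2 : (c (k + 1)).2 = !w[i].2 := by rw [heq]; rfl
    rcases Nat.lt_or_ge (i + 1) w.length with hlt' | hge
    · have e2 : c (k + 1) = w[i + 1] := by
        simp only [hc]
        congr 1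
        rw [hk1, Int.emod_eq_of_lt (by omega) (by exact_mod_cast hlt')]
        omega
      rw [e2] at h1 h2
      have hch := hcr.isReduced
      rw [FreeGroup.IsReduced, List.isChain_iff_getElem] at hch
      have := hch i hlt' h1.symm
      rw [h2] at this
      simp at this
    · have ei : i = w.length - 1 := by omega
      have e2 : c (k + 1) = w[0] := by
        simp only [hc]
        congr 1
        rw [hk1]
        have : ((i : ℤ) + 1) = w.length := by omega
        rw [this, Int.emod_self]
        rfl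
      rw [e2] at h1 h2
      have := hcr.2 (w[w.length - 1]) (by
        rw [List.getLast?_eq_getElem?]
        simp [hm]) w[0] (by
        rw [List.head?_eq_getElem?]
        simp [hm])
      subst ei
      have h3 := this h1.symm
      rw [h2] at h3
      simp at h3
  refine ⟨c, hper, hred, hci, hm, fun k => by simp [hper k], -1, rfl, ?_⟩
  have : aw (fun k => some (c k)) (-1) w.length = w := by
    rw [aw_def]
    have e : (fun i : ℕ => (fun k : ℤ => some (c k)) (-1 + 1 + (i : ℤ))) =
        (fun i : ℕ => some (c i)) := by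
      funext i; simp
    rw [e, List.filterMap_eq_map' (f := fun i : ℕ => c i)]
    apply List.ext_getElem
    · simp
    · intro i h1 h2
      simp [hci i h2]
  rw [this]

end Pool.Agent.Lib.MP_0c2883_lc.All.SGLink
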