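import Pool.Agent.Lib.MP_0c2883_lc.All.SGUL
import Pool.Agent.Lib.MP_0c2883_lc.All.SGLink
import Pool.Agent.Lib.MP_0c2883_lc.All.SGG

/-!
# SG: small grammars of all reachable words
-/

set_option autoImplicit false

namespace Pool.Agent.Lib.MP_0c2883_lc.All.SG

open Pool.Agent.Lib.PolyTime List Pool.Agent.Lib.MP_0c2883_lc.All

variable {M : ℕ}

/-- Rotations of words with small grammars. -/
def RotStmt : Prop := ∀ M : ℕ, ∃ P : ℕ → ℕ, PB P ∧ ∀ (u v : List (Letter M)) (n : ℕ),
  u ~r v → HasSLP n u → HasSLP (P n) v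

/-- All reachable words are represented by names satisfying the invariant. -/
theorem reach_inv (hL : LinkStmt) (hL0 : Link0Stmt) {w₀ w : List (Letter M)} (h0 : CR w₀)
    (hne : w₀ ≠ []) (hR : Reach w₀ w) :
    ∃ c : ℤ → Letter M, (∀ k, c (k + w₀.length) = c k) ∧
      (∀ i : ℕ, ∀ h : i < w₀.length, c i = w₀[i]) ∧
      ∃ nm vol, Inv c nm vol ∧ Rep w₀.length nm w := by
  obtain ⟨c, hc1, hc2, hc3, hc4⟩ := hL0 M w₀ h0 hne
  refine ⟨c, hc1, hc3, ?_⟩
  induction hR with
  | refl => exact ⟨_, _, ul0 M c hc2, hc4⟩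
  | tail _ hs ih =>
    obtain ⟨nm, vol, hI, hrep⟩ := ih
    obtain ⟨C, a, g, nm', h1, h2, h3, h4⟩ := hL M _ nm _ _ hI.red hrep hs
    obtain ⟨vol', hI'⟩ := ul M c nm nm' vol C a g hI h1 h2 h3
    exact ⟨nm', vol', hI', h4⟩

theorem cw_rot {c : ℤ → Letter M} {w : List (Letter M)} (hper : ∀ k, c (k + w.length) = c k)
    (hc : ∀ i : ℕ, ∀ h : i < w.length, c i = w[i]) (b : ℤ) (hne : w ≠ []) :
    w ~r cw c b w.length := by
  have hpos : 0 < w.length := List.length_pos_iff.2 hne
  have hper' : ∀ (k : ℤ) (m : ℤ), c (k + m * w.length) = c k := by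
    intro k m
    induction m using Int.induction_on with
    | zero => simp
    | succ i ih =>
      have : k + ((i : ℤ) + 1) * w.length = (k + i * w.length) + w.length := by ring
      rw [this, hper, ih]
    | pred i ih =>
      have : k + (-(i : ℤ)) * w.length = (k + (-(i : ℤ) - 1) * w.length) + w.length := by ring
      rw [this, hper] at ih
      exact ih
  have hmod : ∀ k : ℤ, c k = w[(k % w.length).toNat]'(by
      have h1 := Int.emod_nonneg k (b := (w.length : ℤ)) (by omega)
      have h2 := Int.emod_lt_of_pos k (b := (w.length : ℤ)) (by omega)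
      omega) := by
    intro k
    have h1 := Int.emod_nonneg k (b := (w.length : ℤ)) (by omega)
    have h2 := Int.emod_lt_of_pos k (b := (w.length : ℤ)) (by omega)
    rw [← hc]
    rw [Int.toNat_of_nonneg h1]
    have : k = k % w.length + (k / w.length) * w.length := by
      have := Int.emod_add_mul_ediv k w.length
      linarith [mul_comm (w.length : ℤ) (k / w.length)]
    conv_lhs => rw [this]
    exact hper' _ _
  refine ⟨((b + 1) % w.length).toNat, ?_⟩
  apply List.ext_getElem
  · simp [cw]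
  · intro i h1 h2
    rw [List.getElem_rotate]
    simp only [cw, List.getElem_map, List.getElem_range]
    rw [hmod (b + 1 + i)]
    congr 1
    have h3 := Int.emod_nonneg (b + 1) (b := (w.length : ℤ)) (by omega)
    have h4 := Int.emod_nonneg (b + 1 + i) (b := (w.length : ℤ)) (by omega)
    zify
    rw [Int.toNat_of_nonneg h3, Int.toNat_of_nonneg h4]
    rw [add_comm (i : ℤ), Int.emod_add_emod]

theorem HasSLP.mono' {m n : ℕ} {u : List (Letter M)} (h : HasSLP m u) (hmn : m ≤ n) :
    HasSLP n u := by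
  obtain ⟨G, h1, h2, h3⟩ := h
  exact ⟨G, h1, h2.trans hmn, h3⟩

theorem sg_of (hL : LinkStmt) (hL0 : Link0Stmt) (hG : GGStmt) (hRot : RotStmt) : SGStmt := by
  intro M
  obtain ⟨P, ⟨p, hp⟩, hG'⟩ := hG M (Fintype.card (Letter M × Letter M))
  obtain ⟨Q, ⟨q, hq⟩, hQ'⟩ := hRot M
  refine ⟨fun n => q.eval (p.eval (q.eval n)), ⟨q.comp (p.comp q), fun n => by
    simp [Polynomial.eval_comp]⟩, ?_⟩
  intro w₀ w n h0 hne hR hn
  obtain ⟨c, hc1, hc2, nm, vol, hI, h5, h6, b, hb, hw⟩ := reach_inv hL hL0 h0 hne hR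
  have hc : HasSLP (q.eval n) (cw c b w₀.length) :=
    HasSLP.mono' (hQ' _ _ _ (cw_rot hc1 hc2 b hne) hn) (hq n)
  have hpure : Pure nm Finset.univ b w₀.length := by
    intro j _
    obtain ⟨p, r, o, e, h⟩ := hI.total (b + j)
    exact ⟨p, r, o, e, h, Finset.mem_univ _⟩
  have h7 := hG' c nm vol hI Finset.univ (by rw [Finset.card_univ]) b w₀.length _ hpure hc
  exact HasSLP.mono' (hQ' _ _ _ hw.symm (HasSLP.mono' h7 (hp _))) (hq _)

/-- Rotations of words with small grammars have small grammars. -/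
theorem rot : RotStmt := by
  intro M
  refine ⟨fun n => 4 * n + 1, ?_, ?_⟩
  · exact (((PB.const 4).mul PB.id).add (PB.const 1))
  · rintro u v n ⟨k, rfl⟩ hn
    rcases eq_or_ne u [] with rfl | hne
    · rw [List.rotate_nil]
      exact HasSLP.mono' hn (by show n ≤ 4 * n + 1; omega)
    · have hk : k % u.length ≤ u.length := (Nat.mod_lt _ (List.length_pos_iff.2 hne)).le
      rw [← List.rotate_mod, List.rotate_eq_drop_append_take hk]
      exact HasSLP.mono' (SGG.slp_append (SGG.slp_drop hn _) (SGG.slp_take hn _))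
        (by show 2 * n + 2 * n + 1 ≤ 4 * n + 1; omega)

/-- SG: small grammars of all reachable words. -/
theorem sg : SGStmt := sg_of SGLink.link SGLink.link0 gg rot

end Pool.Agent.Lib.MP_0c2883_lc.All.SG
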