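import Pool.Agent.Lib.MP_0c2883_lc.All.AlgStmts
import Pool.Agent.Lib.MP_0c2883_lc.All.RedPT

/-!
# SIG: images of compressed words under the automorphisms `sigW C p`
-/

set_option autoImplicit false

namespace Pool.Agent.Lib.MP_0c2883_lc.All

open Pool.Agent.Lib.PolyTime List

namespace Sig

variable {M : ℕ}

/-! ### Images of letters -/

/-- add the image of a letter -/
def addL (C : Letter M → Bool) (j jj : ℕ) (G : Gram M) (x : Letter M) : Gram M :=
  ((G ++ [some (Sum.inl x)]) ++ [some (Sum.inr (if C x then j else 0, G.length))]) ++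
    [some (Sum.inr (G.length + 1, if C (linv x) then jj else 0))]

/-- add the images of the letters of a list -/
def blk (C : Letter M → Bool) (j jj : ℕ) (L : List (Letter M)) (G : Gram M) : Gram M :=
  L.foldl (addL C j jj) G

theorem length_addL (C : Letter M → Bool) (j jj : ℕ) (G : Gram M) (x : Letter M) :
    (addL C j jj G x).length = G.length + 3 := by simp [addL]

theorem addL_spec (C : Letter M → Bool) {j jj : ℕ} {G : Gram M} (hG : Good G)
    (hj : j < G.length) (hjj : jj < G.length) (hinv : V G jj = FreeGroup.invRev (V G j))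
    (x : Letter M) :
    Good (addL C j jj G x) ∧ V (addL C j jj G x) (G.length + 2) = sigL C (V G j) x := by
  have g1 : Good (G ++ [some (Sum.inl x)]) := hG.concat (by intro a b h; simp at h)
  have hpos := hG.pos
  have hx : V (G ++ [some (Sum.inl x)]) G.length = [x] := V_letter (by simp)
  set i1 : ℕ := if C x then j else 0 with hi1
  set i2 : ℕ := if C (linv x) then jj else 0 with hi2
  have hi1l : i1 < G.length := by rw [hi1]; split <;> omega
  have hi2l : i2 < G.length := by rw [hi2]; split <;> omega
  have hl1 : (G ++ [some (Sum.inl x)]).length = G.length + 1 := by simp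
  have g2 : Good ((G ++ [some (Sum.inl x)]) ++ [some (Sum.inr (i1, G.length))]) := g1.concat (by
    intro a b h
    simp only [Option.some.injEq, Sum.inr.injEq, Prod.mk.injEq] at h
    omega)
  have v2 := (V_concat (a := i1) (b := G.length) g1.1 (by omega) (by omega)).1
  rw [hl1, hx, V_append hi1l] at v2
  have hl2 : ((G ++ [some (Sum.inl x)]) ++ [some (Sum.inr (i1, G.length))]).length =
      G.length + 2 := by simp
  have g3 : Good (((G ++ [some (Sum.inl x)]) ++ [some (Sum.inr (i1, G.length))]) ++
      [some (Sum.inr (G.length + 1, i2))]) := g2.concat (by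
    intro a b h
    simp only [Option.some.injEq, Sum.inr.injEq, Prod.mk.injEq] at h
    omega)
  have v3 := (V_concat (a := G.length + 1) (b := i2) g2.1 (by omega) (by omega)).1
  have e2 : V ((G ++ [some (Sum.inl x)]) ++ [some (Sum.inr (i1, G.length))]) i2 = V G i2 := by
    rw [V_append (by omega), V_append (by omega)]
  rw [hl2, v2, e2] at v3
  have w1 : V G i1 = if C x then V G j else [] := by
    rw [hi1]; split
    · rfl
    · exact hG.V0
  have w2 : V G i2 = if C (linv x) then FreeGroup.invRev (V G j) else [] := by
    rw [hi2]; split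
    · exact hinv
    · exact hG.V0
  refine ⟨g3, ?_⟩
  have e3 : V (addL C j jj G x) (G.length + 2) =
      V G i1 ++ [x] ++ V G i2 := v3
  rw [e3, w1, w2]
  simp [sigL]

theorem blk_append (C : Letter M → Bool) (j jj : ℕ) (L : List (Letter M)) (x : Letter M)
    (G : Gram M) : blk C j jj (L ++ [x]) G = addL C j jj (blk C j jj L G) x := by
  simp [blk]

theorem blk_prefix (C : Letter M → Bool) (j jj : ℕ) (L : List (Letter M)) (G : Gram M) :
    ∃ G', blk C j jj L G = G ++ G' := by
  induction L using List.reverseRecOn with
  | nil => exact ⟨[], by simp [blk]⟩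
  | append_singleton L x ih =>
    obtain ⟨G', h⟩ := ih
    rw [blk_append, h]
    exact ⟨_, by unfold addL; rw [List.append_assoc, List.append_assoc, List.append_assoc]⟩

theorem length_blk (C : Letter M → Bool) (j jj : ℕ) (L : List (Letter M)) (G : Gram M) :
    (blk C j jj L G).length = G.length + 3 * L.length := by
  induction L using List.reverseRecOn with
  | nil => simp [blk]
  | append_singleton L x ih =>
    rw [blk_append, length_addL, ih, List.length_append, List.length_singleton]
    ring

theorem blk_spec (C : Letter M → Bool) {j jj : ℕ} {G : Gram M} (hG : Good G)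
    (hj : j < G.length) (hjj : jj < G.length) (hinv : V G jj = FreeGroup.invRev (V G j))
    (L : List (Letter M)) :
    Good (blk C j jj L G) ∧ ∀ (k : ℕ) (x : Letter M), L[k]? = some x →
      V (blk C j jj L G) (G.length + 3 * k + 2) = sigL C (V G j) x := by
  induction L using List.reverseRecOn with
  | nil => exact ⟨hG, by simp⟩
  | append_singleton L x ih =>
    obtain ⟨ih1, ih2⟩ := ih
    obtain ⟨G', hG'⟩ := blk_prefix C j jj L G
    have hlen := length_blk C j jj L G
    have vj : V (blk C j jj L G) j = V G j := by rw [hG']; exact V_append hj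
    have vjj : V (blk C j jj L G) jj = V G jj := by rw [hG']; exact V_append hjj
    obtain ⟨s1, s2⟩ := addL_spec C ih1 (j := j) (jj := jj) (by omega) (by omega)
      (by rw [vj, vjj]; exact hinv) x
    rw [blk_append]
    refine ⟨s1, ?_⟩
    intro k y hk
    by_cases hkL : k < L.length
    · rw [List.getElem?_append_left hkL] at hk
      have h1 := ih2 k y hk
      rw [← h1]
      unfold addL
      rw [List.append_assoc, List.append_assoc]
      exact V_append (by omega)
    · rw [List.getElem?_append_right (by omega)] at hk
      have h0 : k - L.length = 0 := by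
        by_contra h1
        rw [List.getElem?_eq_none_iff.2 (by simp; omega)] at hk
        simp at hk
      rw [h0] at hk
      simp only [List.getElem?_cons_zero, Option.some.injEq] at hk
      subst hk
      have hkk : k = L.length := by omega
      rw [hlen, vj] at s2
      rw [hkk]
      exact s2

/-! ### Substitution -/

/-- the rule of the substituted grammar; `o` = start of the images of the letters, `q` = start of
the substituted grammar -/
def tr (L : List (Letter M)) (o q : ℕ) : GRule M → GRule M
  | none => none
  | some (Sum.inl x) => some (Sum.inr (0, o + 3 * L.idxOf x + 2))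
  | some (Sum.inr p) => some (Sum.inr (q + p.1, q + p.2))

theorem sub_spec {F : Gram M} (hF : Good F) {L : List (Letter M)} {o : ℕ}
    (im : Letter M → List (Letter M))
    (him : ∀ x, o + 3 * L.idxOf x + 2 < F.length ∧ V F (o + 3 * L.idxOf x + 2) = im x)
    {G : Gram M} (hG : Good G) :
    Good (F ++ G.map (tr L o F.length)) ∧ ∀ i < G.length,
      V (F ++ G.map (tr L o F.length)) (F.length + i) = (V G i).flatMap im := by
  have hget : ∀ i : ℕ, (F ++ G.map (tr L o F.length))[F.length + i]? =
      (G[i]?).map (tr L o F.length) := by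
    intro i
    rw [List.getElem?_append_right (by omega), Nat.add_sub_cancel_left, List.getElem?_map]
  have hval : Valid (F ++ G.map (tr L o F.length)) := by
    intro i a b h
    by_cases hi : i < F.length
    · rw [List.getElem?_append_left hi] at h
      exact hF.1 i a b h
    · have e : i = F.length + (i - F.length) := by omega
      rw [e, hget] at h
      rcases hr : G[i - F.length]? with _ | _ | x | ⟨a', b'⟩
      · rw [hr] at h; simp at h
      · rw [hr] at h; simp [tr] at h
      · rw [hr] at h
        simp only [Option.map_some, tr, Option.some.injEq, Sum.inr.injEq,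
          Prod.mk.injEq] at h
        have := (him x).1
        omega
      · rw [hr] at h
        simp only [Option.map_some, tr, Option.some.injEq, Sum.inr.injEq,
          Prod.mk.injEq] at h
        have := hG.1 _ _ _ hr
        omega
  have hgood : Good (F ++ G.map (tr L o F.length)) := by
    refine ⟨hval, ?_⟩
    rw [List.getElem?_append_left hF.pos]; exact hF.2
  refine ⟨hgood, ?_⟩
  intro i
  induction i using Nat.strong_induction_on with
  | _ i ih =>
    intro hi
    have h := hget i
    rcases hr : G[i]? with _ | _ | x | ⟨a, b⟩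
    · rw [List.getElem?_eq_none_iff] at hr; omega
    · rw [hr] at h
      rw [V_none h, V_none hr]; rfl
    · rw [hr] at h
      rw [V_letter hr]
      have h' : (F ++ G.map (tr L o F.length))[F.length + i]? =
          some (some (Sum.inr (0, o + 3 * L.idxOf x + 2))) := h
      rw [V_cat hval h', hgood.V0, V_append (him x).1, (him x).2]
      simp
    · rw [hr] at h
      obtain ⟨ha, hb⟩ := hG.1 i a b hr
      have h' : (F ++ G.map (tr L o F.length))[F.length + i]? =
          some (some (Sum.inr (F.length + a, F.length + b))) := h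
      rw [V_cat hval h', V_cat hG.1 hr, ih a ha (by omega), ih b hb (by omega),
        List.flatMap_append]

/-! ### From grammars to programs -/

/-- rules as rules of programs; `N` = a number which is not an index -/
def toS (N : ℕ) : GRule M → SRule M
  | none => Sum.inr (N, N)
  | some (Sum.inl x) => Sum.inl x
  | some (Sum.inr p) => Sum.inr p

theorem words_toS (N : ℕ) (G : Gram M) (h : G.length ≤ N) :
    words (G.map (toS N)) = tab ruleVal G := by
  induction G using List.reverseRecOn with
  | nil => rfl
  | append_singleton G r ih =>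
    rw [List.length_append, List.length_singleton] at h
    rw [List.map_append, List.map_singleton, words_concat, tab_concat, ih (by omega)]
    congr 2
    rcases r with _ | x | ⟨a, b⟩
    · simp only [toS, ruleVal]
      rw [List.getElem?_eq_none_iff.2 (by rw [length_tab]; omega)]
      rfl
    · rfl
    · rfl

/-- cyclic reduction of a word given by a grammar -/
def creduce (G : Gram M) (i : ℕ) : Gram M × ℕ :=
  cyc (red (G.map (toS G.length))).1 ((red (G.map (toS G.length))).2[i]?.getD 0)

theorem creduce_spec (G : Gram M) {i : ℕ} (hi : i < G.length) :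
    GI (creduce G i) ∧ CR (wd (creduce G i)) ∧
      IsConj (FreeGroup.mk (wd (creduce G i))) (FreeGroup.mk (V G i)) := by
  have hinv := red_inv (G.map (toS G.length))
  set s := red (G.map (toS G.length)) with hs
  have hil : s.2[i]?.getD 0 < s.1.length := by
    rcases getD_mem_or s.2 i 0 with h | h
    · exact hinv.lt _ h
    · rw [h]; exact hinv.good.pos
  obtain ⟨w1, w2⟩ := hinv.word i (by simpa using hi)
  rw [words_toS _ _ le_rfl] at w2
  obtain ⟨G', c1, c2, c3, c4, ⟨g, c5⟩, _⟩ := cyc_spec hinv.good hil w1
  refine ⟨⟨c2, c3⟩, c4, ?_⟩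
  have e1 : (FreeGroup.mk (V G i) : FreeGroup (Fin M)) =
      FreeGroup.mk ((tab ruleVal G)[i]?.getD []) := rfl
  rw [e1, ← w2, c5, isConj_iff]
  exact ⟨g, rfl⟩

/-! ### The function -/

/-- all letters -/
noncomputable def Ls (M : ℕ) : List (Letter M) := (Finset.univ : Finset (Letter M)).toList

theorem idx_Ls (x : Letter M) : (Ls M)[(Ls M).idxOf x]? = some x := by
  have hx : x ∈ Ls M := by simp [Ls]
  have h := List.idxOf_lt_length_iff.2 hx
  rw [List.getElem?_eq_getElem h, List.getElem_idxOf h]

theorem idx_Ls_lt (x : Letter M) : (Ls M).idxOf x < (Ls M).length :=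
  List.idxOf_lt_length_iff.2 (by simp [Ls])

/-- the grammar with the images of all letters -/
noncomputable def Fg (C : Letter M → Bool) (G : Gram M) (j : ℕ) : Gram M :=
  blk C j (j + G.length) (Ls M) (invG G)

/-- the grammar with the image of all words -/
noncomputable def Sg (C : Letter M → Bool) (G : Gram M) (j : ℕ) : Gram M :=
  Fg C G j ++ G.map (tr (Ls M) (invG G).length (Fg C G j).length)

theorem Sg_spec (C : Letter M → Bool) {G : Gram M} (hG : Good G) {j : ℕ} (hj : j < G.length) :
    Good (Sg C G j) ∧ ∀ i < G.length,
      V (Sg C G j) ((Fg C G j).length + i) = sigW C (V G j) (V G i) := by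
  have hlen : (invG G).length = G.length + G.length := by simp [invG]
  have hgi := invG_good hG
  have vj : V (invG G) j = V G j := V_invG_left hj
  have vjj : V (invG G) (j + G.length) = FreeGroup.invRev (V G j) := V_invG hG.1 j hj
  obtain ⟨b1, b2⟩ := blk_spec C hgi (j := j) (jj := j + G.length) (by omega) (by omega)
    (by rw [vj, vjj]) (Ls M)
  have him : ∀ x : Letter M, (invG G).length + 3 * (Ls M).idxOf x + 2 < (Fg C G j).length ∧
      V (Fg C G j) ((invG G).length + 3 * (Ls M).idxOf x + 2) = sigL C (V G j) x := by
    intro x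
    constructor
    · unfold Fg
      rw [length_blk]
      have := idx_Ls_lt x
      omega
    · have := b2 _ x (idx_Ls x)
      rw [vj] at this
      exact this
  exact sub_spec b1 (fun x => sigL C (V G j) x) him hG

/-- SIG, first part -/
noncomputable def sig (C : Letter M → Bool) (z : (Gram M × ℕ) × ℕ) : Gram M × ℕ :=
  creduce (Sg C z.1.1 z.2) ((Fg C z.1.1 z.2).length + z.1.2)

theorem sig_spec (C : Letter M → Bool) (z : Gram M × ℕ) (j : ℕ) (hz : GI z)
    (hj : j < z.1.length) :
    GI (sig C (z, j)) ∧ CR (wd (sig C (z, j))) ∧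
      IsConj (FreeGroup.mk (wd (sig C (z, j)))) (FreeGroup.mk (sigW C (V z.1 j) (wd z))) := by
  obtain ⟨s1, s2⟩ := Sg_spec C hz.1 hj
  have h := creduce_spec (Sg C z.1 j) (i := (Fg C z.1 j).length + z.2) (by
    unfold Sg
    rw [List.length_append, List.length_map]
    have := hz.2
    omega)
  rw [s2 z.2 hz.2] at h
  exact h

/-! ### Polynomial time -/

section PT
variable {α : Type} [Enc α]

theorem PT.toS {f : α → Gram M} (hf : PT f) : PT (fun a => (f a).map (toS (f a).length)) := by
  refine PT.map hf (g := fun a x => Sig.toS (f a).length x) ?_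
  have hN : PT (fun x : α × GRule M => (f x.1).length) := (hf.comp PT.fst).length
  refine (PT.ruleCases (f := fun x : α × GRule M => x.2)
    (g := fun x => (Sum.inr ((f x.1).length, (f x.1).length) : SRule M))
    (h := fun _ y => (Sum.inl y : SRule M))
    (k := fun _ q => (Sum.inr q : SRule M)) PT.snd (PT.inr (hN.pair hN))
    (PT.inl PT.snd) (PT.inr PT.snd)).congr (fun x => ?_)
  rcases x.2 with _ | y | q <;> rfl

theorem PT.creduce {f : α → Gram M} {g : α → ℕ} (hf : PT f) (hg : PT g) :
    PT (fun a => creduce (f a) (g a)) := by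
  have h1 := PT.red (PT.toS hf)
  exact PT.cyc h1.fst' (PT.getDv hg h1.snd' 0)

theorem PT.addL (C : Letter M → Bool) {f : α → Gram M} {g h : α → ℕ} (hf : PT f) (hg : PT g)
    (hh : PT h) (x : Letter M) : PT (fun a => addL C (g a) (h a) (f a) x) := by
  have hi1 : PT (fun a => if C x then g a else 0) := by
    by_cases hC : C x = true
    · simpa [hC] using hg
    · simpa [hC] using (PT.const (α := α) 0)
  have hi2 : PT (fun a => if C (linv x) then h a else 0) := by
    by_cases hC : C (linv x) = true
    · simpa [hC] using hh
    · simpa [hC] using (PT.const (α := α) 0)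
  have e1 : PT (fun _ : α => ([some (Sum.inl x)] : Gram M)) := PT.const _
  have e2 : PT (fun a : α => ([some (Sum.inr (if C x then g a else 0, (f a).length))] : Gram M)) :=
    PT.list1 (PT.some (PT.inr (hi1.pair hf.length)))
  have e3 : PT (fun a : α => ([some (Sum.inr ((f a).length + 1,
      if C (linv x) then h a else 0))] : Gram M)) :=
    PT.list1 (PT.some (PT.inr (hf.length.succ.pair hi2)))
  exact PT.append (PT.append (PT.append hf e1) e2) e3

theorem PT.blk (C : Letter M → Bool) (L : List (Letter M)) {f : α → Gram M} {g h : α → ℕ}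
    (hf : PT f) (hg : PT g) (hh : PT h) : PT (fun a => blk C (g a) (h a) L (f a)) := by
  induction L using List.reverseRecOn with
  | nil => exact hf
  | append_singleton L x ih =>
    refine (PT.addL C ih hg hh x).congr (fun a => ?_)
    rw [blk_append]

theorem PT.trMap (L : List (Letter M)) {f : α → Gram M} {g h : α → ℕ} (hf : PT f) (hg : PT g)
    (hh : PT h) : PT (fun a => (f a).map (tr L (g a) (h a))) := by
  refine PT.map hf (g := fun a x => tr L (g a) (h a) x) ?_
  have hg' : PT (fun x : α × GRule M => g x.1) := hg.comp PT.fst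
  have hh' : PT (fun x : α × GRule M => h x.1) := hh.comp PT.fst
  have hidx : PT (fun x : (α × GRule M) × Letter M => L.idxOf x.2) :=
    (PT.ofFintype (fun y : Letter M => L.idxOf y)).comp PT.snd
  refine (PT.ruleCases (f := fun x : α × GRule M => x.2) (g := fun _ => (none : GRule M))
    (h := fun x y => (some (Sum.inr (0, g x.1 + 3 * L.idxOf y + 2)) : GRule M))
    (k := fun x q => (some (Sum.inr (h x.1 + q.1, h x.1 + q.2)) : GRule M)) PT.snd (PT.const _)
    (PT.some (PT.inr ((PT.const 0).pair
      (PT.addConst (PT.add (hg'.comp PT.fst) (PT.mulConst hidx 3)) 2))))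
    (PT.some (PT.inr ((PT.add (hh'.comp PT.fst) PT.snd.fst').pair
      (PT.add (hh'.comp PT.fst) PT.snd.snd'))))).congr (fun x => ?_)
  rcases x.2 with _ | y | q <;> rfl

theorem PT.Fg (C : Letter M → Bool) {f : α → Gram M} {g : α → ℕ} (hf : PT f) (hg : PT g) :
    PT (fun a => Fg C (f a) (g a)) :=
  PT.blk C (Ls M) (PT.invG hf) hg (PT.add hg hf.length)

theorem PT.Sg (C : Letter M → Bool) {f : α → Gram M} {g : α → ℕ} (hf : PT f) (hg : PT g) :
    PT (fun a => Sg C (f a) (g a)) :=
  PT.append (PT.Fg C hf hg) (PT.trMap (Ls M) hf (PT.invG hf).length (PT.Fg C hf hg).length)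

theorem PT.sig (C : Letter M → Bool) : PT (sig C : (Gram M × ℕ) × ℕ → Gram M × ℕ) :=
  PT.creduce (f := fun z : (Gram M × ℕ) × ℕ => Sig.Sg C z.1.1 z.2)
    (g := fun z => (Sig.Fg C z.1.1 z.2).length + z.1.2)
    (PT.Sg C PT.fst.fst' PT.snd) (PT.add (PT.Fg C PT.fst.fst' PT.snd).length PT.fst.snd')

end PT

/-! ### Constant words -/

/-- add a constant word -/
def addW (p : List (Letter M)) (G : Gram M) : Gram M × ℕ :=
  p.foldl (fun s x => ((s.1 ++ [some (Sum.inl x)]) ++ [some (Sum.inr (s.2, s.1.length))],
    s.1.length + 1)) (G, 0)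

theorem addW_append (p : List (Letter M)) (x : Letter M) (G : Gram M) :
    addW (p ++ [x]) G = (((addW p G).1 ++ [some (Sum.inl x)]) ++
      [some (Sum.inr ((addW p G).2, (addW p G).1.length))], (addW p G).1.length + 1) := by
  simp [addW]

theorem addW_spec (p : List (Letter M)) {G : Gram M} (hG : Good G) :
    ∃ G', (addW p G).1 = G ++ G' ∧ Good (addW p G).1 ∧ (addW p G).2 < (addW p G).1.length ∧
      V (addW p G).1 (addW p G).2 = p := by
  induction p using List.reverseRecOn with
  | nil => exact ⟨[], by simp [addW], hG, hG.pos, hG.V0⟩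
  | append_singleton p x ih =>
    obtain ⟨G', h1, h2, h3, h4⟩ := ih
    rw [addW_append]
    set s := addW p G with hs
    have g1 : Good (s.1 ++ [some (Sum.inl x)]) := h2.concat (by intro a b h; simp at h)
    have hl1 : (s.1 ++ [some (Sum.inl x)]).length = s.1.length + 1 := by simp
    have g2 : Good ((s.1 ++ [some (Sum.inl x)]) ++ [some (Sum.inr (s.2, s.1.length))]) :=
      g1.concat (by
        intro a b h
        simp only [Option.some.injEq, Sum.inr.injEq, Prod.mk.injEq] at h
        omega)
    have v2 := (V_concat (a := s.2) (b := s.1.length) g1.1 (by omega) (by omega)).1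
    have hvx : V (s.1 ++ [some (Sum.inl x)]) s.1.length = [x] := V_letter (by simp)
    rw [hl1, V_append h3, h4, hvx] at v2
    refine ⟨G' ++ ([some (Sum.inl x)] ++ [some (Sum.inr (s.2, s.1.length))]), ?_, g2, ?_, v2⟩
    · simp only
      rw [h1]
      simp
    · simp

theorem PT.addW {α : Type} [Enc α] (p : List (Letter M)) {f : α → Gram M} (hf : PT f) :
    PT (fun a => addW p (f a)) := by
  induction p using List.reverseRecOn with
  | nil => exact hf.pair (PT.const 0)
  | append_singleton p x ih =>
    have e2 : PT (fun a : α => ([some (Sum.inr ((Sig.addW p (f a)).2,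
        (Sig.addW p (f a)).1.length))] : Gram M)) :=
      PT.list1 (PT.some (PT.inr (ih.snd'.pair ih.fst'.length)))
    refine ((PT.append (PT.append ih.fst' (PT.const ([some (Sum.inl x)] : Gram M))) e2).pair
      ih.fst'.length.succ).congr (fun a => ?_)
    rw [addW_append]

end Sig

/-- SIG -/
theorem sigStmt : SigStmt := by
  intro M C
  refine ⟨⟨Sig.sig C, Sig.PT.sig C, fun z j hz hj => Sig.sig_spec C z j hz hj⟩, ?_⟩
  intro p
  refine ⟨fun z => Sig.sig C (((Sig.addW p z.1).1, z.2), (Sig.addW p z.1).2), ?_, ?_⟩
  · have h := Sig.PT.addW p (f := fun z : Gram M × ℕ => z.1) PT.fst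
    exact (Sig.PT.sig C).comp ((h.fst'.pair PT.snd).pair h.snd')
  · intro z hz
    obtain ⟨G', h1, h2, h3, h4⟩ := Sig.addW_spec p hz.1
    have hlt : z.2 < (Sig.addW p z.1).1.length := by
      rw [h1, List.length_append]
      have := hz.2
      omega
    have h5 := Sig.sig_spec C ((Sig.addW p z.1).1, z.2) (Sig.addW p z.1).2 ⟨h2, hlt⟩ h3
    have h6 : wd ((Sig.addW p z.1).1, z.2) = wd z := by
      unfold wd
      simp only [h1]
      exact V_append hz.2
    rw [h6] at h5
    simp only [h4] at h5
    exact h5

end Pool.Agent.Lib.MP_0c2883_lc.All
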