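import Pool.Agent.Lib.MP_0c2883_lc.All.Det
import Pool.Agent.Lib.MP_0c2883_lc.All.SGLink
import Pool.Agent.Lib.MP_0c2883_lc.All.RedPT

/-!
# SRCH: the accelerated slide
-/

set_option autoImplicit false

namespace Pool.Agent.Lib.MP_0c2883_lc.All

open Pool.Agent.Lib.PolyTime List

/-- The end of a chain is conjugate to the image under the automorphism given by the path. -/
def ChainConjStmt : Prop := ∀ (M : ℕ) (w w' p : List (Letter M)) (C : Letter M → Bool), CR w →
  ChainW C w p w' → IsConj (FreeGroup.mk w') (FreeGroup.mk (sigW C p w))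

end Pool.Agent.Lib.MP_0c2883_lc.All

namespace Pool.Agent.Lib.MP_0c2883_lc.All.Srch

open Pool.Agent.Lib.PolyTime List Pool.Agent.Lib.MP_0c2883_lc.All
open Pool.Agent.Lib.MP_0c2883_lc.All.SGLink

variable {M : ℕ}

/-! ### Words -/

theorem Ok.rot (hOf : OfStmt) {w w' : List (Letter M)} {C : Letter M → Bool} {a : Letter M}
    (hw : CR w) (hr : w' ~r w) (h : Ok w C a) : Ok w' C a := by
  have h1 := ((hOf M w hw).2.2 w' hr).2.1
  refine ⟨h.a_not, h.a_inv_not, ?_⟩
  intro p q hpq
  rw [h1] at hpq
  exact h.bd p q hpq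

theorem op_sublist (C : Letter M → Bool) (a : Letter M) (w : List (Letter M)) :
    op C a none w <+ w := by
  have h1 : ∀ l : List (Letter M × (Letter M × Letter M)),
      l.filterMap (opL C a none) <+ l.map (fun t => t.2.1) := by
    intro l
    induction l with
    | nil => simp
    | cons t l ih =>
      rw [List.filterMap_cons, List.map_cons]
      unfold opL
      split_ifs
      · exact ih.cons _
      · simp only [Option.map_none]
        exact ih.cons _
      · exact ih.cons_cons _
  have h2 := h1 (ctx w)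
  rw [ctx_mid] at h2
  exact h2

theorem wt_linv (w : List (Letter M)) (e : Letter M) : wt w (linv e) = wt w e := by
  unfold wt; rw [linv_linv, Nat.add_comm]

theorem wt_countP (w : List (Letter M)) (e : Letter M) :
    wt w e = w.countP (fun x => decide (x = e ∨ x = linv e)) := by
  unfold wt
  induction w with
  | nil => rfl
  | cons x w ih =>
    rw [List.count_cons, List.count_cons, List.countP_cons, ← ih]
    have hne := linv_ne e
    by_cases h1 : x = e
    · subst h1
      have h2 : ¬ x = linv x := fun h => linv_ne x h.symm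
      simp [h2]; omega
    · by_cases h2 : x = linv e
      · subst h2
        simp [h1]; omega
      · simp [h1, h2]

theorem wt_mono {u w : List (Letter M)} (h : u <+ w) (e : Letter M) : wt u e ≤ wt w e := by
  rw [wt_countP, wt_countP]; exact h.countP_le

theorem wt_drop {u w : List (Letter M)} (h : u <+ w) (e : Letter M) :
    wt w e + u.length ≤ wt u e + w.length := by
  rw [wt_countP, wt_countP]
  have h1 := List.length_eq_countP_add_countP (fun x => decide (x = e ∨ x = linv e)) (l := u)
  have h2 := List.length_eq_countP_add_countP (fun x => decide (x = e ∨ x = linv e)) (l := w)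
  have h3 := h.countP_le (p := fun x => decide (¬ decide (x = e ∨ x = linv e) = true))
  omega

theorem opL_cases (C : Letter M → Bool) (a : Letter M) (t : Letter M × (Letter M × Letter M)) :
    (opL C a none t = none ∧ (t.2.1 = a ∨ t.2.1 = linv a)) ∨ opL C a none t = some t.2.1 := by
  unfold opL
  split_ifs with c1 c2
  · exact Or.inl ⟨rfl, Or.inl c1.1⟩
  · exact Or.inl ⟨rfl, Or.inr c2.1⟩
  · exact Or.inr rfl

theorem wt_op_other (C : Letter M → Bool) (a : Letter M) (w : List (Letter M)) {e : Letter M}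
    (h1 : e ≠ a) (h2 : e ≠ linv a) : wt (op C a none w) e = wt w e := by
  have h2' : linv e ≠ a := fun h => h2 (by rw [← h, linv_linv])
  have h1' : linv e ≠ linv a := fun h => h1 (linv_inj.1 h)
  have key : ∀ (e : Letter M), e ≠ a → e ≠ linv a → ∀ l : List (Letter M × (Letter M × Letter M)),
      (l.filterMap (opL C a none)).count e = (l.map (fun t => t.2.1)).count e := by
    intro e h1 h2 l
    induction l with
    | nil => rfl
    | cons t l ih =>
      rw [List.filterMap_cons, List.map_cons, List.count_cons]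
      rcases opL_cases C a t with ⟨c1, c2⟩ | c1
      · rw [c1]
        have : ¬ t.2.1 = e := by
          rintro rfl
          rcases c2 with c2 | c2
          · exact h1 c2
          · exact h2 c2
        simpa [this] using ih
      · rw [c1]
        simp only
        rw [List.count_cons, ih]
  unfold wt op
  rw [key e h1 h2, key _ h2' h1', ctx_mid]

/-- Everything about the end of a chain. -/
theorem chain_facts (hOf : OfStmt) (hSl : SlideStmt) {C : Letter M → Bool} {w p w' : List (Letter M)}
    (h : ChainW C w p w') : CR w → CR w' ∧ w'.length + p.length * cap w C = w.length ∧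
      cap w' C = cap w C ∧ (∀ y ∈ p, C y = false ∧ C (linv y) = false) ∧
      ∀ e, wt w' e ≤ wt w e := by
  induction h with
  | nil w w' h =>
    intro hw
    have h1 := (hOf M w hw).2.2 w' h
    exact ⟨h1.1, by simpa using h.perm.length_eq, h1.2.2.2 C, by simp, fun e => (h1.2.2.1 e).le⟩
  | cons w w' p a hO hc ih =>
    intro hw
    obtain ⟨s1, s2, s3, -⟩ := hSl M w C a hw hO
    obtain ⟨i1, i2, i3, i4, i5⟩ := ih s1
    refine ⟨i1, ?_, by rw [i3, s3], ?_, fun e => (i5 e).trans (wt_mono (op_sublist C a w) e)⟩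
    · rw [s3] at i2
      rw [List.length_cons, add_mul]
      omega
    · intro y hy
      rcases List.mem_cons.1 hy with rfl | hy
      · exact ⟨hO.a_not, hO.a_inv_not⟩
      · exact i4 y hy

theorem chain_end {C : Letter M → Bool} {w p w' w'' : List (Letter M)} (h : ChainW C w p w')
    (hr : w'' ~r w') : ChainW C w p w'' := by
  induction h with
  | nil w w' h => exact ChainW.nil _ _ (hr.trans h)
  | cons w w' p a hO hc ih => exact ChainW.cons _ _ _ _ hO (ih hr)

theorem chain_snoc (hOf : OfStmt) (hSl : SlideStmt) {C : Letter M → Bool} {w p w' : List (Letter M)}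
    {b : Letter M} (h : ChainW C w p w') : CR w → Ok w' C b →
      ChainW C w (p ++ [b]) (op C b none w') := by
  induction h with
  | nil w w' h =>
    intro hw hb
    have h1 := (hOf M w hw).2.2 w' h
    have h2 : Ok w C b := Ok.rot hOf h1.1 h.symm hb
    exact ChainW.cons _ _ _ _ h2 (ChainW.nil _ _ (op_rot C b none h))
  | cons w w' p a hO hc ih =>
    intro hw hb
    exact ChainW.cons _ _ _ _ hO (ih (hSl M w C a hw hO).1 hb)

theorem chainH_of (hOf : OfStmt) (hSl : SlideStmt) {C : Letter M → Bool} {h : ℕ}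
    {w p w' : List (Letter M)} (hc : ChainW C w p w') : CR w → (∀ e ∈ p, h ≤ wt w' e) →
      ChainH C h w p w' := by
  induction hc with
  | nil w w' hr => intro _ _; exact ChainH.nil _ _ hr
  | cons w w' p a hO hc ih =>
    intro hw he
    have s1 := (hSl M w C a hw hO).1
    have i5 := (chain_facts hOf hSl hc s1).2.2.2.2
    exact ChainH.cons _ _ _ _ hO ((he a (by simp)).trans (i5 a))
      (ih s1 (fun e h => he e (List.mem_cons_of_mem _ h)))

/-- The condition tested for a path `p` with end `w''`. -/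
def Q (C : Letter M → Bool) (w p w'' : List (Letter M)) : Prop :=
  ChainW C w p w'' ∧ ∀ e ∈ p.drop 1, hW w C ≤ wt w'' e

/-- The image with the right length. -/
structure Img (C : Letter M → Bool) (w p w'' : List (Letter M)) : Prop where
  cr : CR w''
  conj : IsConj (FreeGroup.mk w'') (FreeGroup.mk (sigW C p w))

theorem Img.rot (hConj : ConjStmt) (hCC : ChainConjStmt) (hOf : OfStmt) (hSl : SlideStmt)
    {C : Letter M → Bool} {w p u w'' : List (Letter M)} (h : Img C w p w'') (hw : CR w)
    (hc : ChainW C w p u) : ChainW C w p w'' ∧ w'' ~r u := by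
  have h1 := hCC M w u p C hw hc
  have h2 : w'' ~r u := hConj M w'' u h.cr (chain_facts hOf hSl hc hw).1 (h.conj.trans h1.symm)
  exact ⟨chain_end hc h2, h2⟩

theorem Q_one (hConj : ConjStmt) (hCC : ChainConjStmt) (hOf : OfStmt) (hSl : SlideStmt)
    {C : Letter M → Bool} {w w'' : List (Letter M)} {a : Letter M} (hw : CR w) (hO : Ok w C a)
    (h : Img C w [a] w'') : Q C w [a] w'' :=
  ⟨(h.rot hConj hCC hOf hSl hw (ChainW.cons _ _ _ _ hO
    (ChainW.nil _ _ (List.IsRotated.refl _)))).1, by simp⟩

theorem Q_max (hConj : ConjStmt) (hCC : ChainConjStmt) (hOf : OfStmt) (hSl : SlideStmt)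
    (hPath : PathStmt) {C : Letter M → Bool} {w p w'' : List (Letter M)} {a x b : Letter M}
    (hw : CR w) (hx : w.getLast? = some x) (hCx : C (linv x) = true) (ha : w.head? = some a)
    (hCa : C a = false) (h : Q C w p w'') (hp : 1 ≤ p.length) (hb : Ok w'' C b)
    (hge : hW w C + cap w C ≤ wt w'' b) :
    p ++ [b] = w.take (p.length + 1) ∧ p.length + 1 < w.length ∧
      ∀ u, Img C w (p ++ [b]) u → Q C w (p ++ [b]) u := by
  have h1 := chain_snoc hOf hSl h.1 hw hb
  have h2 := hPath M w _ _ C x a hw hx hCx ha hCa h1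
  rw [List.length_append, List.length_singleton] at h2
  refine ⟨h2.1, h2.2, ?_⟩
  intro u hu
  obtain ⟨u1, u2⟩ := hu.rot hConj hCC hOf hSl hw h1
  refine ⟨u1, ?_⟩
  obtain ⟨f1, f2, f3, f4, f5⟩ := chain_facts hOf hSl h.1 hw
  obtain ⟨g1, g2, g3, g4⟩ := hSl M w'' C b f1 hb
  have hwt : ∀ e, wt u e = wt (op C b none w'') e := ((hOf M _ g1).2.2 u u2).2.2.1
  have hbig : hW w C ≤ wt (op C b none w'') b := by
    have := wt_drop (op_sublist C b w'') b
    omega
  intro e he
  rw [hwt]
  rw [List.drop_append_of_le_length hp, List.mem_append, List.mem_singleton] at he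
  by_cases e1 : e = b
  · rw [e1]; exact hbig
  by_cases e2 : e = linv b
  · rw [e2, wt_linv]; exact hbig
  rw [wt_op_other C b w'' e1 e2]
  rcases he with he | he
  · exact h.2 e he
  · exact absurd he e1

/-! ### Polynomial time -/

section PT

variable {α β : Type} [Enc α] [Enc β]

theorem mul_fold (x y k : ℕ) : ((List.range k).foldl
    (fun (c : BNz) t => if y.testBit t then BNz.mk (c.val + x * 2 ^ t) else c) ⟨0⟩).val =
      x * (y % 2 ^ k) := by
  induction k with
  | zero => simp [Nat.mod_one]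
  | succ k ih =>
    rw [List.range_succ, List.foldl_append, List.foldl_cons, List.foldl_nil, mod_two_pow_succ']
    cases y.testBit k
    · simpa using ih
    · simp only [if_true, ih, Bool.toNat_true]
      ring

theorem size_bn_mul (x y : ℕ) : size (BNz.mk (x * y)) ≤ 4 * (Nat.size x + Nat.size y) + 1 := by
  have h1 := size_bn_le (BNz.mk (x * y))
  have h2 : Nat.size (x * y) ≤ Nat.size x + Nat.size y := by
    rw [Nat.size_le, pow_add]
    exact Nat.mul_lt_mul'' (Nat.lt_size_self x) (Nat.lt_size_self y)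
  simp only at h1
  omega

theorem PT.bnMul {f g : α → BNz} (hf : PT f) (hg : PT g) :
    PT (fun a => BNz.mk ((f a).val * (g a).val)) := by
  have h : PT (fun x : BNz × BNz => (List.range (Nat.size x.2.val)).foldl
      (fun (c : BNz) t => if x.2.val.testBit t then BNz.mk (c.val + x.1.val * 2 ^ t) else c) ⟨0⟩) := by
    refine PT.foldl (f := fun x : BNz × BNz => List.range (Nat.size x.2.val))
      (init := fun _ => BNz.mk 0)
      (step := fun x c t => if x.2.val.testBit t then BNz.mk (c.val + x.1.val * 2 ^ t) else c)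
      (PT.bnzSize (f := fun x : BNz × BNz => x.2) PT.snd).range (PT.const _) ?_
      (B := fun n => 4 * (n + n) + 1)
      (((PB.const 4).mul (PB.id.add PB.id)).add (PB.const 1)) ?_
    · have h1 : PT (fun x : (BNz × BNz) × (BNz × ℕ) => x.1.2.val.testBit x.2.2) :=
        PT.testBitz PT.fst.snd' PT.snd.snd'
      have h2 : PT (fun x : (BNz × BNz) × (BNz × ℕ) => x.2.1) := PT.snd.fst'
      have h3 : PT (fun x : (BNz × BNz) × (BNz × ℕ) => BNz.mk (x.1.1.val * 2 ^ x.2.2)) :=
        PT.bnShift PT.fst.fst' PT.snd.snd'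
      exact PT.cond h1 (PT.bnzAdd h2 h3) h2
    · intro x l' hl'
      have hl : l' = List.range (min l'.length (Nat.size x.2.val)) := by
        rw [← List.take_range]
        exact List.prefix_iff_eq_take.1 hl'
      have h1 := mul_fold x.1.val x.2.val (min l'.length (Nat.size x.2.val))
      rw [← hl] at h1
      have h2 : l'.foldl (fun (c : BNz) t => if x.2.val.testBit t then
          BNz.mk (c.val + x.1.val * 2 ^ t) else c) ⟨0⟩ =
          BNz.mk (x.1.val * (x.2.val % 2 ^ (min l'.length (Nat.size x.2.val)))) := BNz.ext h1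
      rw [h2]
      have h3 := size_bn_mul x.1.val (x.2.val % 2 ^ (min l'.length (Nat.size x.2.val)))
      have h4 : Nat.size (x.2.val % 2 ^ (min l'.length (Nat.size x.2.val))) ≤
          Nat.size x.2.val := Nat.size_le_size (Nat.mod_le _ _)
      have h5 := natSize_le_size x.1
      have h6 := natSize_le_size x.2
      have h7 : size x = size x.1 + size x.2 + 1 := size_prod x
      omega
  refine (h.comp (hf.pair hg)).congr (fun a => ?_)
  apply BNz.ext
  rw [mul_fold, Nat.mod_eq_of_lt (Nat.lt_size_self _)]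

theorem PT.bnListSum {ι : Type} (L : List ι) {f : ι → α → BNz} (hf : ∀ i ∈ L, PT (f i)) :
    PT (fun a => BNz.mk ((L.map (fun i => (f i a).val)).sum)) := by
  induction L with
  | nil => exact PT.const (BNz.mk 0)
  | cons i L ih =>
    have h1 := hf i (by simp)
    have h2 := ih (fun j hj => hf j (List.mem_cons_of_mem _ hj))
    exact (PT.bnzAdd h1 h2).congr (fun a => by simp)

theorem PT.allConst {ι : Type} (L : List ι) {f : ι → α → Bool} (hf : ∀ i ∈ L, PT (f i)) :
    PT (fun a => L.all (fun i => f i a)) := by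
  induction L with
  | nil => exact PT.const true
  | cons i L ih =>
    have h1 := hf i (by simp)
    have h2 := ih (fun j hj => hf j (List.mem_cons_of_mem _ hj))
    exact (PT.and h1 h2).congr (fun a => by simp)

end PT

theorem countP_sum {β : Type} [Fintype β] [DecidableEq β] [BEq β] [LawfulBEq β] (q : β → Bool)
    (l : List β) :
    ((Finset.univ.filter (fun p => q p = true)).toList.map (fun p => l.count p)).sum =
      l.countP q := by
  rw [Finset.sum_map_toList]
  induction l with
  | nil => simp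
  | cons a l ih =>
    simp only [List.count_cons, Finset.sum_add_distrib, ih, List.countP_cons]
    congr 1
    simp only [beq_iff_eq]
    rw [Finset.sum_ite_eq]
    simp

/-- The polynomial time functions given by the other modules. -/
structure Tools (C : Letter M → Bool) where
  tk : (Gram M × ℕ) × BNz → (Gram M × ℕ) × ℕ
  tk_pt : PT tk
  tk_spec : ∀ z (k : BNz), GI z → k.val ≤ (wd z).length →
    GI (tk (z, k)).1 ∧ (tk (z, k)).2 < (tk (z, k)).1.1.length ∧ wd (tk (z, k)).1 = wd z ∧
    V (tk (z, k)).1.1 (tk (z, k)).2 = (wd z).take k.val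
  sg : (Gram M × ℕ) × ℕ → Gram M × ℕ
  sg_pt : PT sg
  sg_spec : ∀ z j, GI z → j < z.1.length →
    GI (sg (z, j)) ∧ CR (wd (sg (z, j))) ∧
    IsConj (FreeGroup.mk (wd (sg (z, j)))) (FreeGroup.mk (sigW C (V z.1 j) (wd z)))
  ln : Gram M × ℕ → BNz
  ln_pt : PT ln
  ln_spec : ∀ z, GI z → (ln z).val = (wd z).length
  wf : Letter M → Gram M × ℕ → BNz
  wf_pt : ∀ e, PT (wf e)
  wf_spec : ∀ e z, GI z → (wf e z).val = wt (wd z) e
  cn : Letter M × Letter M → Gram M × ℕ → BNz
  cn_pt : ∀ p, PT (cn p)
  cn_spec : ∀ p z, GI z → (cn p z).val = (cpairs (wd z)).count p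

theorem exists_tools (hTake : TakeStmt) (hSig : SigStmt) (hCnt : CountStmt) (C : Letter M → Bool) :
    Nonempty (Tools C) := by
  obtain ⟨tk, t1, t2⟩ := hTake M
  obtain ⟨⟨sg, s1, s2⟩, -⟩ := hSig M C
  obtain ⟨c1, ⟨ln, l1, l2⟩, c3⟩ := hCnt M
  choose cn cn1 cn2 using c1
  choose wf wf1 wf2 using c3
  exact ⟨⟨tk, t1, t2, sg, s1, s2, ln, l1, l2, wf, wf1, wf2, fun p => cn p.1 p.2,
    fun p => cn1 _ _, fun p z hz => cn2 _ _ z hz⟩⟩

namespace Tools

variable {C : Letter M → Bool} (T : Tools C)

/-- The number of exits. -/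
noncomputable def cp (z : Gram M × ℕ) : BNz :=
  BNz.mk (((Finset.univ.filter (fun p : Letter M × Letter M =>
    (C (linv p.1) != C p.2) = true)).toList.map (fun p => (T.cn p z).val)).sum)

theorem cp_pt : PT T.cp := PT.bnListSum _ (fun p _ => T.cn_pt p)

theorem cp_spec {z : Gram M × ℕ} (hz : GI z) : (T.cp z).val = cap (wd z) C := by
  unfold cp cap
  simp only [T.cn_spec _ z hz]
  exact countP_sum (fun p : Letter M × Letter M => C (linv p.1) != C p.2) _

/-- The first letters. -/
def P (x : (Gram M × ℕ) × BNz) : Gram M × ℕ := ((T.tk x).1.1, (T.tk x).2)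

theorem P_pt : PT T.P := (T.tk_pt.fst'.fst').pair T.tk_pt.snd'

theorem P_spec {z : Gram M × ℕ} (hz : GI z) {k : BNz} (hk : k.val ≤ (wd z).length) :
    GI (T.P (z, k)) ∧ wd (T.P (z, k)) = (wd z).take k.val := by
  obtain ⟨h1, h2, h3, h4⟩ := T.tk_spec z k hz hk
  exact ⟨⟨h1.1, h2⟩, h4⟩

/-- The image. -/
def S (x : (Gram M × ℕ) × BNz) : Gram M × ℕ := T.sg (T.tk x)

theorem S_pt : PT T.S := T.sg_pt.comp T.tk_pt

theorem S_spec {z : Gram M × ℕ} (hz : GI z) {k : BNz} (hk : k.val ≤ (wd z).length) :
    GI (T.S (z, k)) ∧ Img C (wd z) ((wd z).take k.val) (wd (T.S (z, k))) := by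
  obtain ⟨h1, h2, h3, h4⟩ := T.tk_spec z k hz hk
  obtain ⟨s1, s2, s3⟩ := T.sg_spec _ _ h1 h2
  rw [h3, h4] at s3
  exact ⟨s1, s2, s3⟩

/-- The test. -/
noncomputable def test (x : (Gram M × ℕ) × BNz) : Bool :=
  decide ((T.ln (T.S x)).val + x.2.val * (T.cp x.1).val = (T.ln x.1).val) &&
  ((Finset.univ.filter (fun c : Letter M => C c = true)).toList.all
    (fun c => decide ((T.wf c (T.P x)).val = 0)) &&
  (Finset.univ : Finset (Letter M)).toList.all (fun e =>
    decide ((T.wf e (T.P x)).val ≤ (T.wf e (T.P (x.1, BNz.mk 1))).val) ||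
    (Finset.univ.filter (fun c : Letter M => C c = true)).toList.all
      (fun c => decide ((T.wf c x.1).val ≤ (T.wf e (T.S x)).val))))

theorem test_pt : PT T.test := by
  have h1 : PT (fun x : (Gram M × ℕ) × BNz => T.P (x.1, BNz.mk 1)) :=
    T.P_pt.comp (PT.fst.pair (PT.const _))
  refine PT.and ?_ (PT.and ?_ ?_)
  · exact PT.bnzEq (f := fun x : (Gram M × ℕ) × BNz =>
      BNz.mk ((T.ln (T.S x)).val + x.2.val * (T.cp x.1).val)) (g := fun x => T.ln x.1)
      (PT.bnzAdd (T.ln_pt.comp T.S_pt) (PT.bnMul PT.snd (T.cp_pt.comp PT.fst)))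
      (T.ln_pt.comp PT.fst)
  · refine PT.allConst _ (fun c _ => ?_)
    exact PT.bnzEq ((T.wf_pt c).comp T.P_pt) (PT.const (BNz.mk 0))
  · refine PT.allConst _ (fun e _ => PT.or ?_ (PT.allConst _ (fun c _ => ?_)))
    · exact PT.bnzLe ((T.wf_pt e).comp T.P_pt) ((T.wf_pt e).comp h1)
    · exact PT.bnzLe ((T.wf_pt c).comp PT.fst) ((T.wf_pt e).comp T.S_pt)

theorem wt_append (u v : List (Letter M)) (e : Letter M) : wt (u ++ v) e = wt u e + wt v e := by
  unfold wt
  rw [List.count_append, List.count_append]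
  omega

theorem wt_pos {u : List (Letter M)} {e : Letter M} : 0 < wt u e ↔ e ∈ u ∨ linv e ∈ u := by
  unfold wt
  rw [← List.count_pos_iff, ← List.count_pos_iff]
  omega

theorem hW_le {w : List (Letter M)} {N : ℕ} : hW w C ≤ N ↔ ∀ c, C c = true → wt w c ≤ N := by
  unfold hW
  rw [Finset.sup_le_iff]
  constructor
  · intro h c hc
    have := h c (Finset.mem_univ _)
    simpa [hc] using this
  · intro h c _
    by_cases hc : C c = true
    · simpa [hc] using h c hc
    · simp [hc]

theorem test_spec (hDet : DetStmt) (hOf : OfStmt) (hSl : SlideStmt) {z : Gram M × ℕ} (hz : GI z)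
    (hcr : CR (wd z)) {k : BNz} (hk1 : 1 ≤ k.val) (hk : k.val ≤ (wd z).length) :
    T.test (z, k) = true ↔ Q C (wd z) ((wd z).take k.val) (wd (T.S (z, k))) := by
  obtain ⟨s1, s2⟩ := T.S_spec hz hk
  obtain ⟨p1, p2⟩ := T.P_spec hz hk
  obtain ⟨q1, q2⟩ := T.P_spec (k := BNz.mk 1) hz (by simp only; omega)
  unfold test
  simp only [Bool.and_eq_true, List.all_eq_true, Finset.mem_toList, Finset.mem_filter,
    Finset.mem_univ, true_and, decide_eq_true_eq, Bool.or_eq_true, forall_true_left]
  simp only [T.wf_spec _ _ p1, T.wf_spec _ _ q1, T.wf_spec _ _ s1, T.wf_spec _ _ hz,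
    T.ln_spec _ s1, T.ln_spec _ hz, T.cp_spec hz, p2, q2]
  set w := wd z with hw
  set w' := wd (T.S (z, k)) with hw'
  have hlen : (w.take k.val).length = k.val := by rw [List.length_take]; omega
  have hno : (∀ c, C c = true → wt (w.take k.val) c = 0) ↔
      ∀ y ∈ w.take k.val, C y = false ∧ C (linv y) = false := by
    constructor
    · intro h y hy
      constructor
      · by_contra hc
        have h1 := h y (by simpa using hc)
        have h2 := wt_pos.2 (Or.inl hy)
        omega
      · by_contra hc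
        have h1 := h (linv y) (by simpa using hc)
        have h2 : 0 < wt (w.take k.val) (linv y) := wt_pos.2 (Or.inr (by rw [linv_linv]; exact hy))
        omega
    · intro h c hc
      by_contra hne
      rcases wt_pos.1 (Nat.pos_of_ne_zero hne) with h1 | h1
      · have := (h c h1).1
        rw [hc] at this; exact absurd this (by simp)
      · have := (h _ h1).2
        rw [linv_linv, hc] at this; exact absurd this (by simp)
  have hwt : (∀ e, wt (w.take k.val) e ≤ wt (w.take 1) e ∨ ∀ c, C c = true → wt w c ≤ wt w' e) ↔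
      ∀ e ∈ (w.take k.val).drop 1, hW w C ≤ wt w' e := by
    have e1 : ∀ e, wt (w.take k.val) e = wt (w.take 1) e + wt ((w.take k.val).drop 1) e := by
      intro e
      rw [← wt_append]
      congr 1
      conv_lhs => rw [← List.take_append_drop 1 (w.take k.val)]
      congr 1
      rw [List.take_take]
      congr 1
      omega
    constructor
    · intro h e he
      have h1 := wt_pos.2 (Or.inl he)
      have h2 := e1 e
      rcases h e with h3 | h3
      · omega
      · exact hW_le.2 h3
    · intro h e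
      by_cases h0 : wt ((w.take k.val).drop 1) e = 0
      · left; rw [e1, h0]; omega
      · right
        rcases wt_pos.1 (Nat.pos_of_ne_zero h0) with h1 | h1
        · exact hW_le.1 (h e h1)
        · have := hW_le.1 (h _ h1)
          rw [wt_linv] at this
          exact this
  rw [hno, hwt]
  unfold Q
  constructor
  · rintro ⟨h1, h2, h3⟩
    refine ⟨?_, h3⟩
    have := (hDet M w w' (w.take k.val) C hcr s2.cr h2 s2.conj).2
    rw [hlen] at this
    exact this.1 h1.symm
  · rintro ⟨h1, h3⟩
    obtain ⟨f1, f2, f3, f4, f5⟩ := chain_facts hOf hSl h1 hcr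
    rw [hlen] at f2
    exact ⟨f2, f4, h3⟩

/-- One step of the binary search. -/
noncomputable def bs (z : Gram M × ℕ) (c : BNz) (t : ℕ) : BNz :=
  if decide (c.val + 2 ^ t ≤ (T.ln z).val) && T.test (z, BNz.mk (c.val + 2 ^ t)) then
    BNz.mk (c.val + 2 ^ t) else c

/-- The binary search. -/
noncomputable def best (z : Gram M × ℕ) : BNz :=
  (List.range (Nat.size (T.ln z).val)).reverse.foldl (T.bs z) (BNz.mk 1)

theorem bs_pt : PT (fun x : (Gram M × ℕ) × (BNz × ℕ) => T.bs x.1 x.2.1 x.2.2) := by
  have h1 : PT (fun x : (Gram M × ℕ) × (BNz × ℕ) => BNz.mk (x.2.1.val + 2 ^ x.2.2)) :=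
    PT.bnzAdd (f := fun x : (Gram M × ℕ) × (BNz × ℕ) => x.2.1) PT.snd.fst'
      (PT.bnPow2 PT.snd.snd')
  exact PT.cond (PT.and (PT.bnzLe h1 (T.ln_pt.comp PT.fst)) (T.test_pt.comp (PT.fst.pair h1)))
    h1 PT.snd.fst'

theorem bs_le (z : Gram M × ℕ) (l : List ℕ) : ∀ c : BNz, c.val ≤ (T.ln z).val + 1 →
    (l.foldl (T.bs z) c).val ≤ (T.ln z).val + 1 := by
  induction l with
  | nil => intro c h; exact h
  | cons t l ih =>
    intro c h
    rw [List.foldl_cons]
    apply ih
    unfold bs
    split_ifs with h1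
    · rw [Bool.and_eq_true, decide_eq_true_eq] at h1
      simp only
      omega
    · exact h

theorem best_pt : PT T.best := by
  have h0 : PT (fun z => BNz.mk ((T.ln z).val + 1)) := PT.bnzAdd T.ln_pt (PT.const (BNz.mk 1))
  obtain ⟨q, hq⟩ := h0.size_le
  refine PT.foldl (f := fun z => (List.range (Nat.size (T.ln z).val)).reverse)
    (init := fun _ => BNz.mk 1) (step := T.bs) (T.ln_pt.bnzSize).range.reverse (PT.const _) T.bs_pt
    (B := fun n => 4 * q.eval n + 1) (((PB.const 4).mul (PB.poly q)).add (PB.const 1)) ?_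
  intro z l' _
  have h1 := T.bs_le z l' (BNz.mk 1) (by simp)
  have h2 := size_bn_mono (x := l'.foldl (T.bs z) (BNz.mk 1)) (y := BNz.mk ((T.ln z).val + 1)) h1
  have h3 := hq z
  omega

theorem best_spec (hDet : DetStmt) (hOf : OfStmt) (hSl : SlideStmt) {z : Gram M × ℕ} (hz : GI z)
    (hcr : CR (wd z)) (hlen : 1 ≤ (wd z).length)
    (h1 : Q C (wd z) ((wd z).take 1) (wd (T.S (z, BNz.mk 1)))) :
    1 ≤ (T.best z).val ∧ (T.best z).val ≤ (wd z).length ∧
      Q C (wd z) ((wd z).take (T.best z).val) (wd (T.S (z, T.best z))) ∧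
      ¬ ((T.best z).val + 1 ≤ (wd z).length ∧ Q C (wd z) ((wd z).take ((T.best z).val + 1))
        (wd (T.S (z, BNz.mk ((T.best z).val + 1))))) := by
  set R : BNz → Prop := fun k => k.val ≤ (wd z).length ∧
    Q C (wd z) ((wd z).take k.val) (wd (T.S (z, k))) with hR
  have hbs : ∀ (c : BNz) (t : ℕ), 1 ≤ c.val →
      (R (BNz.mk (c.val + 2 ^ t)) → T.bs z c t = BNz.mk (c.val + 2 ^ t)) ∧
      (¬ R (BNz.mk (c.val + 2 ^ t)) → T.bs z c t = c) := by
    intro c t hc
    have hpos := Nat.one_le_two_pow (n := t)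
    unfold bs
    rw [T.ln_spec z hz]
    constructor
    · rintro ⟨h2, h3⟩
      simp only at h2
      rw [if_pos]
      rw [Bool.and_eq_true, decide_eq_true_eq]
      exact ⟨h2, (T.test_spec hDet hOf hSl hz hcr (by simp only; omega) h2).2 h3⟩
    · intro h
      rw [if_neg]
      rw [Bool.and_eq_true, decide_eq_true_eq]
      rintro ⟨h2, h3⟩
      exact h ⟨h2, (T.test_spec hDet hOf hSl hz hcr (by simp only; omega) h2).1 h3⟩
  have key : ∀ (t : ℕ) (c : BNz), 1 ≤ c.val → R c → ¬ R (BNz.mk (c.val + 2 ^ t)) →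
      1 ≤ ((List.range t).reverse.foldl (T.bs z) c).val ∧
      R ((List.range t).reverse.foldl (T.bs z) c) ∧
      ¬ R (BNz.mk (((List.range t).reverse.foldl (T.bs z) c).val + 1)) := by
    intro t
    induction t with
    | zero => intro c h0 h2 h3; exact ⟨h0, h2, by simpa using h3⟩
    | succ t ih =>
      intro c h0 h2 h3
      rw [List.range_succ, List.reverse_append, List.reverse_singleton, List.singleton_append,
        List.foldl_cons]
      obtain ⟨s1, s2⟩ := hbs c t h0
      have hpos := Nat.one_le_two_pow (n := t)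
      by_cases h : R (BNz.mk (c.val + 2 ^ t))
      · rw [s1 h]
        refine ih _ (by simp only; omega) h ?_
        simp only
        rw [add_assoc, ← two_mul, ← pow_succ']
        exact h3
      · rw [s2 h]; exact ih c h0 h2 h
  have := key (Nat.size (T.ln z).val) (BNz.mk 1) le_rfl ⟨hlen, h1⟩ (by
    rintro ⟨h, -⟩
    have := Nat.lt_size_self (T.ln z).val
    rw [T.ln_spec z hz] at this h
    simp only at h
    omega)
  exact ⟨this.1, this.2.1.1, this.2.1.2, this.2.2⟩

end Tools

end Pool.Agent.Lib.MP_0c2883_lc.All.Srch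

namespace Pool.Agent.Lib.MP_0c2883_lc.All

open Pool.Agent.Lib.PolyTime List Pool.Agent.Lib.MP_0c2883_lc.All.Srch

theorem search (hDet : DetStmt) (hPath : PathStmt) (hSig : SigStmt) (hTake : TakeStmt)
    (hCnt : CountStmt) (hSl : SlideStmt) (hOf : OfStmt) (hConj : ConjStmt) : SearchStmt := by
  have hCC : ChainConjStmt := chain_conj
  intro M C
  obtain ⟨T⟩ := exists_tools hTake hSig hCnt C
  refine ⟨fun z => T.S (z, T.best z), T.S_pt.comp (PT.id.pair T.best_pt), ?_⟩
  intro z a x hz hcr hO ha hx hCx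
  have hlen : 1 ≤ (wd z).length := by
    rcases h : wd z with _ | ⟨y, l⟩
    · rw [h] at ha; simp at ha
    · simp
  have ht1 : (wd z).take 1 = [a] := by
    rcases h : wd z with _ | ⟨y, l⟩
    · rw [h] at ha; simp at ha
    · rw [h] at ha; simp at ha; simp [ha]
  have h1 : Q C (wd z) ((wd z).take 1) (wd (T.S (z, BNz.mk 1))) := by
    have := (T.S_spec (k := BNz.mk 1) hz hlen).2
    simp only [ht1] at this ⊢
    exact Q_one hConj hCC hOf hSl hcr hO this
  obtain ⟨b1, b2, b3, b4⟩ := T.best_spec hDet hOf hSl hz hcr hlen h1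
  set k := T.best z with hk
  have hS := T.S_spec hz b2
  have htk : (wd z).take k.val = a :: ((wd z).take k.val).drop 1 := by
    conv_lhs => rw [← List.take_append_drop 1 ((wd z).take k.val)]
    rw [List.take_take, Nat.min_eq_left b1, ht1]
    rfl
  have hc := b3.1
  rw [htk] at hc
  rcases hc with _ | ⟨_, _, _, _, _, hc⟩
  refine ⟨hS.1, hS.2.cr, ((wd z).take k.val).drop 1,
    chainH_of hOf hSl hc (hSl M _ C a hcr hO).1 b3.2, ?_⟩
  intro b hb
  by_contra hge
  change ¬ (wt (wd (T.S (z, k))) b < hW (wd z) C + cap (wd z) C) at hge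
  have hl : ((wd z).take k.val).length = k.val := by rw [List.length_take]; omega
  obtain ⟨m1, m2, m3⟩ := Q_max hConj hCC hOf hSl hPath hcr hx hCx ha hO.a_not b3
    (by rw [hl]; exact b1) hb (by omega)
  rw [hl] at m1 m2
  refine b4 ⟨by omega, ?_⟩
  rw [← m1]
  apply m3
  have := (T.S_spec (k := BNz.mk (k.val + 1)) hz (by simp only; omega)).2
  simp only at this
  rw [← m1] at this
  exact this

end Pool.Agent.Lib.MP_0c2883_lc.All
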