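import Pool.Agent.Lib.MP_0c2883_lc.All.Stmts
import Mathlib.GroupTheory.FreeGroup.Reduce

/-!
# WL: the cut vertex lemma for words with property PQ
-/

set_option autoImplicit false

namespace Pool.Agent.Lib.MP_0c2883_lc.All.WL

open Pool.Agent.Lib.MP_0c2883_lc.All

variable {M : ℕ}

/-- The element of a letter. -/
def el (x : Letter M) : FreeGroup (Fin M) := FreeGroup.mk [x]

theorem el_linv (x : Letter M) : el (linv x) = (el x)⁻¹ := by
  unfold el
  rw [FreeGroup.inv_mk]
  rfl

theorem el_mul_linv (x : Letter M) : el x * el (linv x) = 1 := by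
  rw [el_linv, mul_inv_cancel]

/-- Two letters that can follow each other. -/
theorem nb_iff (a b : Letter M) : (a.1 = b.1 → a.2 = b.2) ↔ b ≠ linv a := by
  rcases a with ⟨i, s⟩
  rcases b with ⟨j, t⟩
  simp only [linv, ne_eq, Prod.mk.injEq, not_and]
  constructor
  · intro h h1 h2
    have := h h1.symm
    rw [this] at h2
    cases t <;> simp at h2
  · intro h h1
    have := h h1.symm
    cases t <;> cases s <;> simp_all

/-! ### Outward half-edges -/

/-- The half-edge `x` at the vertex `g` points away from `1`. -/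
def Out (g : FreeGroup (Fin M)) (x : Letter M) : Prop := g.toWord.getLast? ≠ some (linv x)

theorem out_one (x : Letter M) : Out 1 x := by
  simp [Out]

theorem not_out_unique {g : FreeGroup (Fin M)} {x y : Letter M} (hx : ¬ Out g x)
    (hy : ¬ Out g y) : x = y := by
  unfold Out at hx hy
  push Not at hx hy
  rw [hx] at hy
  have := Option.some.inj hy
  exact linv_inj.1 this

theorem exists_in {g : FreeGroup (Fin M)} (hg : g ≠ 1) : ∃ o, ¬ Out g o := by
  have h : g.toWord ≠ [] := fun h => hg (FreeGroup.toWord_eq_nil_iff.1 h)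
  refine ⟨linv (g.toWord.getLast h), ?_⟩
  unfold Out
  push Not
  rw [linv_linv, List.getLast?_eq_some_getLast h]

theorem toWord_of_out {g : FreeGroup (Fin M)} {x : Letter M} (h : Out g x) :
    (g * el x).toWord = g.toWord ++ [x] := by
  have h1 : g * el x = FreeGroup.mk (g.toWord ++ [x]) := by
    rw [← FreeGroup.mul_mk, FreeGroup.mk_toWord]
    rfl
  rw [h1, FreeGroup.toWord_mk]
  apply FreeGroup.IsReduced.reduce_eq
  unfold FreeGroup.IsReduced
  rw [List.isChain_append]
  refine ⟨FreeGroup.isReduced_toWord, by simp, ?_⟩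
  intro a ha b hb
  simp only [List.head?_cons, Option.mem_def, Option.some.injEq] at hb
  subst hb
  rw [nb_iff]
  intro hc
  apply h
  rw [Option.mem_def] at ha
  rw [ha, hc, linv_linv]

theorem norm_of_out {g : FreeGroup (Fin M)} {x : Letter M} (h : Out g x) :
    (g * el x).norm = g.norm + 1 := by
  unfold FreeGroup.norm
  rw [toWord_of_out h]
  simp

theorem out_next {g : FreeGroup (Fin M)} {x y : Letter M} (h : Out g x) (hy : y ≠ linv x) :
    Out (g * el x) y := by
  unfold Out
  rw [toWord_of_out h, List.getLast?_concat]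
  intro hc
  have := Option.some.inj hc
  apply hy
  rw [this, linv_linv]

theorem out_mate {g : FreeGroup (Fin M)} {x : Letter M} (h : ¬ Out g x) :
    Out (g * el x) (linv x) := by
  unfold Out at h
  push Not at h
  obtain ⟨L, hL⟩ : ∃ L, g.toWord = L ++ [linv x] := by
    rw [List.getLast?_eq_some_iff] at h
    exact h
  have hred : FreeGroup.IsReduced (L ++ [linv x]) := by
    rw [← hL]
    exact FreeGroup.isReduced_toWord
  have hLr : FreeGroup.IsReduced L := (List.isChain_append.1 hred).1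
  have h1 : g * el x = FreeGroup.mk L := by
    have h2 : g = FreeGroup.mk L * el (linv x) := by
      unfold el
      rw [FreeGroup.mul_mk, ← hL, FreeGroup.mk_toWord]
    rw [h2, mul_assoc, el_linv, inv_mul_cancel, mul_one]
  unfold Out
  rw [h1, FreeGroup.toWord_mk, hLr.reduce_eq, linv_linv]
  intro hc
  unfold FreeGroup.IsReduced at hred
  rw [List.isChain_append] at hred
  have := hred.2.2 x (by rw [Option.mem_def]; exact hc) (linv x) (by simp)
  rw [nb_iff] at this
  exact this rfl

/-- Paths without backtracking that start outward move away from `1`. -/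
theorem ray (Q : ℕ → FreeGroup (Fin M)) (V : ℕ → Letter M) (hQ : ∀ i, Q (i + 1) = Q i * el (V i))
    (hV : ∀ i, V (i + 1) ≠ linv (V i)) (h0 : Out (Q 0) (V 0)) (i : ℕ) :
    Out (Q i) (V i) ∧ (Q i).norm = (Q 0).norm + i := by
  induction i with
  | zero => exact ⟨h0, by simp⟩
  | succ i ih =>
    refine ⟨?_, ?_⟩
    · rw [hQ]
      exact out_next ih.1 (hV i)
    · rw [hQ, norm_of_out ih.1, ih.2]
      ring

/-! ### The line of a cyclically reduced word -/

/-- The data of the bi-infinite line of a word. -/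
structure Line (w : List (Letter M)) (W : ℤ → Letter M) (P : ℤ → FreeGroup (Fin M)) : Prop where
  two : 2 ≤ w.length
  succ : ∀ j, P (j + 1) = P j * el (W j)
  zero : P 0 = 1
  nb : ∀ j, W (j + 1) ≠ linv (W j)
  pow : ∀ k : ℤ, P (k * (w.length : ℤ)) = FreeGroup.mk w ^ k
  turn : ∀ p q, 0 < tm w p q ↔ ∃ j, (W j = linv p ∧ W (j + 1) = q) ∨
    (W j = linv q ∧ W (j + 1) = p)
  per : ∀ j, W (j + w.length) = W j


theorem divmod_succ (n : ℕ) (hn : 0 < n) (j : ℤ) :
    ((j % (n : ℤ) + 1 < n ∧ (j + 1) / (n : ℤ) = j / (n : ℤ) ∧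
      (j + 1) % (n : ℤ) = j % (n : ℤ) + 1)) ∨
    (j % (n : ℤ) + 1 = n ∧ (j + 1) / (n : ℤ) = j / (n : ℤ) + 1 ∧ (j + 1) % (n : ℤ) = 0) := by
  have hn' : (0 : ℤ) < (n : ℤ) := by exact_mod_cast hn
  have h0 : 0 ≤ j % (n : ℤ) := Int.emod_nonneg _ hn'.ne'
  have h1 : j % (n : ℤ) < n := Int.emod_lt_of_pos _ hn'
  have h2 : j % (n : ℤ) + (n : ℤ) * (j / (n : ℤ)) = j := Int.emod_add_mul_ediv j n
  rcases lt_or_ge (j % (n : ℤ) + 1) n with h | h
  · left
    refine ⟨h, (Int.ediv_emod_unique hn').2 ⟨?_, by omega, h⟩⟩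
    rw [add_right_comm, h2]
  · right
    have h3 : j % (n : ℤ) + 1 = n := by omega
    refine ⟨h3, (Int.ediv_emod_unique hn').2 ⟨?_, le_refl _, hn'⟩⟩
    rw [mul_add, mul_one]
    linarith

theorem mem_cpairs {w : List (Letter M)} (a b : Letter M) :
    (a, b) ∈ cpairs w ↔ ∃ (i : ℕ) (hi : i < w.length),
      w[i] = a ∧ w[(i + 1) % w.length]'(Nat.mod_lt _ (by omega)) = b := by
  unfold cpairs
  rw [List.mem_iff_getElem]
  constructor
  · rintro ⟨i, hi, h⟩
    have hi' : i < w.length := by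
      rw [List.length_zip, List.length_rotate] at hi
      omega
    rw [List.getElem_zip, Prod.mk.injEq, List.getElem_rotate] at h
    exact ⟨i, hi', h.1, h.2⟩
  · rintro ⟨i, hi, h1, h2⟩
    refine ⟨i, ?_, ?_⟩
    · rw [List.length_zip, List.length_rotate]
      omega
    · rw [List.getElem_zip, Prod.mk.injEq, List.getElem_rotate]
      exact ⟨h1, h2⟩

theorem tc_pos {w : List (Letter M)} (p q : Letter M) :
    0 < tc w p q ↔ (linv p, q) ∈ cpairs w := by
  unfold tc
  rw [List.countP_pos_iff]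
  constructor
  · rintro ⟨z, hz, h⟩
    rw [decide_eq_true_eq] at h
    rwa [← h]
  · intro h
    exact ⟨_, h, by simp⟩

theorem nb_word {w : List (Letter M)} (hw : CR w) (i : ℕ) (hi : i < w.length) :
    w[(i + 1) % w.length]'(Nat.mod_lt _ (by omega)) ≠ linv w[i] := by
  rw [← nb_iff]
  rcases Nat.lt_or_ge (i + 1) w.length with h | h
  · have h1 := List.isChain_iff_getElem.1 hw.1 i h
    simp only [Nat.mod_eq_of_lt h]
    exact h1
  · have h3 : i + 1 = w.length := by omega
    have h4 : i = w.length - 1 := by omega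
    have h0 : 0 < w.length := by omega
    have e1 : w.getLast? = some w[i] := by
      rw [List.getLast?_eq_getElem?, List.getElem?_eq_some_iff]
      exact ⟨by omega, by simp only [h4]⟩
    have e2 : w.head? = some (w[0]) := by
      rw [List.head?_eq_getElem?, List.getElem?_eq_some_iff]
      exact ⟨h0, rfl⟩
    have h5 := hw.2 w[i] (by rw [Option.mem_def]; exact e1) w[0] (by rw [Option.mem_def]; exact e2)
    simp only [h3, Nat.mod_self]
    exact h5

theorem exists_line {w : List (Letter M)} (hw : CR w) (h2 : 2 ≤ w.length) :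
    ∃ W P, Line w W P := by
  have hn : 0 < w.length := by omega
  have hn' : (0 : ℤ) < (w.length : ℤ) := by exact_mod_cast hn
  have hr : ∀ j : ℤ, (j % (w.length : ℤ)).toNat < w.length := by
    intro j
    have h0 : 0 ≤ j % (w.length : ℤ) := Int.emod_nonneg _ hn'.ne'
    have h1 : j % (w.length : ℤ) < w.length := Int.emod_lt_of_pos _ hn'
    omega
  have hrs : ∀ j : ℤ, ((j + 1) % (w.length : ℤ)).toNat =
      ((j % (w.length : ℤ)).toNat + 1) % w.length := by
    intro j
    have h0 : 0 ≤ j % (w.length : ℤ) := Int.emod_nonneg _ hn'.ne'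
    rcases divmod_succ w.length hn j with ⟨h, _, h1⟩ | ⟨h, _, h1⟩
    · rw [h1, Nat.mod_eq_of_lt (by omega)]
      omega
    · rw [h1]
      have : (j % (w.length : ℤ)).toNat + 1 = w.length := by omega
      rw [this, Nat.mod_self]
      rfl
  refine ⟨fun j => w[(j % (w.length : ℤ)).toNat]'(hr j), fun j =>
    FreeGroup.mk w ^ (j / (w.length : ℤ)) * FreeGroup.mk (w.take (j % (w.length : ℤ)).toNat),
    h2, ?_, ?_, ?_, ?_, ?_, ?_⟩
  · intro j
    have h0 : 0 ≤ j % (w.length : ℤ) := Int.emod_nonneg _ hn'.ne'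
    unfold el
    rw [mul_assoc, FreeGroup.mul_mk, List.take_append_getElem]
    rcases divmod_succ w.length hn j with ⟨h, h1, h3⟩ | ⟨h, h1, h3⟩
    · rw [h1, h3]
      have : (j % (w.length : ℤ) + 1).toNat = (j % (w.length : ℤ)).toNat + 1 := by omega
      rw [this]
    · rw [h1, h3]
      have : (j % (w.length : ℤ)).toNat + 1 = w.length := by omega
      rw [this, List.take_length, zpow_add_one]
      simp [← FreeGroup.one_eq_mk]
  · simp [← FreeGroup.one_eq_mk]
  · intro j
    simp only [hrs]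
    exact nb_word hw _ (hr j)
  · intro k
    have h1 : (k * (w.length : ℤ)) / (w.length : ℤ) = k := Int.mul_ediv_cancel _ hn'.ne'
    have h3 : (k * (w.length : ℤ)) % (w.length : ℤ) = 0 := Int.mul_emod_left _ _
    simp only [h1, h3]
    simp [← FreeGroup.one_eq_mk]
  · intro p q
    have key : ∀ a b : Letter M, (a, b) ∈ cpairs w ↔ ∃ j : ℤ,
        w[(j % (w.length : ℤ)).toNat]'(hr j) = a ∧
        w[((j + 1) % (w.length : ℤ)).toNat]'(hr (j + 1)) = b := by
      intro a b
      rw [mem_cpairs]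
      constructor
      · rintro ⟨i, hi, e1, e2⟩
        have e3 : (((i : ℕ) : ℤ) % (w.length : ℤ)).toNat = i := by
          rw [Int.emod_eq_of_lt (by omega) (by omega)]
          simp
        refine ⟨i, ?_, ?_⟩
        · simp only [e3]
          exact e1
        · simp only [hrs, e3]
          exact e2
      · rintro ⟨j, e1, e2⟩
        refine ⟨_, hr j, e1, ?_⟩
        simp only [hrs] at e2
        exact e2
    unfold tm
    rw [Nat.add_pos_iff_pos_or_pos, tc_pos, tc_pos, key, key]
    constructor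
    · rintro (⟨j, h⟩ | ⟨j, h⟩)
      · exact ⟨j, Or.inl h⟩
      · exact ⟨j, Or.inr h⟩
    · rintro ⟨j, h | h⟩
      · exact Or.inl ⟨j, h⟩
      · exact Or.inr ⟨j, h⟩
  · intro j
    simp only [Int.add_emod_right]


section line

variable {w : List (Letter M)} {W : ℤ → Letter M} {P : ℤ → FreeGroup (Fin M)}

theorem line_pred (L : Line w W P) (j : ℤ) : P (j + 1) * el (linv (W j)) = P j := by
  rw [L.succ, mul_assoc, el_mul_linv, mul_one]

theorem line_fwd (L : Line w W P) (h : FreeGroup (Fin M)) (j : ℤ)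
    (h0 : Out (h * P j) (W j)) (m : ℕ) :
    Out (h * P (j + m)) (W (j + m)) ∧ (h * P (j + m)).norm = (h * P j).norm + m := by
  have := ray (fun i : ℕ => h * P (j + i)) (fun i : ℕ => W (j + i)) ?_ ?_ ?_ m
  · simpa using this
  · intro i
    have : j + ((i + 1 : ℕ) : ℤ) = (j + i) + 1 := by push_cast; ring
    simp only [this]
    rw [L.succ, mul_assoc]
  · intro i
    have : j + ((i + 1 : ℕ) : ℤ) = (j + i) + 1 := by push_cast; ring
    simp only [this]
    exact L.nb _
  · simpa using h0

theorem line_bwd (L : Line w W P) (h : FreeGroup (Fin M)) (j : ℤ)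
    (h0 : Out (h * P (j + 1)) (linv (W j))) (m : ℕ) :
    Out (h * P (j + 1 - m)) (linv (W (j - m))) ∧
      (h * P (j + 1 - m)).norm = (h * P (j + 1)).norm + m := by
  have := ray (fun i : ℕ => h * P (j + 1 - i)) (fun i : ℕ => linv (W (j - i))) ?_ ?_ ?_ m
  · simpa using this
  · intro i
    have e1 : j + 1 - ((i + 1 : ℕ) : ℤ) = j - i := by push_cast; ring
    have e2 : j + 1 - (i : ℤ) = (j - i) + 1 := by ring
    simp only [e1, e2]
    rw [mul_assoc, line_pred L]
  · intro i
    have e1 : j - (i : ℤ) = (j - ((i + 1 : ℕ) : ℤ)) + 1 := by push_cast; ring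
    intro hc
    rw [linv_linv] at hc
    have := L.nb (j - ((i + 1 : ℕ) : ℤ))
    rw [← e1] at this
    exact this hc.symm
  · simpa using h0

theorem line_inj_aux (L : Line w W P) (a : ℤ) (m : ℕ) (h : P a = P (a + m)) : m = 0 := by
  have h0 : Out ((P a)⁻¹ * P a) (W a) := by
    rw [inv_mul_cancel]
    exact out_one _
  have h1 := (line_fwd L (P a)⁻¹ a h0 m).2
  rw [← h, inv_mul_cancel, FreeGroup.norm_one] at h1
  omega

theorem line_inj (L : Line w W P) {a b : ℤ} (h : P a = P b) : a = b := by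
  rcases le_total a b with hab | hab
  · have e : a + ((b - a).toNat : ℤ) = b := by omega
    have := line_inj_aux L a (b - a).toNat (by rw [e]; exact h)
    omega
  · have e : b + ((a - b).toNat : ℤ) = a := by omega
    have := line_inj_aux L b (a - b).toNat (by rw [e]; exact h.symm)
    omega

theorem pow_ne_one (L : Line w W P) {k : ℤ} (hk : k ≠ 0) : FreeGroup.mk w ^ k ≠ 1 := by
  intro h
  rw [← L.pow, ← L.zero] at h
  have h1 := line_inj L h
  have h2 := L.two
  rcases mul_eq_zero.1 h1 with h3 | h3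
  · exact hk h3
  · omega

theorem turn_at (L : Line w W P) (j : ℤ) : 0 < tm w (linv (W j)) (W (j + 1)) :=
  (L.turn _ _).2 ⟨j, Or.inl ⟨by rw [linv_linv], rfl⟩⟩

theorem tm_comm (w : List (Letter M)) (p q : Letter M) : tm w p q = tm w q p := by
  unfold tm
  rw [add_comm]

theorem turn_ne (L : Line w W P) {p q : Letter M} (h : 0 < tm w p q) : p ≠ q := by
  rintro rfl
  obtain ⟨j, h | h⟩ := (L.turn _ _).1 h
  · apply L.nb j
    rw [h.1, h.2, linv_linv]
  · apply L.nb j
    rw [h.1, h.2, linv_linv]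

end line

/-! ### Colourings of half-edges -/

/-- The other half of the edge of a half-edge. -/
def mate (z : FreeGroup (Fin M) × Letter M) : FreeGroup (Fin M) × Letter M :=
  (z.1 * el z.2, linv z.2)

theorem mate_mate (z : FreeGroup (Fin M) × Letter M) : mate (mate z) = z := by
  rcases z with ⟨g, x⟩
  simp only [mate, linv_linv]
  rw [mul_assoc, el_mul_linv, mul_one]

/-- A colouring of the half-edges, constant on turns, that differs finitely from `A`. -/
structure Col (w : List (Letter M)) (A : Set (FreeGroup (Fin M)))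
    (X : Set (FreeGroup (Fin M) × Letter M)) : Prop where
  comp : ∀ g x y, 0 < tm w x y → ((g, x) ∈ X ↔ (g, y) ∈ X)
  fin : {z : FreeGroup (Fin M) × Letter M | ¬ (z ∈ X ↔ z.1 ∈ A)}.Finite

/-- The half-edges whose edge is two-coloured. -/
def D (X : Set (FreeGroup (Fin M) × Letter M)) : Set (FreeGroup (Fin M) × Letter M) :=
  {z | ¬ (z ∈ X ↔ mate z ∈ X)}

theorem mate_D {X : Set (FreeGroup (Fin M) × Letter M)} {z : FreeGroup (Fin M) × Letter M} :
    mate z ∈ D X ↔ z ∈ D X := by
  unfold D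
  simp only [Set.mem_ofPred_eq, mate_mate]
  tauto

theorem mate_inj : Function.Injective (mate (M := M)) := by
  intro a b h
  rw [← mate_mate a, h, mate_mate]

theorem finite_D {w : List (Letter M)} {A : Set (FreeGroup (Fin M))}
    {X : Set (FreeGroup (Fin M) × Letter M)}
    (hA : ∀ h : FreeGroup (Fin M), {g | ¬ (g * h ∈ A ↔ g ∈ A)}.Finite) (hX : Col w A X) :
    (D X).Finite := by
  have h1 : (⋃ x : Letter M, (fun g => (g, x)) '' {g : FreeGroup (Fin M) |
      ¬ (g * el x ∈ A ↔ g ∈ A)}).Finite := Set.finite_iUnion (fun x => (hA _).image _)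
  have h2 : (mate ⁻¹' {z : FreeGroup (Fin M) × Letter M | ¬ (z ∈ X ↔ z.1 ∈ A)}).Finite :=
    hX.fin.preimage (mate_inj.injOn)
  refine ((hX.fin.union h2).union h1).subset ?_
  rintro ⟨g, x⟩ hz
  by_contra hc
  simp only [Set.mem_union, Set.mem_ofPred_eq, Set.mem_preimage, Set.mem_iUnion, Set.mem_image,
    Prod.mk.injEq, not_or, not_not, not_exists, not_and] at hc
  obtain ⟨⟨c1, c2⟩, c3⟩ := hc
  apply hz
  rw [c1, c2]
  by_contra h4
  refine c3 x g ?_ rfl rfl
  intro h5
  exact h4 h5.symm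

theorem exists_min (w : List (Letter M)) (A : Set (FreeGroup (Fin M))) :
    ∃ X, Col w A X ∧ ∀ X', Col w A X' → (D X).ncard ≤ (D X').ncard := by
  classical
  have h0 : Col w A {z | z.1 ∈ A} := by
    refine ⟨fun g x y _ => Iff.rfl, ?_⟩
    have : {z : FreeGroup (Fin M) × Letter M | ¬ (z ∈ {z : FreeGroup (Fin M) × Letter M | z.1 ∈ A}
        ↔ z.1 ∈ A)} = ∅ := by
      ext z
      simp
    rw [this]
    exact Set.finite_empty
  have h1 : ∃ k : ℕ, ∃ X, Col w A X ∧ (D X).ncard = k := ⟨_, _, h0, rfl⟩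
  obtain ⟨X, hX, hk⟩ := Nat.find_spec h1
  refine ⟨X, hX, fun X' hX' => ?_⟩
  rw [hk]
  exact Nat.find_min' h1 ⟨X', hX', rfl⟩

theorem el_mul_ne (g : FreeGroup (Fin M)) (x : Letter M) : g * el x ≠ g := by
  intro h
  have h1 : el x = 1 := by
    have := mul_left_cancel (a := g) (b := el x) (c := 1) (by rw [h, mul_one])
    exact this
  have h2 := norm_of_out (out_one x)
  rw [h1] at h2
  simp at h2

/-- Minimal colourings: in every union of components of the Whitehead graph at most half of the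
half-edges belong to two-coloured edges. -/
theorem half {w : List (Letter M)} {A : Set (FreeGroup (Fin M))}
    {X : Set (FreeGroup (Fin M) × Letter M)}
    (hA : ∀ h : FreeGroup (Fin M), {g | ¬ (g * h ∈ A ↔ g ∈ A)}.Finite) (hX : Col w A X)
    (hmin : ∀ X', Col w A X' → (D X).ncard ≤ (D X').ncard) (g : FreeGroup (Fin M))
    (v : Set (Letter M)) (hv : ∀ x y, 0 < tm w x y → (x ∈ v ↔ y ∈ v)) :
    {y | y ∈ v ∧ (g, y) ∈ D X}.ncard ≤ {y | y ∈ v ∧ (g, y) ∉ D X}.ncard := by
  classical
  let T : Set (FreeGroup (Fin M) × Letter M) := {z | z.1 = g ∧ z.2 ∈ v}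
  let X' : Set (FreeGroup (Fin M) × Letter M) := {z | ¬ (z ∈ X ↔ z ∈ T)}
  have hT : ∀ z, z ∈ T → mate z ∉ T := by
    rintro ⟨a, x⟩ hz hz'
    apply el_mul_ne g x
    have h1 : a = g := hz.1
    have h2 : a * el x = g := hz'.1
    rw [h1] at h2
    exact h2
  have hTf : T.Finite := by
    have : T = (fun y => (g, y)) '' v := by
      ext z
      constructor
      · rintro ⟨h1, h2⟩
        exact ⟨z.2, h2, by rw [← h1]⟩
      · rintro ⟨y, hy, rfl⟩
        exact ⟨rfl, hy⟩
    rw [this]
    exact (Set.toFinite v).image _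
  have hX' : Col w A X' := by
    refine ⟨?_, ?_⟩
    · intro a x y hxy
      have h1 := hX.comp a x y hxy
      have h2 : ((a, x) ∈ T ↔ (a, y) ∈ T) := by
        show (a = g ∧ x ∈ v) ↔ (a = g ∧ y ∈ v)
        rw [hv x y hxy]
      show ¬ _ ↔ ¬ _
      rw [h1, h2]
    · refine (hX.fin.union hTf).subset ?_
      intro z hz
      by_contra hc
      simp only [Set.mem_union, Set.mem_ofPred_eq, not_or, not_not] at hc
      apply hz
      show ¬ (z ∈ X ↔ z ∈ T) ↔ z.1 ∈ A
      rw [← hc.1]
      have := hc.2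
      tauto
  have hm := hmin X' hX'
  -- the two-coloured half-edges of `X'`
  let E : Set (Letter M) → Set (FreeGroup (Fin M) × Letter M) := fun B =>
    (fun y => (g, y)) '' B ∪ (fun y => mate (g, y)) '' B
  have hE : ∀ B, (E B).ncard = 2 * B.ncard := by
    intro B
    have hB : B.Finite := Set.toFinite B
    have i1 : Function.Injective (fun y : Letter M => (g, y)) := by
      intro a b h
      simpa using h
    have i2 : Function.Injective (fun y : Letter M => mate (g, y)) := mate_inj.comp i1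
    show ((fun y => (g, y)) '' B ∪ (fun y => mate (g, y)) '' B).ncard = _
    rw [Set.ncard_union_eq ?_ (hB.image _) (hB.image _), Set.ncard_image_of_injective _ i1,
      Set.ncard_image_of_injective _ i2]
    · ring
    · rw [Set.disjoint_left]
      rintro z ⟨y, _, rfl⟩ ⟨y', _, h⟩
      exact el_mul_ne g y' (congrArg Prod.fst h)
  have hEf : ∀ B, (E B).Finite := fun B => ((Set.toFinite B).image _).union ((Set.toFinite B).image _)
  have hEv : ∀ B z, z ∈ E B ↔ ((z.1 = g ∧ z.2 ∈ B) ∨ ((mate z).1 = g ∧ (mate z).2 ∈ B)) := by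
    intro B z
    constructor
    · rintro (⟨y, hy, rfl⟩ | ⟨y, hy, rfl⟩)
      · exact Or.inl ⟨rfl, hy⟩
      · right
        rw [mate_mate]
        exact ⟨rfl, hy⟩
    · rintro (⟨h1, h2⟩ | ⟨h1, h2⟩)
      · left
        exact ⟨z.2, h2, by rw [← h1]⟩
      · right
        refine ⟨(mate z).2, h2, ?_⟩
        show mate (g, (mate z).2) = z
        rw [← h1]
        exact mate_mate z
  let B1 : Set (Letter M) := {y | y ∈ v ∧ (g, y) ∈ D X}
  let B2 : Set (Letter M) := {y | y ∈ v ∧ (g, y) ∉ D X}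
  have hDf := finite_D hA hX
  have hE1 : E B1 ⊆ D X := by
    intro z hz
    rw [hEv] at hz
    rcases hz with ⟨h1, h2⟩ | ⟨h1, h2⟩
    · have := h2.2
      rw [← h1] at this
      exact this
    · have := h2.2
      rw [← h1] at this
      exact mate_D.1 this
  have hD' : D X' ⊆ (D X \ E B1) ∪ E B2 := by
    intro z hz
    have hz1 : ¬ (¬ (z ∈ X ↔ z ∈ T) ↔ ¬ (mate z ∈ X ↔ mate z ∈ T)) := hz
    by_cases h1 : z ∈ T
    · have h2 := hT z h1
      right
      rw [hEv]
      left
      refine ⟨h1.1, h1.2, ?_⟩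
      rw [← h1.1]
      intro h3
      have h4 : ¬ (z ∈ X ↔ mate z ∈ X) := h3
      tauto
    · by_cases h2 : mate z ∈ T
      · right
        rw [hEv]
        right
        refine ⟨h2.1, h2.2, ?_⟩
        rw [← h2.1]
        intro h3
        have h3' : mate z ∈ D X := h3
        rw [mate_D] at h3'
        have h4 : ¬ (z ∈ X ↔ mate z ∈ X) := h3'
        tauto
      · left
        refine ⟨?_, ?_⟩
        · show ¬ (z ∈ X ↔ mate z ∈ X)
          tauto
        · rw [hEv]
          rintro (⟨h3, h4⟩ | ⟨h3, h4⟩)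
          · exact h1 ⟨h3, h4.1⟩
          · exact h2 ⟨h3, h4.1⟩
  have c1 : (D X').ncard ≤ (D X \ E B1).ncard + (E B2).ncard :=
    (Set.ncard_le_ncard hD' ((hDf.subset Set.sdiff_subset).union (hEf _))).trans
      (Set.ncard_union_le _ _)
  have c2 : (D X \ E B1).ncard + (E B1).ncard = (D X).ncard :=
    Set.ncard_sdiff_add_ncard_of_subset hE1 hDf
  rw [hE] at c1 c2
  show B1.ncard ≤ B2.ncard
  omega


section colours

variable {w : List (Letter M)} {W : ℤ → Letter M} {P : ℤ → FreeGroup (Fin M)}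
  {A : Set (FreeGroup (Fin M))} {X : Set (FreeGroup (Fin M) × Letter M)}

theorem step_iff (L : Line w W P) (hX : Col w A X) (h : FreeGroup (Fin M)) (j : ℤ) :
    (h * P j, W j) ∈ D X ↔ ¬ ((h * P j, W j) ∈ X ↔ (h * P (j + 1), W (j + 1)) ∈ X) := by
  have h1 := hX.comp (h * P (j + 1)) _ _ (turn_at L j)
  rw [← h1, L.succ, ← mul_assoc]
  exact Iff.rfl

theorem const_up (L : Line w W P) (hX : Col w A X) (h : FreeGroup (Fin M)) (a : ℤ)
    (hc : ∀ j, a ≤ j → (h * P j, W j) ∉ D X) (b : ℤ) (hb : a ≤ b) :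
    ((h * P b, W b) ∈ X ↔ (h * P a, W a) ∈ X) := by
  induction b, hb using Int.leInduction with
  | base => exact Iff.rfl
  | succ b hb ih =>
    have := hc b hb
    rw [step_iff L hX, not_not] at this
    rw [← this, ih]

theorem const_down (L : Line w W P) (hX : Col w A X) (h : FreeGroup (Fin M)) (a : ℤ)
    (hc : ∀ j, j < a → (h * P j, W j) ∉ D X) (b : ℤ) (hb : b ≤ a) :
    ((h * P b, W b) ∈ X ↔ (h * P a, W a) ∈ X) := by
  induction b, hb using Int.leInductionDown with
  | base => exact Iff.rfl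
  | pred b hb ih =>
    have := hc (b - 1) (by omega)
    rw [step_iff L hX, not_not, sub_add_cancel] at this
    rw [this, ih]

theorem far (L : Line w W P) (hX : Col w A X) (h : FreeGroup (Fin M)) :
    ∃ N : ℕ, ∀ j : ℤ, N ≤ j.natAbs → ((h * P j, W j) ∈ X ↔ h * P j ∈ A) := by
  have i1 : Function.Injective (fun j : ℤ => (h * P j, W j)) := by
    intro a b hab
    have h1 := congrArg Prod.fst hab
    exact line_inj L (mul_left_cancel h1)
  have h1 := (hX.fin.preimage i1.injOn).image Int.natAbs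
  obtain ⟨N, hN⟩ := h1.bddAbove
  refine ⟨N + 1, fun j hj => ?_⟩
  by_contra hc
  have : j.natAbs ≤ N := hN ⟨j, hc, rfl⟩
  omega

/-- Membership in `A` along a coset of the cyclic group of the word that avoids `1`. -/
theorem coset_const {u : FreeGroup (Fin M)} (hP : {g | ¬ (g * u ∈ A ↔ g ∈ A)} = {1})
    (h : FreeGroup (Fin M)) (hh : ∀ k : ℤ, h * u ^ k ≠ 1) (k : ℤ) :
    (h * u ^ k ∈ A ↔ h ∈ A) := by
  have key : ∀ g : FreeGroup (Fin M), g ≠ 1 → (g * u ∈ A ↔ g ∈ A) := by
    intro g hg
    by_contra hc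
    have : g ∈ {g | ¬ (g * u ∈ A ↔ g ∈ A)} := hc
    rw [hP] at this
    exact hg this
  induction k using Int.induction_on with
  | zero => simp
  | succ k ih =>
    rw [zpow_add_one, ← mul_assoc, key _ (hh _)]
    exact ih
  | pred k ih =>
    have h1 := key _ (hh (-(k : ℤ) - 1))
    rw [mul_assoc, ← zpow_add_one, sub_add_cancel] at h1
    rw [← h1]
    exact ih

theorem powers {u : FreeGroup (Fin M)} (hP : {g | ¬ (g * u ∈ A ↔ g ∈ A)} = {1})
    (hu : ∀ k : ℤ, k ≠ 0 → u ^ k ≠ 1) (k : ℤ) (hk : 1 ≤ k) :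
    ¬ (u ^ k ∈ A ↔ u ^ (-k) ∈ A) := by
  have key : ∀ g : FreeGroup (Fin M), g ≠ 1 → (g * u ∈ A ↔ g ∈ A) := by
    intro g hg
    by_contra hc
    have : g ∈ {g | ¬ (g * u ∈ A ↔ g ∈ A)} := hc
    rw [hP] at this
    exact hg this
  have h1 : ∀ k : ℤ, 1 ≤ k → (u ^ k ∈ A ↔ u ∈ A) := by
    intro k hk
    induction k, hk using Int.leInduction with
    | base => simp
    | succ k hk ih =>
      rw [zpow_add_one, key _ (hu k (by omega)), ih]
  have h2 : ∀ k : ℕ, (u ^ (-(k : ℤ)) ∈ A ↔ (1 : FreeGroup (Fin M)) ∈ A) := by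
    intro k
    induction k with
    | zero => simp
    | succ k ih =>
      have h3 := key _ (hu (-((k + 1 : ℕ) : ℤ)) (by omega))
      rw [← zpow_add_one] at h3
      have h4 : -((k + 1 : ℕ) : ℤ) + 1 = -(k : ℤ) := by push_cast; ring
      rw [h4] at h3
      rw [← h3, ih]
  have h3 : ¬ (u ∈ A ↔ (1 : FreeGroup (Fin M)) ∈ A) := by
    have : (1 : FreeGroup (Fin M)) ∈ {g | ¬ (g * u ∈ A ↔ g ∈ A)} := by
      rw [hP]
      rfl
    have h5 : ¬ (1 * u ∈ A ↔ (1 : FreeGroup (Fin M)) ∈ A) := this
    rwa [one_mul] at h5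
  have h4 := h2 k.toNat
  have h5 : ((k.toNat : ℕ) : ℤ) = k := by omega
  rw [h5] at h4
  rw [h1 k hk, h4]
  exact h3

theorem ends_eq (L : Line w W P) (hX : Col w A X)
    (hP : {g | ¬ (g * FreeGroup.mk w ∈ A ↔ g ∈ A)} = {1}) (h : FreeGroup (Fin M))
    (hh : ∀ k : ℤ, h * FreeGroup.mk w ^ k ≠ 1) :
    ∃ N : ℤ, ∀ K, N ≤ K → ((h * P (K * w.length), W (K * w.length)) ∈ X ↔
      (h * P (-K * w.length), W (-K * w.length)) ∈ X) := by
  obtain ⟨N, hN⟩ := far L hX h
  refine ⟨N, fun K hK => ?_⟩
  have h2 := L.two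
  have e1 : K * (w.length : ℤ) ≥ K := by nlinarith
  rw [hN _ (by omega), hN _ (by rw [neg_mul]; omega), L.pow, L.pow, coset_const hP h hh,
    coset_const hP h hh]

theorem ends_ne (L : Line w W P) (hX : Col w A X)
    (hP : {g | ¬ (g * FreeGroup.mk w ∈ A ↔ g ∈ A)} = {1}) :
    ∃ N : ℤ, ∀ K, N ≤ K → ¬ (((1 : FreeGroup (Fin M)) * P (K * w.length), W (K * w.length)) ∈ X ↔
      (1 * P (-K * w.length), W (-K * w.length)) ∈ X) := by
  obtain ⟨N, hN⟩ := far L hX 1
  refine ⟨N + 1, fun K hK => ?_⟩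
  have h2 := L.two
  have e1 : K * (w.length : ℤ) ≥ K := by nlinarith
  rw [hN _ (by omega), hN _ (by rw [neg_mul]; omega), L.pow, L.pow, one_mul, one_mul]
  exact powers hP (fun k hk => pow_ne_one L hk) K (by omega)

/-- (U1) On a line not through `1` the colour does not change exactly once. -/
theorem not_once (L : Line w W P) (hX : Col w A X)
    (hP : {g | ¬ (g * FreeGroup.mk w ∈ A ↔ g ∈ A)} = {1}) (h : FreeGroup (Fin M))
    (hh : ∀ k : ℤ, h * FreeGroup.mk w ^ k ≠ 1) (j : ℤ) (hj : (h * P j, W j) ∈ D X)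
    (hj' : ∀ i, i ≠ j → (h * P i, W i) ∉ D X) : False := by
  obtain ⟨N, hN⟩ := ends_eq L hX hP h hh
  have h2 := L.two
  let K : ℤ := max (max N (|j| + 1)) 0
  have hK1 : N ≤ K := le_trans (le_max_left _ _) (le_max_left _ _)
  have hK2 : |j| + 1 ≤ K := le_trans (le_max_right _ _) (le_max_left _ _)
  have hK3 : 0 ≤ K := le_max_right _ _
  have e1 : K * (w.length : ℤ) ≥ K := by nlinarith
  have a1 := le_abs_self j
  have a2 := neg_abs_le j
  have h3 := hN K hK1
  have h4 := const_up L hX h (j + 1) (fun i hi => hj' i (by omega)) (K * w.length) (by omega)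
  have h5 := const_down L hX h j (fun i hi => hj' i (by omega)) (-K * w.length)
    (by rw [neg_mul]; omega)
  rw [step_iff L hX] at hj
  rw [h4, h5] at h3
  exact hj h3.symm

/-- (U2) If the colour of the line of the word changes only at the two edges at `1`, then it
changes at exactly one of them. -/
theorem once (L : Line w W P) (hX : Col w A X)
    (hP : {g | ¬ (g * FreeGroup.mk w ∈ A ↔ g ∈ A)} = {1})
    (hj' : ∀ i : ℤ, i ≠ -1 → i ≠ 0 → (P i, W i) ∉ D X) :
    ((P (-1), W (-1)) ∈ D X ↔ (P 0, W 0) ∉ D X) := by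
  obtain ⟨N, hN⟩ := ends_ne L hX hP
  have h2 := L.two
  let K : ℤ := max N 1
  have hK1 : N ≤ K := le_max_left _ _
  have hK3 : 1 ≤ K := le_max_right _ _
  have e1 : K * (w.length : ℤ) ≥ K := by nlinarith
  have h3 := hN K hK1
  have h4 := const_up L hX 1 1 (fun i hi => by rw [one_mul]; exact hj' i (by omega) (by omega))
    (K * w.length) (by omega)
  have h5 := const_down L hX 1 (-1) (fun i hi => by
    rw [one_mul]; exact hj' i (by omega) (by omega)) (-K * w.length) (by rw [neg_mul]; omega)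
  rw [h4, h5] at h3
  rw [one_mul, one_mul] at h3
  clear h4 h5
  have s1 := step_iff L hX 1 (-1)
  have s2 := step_iff L hX 1 0
  have e2 : (-1 : ℤ) + 1 = 0 := by norm_num
  rw [e2] at s1
  rw [zero_add] at s2
  rw [one_mul] at s1 s2
  rw [one_mul] at s1 s2
  rw [s1, s2]
  by_cases b1 : (P (-1), W (-1)) ∈ X <;> by_cases b2 : (P 0, W 0) ∈ X <;>
    by_cases b3 : (P 1, W 1) ∈ X <;> simp only [b1, b2, b3] at h3 ⊢ <;> simp at h3 ⊢

theorem exists_D (L : Line w W P) (hX : Col w A X)
    (hP : {g | ¬ (g * FreeGroup.mk w ∈ A ↔ g ∈ A)} = {1}) : ∃ i : ℤ, (P i, W i) ∈ D X := by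
  by_contra hc
  push Not at hc
  have := once L hX hP (fun i _ _ => hc i)
  exact hc _ (this.2 (hc 0))

end colours


/-! ### Cut vertices -/

theorem leave {T : Letter M → Letter M → Prop} (S : Letter M → Prop) {p o : Letter M}
    (h : Relation.ReflTransGen T p o) (hp : S p) (ho : ¬ S o) : ∃ a b, S a ∧ ¬ S b ∧ T a b ∧
      Relation.ReflTransGen T p a := by
  induction h with
  | refl => exact absurd hp ho
  | @tail b c hab hbc ih =>
    by_cases hb : S b
    · exact ⟨b, c, hb, ho, hbc, hab⟩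
    · exact ih hb

theorem cand_aux {w : List (Letter M)} (o : Letter M) (X Y : Set (Letter M))
    (hXY : Disjoint X Y) (hoX : o ∉ X) (hoX' : linv o ∉ X)
    (hXc : ∀ p q, p ∈ X → 0 < tm w p q → q ∈ X ∨ q = o)
    (hXo : ∃ z ∈ X, 0 < tm w z o) (hYo : ∃ z ∈ Y, 0 < tm w z o) : ∃ C, Cand w C o := by
  classical
  obtain ⟨z, hz, hzo⟩ := hXo
  obtain ⟨y, hy, hyo⟩ := hYo
  let R : Letter M → Letter M → Prop := fun a b => a ∈ X ∧ b ∈ X ∧ 0 < tm w a b
  let C : Letter M → Bool := fun y => decide (Relation.ReflTransGen R z y)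
  have hC : ∀ y, C y = true ↔ Relation.ReflTransGen R z y := fun y => by
    simp [C]
  have hCX : ∀ y, C y = true → y ∈ X := by
    intro y hy
    rw [hC] at hy
    cases hy with
    | refl => exact hz
    | tail _ h => exact h.2.1
  have hCz : C z = true := by
    rw [hC]
  have hC' : ∀ y, y ∉ X → C y = false := by
    intro y hy
    rw [← Bool.not_eq_true]
    exact fun h => hy (hCX y h)
  have hR : ∀ a b, Relation.ReflTransGen R a b → Relation.ReflTransGen R b a := by
    intro a b h
    induction h with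
    | refl => exact Relation.ReflTransGen.refl
    | @tail b c _ hbc ih =>
      exact Relation.ReflTransGen.head ⟨hbc.2.1, hbc.1, by rw [tm_comm]; exact hbc.2.2⟩ ih
  refine ⟨C, ⟨hC' _ hoX, hC' _ hoX', ?_⟩, ?_, ⟨z, hCz, hzo⟩, ⟨y, ?_, by rw [tm_comm]; exact hyo⟩⟩
  · intro p q hpq hp hq
    rcases hXc p q (hCX p hp) hpq with h | h
    · exfalso
      have : C q = true := by
        rw [hC]
        exact ((hC p).1 hp).tail ⟨hCX p hp, h, hpq⟩
      rw [this] at hq
      exact Bool.noConfusion hq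
    · exact h
  · intro p q hp hq
    have h1 : Relation.ReflTransGen R p q := (hR _ _ ((hC p).1 hp)).trans ((hC q).1 hq)
    have h2 : ∀ b, Relation.ReflTransGen R p b →
        C b = true ∧ Relation.ReflTransGen (fun x y => C x = true ∧ C y = true ∧ 0 < tm w x y)
          p b := by
      intro b hb
      induction hb with
      | refl => exact ⟨hp, Relation.ReflTransGen.refl⟩
      | @tail b c _ hbc ih =>
        have hc : C c = true := by
          rw [hC]
          exact ((hC b).1 ih.1).tail hbc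
        exact ⟨hc, ih.2.tail ⟨ih.1, hc, hbc.2.2⟩⟩
    exact (h2 q h1).2
  · apply hC'
    intro h
    exact Set.disjoint_left.1 hXY h hy

theorem cand_of_cut {w : List (Letter M)} (o : Letter M) (X Y : Set (Letter M))
    (hXY : Disjoint X Y) (hoX : o ∉ X) (hoY : o ∉ Y)
    (hXc : ∀ p q, p ∈ X → 0 < tm w p q → q ∈ X ∨ q = o)
    (hYc : ∀ p q, p ∈ Y → 0 < tm w p q → q ∈ Y ∨ q = o)
    (hXo : ∃ z ∈ X, 0 < tm w z o) (hYo : ∃ z ∈ Y, 0 < tm w z o) : ∃ C, Cand w C o := by
  by_cases h : linv o ∈ X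
  · have h' : linv o ∉ Y := fun h' => Set.disjoint_left.1 hXY h h'
    exact cand_aux o Y X hXY.symm hoY h' hYc hYo hXo
  · exact cand_aux o X Y hXY hoX h hXc hXo hYo

section final

variable {w : List (Letter M)} {W : ℤ → Letter M} {P : ℤ → FreeGroup (Fin M)}
  {A : Set (FreeGroup (Fin M))} {X : Set (FreeGroup (Fin M) × Letter M)}

/-- The two half-edges at a vertex of valence two can be merged: otherwise the word is a proper
power of a letter. -/
theorem merge (L : Line w W P)
    (hA : ∀ h : FreeGroup (Fin M), {g | ¬ (g * h ∈ A ↔ g ∈ A)}.Finite)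
    (hP : {g | ¬ (g * FreeGroup.mk w ∈ A ↔ g ∈ A)} = {1}) (a c : Letter M)
    (hca : 0 < tm w c a) (hc : ∀ q, 0 < tm w c q → q = a) (ha : ∀ q, 0 < tm w a q → q = c) :
    MergeAt w c a := by
  refine ⟨turn_ne L hca, ?_, hca, hc, ha⟩
  intro hcl
  obtain ⟨j, b, hb, hWj⟩ : ∃ (j : ℤ) (b : Letter M), (b = a ∨ b = linv a) ∧ W j = b := by
    obtain ⟨j, h | h⟩ := (L.turn _ _).1 hca
    · exact ⟨j, a, Or.inl rfl, by rw [h.1, hcl, linv_linv]⟩
    · exact ⟨j, linv a, Or.inr rfl, h.1⟩
  have hup : ∀ i, W i = b → W (i + 1) = b := by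
    intro i hi
    have h1 := turn_at L i
    rw [hi] at h1
    rcases hb with rfl | rfl
    · rw [← hcl] at h1
      exact hc _ h1
    · rw [linv_linv] at h1
      rw [ha _ h1, hcl]
  have hdown : ∀ i, W (i + 1) = b → W i = b := by
    intro i hi
    have h1 := turn_at L i
    rw [hi, tm_comm] at h1
    rcases hb with rfl | rfl
    · have := ha _ h1
      rw [hcl] at this
      exact linv_inj.1 this
    · rw [← hcl] at h1
      have := hc _ h1
      rw [← this, linv_linv]
  have hall : ∀ i, W i = b := by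
    intro i
    rcases le_total j i with h | h
    · induction i, h using Int.leInduction with
      | base => exact hWj
      | succ i _ ih => exact hup i ih
    · induction i, h using Int.leInductionDown with
      | base => exact hWj
      | pred i _ ih => exact hdown (i - 1) (by rw [sub_add_cancel]; exact ih)
  have hPp : ∀ i, P i = el b ^ i := by
    intro i
    induction i using Int.induction_on with
    | zero => rw [L.zero, zpow_zero]
    | succ i ih => rw [L.succ, hall, ih, zpow_add_one]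
    | pred i ih =>
      have h1 := L.succ (-(i : ℤ) - 1)
      rw [sub_add_cancel, hall, ih] at h1
      have h2 : P (-(i : ℤ) - 1) = el b ^ (-(i : ℤ)) * (el b)⁻¹ := by
        rw [h1, mul_inv_cancel_right]
      rw [h2, zpow_sub_one]
  have h2 := L.two
  -- far out, `A` does not distinguish neighbours on the line
  have i1 : Function.Injective P := fun a b h => line_inj L h
  have f1 := ((hA (el b)).preimage i1.injOn).image Int.natAbs
  obtain ⟨N, hN⟩ := f1.bddAbove
  have hN' : ∀ i : ℤ, N + 1 ≤ i.natAbs → (P (i + 1) ∈ A ↔ P i ∈ A) := by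
    intro i hi
    rw [L.succ, hall]
    by_contra hc
    have : i.natAbs ≤ N := hN ⟨i, hc, rfl⟩
    omega
  have hh : ∀ k : ℤ, el b * FreeGroup.mk w ^ k ≠ 1 := by
    intro k hk
    rw [← L.pow, hPp, ← zpow_one_add, ← hPp, ← L.zero] at hk
    have h3 := line_inj L hk
    have h4 : (w.length : ℤ) ∣ 1 := ⟨-k, by linarith⟩
    have h5 := Int.le_of_dvd (by norm_num) h4
    omega
  have hcos : ∀ k : ℤ, (P (k * w.length + 1) ∈ A ↔ el b ∈ A) := by
    intro k
    rw [← coset_const hP (el b) hh k, ← L.pow, hPp, hPp, ← zpow_one_add, add_comm]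
  have e1 : ((N : ℤ) + 1) * (w.length : ℤ) ≥ (N : ℤ) + 1 := by nlinarith
  have hm := powers hP (fun k hk => pow_ne_one L hk) ((N : ℤ) + 1) (by omega)
  apply hm
  rw [← L.pow, ← L.pow, ← hN' _ (by omega), ← hN' (-((N : ℤ) + 1) * w.length)
    (by rw [neg_mul]; omega), hcos, hcos]

/-- On a line that passes through `g` outward in both directions, all other edges are one-coloured
if `g` has maximal norm. -/
theorem others (L : Line w W P) (g : FreeGroup (Fin M))
    (hmax : ∀ z ∈ D X, Out z.1 z.2 → z.1.norm ≤ g.norm) (h : FreeGroup (Fin M)) (j : ℤ)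
    (hg : h * P (j + 1) = g) (hp : Out g (linv (W j))) (hr : Out g (W (j + 1))) (i : ℤ)
    (hi : i ≠ j) (hi' : i ≠ j + 1) : (h * P i, W i) ∉ D X := by
  intro hD
  rcases lt_or_gt_of_ne hi with h1 | h1
  · have e : j - ((j - i).toNat : ℤ) = i := by omega
    have e' : j + 1 - ((j - i).toNat : ℤ) = i + 1 := by omega
    have h3 := line_bwd L h j (by rw [hg]; exact hp) (j - i).toNat
    rw [e, e', hg] at h3
    have hD' : mate (h * P i, W i) ∈ D X := mate_D.2 hD
    have h4 : mate (h * P i, W i) = (h * P (i + 1), linv (W i)) := by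
      unfold mate
      simp only
      rw [L.succ, mul_assoc]
    rw [h4] at hD'
    have h5 := hmax _ hD' h3.1
    simp only at h5
    omega
  · have e : j + 1 + ((i - (j + 1)).toNat : ℤ) = i := by omega
    have h3 := line_fwd L h (j + 1) (by rw [hg]; exact hr) (i - (j + 1)).toNat
    rw [e, hg] at h3
    have h5 := hmax _ hD h3.1
    simp only at h5
    omega

theorem turn_D_aux (L : Line w W P) (hX : Col w A X)
    (hP : {g | ¬ (g * FreeGroup.mk w ∈ A ↔ g ∈ A)} = {1}) (g : FreeGroup (Fin M))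
    (hmax : ∀ z ∈ D X, Out z.1 z.2 → z.1.norm ≤ g.norm) (h : FreeGroup (Fin M)) (j : ℤ)
    (hg : h * P (j + 1) = g) (hp : Out g (linv (W j))) (hr : Out g (W (j + 1)))
    (hh : ∀ k : ℤ, h * FreeGroup.mk w ^ k ≠ 1) :
    ((g, linv (W j)) ∈ D X ↔ (g, W (j + 1)) ∈ D X) := by
  have ho := others (X := X) L g hmax h j hg hp hr
  have e1 : ((g, linv (W j)) ∈ D X ↔ (h * P j, W j) ∈ D X) := by
    rw [← mate_D]
    have : mate (g, linv (W j)) = (h * P j, W j) := by
      unfold mate
      simp only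
      rw [← hg, mul_assoc, line_pred L, linv_linv]
    rw [this]
  rw [e1, ← hg]
  constructor
  · intro h1
    by_contra h2
    refine not_once L hX hP h hh j h1 (fun i hi => ?_)
    by_cases hi' : i = j + 1
    · rw [hi']
      exact h2
    · exact ho i hi hi'
  · intro h1
    by_contra h2
    refine not_once L hX hP h hh (j + 1) h1 (fun i hi => ?_)
    by_cases hi' : i = j
    · rw [hi']
      exact h2
    · exact ho i hi' hi

/-- At a vertex `g ≠ 1` of maximal norm, turns between outward half-edges are compatible with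
two-colouredness. -/
theorem turn_D (L : Line w W P) (hX : Col w A X)
    (hP : {g | ¬ (g * FreeGroup.mk w ∈ A ↔ g ∈ A)} = {1}) (g : FreeGroup (Fin M))
    (hmax : ∀ z ∈ D X, Out z.1 z.2 → z.1.norm ≤ g.norm) (hg1 : g ≠ 1) (p q : Letter M)
    (hpq : 0 < tm w p q) (hp : Out g p) (hq : Out g q) :
    ((g, p) ∈ D X ↔ (g, q) ∈ D X) := by
  have key : ∀ j : ℤ, Out g (linv (W j)) → Out g (W (j + 1)) →
      ((g, linv (W j)) ∈ D X ↔ (g, W (j + 1)) ∈ D X) := by
    intro j h1 h2
    have hg : g * (P (j + 1))⁻¹ * P (j + 1) = g := by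
      rw [inv_mul_cancel_right]
    refine turn_D_aux L hX hP g hmax (g * (P (j + 1))⁻¹) j hg h1 h2 ?_
    intro k hk
    rw [← L.pow] at hk
    have hn : g.norm = 0 := by
      rcases le_total (j + 1) (k * w.length) with h3 | h3
      · have e : j + 1 + ((k * w.length - (j + 1)).toNat : ℤ) = k * w.length := by omega
        have h4 := line_fwd L (g * (P (j + 1))⁻¹) (j + 1) (by rw [hg]; exact h2)
          (k * w.length - (j + 1)).toNat
        rw [e, hk, hg, FreeGroup.norm_one] at h4
        omega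
      · have e : j + 1 - ((j + 1 - k * w.length).toNat : ℤ) = k * w.length := by omega
        have h4 := line_bwd L (g * (P (j + 1))⁻¹) j (by rw [hg]; exact h1)
          (j + 1 - k * w.length).toNat
        rw [e, hk, hg, FreeGroup.norm_one] at h4
        omega
    exact hg1 (FreeGroup.norm_eq_zero.1 hn)
  obtain ⟨j, h | h⟩ := (L.turn _ _).1 hpq
  · have := key j (by rw [h.1, linv_linv]; exact hp) (by rw [h.2]; exact hq)
    rw [h.1, h.2, linv_linv] at this
    exact this
  · have := key j (by rw [h.1, linv_linv]; exact hq) (by rw [h.2]; exact hp)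
    rw [h.1, h.2, linv_linv] at this
    exact this.symm

end final


/-- The component of a letter in the graph of turns. -/
def comp (w : List (Letter M)) (a : Letter M) : Set (Letter M) :=
  {y | Relation.ReflTransGen (fun x y => 0 < tm w x y) a y}

theorem comp_self (w : List (Letter M)) (a : Letter M) : a ∈ comp w a :=
  Relation.ReflTransGen.refl

theorem comp_closed (w : List (Letter M)) (a : Letter M) (x y : Letter M) (h : 0 < tm w x y) :
    x ∈ comp w a ↔ y ∈ comp w a := by
  constructor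
  · intro hx
    exact Relation.ReflTransGen.tail hx h
  · intro hy
    exact Relation.ReflTransGen.tail hy (by rw [tm_comm]; exact h)

theorem path_symm {w : List (Letter M)} {a b : Letter M}
    (h : Relation.ReflTransGen (fun x y => 0 < tm w x y) a b) :
    Relation.ReflTransGen (fun x y => 0 < tm w x y) b a := by
  induction h with
  | refl => exact Relation.ReflTransGen.refl
  | @tail b c _ hbc ih =>
    exact Relation.ReflTransGen.head (by rw [tm_comm]; exact hbc) ih

theorem comp_path {w : List (Letter M)} {a x y : Letter M} (hx : x ∈ comp w a)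
    (hy : y ∈ comp w a) : Relation.ReflTransGen (fun x y => 0 < tm w x y) x y :=
  (path_symm hx).trans hy

section final2

variable {w : List (Letter M)} {W : ℤ → Letter M} {P : ℤ → FreeGroup (Fin M)}
  {A : Set (FreeGroup (Fin M))} {X : Set (FreeGroup (Fin M) × Letter M)}

/-- The case of a two-coloured edge away from `1`. -/
theorem case_far (L : Line w W P)
    (hA : ∀ h : FreeGroup (Fin M), {g | ¬ (g * h ∈ A ↔ g ∈ A)}.Finite)
    (hX : Col w A X) (hmin : ∀ X', Col w A X' → (D X).ncard ≤ (D X').ncard)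
    (hP : {g | ¬ (g * FreeGroup.mk w ∈ A ↔ g ∈ A)} = {1}) (g : FreeGroup (Fin M))
    (x0 : Letter M) (hx : (g, x0) ∈ D X) (hxo : Out g x0)
    (hmax : ∀ z ∈ D X, Out z.1 z.2 → z.1.norm ≤ g.norm) (hg1 : g ≠ 1) :
    (∃ c a, MergeAt w c a) ∨ ∃ C a, Cand w C a := by
  classical
  obtain ⟨o, ho⟩ := exists_in hg1
  have hout : ∀ y, y ≠ o → Out g y := by
    intro y hy
    by_contra hc
    exact hy (not_out_unique hc ho)
  have hx0 : x0 ≠ o := by
    rintro rfl
    exact ho hxo
  have hv := comp_closed w x0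
  have hhalf := half hA hX hmin g (comp w x0) hv
  have hturn : ∀ p q, 0 < tm w p q → p ≠ o → q ≠ o → ((g, p) ∈ D X ↔ (g, q) ∈ D X) :=
    fun p q hpq hp hq => turn_D L hX hP g hmax hg1 p q hpq (hout p hp) (hout q hq)
  by_cases hR : ∃ r, r ∈ comp w x0 ∧ r ≠ o ∧ (g, r) ∉ D X
  · right
    obtain ⟨r, hr, hro, hrD⟩ := hR
    obtain ⟨C, hC⟩ := cand_of_cut (w := w) o {y | y ∈ comp w x0 ∧ y ≠ o ∧ (g, y) ∈ D X}
      {y | y ∈ comp w x0 ∧ y ≠ o ∧ (g, y) ∉ D X}
      (by
        rw [Set.disjoint_left]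
        rintro y ⟨_, _, h1⟩ ⟨_, _, h2⟩
        exact h2 h1)
      (fun h => h.2.1 rfl) (fun h => h.2.1 rfl)
      (by
        rintro p q ⟨h1, h2, h3⟩ hpq
        by_cases hq : q = o
        · exact Or.inr hq
        · left
          exact ⟨(hv p q hpq).1 h1, hq, (hturn p q hpq h2 hq).1 h3⟩)
      (by
        rintro p q ⟨h1, h2, h3⟩ hpq
        by_cases hq : q = o
        · exact Or.inr hq
        · left
          exact ⟨(hv p q hpq).1 h1, hq, fun h => h3 ((hturn p q hpq h2 hq).2 h)⟩)
      (by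
        obtain ⟨a, b, ha, hb, hab, _⟩ := leave
          (fun y => y ∈ comp w x0 ∧ y ≠ o ∧ (g, y) ∈ D X) (comp_path (comp_self w x0) hr)
          ⟨comp_self w x0, hx0, hx⟩ (fun h => hrD h.2.2)
        by_cases hbo : b = o
        · rw [hbo] at hab
          exact ⟨a, ha, hab⟩
        · exact absurd ⟨(hv a b hab).1 ha.1, hbo, (hturn a b hab ha.2.1 hbo).1 ha.2.2⟩ hb)
      (by
        obtain ⟨a, b, ha, hb, hab, _⟩ := leave
          (fun y => y ∈ comp w x0 ∧ y ≠ o ∧ (g, y) ∉ D X) (comp_path hr (comp_self w x0))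
          ⟨hr, hro, hrD⟩ (fun h => h.2.2 hx)
        by_cases hbo : b = o
        · rw [hbo] at hab
          exact ⟨a, ha, hab⟩
        · exact absurd ⟨(hv a b hab).1 ha.1, hbo,
            fun h => ha.2.2 ((hturn a b hab ha.2.1 hbo).2 h)⟩ hb)
    exact ⟨C, o, hC⟩
  · left
    push Not at hR
    have h1 : {y | y ∈ comp w x0 ∧ (g, y) ∉ D X} ⊆ {o} := by
      rintro y ⟨hy, hyD⟩
      by_contra hyo
      exact hyD (hR y hy hyo)
    have h2 : {y | y ∈ comp w x0 ∧ (g, y) ∉ D X}.ncard ≤ 1 := by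
      have := Set.ncard_le_ncard h1
      rwa [Set.ncard_singleton] at this
    have h3 : ∀ y, y ∈ comp w x0 → (g, y) ∈ D X → y = x0 := by
      intro y hy hyD
      have h4 := (Set.ncard_le_one (Set.toFinite _)).1 (hhalf.trans h2)
      exact h4 y ⟨hy, hyD⟩ x0 ⟨comp_self w x0, hx⟩
    have h4 : ∀ y, y ∈ comp w x0 → y = x0 ∨ y = o := by
      intro y hy
      by_cases hyo : y = o
      · exact Or.inr hyo
      · exact Or.inl (h3 y hy (hR y hy hyo))
    have h5 : o ∈ comp w x0 := by
      have h6 : 0 < {y | y ∈ comp w x0 ∧ (g, y) ∉ D X}.ncard := by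
        refine lt_of_lt_of_le ?_ hhalf
        rw [Set.ncard_pos (Set.toFinite _)]
        exact ⟨x0, comp_self w x0, hx⟩
      rw [Set.ncard_pos (Set.toFinite _)] at h6
      obtain ⟨y, hy⟩ := h6
      have := h1 hy
      rw [Set.mem_singleton_iff] at this
      rw [← this]
      exact hy.1
    have h6 : ∀ q, 0 < tm w x0 q → q = o := by
      intro q hq
      rcases h4 q ((hv x0 q hq).1 (comp_self w x0)) with h | h
      · exact absurd h.symm (turn_ne L hq)
      · exact h
    have h7 : ∀ q, 0 < tm w o q → q = x0 := by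
      intro q hq
      rcases h4 q ((hv o q hq).1 h5) with h | h
      · exact h
      · exact absurd h.symm (turn_ne L hq)
    have h8 : 0 < tm w x0 o := by
      obtain ⟨a, b, ha, hb, hab, _⟩ := leave (fun y => y = x0)
        (comp_path (comp_self w x0) h5) rfl (fun h => hx0 h.symm)
      rw [ha] at hab
      rw [h6 b hab] at hab
      exact hab
    exact ⟨x0, o, merge L hA hP o x0 h8 h6 h7⟩

/-- The case that all two-coloured edges are at `1`. -/
theorem case_one (L : Line w W P)
    (hA : ∀ h : FreeGroup (Fin M), {g | ¬ (g * h ∈ A ↔ g ∈ A)}.Finite)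
    (hX : Col w A X) (hmin : ∀ X', Col w A X' → (D X).ncard ≤ (D X').ncard)
    (hP : {g | ¬ (g * FreeGroup.mk w ∈ A ↔ g ∈ A)} = {1})
    (hmax : ∀ z ∈ D X, Out z.1 z.2 → z.1.norm ≤ (1 : FreeGroup (Fin M)).norm) :
    (∃ c a, MergeAt w c a) ∨ ∃ C a, Cand w C a := by
  classical
  have hn2 := L.two
  -- periodicity
  have hper : ∀ (k : ℤ) (j : ℤ), W (j + k * w.length) = W j := by
    intro k
    induction k using Int.induction_on with
    | zero => intro j; simp
    | succ k ih =>
      intro j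
      have : j + ((k : ℤ) + 1) * w.length = (j + k * w.length) + w.length := by ring
      rw [this, L.per, ih]
    | pred k ih =>
      intro j
      have h1 := L.per (j + (-(k : ℤ) - 1) * w.length)
      have : j + (-(k : ℤ) - 1) * w.length + w.length = j + (-(k : ℤ)) * w.length := by ring
      rw [this, ih] at h1
      exact h1.symm
  have hkey : ∀ j : ℤ, (((1 : FreeGroup (Fin M)), linv (W j)) ∈ D X ↔ (1, W (j + 1)) ∈ D X) ∨
      (W j = W (-1) ∧ W (j + 1) = W 0) := by
    intro j
    by_cases hj : ∃ k : ℤ, j + 1 = k * w.length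
    · right
      obtain ⟨k, hk⟩ := hj
      have e1 : j = -1 + k * w.length := by linarith
      have e2 : j + 1 = 0 + k * w.length := by linarith
      refine ⟨?_, ?_⟩
      · rw [e1, hper]
      · rw [e2, hper]
    · left
      refine turn_D_aux L hX hP 1 hmax (P (j + 1))⁻¹ j (inv_mul_cancel _) (out_one _) (out_one _) ?_
      intro k hk
      rw [← L.pow] at hk
      apply hj
      refine ⟨k, ?_⟩
      apply line_inj L
      exact inv_mul_eq_one.1 hk
  have honce : ((P (-1), W (-1)) ∈ D X ↔ (P 0, W 0) ∉ D X) := by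
    refine once L hX hP (fun i hi hi' => ?_)
    have := others (X := X) L 1 hmax 1 (-1) (by rw [one_mul]; exact L.zero) (out_one _)
      (out_one _) i hi (by simpa using hi')
    rwa [one_mul] at this
  have honce' : (((1 : FreeGroup (Fin M)), linv (W (-1))) ∈ D X ↔
      ((1 : FreeGroup (Fin M)), W 0) ∉ D X) := by
    have e1 : mate (P (-1), W (-1)) = (1, linv (W (-1))) := by
      unfold mate
      simp only
      rw [← L.succ]
      have : (-1 : ℤ) + 1 = 0 := by norm_num
      rw [this, L.zero]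
    rw [← e1, mate_D, honce, L.zero]
  have hturn0 : 0 < tm w (linv (W (-1))) (W 0) := by
    have := turn_at L (-1)
    have e : (-1 : ℤ) + 1 = 0 := by norm_num
    rwa [e] at this
  have hturn1 : ∀ p q, 0 < tm w p q →
      ((((1 : FreeGroup (Fin M)), p) ∈ D X ↔ (1, q) ∈ D X) ∨
        (p = linv (W (-1)) ∧ q = W 0) ∨ (p = W 0 ∧ q = linv (W (-1)))) := by
    intro p q hpq
    obtain ⟨j, h | h⟩ := (L.turn _ _).1 hpq
    · rcases hkey j with h1 | ⟨h1, h2⟩
      · left
        rw [h.1, h.2, linv_linv] at h1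
        exact h1
      · right
        left
        rw [h.1] at h1
        rw [h.2] at h2
        exact ⟨by rw [← h1, linv_linv], h2⟩
    · rcases hkey j with h1 | ⟨h1, h2⟩
      · left
        rw [h.1, h.2, linv_linv] at h1
        exact h1.symm
      · right
        right
        rw [h.1] at h1
        rw [h.2] at h2
        exact ⟨h2, by rw [← h1, linv_linv]⟩
  obtain ⟨a, b, hab, haD, hbD, hturn⟩ : ∃ a b, 0 < tm w a b ∧
      ((1 : FreeGroup (Fin M)), a) ∈ D X ∧ ((1 : FreeGroup (Fin M)), b) ∉ D X ∧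
      ∀ p q, 0 < tm w p q → ((((1 : FreeGroup (Fin M)), p) ∈ D X ↔ (1, q) ∈ D X) ∨
        (p = a ∧ q = b) ∨ (p = b ∧ q = a)) := by
    by_cases h : ((1 : FreeGroup (Fin M)), W 0) ∈ D X
    · refine ⟨W 0, linv (W (-1)), by rw [tm_comm]; exact hturn0, h, fun h' => honce'.1 h' h, ?_⟩
      intro p q hpq
      rcases hturn1 p q hpq with h1 | h1 | h1
      · exact Or.inl h1
      · exact Or.inr (Or.inr h1)
      · exact Or.inr (Or.inl h1)
    · exact ⟨linv (W (-1)), W 0, hturn0, honce'.2 h, h, hturn1⟩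
  have hv := comp_closed w a
  have hhalf := half hA hX hmin 1 (comp w a) hv
  have hbv : b ∈ comp w a := (hv a b hab).1 (comp_self w a)
  by_cases hR : ∃ r, r ∈ comp w a ∧ r ≠ b ∧ ((1 : FreeGroup (Fin M)), r) ∉ D X
  · right
    obtain ⟨r, hr, hrb, hrD⟩ := hR
    obtain ⟨C, hC⟩ := cand_of_cut (w := w) b {y | y ∈ comp w a ∧ ((1 : FreeGroup (Fin M)), y) ∈ D X}
      {y | y ∈ comp w a ∧ y ≠ b ∧ ((1 : FreeGroup (Fin M)), y) ∉ D X}
      (by
        rw [Set.disjoint_left]
        rintro y ⟨_, h1⟩ ⟨_, _, h2⟩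
        exact h2 h1)
      (fun h => hbD h.2) (fun h => h.2.1 rfl)
      (by
        rintro p q ⟨h1, h2⟩ hpq
        rcases hturn p q hpq with h3 | h3 | h3
        · left
          exact ⟨(hv p q hpq).1 h1, h3.1 h2⟩
        · exact Or.inr h3.2
        · exfalso
          rw [h3.1] at h2
          exact hbD h2)
      (by
        rintro p q ⟨h1, h2, h3⟩ hpq
        by_cases hq : q = b
        · exact Or.inr hq
        · left
          refine ⟨(hv p q hpq).1 h1, hq, ?_⟩
          rcases hturn p q hpq with h4 | h4 | h4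
          · exact fun h => h3 (h4.2 h)
          · exact absurd h4.2 hq
          · exact absurd h4.1 h2)
      ⟨a, ⟨comp_self w a, haD⟩, hab⟩
      (by
        obtain ⟨s, t, hs, ht, hst, _⟩ := leave
          (fun y => y ∈ comp w a ∧ y ≠ b ∧ ((1 : FreeGroup (Fin M)), y) ∉ D X)
          (comp_path hr hbv) ⟨hr, hrb, hrD⟩ (fun h => h.2.1 rfl)
        by_cases htb : t = b
        · rw [htb] at hst
          exact ⟨s, hs, hst⟩
        · exfalso
          apply ht
          refine ⟨(hv s t hst).1 hs.1, htb, ?_⟩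
          rcases hturn s t hst with h4 | h4 | h4
          · exact fun h => hs.2.2 (h4.2 h)
          · exact absurd h4.2 htb
          · exact absurd h4.1 hs.2.1)
    exact ⟨C, b, hC⟩
  · left
    push Not at hR
    have h1 : {y | y ∈ comp w a ∧ ((1 : FreeGroup (Fin M)), y) ∉ D X} ⊆ {b} := by
      rintro y ⟨hy, hyD⟩
      by_contra hyo
      exact hyD (hR y hy hyo)
    have h2 : {y | y ∈ comp w a ∧ ((1 : FreeGroup (Fin M)), y) ∉ D X}.ncard ≤ 1 := by
      have := Set.ncard_le_ncard h1
      rwa [Set.ncard_singleton] at this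
    have h3 : ∀ y, y ∈ comp w a → ((1 : FreeGroup (Fin M)), y) ∈ D X → y = a := by
      intro y hy hyD
      have h4 := (Set.ncard_le_one (Set.toFinite _)).1 (hhalf.trans h2)
      exact h4 y ⟨hy, hyD⟩ a ⟨comp_self w a, haD⟩
    have h4 : ∀ y, y ∈ comp w a → y = a ∨ y = b := by
      intro y hy
      by_cases hyo : y = b
      · exact Or.inr hyo
      · exact Or.inl (h3 y hy (hR y hy hyo))
    have h6 : ∀ q, 0 < tm w a q → q = b := by
      intro q hq
      rcases h4 q ((hv a q hq).1 (comp_self w a)) with h | h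
      · exact absurd h.symm (turn_ne L hq)
      · exact h
    have h7 : ∀ q, 0 < tm w b q → q = a := by
      intro q hq
      rcases h4 q ((hv b q hq).1 hbv) with h | h
      · exact h
      · exact absurd h.symm (turn_ne L hq)
    exact ⟨a, b, merge L hA hP b a hab h6 h7⟩

end final2

end Pool.Agent.Lib.MP_0c2883_lc.All.WL

namespace Pool.Agent.Lib.MP_0c2883_lc.All

open WL

/-- WL: the cut vertex lemma. -/
theorem wl : WLStmt := by
  intro M w hw h2 hPQ
  classical
  obtain ⟨W, P, L⟩ := exists_line hw h2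
  obtain ⟨A, hA, hP⟩ := hPQ
  obtain ⟨X, hX, hmin⟩ := exists_min w A
  have hfin : {z | z ∈ D X ∧ Out z.1 z.2}.Finite := (finite_D hA hX).subset (fun z hz => hz.1)
  have hne : {z | z ∈ D X ∧ Out z.1 z.2}.Nonempty := by
    obtain ⟨i, hi⟩ := exists_D L hX hP
    by_cases ho : Out (P i) (W i)
    · exact ⟨_, hi, ho⟩
    · exact ⟨mate (P i, W i), mate_D.2 hi, out_mate ho⟩
  obtain ⟨⟨g, x0⟩, ⟨hz, hzo⟩, hmax⟩ := Set.exists_max_image _ (fun z => z.1.norm) hfin hne
  have hmax' : ∀ z ∈ D X, Out z.1 z.2 → z.1.norm ≤ g.norm := fun z h h' => hmax z ⟨h, h'⟩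
  by_cases hg : g = 1
  · rw [hg] at hmax'
    exact case_one L hA hX hmin hP hmax'
  · exact case_far L hA hX hmin hP g x0 hz hzo hmax' hg

end Pool.Agent.Lib.MP_0c2883_lc.All
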