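import Pool.Agent.Lib.MP_0c2883_lc.All.SBMeas
import Pool.Agent.Lib.MP_0c2883_lc.All.SBX1
import Pool.Agent.Lib.MP_0c2883_lc.All.SBX2

/-!
# The invariants `Y` and the weights do not increase in a step
-/

set_option autoImplicit false

namespace Pool.Agent.Lib.MP_0c2883_lc.All

open Pool.Agent.Lib.PolyTime List

namespace YStep

variable {M : ℕ}

theorem ySlide (hX : XSlideStmt) (hZ : ZSlideStmt) {μ μ' : St M} {C : Letter M → Bool}
    {a : Letter M} (hs : ASlide μ μ' C a) (h : μ.h C ≤ μ.x a ∨ μ.Conn a (linv a)) {s : ℕ}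
    (h1 : 1 ≤ s) : μ'.Y s ≤ μ.Y s := by
  have e1 := hX M μ μ' C a s hs h h1
  have e2 := hZ M μ μ' C a s hs h h1
  unfold St.Y
  omega

theorem ySplit (hX : XSplitStmt) (hZ : ZSplitStmt) {μ μ' : St M} {C : Letter M → Bool}
    {a f : Letter M} (hs : ASplit μ μ' C a f) {s : ℕ} (h1 : 1 ≤ s) : μ'.Y s ≤ μ.Y s := by
  have e1 := hX M μ μ' C a f s hs h1
  have e2 := hZ M μ μ' C a f s hs h1
  unfold St.Y
  omega

theorem wSl (hW : WSlideStmt) {μ μ' : St M} {C : Letter M → Bool} {a : Letter M}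
    (hs : ASlide μ μ' C a) (p : Letter M) : μ'.x p ≤ μ.x p := by
  obtain ⟨w1, w2, -⟩ := hW M μ μ' C a hs
  by_cases hp : p.1 = a.1
  · rw [SBX2.x_fst μ' hp, SBX2.x_fst μ hp]; omega
  · rw [w2 p hp]

theorem yChain (hW : WSlideStmt) (hX : XSlideStmt) (hZ : ZSlideStmt) {C : Letter M → Bool}
    {h : ℕ} {μ μ' : St M} (hc : AChain C h μ μ') (hh : μ.h C ≤ h) :
    (∀ s, 1 ≤ s → μ'.Y s ≤ μ.Y s) ∧ μ'.h C = μ.h C ∧ ∀ p, μ'.x p ≤ μ.x p := by
  induction hc with
  | refl => exact ⟨fun s _ => le_rfl, rfl, fun _ => le_rfl⟩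
  | tail μ' μ'' a hc hs hx ih =>
    obtain ⟨i1, i2, i3⟩ := ih
    have e := SBX1.h_eq hW hs
    have hw := wSl hW hs
    have hwa := hw a
    exact ⟨fun s h1 => (ySlide hX hZ hs (Or.inl (by omega)) h1).trans (i1 s h1), by omega,
      fun p => (hw p).trans (i3 p)⟩

end YStep

/-- SBY -/
theorem yStep (hW : WSlideStmt) (hW' : WSplitStmt) (hX : XSlideStmt) (hX' : XSplitStmt)
    (hZ : ZSlideStmt) (hZ' : ZSplitStmt) : YStepStmt := by
  intro M μ μ' hst
  have hB : 0 < Bb M := by unfold Bb; positivity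
  suffices h : (∀ s, 1 ≤ s → μ'.Y s ≤ μ.Y s) ∧
      (∀ S, (∀ p, μ.x p ≤ S) → ∀ p, μ'.x p ≤ S) from
    ⟨fun j => h.1 _ (Nat.pow_pos hB), h.2⟩
  cases hst with
  | merge c a hm hs =>
    refine ⟨fun s h1 => YStep.ySlide hX hZ hs (Or.inl ?_) h1,
      fun S hS p => (YStep.wSl hW hs p).trans (hS p)⟩
    have hxc : μ.x c = μ.m c a := by
      unfold St.x
      refine Finset.sum_eq_single a (fun q _ hq => ?_) (fun h => absurd (Finset.mem_univ a) h)
      by_contra hne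
      exact hq (hm.left q (Nat.pos_of_ne_zero hne))
    have hxa : μ.m c a ≤ μ.x a := by
      rw [μ.symm]
      unfold St.x
      exact Finset.single_le_sum (f := fun q => μ.m a q) (fun _ _ => Nat.zero_le _)
        (Finset.mem_univ c)
    unfold St.h
    refine Finset.sup_le fun p _ => ?_
    by_cases hp : p = c
    · subst hp
      simp only [decide_true, if_true]
      omega
    · simp [hp]
  | acc C a μ₁ hno hC hmin h1 h2 hs hc hmax =>
    have e := SBX1.h_eq hW hs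
    obtain ⟨c1, -, c3⟩ := YStep.yChain hW hX hZ hc (by omega)
    exact ⟨fun s hs1 => (c1 s hs1).trans (YStep.ySlide hX hZ hs (Or.inl h1) hs1),
      fun S hS p => ((c3 p).trans (YStep.wSl hW hs p)).trans (hS p)⟩
  | loop C a hno hC hmin hl h1 h2 hs =>
    exact ⟨fun s hs1 => YStep.ySlide hX hZ hs (Or.inr hl) hs1,
      fun S hS p => (YStep.wSl hW hs p).trans (hS p)⟩
  | split C a f hno hC hmin h1 h2 hs =>
    refine ⟨fun s hs1 => YStep.ySplit hX' hZ' hs hs1, fun S hS p => ?_⟩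
    obtain ⟨w1, w2, w3⟩ := hW' M μ μ' C a f hs
    have hSa := hS a
    by_cases hpa : p.1 = a.1
    · rw [SBX2.x_fst μ' hpa]; omega
    · by_cases hpf : p.1 = f.1
      · rw [SBX2.x_fst μ' hpf]; omega
      · rw [w3 p hpa hpf]; exact hS p

end Pool.Agent.Lib.MP_0c2883_lc.All
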