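import Pool.Agent.Lib.MP_0c2883_lc.All.Main
import Pool.Agent.Lib.MP_0c2883_lc.All.Alg
import Pool.Agent.Lib.MP_0c2883_lc.All.Srch
import Pool.Agent.Lib.MP_0c2883_lc.All.Sig
import Pool.Agent.Lib.MP_0c2883_lc.All.CutInit
import Pool.Agent.Lib.MP_0c2883_lc.All.Conj
import Pool.Agent.Lib.MP_0c2883_lc.All.Prim
import Pool.Agent.Lib.MP_0c2883_lc.All.WL
import Pool.Agent.Lib.MP_0c2883_lc.All.SG
import Pool.Agent.Lib.MP_0c2883_lc.All.Det
import Pool.Agent.Lib.MP_0c2883_lc.All.Path
import Pool.Agent.Lib.MP_0c2883_lc.All.Free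
import Pool.Agent.Lib.MP_0c2883_lc.All.SBA
import Pool.Agent.Lib.MP_0c2883_lc.All.SBB
import Pool.Agent.Lib.MP_0c2883_lc.All.SBF
import Pool.Agent.Lib.MP_0c2883_lc.All.SBJ
import Pool.Agent.Lib.MP_0c2883_lc.All.SBQ
import Pool.Agent.Lib.MP_0c2883_lc.All.SBU
import Pool.Agent.Lib.MP_0c2883_lc.All.SBW
import Pool.Agent.Lib.MP_0c2883_lc.All.SBX1
import Pool.Agent.Lib.MP_0c2883_lc.All.SBX2
import Pool.Agent.Lib.MP_0c2883_lc.All.SBZ
import Pool.Agent.Lib.MP_0c2883_lc.All.Of
import Pool.Agent.Lib.MP_0c2883_lc.All.RC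
import Pool.Agent.Lib.MP_0c2883_lc.All.YStep
import Pool.Agent.Lib.MP_0c2883_lc.All.SBP
import Pool.Agent.Lib.MP_0c2883_lc.All.Rot
import Pool.Agent.Lib.MP_0c2883_lc.All.Cnt

/-!
# Assembly
-/

set_option autoImplicit false

namespace Pool.Agent.Lib.MP_0c2883_lc.All

/-- Primitivity of compressed words is decidable in polynomial time. -/
theorem mainStmt : MainStmt := by
  have hCnt : CountStmt := countStmt
  have hRot : RotStmt := rotStmt
  have hPot : PotStmt := sbPot sbJump yScale sbBand wSlide wSplit (sbXSlide wSlide)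
    (zSlide wSlide) (zSplit wSplit) (strictSplit wSplit sbFlow) (bandSlide wSlide sbFlow)
    (bandSplit wSplit sbFlow)
  have hRC : RCStmt := RC.rcStmt
  have hOf : OfStmt := of
  have hOfS : OfSlideStmt := ofSlide
  have hOfP : OfSplitStmt := ofSplit
  have hYS : YStepStmt := yStep wSlide wSplit (sbXSlide wSlide) (sbXSplit wSplit) (zSlide wSlide)
    (zSplit wSplit)
  have hSl : SlideStmt := Ops.slide
  have hSp : SplitStmt := Ops.split
  have hSigOp : SigOpStmt := Ops.sigOp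
  have hConj : ConjStmt := conj
  have hDet : DetStmt := det hSl hConj
  have hPath : PathStmt := Path.path
  have hSrch : SearchStmt := search hDet hPath sigStmt takeStmt hCnt hSl hOf hConj
  have hAlg : AlgStmt := alg hSrch sigStmt hRot hCnt hOf hOfS hOfP hSl hSp hSigOp hConj
  have hQ : QuietStmt := sbq sbu_U sbu_cluster wSlide sbJump sbBand yScale
  have hSB : SBStmt := sbA hPot hQ hYS sbBand yScale
  have hWL : WLStmt := wl
  exact main_of hRC SG.sg hAlg hSB (sbXStep wSlide wSplit) xInit free hWL (primPQ hWL hSl)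
    (primMap hWL hSl) hSl hSp hOf initStmt

end Pool.Agent.Lib.MP_0c2883_lc.All
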