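import Pool.Agent.Lib.MP_0c2883_lc.All.SBF

/-!
# FREE: existence of unused letters, initial bound for `X 1`
-/

set_option autoImplicit false

namespace Pool.Agent.Lib.MP_0c2883_lc.All

open List

namespace Free

variable {M : ℕ}

theorem mem_cpairs {α : Type} {w : List α} {x y : α} (h : (x, y) ∈ cpairs w) : x ∈ w ∧ y ∈ w := by
  unfold cpairs at h
  have h1 := (List.of_mem_zip h).1
  have h2 := (List.of_mem_zip h).2
  rw [List.mem_rotate] at h2
  exact ⟨h1, h2⟩

theorem getElem_cpairs {α : Type} (w : List α) (i : ℕ) (hi : i < w.length) :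
    (w[i], w[(i + 1) % w.length]'(Nat.mod_lt _ (by omega))) ∈ cpairs w := by
  unfold cpairs
  have h1 : i < (w.zip (w.rotate 1)).length := by simp [hi]
  have h2 : (w.zip (w.rotate 1))[i]'h1 = (w[i], w[(i + 1) % w.length]'(Nat.mod_lt _ (by omega))) := by
    rw [List.getElem_zip]
    simp [List.getElem_rotate]
  rw [← h2]
  exact List.getElem_mem h1

/-- a property passed on to the next letter holds for all letters -/
theorem all_of_step {α : Type} (w : List α) (S : α → Prop) (h : ∀ x y, (x, y) ∈ cpairs w → S x → S y)
    (x₀ : α) (hx : x₀ ∈ w) (hS : S x₀) : ∀ y ∈ w, S y := by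
  obtain ⟨i, hi, rfl⟩ := List.getElem_of_mem hx
  have key : ∀ k : ℕ, S (w[(i + k) % w.length]'(Nat.mod_lt _ (by omega))) := by
    intro k
    induction k with
    | zero =>
      have : (i + 0) % w.length = i := by rw [Nat.add_zero, Nat.mod_eq_of_lt hi]
      simp only [this]
      exact hS
    | succ k ih =>
      have h1 := getElem_cpairs w ((i + k) % w.length) (Nat.mod_lt _ (by omega))
      have h2 := h _ _ h1 ih
      have h3 : ((i + k) % w.length + 1) % w.length = (i + (k + 1)) % w.length := by
        rw [Nat.mod_add_mod, Nat.add_assoc]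
      simp only [h3] at h2
      exact h2
  intro y hy
  obtain ⟨j, hj, rfl⟩ := List.getElem_of_mem hy
  have h1 := key (j + w.length - i)
  have h2 : (i + (j + w.length - i)) % w.length = j := by
    rw [show i + (j + w.length - i) = j + w.length by omega, Nat.add_mod_right,
      Nat.mod_eq_of_lt hj]
  simp only [h2] at h1
  exact h1

theorem next_of_mem {α : Type} {w : List α} {x : α} (hx : x ∈ w) : ∃ y, (x, y) ∈ cpairs w := by
  obtain ⟨i, hi, rfl⟩ := List.getElem_of_mem hx
  exact ⟨_, getElem_cpairs w i hi⟩

theorem tm_pos {w : List (Letter M)} {x y : Letter M} (h : (x, y) ∈ cpairs w) :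
    0 < tm w (linv x) y := by
  unfold tm tc
  have : 0 < (cpairs w).countP (fun z => decide (z = (linv (linv x), y))) := by
    rw [List.countP_pos_iff]
    exact ⟨(x, y), h, by simp⟩
  omega

theorem mem_of_tm_pos {w : List (Letter M)} {p q : Letter M} (h : 0 < tm w p q) :
    linv p ∈ w ∨ p ∈ w := by
  unfold tm tc at h
  rcases Nat.eq_zero_or_pos ((cpairs w).countP (fun z => decide (z = (linv p, q)))) with h0 | h0
  · have h1 : 0 < (cpairs w).countP (fun z => decide (z = (linv q, p))) := by omega
    rw [List.countP_pos_iff] at h1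
    obtain ⟨z, hz, hz2⟩ := h1
    rw [decide_eq_true_eq] at hz2
    subst hz2
    exact Or.inr (mem_cpairs hz).2
  · rw [gt_iff_lt, List.countP_pos_iff] at h0
    obtain ⟨z, hz, hz2⟩ := h0
    rw [decide_eq_true_eq] at hz2
    subst hz2
    exact Or.inl (mem_cpairs hz).1

theorem x_pos {μ : St M} {w : List (Letter M)} (hμ : μ.Of w) {x p : Letter M} (hx : x ∈ w)
    (hp : p.1 = x.1) : 1 ≤ μ.x p := by
  obtain ⟨y, hy⟩ := next_of_mem hx
  have h1 := tm_pos hy
  rw [← hμ] at h1
  rw [SBF.x_eq_of_fst μ (q := linv x) (by simpa using hp)]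
  exact h1.trans_le (Finset.single_le_sum (f := fun q => μ.m (linv x) q) (fun _ _ => Nat.zero_le _)
    (Finset.mem_univ y))

theorem exists_nbr {μ : St M} {p : Letter M} (h : 1 ≤ μ.x p) : ∃ q, 0 < μ.m p q := by
  by_contra hcon
  push Not at hcon
  have : μ.x p = 0 := Finset.sum_eq_zero (fun q _ => Nat.le_zero.1 (hcon q))
  omega

theorem free : FreeStmt := by
  classical
  intro M r w μ hw hlen hr hM hμ hX hmerge hcand
  by_contra hcon
  push Not at hcon
  have hx : ∀ p : Letter M, 1 ≤ μ.x p := by
    intro p
    obtain ⟨x, hx, hx2⟩ := hcon p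
    exact x_pos hμ hx hx2.symm
  have hE : μ.E 1 = Finset.univ := by
    unfold St.E
    rw [Finset.filter_true_of_mem]
    intro i _
    exact hx _
  have h1 := SBF.le_X μ 1 (F := Finset.univ) (by rw [hE])
  rw [Finset.card_univ, Fintype.card_fin] at h1
  have h3 : ∀ v ∈ μ.Vx Finset.univ, 3 ≤
      ((SBF.half (Finset.univ : Finset (Fin M))).filter (fun p => μ.comp p = v)).card := by
    intro v hv
    obtain ⟨p, -, rfl⟩ := SBF.mem_vx.1 hv
    by_contra hlt
    obtain ⟨q, hq⟩ := exists_nbr (hx p)
    have hpq : p ≠ q := by
      rintro rfl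
      rw [μ.diag] at hq
      omega
    set S := (SBF.half (Finset.univ : Finset (Fin M))).filter (fun z => μ.comp z = μ.comp p) with hS
    have hmem : ∀ z, z ∈ S ↔ μ.Conn p z := by
      intro z
      rw [hS, Finset.mem_filter, SBF.mem_half]
      constructor
      · intro h
        exact SBF.conn_of_comp_eq h.2.symm
      · intro h
        exact ⟨Finset.mem_univ _, (SBF.comp_eq h).symm⟩
    have hpS : p ∈ S := (hmem p).2 Relation.ReflTransGen.refl
    have hqS : q ∈ S := (hmem q).2 (Relation.ReflTransGen.single hq)
    have hS2 : ({p, q} : Finset (Letter M)) = S := by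
      apply Finset.eq_of_subset_of_card_le
      · intro z hz
        rw [Finset.mem_insert, Finset.mem_singleton] at hz
        rcases hz with rfl | rfl
        · exact hpS
        · exact hqS
      · rw [Finset.card_pair hpq]
        omega
    have hcl : ∀ z, μ.Conn p z → z = p ∨ z = q := by
      intro z hz
      have := (hmem z).2 hz
      rw [← hS2, Finset.mem_insert, Finset.mem_singleton] at this
      exact this
    have hleft : ∀ z, 0 < μ.m p z → z = q := by
      intro z hz
      rcases hcl z (Relation.ReflTransGen.single hz) with h | h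
      · subst h
        rw [μ.diag] at hz
        omega
      · exact h
    have hright : ∀ z, 0 < μ.m q z → z = p := by
      intro z hz
      have hpz : μ.Conn p z := Relation.ReflTransGen.tail
        (Relation.ReflTransGen.tail Relation.ReflTransGen.refl hq) hz
      rcases hcl z hpz with h | h
      · exact h
      · subst h
        rw [μ.diag] at hz
        omega
    by_cases hql : q = linv p
    · -- all letters are `p` or its inverse
      have hall : ∀ y ∈ w, y = p ∨ y = linv p := by
        obtain ⟨x, hxw, hx2⟩ := hcon p
        refine all_of_step w (fun y => y = p ∨ y = linv p) ?_ x hxw ?_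
        · intro x y hxy hS3
          have h4 := tm_pos hxy
          rw [← hμ] at h4
          rcases hS3 with h5 | h5
          · subst h5
            rw [← hql] at h4
            exact Or.inl (hright y h4)
          · rw [h5, linv_linv] at h4
            right
            rw [← hql]
            exact hleft y h4
        · rcases p with ⟨i, s⟩
          rcases x with ⟨j, t⟩
          simp only at hx2
          subst hx2
          cases s <;> cases t <;> simp [linv]
      have hM2 : 2 ≤ M := by omega
      have : ∃ i : Fin M, i ≠ p.1 := by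
        by_cases h0 : p.1.val = 0
        · exact ⟨⟨1, by omega⟩, fun h => by rw [← h] at h0; simp at h0⟩
        · exact ⟨⟨0, by omega⟩, fun h => by rw [← h] at h0; simp at h0⟩
      obtain ⟨i, hi⟩ := this
      obtain ⟨x, hxw, hx2⟩ := hcon (i, true)
      rcases hall x hxw with h | h
      · rw [h] at hx2
        exact hi hx2.symm
      · rw [h] at hx2
        exact hi hx2.symm
    · refine hmerge p q ⟨hpq, ?_, ?_, ?_, ?_⟩
      · intro h
        apply hql
        rw [h, linv_linv]
      · rw [← hμ]; exact hq
      · intro z hz
        rw [← hμ] at hz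
        exact hleft z hz
      · intro z hz
        rw [← hμ] at hz
        exact hright z hz
  have h4 : (SBF.half (Finset.univ : Finset (Fin M))).card =
      ∑ v ∈ μ.Vx Finset.univ,
        ((SBF.half (Finset.univ : Finset (Fin M))).filter (fun p => μ.comp p = v)).card := by
    rw [SBF.vx_eq]
    exact Finset.card_eq_sum_card_image μ.comp _
  have h5 : (μ.Vx Finset.univ).card * 3 ≤ (SBF.half (Finset.univ : Finset (Fin M))).card := by
    rw [h4, ← smul_eq_mul]
    exact Finset.card_nsmul_le_sum _ _ _ h3
  rw [SBF.card_half, Finset.card_univ, Fintype.card_fin] at h5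
  omega

theorem xinit : XInitStmt := by
  classical
  intro M r w μ hw hne hval hμ
  obtain ⟨x₀, hx₀⟩ := List.exists_mem_of_ne_nil w hne
  have hr : 1 ≤ r := by
    have := hval x₀ hx₀
    omega
  have hE : ∀ i ∈ μ.E 1, i.val < r := by
    intro i hi
    unfold St.E at hi
    rw [Finset.mem_filter] at hi
    obtain ⟨q, hq⟩ := exists_nbr hi.2
    rw [hμ] at hq
    rcases mem_of_tm_pos hq with h | h
    · exact hval _ h
    · exact hval _ h
  have hX : μ.X 1 ≤ r - 1 := by
    unfold St.X
    apply Finset.sup_le
    intro F hF
    rw [Finset.mem_powerset] at hF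
    rcases F.eq_empty_or_nonempty with h0 | ⟨i, hi⟩
    · subst h0
      simp
    · have h1 : F.card ≤ r := by
        have h2 : F.card = (F.map Fin.valEmbedding).card := (Finset.card_map _).symm
        rw [h2]
        have h3 : F.map Fin.valEmbedding ⊆ Finset.range r := by
          intro n hn
          rw [Finset.mem_map] at hn
          obtain ⟨j, hj, rfl⟩ := hn
          exact Finset.mem_range.2 (hE j (hF hj))
        simpa using Finset.card_le_card h3
      have h2 : 0 < (μ.Vx F).card := by
        rw [Finset.card_pos]
        exact ⟨μ.comp (i, true), SBF.mem_vx.2 ⟨(i, true), hi, rfl⟩⟩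
      omega
  omega

end Free

/-- FREE: an unused letter exists when a split is needed -/
theorem free : FreeStmt := Free.free

/-- FREE: initial bound for `X 1` -/
theorem xInit : XInitStmt := Free.xinit

end Pool.Agent.Lib.MP_0c2883_lc.All
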