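import Pool.Agent.Lib.MP_0c2883_lc.BNat
import Pool.Agent.Lib.MP_0c2883_lc.All.Base

/-!
# Straight-line programs: values and tables
-/

namespace Pool.Agent.Lib.MP_0c2883_lc.All

open List Pool.Agent.Lib.PolyTime


variable {ρ : ℕ}

section tab

variable {τ σ : Type} (step : List τ → GRule ρ → τ)

@[simp] theorem tab_nil : tab step [] = [] := rfl

theorem tab_concat (G : Gram ρ) (r : GRule ρ) : tab step (G ++ [r]) = tab step G ++ [step (tab step G) r] := by
  unfold tab; rw [List.foldl_append]; rfl

@[simp] theorem length_tab (G : Gram ρ) : (tab step G).length = G.length := by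
  induction G using List.reverseRecOn with
  | nil => rfl
  | append_singleton G r ih => rw [tab_concat]; simp [ih]

theorem tab_prefix (G G' : Gram ρ) : tab step G <+: tab step (G ++ G') := by
  induction G' using List.reverseRecOn with
  | nil => simp
  | append_singleton G' r ih =>
    rw [← List.append_assoc, tab_concat]
    exact ih.trans (List.prefix_append _ _)

theorem tab_getElem?_append {G G' : Gram ρ} {i : ℕ} (h : i < G.length) :
    (tab step (G ++ G'))[i]? = (tab step G)[i]? := by
  obtain ⟨t, ht⟩ := tab_prefix step G G'
  rw [← ht, List.getElem?_append_left (by simpa using h)]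

theorem tab_getElem? {G : Gram ρ} {i : ℕ} {r : GRule ρ} (h : G[i]? = some r) :
    (tab step G)[i]? = some (step (tab step (G.take i)) r) := by
  have hi : i < G.length := by
    by_contra h'
    rw [List.getElem?_eq_none_iff.2 (by omega)] at h
    simp at h
  have h1 : G = (G.take i ++ [r]) ++ G.drop (i + 1) := by
    have h2 : G[i] = r := by
      rw [List.getElem?_eq_getElem hi, Option.some.injEq] at h; exact h
    rw [List.append_assoc, List.singleton_append, ← h2, ← List.drop_eq_getElem_cons hi,
      List.take_append_drop]
  have h3 : i < (G.take i ++ [r]).length := by simp; omega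
  conv_lhs => rw [h1]
  rw [tab_getElem?_append step h3, tab_concat, List.getElem?_append_right (by simp)]
  have h4 : i - (tab step (G.take i)).length = 0 := by simp; omega
  rw [h4]; simp

theorem tab_take {G : Gram ρ} {i j : ℕ} (h : j < i) :
    (tab step (G.take i))[j]? = (tab step G)[j]? := by
  by_cases hj : j < (G.take i).length
  · conv_rhs => rw [← List.take_append_drop i G]
    exact (tab_getElem?_append step hj).symm
  · have : G.length ≤ j := by simp at hj; omega
    rw [List.getElem?_eq_none_iff.2 (by rw [length_tab, List.length_take]; omega),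
      List.getElem?_eq_none_iff.2 (by rw [length_tab]; omega)]

theorem tab_map {step' : List σ → GRule ρ → σ} {h : τ → σ}
    (hh : ∀ t r, h (step t r) = step' (t.map h) r) (G : Gram ρ) :
    (tab step G).map h = tab step' G := by
  induction G using List.reverseRecOn with
  | nil => rfl
  | append_singleton G r ih =>
    rw [tab_concat, tab_concat, List.map_append, ih, List.map_singleton, hh, ih]

end tab

theorem V_none {G : Gram ρ} {i : ℕ} (h : G[i]? = some none) : V G i = [] := by
  unfold V; rw [tab_getElem? ruleVal h]; rfl

theorem V_letter {G : Gram ρ} {i : ℕ} {x : Letter ρ} (h : G[i]? = some (some (Sum.inl x))) :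
    V G i = [x] := by
  unfold V; rw [tab_getElem? ruleVal h]; rfl

theorem V_out {G : Gram ρ} {i : ℕ} (h : G.length ≤ i) : V G i = [] := by
  unfold V; rw [List.getElem?_eq_none_iff.2 (by simpa using h)]; rfl

theorem V_cat {G : Gram ρ} (hG : Valid G) {i a b : ℕ} (h : G[i]? = some (some (Sum.inr (a, b)))) :
    V G i = V G a ++ V G b := by
  obtain ⟨ha, hb⟩ := hG i a b h
  unfold V; rw [tab_getElem? ruleVal h]
  simp only [Option.getD_some, ruleVal]
  rw [tab_take ruleVal ha, tab_take ruleVal hb]

theorem V_append {G G' : Gram ρ} {i : ℕ} (h : i < G.length) : V (G ++ G') i = V G i := by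
  unfold V; rw [tab_getElem?_append ruleVal h]

theorem Valid.concat {G : Gram ρ} (hG : Valid G) {r : GRule ρ}
    (hr : ∀ a b, r = some (Sum.inr (a, b)) → a < G.length ∧ b < G.length) : Valid (G ++ [r]) := by
  intro i a b h
  by_cases hi : i < G.length
  · rw [List.getElem?_append_left hi] at h
    exact hG i a b h
  · rw [List.getElem?_append_right (by omega)] at h
    have h0 : i - G.length = 0 := by
      by_contra h1
      rw [List.getElem?_eq_none_iff.2 (by simp; omega)] at h
      simp at h
    rw [h0] at h
    simp at h
    have := hr a b h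
    omega

theorem valid_nil : Valid ([] : Gram ρ) := by intro i a b h; simp at h

theorem Valid.of_append {G G' : Gram ρ} (h : Valid (G ++ G')) : Valid G := by
  intro i a b hi
  refine h i a b ?_
  rw [List.getElem?_append_left]
  · exact hi
  · by_contra h'
    rw [List.getElem?_eq_none_iff.2 (by omega)] at hi
    simp at hi

theorem length_V_lt (G : Gram ρ) (hG : Valid G) (i : ℕ) : (V G i).length ≤ 2 ^ i := by
  induction i using Nat.strong_induction_on with
  | _ i ih =>
    rcases h : G[i]? with _ | r
    · rw [V_out (by rwa [List.getElem?_eq_none_iff] at h)]; simp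
    · rcases r with _ | x | ⟨a, b⟩
      · rw [V_none h]; simp
      · rw [V_letter h]; simp; exact Nat.one_le_two_pow
      · obtain ⟨ha, hb⟩ := hG i a b h
        rw [V_cat hG h, List.length_append]
        have h1 := ih a ha
        have h2 := ih b hb
        have h3 : 2 ^ a ≤ 2 ^ (i - 1) := Nat.pow_le_pow_right (by norm_num) (by omega)
        have h4 : 2 ^ b ≤ 2 ^ (i - 1) := Nat.pow_le_pow_right (by norm_num) (by omega)
        have h5 : 2 ^ i = 2 ^ (i - 1) + 2 ^ (i - 1) := by
          have : i = (i - 1) + 1 := by omega
          conv_lhs => rw [this, pow_succ]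
          ring
        omega

theorem size_V {G : Gram ρ} (hG : Valid G) {i : ℕ} (hi : i < G.length) {l : ℕ}
    (hl : l ≤ (V G i).length) : Nat.size l ≤ G.length := by
  have h1 := length_V_lt G hG i
  rw [Nat.size_le]
  have h2 : 2 ^ i < 2 ^ G.length := Nat.pow_lt_pow_right (by norm_num) hi
  omega

/-! ### Tables of lengths, first and last letters -/

/-- lengths -/
def lenStep (t : List BNz) (r : GRule ρ) : BNz :=
  match r with
  | none => ⟨0⟩
  | some (Sum.inl _) => ⟨1⟩
  | some (Sum.inr p) => ⟨(t[p.1]?.getD ⟨0⟩).val + (t[p.2]?.getD ⟨0⟩).val⟩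

/-- first letters -/
def firstStep (t : List (Option (Letter ρ))) (r : GRule ρ) : Option (Letter ρ) :=
  match r with
  | none => none
  | some (Sum.inl x) => some x
  | some (Sum.inr p) => (t[p.1]?.getD none).or (t[p.2]?.getD none)

/-- last letters -/
def lastStep (t : List (Option (Letter ρ))) (r : GRule ρ) : Option (Letter ρ) :=
  match r with
  | none => none
  | some (Sum.inl x) => some x
  | some (Sum.inr p) => (t[p.2]?.getD none).or (t[p.1]?.getD none)

theorem getD_map {τ σ : Type} (h : τ → σ) (t : List τ) (a : ℕ) (d : τ) :
    h (t[a]?.getD d) = (t.map h)[a]?.getD (h d) := by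
  rw [List.getElem?_map]; cases t[a]? <;> rfl

theorem lens_eq (G : Gram ρ) (i : ℕ) :
    (tab lenStep G)[i]?.getD ⟨0⟩ = ⟨(V G i).length⟩ := by
  have h1 := tab_map ruleVal (step' := lenStep) (h := fun v : List (Letter ρ) => BNz.mk v.length) (by
    intro t r
    rcases r with _ | x | ⟨a, b⟩
    · rfl
    · rfl
    · have ea : ((t.map (fun v : List (Letter ρ) => BNz.mk v.length))[a]?.getD ⟨0⟩) =
          ⟨(t[a]?.getD []).length⟩ :=
        (getD_map (fun v : List (Letter ρ) => BNz.mk v.length) t a []).symm
      have eb : ((t.map (fun v : List (Letter ρ) => BNz.mk v.length))[b]?.getD ⟨0⟩) =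
          ⟨(t[b]?.getD []).length⟩ :=
        (getD_map (fun v : List (Letter ρ) => BNz.mk v.length) t b []).symm
      simp only [ruleVal, lenStep, List.length_append, ea, eb]) G
  rw [← h1, V]
  exact (getD_map (fun v : List (Letter ρ) => BNz.mk v.length) _ i []).symm

theorem firsts_eq (G : Gram ρ) (i : ℕ) :
    (tab firstStep G)[i]?.getD none = (V G i).head? := by
  have h1 := tab_map ruleVal (step' := firstStep) (h := fun v : List (Letter ρ) => v.head?) (by
    intro t r
    rcases r with _ | x | ⟨a, b⟩
    · rfl
    · rfl
    · have ea : ((t.map (fun v : List (Letter ρ) => v.head?))[a]?.getD none) =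
          (t[a]?.getD []).head? :=
        (getD_map (fun v : List (Letter ρ) => v.head?) t a []).symm
      have eb : ((t.map (fun v : List (Letter ρ) => v.head?))[b]?.getD none) =
          (t[b]?.getD []).head? :=
        (getD_map (fun v : List (Letter ρ) => v.head?) t b []).symm
      simp only [ruleVal, firstStep, List.head?_append, ea, eb]) G
  rw [← h1, V]
  exact (getD_map (fun v : List (Letter ρ) => v.head?) _ i []).symm

theorem lasts_eq (G : Gram ρ) (i : ℕ) :
    (tab lastStep G)[i]?.getD none = (V G i).getLast? := by
  have h1 := tab_map ruleVal (step' := lastStep) (h := fun v : List (Letter ρ) => v.getLast?) (by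
    intro t r
    rcases r with _ | x | ⟨a, b⟩
    · rfl
    · rfl
    · have ea : ((t.map (fun v : List (Letter ρ) => v.getLast?))[a]?.getD none) =
          (t[a]?.getD []).getLast? :=
        (getD_map (fun v : List (Letter ρ) => v.getLast?) t a []).symm
      have eb : ((t.map (fun v : List (Letter ρ) => v.getLast?))[b]?.getD none) =
          (t[b]?.getD []).getLast? :=
        (getD_map (fun v : List (Letter ρ) => v.getLast?) t b []).symm
      simp only [ruleVal, lastStep, List.getLast?_append, ea, eb]) G
  rw [← h1, V]
  exact (getD_map (fun v : List (Letter ρ) => v.getLast?) _ i []).symm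

/-! ### Polynomial time -/

section PT

variable {α β γ τ : Type} [Enc α] [Enc β] [Enc γ] [Enc τ]

theorem PT.getDv {f : α → ℕ} {g : α → List β} (hf : PT f) (hg : PT g) (d : β) :
    PT (fun a => (g a)[f a]?.getD d) :=
  (PT.optCases (f := fun a => (g a)[f a]?) (g := fun _ => d) (h := fun _ b => b)
    (hf.getElem? hg) (PT.const d) PT.snd).congr (fun a => by cases (g a)[f a]? <;> rfl)

theorem PT.ruleCases {f : α → GRule ρ} {g : α → γ} {h : α → Letter ρ → γ} {k : α → ℕ × ℕ → γ}
    (hf : PT f) (hg : PT g) (hh : PT (fun x : α × Letter ρ => h x.1 x.2))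
    (hk : PT (fun x : α × (ℕ × ℕ) => k x.1 x.2)) :
    PT (fun a => match f a with
      | none => g a
      | some (Sum.inl x) => h a x
      | some (Sum.inr p) => k a p) := by
  have h1 : PT (fun x : α × (Letter ρ ⊕ ℕ × ℕ) => Sum.elim (h x.1) (k x.1) x.2) :=
    (PT.sumCases (f := fun x : α × (Letter ρ ⊕ ℕ × ℕ) => x.2) (g := fun x y => h x.1 y)
      (h := fun x p => k x.1 p) PT.snd
      (hh.comp (PT.fst.fst'.pair PT.snd)) (hk.comp (PT.fst.fst'.pair PT.snd))).congr
      (fun x => by cases x.2 <;> rfl)
  refine (PT.optCases (h := fun a y => Sum.elim (h a) (k a) y) hf hg h1).congr (fun a => ?_)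
  rcases f a with _ | x | p <;> rfl

theorem size_getD_le (t : List β) (i : ℕ) (d : β) : size (t[i]?.getD d) ≤ size t + size d := by
  rcases h : t[i]? with _ | b
  · simp
  · have := size_mem_lt (List.mem_of_getElem? h)
    simp only [Option.getD_some]; omega

theorem PT.tab {f : α → Gram ρ} (hf : PT f) {step : List τ → GRule ρ → τ}
    (hs : PT (fun x : List τ × GRule ρ => step x.1 x.2)) (P : Polynomial ℕ)
    (hB : ∀ G : Gram ρ, ∀ b ∈ tab step G, size b ≤ P.eval (size G)) :
    PT (fun a => tab step (f a)) := by
  obtain ⟨p, hp⟩ := hf.size_le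
  refine PT.foldl (f := f) (init := fun _ => ([] : List τ)) (step := fun _ t r => t ++ [step t r])
    hf (PT.const _) (PT.append PT.snd.fst' (PT.list1 (hs.comp PT.snd)))
    (B := fun n => p.eval n * (P.eval (p.eval n) + 1) + 1)
    (((PB.poly p).mul ((PB.comp P (PB.poly p)).add (PB.const 1))).add (PB.const 1)) ?_
  rintro a l' ⟨t, ht⟩
  have h1 : ∀ b ∈ All.tab step l', size b ≤ P.eval (p.eval (size a)) := by
    intro b hb
    have h2 : b ∈ All.tab step (f a) := by
      rw [← ht]; exact (tab_prefix step l' t).subset hb
    exact (hB _ b h2).trans (eval_mono P (hp a))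
  have h3 := size_list_le _ h1
  rw [length_tab] at h3
  refine h3.trans ?_
  have h4 : l'.length ≤ p.eval (size a) := by
    have := length_le_size (f a)
    rw [← ht, List.length_append] at this
    have := hp a
    rw [← ht] at this
    omega
  have := Nat.mul_le_mul_right (P.eval (p.eval (size a)) + 1) h4
  omega


theorem size_letter_le (x : Letter ρ) : size x ≤ 2 * ρ + 10 := by
  obtain ⟨i, s⟩ := x
  have h1 : size i = size i.val := rfl
  have h2 : size s ≤ 3 := size_bool_le_z s
  have h3 := size_nat i.val
  have h4 := i.isLt
  rw [size_prod]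
  simp only
  omega

theorem size_optionLetter_le (o : Option (Letter ρ)) : size o ≤ 2 * ρ + 20 := by
  rcases o with _ | x
  · show (1 : ℕ) ≤ _
    omega
  · have h1 := size_letter_le x
    have h2 : size (some x) = size x + 2 := by
      show (BT.node (enc x) BT.leaf).size = _
      rw [BT.size_node, BT.size_leaf]; rfl
    omega

theorem PT.or' {f g : α → Option β} (hf : PT f) (hg : PT g) : PT (fun a => (f a).or (g a)) :=
  (PT.optCases (h := fun _ b => some b) hf hg PT.snd.some).congr (fun a => by
    cases f a <;> simp)

theorem PT.lens {f : α → Gram ρ} (hf : PT f) : PT (fun a => All.tab lenStep (f a)) := by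
  refine PT.tab hf ?_ (Polynomial.C 4 * Polynomial.X + 5) ?_
  · exact PT.ruleCases PT.snd (PT.const _) (PT.const _) (PT.bnzAdd
      (PT.getDv PT.snd.fst' PT.fst.fst' _) (PT.getDv PT.snd.snd' PT.fst.fst' _))
  · intro G b hb
    have key : ∀ G : Gram ρ, ∀ b ∈ All.tab lenStep G, b.val ≤ 2 ^ G.length := by
      intro G
      induction G using List.reverseRecOn with
      | nil => simp
      | append_singleton G r ih =>
        intro b hb
        have hget : ∀ i : ℕ, ((All.tab lenStep G)[i]?.getD ⟨0⟩).val ≤ 2 ^ G.length := by
          intro i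
          rcases h : (All.tab lenStep G)[i]? with _ | c
          · simp
          · exact ih c (List.mem_of_getElem? h)
        rw [tab_concat, List.mem_append, List.mem_singleton] at hb
        rw [List.length_append, List.length_singleton, pow_succ]
        rcases hb with hb | rfl
        · have := ih b hb; omega
        · have := Nat.one_le_two_pow (n := G.length)
          rcases r with _ | x | p
          · simp [lenStep]
          · simp only [lenStep]; omega
          · simp only [lenStep]
            have h1 := hget p.1
            have h2 := hget p.2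
            omega
    have h1 := key G b hb
    have h2 : Nat.size b.val ≤ G.length + 1 := by
      rw [Nat.size_le]
      have := Nat.one_le_two_pow (n := G.length)
      rw [pow_succ]; omega
    have h3 := size_bn_le b
    have h4 := length_le_size G
    simp only [Polynomial.eval_add, Polynomial.eval_mul, Polynomial.eval_C, Polynomial.eval_X,
      Polynomial.eval_ofNat]
    omega

theorem PT.firsts {f : α → Gram ρ} (hf : PT f) : PT (fun a => All.tab firstStep (f a)) := by
  refine PT.tab hf ?_ (Polynomial.C (2 * ρ + 20)) ?_
  · exact PT.ruleCases PT.snd (PT.const _) PT.snd.some (PT.or'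
      (PT.getDv PT.snd.fst' PT.fst.fst' _) (PT.getDv PT.snd.snd' PT.fst.fst' _))
  · intro G b _
    simpa using size_optionLetter_le b

theorem PT.lasts {f : α → Gram ρ} (hf : PT f) : PT (fun a => All.tab lastStep (f a)) := by
  refine PT.tab hf ?_ (Polynomial.C (2 * ρ + 20)) ?_
  · exact PT.ruleCases PT.snd (PT.const _) PT.snd.some (PT.or'
      (PT.getDv PT.snd.snd' PT.fst.fst' _) (PT.getDv PT.snd.fst' PT.fst.fst' _))
  · intro G b _
    simpa using size_optionLetter_le b

end PT

end Pool.Agent.Lib.MP_0c2883_lc.All
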