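import Pool.Agent.Lib.MP_0c2883_lc.All.SBStmts

/-!
# The measure which decreases in each step of the algorithm
-/

set_option autoImplicit false

namespace Pool.Agent.Lib.MP_0c2883_lc.All

open Pool.Agent.Lib.PolyTime List

namespace St

variable {M : ℕ}

/-- The invariants at the scales `Bb ^ j`. -/
noncomputable def yv (μ : St M) (j : ℕ) : ℕ := μ.Y (Bb M ^ j)

/-- The band (its bottom index) of a weight. -/
noncomputable def bt (μ : St M) (w : ℕ) : ℕ := bot μ.yv (Nat.log (Bb M) w)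

/-- The potential. -/
noncomputable def Pot (μ : St M) : ℕ := ∑ i : Fin M,
  if μ.x (i, true) = 0 then 0
  else 2 * Kk M * μ.x (i, true) / Bb M ^ μ.bt (μ.x (i, true))

/-- Number of unused letters. -/
def unused (μ : St M) : ℕ := (Finset.univ.filter (fun i : Fin M => μ.x (i, true) = 0)).card

/-- The half-edges in the bands up to `l`. -/
def Lam (μ : St M) (l : ℕ) (p : Letter M) : Prop := 0 < μ.x p ∧ μ.bt (μ.x p) ≤ l

/-- The lowest band of a candidate (or `J`). -/
noncomputable def lam (μ : St M) (J : ℕ) : ℕ :=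
  sInf {l | l = J ∨ ∃ C a, μ.Cand C a ∧ μ.bt (μ.h C) = l}

open Classical in
/-- Number of pairs in `L` not connected inside `L`. -/
noncomputable def ncp (μ : St M) (L : Letter M → Prop) : ℕ :=
  (Finset.univ.filter (fun z : Letter M × Letter M => L z.1 ∧ L z.2 ∧ ¬ μ.ConnL L z.1 z.2)).card

/-- The cluster of `p` in `L` is joined to exactly one half-edge outside `L`. -/
def Free (μ : St M) (L : Letter M → Prop) (p : Letter M) : Prop :=
  L p ∧ ∃ b, ¬ L b ∧ (∃ q, μ.ConnL L p q ∧ 0 < μ.m q b) ∧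
    ∀ q r, μ.ConnL L p q → 0 < μ.m q r → ¬ L r → r = b

open Classical in
noncomputable def frh (μ : St M) (L : Letter M → Prop) : ℕ :=
  (Finset.univ.filter (fun p : Letter M => μ.Free L p)).card

/-- The quiet part of the measure. -/
noncomputable def quiet (μ : St M) (J : ℕ) : ℕ :=
  (J - μ.lam J) * ((4 * M * M + 1) * (2 * M + 1)) +
    μ.ncp (μ.Lam (μ.lam J)) * (2 * M + 1) + μ.frh (μ.Lam (μ.lam J))

/-- An upper bound for the quiet part (plus one). -/
def A2 (M J : ℕ) : ℕ := (J + 2) * ((4 * M * M + 1) * (2 * M + 1))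

/-- The measure. -/
noncomputable def Psi (μ : St M) (J : ℕ) : ℕ :=
  μ.Pot * ((M + 1) * A2 M J) + μ.unused * A2 M J + μ.quiet J

end St

/-- Nonempty chains of slides of `C` along letters outside `L`, never using up the letter. -/
inductive QChain {M : ℕ} (C : Letter M → Bool) (L : Letter M → Prop) : St M → St M → Prop
  | single (μ μ' : St M) (a : Letter M) (hC : μ.Cand C a) (hs : ASlide μ μ' C a) (hL : ¬ L a) :
      QChain C L μ μ'
  | tail (μ μ' μ'' : St M) (a : Letter M) (hc : QChain C L μ μ') (hC : μ'.Cand C a)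
      (hs : ASlide μ' μ'' C a) (hL : ¬ L a) : QChain C L μ μ''

/-- A quiet step: one in which neither the invariants nor the potential change. -/
def QuietStep {M : ℕ} (μ μ' : St M) : Prop :=
  ∃ (C : Letter M → Bool) (a : Letter M), μ.Cand C a ∧
    (∀ C' a', μ.Cand C' a' → μ.h C ≤ μ.h C') ∧
    QChain C (μ.Lam (μ.bt (μ.h C))) μ μ' ∧
    (∀ b, μ'.Ok C b → μ'.x b < μ.h C + μ'.n C b) ∧
    (∀ p, μ'.bt (μ'.x p) = μ.bt (μ.x p) ∧ (μ'.x p = 0 ↔ μ.x p = 0)) ∧
    μ'.yv = μ.yv

/-- SBQ: quiet steps decrease the quiet part of the measure. -/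
def QuietStmt : Prop := ∀ (M : ℕ) (μ μ' : St M) (J : ℕ), (∀ p, μ.x p < Bb M ^ J) →
  QuietStep μ μ' → μ'.quiet J < μ.quiet J

/-- SBP: steps which do not change the invariants decrease the potential, or keep it and use up an
unused letter, or are quiet. -/
def PotStmt : Prop := ∀ (M : ℕ) (μ μ' : St M), AStep (Kk M) μ μ' → μ'.yv = μ.yv →
  μ'.Pot < μ.Pot ∨ (μ'.Pot ≤ μ.Pot ∧ μ'.unused < μ.unused) ∨
    (μ'.Pot ≤ μ.Pot ∧ μ'.unused = μ.unused ∧ QuietStep μ μ')

/-- SBY: the invariants do not increase in a step (and weights do not increase). -/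
def YStepStmt : Prop := ∀ (M : ℕ) (μ μ' : St M), AStep (Kk M) μ μ' →
  (∀ j, μ'.yv j ≤ μ.yv j) ∧ (∀ S, (∀ p, μ.x p ≤ S) → ∀ p, μ'.x p ≤ S)

end Pool.Agent.Lib.MP_0c2883_lc.All
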