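import Pool.Agent.Lib.MP_0c2883_lc.All.RedPT
import Pool.Agent.Lib.MP_0c2883_lc.All.Prim
import Pool.Agent.Lib.MP_0c2883_lc.All.AlgStmts
import Pool.Agent.Lib.MP_0c2883_lc.All.SBMeas

/-!
# The main theorem from the statements of the modules
-/

set_option autoImplicit false

namespace Pool.Agent.Lib.MP_0c2883_lc.All

open Pool.Agent.Lib.PolyTime List

namespace Main

/-- evaluation of a polynomial at a unary number -/
theorem polyEval {α : Type} [Enc α] (p : Polynomial ℕ) {f : α → ℕ} (hf : PT f) :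
    PT (fun a => p.eval (f a)) := by
  induction p using Polynomial.induction_on with
  | C c => exact (PT.const c).congr (fun a => by simp)
  | add p q hp hq => exact (PT.add hp hq).congr (fun a => by simp)
  | monomial n c h =>
    exact (PT.mul h hf).congr (fun a => by
      simp [pow_succ, mul_assoc])

variable {M : ℕ}

/-- the length of the word of a grammar -/
def ln (z : Gram M × ℕ) : BNz := (tab lenStep z.1)[z.2]?.getD ⟨0⟩

theorem ln_eq (z : Gram M × ℕ) : ln z = ⟨(wd z).length⟩ := lens_eq z.1 z.2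

theorem ptLn : PT (fun z : Gram M × ℕ => ln z) :=
  PT.getDv PT.snd (PT.lens PT.fst) _

/-- sizes of good grammars with an index -/
theorem size_gi {z : Gram M × ℕ} (h : GI z) {N : ℕ} (hN : z.1.length ≤ N) :
    size z ≤ (4 * N + (2 * M + 22)) * (N + 2) + 2 * N + 10 := by
  obtain ⟨G, i⟩ := z
  have hN' : G.length ≤ N := hN
  have h1 : ∀ r ∈ G, size r ≤ 4 * G.length + (2 * M + 20) := size_valid h.1.1
  have h2 := size_list_le (S := 4 * N + (2 * M + 20)) G (fun r hr => by
    have := h1 r hr; omega)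
  have h3 : i < G.length := h.2
  have h4 : size i = 2 * i + 1 := size_nat i
  have h6 : size (G, i) = size G + size i + 1 := size_prod (G, i)
  rw [h6, h4]
  have h5 : size G ≤ N * (4 * N + (2 * M + 20) + 1) + 1 :=
    h2.trans (by gcongr)
  nlinarith

/-- words of good grammars are not longer than `2 ^ length` -/
theorem length_wd {z : Gram M × ℕ} (h : GI z) : (wd z).length ≤ 2 ^ z.1.length :=
  (length_V_lt z.1 h.1.1 z.2).trans (Nat.pow_le_pow_right (by norm_num) h.2.le)

theorem hasSLP_wd {z : Gram M × ℕ} (h : GI z) : HasSLP z.1.length (wd z) :=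
  ⟨z.1, h.1, le_rfl, z.2, h.2, rfl⟩

/-- conjugation invariance of primitivity -/
theorem isPrim_conj {β : Type} {g k : FreeGroup β} (h : IsConj g k) (hg : IsPrim g) :
    IsPrim k := by
  obtain ⟨c, hc⟩ := isConj_iff.1 h
  have := Prim.isPrim_equiv (MulAut.conj c) hg
  rwa [MulAut.conj_apply, hc] at this

theorem isPrim_conj_iff {β : Type} {g k : FreeGroup β} (h : IsConj g k) :
    IsPrim g ↔ IsPrim k := ⟨isPrim_conj h, isPrim_conj h.symm⟩

theorem isPrim_single (x : Letter M) : IsPrim (FreeGroup.mk [x]) := by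
  rcases x with ⟨i, s⟩
  cases s
  · rw [Prim.mk_single_false]; exact Prim.isPrim_of_inv i
  · exact Prim.isPrim_of i

/-- rotations are conjugate -/
theorem isConj_of_rot {w w' : List (Letter M)} (h : w' ~r w) :
    IsConj (FreeGroup.mk w') (FreeGroup.mk w) := by
  obtain ⟨n, hn, rfl⟩ := isRotated_iff_mod.1 h
  rw [isConj_iff]
  refine ⟨(FreeGroup.mk (w'.take n))⁻¹, ?_⟩
  rw [List.rotate_eq_drop_append_take hn, ← FreeGroup.mul_mk, inv_inv]
  conv_lhs => rw [← List.take_append_drop n w', ← FreeGroup.mul_mk]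
  rw [List.take_append_drop]
  group

/-- elementary steps preserve cyclic reducedness and primitivity -/
theorem step1 (hSl : SlideStmt) (hSp : SplitStmt) (hOf : OfStmt) {w w' : List (Letter M)}
    (hw : CR w) (h : Step1 w w') :
    CR w' ∧ (IsPrim (FreeGroup.mk w) ↔ IsPrim (FreeGroup.mk w')) := by
  rcases h with ⟨C, a, h, hw'⟩ | ⟨C, a, f, h, hf, hCf, hCf', haf, hw'⟩
  · obtain ⟨h1, -, -, φ, hφ⟩ := hSl M w C a hw h
    refine ⟨((hOf M _ h1).2.2 w' hw').1, ?_⟩
    rw [isPrim_conj_iff (isConj_of_rot hw'), ← hφ]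
    exact ⟨Prim.isPrim_equiv φ, fun h => by
      have := Prim.isPrim_equiv φ.symm h
      rwa [MulEquiv.symm_apply_apply] at this⟩
  · obtain ⟨h1, -, φ, hφ⟩ := hSp M w C a f hw h hf hCf hCf' haf
    refine ⟨((hOf M _ h1).2.2 w' hw').1, ?_⟩
    rw [isPrim_conj_iff (isConj_of_rot hw'), ← hφ]
    exact ⟨Prim.isPrim_equiv φ, fun h => by
      have := Prim.isPrim_equiv φ.symm h
      rwa [MulEquiv.symm_apply_apply] at this⟩

theorem reach (hSl : SlideStmt) (hSp : SplitStmt) (hOf : OfStmt) {w w' : List (Letter M)}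
    (hw : CR w) (h : Reach w w') :
    CR w' ∧ (IsPrim (FreeGroup.mk w) ↔ IsPrim (FreeGroup.mk w')) := by
  induction h with
  | refl => exact ⟨hw, Iff.rfl⟩
  | tail _ h ih =>
    obtain ⟨h1, h2⟩ := step1 hSl hSp hOf ih.1 h
    exact ⟨h1, ih.2.trans h2⟩

theorem wt_le (p : Letter M) (w : List (Letter M)) : w.count p + w.count (linv p) ≤ w.length := by
  induction w with
  | nil => simp
  | cons x w ih =>
    rw [List.count_cons, List.count_cons, List.length_cons]
    by_cases h1 : x = p
    · subst h1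
      have h2 : ¬ (x = linv x) := fun h => linv_ne x h.symm
      simp [h2]; omega
    · have h3 : (if (x == p) = true then 1 else 0) = 0 := by simp [h1]
      have h4 : (if (x == linv p) = true then 1 else 0) ≤ 1 := by split_ifs <;> omega
      omega

theorem HasSLP.mono {m n : ℕ} (h : m ≤ n) {u : List (Letter M)} (hu : HasSLP m u) :
    HasSLP n u := by
  obtain ⟨G, h1, h2, h3⟩ := hu
  exact ⟨G, h1, h2.trans h, h3⟩

/-- number of rounds and final test -/
theorem final_aux (hXs : XStepStmt) (hFree : FreeStmt) (hOf : OfStmt) {r : ℕ}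
    (hr : 1 ≤ r) (z : ℕ → Gram (3 * r) × ℕ)
    (hz : ∀ t, GI (z t) ∧ CR (wd (z t)) ∧ wd (z t) ≠ [])
    (hstep : ∀ t, ((∃ c a, MergeAt (wd (z t)) c a) ∨ ((∃ C a, Cand (wd (z t)) C a) ∧
        ∃ f : Letter (3 * r), ∀ x ∈ wd (z t), x.1 ≠ f.1)) →
      ∀ μ : St (3 * r), μ.Of (wd (z t)) → ∃ μ' : St (3 * r), μ'.Of (wd (z (t + 1))) ∧
        AStep (Kk (3 * r)) μ μ')
    (h0 : ∀ μ : St (3 * r), μ.Of (wd (z 0)) → μ.X 1 + 1 ≤ r)
    {T : ℕ → ℕ} (hT : ∀ (n N : ℕ) (run : ℕ → St (3 * r)), (∀ p, (run 0).x p ≤ 2 ^ n) →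
      (∀ i < N, AStep (Kk (3 * r)) (run i) (run (i + 1))) → N ≤ T n)
    (N : ℕ) (hN : T (z 0).1.length < N) :
    ∃ t < N, (¬ ∃ c a, MergeAt (wd (z t)) c a) ∧ ¬ ∃ C a, Cand (wd (z t)) C a := by
  by_contra hcon
  push Not at hcon
  obtain ⟨μ0, hμ0⟩ := (hOf _ _ (hz 0).2.1).1
  have key : ∀ n ≤ N, ∃ run : ℕ → St (3 * r), (∀ i ≤ n, (run i).Of (wd (z i))) ∧
      (∀ i < n, AStep (Kk (3 * r)) (run i) (run (i + 1))) ∧ (run n).X 1 + 1 ≤ r := by
    intro n
    induction n with
    | zero =>
      intro _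
      refine ⟨fun _ => μ0, ?_, by simp, h0 μ0 hμ0⟩
      intro i hi
      have : i = 0 := by omega
      subst this
      exact hμ0
    | succ n ih =>
      intro hn
      obtain ⟨run, h1, h2, h3⟩ := ih (by omega)
      have hc := hcon n (by omega)
      have h4 : (∃ c a, MergeAt (wd (z n)) c a) ∨ ((∃ C a, Cand (wd (z n)) C a) ∧
          ∃ f : Letter (3 * r), ∀ x ∈ wd (z n), x.1 ≠ f.1) := by
        by_cases hm : ∃ c a, MergeAt (wd (z n)) c a
        · exact Or.inl hm
        · right
          obtain ⟨C, a, hC⟩ := hc (by push Not at hm; exact hm)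
          refine ⟨⟨C, a, hC⟩, ?_⟩
          have hlen : 2 ≤ (wd (z n)).length := by
            by_contra hl
            have hne := (hz n).2.2
            have hl1 : (wd (z n)).length = 1 := by
              have := List.length_pos_iff.2 hne
              omega
            obtain ⟨x, hx⟩ := List.length_eq_one_iff.1 hl1
            rw [hx] at hC
            have htm : ∀ p q : Letter (3 * r), 0 < tm [x] p q →
                (p = linv x ∧ q = x) ∨ (p = x ∧ q = linv x) := by
              intro p q hpq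
              unfold tm tc at hpq
              simp only [cpairs, List.rotate_singleton, List.zip_cons_cons, List.zip_nil_right,
                List.countP_cons, List.countP_nil, Nat.zero_add] at hpq
              by_cases e1 : (x, x) = (linv p, q)
              · simp only [Prod.mk.injEq] at e1
                left
                exact ⟨by rw [e1.1, linv_linv], e1.2.symm⟩
              · by_cases e2 : (x, x) = (linv q, p)
                · simp only [Prod.mk.injEq] at e2
                  right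
                  exact ⟨e2.2.symm, by rw [e2.1, linv_linv]⟩
                · simp [e1, e2] at hpq
            obtain ⟨c, hc1, hc2⟩ := hC.exit
            rcases htm c a hc2 with ⟨h5, h6⟩ | ⟨h5, h6⟩
            · have := hC.ok.a_inv_not
              rw [h6, ← h5, hc1] at this
              exact absurd this (by simp)
            · have := hC.ok.a_inv_not
              rw [h6, linv_linv, ← h5, hc1] at this
              exact absurd this (by simp)
          exact hFree (3 * r) r (wd (z n)) (run n) (hz n).2.1 hlen hr le_rfl (h1 n le_rfl) h3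
            (by push Not at hm; exact hm) ⟨C, a, hC⟩
      obtain ⟨μ', h5, h6⟩ := hstep n h4 (run n) (h1 n le_rfl)
      refine ⟨fun i => if i ≤ n then run i else μ', ?_, ?_, ?_⟩
      · intro i hi
        by_cases hin : i ≤ n
        · simp only [hin, if_true]; exact h1 i hin
        · have : i = n + 1 := by omega
          subst this
          simp only [hin, if_false]; exact h5
      · intro i hi
        by_cases hin : i < n
        · have e1 : i ≤ n := by omega
          have e2 : i + 1 ≤ n := by omega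
          simp only [e1, e2, if_true]; exact h2 i hin
        · have : i = n := by omega
          subst this
          have e2 : ¬ i + 1 ≤ i := by omega
          simp only [le_refl, e2, if_true, if_false]; exact h6
      · have e2 : ¬ n + 1 ≤ n := by omega
        simp only [e2, if_false]
        exact (Nat.add_le_add_right (hXs _ _ _ h6) 1).trans h3
  obtain ⟨run, h1, h2, -⟩ := key N le_rfl
  have h3 := hT (z 0).1.length N run (by
    intro p
    rw [(hOf _ _ (hz 0).2.1).2.1 (run 0) (h1 0 (by omega)) p]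
    refine le_trans ?_ (length_wd (hz 0).1)
    unfold wt
    exact wt_le p (wd (z 0))) h2
  omega

end Main

open Main in
/-- The main theorem from the statements of the modules. -/
theorem main_of (hRC : RCStmt) (hSG : SGStmt) (hAlg : AlgStmt) (hSB : SBStmt)
    (hXs : XStepStmt) (hXi : XInitStmt) (hFree : FreeStmt) (hWL : WLStmt) (hPQ : PrimPQStmt)
    (hMap : PrimMapStmt) (hSl : SlideStmt) (hSp : SplitStmt) (hOf : OfStmt) (hInit : InitStmt) :
    MainStmt := by
  intro r
  have hrM : r ≤ 3 * r := by omega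
  obtain ⟨rc, P1, hrcPT, ⟨p1, hp1⟩, hrc⟩ := hRC (3 * r)
  obtain ⟨stp, hstpPT, hstp⟩ := hAlg (3 * r)
  obtain ⟨ini, hiniPT, hini⟩ := hInit r (3 * r) hrM
  obtain ⟨P2, ⟨p2, hp2⟩, hSG'⟩ := hSG (3 * r)
  obtain ⟨T, ⟨q, hq⟩, hT⟩ := hSB (3 * r)
  let e : Gram (3 * r) × ℕ → Bool := fun z => decide ((ln z).val = 0)
  let step' : Gram (3 * r) × ℕ → Gram (3 * r) × ℕ := fun z => if e z then z else rc (stp z)
  let z0 : List (SRule r) → Gram (3 * r) × ℕ := fun W => rc (ini W)
  let N : List (SRule r) → ℕ := fun W => q.eval ((z0 W).1.length) + 1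
  have he : ∀ z, e z = true ↔ wd z = [] := by
    intro z
    show decide ((ln z).val = 0) = true ↔ _
    rw [ln_eq, decide_eq_true_iff, List.length_eq_zero_iff]
  have hrcI : ∀ z, GI z → GI (rc z) ∧ wd (rc z) = wd z ∧
      ∀ n, HasSLP n (wd z) → (rc z).1.length ≤ P1 n := by
    intro z hz
    obtain ⟨h1, h2, h3, h4⟩ := hrc z.1 z.2 hz.1 hz.2
    exact ⟨⟨h1, h2⟩, h3, h4⟩
  have hz0 : ∀ W, GI (z0 W) ∧ wd (z0 W) = wd (ini W) := fun W =>
    ⟨(hrcI _ (hini W).1).1, (hrcI _ (hini W).1).2.1⟩
  have hz0CR : ∀ W, CR (wd (z0 W)) := fun W => by rw [(hz0 W).2]; exact (hini W).2.1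
  -- one step
  have hone : ∀ z, GI z → CR (wd z) → wd z ≠ [] → step' z = rc (stp z) ∧ GI (step' z) ∧
      CR (wd (step' z)) ∧ wd (step' z) ≠ [] ∧ wd (step' z) = wd (stp z) := by
    intro z hz hcr hne
    have h1 : step' z = rc (stp z) := by
      show (if e z = true then z else rc (stp z)) = _
      rw [if_neg (by rw [he]; exact hne)]
    obtain ⟨h2, h3, h4, h5, -, -⟩ := hstp z hz hcr hne
    obtain ⟨h6, h7, -⟩ := hrcI _ h2
    rw [h1]
    exact ⟨rfl, h6, by rw [h7]; exact h3, by rw [h7]; exact h4, h7⟩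
  have hzero : ∀ z, wd z = [] → step' z = z := by
    intro z hz
    show (if e z = true then z else rc (stp z)) = _
    rw [if_pos ((he z).2 hz)]
  -- invariants
  have inv : ∀ W t, wd (z0 W) ≠ [] → GI (step'^[t] (z0 W)) ∧ CR (wd (step'^[t] (z0 W))) ∧
      wd (step'^[t] (z0 W)) ≠ [] ∧ Reach (wd (z0 W)) (wd (step'^[t] (z0 W))) ∧
      (step'^[t] (z0 W)).1.length ≤ (z0 W).1.length + P1 (P2 (z0 W).1.length) := by
    intro W t hne
    induction t with
    | zero => exact ⟨(hz0 W).1, hz0CR W, hne, Relation.ReflTransGen.refl, by simp⟩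
    | succ t ih =>
      obtain ⟨h1, h2, h3, h4, -⟩ := ih
      rw [Function.iterate_succ_apply']
      obtain ⟨h5, h6, h7, h8, h9⟩ := hone _ h1 h2 h3
      have h10 := hstp _ h1 h2 h3
      have h11 : Reach (wd (z0 W)) (wd (stp (step'^[t] (z0 W)))) := h4.trans h10.2.2.2.1
      refine ⟨h6, h7, h8, by rw [h9]; exact h11, ?_⟩
      rw [h5]
      have h12 := hSG' _ _ _ (hz0CR W) hne h11 (hasSLP_wd (hz0 W).1)
      exact ((hrcI _ h10.1).2.2 _ h12).trans (by omega)
  have inv0 : ∀ W t, wd (z0 W) = [] → step'^[t] (z0 W) = z0 W := by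
    intro W t h
    induction t with
    | zero => rfl
    | succ t ih => rw [Function.iterate_succ_apply', ih, hzero _ h]
  have hlen : ∀ W t, GI (step'^[t] (z0 W)) ∧
      (step'^[t] (z0 W)).1.length ≤ (z0 W).1.length + P1 (P2 (z0 W).1.length) := by
    intro W t
    by_cases h : wd (z0 W) = []
    · rw [inv0 W t h]; exact ⟨(hz0 W).1, by omega⟩
    · exact ⟨(inv W t h).1, (inv W t h).2.2.2.2⟩
  -- polynomial time
  have hz0PT : PT z0 := hrcPT.comp hiniPT
  have hePT : PT e := (PT.bnzEq ptLn (PT.const ⟨0⟩)).congr (fun z => rfl)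
  have hstep'PT : PT step' := (PT.cond hePT PT.id (hrcPT.comp hstpPT)).congr (fun z => rfl)
  have hNPT : PT N := PT.addConst (polyEval q (PT.length (hz0PT.fst'))) 1
  obtain ⟨p0, hp0⟩ := hz0PT.size_le
  have hlen0 : ∀ W, (z0 W).1.length ≤ p0.eval (size W) := by
    intro W
    have h1 := hp0 W
    have h2 : (z0 W).1.length ≤ size (z0 W).1 := length_le_size _
    have h3 : size (z0 W) = size (z0 W).1 + size (z0 W).2 + 1 := size_prod _
    omega
  let NN : ℕ → ℕ := fun s => p0.eval s + p1.eval (p2.eval (p0.eval s))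
  have hNN : PB NN := PB.add (PB.poly p0) (PB.comp p1 (PB.comp p2 (PB.poly p0)))
  let BB : ℕ → ℕ := fun s => (4 * NN s + (2 * (3 * r) + 22)) * (NN s + 2) + 2 * NN s + 10
  have hBB : PB BB := PB.add (PB.add (PB.mul (PB.add (PB.mul (PB.const 4) hNN) (PB.const _))
    (PB.add hNN (PB.const 2))) (PB.mul (PB.const 2) hNN)) (PB.const 10)
  have hitPT : PT (fun W => step'^[N W] (z0 W)) := by
    refine PT.iterate (f := N) (init := z0) (step := fun _ z => step' z) hNPT hz0PT
      (hstep'PT.comp PT.snd) hBB ?_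
    intro W t _
    refine size_gi (hlen W t).1 ?_
    refine (hlen W t).2.trans ?_
    have h1 := hlen0 W
    have h2 : P1 (P2 (z0 W).1.length) ≤ p1.eval (P2 (z0 W).1.length) := hp1 _
    have h3 : p1.eval (P2 (z0 W).1.length) ≤ p1.eval (p2.eval (p0.eval (size W))) :=
      eval_mono p1 ((hp2 _).trans (eval_mono p2 h1))
    show _ ≤ p0.eval (size W) + p1.eval (p2.eval (p0.eval (size W)))
    omega
  refine ⟨fun W => decide ((ln (step'^[N W] (z0 W))).val = (BNz.mk 1).val),
    PT.bnzEq (ptLn.comp hitPT) (PT.const (BNz.mk 1)), ?_⟩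
  intro W
  rw [decide_eq_true_iff, ln_eq]
  have hprim : IsPrim (FreeGroup.mk (eval W)) ↔ IsPrim (FreeGroup.mk (wd (z0 W))) := by
    rw [← hMap r (3 * r) hrM, (hz0 W).2]
    exact (isPrim_conj_iff (hini W).2.2.2).symm
  rw [hprim]
  by_cases hne : wd (z0 W) = []
  · rw [inv0 W _ hne, hne]
    constructor
    · intro h; simp at h
    · intro h
      exfalso
      have h1 := (hPQ _ _).1 h
      rw [← FreeGroup.one_eq_mk] at h1
      exact Prim.not_pq_one h1
  · have hr : 1 ≤ r := by
      obtain ⟨x, hx⟩ := List.exists_mem_of_ne_nil _ hne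
      rw [(hz0 W).2] at hx
      have := (hini W).2.2.1 x hx
      omega
    obtain ⟨t, ht, hm, hc⟩ := final_aux hXs hFree hOf hr (fun t => step'^[t] (z0 W))
      (fun t => ⟨(inv W t hne).1, (inv W t hne).2.1, (inv W t hne).2.2.1⟩)
      (by
        intro t h μ hμ
        have h1 := inv W t hne
        obtain ⟨-, -, -, -, h2⟩ := hone _ h1.1 h1.2.1 h1.2.2.1
        obtain ⟨μ', h3, h4⟩ := (hstp _ h1.1 h1.2.1 h1.2.2.1).2.2.2.2.2 h μ hμ
        refine ⟨μ', ?_, h4⟩
        show μ'.Of (wd (step'^[t + 1] (z0 W)))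
        rw [Function.iterate_succ_apply', h2]
        exact h3)
      (by
        intro μ hμ
        exact hXi (3 * r) r _ μ (hz0CR W) hne (by
          intro x hx
          have hx' : x ∈ wd (ini W) := by rw [← (hz0 W).2]; exact hx
          exact (hini W).2.2.1 x hx') hμ)
      hT (N W) (by
        show T (z0 W).1.length < q.eval ((z0 W).1.length) + 1
        have := hq (z0 W).1.length
        omega)
    -- nothing changes after time t
    have hconst : ∀ k, wd (step'^[t + k] (z0 W)) = wd (step'^[t] (z0 W)) := by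
      intro k
      induction k with
      | zero => rfl
      | succ k ih =>
        rw [← Nat.add_assoc, Function.iterate_succ_apply']
        have h1 := inv W (t + k) hne
        obtain ⟨-, -, -, -, h2⟩ := hone _ h1.1 h1.2.1 h1.2.2.1
        rw [h2]
        have h3 := (hstp _ h1.1 h1.2.1 h1.2.2.1).2.2.2.2.1
        rw [ih] at h3
        exact h3 hm hc
    have hN : wd (step'^[N W] (z0 W)) = wd (step'^[t] (z0 W)) := by
      have := hconst (N W - t)
      rwa [Nat.add_sub_cancel' ht.le] at this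
    rw [hN]
    have h1 := inv W t hne
    rw [(reach hSl hSp hOf (hz0CR W) h1.2.2.2.1).2]
    constructor
    · intro h
      have h2 : (wd (step'^[t] (z0 W))).length = 1 := by
        simpa using h
      obtain ⟨x, hx⟩ := List.length_eq_one_iff.1 h2
      rw [hx]
      exact isPrim_single x
    · intro h
      have h2 : ¬ 2 ≤ (wd (step'^[t] (z0 W))).length := by
        intro h3
        rcases hWL _ _ h1.2.1 h3 ((hPQ _ _).1 h) with h4 | h4
        · exact hm h4
        · exact hc h4
      have h3 := List.length_pos_iff.2 h1.2.2.1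
      have h4 : (wd (step'^[t] (z0 W))).length = 1 := by omega
      rw [h4]

end Pool.Agent.Lib.MP_0c2883_lc.All
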