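import Pool.Agent.Lib.MP_0c2883_lc.All.Base

/-!
# Statements of the modules (to be proved in separate files)
-/

set_option autoImplicit false

namespace Pool.Agent.Lib.MP_0c2883_lc.All

open Pool.Agent.Lib.PolyTime List

variable {M : ℕ}

/-- CONJ: conjugate cyclically reduced words are rotations of each other. -/
def ConjStmt : Prop := ∀ (M : ℕ) (u v : List (Letter M)), CR u → CR v →
  IsConj (FreeGroup.mk u) (FreeGroup.mk v) → u ~r v

/-- Two half-edges of `C` are joined by a path of turns inside `C`. -/
def ConnIn (w : List (Letter M)) (C : Letter M → Bool) : Prop :=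
  ∀ p q, C p = true → C q = true →
    Relation.ReflTransGen (fun x y => C x = true ∧ C y = true ∧ 0 < tm w x y) p q

/-- `(C, a)` is a candidate: `C` is a connected set of half-edges joined only to `a` (and really
joined to it), `a, a⁻¹ ∉ C`, and `a` is also joined to a half-edge outside `C`. -/
structure Cand (w : List (Letter M)) (C : Letter M → Bool) (a : Letter M) : Prop where
  ok : Ok w C a
  conn : ConnIn w C
  exit : ∃ c, C c = true ∧ 0 < tm w c a
  rest : ∃ q, C q = false ∧ 0 < tm w a q

/-- The vertex `{a, c}`: the letter `a` can be deleted. -/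
structure MergeAt (w : List (Letter M)) (c a : Letter M) : Prop where
  ne : c ≠ a
  ne' : c ≠ linv a
  pos : 0 < tm w c a
  left : ∀ q, 0 < tm w c q → q = a
  right : ∀ q, 0 < tm w a q → q = c

/-- WL (cut vertex lemma): a cyclically reduced word of length at least two with property `PQ` has a
vertex of valence two that can be merged, or a candidate. -/
def WLStmt : Prop := ∀ (M : ℕ) (w : List (Letter M)), CR w → 2 ≤ w.length →
  PQ (FreeGroup.mk w) → (∃ c a, MergeAt w c a) ∨ ∃ C a, Cand w C a

/-- OPS1: a slide keeps cyclically reduced words cyclically reduced, is induced by an automorphism,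
and deletes exactly `cap w C` letters. -/
def SlideStmt : Prop := ∀ (M : ℕ) (w : List (Letter M)) (C : Letter M → Bool) (a : Letter M),
  CR w → Ok w C a → CR (op C a none w) ∧ (op C a none w).length + cap w C = w.length ∧
    cap (op C a none w) C = cap w C ∧
    ∃ φ : FreeGroup (Fin M) ≃* FreeGroup (Fin M),
      φ (FreeGroup.mk w) = FreeGroup.mk (op C a none w)

/-- OPS2: the same for splits. -/
def SplitStmt : Prop := ∀ (M : ℕ) (w : List (Letter M)) (C : Letter M → Bool) (a f : Letter M),
  CR w → Ok w C a → (∀ x ∈ w, x.1 ≠ f.1) → C f = false → C (linv f) = false → a.1 ≠ f.1 →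
    CR (op C a (some f) w) ∧ (op C a (some f) w).length = w.length ∧
    ∃ φ : FreeGroup (Fin M) ≃* FreeGroup (Fin M),
      φ (FreeGroup.mk w) = FreeGroup.mk (op C a (some f) w)

/-- PRIM1: primitive elements are exactly the elements with property `PQ`. -/
def PrimPQStmt : Prop := ∀ (r : ℕ) (g : FreeGroup (Fin r)), IsPrim g ↔ PQ g

/-- PRIM2: primitivity does not change when letters are added. -/
def PrimMapStmt : Prop := ∀ (r M : ℕ) (h : r ≤ M) (g : FreeGroup (Fin r)),
  IsPrim (FreeGroup.map (Fin.castLE h) g) ↔ IsPrim g

/-- SG: every word reachable from `w₀` by elementary steps has a grammar of size polynomial in the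
size of a grammar of `w₀` (independently of the number of steps). -/
def SGStmt : Prop := ∀ M : ℕ, ∃ P : ℕ → ℕ, PB P ∧ ∀ (w₀ w : List (Letter M)) (n : ℕ),
  CR w₀ → w₀ ≠ [] → Reach w₀ w → HasSLP n w₀ → HasSLP (P n) w

/-- RC (recompression): a polynomial time function which turns a grammar for a word into one whose
size is polynomial in the size of the smallest grammar of the word. -/
def RCStmt : Prop := ∀ M : ℕ, ∃ (rc : Gram M × ℕ → Gram M × ℕ) (P : ℕ → ℕ), PT rc ∧ PB P ∧
  ∀ (G : Gram M) (i : ℕ), Good G → i < G.length →
    Good (rc (G, i)).1 ∧ (rc (G, i)).2 < (rc (G, i)).1.length ∧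
    V (rc (G, i)).1 (rc (G, i)).2 = V G i ∧
    ∀ n, HasSLP n (V G i) → (rc (G, i)).1.length ≤ P n

end Pool.Agent.Lib.MP_0c2883_lc.All
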