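import Pool.Agent.Lib.MP_0c2883_lc.All.RCPT3
import Pool.Agent.Lib.MP_0c2883_lc.All.Stmts

/-!
# Recompression: the final statement
-/

set_option autoImplicit false

namespace Pool.Agent.Lib.MP_0c2883_lc.All.RC

open Pool.Agent.Lib.PolyTime List

variable {M : ℕ}
variable {α β γ : Type} [Enc α] [Enc β] [Enc γ]

theorem pt_goodB {f : α → Gram M} (hf : PT f) : PT (fun a => goodB (f a)) := by
  have base : PT (fun G : Gram M => goodB G) := by
    have h1 : PT (fun G : Gram M => decide (G[0]? = some none)) :=
      PT.eq (PT.getElem? (PT.const 0) PT.id) (PT.const _)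
    have c1 : PT (fun x : (Gram M × (GRule M × ℕ)) × (ℕ × ℕ) =>
        decide (x.2.1 < x.1.2.2) && decide (x.2.2 < x.1.2.2)) :=
      PT.and (PT.lt PT.snd.fst' PT.fst.snd'.snd') (PT.lt PT.snd.snd' PT.fst.snd'.snd')
    have h2 : PT (fun x : Gram M × (GRule M × ℕ) => goodR x.2) := by
      refine (PT.ruleCases (f := fun x : Gram M × (GRule M × ℕ) => x.2.1) (g := fun _ => true)
        (h := fun _ _ => true)
        (k := fun x q => decide (q.1 < x.2.2) && decide (q.2 < x.2.2)) PT.snd.fst' (PT.const _)
        (PT.const _) c1).congr (fun x => ?_)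
      rcases x with ⟨G, r, i⟩
      rcases r with _ | y | q <;> rfl
    exact PT.and h1 (PT.all (p := fun _ x => goodR x) (PT.zipIdx PT.id) h2)
  exact base.comp hf

theorem pt_init : PT (fun a : Gram M × ℕ => init a) := by
  have c1 : PT (fun x : ((Gram M × ℕ) × GRule M) × (ℕ × ℕ) =>
      ([Sum.inr x.2.1, Sum.inr x.2.2] : List (ℕ ⊕ ℕ))) :=
    PT.cons (PT.inr PT.snd.fst') (PT.list1 (PT.inr PT.snd.snd'))
  have c2 : PT (fun x : ((Gram M × ℕ) × GRule M) × Letter M =>
      ([Sum.inl (idx x.2)] : List (ℕ ⊕ ℕ))) :=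
    PT.list1 (PT.inl ((PT.ofFintype (fun y : Letter M => idx y)).comp PT.snd))
  have h1 : PT (fun x : (Gram M × ℕ) × GRule M => ibody x.2) := by
    refine (PT.ruleCases (f := fun x : (Gram M × ℕ) × GRule M => x.2)
      (g := fun _ => ([] : List (ℕ ⊕ ℕ))) (h := fun _ y => [Sum.inl (idx y)])
      (k := fun _ q => [Sum.inr q.1, Sum.inr q.2]) PT.snd (PT.const _) c2 c1).congr (fun x => ?_)
    rcases x with ⟨a, r⟩
    rcases r with _ | y | q <;> rfl
  have h2 : PT (fun a : Gram M × ℕ => a.1.map ibody) := PT.map (g := fun _ r => ibody r) PT.fst h1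
  exact (PT.const (O0 M)).pair (h2.pair (PT.list1 (PT.inr PT.snd)))

theorem pt_init' : PT (fun a : Gram M × ℕ => init' a) :=
  PT.cond (c := fun a : Gram M × ℕ => goodB a.1) (pt_goodB PT.fst) pt_init (PT.const _)

theorem pt_out {f : α → St M} (hf : PT f) : PT (fun a => out (f a)) := by
  have base : PT (fun X : St M => out X) := by
    have h1 : PT (fun x : St M × (ℕ ⊕ ℕ) => Sum.elim (fun y : ℕ => y) (fun _ => 0) x.2) := by
      refine (PT.sumCases (f := fun x : St M × (ℕ ⊕ ℕ) => x.2) (g := fun _ y => y)
        (h := fun _ _ => 0) PT.snd PT.snd (PT.const 0)).congr (fun x => ?_)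
      rcases x with ⟨X, y | i⟩ <;> rfl
    have h2 := PT.optCases (f := fun X : St M => X.2.2.head?) (g := fun _ => 0)
      (h := fun _ e => Sum.elim (fun y : ℕ => y) (fun _ => 0) e) PT.snd.snd'.head? (PT.const 0) h1
    refine (PT.fst.pair h2).congr (fun X => ?_)
    unfold out
    rcases X.2.2.head? with _ | y | i <;> rfl
  exact base.comp hf

theorem phase_trivial (O : Gram M) : phase (O, (([], []) : List (List (ℕ ⊕ ℕ)) × List (ℕ ⊕ ℕ))) =
    (O, ([], [])) := by
  have h : ∀ l : List Mode, l.foldl pass
      (O, (([], []) : List (List (ℕ ⊕ ℕ)) × List (ℕ ⊕ ℕ))) = (O, ([], [])) := by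
    intro l
    induction l with
    | nil => rfl
    | cons m l ih => rw [List.foldl_cons]; exact ih
  exact h _

theorem hasSLP_of_good {a : Gram M × ℕ} (h : Good a.1) : HasSLP a.1.length (V a.1 a.2) := by
  by_cases hi : a.2 < a.1.length
  · exact ⟨a.1, h, le_rfl, a.2, hi, rfl⟩
  · refine ⟨a.1, h, le_rfl, 0, good_pos h, ?_⟩
    rw [V_none h.2, V_out (by omega)]

theorem pt_rc : PT (rc : Gram M × ℕ → Gram M × ℕ) := by
  obtain ⟨P, hP, hPm, hPb⟩ := size_bound M
  obtain ⟨q, hq⟩ := (pt_init (M := M)).size_le
  obtain ⟨q', hq'⟩ := (pt_init' (M := M)).size_le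
  have hT : PB (fun n => (2 * n + 1) * (1 + 2 * P n)) :=
    (((PB.const 2).mul PB.id).add (PB.const 1)).mul ((PB.const 1).add ((PB.const 2).mul hP))
  have hit : PT (fun a : Gram M × ℕ => phase^[2 * a.1.length + 1] (init' a)) := by
    refine PT.iterate (f := fun a : Gram M × ℕ => 2 * a.1.length + 1) (init := fun a => init' a)
      (step := fun _ X => phase X) ((PT.mulConst PT.fst.length 2).succ) pt_init'
      (pt_phase PT.snd)
      (B := fun n => q'.eval n + bX (q.eval n + 2 * q.eval n * ((2 * n + 1) * (1 + 2 * P n)))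
        (q.eval n) (P n) (q.eval n) (q.eval n) (q.eval n) (q.eval n))
      ((PB.poly q').add (PB.bX ((PB.poly q).add (((PB.const 2).mul (PB.poly q)).mul hT))
        (PB.poly q) hP (PB.poly q) (PB.poly q) (PB.poly q) (PB.poly q))) ?_
    intro a t ht
    by_cases hg : goodB a.1 = true
    · have hG : Good a.1 := goodB_iff.1 hg
      have h0 : init' a = init a := if_pos hg
      rw [h0]
      obtain ⟨l, hl, hll⟩ := Size.passes a t
      have h1 : (phase^[t] (init a)).1.length ≤ P (size a) := by
        refine (hPb a _ t (hasSLP_of_good hG)).trans (hPm ?_)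
        have := length_le_size a.1
        rw [size_prod (x := a)]
        omega
      rw [hl] at h1 hll ⊢
      have h2 := xe_le_size (init a)
      have h3 := hq a
      have h4 : l.length ≤ (2 * size a + 1) * (1 + 2 * P (size a)) := by
        refine hll.trans (Nat.mul_le_mul ?_ ?_)
        · have := length_le_size a.1
          have h5 : size a = size a.1 + size a.2 + 1 := by rw [size_prod (x := a)]
          omega
        · have h5 : Nat.size (l.foldl pass (init a)).1.length ≤ (l.foldl pass (init a)).1.length := by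
            rw [Nat.size_le]; exact Nat.lt_two_pow_self
          omega
      have h5 : 2 * xr (init a) * l.length ≤
          2 * q.eval (size a) * ((2 * size a + 1) * (1 + 2 * P (size a))) :=
        Nat.mul_le_mul (by omega) h4
      have h6 := size_run (okS_size (init a)) l (E := q.eval (size a) + 2 * q.eval (size a) *
        ((2 * size a + 1) * (1 + 2 * P (size a)))) (N := P (size a)) (by omega) h1
      have h7 : size (init a) = size (init a).1 + (size (init a).2.1 + size (init a).2.2 + 1) + 1 := by
        rw [size_prod (x := init a), size_prod (x := (init a).2)]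
      have h8 := length_le_size (init a).2.1
      have h9 := h6.trans (bX_mono (E' := q.eval (size a) + 2 * q.eval (size a) *
        ((2 * size a + 1) * (1 + 2 * P (size a)))) (r' := q.eval (size a)) (N' := P (size a))
        (s0' := q.eval (size a)) (L' := q.eval (size a)) (R' := q.eval (size a))
        (h' := q.eval (size a)) le_rfl (by omega) le_rfl (by omega) (by omega) (by omega)
        (by omega))
      exact h9.trans (Nat.le_add_left _ _)
    · have h0 : init' a = (O0 M, ([], [])) := if_neg hg
      have h1 : phase^[t] (init' a) = init' a := by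
        rw [h0]
        exact Function.iterate_fixed (phase_trivial _) t
      show size (phase^[t] (init' a)) ≤ _
      rw [h1]
      exact (hq' a).trans (Nat.le_add_right _ _)
  exact pt_out hit

theorem rcStmt : RCStmt := by
  intro M
  obtain ⟨P, hP, hPm, hPb⟩ := size_bound M
  refine ⟨rc, P, pt_rc, hP, ?_⟩
  intro G i hG hi
  have h0 : init' (G, i) = init (G, i) := if_pos (goodB_iff.2 hG)
  have h1 : rc (G, i) = out (phase^[2 * G.length + 1] (init (G, i))) := by
    unfold rc; rw [h0]
  obtain ⟨h2, h3, h4⟩ := rc_correct G i hG hi (2 * G.length) (final_length (G, i) hG)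
  rw [h1]
  refine ⟨h2, h3, h4, fun n hn => ?_⟩
  exact hPb (G, i) n (2 * G.length + 1) hn

end Pool.Agent.Lib.MP_0c2883_lc.All.RC
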