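import Pool.Agent.Lib.MP_0c2883_lc.All.RCDefs
import Pool.Agent.Lib.MP_0c2883_lc.All.Gram

/-!
# Recompression: names of tokens, initial state
-/

set_option autoImplicit false

namespace Pool.Agent.Lib.MP_0c2883_lc.All.RC

open Pool.Agent.Lib.PolyTime List

variable {M : ℕ}

/-! ### Powers of a letter -/

/-- The `n`-th power of a word. -/
def wpow {α : Type} (w : List α) (n : ℕ) : List α := (replicate n w).flatten

@[simp] theorem wpow_zero {α : Type} (w : List α) : wpow w 0 = [] := rfl

theorem wpow_add {α : Type} (w : List α) (m n : ℕ) : wpow w (m + n) = wpow w m ++ wpow w n := by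
  unfold wpow
  rw [List.replicate_add, List.flatten_append]

@[simp] theorem wpow_one {α : Type} (w : List α) : wpow w 1 = w := by
  simp [wpow]

theorem good_append {O : Gram M} (hO : Good O) {r : GRule M}
    (hr : ∀ a b, r = some (Sum.inr (a, b)) → a < O.length ∧ b < O.length) : Good (O ++ [r]) := by
  refine ⟨hO.1.concat hr, ?_⟩
  have h0 : 0 < O.length := by
    by_contra h
    have : O = [] := by
      apply List.length_eq_zero_iff.1; omega
    have h2 := hO.2
    rw [this] at h2
    simp at h2
  rw [List.getElem?_append_left h0]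
  exact hO.2

theorem good_pos {O : Gram M} (hO : Good O) : 0 < O.length := by
  by_contra h
  have : O = [] := by
    apply List.length_eq_zero_iff.1; omega
  have h2 := hO.2
  rw [this] at h2
  simp at h2

theorem V_last {O : Gram M} {a b : ℕ} (ha : a < O.length) (hb : b < O.length) (hO : Good O) :
    V (O ++ [some (Sum.inr (a, b))]) O.length = V O a ++ V O b := by
  have hG : Valid (O ++ [some (Sum.inr (a, b))]) := hO.1.concat (by
    intro a' b' h
    simp only [Option.some.injEq, Sum.inr.injEq, Prod.mk.injEq] at h
    omega)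
  rw [V_cat hG (i := O.length) (a := a) (b := b) (by simp), V_append ha, V_append hb]

theorem V_prefix {O O' : Gram M} (h : O <+: O') {i : ℕ} (hi : i < O.length) : V O' i = V O i := by
  obtain ⟨t, rfl⟩ := h
  exact V_append hi

/-- The state while a power of `x` is being built on top of `O`. -/
structure Pw (O : Gram M) (x : ℕ) (n : ℕ) (s : Gram M × ℕ) : Prop where
  good : Good s.1
  pre : O <+: s.1
  lt : s.2 < s.1.length
  val : V s.1 s.2 = wpow (V O x) n

theorem Pw.step {O : Gram M} {x n : ℕ} {s : Gram M × ℕ} (h : Pw O x n s) (hx : x < O.length)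
    (b : Bool) : Pw O x (Nat.bit b n) (cstep x s b) := by
  obtain ⟨hg, hp, hl, hv⟩ := h
  have h0 := good_pos hg
  have hlen : O.length ≤ s.1.length := hp.length_le
  have g1 : Good (s.1 ++ [some (Sum.inr (s.2, s.2))]) := good_append hg (by
    intro a b h
    simp only [Option.some.injEq, Sum.inr.injEq, Prod.mk.injEq] at h
    omega)
  have hy : (if b then x else 0) < s.1.length := by split <;> omega
  have g2 : Good ((s.1 ++ [some (Sum.inr (s.2, s.2))]) ++
      [some (Sum.inr (s.1.length, if b then x else 0))]) := good_append g1 (by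
    intro a b h
    simp only [Option.some.injEq, Sum.inr.injEq, Prod.mk.injEq] at h
    rw [List.length_append, List.length_singleton]
    omega)
  have e : (cstep x s b).1 = (s.1 ++ [some (Sum.inr (s.2, s.2))]) ++
      [some (Sum.inr (s.1.length, if b then x else 0))] := by
    unfold cstep; simp
  have e2 : (cstep x s b).2 = (s.1 ++ [some (Sum.inr (s.2, s.2))]).length := by
    unfold cstep; simp
  refine ⟨by rw [e]; exact g2, ?_, ?_, ?_⟩
  · rw [e, List.append_assoc]
    exact hp.trans (List.prefix_append _ _)
  · rw [e, e2]; simp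
  · rw [e, e2, V_last (by simp) (by rw [List.length_append]; omega) g1,
      V_last hl hl hg, V_append hy, hv, ← wpow_add]
    cases b
    · have : V s.1 (if false then x else 0) = [] := by
        simp only [Bool.false_eq_true, if_false]
        exact V_none hg.2
      rw [this, List.append_nil, Nat.bit_false]
      show wpow (V O x) (n + n) = wpow (V O x) (2 * n)
      rw [two_mul]
    · have : V s.1 (if true then x else 0) = V O x := by
        simp only [if_true]
        exact V_prefix hp hx
      rw [this, Nat.bit_true]
      show wpow (V O x) (n + n) ++ V O x = wpow (V O x) (2 * n + 1)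
      rw [wpow_add _ (2 * n) 1, wpow_one, two_mul]

theorem bits_fold {σ : Type} (f : σ → Bool → σ) (s : σ) (b : Bool) (n : ℕ)
    (h : n = 0 → b = true) :
    (Nat.bits (Nat.bit b n)).reverse.foldl f s = f ((Nat.bits n).reverse.foldl f s) b := by
  rw [Nat.bits_append_bit n b h, List.reverse_cons, List.foldl_append]
  rfl

theorem pw_fold {O : Gram M} {O' : Gram M} (hO' : Good O') (hp : O <+: O') {x : ℕ}
    (hx : x < O.length) (n : ℕ) :
    Pw O x n ((Nat.bits n).reverse.foldl (cstep x) (O', 0)) := by
  induction n using Nat.binaryRec' with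
  | zero =>
    rw [Nat.zero_bits]
    exact ⟨hO', hp, good_pos hO', V_none hO'.2⟩
  | bit b n h ih =>
    rw [bits_fold _ _ _ _ h]
    exact ih.step hx b

theorem length_fold (x : ℕ) (L : List Bool) (s : Gram M × ℕ) :
    (L.foldl (cstep x) s).1.length = s.1.length + 2 * L.length := by
  induction L generalizing s with
  | nil => simp
  | cons b L ih =>
    rw [List.foldl_cons, ih]
    unfold cstep
    simp only [List.length_append, List.length_cons, List.length_nil]
    ring

theorem prefix_fold (x : ℕ) (L : List Bool) (s : Gram M × ℕ) :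
    s.1 <+: (L.foldl (cstep x) s).1 := by
  induction L generalizing s with
  | nil => simp
  | cons b L ih =>
    rw [List.foldl_cons]
    refine List.IsPrefix.trans ?_ (ih _)
    unfold cstep
    exact List.prefix_append _ _

theorem tw_flatMap (t : Tok) (f : ℕ → List (Letter M)) :
    (tw t).flatMap f = wpow (f t.1) (tlen t - 1) ++ f t.2.1 := by
  unfold tw wpow
  rw [List.flatMap_append]
  congr 1
  · rw [List.flatMap_def, List.map_replicate]
  · simp

/-- The state of `alloc`. -/
structure Al (O : Gram M) (K : List Tok) (s : Gram M × List ℕ) : Prop where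
  good : Good s.1
  pre : O <+: s.1
  len : s.2.length = K.length
  val : ∀ (k : ℕ) (t : Tok), K[k]? = some t → ∃ x, s.2[k]? = some x ∧ O.length ≤ x ∧
      x < s.1.length ∧ V s.1 x = (tw t).flatMap (V O)

theorem Al.step {O : Gram M} {K : List Tok} {s : Gram M × List ℕ} (h : Al O K s) (hO : Good O)
    {t : Tok} (h1 : t.1 < O.length) (h2 : t.2.1 < O.length) (h3 : 1 ≤ tlen t) :
    Al O (K ++ [t]) (addTok s t) := by
  obtain ⟨hg, hp, hl, hv⟩ := h
  have hc := pw_fold hg hp h1 (tlen t - 1)
  have hpc := prefix_fold t.1 (Nat.bits (tlen t - 1)).reverse ((s.1, 0) : Gram M × ℕ)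
  have e : addTok s t = (((Nat.bits (tlen t - 1)).reverse.foldl (cstep t.1) (s.1, 0)).1 ++
      [some (Sum.inr (((Nat.bits (tlen t - 1)).reverse.foldl (cstep t.1) (s.1, 0)).2, t.2.1))],
      s.2 ++ [((Nat.bits (tlen t - 1)).reverse.foldl (cstep t.1) (s.1, 0)).1.length]) := rfl
  generalize (Nat.bits (tlen t - 1)).reverse.foldl (cstep t.1) (s.1, 0) = c at hc hpc e
  obtain ⟨cg, cp, cl, cv⟩ := hc
  have hlen : O.length ≤ c.1.length := cp.length_le
  have h2' : t.2.1 < c.1.length := by omega
  have hpc' : s.1 <+: c.1 := hpc
  have g : Good (c.1 ++ [some (Sum.inr (c.2, t.2.1))]) := good_append cg (by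
    intro a b h
    simp only [Option.some.injEq, Sum.inr.injEq, Prod.mk.injEq] at h
    omega)
  rw [e]
  refine ⟨g, cp.trans (List.prefix_append _ _), by simp [hl], ?_⟩
  intro k u hk
  by_cases hkK : k < K.length
  · rw [List.getElem?_append_left hkK] at hk
    obtain ⟨x, hx1, hx2, hx3, hx4⟩ := hv k u hk
    refine ⟨x, ?_, hx2, ?_, ?_⟩
    · show (s.2 ++ [c.1.length])[k]? = some x
      rw [List.getElem?_append_left (by omega)]; exact hx1
    · show x < (c.1 ++ [_]).length
      rw [List.length_append]
      have := hpc'.length_le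
      omega
    · show V (c.1 ++ [_]) x = _
      rw [V_prefix (hpc'.trans (List.prefix_append _ _)) hx3]
      exact hx4
  · have hk2 : k = K.length := by
      by_contra hne
      rw [List.getElem?_eq_none_iff.2 (by simp; omega)] at hk
      simp at hk
    subst hk2
    have hu : t = u := by simpa using hk
    subst hu
    refine ⟨c.1.length, ?_, hlen, ?_, ?_⟩
    · show (s.2 ++ [c.1.length])[K.length]? = some c.1.length
      rw [← hl]
      simp
    · show c.1.length < (c.1 ++ [_]).length
      simp
    · show V (c.1 ++ [_]) c.1.length = _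
      rw [V_last cl h2' cg, cv, tw_flatMap t, V_prefix cp h2]

theorem al_alloc {O : Gram M} (hO : Good O) (K : List Tok)
    (hK : ∀ t ∈ K, t.1 < O.length ∧ t.2.1 < O.length ∧ 1 ≤ tlen t) : Al O K (alloc O K) := by
  induction K using List.reverseRecOn with
  | nil => exact ⟨hO, List.prefix_rfl, rfl, by intro k t h; simp at h⟩
  | append_singleton K t ih =>
    have e : alloc O (K ++ [t]) = addTok (alloc O K) t := by
      unfold alloc
      rw [List.foldl_append]
      rfl
    rw [e]
    obtain ⟨h1, h2, h3⟩ := hK t (by simp)
    exact (ih fun u hu => hK u (by simp [hu])).step hO h1 h2 h3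

theorem alloc_spec {O : Gram M} {K : List Tok} (hO : Good O)
    (hK : ∀ t ∈ K, t.1 < O.length ∧ t.2.1 < O.length ∧ 1 ≤ tlen t) :
    Good (alloc O K).1 ∧ O <+: (alloc O K).1 ∧ (alloc O K).2.length = K.length ∧
    ∀ (k : ℕ) (t : Tok), K[k]? = some t → ∃ x, (alloc O K).2[k]? = some x ∧ O.length ≤ x ∧
      x < (alloc O K).1.length ∧ V (alloc O K).1 x = (tw t).flatMap (V O) := by
  obtain ⟨a, b, c, d⟩ := al_alloc hO K hK
  exact ⟨a, b, c, d⟩

theorem addTok_length (s : Gram M × List ℕ) (t : Tok) :
    (addTok s t).1.length = s.1.length + 2 * (Nat.bits (tlen t - 1)).length + 1 := by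
  unfold addTok
  simp only [List.length_append, length_fold, List.length_reverse, List.length_singleton]

/-- no hypothesis on `O`, `K` -/
theorem alloc_le (O : Gram M) (K : List Tok) : O.length ≤ (alloc O K).1.length := by
  induction K using List.reverseRecOn with
  | nil => exact le_rfl
  | append_singleton K t ih =>
    have e : alloc O (K ++ [t]) = addTok (alloc O K) t := by
      unfold alloc
      rw [List.foldl_append]
      rfl
    rw [e, addTok_length]
    omega

/-- no hypothesis on `O`, `K` -/
theorem alloc_length (O : Gram M) (K : List Tok) (B : ℕ) (h : ∀ t ∈ K, Nat.size (tlen t) ≤ B) :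
    (alloc O K).1.length ≤ O.length + K.length * (2 * B + 1) ∧
    O.length ≤ (alloc O K).1.length := by
  refine ⟨?_, alloc_le O K⟩
  induction K using List.reverseRecOn with
  | nil => simp [alloc]
  | append_singleton K t ih =>
    have e : alloc O (K ++ [t]) = addTok (alloc O K) t := by
      unfold alloc
      rw [List.foldl_append]
      rfl
    have h1 := ih fun u hu => h u (by simp [hu])
    have h2 := h t (by simp)
    have h3 : (Nat.bits (tlen t - 1)).length ≤ B := by
      rw [Nat.size_eq_bits_len]
      exact (Nat.size_le_size (Nat.sub_le _ _)).trans h2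
    rw [e, addTok_length, List.length_append, List.length_singleton, add_mul, one_mul]
    omega

/-! ### The initial state -/

theorem length_O0 (M : ℕ) : (O0 M).length = 2 * M + 1 := by
  unfold O0
  simp

theorem O0_get {i : ℕ} {r : GRule M} (h : (O0 M)[i]? = some r) :
    r = none ∨ ∃ x : Letter M, r = some (Sum.inl x) := by
  unfold O0 at h
  rcases i with _ | i
  · left; simpa using h.symm
  · right
    rw [List.getElem?_cons_succ, List.getElem?_ofFn] at h
    split at h
    · simp only [Option.some.injEq] at h
      exact ⟨_, h.symm⟩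
    · simp at h

theorem good_O0 (M : ℕ) : Good (O0 M) := by
  refine ⟨fun i a b h => ?_, by simp [O0]⟩
  rcases O0_get h with h | ⟨x, h⟩ <;> simp at h

theorem idx_lt (x : Letter M) : idx x < 2 * M + 1 := by
  unfold idx
  have h1 := x.1.isLt
  have h2 : x.2.toNat ≤ 1 := Bool.toNat_le x.2
  omega

theorem O0_idx (x : Letter M) : (O0 M)[idx x]? = some (some (Sum.inl x)) := by
  have h1 := idx_lt x
  unfold O0 idx
  rw [List.getElem?_cons_succ, List.getElem?_ofFn, dif_pos (by unfold idx at h1; omega)]
  rcases x with ⟨i, b⟩
  simp only [Option.some.injEq, Sum.inl.injEq, Prod.mk.injEq, Fin.ext_iff]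
  cases b
  · simp
  · constructor
    · simp only [Bool.toNat_true]; omega
    · simp only [Bool.toNat_true, decide_eq_true_eq]; omega

theorem V_O0_idx (x : Letter M) : V (O0 M) (idx x) = [x] := V_letter (O0_idx x)

theorem W_concat {A : Type} (H : List (List (A ⊕ ℕ))) (b : List (A ⊕ ℕ)) :
    W (H ++ [b]) = W H ++ [b.flatMap (iv (W H))] := by
  unfold W
  rw [List.foldl_append]
  rfl

theorem getD_map' {α β : Type} (f : α → β) (l : List (List α)) (i : ℕ) :
    ((l.map (List.map f))[i]?.getD []) = (l[i]?.getD []).map f := by
  rw [List.getElem?_map]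
  cases l[i]? <;> simp

theorem W_ibody (G : Gram M) : W (G.map ibody) = (tab ruleVal G).map (List.map idx) := by
  induction G using List.reverseRecOn with
  | nil => rfl
  | append_singleton G r ih =>
    rw [List.map_append, List.map_singleton, W_concat, ih, tab_concat, List.map_append,
      List.map_singleton]
    congr 2
    rcases r with _ | x | ⟨j, k⟩
    · rfl
    · rfl
    · simp only [ibody, List.flatMap_cons, List.flatMap_nil, List.append_nil, iv, getD_map',
        ruleVal, List.map_append]

theorem U_init' (a : Gram M × ℕ) : U (init a) = (V a.1 a.2).map idx := by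
  have : U (init a) = [Sum.inr a.2].flatMap (iv (W (a.1.map ibody))) := rfl
  rw [this, W_ibody]
  simp only [List.flatMap_cons, List.flatMap_nil, List.append_nil, iv, getD_map']
  rfl

theorem U_init {a : Gram M × ℕ} (_hG : Valid a.1) : U (init a) = (V a.1 a.2).map idx := U_init' a

theorem inv_init (a : Gram M × ℕ) : Inv (init a) := by
  refine ⟨good_O0 M, fun x hx => ?_⟩
  rw [U_init'] at hx
  obtain ⟨y, -, rfl⟩ := List.mem_map.1 hx
  have : (init a).1 = O0 M := rfl
  rw [this, length_O0]
  exact idx_lt y

theorem expand_init' (a : Gram M × ℕ) : expand (init a) = V a.1 a.2 := by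
  unfold expand
  rw [U_init', List.flatMap_map]
  have : (init a).1 = O0 M := rfl
  rw [this]
  simp only [V_O0_idx]
  simp

theorem expand_init {a : Gram M × ℕ} (_hG : Valid a.1) : expand (init a) = V a.1 a.2 :=
  expand_init' a

end Pool.Agent.Lib.MP_0c2883_lc.All.RC
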