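import Pool.Agent.Lib.MP_0c2883_lc.All.RCDefs

/-!
# Recompression: a pass at the level of words
-/

set_option autoImplicit false

namespace Pool.Agent.Lib.MP_0c2883_lc.All.RC

open Pool.Agent.Lib.PolyTime List

variable {M : ℕ}

namespace Chunk

/-! ### Tables -/

section
variable {σ β : Type}

/-- Tables computed entry by entry. -/
def tb (step : List σ → β → σ) (l : List β) : List σ := l.foldl (fun t b => t ++ [step t b]) []

variable (step : List σ → β → σ)

@[simp] theorem tb_nil : tb step [] = [] := rfl

theorem tb_concat (l : List β) (b : β) : tb step (l ++ [b]) = tb step l ++ [step (tb step l) b] := by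
  unfold tb; rw [List.foldl_append]; rfl

@[simp] theorem length_tb (l : List β) : (tb step l).length = l.length := by
  induction l using List.reverseRecOn with
  | nil => rfl
  | append_singleton l b ih => rw [tb_concat]; simp [ih]

/-- A property of all entries (with a default value beyond the end). -/
theorem tb_getD (l : List β) (b : β) (i : ℕ) (d : σ) :
    (tb step (l ++ [b]))[i]?.getD d = if i = l.length then step (tb step l) b
      else (tb step l)[i]?.getD d := by
  rw [tb_concat, List.getElem?_append]
  split_ifs with h1 h2 h2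
  · rw [length_tb] at h1; omega
  · rfl
  · rw [h2, length_tb, Nat.sub_self]; rfl
  · rw [length_tb] at h1 ⊢
    have h3 : l.length < i := by omega
    have h4 : (tb step l)[i]? = none := List.getElem?_eq_none_iff.2 (by rw [length_tb]; omega)
    rw [h4, List.getElem?_eq_none_iff.2 (by simp; omega)]

end

theorem W_eq {A : Type} (H : List (List (A ⊕ ℕ))) : W H = tb (fun vs b => b.flatMap (iv vs)) H := rfl

theorem parts_eq (m : Mode) (H : List (List (ℕ ⊕ ℕ))) : parts m H = tb (bpart m) H := rfl

theorem ktab_eq (cs : List (List (Tok ⊕ ℕ))) : ktab cs = tb kbody cs := rfl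

/-! ### Chunks -/

theorem chunks_cons (m : Mode) (x : ℕ) (w : List ℕ) : chunks m (x :: w) = ccons m x (chunks m w) := rfl

@[simp] theorem chunks_nil (m : Mode) : chunks m [] = [] := rfl

theorem ccons_ne (m : Mode) (x : ℕ) (l : List Tok) : ccons m x l ≠ [] := by
  cases l with
  | nil => simp [ccons]
  | cons t ts => simp only [ccons]; split_ifs <;> simp

theorem chunks_eq_nil {m : Mode} {w : List ℕ} : chunks m w = [] ↔ w = [] := by
  cases w with
  | nil => simp
  | cons x w => simp [chunks_cons, ccons_ne]

theorem tmul_assoc (a b c : Tok) : tmul (tmul a b) c = tmul a (tmul b c) := by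
  unfold tmul; simp only [Nat.add_assoc]

@[simp] theorem tmul_fst (a b : Tok) : (tmul a b).1 = a.1 := rfl
@[simp] theorem tmul_lst (a b : Tok) : (tmul a b).2.1 = b.2.1 := rfl
@[simp] theorem sg_fst (x : ℕ) : (sg x).1 = x := rfl
@[simp] theorem sg_lst (x : ℕ) : (sg x).2.1 = x := rfl
@[simp] theorem tlen_sg (x : ℕ) : tlen (sg x) = 1 := rfl
@[simp] theorem tlen_tmul (a b : Tok) : tlen (tmul a b) = tlen a + tlen b := rfl

theorem chunks_append {m : Mode} {u v : List ℕ} {A B : List Tok} {s f : Tok}
    (hu : chunks m u = A ++ [s]) (hv : chunks m v = f :: B) :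
    chunks m (u ++ v) = if glue m s.2.1 f.1 then A ++ tmul s f :: B else A ++ s :: f :: B := by
  induction u generalizing A s with
  | nil => simp at hu
  | cons x u ih =>
    rw [List.cons_append, chunks_cons]
    rw [chunks_cons] at hu
    rcases hc : chunks m u with _ | ⟨t, ts⟩
    · have hu' : u = [] := chunks_eq_nil.1 hc
      subst hu'
      rw [chunks_nil] at hu
      simp only [ccons] at hu
      have hA : A = [] := by
        rcases A with _ | ⟨a, A⟩
        · rfl
        · simp at hu
      subst hA
      simp only [List.nil_append, List.cons.injEq, and_true] at hu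
      subst hu
      rw [List.nil_append, hv]
      rfl
    · rw [hc] at hu
      rcases List.eq_nil_or_concat (t :: ts) with h | ⟨A', s', h'⟩
      · simp at h
      · rw [List.concat_eq_append] at h'
        have ih' := ih (hc.trans h')
        rw [ih']
        rcases A' with _ | ⟨a', A'⟩
        · simp only [List.nil_append, List.cons.injEq] at h'
          obtain ⟨rfl, rfl⟩ := h'
          simp only [ccons] at hu
          simp only [List.nil_append]
          split_ifs at hu with h1
          · have hA : A = [] := by
              rcases A with _ | ⟨a, A⟩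
              · rfl
              · simp at hu
            subst hA
            simp only [List.nil_append, List.cons.injEq, and_true] at hu
            subst hu
            by_cases h2 : glue m t.2.1 f.1 = true
            · simp only [ccons, tmul_fst, tmul_lst, h1, h2, if_true, tmul_assoc, List.nil_append]
            · have h3 : ccons m x (t :: f :: B) = tmul (sg x) t :: f :: B := if_pos h1
              rw [if_neg h2, h3]
              exact (if_neg h2).symm
          · have hA : A = [sg x] := by
              rcases A with _ | ⟨a, A⟩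
              · simp at hu
              · rcases A with _ | ⟨b, A⟩
                · simp at hu; rw [← hu.1]
                · simp at hu
            subst hA
            simp only [List.cons_append, List.nil_append, List.cons.injEq, and_true,
              true_and] at hu
            subst hu
            split_ifs with h2
            · simp only [ccons, tmul_fst, h1]; simp
            · simp only [ccons, h1]; simp
        · simp only [List.cons_append, List.cons.injEq] at h'
          obtain ⟨rfl, rfl⟩ := h'
          simp only [ccons] at hu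
          split_ifs at hu with h1
          · have hA : A = tmul (sg x) t :: A' ∧ s = s' := by
              have h3 : (tmul (sg x) t :: A') ++ [s'] = A ++ [s] := by simpa using hu
              have := List.append_inj' h3 rfl
              simp only [List.cons.injEq, and_true] at this
              exact ⟨this.1.symm, this.2.symm⟩
            obtain ⟨rfl, rfl⟩ := hA
            split_ifs with h2
            · simp only [List.cons_append, ccons, h1, if_true]
            · simp only [List.cons_append, ccons, h1, if_true]
          · have hA : A = sg x :: t :: A' ∧ s = s' := by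
              have h3 : (sg x :: t :: A') ++ [s'] = A ++ [s] := by simpa using hu
              have := List.append_inj' h3 rfl
              simp only [List.cons.injEq, and_true] at this
              exact ⟨this.1.symm, this.2.symm⟩
            obtain ⟨rfl, rfl⟩ := hA
            split_ifs with h2
            · simp only [List.cons_append, ccons, h1]; simp
            · simp only [List.cons_append, ccons, h1]; simp

theorem tw_eq {t : Tok} (h : tlen t = 1) : tw t = [t.2.1] := by
  unfold tw; rw [h]; rfl

/-- The form of the chunks: equal letters, or a single letter, or two glued letters. -/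
def TokOK (m : Mode) (t : Tok) : Prop :=
  (tlen t = 1 ∧ t = sg t.1) ∨
    (m = none ∧ 1 ≤ tlen t ∧ t.1 = t.2.1) ∨ (∃ p, m = some p ∧ tlen t = 2 ∧ glue m t.1 t.2.1 = true)

theorem tokOK_sg (m : Mode) (x : ℕ) : TokOK m (sg x) := Or.inl ⟨rfl, rfl⟩

theorem glue_some_mid {p : ℕ × Bool} {a b c : ℕ} (h : glue (some p) a b = true)
    (h' : glue (some p) b c = true) : False := by
  unfold glue at h h'
  simp only [Bool.and_eq_true, Bool.not_eq_true'] at h h'
  rw [h.2] at h'
  simp at h'

theorem tokOK_mul {m : Mode} {x : ℕ} {t : Tok} (ht : TokOK m t) (h : glue m x t.1 = true) :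
    TokOK m (tmul (sg x) t) := by
  rcases m with _ | p
  · have h1 : x = t.1 := by simpa [glue] using h
    refine Or.inr (Or.inl ⟨rfl, by simp, ?_⟩)
    rw [tmul_fst, tmul_lst, sg_fst, h1]
    rcases ht with ⟨_, h3⟩ | ⟨_, _, h3⟩ | ⟨p, hp, _⟩
    · rw [h3]; rfl
    · exact h3
    · simp at hp
  · rcases ht with ⟨h2, h3⟩ | ⟨h3, _⟩ | ⟨q, hq, h2, h3⟩
    · refine Or.inr (Or.inr ⟨p, rfl, by rw [tlen_tmul, h2]; rfl, ?_⟩)
      rw [tmul_fst, tmul_lst, sg_fst]
      rw [h3] at h ⊢
      exact h
    · simp at h3
    · exact (glue_some_mid h h3).elim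

theorem chunks_tokOK {m : Mode} {w : List ℕ} {t : Tok} (h : t ∈ chunks m w) : TokOK m t := by
  induction w generalizing t with
  | nil => simp at h
  | cons x w ih =>
    rw [chunks_cons] at h
    rcases hc : chunks m w with _ | ⟨s, ts⟩
    · rw [hc] at h
      simp only [ccons, List.mem_singleton] at h
      rw [h]; exact tokOK_sg m x
    · rw [hc] at h ih
      simp only [ccons] at h
      split_ifs at h with h1
      · rcases List.mem_cons.1 h with rfl | h
        · exact tokOK_mul (ih (by simp)) h1
        · exact ih (by simp [h])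
      · rcases List.mem_cons.1 h with rfl | h
        · exact tokOK_sg m x
        · exact ih h

theorem tw_sg (x : ℕ) : tw (sg x) = [x] := rfl

theorem tw_mul {m : Mode} {x : ℕ} {t : Tok} (ht : TokOK m t) (h : glue m x t.1 = true) :
    tw (tmul (sg x) t) = x :: tw t := by
  unfold tw
  rw [tlen_tmul, tlen_sg, tmul_fst, tmul_lst, sg_fst, Nat.add_sub_cancel_left]
  rcases m with _ | p
  · have h1 : x = t.1 := by simpa [glue] using h
    have h2 : 1 ≤ tlen t := by
      rcases ht with ⟨h3, _⟩ | ⟨_, h3, _⟩ | ⟨p, hp, _⟩
      · omega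
      · exact h3
      · simp at hp
    obtain ⟨k, hk⟩ : ∃ k, tlen t = k + 1 := ⟨tlen t - 1, by omega⟩
    rw [hk, h1, Nat.add_sub_cancel, List.replicate_succ, List.cons_append]
  · rcases ht with ⟨h2, _⟩ | ⟨h3, _⟩ | ⟨q, hq, h2, h3⟩
    · rw [h2]; rfl
    · simp at h3
    · exact (glue_some_mid h h3).elim

end Chunk

open Chunk

theorem chunks_flat (m : Mode) (w : List ℕ) : (chunks m w).flatMap tw = w := by
  induction w with
  | nil => rfl
  | cons x w ih =>
    rw [chunks_cons]
    rcases hc : chunks m w with _ | ⟨s, ts⟩
    · rw [hc] at ih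
      simp only [List.flatMap_nil] at ih
      rw [← ih]
      simp [ccons, tw_sg]
    · rw [hc] at ih
      simp only [ccons]
      split_ifs with h1
      · rw [List.flatMap_cons, tw_mul (chunks_tokOK (m := m) (w := w) (by rw [hc]; simp)) h1,
          List.cons_append, ← List.flatMap_cons, ih]
      · rw [List.flatMap_cons, tw_sg, ih]; rfl

theorem chunks_sum (m : Mode) (w : List ℕ) : ((chunks m w).map tlen).sum = w.length := by
  induction w with
  | nil => rfl
  | cons x w ih =>
    rw [chunks_cons, List.length_cons, ← ih]
    rcases hc : chunks m w with _ | ⟨s, ts⟩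
    · simp [ccons]
    · simp only [ccons]
      split_ifs with h1
      · simp only [List.map_cons, tlen_tmul, tlen_sg, List.sum_cons]; omega
      · simp only [List.map_cons, tlen_sg, List.sum_cons]; omega

theorem chunks_tok {m : Mode} {w : List ℕ} {t : Tok} (h : t ∈ chunks m w) :
    1 ≤ tlen t ∧ tlen t ≤ w.length ∧ t.1 ∈ w ∧ t.2.1 ∈ w ∧ (tlen t = 1 → t = sg t.1) := by
  have hOK := chunks_tokOK h
  have h1 : 1 ≤ tlen t := by
    rcases hOK with ⟨h3, _⟩ | ⟨_, h3, _⟩ | ⟨p, _, h3, _⟩ <;> omega
  have h2 : tlen t ≤ w.length := by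
    rw [← chunks_sum m w]
    exact List.single_le_sum (by simp) _ (List.mem_map.2 ⟨t, h, rfl⟩)
  have h3 : ∀ y ∈ tw t, y ∈ w := by
    intro y hy
    rw [← chunks_flat m w]
    exact List.mem_flatMap.2 ⟨t, h, hy⟩
  have h5 : tlen t = 1 → t = sg t.1 := by
    intro h4
    rcases hOK with ⟨_, h6⟩ | ⟨_, _, h6⟩ | ⟨p, _, h6, _⟩
    · exact h6
    · clear h h1 h2 h3
      rcases t with ⟨a, b, ⟨c⟩⟩
      simp only [tlen] at h4 h6
      subst h4 h6
      rfl
    · omega
  have h4 : t.2.1 ∈ w := h3 _ (by simp [tw])
  refine ⟨h1, h2, ?_, h4, h5⟩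
  by_cases h6 : tlen t = 1
  · rw [h5 h6] at h4 ⊢; exact h4
  · apply h3
    unfold tw
    rw [List.mem_append]
    left
    rw [List.mem_replicate]
    exact ⟨by omega, rfl⟩

namespace Chunk

/-! ### Partial tokenizations -/

/-- `p` is a partial tokenization of `w`; references are read in the table `cv`. -/
def Rep (m : Mode) (cv : List (List Tok)) : Part → List ℕ → Prop
  | none, w => w = []
  | some (t, none), w => chunks m w = [t]
  | some (t, some (c, s)), w => chunks m w = t :: (c.flatMap (iv cv) ++ [s])

/-- The same with the value of the middle part given. -/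
def RepT (m : Mode) : Part → List ℕ → List Tok → Prop
  | none, w, _ => w = []
  | some (t, none), w, _ => chunks m w = [t]
  | some (t, some (_, s)), w, cw => chunks m w = t :: (cw ++ [s])

theorem Rep.pall {m : Mode} {cv : List (List Tok)} {p : Part} {w : List ℕ} (h : Rep m cv p w) :
    (pall p).flatMap (iv cv) = chunks m w := by
  rcases p with _ | ⟨t, _ | ⟨c, s⟩⟩
  · have h' : w = [] := h
    rw [h']; rfl
  · have h' : chunks m w = [t] := h
    rw [h']; rfl
  · have h' : chunks m w = t :: (c.flatMap (iv cv) ++ [s]) := h
    rw [h']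
    simp [RC.pall, iv]

theorem Rep.toT {m : Mode} {cv : List (List Tok)} {p : Part} {w : List ℕ} (h : Rep m cv p w) :
    RepT m p w ((pcore p).flatMap (iv cv)) := by
  rcases p with _ | ⟨t, _ | ⟨c, s⟩⟩
  · exact h
  · exact h
  · exact h

theorem Rep.mul {m : Mode} {cv : List (List Tok)} {p q : Part} {u v : List ℕ}
    (hp : Rep m cv p u) (hq : Rep m cv q v) : Rep m cv (pmul m p q) (u ++ v) := by
  rcases p with _ | ⟨t, _ | ⟨c, s⟩⟩
  · have hu : u = [] := hp
    rw [hu]
    exact hq
  · rcases q with _ | ⟨t', _ | ⟨c', s'⟩⟩
    · have hv : v = [] := hq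
      rw [hv, List.append_nil]
      exact hp
    · have h1 : chunks m u = [] ++ [t] := hp
      have h2 : chunks m v = t' :: [] := hq
      have h3 := chunks_append h1 h2
      simp only [pmul]
      split_ifs with hg
      · rw [if_pos hg] at h3
        exact h3
      · rw [if_neg hg] at h3
        exact h3
    · have h1 : chunks m u = [] ++ [t] := hp
      have h2 : chunks m v = t' :: (c'.flatMap (iv cv) ++ [s']) := hq
      have h3 := chunks_append h1 h2
      simp only [pmul]
      split_ifs with hg
      · rw [if_pos hg] at h3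
        exact h3
      · rw [if_neg hg] at h3
        show chunks m (u ++ v) = _
        rw [h3]
        simp [iv]
  · rcases q with _ | ⟨t', _ | ⟨c', s'⟩⟩
    · have hv : v = [] := hq
      rw [hv, List.append_nil]
      exact hp
    · have h1 : chunks m u = (t :: c.flatMap (iv cv)) ++ [s] := hp
      have h2 : chunks m v = t' :: [] := hq
      have h3 := chunks_append h1 h2
      simp only [pmul]
      split_ifs with hg
      · rw [if_pos hg] at h3
        exact h3
      · rw [if_neg hg] at h3
        show chunks m (u ++ v) = _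
        rw [h3]
        simp [iv]
    · have h1 : chunks m u = (t :: c.flatMap (iv cv)) ++ [s] := hp
      have h2 : chunks m v = t' :: (c'.flatMap (iv cv) ++ [s']) := hq
      have h3 := chunks_append h1 h2
      simp only [pmul]
      split_ifs with hg
      · rw [if_pos hg] at h3
        show chunks m (u ++ v) = _
        rw [h3]
        simp [iv]
      · rw [if_neg hg] at h3
        show chunks m (u ++ v) = _
        rw [h3]
        simp [iv]

theorem rep_item {m : Mode} {ps : List Part} {vs : List (List ℕ)} {cv : List (List Tok)}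
    (h : ∀ i : ℕ, RepT m (ps[i]?.getD none) (vs[i]?.getD []) (cv[i]?.getD [])) (e : ℕ ⊕ ℕ) :
    Rep m cv (ipart ps e) (iv vs e) := by
  rcases e with x | i
  · show chunks m [x] = [sg x]
    rfl
  · have hi := h i
    simp only [ipart, iv]
    rcases hp : ps[i]?.getD none with _ | ⟨t, _ | ⟨c, s⟩⟩
    · rw [hp] at hi; exact hi
    · rw [hp] at hi; exact hi
    · rw [hp] at hi
      have hi' : chunks m (vs[i]?.getD []) = t :: (cv[i]?.getD [] ++ [s]) := hi
      show chunks m (vs[i]?.getD []) = _
      rw [hi']
      simp [iv]

theorem rep_body_aux {m : Mode} {ps : List Part} {vs : List (List ℕ)} {cv : List (List Tok)}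
    (h : ∀ i : ℕ, RepT m (ps[i]?.getD none) (vs[i]?.getD []) (cv[i]?.getD [])) (b : List (ℕ ⊕ ℕ)) :
    ∀ (p : Part) (u : List ℕ), Rep m cv p u →
      Rep m cv (b.foldl (fun acc e => pmul m acc (ipart ps e)) p) (u ++ b.flatMap (iv vs)) := by
  induction b with
  | nil => intro p u hp; simpa using hp
  | cons e b ih =>
    intro p u hp
    rw [List.foldl_cons, List.flatMap_cons, ← List.append_assoc]
    exact ih _ _ (hp.mul (rep_item h e))

theorem rep_body {m : Mode} {ps : List Part} {vs : List (List ℕ)} {cv : List (List Tok)}
    (h : ∀ i : ℕ, RepT m (ps[i]?.getD none) (vs[i]?.getD []) (cv[i]?.getD [])) (b : List (ℕ ⊕ ℕ)) :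
    Rep m cv (bpart m ps b) (b.flatMap (iv vs)) :=
  rep_body_aux h b none [] rfl

theorem map_concat' {σ τ : Type} (f : σ → τ) (l : List σ) (a : σ) :
    (l ++ [a]).map f = l.map f ++ [f a] := by simp

theorem parts_concat (m : Mode) (H : List (List (ℕ ⊕ ℕ))) (b : List (ℕ ⊕ ℕ)) :
    parts m (H ++ [b]) = parts m H ++ [bpart m (parts m H) b] := tb_concat _ H b

theorem length_parts (m : Mode) (H : List (List (ℕ ⊕ ℕ))) : (parts m H).length = H.length :=
  length_tb _ H

theorem rep_table (m : Mode) (H : List (List (ℕ ⊕ ℕ))) : ∀ i : ℕ,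
    RepT m ((parts m H)[i]?.getD none) ((W H)[i]?.getD []) ((W ((parts m H).map pcore))[i]?.getD [])
    := by
  induction H using List.reverseRecOn with
  | nil => intro i; rfl
  | append_singleton H b ih =>
    intro i
    have e1 : (parts m (H ++ [b]))[i]?.getD none = if i = H.length then bpart m (parts m H) b
      else (parts m H)[i]?.getD none := tb_getD _ H b i none
    have e2 : (W (H ++ [b]))[i]?.getD [] = if i = H.length then b.flatMap (iv (W H))
      else (W H)[i]?.getD [] := tb_getD (fun (vs : List (List ℕ)) (b : List (ℕ ⊕ ℕ)) => b.flatMap (iv vs)) H b i []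
    have e3 : (W ((parts m (H ++ [b])).map pcore))[i]?.getD [] =
        if i = H.length then (pcore (bpart m (parts m H) b)).flatMap (iv (W ((parts m H).map pcore)))
        else (W ((parts m H).map pcore))[i]?.getD [] := by
      rw [parts_concat, map_concat']
      have := tb_getD (fun (vs : List (List Tok)) (b : List (Tok ⊕ ℕ)) => b.flatMap (iv vs))
        ((parts m H).map pcore)
        (pcore (bpart m (parts m H) b)) i []
      rw [List.length_map, length_parts] at this
      exact this
    rw [e1, e2, e3]
    by_cases hi : i = H.length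
    · simp only [if_pos hi]
      exact (rep_body ih b).toT
    · simp only [if_neg hi]
      exact ih i

theorem rep_start (m : Mode) (H : List (List (ℕ ⊕ ℕ))) (S : List (ℕ ⊕ ℕ)) :
    Rep m (W ((parts m H).map pcore)) (bpart m (parts m H) S) (WS H S) :=
  rep_body (rep_table m H) S

theorem cut_start (m : Mode) (H : List (List (ℕ ⊕ ℕ))) (S : List (ℕ ⊕ ℕ)) :
    WS ((parts m H).map pcore) (pall (bpart m (parts m H) S)) = chunks m (WS H S) :=
  (rep_start m H S).pall

/-! ### Renaming -/

theorem iv_map {A B : Type} (f : A → B) (vs : List (List A)) (e : A ⊕ ℕ) :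
    iv (vs.map (List.map f)) (Sum.map f id e) = (iv vs e).map f := by
  rcases e with x | i
  · rfl
  · simp only [Sum.map_inr, iv, id]
    rw [List.getElem?_map]
    cases vs[i]? <;> rfl

theorem flatMap_map' {A B : Type} (f : A → B) (vs : List (List A)) (b : List (A ⊕ ℕ)) :
    (b.map (Sum.map f id)).flatMap (iv (vs.map (List.map f))) = (b.flatMap (iv vs)).map f := by
  induction b with
  | nil => rfl
  | cons e b ih =>
    rw [List.map_cons, List.flatMap_cons, List.flatMap_cons, List.map_append, ih, iv_map]

theorem W_map {A B : Type} (f : A → B) (H : List (List (A ⊕ ℕ))) :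
    W (H.map (List.map (Sum.map f id))) = (W H).map (List.map f) := by
  induction H using List.reverseRecOn with
  | nil => rfl
  | append_singleton H b ih =>
    rw [map_concat']
    have e1 : W (H.map (List.map (Sum.map f id)) ++ [b.map (Sum.map f id)]) =
      W (H.map (List.map (Sum.map f id))) ++
        [(b.map (Sum.map f id)).flatMap (iv (W (H.map (List.map (Sum.map f id)))))] := tb_concat _ _ _
    have e2 : W (H ++ [b]) = W H ++ [b.flatMap (iv (W H))] := tb_concat _ _ _
    rw [e1, e2, ih, map_concat', flatMap_map']

theorem WS_map {A B : Type} (f : A → B) (H : List (List (A ⊕ ℕ))) (S : List (A ⊕ ℕ)) :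
    WS (H.map (List.map (Sum.map f id))) (S.map (Sum.map f id)) = (WS H S).map f := by
  unfold WS
  rw [W_map, flatMap_map']

end Chunk

theorem WS_cut (m : Mode) (H : List (List (ℕ ⊕ ℕ))) (S : List (ℕ ⊕ ℕ)) (f : Tok → ℕ) :
    WS (((parts m H).map pcore).map (List.map (Sum.map f id)))
      ((pall (bpart m (parts m H) S)).map (Sum.map f id)) = (chunks m (WS H S)).map f := by
  rw [WS_map, cut_start]

theorem U_pass (X : St M) (m : Mode) :
    U (pass X m) = (chunks m (U X)).map (nu (keys m X) (alloc X.1 (keys m X)).2) :=
  WS_cut m X.2.1 X.2.2 _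

namespace Chunk

/-! ### Keys -/

theorem mem_ins {l : List Tok} {t s : Tok} : s ∈ ins l t ↔ s ∈ l ∨ s = t := by
  unfold ins
  split_ifs with h
  · rw [List.contains_iff_mem] at h
    exact ⟨Or.inl, fun h' => h'.elim id (fun e => e ▸ h)⟩
  · simp

theorem mem_foldl_ins {L l : List Tok} {s : Tok} : s ∈ L.foldl ins l ↔ s ∈ l ∨ s ∈ L := by
  induction L generalizing l with
  | nil => simp
  | cons t L ih => rw [List.foldl_cons, ih, mem_ins, List.mem_cons]; tauto

theorem nodup_ins {l : List Tok} {t : Tok} (h : l.Nodup) : (ins l t).Nodup := by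
  unfold ins
  split_ifs with h1
  · exact h
  · rw [List.contains_iff_mem] at h1
    rw [List.nodup_append]
    refine ⟨h, by simp, ?_⟩
    intro a ha b hb
    rw [List.mem_singleton] at hb
    rintro rfl
    exact h1 (hb ▸ ha)

theorem nodup_foldl_ins {L l : List Tok} (h : l.Nodup) : (L.foldl ins l).Nodup := by
  induction L generalizing l with
  | nil => exact h
  | cons t L ih => exact ih (nodup_ins h)

theorem mem_kbody {ks : List (List Tok)} {c : List (Tok ⊕ ℕ)} {t : Tok} :
    t ∈ kbody ks c ↔ ∃ e ∈ c, t ∈ kitem ks e := by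
  unfold kbody
  rw [mem_foldl_ins, List.mem_flatMap]
  simp

theorem mem_kbody_iff {ks : List (List Tok)} {cv : List (List Tok)}
    (h : ∀ (i : ℕ) (t : Tok), t ∈ ks[i]?.getD [] ↔ t ∈ cv[i]?.getD [] ∧ 2 ≤ tlen t) (c : List (Tok ⊕ ℕ)) (t : Tok) :
    t ∈ kbody ks c ↔ t ∈ c.flatMap (iv cv) ∧ 2 ≤ tlen t := by
  rw [mem_kbody, List.mem_flatMap]
  constructor
  · rintro ⟨e, he, ht⟩
    rcases e with s | i
    · simp only [kitem] at ht
      split_ifs at ht with h1
      · rw [List.mem_singleton] at ht
        subst ht
        exact ⟨⟨_, he, by simp [iv]⟩, h1⟩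
      · simp at ht
    · have := (h i t).1 ht
      exact ⟨⟨_, he, this.1⟩, this.2⟩
  · rintro ⟨⟨e, he, ht⟩, h2⟩
    refine ⟨e, he, ?_⟩
    rcases e with s | i
    · simp only [iv, List.mem_singleton] at ht
      subst ht
      simp [kitem, h2]
    · exact (h i t).2 ⟨ht, h2⟩

theorem ktab_table (cs : List (List (Tok ⊕ ℕ))) : ∀ (i : ℕ) (t : Tok),
    t ∈ (ktab cs)[i]?.getD [] ↔ t ∈ (W cs)[i]?.getD [] ∧ 2 ≤ tlen t := by
  induction cs using List.reverseRecOn with
  | nil => intro i t; simp [ktab, W]
  | append_singleton cs c ih =>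
    intro i t
    have e1 : (ktab (cs ++ [c]))[i]?.getD [] = if i = cs.length then kbody (ktab cs) c
      else (ktab cs)[i]?.getD [] := tb_getD _ cs c i []
    have e2 : (W (cs ++ [c]))[i]?.getD [] = if i = cs.length then c.flatMap (iv (W cs))
      else (W cs)[i]?.getD [] := tb_getD (fun (vs : List (List Tok)) (b : List (Tok ⊕ ℕ)) => b.flatMap (iv vs)) cs c i []
    rw [e1, e2]
    by_cases hi : i = cs.length
    · simp only [if_pos hi]
      exact mem_kbody_iff ih c t
    · simp only [if_neg hi]
      exact ih i t

end Chunk

theorem mem_keys {m : Mode} {X : St M} {t : Tok} :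
    t ∈ keys m X ↔ t ∈ chunks m (U X) ∧ 2 ≤ tlen t := by
  unfold keys
  rw [mem_kbody_iff (ktab_table (cores m X))]
  have := cut_start m X.2.1 X.2.2
  unfold WS at this
  unfold score cores U
  rw [this]
  rfl

theorem nodup_keys (m : Mode) (X : St M) : (keys m X).Nodup := nodup_foldl_ins List.nodup_nil

/-- After a pass over a word of length at most one the start body is explicit. -/
theorem pass_short {X : St M} {m : Mode} (h : (U X).length ≤ 1) :
    (pass X m).2.2 = (U (pass X m)).map Sum.inl := by
  rw [U_pass]
  have h1 : (pass X m).2.2 = rn (keys m X) (alloc X.1 (keys m X)).2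
    (pall (bpart m (parts m X.2.1) X.2.2)) := rfl
  have h2 := rep_start m X.2.1 X.2.2
  have h3 : (chunks m (U X)).length ≤ 1 := by
    refine le_trans ?_ h
    rw [← chunks_sum m (U X)]
    have : ∀ l : List Tok, (∀ t ∈ l, 1 ≤ tlen t) → l.length ≤ (l.map tlen).sum := by
      intro l
      induction l with
      | nil => simp
      | cons a l ih =>
        intro hl
        have := ih (fun t ht => hl t (by simp [ht]))
        have := hl a (by simp)
        simp only [List.length_cons, List.map_cons, List.sum_cons]; omega
    exact this _ (fun t ht => (chunks_tok ht).1)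
  rw [h1]
  rcases hp : bpart m (parts m X.2.1) X.2.2 with _ | ⟨t, _ | ⟨c, s⟩⟩
  · rw [hp] at h2
    have h4 : U X = [] := h2
    rw [h4]; rfl
  · rw [hp] at h2
    have h4 : chunks m (U X) = [t] := h2
    rw [h4]; rfl
  · rw [hp] at h2
    have h4 : chunks m (U X) = _ := h2
    rw [h4] at h3
    simp at h3

end Pool.Agent.Lib.MP_0c2883_lc.All.RC
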