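import Pool.Agent.Lib.MP_0c2883_lc.All.RCChunk

/-!
# Recompression: counting explicit items and references
-/

set_option autoImplicit false

namespace Pool.Agent.Lib.MP_0c2883_lc.All.RC

open Pool.Agent.Lib.PolyTime List

variable {M : ℕ}

namespace Cnt

section
variable {A B : Type}

@[simp] theorem nE_nil : nE ([] : List (A ⊕ ℕ)) = 0 := rfl
@[simp] theorem nR_nil : nR ([] : List (A ⊕ ℕ)) = 0 := rfl
@[simp] theorem nE_inl (x : A) (b : List (A ⊕ ℕ)) : nE (Sum.inl x :: b) = nE b + 1 := by
  simp [nE, List.countP_cons]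
@[simp] theorem nE_inr (i : ℕ) (b : List (A ⊕ ℕ)) : nE (Sum.inr i :: b) = nE b := by
  simp [nE]
@[simp] theorem nR_inl (x : A) (b : List (A ⊕ ℕ)) : nR (Sum.inl x :: b) = nR b := by
  simp [nR]
@[simp] theorem nR_inr (i : ℕ) (b : List (A ⊕ ℕ)) : nR (Sum.inr i :: b) = nR b + 1 := by
  simp [nR, List.countP_cons]
@[simp] theorem nE_append (b c : List (A ⊕ ℕ)) : nE (b ++ c) = nE b + nE c := by
  simp [nE]
@[simp] theorem nR_append (b c : List (A ⊕ ℕ)) : nR (b ++ c) = nR b + nR c := by
  simp [nR]

@[simp] theorem nE_map (f : A → B) (b : List (A ⊕ ℕ)) :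
    nE (b.map (Sum.map f id)) = nE b := by
  induction b with
  | nil => rfl
  | cons x b ih => rcases x with x | i <;> simp [ih]

@[simp] theorem nR_map (f : A → B) (b : List (A ⊕ ℕ)) :
    nR (b.map (Sum.map f id)) = nR b := by
  induction b with
  | nil => rfl
  | cons x b ih => rcases x with x | i <;> simp [ih]

theorem length_eq (b : List (A ⊕ ℕ)) : b.length = nE b + nR b := by
  induction b with
  | nil => rfl
  | cons x b ih =>
    rcases x with x | i
    · simp only [List.length_cons, ih, nE_inl, nR_inl]; omega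
    · simp only [List.length_cons, ih, nE_inr, nR_inr]; omega

theorem expl_map (f : A → B) (H : List (List (A ⊕ ℕ))) (S : List (A ⊕ ℕ)) :
    expl (H.map (List.map (Sum.map f id))) (S.map (Sum.map f id)) = expl H S := by
  have : nE ∘ (List.map (Sum.map f id)) = (nE : List (A ⊕ ℕ) → ℕ) := by
    funext b; simp
  simp [expl, this]

theorem refs_map (f : A → B) (H : List (List (A ⊕ ℕ))) (S : List (A ⊕ ℕ)) :
    refs (H.map (List.map (Sum.map f id))) (S.map (Sum.map f id)) = refs H S := by
  have : nR ∘ (List.map (Sum.map f id)) = (nR : List (A ⊕ ℕ) → ℕ) := by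
    funext b; simp
  simp [refs, this]

end

theorem nE_pall_pmul (m : Mode) (p q : Part) :
    nE (pall (pmul m p q)) ≤ nE (pall p) + nE (pall q) := by
  rcases p with _ | ⟨t, _ | ⟨c, s⟩⟩ <;> rcases q with _ | ⟨t', _ | ⟨c', s'⟩⟩ <;>
    simp only [pmul] <;> (try split) <;> simp [pall] <;> omega

theorem nR_pall_pmul (m : Mode) (p q : Part) :
    nR (pall (pmul m p q)) = nR (pall p) + nR (pall q) := by
  rcases p with _ | ⟨t, _ | ⟨c, s⟩⟩ <;> rcases q with _ | ⟨t', _ | ⟨c', s'⟩⟩ <;>
    simp only [pmul] <;> (try split) <;> simp [pall]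

theorem nE_pall_ipart (ps : List Part) (e : ℕ ⊕ ℕ) :
    nE (pall (ipart ps e)) ≤ nE [e] + 2 * nR [e] := by
  rcases e with x | i
  · simp [ipart, pall]
  · simp only [ipart]
    rcases ps[i]?.getD none with _ | ⟨t, _ | ⟨c, s⟩⟩ <;> simp [pall]

theorem nR_pall_ipart (ps : List Part) (e : ℕ ⊕ ℕ) :
    nR (pall (ipart ps e)) ≤ nR [e] := by
  rcases e with x | i
  · simp [ipart, pall]
  · simp only [ipart]
    rcases ps[i]?.getD none with _ | ⟨t, _ | ⟨c, s⟩⟩ <;> simp [pall]

theorem bpart_append (m : Mode) (ps : List Part) (b : List (ℕ ⊕ ℕ)) (e : ℕ ⊕ ℕ) :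
    bpart m ps (b ++ [e]) = pmul m (bpart m ps b) (ipart ps e) := by
  simp [bpart]

theorem nE_pall_bpart (m : Mode) (ps : List Part) (b : List (ℕ ⊕ ℕ)) :
    nE (pall (bpart m ps b)) ≤ nE b + 2 * nR b := by
  induction b using List.reverseRecOn with
  | nil => simp [bpart, pall]
  | append_singleton b e ih =>
    rw [bpart_append]
    have h1 := nE_pall_pmul m (bpart m ps b) (ipart ps e)
    have h2 := nE_pall_ipart ps e
    rw [nE_append, nR_append]
    omega

theorem nR_pall_bpart (m : Mode) (ps : List Part) (b : List (ℕ ⊕ ℕ)) :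
    nR (pall (bpart m ps b)) ≤ nR b := by
  induction b using List.reverseRecOn with
  | nil => simp [bpart, pall]
  | append_singleton b e ih =>
    rw [bpart_append]
    have h1 := nR_pall_pmul m (bpart m ps b) (ipart ps e)
    have h2 := nR_pall_ipart ps e
    rw [nR_append]
    omega

theorem nE_pcore (p : Part) : nE (pcore p) ≤ nE (pall p) := by
  rcases p with _ | ⟨t, _ | ⟨c, s⟩⟩ <;> simp [pcore, pall]
  omega

theorem nR_pcore (p : Part) : nR (pcore p) ≤ nR (pall p) := by
  rcases p with _ | ⟨t, _ | ⟨c, s⟩⟩ <;> simp [pcore, pall]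

theorem parts_append (m : Mode) (H : List (List (ℕ ⊕ ℕ))) (b : List (ℕ ⊕ ℕ)) :
    parts m (H ++ [b]) = parts m H ++ [bpart m (parts m H) b] := by
  simp [parts]

theorem sum_nE (m : Mode) (H : List (List (ℕ ⊕ ℕ))) :
    (((parts m H).map pcore).map nE).sum ≤ (H.map nE).sum + 2 * (H.map nR).sum := by
  induction H using List.reverseRecOn with
  | nil => simp [parts]
  | append_singleton H b ih =>
    rw [parts_append]
    have h1 := nE_pall_bpart m (parts m H) b
    have h2 := nE_pcore (bpart m (parts m H) b)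
    simp only [List.map_append, List.sum_append, List.map_cons, List.map_nil, List.sum_cons,
      List.sum_nil]
    omega

theorem sum_nR (m : Mode) (H : List (List (ℕ ⊕ ℕ))) :
    (((parts m H).map pcore).map nR).sum ≤ (H.map nR).sum := by
  induction H using List.reverseRecOn with
  | nil => simp [parts]
  | append_singleton H b ih =>
    rw [parts_append]
    have h1 := nR_pall_bpart m (parts m H) b
    have h2 := nR_pcore (bpart m (parts m H) b)
    simp only [List.map_append, List.sum_append, List.map_cons, List.map_nil, List.sum_cons,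
      List.sum_nil]
    omega

end Cnt

open Cnt

theorem expl_cut (m : Mode) (H : List (List (ℕ ⊕ ℕ))) (S : List (ℕ ⊕ ℕ)) :
    expl ((parts m H).map pcore) (pall (bpart m (parts m H) S)) ≤ expl H S + 2 * refs H S := by
  have h1 := sum_nE m H
  have h2 := nE_pall_bpart m (parts m H) S
  unfold expl refs
  omega

theorem refs_cut (m : Mode) (H : List (List (ℕ ⊕ ℕ))) (S : List (ℕ ⊕ ℕ)) :
    refs ((parts m H).map pcore) (pall (bpart m (parts m H) S)) ≤ refs H S := by
  have h1 := sum_nR m H
  have h2 := nR_pall_bpart m (parts m H) S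
  unfold refs
  omega

theorem expl_pass (X : St M) (m : Mode) :
    expl (pass X m).2.1 (pass X m).2.2 ≤ expl X.2.1 X.2.2 + 2 * refs X.2.1 X.2.2 := by
  have h := expl_cut m X.2.1 X.2.2
  have h2 := expl_map (nu (keys m X) (alloc X.1 (keys m X)).2) ((parts m X.2.1).map pcore)
    (pall (bpart m (parts m X.2.1) X.2.2))
  rw [← h2] at h
  exact h

theorem refs_pass (X : St M) (m : Mode) :
    refs (pass X m).2.1 (pass X m).2.2 ≤ refs X.2.1 X.2.2 := by
  have h := refs_cut m X.2.1 X.2.2
  have h2 := refs_map (nu (keys m X) (alloc X.1 (keys m X)).2) ((parts m X.2.1).map pcore)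
    (pall (bpart m (parts m X.2.1) X.2.2))
  rw [← h2] at h
  exact h

namespace Cnt

section
variable {A : Type}

theorem W_append (H : List (List (A ⊕ ℕ))) (b : List (A ⊕ ℕ)) :
    W (H ++ [b]) = W H ++ [b.flatMap (iv (W H))] := by
  simp [W]

theorem mem_iv {vs : List (List A)} {e : A ⊕ ℕ} {x : A} (h : x ∈ iv vs e) :
    e = Sum.inl x ∨ ∃ v ∈ vs, x ∈ v := by
  rcases e with y | i
  · left
    simp only [iv, List.mem_singleton] at h
    rw [h]
  · right
    simp only [iv] at h
    rcases hv : vs[i]? with _ | v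
    · rw [hv] at h; simp at h
    · rw [hv] at h
      exact ⟨v, List.mem_of_getElem? hv, by simpa using h⟩

theorem mem_W (H : List (List (A ⊕ ℕ))) : ∀ v ∈ W H, ∀ x ∈ v, ∃ b ∈ H, Sum.inl x ∈ b := by
  induction H using List.reverseRecOn with
  | nil => simp [W]
  | append_singleton H b ih =>
    intro v hv x hx
    rw [W_append] at hv
    rcases List.mem_append.1 hv with hv | hv
    · obtain ⟨c, hc, hxc⟩ := ih v hv x hx
      exact ⟨c, by simp [hc], hxc⟩
    · simp only [List.mem_singleton] at hv
      subst hv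
      obtain ⟨e, he, hxe⟩ := List.mem_flatMap.1 hx
      rcases mem_iv hxe with h1 | ⟨v, hv, hxv⟩
      · exact ⟨b, by simp, h1 ▸ he⟩
      · obtain ⟨c, hc, hxc⟩ := ih v hv x hxv
        exact ⟨c, by simp [hc], hxc⟩

theorem mem_WS {H : List (List (A ⊕ ℕ))} {S : List (A ⊕ ℕ)} {x : A} (h : x ∈ WS H S) :
    ∃ b ∈ H ++ [S], Sum.inl x ∈ b := by
  have : S.flatMap (iv (W H)) ∈ W (H ++ [S]) := by rw [W_append]; simp
  exact mem_W (H ++ [S]) _ this x h

/-- the explicit letters of a body -/
def els (b : List (A ⊕ ℕ)) : List A := b.filterMap Sum.getLeft?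

theorem mem_els {b : List (A ⊕ ℕ)} {x : A} : x ∈ els b ↔ Sum.inl x ∈ b := by
  simp [els, List.mem_filterMap]

theorem length_els (b : List (A ⊕ ℕ)) : (els b).length = nE b := by
  induction b with
  | nil => rfl
  | cons e b ih => rcases e with x | i <;> simp [els, List.filterMap_cons, ← ih]

theorem length_flat (H : List (List (A ⊕ ℕ))) (S : List (A ⊕ ℕ)) :
    ((H ++ [S]).flatMap els).length = expl H S := by
  have : List.length ∘ els = (nE : List (A ⊕ ℕ) → ℕ) := by
    funext b; exact length_els b
  simp [List.length_flatMap, expl, length_els]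

/-- explicit letters which really occur -/
theorem card_le (H : List (List (A ⊕ ℕ))) (S : List (A ⊕ ℕ)) (L : List A) (hL : L.Nodup)
    (h : ∀ x ∈ L, x ∈ WS H S) : L.length ≤ expl H S := by
  rw [← length_flat H S]
  refine (hL.subperm ?_).length_le
  intro x hx
  obtain ⟨b, hb, hxb⟩ := mem_WS (h x hx)
  exact List.mem_flatMap.2 ⟨b, hb, mem_els.2 hxb⟩

theorem length_iv {vs : List (List A)} {T : ℕ} (hT : ∀ v ∈ vs, v.length ≤ 2 ^ T) (e : A ⊕ ℕ) :
    (iv vs e).length ≤ 2 ^ T := by
  rcases e with x | i
  · simp [iv, Nat.one_le_two_pow]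
  · simp only [iv]
    rcases hv : vs[i]? with _ | v
    · simp
    · exact hT v (List.mem_of_getElem? hv)

theorem length_body {vs : List (List A)} {T : ℕ} (hT : ∀ v ∈ vs, v.length ≤ 2 ^ T)
    (b : List (A ⊕ ℕ)) : (b.flatMap (iv vs)).length ≤ b.length * 2 ^ T := by
  induction b with
  | nil => simp
  | cons e b ih =>
    rw [List.flatMap_cons, List.length_append, List.length_cons]
    have := length_iv hT e
    nlinarith

theorem length_W (H : List (List (A ⊕ ℕ))) :
    ∀ v ∈ W H, v.length ≤ 2 ^ ((H.map nE).sum + (H.map nR).sum) := by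
  induction H using List.reverseRecOn with
  | nil => simp [W]
  | append_singleton H b ih =>
    intro v hv
    rw [W_append] at hv
    simp only [List.map_append, List.sum_append, List.map_cons, List.map_nil, List.sum_cons,
      List.sum_nil]
    rcases List.mem_append.1 hv with hv | hv
    · exact (ih v hv).trans (Nat.pow_le_pow_right (by norm_num) (by omega))
    · simp only [List.mem_singleton] at hv
      subst hv
      refine (length_body ih b).trans ?_
      have h1 : b.length ≤ 2 ^ b.length := Nat.lt_two_pow_self.le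
      have h2 := length_eq b
      calc b.length * 2 ^ ((H.map nE).sum + (H.map nR).sum) ≤
          2 ^ b.length * 2 ^ ((H.map nE).sum + (H.map nR).sum) := Nat.mul_le_mul_right _ h1
        _ = 2 ^ (b.length + ((H.map nE).sum + (H.map nR).sum)) := (pow_add _ _ _).symm
        _ ≤ _ := Nat.pow_le_pow_right (by norm_num) (by omega)

theorem length_WS (H : List (List (A ⊕ ℕ))) (S : List (A ⊕ ℕ)) :
    (WS H S).length ≤ 2 ^ (expl H S + refs H S) := by
  have h1 : S.flatMap (iv (W H)) ∈ W (H ++ [S]) := by rw [W_append]; simp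
  have h2 := length_W (H ++ [S]) _ h1
  have h3 : ((H ++ [S]).map nE).sum + ((H ++ [S]).map nR).sum = expl H S + refs H S := by
    simp [expl, refs]
  rw [h3] at h2
  exact h2

end

theorem exists_inj : ∃ f : Tok → ℕ, Function.Injective f := by
  refine ⟨fun t => Nat.pair t.1 (Nat.pair t.2.1 t.2.2.val), ?_⟩
  rintro ⟨x, y, ⟨k⟩⟩ ⟨x', y', ⟨k'⟩⟩ h
  simp only [Nat.pair_eq_pair] at h
  obtain ⟨rfl, rfl, rfl⟩ := h
  rfl

end Cnt

/-- a word has at most as many different long tokens as any of its working grammars has explicit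
items after cutting -/
theorem card_tokens (m : Mode) (H : List (List (ℕ ⊕ ℕ))) (S : List (ℕ ⊕ ℕ)) (K : List Tok)
    (hK : K.Nodup) (h : ∀ t ∈ K, t ∈ chunks m (WS H S) ∧ 2 ≤ tlen t) :
    K.length ≤ expl H S + 2 * refs H S := by
  obtain ⟨f, hf⟩ := exists_inj
  have h1 := WS_cut m H S f
  have h2 := card_le (((parts m H).map pcore).map (List.map (Sum.map f id)))
    ((pall (bpart m (parts m H) S)).map (Sum.map f id)) (K.map f) (hK.map hf) (by
      intro x hx
      obtain ⟨t, ht, rfl⟩ := List.mem_map.1 hx
      rw [h1]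
      exact List.mem_map_of_mem (h t ht).1)
  rw [List.length_map, expl_map] at h2
  exact h2.trans (expl_cut m H S)

/-- parallel run -/
theorem Small.pass {e r : ℕ} {u : List ℕ} (h : Small e r u) (m : Mode) (f : Tok → ℕ) :
    Small (e + 2 * r) r ((chunks m u).map f) := by
  obtain ⟨H, S, h1, h2, rfl⟩ := h
  refine ⟨((parts m H).map pcore).map (List.map (Sum.map f id)),
    (pall (bpart m (parts m H) S)).map (Sum.map f id), ?_, ?_, WS_cut m H S f⟩
  · rw [expl_map]
    have := expl_cut m H S
    omega
  · rw [refs_map]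
    have := refs_cut m H S
    omega

theorem Small.tokens {e r : ℕ} {u : List ℕ} (h : Small e r u) (m : Mode) (K : List Tok)
    (hK : K.Nodup) (h : ∀ t ∈ K, t ∈ chunks m u ∧ 2 ≤ tlen t) : K.length ≤ e + 2 * r := by
  rename_i hS
  obtain ⟨H, S, h1, h2, rfl⟩ := hS
  have := card_tokens m H S K hK h
  omega

theorem Small.length_le {e r : ℕ} {u : List ℕ} (h : Small e r u) : u.length ≤ 2 ^ (e + r) := by
  obtain ⟨H, S, h1, h2, rfl⟩ := h
  exact (length_WS H S).trans (Nat.pow_le_pow_right (by norm_num) (by omega))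

/-- the length of a word is at most exponential in the size of the working grammar -/
theorem length_WS_le {A : Type} (H : List (List (A ⊕ ℕ))) (S : List (A ⊕ ℕ)) :
    (WS H S).length ≤ 2 ^ (expl H S + refs H S) := length_WS H S

theorem length_pass_H (X : St M) (m : Mode) : (pass X m).2.1.length = X.2.1.length := by
  simp [pass, cores, Chunk.length_parts]

namespace Cnt

theorem inr_mem_pmul {m : Mode} {p q : Part} {i : ℕ} (h : Sum.inr i ∈ pall (pmul m p q)) :
    Sum.inr i ∈ pall p ∨ Sum.inr i ∈ pall q := by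
  rcases p with _ | ⟨t, _ | ⟨c, s⟩⟩ <;> rcases q with _ | ⟨t', _ | ⟨c', s'⟩⟩ <;>
    simp only [pmul] at h <;> (try split at h) <;> simp [pall] at h ⊢ <;> tauto

theorem inr_mem_ipart {ps : List Part} {e : ℕ ⊕ ℕ} {i : ℕ} (h : Sum.inr i ∈ pall (ipart ps e)) :
    i < ps.length := by
  rcases e with x | j
  · simp [ipart, pall] at h
  · simp only [ipart] at h
    by_cases hj : j < ps.length
    · rcases hp : ps[j]?.getD none with _ | ⟨t, _ | ⟨c, s⟩⟩ <;> rw [hp] at h <;>
        simp [pall] at h
      omega
    · rw [List.getElem?_eq_none (by omega)] at h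
      simp [pall] at h

theorem inr_mem_bpart {m : Mode} {ps : List Part} {b : List (ℕ ⊕ ℕ)} {i : ℕ}
    (h : Sum.inr i ∈ pall (bpart m ps b)) : i < ps.length := by
  induction b using List.reverseRecOn with
  | nil => simp [bpart, pall] at h
  | append_singleton b e ih =>
    rw [bpart_append] at h
    rcases inr_mem_pmul h with h | h
    · exact ih h
    · exact inr_mem_ipart h

theorem pcore_sub {p : Part} {x : Tok ⊕ ℕ} (h : x ∈ pcore p) : x ∈ pall p := by
  rcases p with _ | ⟨t, _ | ⟨c, s⟩⟩ <;> simp [pcore, pall] at h ⊢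
  tauto

theorem inr_mem_parts (m : Mode) (H : List (List (ℕ ⊕ ℕ))) :
    ∀ p ∈ parts m H, ∀ i : ℕ, Sum.inr i ∈ pall p → i < H.length := by
  induction H using List.reverseRecOn with
  | nil => simp [parts]
  | append_singleton H b ih =>
    intro p hp i hi
    rw [parts_append] at hp
    rw [List.length_append, List.length_singleton]
    rcases List.mem_append.1 hp with hp | hp
    · have := ih p hp i hi
      omega
    · rw [List.mem_singleton] at hp
      subst hp
      have := inr_mem_bpart hi
      rw [Chunk.length_parts] at this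
      omega

end Cnt

/-- references of the bodies after a pass -/
theorem refs_lt_pass (X : St M) (m : Mode) : ∀ b ∈ (pass X m).2.1, ∀ i : ℕ, Sum.inr i ∈ b →
    i < X.2.1.length := by
  intro b hb i hi
  simp only [pass, cores, List.mem_map] at hb
  obtain ⟨c, ⟨p, hp, rfl⟩, rfl⟩ := hb
  simp only [rn, List.mem_map] at hi
  obtain ⟨x, hx, hxi⟩ := hi
  rcases x with x | j
  · simp at hxi
  · simp only [Sum.map_inr, id_eq, Sum.inr.injEq] at hxi
    subst hxi
    exact inr_mem_parts m X.2.1 p hp _ (pcore_sub hx)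

/-- references of the start body after a pass -/
theorem refs_lt_pass_start (X : St M) (m : Mode) : ∀ i : ℕ, Sum.inr i ∈ (pass X m).2.2 →
    i < X.2.1.length := by
  intro i hi
  simp only [pass, score, rn, List.mem_map] at hi
  obtain ⟨x, hx, hxi⟩ := hi
  rcases x with x | j
  · simp at hxi
  · simp only [Sum.map_inr, id_eq, Sum.inr.injEq] at hxi
    subst hxi
    have := inr_mem_bpart hx
    rwa [Chunk.length_parts] at this

/-- any input (valid or not) -/
theorem small_init (a : Gram M × ℕ) : Small a.1.length (2 * a.1.length + 1) (U (init a)) := by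
  refine ⟨a.1.map ibody, [Sum.inr a.2], ?_, ?_, rfl⟩
  · have h : ∀ G : Gram M, ((G.map ibody).map nE).sum ≤ G.length := by
      intro G
      induction G with
      | nil => simp
      | cons g G ih =>
        have : nE (ibody g) ≤ 1 := by
          rcases g with _ | (x | p) <;> simp [ibody]
        simp only [List.map_cons, List.sum_cons, List.length_cons]
        omega
    have := h a.1
    simp only [expl, nE_inr, nE_nil]
    omega
  · have h : ∀ G : Gram M, ((G.map ibody).map nR).sum ≤ 2 * G.length := by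
      intro G
      induction G with
      | nil => simp
      | cons g G ih =>
        have : nR (ibody g) ≤ 2 := by
          rcases g with _ | (x | p) <;> simp [ibody]
        simp only [List.map_cons, List.sum_cons, List.length_cons]
        omega
    have := h a.1
    simp only [refs, nR_inr, nR_nil]
    omega

end Pool.Agent.Lib.MP_0c2883_lc.All.RC
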