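import Pool.Agent.Lib.MP_0c2883_lc.All.Base

/-!
# Recompression: definitions

A word over the alphabet `ℕ` (the letters are indices of rules of the output grammar `O`) is cut into
maximal *chunks* of glued neighbours; each chunk has the form `x ^ (k - 1) y` and is coded by the token
`(x, (y, k))`. A pass replaces every chunk of length at least two by a new letter. The word is given by
a working grammar `(H, S)`: a list `H` of bodies (lists of letters and references to earlier bodies)
and a start body `S`.
-/

set_option autoImplicit false

namespace Pool.Agent.Lib.MP_0c2883_lc.All.RC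

open Pool.Agent.Lib.PolyTime List

variable {M : ℕ}

/-! ### Tokens and chunks (word level) -/

/-- Modes of passes: `none` glues equal letters, `some (t, o)` glues `a b` if bit `t` of `a` is `o` and
bit `t` of `b` is not. -/
abbrev Mode := Option (ℕ × Bool)

/-- Are neighbours `a b` glued? -/
def glue : Mode → ℕ → ℕ → Bool
  | none, a, b => decide (a = b)
  | some p, a, b => (a.testBit p.1 == p.2) && !(b.testBit p.1 == p.2)

/-- Tokens `(x, (y, k))`: they stand for `x ^ (k - 1) y`. -/
abbrev Tok := ℕ × (ℕ × BNz)

/-- The length of (the word of) a token. -/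
def tlen (t : Tok) : ℕ := t.2.2.val

/-- The token of a letter. -/
def sg (x : ℕ) : Tok := (x, (x, ⟨1⟩))

/-- Product of two tokens. -/
def tmul (s t : Tok) : Tok := (s.1, (t.2.1, ⟨s.2.2.val + t.2.2.val⟩))

/-- The word of a token. -/
def tw (t : Tok) : List ℕ := replicate (tlen t - 1) t.1 ++ [t.2.1]

/-- Add one letter in front of a list of chunks. -/
def ccons (m : Mode) (x : ℕ) : List Tok → List Tok
  | [] => [sg x]
  | t :: ts => if glue m x t.1 then tmul (sg x) t :: ts else sg x :: t :: ts

/-- The maximal chunks of a word. -/
def chunks (m : Mode) (w : List ℕ) : List Tok := w.foldr (ccons m) []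

/-! ### Working grammars over an alphabet `A` -/

section
variable {A B : Type}

/-- The word of an item, given the words of the earlier rules. -/
def iv (vs : List (List A)) : A ⊕ ℕ → List A
  | Sum.inl x => [x]
  | Sum.inr i => vs[i]?.getD []

/-- The words of the rules of a working grammar. -/
def W (H : List (List (A ⊕ ℕ))) : List (List A) :=
  H.foldl (fun vs b => vs ++ [b.flatMap (iv vs)]) []

/-- The word of the start body. -/
def WS (H : List (List (A ⊕ ℕ))) (S : List (A ⊕ ℕ)) : List A := S.flatMap (iv (W H))

end

/-! ### Partial tokenizations of the words of the rules -/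

/-- `none`: the empty word; `some (t, none)`: a single chunk; `some (p, some (c, s))`: first chunk `p`,
last chunk `s`, between them the list `c` of complete chunks (or references). -/
abbrev Part := Option (Tok × Option (List (Tok ⊕ ℕ) × Tok))

/-- Product of partial tokenizations. -/
def pmul (m : Mode) : Part → Part → Part
  | none, q => q
  | some p, none => some p
  | some (t, none), some (t', none) =>
    if glue m t.2.1 t'.1 then some (tmul t t', none) else some (t, some ([], t'))
  | some (t, none), some (t', some (c', s')) =>
    if glue m t.2.1 t'.1 then some (tmul t t', some (c', s'))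
    else some (t, some (Sum.inl t' :: c', s'))
  | some (t, some (c, s)), some (t', none) =>
    if glue m s.2.1 t'.1 then some (t, some (c, tmul s t'))
    else some (t, some (c ++ [Sum.inl s], t'))
  | some (t, some (c, s)), some (t', some (c', s')) =>
    if glue m s.2.1 t'.1 then some (t, some (c ++ Sum.inl (tmul s t') :: c', s'))
    else some (t, some (c ++ Sum.inl s :: Sum.inl t' :: c', s'))

/-- The partial tokenization of an item, given those of the earlier rules. -/
def ipart (ps : List Part) : ℕ ⊕ ℕ → Part
  | Sum.inl x => some (sg x, none)
  | Sum.inr i => match ps[i]?.getD none with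
    | none => none
    | some (t, none) => some (t, none)
    | some (t, some (_, s)) => some (t, some ([Sum.inr i], s))

/-- The partial tokenization of a body. -/
def bpart (m : Mode) (ps : List Part) (b : List (ℕ ⊕ ℕ)) : Part :=
  b.foldl (fun acc e => pmul m acc (ipart ps e)) none

/-- The partial tokenizations of all rules. -/
def parts (m : Mode) (H : List (List (ℕ ⊕ ℕ))) : List Part :=
  H.foldl (fun ps b => ps ++ [bpart m ps b]) []

/-- The complete chunks in the middle. -/
def pcore : Part → List (Tok ⊕ ℕ)
  | some (_, some (c, _)) => c
  | _ => []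

/-- All chunks. -/
def pall : Part → List (Tok ⊕ ℕ)
  | none => []
  | some (t, none) => [Sum.inl t]
  | some (t, some (c, s)) => Sum.inl t :: (c ++ [Sum.inl s])

/-! ### The tokens of length at least two that really occur -/

/-- Insert without repetition. -/
def ins (l : List Tok) (t : Tok) : List Tok := if l.contains t then l else l ++ [t]

/-- Keys of an item. -/
def kitem (ks : List (List Tok)) : Tok ⊕ ℕ → List Tok
  | Sum.inl t => if 2 ≤ tlen t then [t] else []
  | Sum.inr i => ks[i]?.getD []

/-- Keys of a body. -/
def kbody (ks : List (List Tok)) (c : List (Tok ⊕ ℕ)) : List Tok :=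
  (c.flatMap (kitem ks)).foldl ins []

/-- Keys of all rules. -/
def ktab (cs : List (List (Tok ⊕ ℕ))) : List (List Tok) :=
  cs.foldl (fun ks c => ks ++ [kbody ks c]) []

/-! ### New letters -/

/-- One binary digit of the exponent: square, then multiply by the letter or by the empty word. -/
def cstep (x : ℕ) (s : Gram M × ℕ) (b : Bool) : Gram M × ℕ :=
  (s.1 ++ [some (Sum.inr (s.2, s.2)), some (Sum.inr (s.1.length, if b then x else 0))],
    s.1.length + 1)

/-- Add rules for a token; the index of its word is appended to the list of names. -/
def addTok (s : Gram M × List ℕ) (t : Tok) : Gram M × List ℕ :=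
  let c := (Nat.bits (tlen t - 1)).reverse.foldl (cstep t.1) (s.1, 0)
  (c.1 ++ [some (Sum.inr (c.2, t.2.1))], s.2 ++ [c.1.length])

/-- Add rules for all keys. -/
def alloc (O : Gram M) (K : List Tok) : Gram M × List ℕ := K.foldl addTok (O, [])

/-- The new letter of a token. -/
def nu (K : List Tok) (ns : List ℕ) (t : Tok) : ℕ :=
  if tlen t ≤ 1 then t.1 else ns[K.idxOf t]?.getD 0

/-- Rename the tokens in a body. -/
def rn (K : List Tok) (ns : List ℕ) (c : List (Tok ⊕ ℕ)) : List (ℕ ⊕ ℕ) :=
  c.map (Sum.map (nu K ns) id)

/-! ### Passes and phases -/

/-- States: output grammar, working grammar, start body. -/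
abbrev St (M : ℕ) := Gram M × (List (List (ℕ ⊕ ℕ)) × List (ℕ ⊕ ℕ))

/-- The current word. -/
def U (X : St M) : List ℕ := WS X.2.1 X.2.2

/-- The word over the letters of the group. -/
def expand (X : St M) : List (Letter M) := (U X).flatMap (V X.1)

/-- The bodies (token level) after cutting. -/
def cores (m : Mode) (X : St M) : List (List (Tok ⊕ ℕ)) := (parts m X.2.1).map pcore

/-- The start body (token level) after cutting. -/
def score (m : Mode) (X : St M) : List (Tok ⊕ ℕ) := pall (bpart m (parts m X.2.1) X.2.2)

/-- The keys of the pass. -/
def keys (m : Mode) (X : St M) : List Tok := kbody (ktab (cores m X)) (score m X)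

/-- One pass. -/
def pass (X : St M) (m : Mode) : St M :=
  ((alloc X.1 (keys m X)).1,
    ((cores m X).map (rn (keys m X) (alloc X.1 (keys m X)).2),
      rn (keys m X) (alloc X.1 (keys m X)).2 (score m X)))

/-- The modes of a phase in which the letters are less than `n`. -/
def modes (n : ℕ) : List Mode :=
  none :: (List.range (Nat.size n)).flatMap (fun b => [some (b, false), some (b, true)])

/-- One phase. -/
def phase (X : St M) : St M := (modes X.1.length).foldl pass X

/-! ### Initial state and output -/

/-- Number of a letter. -/
def idx (x : Letter M) : ℕ := 2 * x.1.val + x.2.toNat + 1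

/-- The initial output grammar: the empty word and all letters. -/
def O0 (M : ℕ) : Gram M := none :: List.ofFn (n := 2 * M)
  (fun j => some (Sum.inl (⟨j.val / 2, by have := j.isLt; omega⟩, decide (j.val % 2 = 1))))

/-- Bodies of the initial working grammar. -/
def ibody : GRule M → List (ℕ ⊕ ℕ)
  | none => []
  | some (Sum.inl x) => [Sum.inl (idx x)]
  | some (Sum.inr p) => [Sum.inr p.1, Sum.inr p.2]

/-- The initial state. -/
def init (a : Gram M × ℕ) : St M := (O0 M, (a.1.map ibody, [Sum.inr a.2]))

/-- Output of a final state. -/
def out (X : St M) : Gram M × ℕ :=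
  (X.1, match X.2.2.head? with
    | some (Sum.inl x) => x
    | _ => 0)

/-- Check of one rule. -/
def goodR (p : GRule M × ℕ) : Bool :=
  match p.1 with
  | some (Sum.inr q) => decide (q.1 < p.2) && decide (q.2 < p.2)
  | _ => true

/-- Check of a grammar. -/
def goodB (G : Gram M) : Bool := decide (G[0]? = some none) && G.zipIdx.all goodR

theorem goodB_iff {G : Gram M} : goodB G = true ↔ Good G := by
  unfold goodB Good Valid
  rw [Bool.and_eq_true, decide_eq_true_eq, List.all_eq_true, and_comm]
  refine and_congr_left' ⟨fun h i a b hi => ?_, fun h p hp => ?_⟩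
  · have := h (some (Sum.inr (a, b)), i) (by
      rw [List.mem_zipIdx_iff_getElem?]; exact hi)
    simpa [goodR] using this
  · rcases p with ⟨r, i⟩
    rw [List.mem_zipIdx_iff_getElem?] at hp
    rcases r with _ | x | ⟨a, b⟩
    · rfl
    · rfl
    · have := h i a b hp
      simpa [goodR] using this

/-- The initial state, trivial if the grammar is not good. -/
def init' (a : Gram M × ℕ) : St M := if goodB a.1 then init a else (O0 M, ([], []))

/-- Recompression. -/
def rc (a : Gram M × ℕ) : Gram M × ℕ := out (phase^[2 * a.1.length + 1] (init' a))

/-! ### Counting items, invariants -/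

section
variable {A : Type}

/-- Number of explicit items of a body. -/
def nE (b : List (A ⊕ ℕ)) : ℕ := b.countP Sum.isLeft

/-- Number of references in a body. -/
def nR (b : List (A ⊕ ℕ)) : ℕ := b.countP Sum.isRight

/-- Number of explicit items. -/
def expl (H : List (List (A ⊕ ℕ))) (S : List (A ⊕ ℕ)) : ℕ := (H.map nE).sum + nE S

/-- Number of references. -/
def refs (H : List (List (A ⊕ ℕ))) (S : List (A ⊕ ℕ)) : ℕ := (H.map nR).sum + nR S

end

/-- The letters of the current word are rules of the output grammar. -/
def Inv (X : St M) : Prop := Good X.1 ∧ ∀ x ∈ U X, x < X.1.length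

/-- `u` has a working grammar with at most `e` explicit items and at most `r` references. -/
def Small (e r : ℕ) (u : List ℕ) : Prop :=
  ∃ (H : List (List (ℕ ⊕ ℕ))) (S : List (ℕ ⊕ ℕ)), expl H S ≤ e ∧ refs H S ≤ r ∧ WS H S = u

end Pool.Agent.Lib.MP_0c2883_lc.All.RC
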