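import Pool.Agent.Lib.MP_0c2883_lc.All.RCAlloc
import Pool.Agent.Lib.MP_0c2883_lc.All.RCChunk

/-!
# Recompression: invariants of passes, correctness
-/

set_option autoImplicit false

namespace Pool.Agent.Lib.MP_0c2883_lc.All.RC

open Pool.Agent.Lib.PolyTime List

variable {M : ℕ}

/-! ### Passes -/

theorem keys_ok {X : St M} (h : Inv X) (m : Mode) :
    ∀ t ∈ keys m X, t.1 < X.1.length ∧ t.2.1 < X.1.length ∧ 1 ≤ tlen t := by
  intro t ht
  obtain ⟨h1, h2⟩ := mem_keys.1 ht
  obtain ⟨a, -, b, c, -⟩ := chunks_tok h1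
  exact ⟨h.2 _ b, h.2 _ c, a⟩

/-- letters of the new word: old single letters or new letters standing for long tokens -/
theorem nu_cases {X : St M} (h : Inv X) (m : Mode) {t : Tok} (ht : t ∈ chunks m (U X)) :
    (tlen t = 1 ∧ t = sg t.1 ∧ nu (keys m X) (alloc X.1 (keys m X)).2 t = t.1) ∨
    (2 ≤ tlen t ∧ X.1.length ≤ nu (keys m X) (alloc X.1 (keys m X)).2 t ∧
      nu (keys m X) (alloc X.1 (keys m X)).2 t < (pass X m).1.length) := by
  obtain ⟨a, -, -, -, e⟩ := chunks_tok ht
  by_cases h1 : tlen t = 1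
  · left
    refine ⟨h1, e h1, ?_⟩
    unfold nu
    rw [if_pos h1.le]
  · right
    have h2 : 2 ≤ tlen t := by omega
    have hk : t ∈ keys m X := mem_keys.2 ⟨ht, h2⟩
    obtain ⟨-, -, -, hv⟩ := alloc_spec h.1 (keys_ok h m)
    obtain ⟨x, hx1, hx2, hx3, -⟩ := hv ((keys m X).idxOf t) t (by
      rw [List.getElem?_eq_getElem (List.idxOf_lt_length_of_mem hk), List.getElem_idxOf])
    have : nu (keys m X) (alloc X.1 (keys m X)).2 t = x := by
      unfold nu
      rw [if_neg (by omega), hx1]
      rfl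
    rw [this]
    exact ⟨h2, hx2, hx3⟩

theorem V_nu {X : St M} (h : Inv X) (m : Mode) {t : Tok} (ht : t ∈ chunks m (U X)) :
    V (pass X m).1 (nu (keys m X) (alloc X.1 (keys m X)).2 t) = (tw t).flatMap (V X.1) := by
  obtain ⟨a, -, b, -, e⟩ := chunks_tok ht
  obtain ⟨-, hp, -, hv⟩ := alloc_spec h.1 (keys_ok h m)
  by_cases h1 : tlen t = 1
  · have h3 : nu (keys m X) (alloc X.1 (keys m X)).2 t = t.1 := by
      unfold nu
      rw [if_pos h1.le]
    rw [h3]
    have h4 : (tw t).flatMap (V X.1) = V X.1 t.1 := by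
      rw [e h1]
      simp [tw, sg, tlen]
    rw [h4]
    exact V_prefix hp (h.2 _ b)
  · have h2 : 2 ≤ tlen t := by omega
    have hk : t ∈ keys m X := mem_keys.2 ⟨ht, h2⟩
    obtain ⟨x, hx1, hx2, hx3, hx4⟩ := hv ((keys m X).idxOf t) t (by
      rw [List.getElem?_eq_getElem (List.idxOf_lt_length_of_mem hk), List.getElem_idxOf])
    have : nu (keys m X) (alloc X.1 (keys m X)).2 t = x := by
      unfold nu
      rw [if_neg (by omega), hx1]
      rfl
    rw [this]
    exact hx4

theorem inv_pass {X : St M} (h : Inv X) (m : Mode) : Inv (pass X m) := by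
  obtain ⟨hg, hp, -, -⟩ := alloc_spec h.1 (keys_ok h m)
  refine ⟨hg, fun x hx => ?_⟩
  rw [U_pass] at hx
  obtain ⟨t, ht, rfl⟩ := List.mem_map.1 hx
  rcases nu_cases h m ht with ⟨-, -, e⟩ | ⟨-, -, e⟩
  · rw [e]
    obtain ⟨-, -, b, -, -⟩ := chunks_tok ht
    exact lt_of_lt_of_le (h.2 _ b) hp.length_le
  · exact e

theorem expand_pass {X : St M} (h : Inv X) (m : Mode) : expand (pass X m) = expand X := by
  unfold expand
  rw [U_pass, List.flatMap_map]
  have h1 : (chunks m (U X)).flatMap
      (fun t => V (pass X m).1 (nu (keys m X) (alloc X.1 (keys m X)).2 t)) =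
      (chunks m (U X)).flatMap (fun t => (tw t).flatMap (V X.1)) := by
    rw [List.flatMap_def, List.flatMap_def]
    congr 1
    exact List.map_congr_left fun t ht => V_nu h m ht
  rw [h1]
  conv_rhs => rw [← chunks_flat m (U X)]
  rw [List.flatMap_assoc]

theorem length_pass (X : St M) (m : Mode) : X.1.length ≤ (pass X m).1.length := alloc_le _ _

theorem length_U_pass (X : St M) (m : Mode) : (U (pass X m)).length ≤ (U X).length := by
  rw [U_pass, List.length_map]
  have h1 := chunks_sum m (U X)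
  rw [← h1]
  have : ∀ l : List Tok, (∀ t ∈ l, 1 ≤ tlen t) → l.length ≤ (l.map tlen).sum := by
    intro l
    induction l with
    | nil => intro; simp
    | cons a l ih =>
      intro hl
      have h2 := hl a (by simp)
      have h3 := ih fun t ht => hl t (by simp [ht])
      simp only [List.length_cons, List.map_cons, List.sum_cons]
      omega
  exact this _ fun t ht => (chunks_tok ht).1

theorem inv_fold {X : St M} (h : Inv X) (l : List Mode) :
    Inv (l.foldl pass X) ∧ expand (l.foldl pass X) = expand X ∧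
    X.1.length ≤ (l.foldl pass X).1.length ∧ (U (l.foldl pass X)).length ≤ (U X).length := by
  induction l generalizing X with
  | nil => exact ⟨h, rfl, le_rfl, le_rfl⟩
  | cons m l ih =>
    obtain ⟨a, b, c, d⟩ := ih (inv_pass h m)
    rw [List.foldl_cons]
    exact ⟨a, b.trans (expand_pass h m), (length_pass X m).trans c, d.trans (length_U_pass X m)⟩

theorem inv_phase {X : St M} (h : Inv X) : Inv (phase X) ∧ expand (phase X) = expand X ∧
    X.1.length ≤ (phase X).1.length := by
  obtain ⟨a, b, c, -⟩ := inv_fold h (modes X.1.length)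
  exact ⟨a, b, c⟩

theorem length_U_phase {X : St M} (h : Inv X) : (U (phase X)).length ≤ (U X).length :=
  (inv_fold h (modes X.1.length)).2.2.2

theorem inv_iter {X : St M} (h : Inv X) (k : ℕ) : Inv (phase^[k] X) ∧
    expand (phase^[k] X) = expand X ∧ X.1.length ≤ (phase^[k] X).1.length := by
  induction k with
  | zero => exact ⟨h, rfl, le_rfl⟩
  | succ k ih =>
    rw [Function.iterate_succ_apply']
    obtain ⟨a, b, c⟩ := ih
    obtain ⟨a', b', c'⟩ := inv_phase a
    exact ⟨a', b'.trans b, c.trans c'⟩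

/-- final correctness, from the length bound -/
theorem rc_correct (G : Gram M) (i : ℕ) (_hG : Good G) (_hi : i < G.length) (k : ℕ)
    (hk : (U (phase^[k] (init (G, i)))).length ≤ 1) :
    let r := out (phase^[k + 1] (init (G, i)))
    Good r.1 ∧ r.2 < r.1.length ∧ V r.1 r.2 = V G i := by
  intro r
  obtain ⟨hX, eX, -⟩ := inv_iter (inv_init ((G, i) : Gram M × ℕ)) k
  rw [expand_init'] at eX
  generalize hXd : phase^[k] (init (G, i)) = X at hk hX eX
  have hr : r = out (phase X) := by
    show out (phase^[k + 1] (init (G, i))) = _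
    rw [Function.iterate_succ_apply', hXd]
  rw [hr]
  -- the last pass of the phase
  obtain ⟨l, m, hl⟩ : ∃ l m, modes X.1.length = l ++ [m] := by
    have : modes X.1.length ≠ [] := by simp [modes]
    exact ⟨_, _, (List.dropLast_append_getLast this).symm⟩
  obtain ⟨hZ, eZ, -, lZ⟩ := inv_fold hX l
  have hY : phase X = pass (l.foldl pass X) m := by
    unfold phase
    rw [hl, List.foldl_append]
    rfl
  generalize l.foldl pass X = Z at hZ eZ lZ hY
  have h1 := pass_short (X := Z) (m := m) (lZ.trans hk)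
  have h2 := length_U_pass Z m
  have h3 := inv_pass hZ m
  have h4 := expand_pass hZ m
  rw [hY]
  generalize pass Z m = Y at h1 h2 h3 h4
  have h5 : expand Y = V G i := by rw [h4, eZ, eX]
  refine ⟨h3.1, ?_⟩
  have h6 : (U Y).length ≤ 1 := by omega
  rcases hU : U Y with _ | ⟨x, _ | ⟨y, l'⟩⟩
  · rw [hU] at h1
    have h7 : (out Y).2 = 0 := by
      unfold out
      rw [h1]
      rfl
    rw [h7]
    refine ⟨good_pos h3.1, ?_⟩
    rw [← h5]
    unfold expand
    rw [hU]
    exact V_none h3.1.2
  · rw [hU] at h1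
    have h7 : (out Y).2 = x := by
      unfold out
      rw [h1]
      rfl
    rw [h7]
    refine ⟨h3.2 x (by rw [hU]; simp), ?_⟩
    rw [← h5]
    unfold expand
    rw [hU]
    simp [out]
  · rw [hU] at h6
    simp at h6

end Pool.Agent.Lib.MP_0c2883_lc.All.RC
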