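import Pool.Agent.Lib.MP_0c2883_lc.All.RCDefs
import Pool.Agent.Lib.MP_0c2883_lc.All.ElimPT

/-!
# Recompression in polynomial time: tokens, products, cutting
-/

set_option autoImplicit false

namespace Pool.Agent.Lib.MP_0c2883_lc.All.RC

open Pool.Agent.Lib.PolyTime List

variable {M : ℕ}
variable {α β γ : Type} [Enc α] [Enc β] [Enc γ]

/-- Items of token level bodies. -/
abbrev Itm := Tok ⊕ ℕ

theorem pt_natBN {f : α → ℕ} (hf : PT f) : PT (fun a => BNz.mk (f a)) := by
  have h := PT.foldl (f := fun n : ℕ => List.replicate n ()) (init := fun _ => BNz.mk 0)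
    (step := fun _ s _ => BNz.mk (s.val + 1)) (PT.replicateUnit PT.id) (PT.const _)
    (PT.bnzAdd PT.snd.fst' (PT.const (BNz.mk 1)))
    (B := fun n => 4 * n + 1) (((PB.const 4).mul PB.id).add (PB.const 1)) (by
      intro n l' hl'
      have h1 : ∀ (l : List Unit) (k : ℕ), l.foldl (fun s _ => BNz.mk (s.val + 1)) (BNz.mk k) =
          BNz.mk (k + l.length) := by
        intro l
        induction l with
        | nil => intro k; rfl
        | cons a l ih => intro k; rw [List.foldl_cons, ih, List.length_cons, Nat.add_right_comm, Nat.add_assoc]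
      rw [h1, Nat.zero_add]
      have h2 : l'.length ≤ n := by
        have := hl'.length_le
        rwa [List.length_replicate] at this
      have h3 := size_bn_le (BNz.mk l'.length)
      have h4 : Nat.size l'.length ≤ l'.length := by
        rw [Nat.size_le]; exact Nat.lt_two_pow_self
      simp only at h3
      rw [size_nat]
      omega)
  have h5 : PT (fun n : ℕ => BNz.mk n) := h.congr (fun n => by
    have h1 : ∀ (l : List Unit) (k : ℕ), l.foldl (fun s _ => BNz.mk (s.val + 1)) (BNz.mk k) =
        BNz.mk (k + l.length) := by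
      intro l
      induction l with
      | nil => intro k; rfl
      | cons a l ih => intro k; rw [List.foldl_cons, ih, List.length_cons, Nat.add_right_comm, Nat.add_assoc]
    rw [h1, List.length_replicate, Nat.zero_add])
  exact h5.comp hf

theorem pt_bit {f g : α → ℕ} (hf : PT f) (hg : PT g) : PT (fun a => (f a).testBit (g a)) :=
  PT.testBitz (pt_natBN hf) hg

theorem pt_beq {f g : α → Bool} (hf : PT f) (hg : PT g) : PT (fun a => f a == g a) := by
  have h : PT (fun x : Bool × Bool => x.1 == x.2) := PT.ofFintype _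
  exact h.comp (hf.pair hg)

theorem pt_glue {f : α → Mode} {g h : α → ℕ} (hf : PT f) (hg : PT g) (hh : PT h) :
    PT (fun a => glue (f a) (g a) (h a)) := by
  have base : PT (fun x : Mode × (ℕ × ℕ) => glue x.1 x.2.1 x.2.2) := by
    have c1 : PT (fun x : (Mode × (ℕ × ℕ)) × (ℕ × Bool) =>
        (x.1.2.1.testBit x.2.1 == x.2.2) && !(x.1.2.2.testBit x.2.1 == x.2.2)) :=
      PT.and (pt_beq (pt_bit PT.fst.snd'.fst' PT.snd.fst') PT.snd.snd')
        (PT.not (pt_beq (pt_bit PT.fst.snd'.snd' PT.snd.fst') PT.snd.snd'))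
    refine (PT.optCases (f := fun x : Mode × (ℕ × ℕ) => x.1)
      (g := fun x => decide (x.2.1 = x.2.2))
      (h := fun x p => (x.2.1.testBit p.1 == p.2) && !(x.2.2.testBit p.1 == p.2))
      PT.fst (PT.eq PT.snd.fst' PT.snd.snd') c1).congr (fun x => ?_)
    rcases x with ⟨m, a, b⟩
    cases m <;> rfl
  exact base.comp (hf.pair (hg.pair hh))

theorem pt_sg {f : α → ℕ} (hf : PT f) : PT (fun a => sg (f a)) :=
  hf.pair (hf.pair (PT.const (BNz.mk 1)))

theorem pt_tmul {f g : α → Tok} (hf : PT f) (hg : PT g) : PT (fun a => tmul (f a) (g a)) :=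
  hf.fst'.pair (hg.snd'.fst'.pair (PT.bnzAdd hf.snd'.snd' hg.snd'.snd'))

/-- Short name for the state of the product. -/
abbrev PX := Mode × (Part × Part)

theorem pt_pmul0 : PT (fun x : PX => pmul x.1 x.2.1 x.2.2) := by
  -- both parts nonempty
  let A := Tok × Option (List Itm × Tok)
  -- case none none
  have nn : PT (fun x : Mode × (Tok × Tok) =>
      (if glue x.1 x.2.1.2.1 x.2.2.1 then some (tmul x.2.1 x.2.2, none)
        else some (x.2.1, some ([], x.2.2)) : Part)) :=
    PT.cond (pt_glue PT.fst PT.snd.fst'.snd'.fst' PT.snd.snd'.fst')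
      (PT.some ((pt_tmul PT.snd.fst' PT.snd.snd').pair (PT.const none)))
      (PT.some (PT.snd.fst'.pair (PT.some ((PT.const []).pair PT.snd.snd'))))
  -- case none some
  have ns : PT (fun x : (Mode × (Tok × Tok)) × (List Itm × Tok) =>
      (if glue x.1.1 x.1.2.1.2.1 x.1.2.2.1 then some (tmul x.1.2.1 x.1.2.2, some (x.2.1, x.2.2))
        else some (x.1.2.1, some (Sum.inl x.1.2.2 :: x.2.1, x.2.2)) : Part)) :=
    PT.cond (pt_glue PT.fst.fst' PT.fst.snd'.fst'.snd'.fst' PT.fst.snd'.snd'.fst')
      (PT.some ((pt_tmul PT.fst.snd'.fst' PT.fst.snd'.snd').pair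
        (PT.some (PT.snd.fst'.pair PT.snd.snd'))))
      (PT.some (PT.fst.snd'.fst'.pair (PT.some
        ((PT.cons (PT.inl PT.fst.snd'.snd') PT.snd.fst').pair PT.snd.snd'))))
  -- case some none
  have sn : PT (fun x : (Mode × (Tok × Tok)) × (List Itm × Tok) =>
      (if glue x.1.1 x.2.2.2.1 x.1.2.2.1 then some (x.1.2.1, some (x.2.1, tmul x.2.2 x.1.2.2))
        else some (x.1.2.1, some (x.2.1 ++ [Sum.inl x.2.2], x.1.2.2)) : Part)) :=
    PT.cond (pt_glue PT.fst.fst' PT.snd.snd'.snd'.fst' PT.fst.snd'.snd'.fst')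
      (PT.some (PT.fst.snd'.fst'.pair (PT.some (PT.snd.fst'.pair
        (pt_tmul PT.snd.snd' PT.fst.snd'.snd')))))
      (PT.some (PT.fst.snd'.fst'.pair (PT.some
        ((PT.append PT.snd.fst' (PT.list1 (PT.inl PT.snd.snd'))).pair PT.fst.snd'.snd'))))
  -- case some some
  have ss : PT (fun x : ((Mode × (Tok × Tok)) × (List Itm × Tok)) × (List Itm × Tok) =>
      (if glue x.1.1.1 x.1.2.2.2.1 x.1.1.2.2.1 then
        some (x.1.1.2.1, some (x.1.2.1 ++ Sum.inl (tmul x.1.2.2 x.1.1.2.2) :: x.2.1, x.2.2))
        else some (x.1.1.2.1, some (x.1.2.1 ++ Sum.inl x.1.2.2 :: Sum.inl x.1.1.2.2 :: x.2.1,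
          x.2.2)) : Part)) :=
    PT.cond (pt_glue PT.fst.fst'.fst' PT.fst.snd'.snd'.snd'.fst' PT.fst.fst'.snd'.snd'.fst')
      (PT.some (PT.fst.fst'.snd'.fst'.pair (PT.some ((PT.append PT.fst.snd'.fst'
        (PT.cons (PT.inl (pt_tmul PT.fst.snd'.snd' PT.fst.fst'.snd'.snd')) PT.snd.fst')).pair
        PT.snd.snd'))))
      (PT.some (PT.fst.fst'.snd'.fst'.pair (PT.some ((PT.append PT.fst.snd'.fst'
        (PT.cons (PT.inl PT.fst.snd'.snd') (PT.cons (PT.inl PT.fst.fst'.snd'.snd')
          PT.snd.fst'))).pair PT.snd.snd'))))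
  -- both nonempty
  have both : PT (fun x : Mode × (A × A) => pmul x.1 (some x.2.1) (some x.2.2)) := by
    have hx : PT (fun x : Mode × (A × A) => (x.1, (x.2.1.1, x.2.2.1))) :=
      PT.fst.pair (PT.snd.fst'.fst'.pair PT.snd.snd'.fst')
    have s1 : PT (fun x : (Mode × (A × A)) × (List Itm × Tok) =>
        ((x.1.1, (x.1.2.1.1, x.1.2.2.1)), x.2)) := (hx.comp PT.fst).pair PT.snd
    have s2 : PT (fun x : ((Mode × (A × A)) × (List Itm × Tok)) × (List Itm × Tok) =>
        (((x.1.1.1, (x.1.1.2.1.1, x.1.1.2.2.1)), x.1.2), x.2)) := (s1.comp PT.fst).pair PT.snd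
    have n1 := PT.optCasesP (f := fun x : Mode × (A × A) => x.2.2.2)
      PT.snd.snd'.snd' (nn.comp hx) (ns.comp s1)
    have n2 := PT.optCasesP (f := fun x : (Mode × (A × A)) × (List Itm × Tok) => x.1.2.2.2)
      PT.fst.snd'.snd'.snd' (sn.comp s1) (ss.comp s2)
    refine (PT.optCasesP (f := fun x : Mode × (A × A) => x.2.1.2)
      PT.snd.fst'.snd' n1 n2).congr (fun x => ?_)
    rcases x with ⟨m, ⟨t, r⟩, ⟨t', r'⟩⟩
    rcases r with _ | ⟨c, s⟩ <;> rcases r' with _ | ⟨c', s'⟩ <;> rfl
  have s3 : PT (fun x : (PX × A) × A => (x.1.1.1, (x.1.2, x.2))) :=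
    PT.fst.fst'.fst'.pair (PT.fst.snd'.pair PT.snd)
  have i1 := PT.optCasesP (f := fun x : PX × A => x.1.2.2)
    PT.fst.snd'.snd' PT.fst.snd'.fst' (both.comp s3)
  refine (PT.optCasesP (f := fun x : PX => x.2.1) PT.snd.fst' PT.snd.snd'
    i1).congr (fun x => ?_)
  rcases x with ⟨m, p, q⟩
  rcases p with _ | p <;> rcases q with _ | q <;> rfl

theorem pt_pmul {f : α → Mode} {g h : α → Part} (hf : PT f) (hg : PT g) (hh : PT h) :
    PT (fun a => pmul (f a) (g a) (h a)) :=
  pt_pmul0.comp (hf.pair (hg.pair hh))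

/-! ### Bounds -/

/-- Bounds for a token. -/
def okT (L B : ℕ) (t : Tok) : Prop := t.1 ≤ L ∧ t.2.1 ≤ L ∧ tlen t ≤ B

/-- Bounds for an item. -/
def okI (L B R : ℕ) : Itm → Prop
  | Sum.inl t => okT L B t
  | Sum.inr i => i ≤ R

/-- Bounds for a partial tokenization. -/
def okP (L B R k : ℕ) : Part → Prop
  | none => True
  | some (t, none) => okT L B t
  | some (t, some (c, s)) => okT L B t ∧ okT L B s ∧ c.length ≤ k ∧ ∀ e ∈ c, okI L B R e

theorem okT.mono {L B L' B' : ℕ} {t : Tok} (h : okT L B t) (hL : L ≤ L') (hB : B ≤ B') :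
    okT L' B' t := ⟨h.1.trans hL, h.2.1.trans hL, h.2.2.trans hB⟩

theorem okI.mono {L B R L' B' R' : ℕ} {e : Itm} (h : okI L B R e) (hL : L ≤ L') (hB : B ≤ B')
    (hR : R ≤ R') : okI L' B' R' e := by
  rcases e with t | i
  · exact okT.mono h hL hB
  · exact le_trans (show i ≤ R from h) hR

theorem okP.mono {L B R k L' B' R' k' : ℕ} {p : Part} (h : okP L B R k p) (hL : L ≤ L')
    (hB : B ≤ B') (hR : R ≤ R') (hk : k ≤ k') : okP L' B' R' k' p := by
  rcases p with _ | ⟨t, _ | ⟨c, s⟩⟩
  · trivial
  · exact okT.mono h hL hB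
  · obtain ⟨h1, h2, h3, h4⟩ := h
    exact ⟨h1.mono hL hB, h2.mono hL hB, h3.trans hk, fun e he => (h4 e he).mono hL hB hR⟩

theorem okT_mul {L B B' : ℕ} {s t : Tok} (hs : okT L B s) (ht : okT L B' t) :
    okT L (B + B') (tmul s t) := ⟨hs.1, ht.2.1, Nat.add_le_add hs.2.2 ht.2.2⟩

theorem okP_mul (m : Mode) {L B B' R k k' : ℕ} {p q : Part} (hp : okP L B R k p)
    (hq : okP L B' R k' q) : okP L (B + B') R (k + k' + 2) (pmul m p q) := by
  rcases p with _ | ⟨t, _ | ⟨c, s⟩⟩
  · exact hq.mono le_rfl (by omega) le_rfl (by omega)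
  · rcases q with _ | ⟨t', _ | ⟨c', s'⟩⟩
    · exact hp.mono le_rfl (by omega) le_rfl (by omega)
    · simp only [pmul]
      split_ifs
      · exact okT_mul hp hq
      · exact ⟨okT.mono hp le_rfl (by omega), okT.mono hq le_rfl (by omega), by simp, by simp⟩
    · obtain ⟨h1, h2, h3, h4⟩ := hq
      simp only [pmul]
      split_ifs
      · exact ⟨okT_mul hp h1, h2.mono le_rfl (by omega), by omega,
          fun e he => (h4 e he).mono le_rfl (by omega) le_rfl⟩
      · refine ⟨okT.mono hp le_rfl (by omega), h2.mono le_rfl (by omega), by simp; omega, ?_⟩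
        intro e he
        rcases List.mem_cons.1 he with rfl | he
        · exact okT.mono h1 le_rfl (by omega)
        · exact (h4 e he).mono le_rfl (by omega) le_rfl
  · obtain ⟨g1, g2, g3, g4⟩ := hp
    rcases q with _ | ⟨t', _ | ⟨c', s'⟩⟩
    · exact okP.mono (p := some (t, some (c, s))) ⟨g1, g2, g3, g4⟩ le_rfl (by omega) le_rfl
        (by omega)
    · simp only [pmul]
      split_ifs
      · exact ⟨g1.mono le_rfl (by omega), okT_mul g2 hq, by omega,
          fun e he => (g4 e he).mono le_rfl (by omega) le_rfl⟩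
      · refine ⟨g1.mono le_rfl (by omega), okT.mono hq le_rfl (by omega), by simp; omega, ?_⟩
        intro e he
        rw [List.mem_append, List.mem_singleton] at he
        rcases he with he | rfl
        · exact (g4 e he).mono le_rfl (by omega) le_rfl
        · exact g2.mono le_rfl (by omega)
    · obtain ⟨h1, h2, h3, h4⟩ := hq
      simp only [pmul]
      split_ifs
      · refine ⟨g1.mono le_rfl (by omega), h2.mono le_rfl (by omega), by simp; omega, ?_⟩
        intro e he
        rw [List.mem_append, List.mem_cons] at he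
        rcases he with he | rfl | he
        · exact (g4 e he).mono le_rfl (by omega) le_rfl
        · exact okT_mul g2 h1
        · exact (h4 e he).mono le_rfl (by omega) le_rfl
      · refine ⟨g1.mono le_rfl (by omega), h2.mono le_rfl (by omega), by simp; omega, ?_⟩
        intro e he
        rw [List.mem_append, List.mem_cons, List.mem_cons] at he
        rcases he with he | rfl | rfl | he
        · exact (g4 e he).mono le_rfl (by omega) le_rfl
        · exact g2.mono le_rfl (by omega)
        · exact okT.mono h1 le_rfl (by omega)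
        · exact (h4 e he).mono le_rfl (by omega) le_rfl

/-- Bounds for the letters and references of a body. -/
def okB (L R : ℕ) (b : List (ℕ ⊕ ℕ)) : Prop :=
  (∀ x, Sum.inl x ∈ b → x ≤ L) ∧ ∀ i, Sum.inr i ∈ b → i ≤ R

theorem ipart_ok {L B R k : ℕ} {ps : List Part} (h : ∀ p ∈ ps, okP L B R k p) (hB : 1 ≤ B)
    {e : ℕ ⊕ ℕ} (he : okB L R [e]) : okP L B R 1 (ipart ps e) := by
  rcases e with x | i
  · exact ⟨he.1 x (by simp), he.1 x (by simp), hB⟩
  · simp only [ipart]
    rcases hp : ps[i]? with _ | p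
    · simp only [Option.getD_none]
      trivial
    · have h1 := h p (List.mem_of_getElem? hp)
      simp only [Option.getD_some]
      rcases p with _ | ⟨t, _ | ⟨c, s⟩⟩
      · trivial
      · exact h1
      · refine ⟨h1.1, h1.2.1, by simp, ?_⟩
        intro e' he'
        rw [List.mem_singleton] at he'
        subst he'
        exact he.2 i (by simp)

theorem bpart_ok (m : Mode) {L B R k : ℕ} {ps : List Part} (h : ∀ p ∈ ps, okP L B R k p)
    (hB : 1 ≤ B) (b : List (ℕ ⊕ ℕ)) (hb : okB L R b) :
    okP L (b.length * B) R (3 * b.length) (bpart m ps b) := by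
  induction b using List.reverseRecOn with
  | nil => trivial
  | append_singleton b e ih =>
    have h1 : bpart m ps (b ++ [e]) = pmul m (bpart m ps b) (ipart ps e) := by
      unfold bpart; rw [List.foldl_append]; rfl
    have h2 : okB L R b := ⟨fun x hx => hb.1 x (by simp [hx]), fun i hi => hb.2 i (by simp [hi])⟩
    have h3 : okB L R [e] := ⟨fun x hx => hb.1 x (List.mem_append_right _ hx),
      fun i hi => hb.2 i (List.mem_append_right _ hi)⟩
    rw [h1, List.length_append, List.length_singleton]
    refine (okP_mul m (ih h2) (ipart_ok h hB h3)).mono le_rfl ?_ le_rfl (by omega)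
    rw [Nat.add_mul, Nat.one_mul]

/-- The total number of items. -/
def tot (H : List (List (ℕ ⊕ ℕ))) : ℕ := (H.map List.length).sum

theorem parts_ok (m : Mode) {L R n : ℕ} (H : List (List (ℕ ⊕ ℕ))) (hb : ∀ b ∈ H, okB L R b)
    (hn : ∀ b ∈ H, b.length ≤ n) : ∀ p ∈ parts m H, okP L (2 ^ tot H) R (3 * n) p := by
  induction H using List.reverseRecOn with
  | nil => simp [parts]
  | append_singleton H b ih =>
    have h1 : parts m (H ++ [b]) = parts m H ++ [bpart m (parts m H) b] := by
      unfold parts; rw [List.foldl_append]; rfl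
    have ih' := ih (fun b hb' => hb b (by simp [hb'])) (fun b hb' => hn b (by simp [hb']))
    have ht : tot (H ++ [b]) = tot H + b.length := by unfold tot; simp
    have h2 := bpart_ok m ih' Nat.one_le_two_pow b (hb b (by simp))
    rw [h1, ht]
    intro p hp
    rw [List.mem_append, List.mem_singleton] at hp
    rcases hp with hp | rfl
    · exact (ih' p hp).mono le_rfl (Nat.pow_le_pow_right (by norm_num) (by omega)) le_rfl le_rfl
    · refine h2.mono le_rfl ?_ le_rfl (Nat.mul_le_mul_left 3 (hn b (by simp)))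
      have h3 : b.length ≤ 2 ^ b.length := Nat.lt_two_pow_self.le
      calc b.length * 2 ^ tot H ≤ 2 ^ b.length * 2 ^ tot H := Nat.mul_le_mul_right _ h3
        _ = 2 ^ (tot H + b.length) := by rw [pow_add, mul_comm]

/-! ### Sizes -/

theorem size_tok {L B b : ℕ} {t : Tok} (h : okT L B t) (hb : Nat.size B ≤ b) :
    size t ≤ 4 * L + 4 * b + 5 := by
  have h1 := size_bn_le t.2.2
  have h2 : Nat.size t.2.2.val ≤ Nat.size B := Nat.size_le_size h.2.2
  rw [size_prod, size_prod, size_nat, size_nat]
  have := h.1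
  have := h.2.1
  omega

theorem size_itm {L B R b : ℕ} {e : Itm} (h : okI L B R e) (hb : Nat.size B ≤ b) :
    size e ≤ 4 * L + 4 * b + 2 * R + 7 := by
  rcases e with t | i
  · rw [size_inl]
    have := size_tok (t := t) h hb
    omega
  · rw [size_inr, size_nat]
    have : i ≤ R := h
    omega

/-- Bound for the size of a partial tokenization. -/
def szP (L b R k : ℕ) : ℕ := (k + 3) * (4 * L + 4 * b + 2 * R + 20) + 20

theorem size_part {L B R k b : ℕ} {p : Part} (h : okP L B R k p) (hb : Nat.size B ≤ b) :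
    size p ≤ szP L b R k := by
  unfold szP
  rcases p with _ | ⟨t, _ | ⟨c, s⟩⟩
  · have : size (none : Part) = 1 := rfl
    omega
  · rw [size_some, size_prod]
    have h1 := size_tok (t := t) h hb
    have : size (none : Option (List (Tok ⊕ ℕ) × Tok)) = 1 := rfl
    simp only
    have h3 : (k + 3) * (4 * L + 4 * b + 2 * R + 20) = k * (4 * L + 4 * b + 2 * R + 20) +
      3 * (4 * L + 4 * b + 2 * R + 20) := Nat.add_mul _ _ _
    omega
  · obtain ⟨h1, h2, h3, h4⟩ := h
    rw [size_some, size_prod (x := (t, some (c, s))), size_some, size_prod (x := (c, s))]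
    have h5 := size_tok h1 hb
    have h6 := size_tok h2 hb
    have h7 := size_list_le (S := 4 * L + 4 * b + 2 * R + 7) c (fun e he => size_itm (h4 e he) hb)
    have h8 : c.length * (4 * L + 4 * b + 2 * R + 7 + 1) ≤ k * (4 * L + 4 * b + 2 * R + 20) :=
      Nat.mul_le_mul h3 (by omega)
    have h9 : (k + 3) * (4 * L + 4 * b + 2 * R + 20) = k * (4 * L + 4 * b + 2 * R + 20) +
      3 * (4 * L + 4 * b + 2 * R + 20) := Nat.add_mul _ _ _
    simp only at h5 h6 ⊢
    omega

theorem szP_mono {L b R k L' b' R' k' : ℕ} (hL : L ≤ L') (hb : b ≤ b') (hR : R ≤ R')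
    (hk : k ≤ k') : szP L b R k ≤ szP L' b' R' k' := by
  unfold szP
  have := Nat.mul_le_mul (show k + 3 ≤ k' + 3 by omega)
    (show 4 * L + 4 * b + 2 * R + 20 ≤ 4 * L' + 4 * b' + 2 * R' + 20 by omega)
  omega

theorem PB.szP {L b R k : ℕ → ℕ} (hL : PB L) (hb : PB b) (hR : PB R) (hk : PB k) :
    PB (fun n => szP (L n) (b n) (R n) (k n)) :=
  ((hk.add (PB.const 3)).mul (((((PB.const 4).mul hL).add ((PB.const 4).mul hb)).add
    ((PB.const 2).mul hR)).add (PB.const 20))).add (PB.const 20)

theorem okT_size (t : Tok) : okT (size t) (2 ^ size t) t := by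
  have h1 := natSize_le_size t.2.2
  have h2 : tlen t < 2 ^ Nat.size (tlen t) := Nat.lt_size_self _
  have h3 : size t = size t.1 + (size t.2.1 + size t.2.2 + 1) + 1 := by rw [size_prod, size_prod]
  rw [size_nat, size_nat] at h3
  refine ⟨by omega, by omega, ?_⟩
  have h4 : Nat.size (tlen t) ≤ size t := by
    have : Nat.size (tlen t) ≤ size t.2.2 := h1
    omega
  have := Nat.pow_le_pow_right (show 0 < 2 by norm_num) h4
  omega

theorem okP_size (p : Part) : okP (size p) (2 ^ size p) (size p) (size p) p := by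
  rcases p with _ | ⟨t, _ | ⟨c, s⟩⟩
  · trivial
  · have h1 : size (some (t, none) : Part) =
        (size t + size (none : Option (List (Tok ⊕ ℕ) × Tok)) + 1) + 2 := by
      rw [size_some, size_prod (x := (t, none))]
    exact okT.mono (okT_size t) (by omega) (Nat.pow_le_pow_right (by norm_num) (by omega))
  · have h1 : size (some (t, some (c, s)) : Part) = (size t + ((size c + size s + 1) + 2) + 1) + 2 := by
      rw [size_some, size_prod (x := (t, some (c, s))), size_some, size_prod (x := (c, s))]
    have h2 := length_le_size c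
    refine ⟨(okT_size t).mono (by omega) (Nat.pow_le_pow_right (by norm_num) (by omega)),
      (okT_size s).mono (by omega) (Nat.pow_le_pow_right (by norm_num) (by omega)), by omega, ?_⟩
    intro e he
    have h3 := size_mem_lt he
    rcases e with t' | i
    · rw [size_inl] at h3
      exact (okT_size t').mono (by omega) (Nat.pow_le_pow_right (by norm_num) (by omega))
    · rw [size_inr, size_nat] at h3
      show i ≤ _
      omega

theorem okB_size (b : List (ℕ ⊕ ℕ)) : okB (size b) (size b) b := by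
  constructor
  · intro x hx
    have := size_mem_lt hx
    rw [size_inl, size_nat] at this
    omega
  · intro x hx
    have := size_mem_lt hx
    rw [size_inr, size_nat] at this
    omega

theorem okB.mono {L R L' R' : ℕ} {b : List (ℕ ⊕ ℕ)} (h : okB L R b) (hL : L ≤ L') (hR : R ≤ R') :
    okB L' R' b := ⟨fun x hx => (h.1 x hx).trans hL, fun i hi => (h.2 i hi).trans hR⟩

theorem size_mul_pow_le (j n : ℕ) : Nat.size (j * 2 ^ n) ≤ j + n := by
  rw [Nat.size_le, pow_add]
  exact Nat.mul_lt_mul_of_pos_right Nat.lt_two_pow_self (by positivity)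

/-! ### Cutting in polynomial time -/

theorem pt_ipart {f : α → List Part} {g : α → ℕ ⊕ ℕ} (hf : PT f) (hg : PT g) :
    PT (fun a => ipart (f a) (g a)) := by
  have base : PT (fun x : List Part × (ℕ ⊕ ℕ) => ipart x.1 x.2) := by
    have c1 : PT (fun x : (List Part × (ℕ ⊕ ℕ)) × ℕ => (some (sg x.2, none) : Part)) :=
      PT.some ((pt_sg PT.snd).pair (PT.const none))
    have d : PT (fun x : (((List Part × (ℕ ⊕ ℕ)) × ℕ) × (Tok × Option (List Itm × Tok))) ×
        (List Itm × Tok) => (some (x.1.2.1, some ([Sum.inr x.1.1.2], x.2.2)) : Part)) :=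
      PT.some (PT.fst.snd'.fst'.pair (PT.some ((PT.list1 (PT.inr PT.fst.fst'.snd')).pair
        PT.snd.snd')))
    have d1 := PT.optCasesP (f := fun x : ((List Part × (ℕ ⊕ ℕ)) × ℕ) ×
      (Tok × Option (List Itm × Tok)) => x.2.2)
      (g := fun x => (some (x.2.1, none) : Part)) PT.snd.snd'
      (PT.some (PT.snd.fst'.pair (PT.const none))) d
    have c2 := PT.optCasesP (f := fun x : (List Part × (ℕ ⊕ ℕ)) × ℕ => x.1.1[x.2]?.getD none)
      (g := fun _ => (none : Part)) (PT.getDv PT.snd PT.fst.fst' none) (PT.const none) d1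
    refine (PT.sumCases (f := fun x : List Part × (ℕ ⊕ ℕ) => x.2)
      (g := fun x y => (fun x : (List Part × (ℕ ⊕ ℕ)) × ℕ => (some (sg x.2, none) : Part)) (x, y))
      (h := fun x y => (fun x : (List Part × (ℕ ⊕ ℕ)) × ℕ =>
        (x.1.1[x.2]?.getD none).elim none fun b => (((x, b)).2.2).elim
          (some ((x, b).2.1, none)) fun b_1 => some (((x, b), b_1).1.2.1,
            some ([Sum.inr ((x, b), b_1).1.1.2], ((x, b), b_1).2.2))) (x, y))
      PT.snd c1 c2).congr (fun x => ?_)
    rcases x with ⟨ps, y | i⟩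
    · rfl
    · simp only [ipart]
      rcases ps[i]?.getD none with _ | ⟨t, _ | ⟨c, s⟩⟩ <;> rfl
  exact base.comp (hf.pair hg)

theorem pt_bpart {f : α → Mode} {g : α → List Part} {h : α → List (ℕ ⊕ ℕ)} (hf : PT f) (hg : PT g)
    (hh : PT h) : PT (fun a => bpart (f a) (g a) (h a)) := by
  have base : PT (fun x : Mode × (List Part × List (ℕ ⊕ ℕ)) => bpart x.1 x.2.1 x.2.2) := by
    refine PT.foldl (f := fun x : Mode × (List Part × List (ℕ ⊕ ℕ)) => x.2.2)
      (init := fun _ => (none : Part)) (step := fun x acc e => pmul x.1 acc (ipart x.2.1 e))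
      PT.snd.snd' (PT.const none)
      (pt_pmul PT.fst.fst' PT.snd.fst' (pt_ipart PT.fst.snd'.fst' PT.snd.snd'))
      (B := fun n => szP n (n + n) n (3 * n))
      (PB.szP PB.id (PB.id.add PB.id) PB.id ((PB.const 3).mul PB.id)) ?_
    rintro ⟨m, ps, b⟩ l' hl'
    change size (bpart m ps l') ≤ _
    have hs : size (m, (ps, b)) = size m + (size ps + size b + 1) + 1 := by
      rw [size_prod, size_prod]
    set n := size (m, (ps, b)) with hn
    have h1 : ∀ p ∈ ps, okP n (2 ^ n) n n p := by
      intro p hp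
      have := size_mem_lt hp
      exact (okP_size p).mono (by omega) (Nat.pow_le_pow_right (by norm_num) (by omega))
        (by omega) (by omega)
    have h2 : okB n n l' := by
      have h3 := okB_size b
      exact ⟨fun x hx => (h3.1 x (hl'.subset hx)).trans (by omega),
        fun x hx => (h3.2 x (hl'.subset hx)).trans (by omega)⟩
    have h4 := bpart_ok m h1 Nat.one_le_two_pow l' h2
    have h5 := size_part h4 (size_mul_pow_le _ _)
    have h6 : l'.length ≤ n := hl'.length_le.trans ((length_le_size b).trans (by omega))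
    exact h5.trans (szP_mono le_rfl (by omega) le_rfl (by omega))
  exact base.comp (hf.pair (hg.pair hh))

theorem tot_le_size (H : List (List (ℕ ⊕ ℕ))) : tot H ≤ size H := by
  unfold tot
  induction H with
  | nil => simp
  | cons b H ih =>
    have := length_le_size b
    rw [List.map_cons, List.sum_cons, size_cons]
    omega

theorem tot_prefix {H' H : List (List (ℕ ⊕ ℕ))} (h : H' <+: H) : tot H' ≤ tot H := by
  obtain ⟨t, rfl⟩ := h
  unfold tot; simp

/-- Uniform bounds for the partial tokenizations of a list of bodies. -/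
theorem parts_okn (m : Mode) {H : List (List (ℕ ⊕ ℕ))} {n : ℕ} (hn : size H ≤ n) :
    ∀ p ∈ parts m H, okP n (2 ^ n) n (3 * n) p := by
  have h1 : ∀ b ∈ H, okB n n b := fun b hb => by
    have := size_mem_lt hb
    exact (okB_size b).mono (by omega) (by omega)
  have h2 : ∀ b ∈ H, b.length ≤ n := fun b hb => by
    have := size_mem_lt hb
    have := length_le_size b
    omega
  intro p hp
  exact (parts_ok m H h1 h2 p hp).mono le_rfl (Nat.pow_le_pow_right (by norm_num)
    ((tot_le_size H).trans hn)) le_rfl le_rfl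

theorem size_pow_le (n : ℕ) : Nat.size (2 ^ n) ≤ n + 1 := by
  rw [Nat.size_le]; exact Nat.pow_lt_pow_right (by norm_num) (by omega)

theorem length_parts' (m : Mode) (H : List (List (ℕ ⊕ ℕ))) : (parts m H).length = H.length := by
  induction H using List.reverseRecOn with
  | nil => rfl
  | append_singleton H b ih =>
    have h1 : parts m (H ++ [b]) = parts m H ++ [bpart m (parts m H) b] := by
      unfold parts; rw [List.foldl_append]; rfl
    rw [h1, List.length_append, List.length_append, ih]; rfl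

theorem pt_parts {f : α → Mode} {g : α → List (List (ℕ ⊕ ℕ))} (hf : PT f) (hg : PT g) :
    PT (fun a => parts (f a) (g a)) := by
  have base : PT (fun x : Mode × List (List (ℕ ⊕ ℕ)) => parts x.1 x.2) := by
    refine PT.foldl (f := fun x : Mode × List (List (ℕ ⊕ ℕ)) => x.2)
      (init := fun _ => ([] : List Part)) (step := fun x ps b => ps ++ [bpart x.1 ps b])
      PT.snd (PT.const []) (PT.append PT.snd.fst' (PT.list1 (pt_bpart PT.fst.fst' PT.snd.fst'
        PT.snd.snd')))
      (B := fun n => n * (szP n (n + 1) n (3 * n) + 1) + 1)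
      ((PB.id.mul ((PB.szP PB.id (PB.id.add (PB.const 1)) PB.id ((PB.const 3).mul PB.id)).add
        (PB.const 1))).add (PB.const 1)) ?_
    rintro ⟨m, H⟩ l' hl'
    change size (parts m l') ≤ _
    have hs : size (m, H) = size m + size H + 1 := by rw [size_prod]
    set n := size (m, H) with hn
    have h0 : size l' ≤ size H := by
      obtain ⟨t, rfl⟩ := hl'
      have := size_append l' t
      have := size_pos t
      omega
    have h1 := parts_okn m (H := l') (n := n) (by omega)
    have h2 := size_list_le (S := szP n (n + 1) n (3 * n)) (parts m l')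
      (fun p hp => size_part (h1 p hp) (size_pow_le n))
    have h3 : (parts m l').length ≤ n := by
      rw [length_parts']
      exact (length_le_size l').trans (by omega)
    have := Nat.mul_le_mul_right (szP n (n + 1) n (3 * n) + 1) h3
    omega
  exact base.comp (hf.pair hg)

end Pool.Agent.Lib.MP_0c2883_lc.All.RC
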