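import Pool.Agent.Lib.MP_0c2883_lc.All.RCPT1
import Pool.Agent.Lib.MP_0c2883_lc.All.RCChunk

/-!
# Recompression in polynomial time: keys, renaming
-/

set_option autoImplicit false

namespace Pool.Agent.Lib.MP_0c2883_lc.All.RC

open Pool.Agent.Lib.PolyTime List

variable {M : ℕ}
variable {α β γ : Type} [Enc α] [Enc β] [Enc γ]

theorem pt_pcore {f : α → Part} (hf : PT f) : PT (fun a => pcore (f a)) := by
  have base : PT (fun p : Part => pcore p) := by
    have h1 := PT.optCasesP (f := fun x : Part × (Tok × Option (List Itm × Tok)) => x.2.2)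
      (g := fun _ => ([] : List Itm)) PT.snd.snd' (PT.const _)
      (F := fun y => y.2.1) PT.snd.fst'
    refine (PT.optCasesP (f := fun p : Part => p) (g := fun _ => ([] : List Itm)) PT.id
      (PT.const _) h1).congr (fun p => ?_)
    rcases p with _ | ⟨t, _ | ⟨c, s⟩⟩ <;> rfl
  exact base.comp hf

theorem pt_pall {f : α → Part} (hf : PT f) : PT (fun a => pall (f a)) := by
  have base : PT (fun p : Part => pall p) := by
    have h1 := PT.optCasesP (f := fun x : Part × (Tok × Option (List Itm × Tok)) => x.2.2)
      (g := fun x => ([Sum.inl x.2.1] : List Itm)) PT.snd.snd' (PT.list1 (PT.inl PT.snd.fst'))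
      (F := fun y => Sum.inl y.1.2.1 :: (y.2.1 ++ [Sum.inl y.2.2]))
      (PT.cons (PT.inl PT.fst.snd'.fst') (PT.append PT.snd.fst' (PT.list1 (PT.inl PT.snd.snd'))))
    refine (PT.optCasesP (f := fun p : Part => p) (g := fun _ => ([] : List Itm)) PT.id
      (PT.const _) h1).congr (fun p => ?_)
    rcases p with _ | ⟨t, _ | ⟨c, s⟩⟩ <;> rfl
  exact base.comp hf

theorem pt_contains {f : α → List Tok} {g : α → Tok} (hf : PT f) (hg : PT g) :
    PT (fun a => (f a).contains (g a)) := by
  refine (PT.any (f := f) (p := fun a t => decide (t = g a)) hf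
    (PT.eq PT.snd (hg.comp PT.fst))).congr (fun a => ?_)
  rw [Bool.eq_iff_iff, List.any_eq_true, List.contains_iff_mem]
  simp

theorem pt_ins {f : α → List Tok} {g : α → Tok} (hf : PT f) (hg : PT g) :
    PT (fun a => ins (f a) (g a)) :=
  PT.cond (pt_contains hf hg) hf (PT.append hf (PT.list1 hg))

theorem pt_kitem {f : α → List (List Tok)} {g : α → Itm} (hf : PT f) (hg : PT g) :
    PT (fun a => kitem (f a) (g a)) := by
  have base : PT (fun x : List (List Tok) × Itm => kitem x.1 x.2) := by
    have c1 : PT (fun x : (List (List Tok) × Itm) × Tok =>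
        (if 2 ≤ tlen x.2 then [x.2] else [] : List Tok)) :=
      PT.ite (c := fun x : (List (List Tok) × Itm) × Tok => 2 ≤ tlen x.2)
        (PT.bnzLe (PT.const (BNz.mk 2)) PT.snd.snd'.snd') (PT.list1 PT.snd) (PT.const [])
    refine (PT.sumCases (f := fun x : List (List Tok) × Itm => x.2)
      (g := fun x t => (if 2 ≤ tlen t then [t] else [] : List Tok))
      (h := fun x i => x.1[i]?.getD []) PT.snd c1
      (PT.getDv PT.snd PT.fst.fst' [])).congr (fun x => ?_)
    rcases x with ⟨ks, t | i⟩ <;> rfl
  exact base.comp (hf.pair hg)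

theorem pt_kbody {f : α → List (List Tok)} {g : α → List Itm} (hf : PT f) (hg : PT g) :
    PT (fun a => kbody (f a) (g a)) := by
  have h1 : PT (fun a => (g a).flatMap (kitem (f a))) :=
    PT.flatMap (g := fun a e => kitem (f a) e) hg (pt_kitem (hf.comp PT.fst) PT.snd)
  obtain ⟨p, hp⟩ := h1.size_le
  refine PT.foldl_add (f := fun a => (g a).flatMap (kitem (f a))) (init := fun _ => ([] : List Tok))
    (step := fun _ l t => ins l t) h1 (PT.const _) (pt_ins PT.snd.fst' PT.snd.snd')
    (C := fun n => p.eval n + 1) ((PB.poly p).add (PB.const 1)) ?_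
  intro a s t ht
  have h2 := size_mem_lt ht
  have h3 := hp a
  unfold ins
  split_ifs
  · omega
  · have := size_append s [t]
    rw [size_cons, size_nil] at this
    omega

theorem ktab_sub (cs : List (List Itm)) : ∀ l ∈ ktab cs, l.Nodup ∧ ∀ t ∈ l, Sum.inl t ∈ cs.flatten := by
  induction cs using List.reverseRecOn with
  | nil => simp [ktab]
  | append_singleton cs c ih =>
    have h1 : ktab (cs ++ [c]) = ktab cs ++ [kbody (ktab cs) c] := by
      unfold ktab; rw [List.foldl_append]; rfl
    rw [h1]
    intro l hl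
    rw [List.mem_append, List.mem_singleton] at hl
    rcases hl with hl | rfl
    · exact ⟨(ih l hl).1, fun t ht => by
        rw [List.flatten_append, List.mem_append]; exact Or.inl ((ih l hl).2 t ht)⟩
    · refine ⟨Chunk.nodup_foldl_ins List.nodup_nil, fun t ht => ?_⟩
      obtain ⟨e, he, ht⟩ := Chunk.mem_kbody.1 ht
      rw [List.flatten_append, List.mem_append]
      rcases e with s | i
      · simp only [kitem] at ht
        split_ifs at ht
        · rw [List.mem_singleton] at ht
          subst ht
          right; simpa using he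
        · simp at ht
      · left
        simp only [kitem] at ht
        rcases hk : (ktab cs)[i]? with _ | l
        · rw [hk] at ht; simp at ht
        · rw [hk] at ht
          exact (ih l (List.mem_of_getElem? hk)).2 t ht

theorem size_flatten_le (cs : List (List Itm)) : cs.flatten.length ≤ size cs ∧
    ∀ e ∈ cs.flatten, size e ≤ size cs := by
  induction cs with
  | nil => simp
  | cons c cs ih =>
    have h1 := length_le_size c
    rw [size_cons]
    refine ⟨?_, ?_⟩
    · rw [List.flatten_cons, List.length_append]; omega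
    · intro e he
      rw [List.flatten_cons, List.mem_append] at he
      rcases he with he | he
      · have := size_mem_lt he; omega
      · have := ih.2 e he; omega

theorem nodup_length_le {l : List Tok} {L : List Itm} (h : l.Nodup)
    (hs : ∀ t ∈ l, (Sum.inl t : Itm) ∈ L) : l.length ≤ L.length := by
  have h1 : (l.map (fun t => (Sum.inl t : Itm))).Nodup := h.map (fun a b => Sum.inl.inj)
  have h2 : (l.map (fun t => (Sum.inl t : Itm))) ⊆ L := by
    intro e he
    obtain ⟨t, ht, rfl⟩ := List.mem_map.1 he
    exact hs t ht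
  have := (List.subperm_of_subset h1 h2).length_le
  rwa [List.length_map] at this

theorem size_keys_le {l : List Tok} {cs : List (List Itm)} {n : ℕ} (hn : size cs ≤ n)
    (h : l.Nodup) (hs : ∀ t ∈ l, (Sum.inl t : Itm) ∈ cs.flatten) : size l ≤ n * (n + 1) + 1 := by
  obtain ⟨h1, h2⟩ := size_flatten_le cs
  have h3 := nodup_length_le h hs
  have h4 := size_list_le (S := n) l (fun t ht => by
    have := h2 _ (hs t ht)
    rw [size_inl] at this
    omega)
  have := Nat.mul_le_mul_right (n + 1) (show l.length ≤ n by omega)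
  omega

theorem length_ktab (cs : List (List Itm)) : (ktab cs).length = cs.length := Chunk.length_tb _ cs

theorem size_prefix_le {l' l : List β} (h : l' <+: l) : size l' ≤ size l := by
  obtain ⟨t, rfl⟩ := h
  have := size_append l' t
  have := size_pos t
  omega

theorem pt_ktab {f : α → List (List Itm)} (hf : PT f) : PT (fun a => ktab (f a)) := by
  have base : PT (fun cs : List (List Itm) => ktab cs) := by
    refine PT.foldl (f := fun cs : List (List Itm) => cs)
      (init := fun _ => ([] : List (List Tok))) (step := fun _ ks c => ks ++ [kbody ks c])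
      PT.id (PT.const []) (PT.append PT.snd.fst' (PT.list1 (pt_kbody PT.snd.fst' PT.snd.snd')))
      (B := fun n => n * (n * (n + 1) + 1 + 1) + 1)
      ((PB.id.mul (((PB.id.mul (PB.id.add (PB.const 1))).add (PB.const 1)).add
        (PB.const 1))).add (PB.const 1)) ?_
    intro cs l' hl'
    change size (ktab l') ≤ _
    have h0 := size_prefix_le hl'
    have h1 := size_list_le (S := size cs * (size cs + 1) + 1) (ktab l') (fun l hl => by
      obtain ⟨h2, h3⟩ := ktab_sub l' l hl
      exact size_keys_le h0 h2 h3)
    have h2 : (ktab l').length ≤ size cs := by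
      rw [length_ktab]; exact (length_le_size l').trans h0
    have := Nat.mul_le_mul_right (size cs * (size cs + 1) + 1 + 1) h2
    omega
  exact base.comp hf

theorem pt_idxOf {f : α → List Tok} {g : α → Tok} (hf : PT f) (hg : PT g) :
    PT (fun a => (f a).idxOf (g a)) := by
  refine (PT.idxOf hf hg).congr (fun a => ?_)
  congr 1
  exact lawful_beq_subsingleton _ _

theorem pt_nu {f : α → List Tok} {g : α → List ℕ} {h : α → Tok} (hf : PT f) (hg : PT g)
    (hh : PT h) : PT (fun a => nu (f a) (g a) (h a)) :=
  PT.ite (c := fun a => tlen (h a) ≤ 1) (PT.bnzLe hh.snd'.snd' (PT.const (BNz.mk 1))) hh.fst'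
    (PT.getDv (pt_idxOf hf hh) hg 0)

theorem pt_rn {f : α → List Tok} {g : α → List ℕ} {h : α → List Itm} (hf : PT f) (hg : PT g)
    (hh : PT h) : PT (fun a => rn (f a) (g a) (h a)) := by
  have h1 : PT (fun x : α × Itm => (Sum.map (nu (f x.1) (g x.1)) id x.2 : ℕ ⊕ ℕ)) := by
    refine (PT.sumCases (f := fun x : α × Itm => x.2)
      (g := fun x t => (Sum.inl (nu (f x.1) (g x.1) t) : ℕ ⊕ ℕ))
      (h := fun x i => (Sum.inr i : ℕ ⊕ ℕ)) PT.snd
      (PT.inl (pt_nu (hf.comp PT.fst.fst') (hg.comp PT.fst.fst') PT.snd))
      (PT.inr PT.snd)).congr (fun x => ?_)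
    rcases x with ⟨a, t | i⟩ <;> rfl
  exact PT.map (g := fun a e => (Sum.map (nu (f a) (g a)) id e : ℕ ⊕ ℕ)) hh h1

end Pool.Agent.Lib.MP_0c2883_lc.All.RC
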