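import Pool.Agent.Lib.MP_0c2883_lc.All.RCAlloc
import Pool.Agent.Lib.MP_0c2883_lc.All.ElimPT

/-!
# Recompression in polynomial time: new letters
-/

set_option autoImplicit false

namespace Pool.Agent.Lib.MP_0c2883_lc.All.RC

open Pool.Agent.Lib.PolyTime List

variable {M : ℕ}

namespace PTAlloc

theorem size_cat (a b : ℕ) : size (some (Sum.inr (a, b)) : GRule M) = 2 * a + 2 * b + 9 := by
  rw [size_some, size_inr, size_prod, size_nat, size_nat]
  omega

/-- Size of the grammar after a run of `cstep`. -/
theorem size_cfold (x : ℕ) (bs : List Bool) (s : Gram M × ℕ) (hs : s.2 ≤ s.1.length) :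
    (bs.foldl (cstep x) s).2 ≤ (bs.foldl (cstep x) s).1.length ∧
    (bs.foldl (cstep x) s).1.length = s.1.length + 2 * bs.length ∧
    ∀ C, 4 * ((bs.foldl (cstep x) s).1.length + x) + 20 ≤ C →
      size (bs.foldl (cstep x) s).1 ≤ size s.1 + 2 * bs.length * C := by
  induction bs generalizing s with
  | nil => exact ⟨hs, by simp, fun C _ => by simp⟩
  | cons b bs ih =>
    have h1 : (cstep x s b).1.length = s.1.length + 2 := by simp [cstep]
    have h2 : (cstep x s b).2 = s.1.length + 1 := rfl
    obtain ⟨h3, h4, h5⟩ := ih (cstep x s b) (by omega)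
    rw [List.foldl_cons]
    refine ⟨h3, by rw [h4, h1, List.length_cons]; ring, fun C hC => ?_⟩
    have h6 := h5 C hC
    have h7 : size (cstep x s b).1 ≤ size s.1 + 2 * C := by
      have e : (cstep x s b).1 = s.1 ++ [some (Sum.inr (s.2, s.2)),
        some (Sum.inr (s.1.length, if b then x else 0))] := rfl
      have e1 := size_append s.1 [(some (Sum.inr (s.2, s.2)) : GRule M),
        some (Sum.inr (s.1.length, if b then x else 0))]
      rw [size_cons, size_cons, size_nil, size_cat, size_cat, ← e] at e1
      have e2 : (if b then x else 0) ≤ x := by split_ifs <;> omega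
      have e3 : s.1.length ≤ (bs.foldl (cstep x) (cstep x s b)).1.length := by
        rw [h4, h1]; omega
      omega
    rw [List.length_cons]
    have h8 : 2 * (bs.length + 1) * C = 2 * bs.length * C + 2 * C := by ring
    omega

theorem size_addTok (s : Gram M × List ℕ) (t : Tok) {C : ℕ}
    (hC : 4 * ((addTok s t).1.length + t.1 + t.2.1) + 20 ≤ C) :
    size (addTok s t).1 + s.1.length * C ≤ size s.1 + (addTok s t).1.length * C := by
  obtain ⟨h1, h2, h3⟩ := size_cfold t.1 (Nat.bits (tlen t - 1)).reverse (s.1, 0) (Nat.zero_le _)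
  have hlen := addTok_length s t
  set c := (Nat.bits (tlen t - 1)).reverse.foldl (cstep t.1) (s.1, 0) with hc
  have e : (addTok s t).1 = c.1 ++ [some (Sum.inr (c.2, t.2.1))] := rfl
  have e1 := size_append c.1 [(some (Sum.inr (c.2, t.2.1)) : GRule M)]
  rw [size_cons, size_nil, size_cat, ← e] at e1
  have hl : (addTok s t).1.length = c.1.length + 1 := by rw [e]; simp
  simp only at h1 h2 h3
  have h4 := h3 C (by omega)
  rw [List.length_reverse] at h4 h2
  have h5 : (addTok s t).1.length * C = s.1.length * C +
      2 * (Nat.bits (tlen t - 1)).length * C + C := by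
    rw [hlen]; ring
  omega

theorem alloc_concat (O : Gram M) (K : List Tok) (t : Tok) :
    alloc O (K ++ [t]) = addTok (alloc O K) t := by
  unfold alloc
  rw [List.foldl_append]
  rfl

end PTAlloc

open PTAlloc

/-- Size of the grammar after `alloc`. -/
theorem size_alloc (O : Gram M) (K : List Tok) {L : ℕ} (hL : ∀ t ∈ K, t.1 ≤ L ∧ t.2.1 ≤ L) :
    size (alloc O K).1 ≤ size O +
      ((alloc O K).1.length - O.length) * (4 * ((alloc O K).1.length + 2 * L) + 20) := by
  have key : ∀ (K : List Tok), (∀ t ∈ K, t.1 ≤ L ∧ t.2.1 ≤ L) → ∀ C,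
      4 * ((alloc O K).1.length + 2 * L) + 20 ≤ C →
      size (alloc O K).1 + O.length * C ≤ size O + (alloc O K).1.length * C := by
    intro K
    induction K using List.reverseRecOn with
    | nil => intro _ C _; exact le_rfl
    | append_singleton K t ih =>
      intro hK C hC
      have h0 := addTok_length (alloc O K) t
      rw [alloc_concat] at hC ⊢
      have h1 := ih (fun u hu => hK u (by simp [hu])) C (by omega)
      have ht := hK t (by simp)
      have h2 := size_addTok (alloc O K) t (C := C) (by omega)
      omega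
  have h := key K hL _ le_rfl
  have h1 := alloc_le O K
  obtain ⟨k, hk⟩ : ∃ k, (alloc O K).1.length = O.length + k := ⟨_, (Nat.add_sub_cancel' h1).symm⟩
  rw [hk] at h ⊢
  rw [Nat.add_sub_cancel_left]
  rw [add_mul] at h
  omega

namespace PTAlloc

variable {α β γ : Type} [Enc α] [Enc β] [Enc γ]

theorem length_names (O : Gram M) (K : List Tok) : (alloc O K).2.length = K.length := by
  induction K using List.reverseRecOn with
  | nil => rfl
  | append_singleton K t ih =>
    rw [alloc_concat]
    simp [addTok, ih]

theorem names_lt (O : Gram M) (K : List Tok) : ∀ x ∈ (alloc O K).2, x < (alloc O K).1.length := by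
  induction K using List.reverseRecOn with
  | nil => intro x hx; simp [alloc] at hx
  | append_singleton K t ih =>
    intro x hx
    have h0 := addTok_length (alloc O K) t
    rw [alloc_concat] at hx ⊢
    have e : (addTok (alloc O K) t).2 = (alloc O K).2 ++
      [((Nat.bits (tlen t - 1)).reverse.foldl (cstep t.1) ((alloc O K).1, 0)).1.length] := rfl
    rw [e, List.mem_append, List.mem_singleton] at hx
    rcases hx with hx | rfl
    · have := ih x hx
      omega
    · rw [length_fold, h0, List.length_reverse]
      dsimp only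
      omega

theorem pt_cat {f g : α → ℕ} (hf : PT f) (hg : PT g) :
    PT (fun a => (some (Sum.inr (f a, g a)) : GRule M)) := PT.some (PT.inr (hf.pair hg))

/-- One digit, as a function of everything. -/
theorem pt_cstep : PT (fun x : Tok × ((Gram M × ℕ) × Bool) => cstep x.1.1 x.2.1 x.2.2) := by
  have h1 : PT (fun x : Tok × ((Gram M × ℕ) × Bool) => (if x.2.2 = true then x.1.1 else 0 : ℕ)) :=
    PT.cond PT.snd.snd' PT.fst.fst' (PT.const 0)
  exact (PT.append PT.snd.fst'.fst' (PT.cons (pt_cat PT.snd.fst'.snd' PT.snd.fst'.snd')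
    (PT.list1 (pt_cat PT.snd.fst'.fst'.length h1)))).pair
    (PT.succ PT.snd.fst'.fst'.length)

theorem pt_bitsT {f : α → Tok} (hf : PT f) :
    PT (fun a => (Nat.bits (tlen (f a) - 1)).reverse) :=
  PT.reverse (PT.bnBits (PT.bnzSub hf.snd'.snd' (PT.const (BNz.mk 1))))

theorem size_nat_le_tok (t : Tok) : t.1 ≤ size t ∧ t.2.1 ≤ size t ∧
    (Nat.bits (tlen t - 1)).length ≤ size t ∧ Nat.size (tlen t) ≤ size t := by
  have e : size t = (2 * t.1 + 1) + ((2 * t.2.1 + 1) + size t.2.2 + 1) + 1 := by
    rw [size_prod, size_prod, size_nat, size_nat]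
  have h1 := natSize_le_size t.2.2
  have h2 : Nat.size (tlen t) ≤ size t.2.2 := h1
  have h3 : (Nat.bits (tlen t - 1)).length ≤ size t.2.2 := by
    rw [Nat.size_eq_bits_len]
    exact (Nat.size_le_size (Nat.sub_le _ _)).trans h2
  refine ⟨by omega, by omega, by omega, by omega⟩

theorem pt_cfold {f : α → Tok} {g : α → Gram M} (hf : PT f) (hg : PT g) :
    PT (fun a => (Nat.bits (tlen (f a) - 1)).reverse.foldl (cstep (f a).1) (g a, 0)) := by
  obtain ⟨p, hp⟩ := hf.size_le
  obtain ⟨q, hq⟩ := hg.size_le
  have hs : PT (fun x : α × ((Gram M × ℕ) × Bool) => cstep (f x.1).1 x.2.1 x.2.2) :=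
    pt_cstep.comp ((hf.comp PT.fst).pair PT.snd)
  have hL : PB (fun n => q.eval n + 2 * p.eval n) :=
    (PB.poly q).add ((PB.const 2).mul (PB.poly p))
  refine PT.foldl (f := fun a => (Nat.bits (tlen (f a) - 1)).reverse)
    (init := fun a => (g a, 0)) (step := fun a s b => cstep (f a).1 s b)
    (pt_bitsT hf) (hg.pair (PT.const 0)) hs
    (B := fun n => (q.eval n + 2 * p.eval n *
      (4 * ((q.eval n + 2 * p.eval n) + p.eval n) + 20)) + (2 * (q.eval n + 2 * p.eval n) + 1) + 1)
    ?_ ?_
  · exact (((PB.poly q).add (((PB.const 2).mul (PB.poly p)).mul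
      (((PB.const 4).mul (hL.add (PB.poly p))).add (PB.const 20)))).add
      (((PB.const 2).mul hL).add (PB.const 1))).add (PB.const 1)
  · intro a l' hl'
    obtain ⟨h1, h2, h3⟩ := size_cfold (f a).1 l' (g a, 0) (Nat.zero_le _)
    obtain ⟨t1, t2, t3, t4⟩ := size_nat_le_tok (f a)
    have h4 := hp a
    have h5 := hq a
    have h6 : (g a).length ≤ size (g a) := length_le_size _
    have h7 : l'.length ≤ (Nat.bits (tlen (f a) - 1)).length := by
      have := hl'.length_le
      rwa [List.length_reverse] at this
    set s := l'.foldl (cstep (f a).1) (g a, 0) with hsd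
    simp only at h2
    have h8 : s.1.length ≤ q.eval (size a) + 2 * p.eval (size a) := by omega
    have h9 := h3 (4 * ((q.eval (size a) + 2 * p.eval (size a)) + p.eval (size a)) + 20)
      (by omega)
    have h10 : 2 * l'.length * (4 * ((q.eval (size a) + 2 * p.eval (size a)) + p.eval (size a)) + 20) ≤
        2 * p.eval (size a) * (4 * ((q.eval (size a) + 2 * p.eval (size a)) + p.eval (size a)) + 20) :=
      Nat.mul_le_mul_right _ (by omega)
    simp only at h9
    rw [size_prod, size_nat]
    omega

theorem pt_addTok {f : α → Gram M × List ℕ} {g : α → Tok} (hf : PT f) (hg : PT g) :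
    PT (fun a => addTok (f a) (g a)) := by
  have hc := pt_cfold (M := M) hg hf.fst'
  exact (PT.append hc.fst' (PT.list1 (pt_cat hc.snd' hg.snd'.fst'))).pair
    (PT.append hf.snd' (PT.list1 hc.fst'.length))

end PTAlloc

open PTAlloc

variable {α : Type} [Enc α]

/-- **Creating new letters is polynomial time.** -/
theorem pt_alloc {f : α → Gram M} {g : α → List Tok} (hf : PT f) (hg : PT g) :
    PT (fun a => alloc (f a) (g a)) := by
  obtain ⟨p, hp⟩ := hg.size_le
  obtain ⟨q, hq⟩ := hf.size_le
  have hs : PT (fun x : α × ((Gram M × List ℕ) × Tok) => addTok x.2.1 x.2.2) :=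
    pt_addTok PT.snd.fst' PT.snd.snd'
  let N : ℕ → ℕ := fun n => q.eval n + p.eval n * (2 * p.eval n + 1)
  have hN : PB N := (PB.poly q).add ((PB.poly p).mul (((PB.const 2).mul (PB.poly p)).add
    (PB.const 1)))
  refine PT.foldl (f := g) (init := fun a => (f a, ([] : List ℕ)))
    (step := fun _ s t => addTok s t) hg (hf.pair (PT.const [])) hs
    (B := fun n => (q.eval n + N n * (4 * (N n + 2 * p.eval n) + 20)) +
      (p.eval n * ((2 * N n + 1) + 1) + 1) + 1) ?_ ?_
  · exact (((PB.poly q).add (hN.mul (((PB.const 4).mul (hN.add ((PB.const 2).mul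
      (PB.poly p)))).add (PB.const 20)))).add (((PB.poly p).mul ((((PB.const 2).mul hN).add
      (PB.const 1)).add (PB.const 1))).add (PB.const 1))).add (PB.const 1)
  · intro a l' hl'
    have e : l'.foldl (fun s t => addTok s t) (f a, ([] : List ℕ)) = alloc (f a) l' := rfl
    have h4 := hp a
    have h5 := hq a
    have h6 : (f a).length ≤ size (f a) := length_le_size _
    have h7 : l'.length ≤ size (g a) := hl'.length_le.trans (length_le_size _)
    have hmem : ∀ t ∈ l', size t ≤ p.eval (size a) := fun t ht => by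
      have := size_mem_lt (hl'.subset ht)
      omega
    have h8 := (alloc_length (f a) l' (p.eval (size a)) (fun t ht =>
      (size_nat_le_tok t).2.2.2.trans (hmem t ht))).1
    have h9 : (alloc (f a) l').1.length ≤ N (size a) := by
      have : l'.length * (2 * p.eval (size a) + 1) ≤ p.eval (size a) * (2 * p.eval (size a) + 1) :=
        Nat.mul_le_mul_right _ (by omega)
      show _ ≤ q.eval (size a) + p.eval (size a) * (2 * p.eval (size a) + 1)
      omega
    have h10 := size_alloc (f a) l' (L := p.eval (size a)) (fun t ht =>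
      ⟨(size_nat_le_tok t).1.trans (hmem t ht), (size_nat_le_tok t).2.1.trans (hmem t ht)⟩)
    have h11 : ((alloc (f a) l').1.length - (f a).length) *
        (4 * ((alloc (f a) l').1.length + 2 * p.eval (size a)) + 20) ≤
        N (size a) * (4 * (N (size a) + 2 * p.eval (size a)) + 20) :=
      Nat.mul_le_mul (by omega) (by omega)
    have h12 := size_list_le (S := 2 * N (size a) + 1) (alloc (f a) l').2 (fun x hx => by
      have := names_lt (f a) l' x hx
      rw [size_nat]; omega)
    rw [length_names] at h12
    have h13 : l'.length * ((2 * N (size a) + 1) + 1) ≤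
        p.eval (size a) * ((2 * N (size a) + 1) + 1) := Nat.mul_le_mul_right _ (by omega)
    rw [e, size_prod]
    omega

end Pool.Agent.Lib.MP_0c2883_lc.All.RC
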