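import Pool.Agent.Lib.MP_0c2883_lc.All.Gram

/-!
# Recompression on the level of words

Passes (block compression and pair compression) as transformations of words of names, and the
bound for the number of keys in terms of the size of a grammar of the word.
-/

set_option autoImplicit false

namespace Pool.Agent.Lib.MP_0c2883_lc.All.RCWord

open List

variable {α β γ : Type}

/-! ### Local transformations -/

/-- `w` agrees with `u` at the start up to the last `k` entries of `u`, with `v` at the end up to
the first `k` entries of `v`, and has at most `c` entries in between. -/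
def Near (k c : ℕ) (u v w : List α) : Prop :=
  ∃ p m s, w = p ++ m ++ s ∧ p <+: u ∧ s <:+ v ∧ u.length ≤ p.length + k ∧
    v.length ≤ s.length + k ∧ m.length ≤ c

/-- Local transformations of words. -/
structure Loc (T : List α → List β) : Prop where
  nil : T [] = []
  len : ∀ a, (T a).length ≤ a.length
  app : ∀ a b, Near 1 1 (T a) (T b) (T (a ++ b))

theorem pre_min {z a b : List α} (ha : a <+: z) (hb : b <+: z) {k l : ℕ}
    (hka : z.length ≤ a.length + k) (hlb : z.length ≤ b.length + l) (hkl : k ≤ l) :
    ∃ q, q <+: a ∧ q <+: b ∧ z.length ≤ q.length + l := by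
  rcases le_total a.length b.length with h | h
  · exact ⟨a, List.prefix_rfl, List.prefix_of_prefix_length_le ha hb h, by omega⟩
  · exact ⟨b, List.prefix_of_prefix_length_le hb ha h, List.prefix_rfl, by omega⟩

theorem suf_min {z a b : List α} (ha : a <:+ z) (hb : b <:+ z) {k l : ℕ}
    (hka : z.length ≤ a.length + k) (hlb : z.length ≤ b.length + l) (hkl : k ≤ l) :
    ∃ q, q <:+ a ∧ q <:+ b ∧ z.length ≤ q.length + l := by
  rcases le_total a.length b.length with h | h
  · exact ⟨a, List.suffix_rfl, List.suffix_of_suffix_length_le ha hb h, by omega⟩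
  · exact ⟨b, List.suffix_of_suffix_length_le hb ha h, List.suffix_rfl, by omega⟩

theorem Near.zero (u v : List α) : Near 0 0 u v (u ++ v) :=
  ⟨u, [], v, by simp, List.prefix_rfl, List.suffix_rfl, by simp, by simp, by simp⟩

theorem Near.comp {T : List α → List β} (hT : Loc T) {k c : ℕ} {u v w : List α}
    (h : Near k c u v w) : Near (k + 3) (c + 5) (T u) (T v) (T w) := by
  obtain ⟨p, m, s, rfl, ⟨u', rfl⟩, ⟨v', rfl⟩, hu, hv, hm⟩ := h
  obtain ⟨p1, m1, s1, e1, hp1, hs1, l1, l1', lm1⟩ := hT.app p (m ++ s)
  obtain ⟨p2, m2, s2, e2, hp2, hs2, l2, l2', lm2⟩ := hT.app m s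
  obtain ⟨p3, m3, s3, e3, hp3, hs3, l3, l3', lm3⟩ := hT.app p u'
  obtain ⟨p4, m4, s4, e4, hp4, hs4, l4, l4', lm4⟩ := hT.app v' s
  obtain ⟨q, hq1, hq3, hq⟩ := pre_min hp1 hp3 l1 l3 le_rfl
  obtain ⟨r, hr2, hr4, hr⟩ := suf_min hs2 hs4 l2' l4' le_rfl
  have hs2' : s2 <:+ T (m ++ s) := by rw [e2]; exact List.suffix_append _ _
  have hrt : r <:+ T (m ++ s) := hr2.trans hs2'
  obtain ⟨t, ht1, htr, ht⟩ : ∃ t, t <:+ s1 ∧ t <:+ r ∧ r.length ≤ t.length + 1 := by
    rcases le_total s1.length r.length with h | h
    · refine ⟨s1, List.suffix_rfl, List.suffix_of_suffix_length_le hs1 hrt h, ?_⟩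
      have := hrt.length_le
      omega
    · exact ⟨r, List.suffix_of_suffix_length_le hrt hs1 h, List.suffix_rfl, by omega⟩
  obtain ⟨x, rfl⟩ := hq1
  obtain ⟨y, rfl⟩ := ht1
  have hm' := hT.len m
  have hu' := hT.len u'
  have hv' := hT.len v'
  have hs1l := hs1.length_le
  have hp1l := hp1.length_le
  have e1l := congrArg List.length e1
  have e2l := congrArg List.length e2
  have e3l := congrArg List.length e3
  have e4l := congrArg List.length e4
  have hp2l := hp2.length_le
  have hs2l := hs2.length_le
  have hs3l := hs3.length_le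
  have hp4l := hp4.length_le
  have hp3l := hp3.length_le
  have hs4l := hs4.length_le
  simp only [List.length_append] at *
  refine ⟨q, x ++ m1 ++ y, t, ?_, ?_, ?_, ?_, ?_, ?_⟩
  · rw [List.append_assoc p m s, e1]; simp [List.append_assoc]
  · rw [e3, List.append_assoc]
    exact hq3.trans (List.prefix_append _ _)
  · rw [e4]
    exact (htr.trans hr4).trans (List.suffix_append _ _)
  · omega
  · omega
  · simp only [List.length_append]
    omega

/-- Apply a list of transformations. -/
def app (Ts : List (List α → List α)) (u : List α) : List α := Ts.foldl (fun w T => T w) u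

@[simp] theorem app_nil (u : List α) : app [] u = u := rfl

@[simp] theorem app_cons (T : List α → List α) (Ts : List (List α → List α)) (u : List α) :
    app (T :: Ts) u = app Ts (T u) := rfl

theorem app_append (Ts Us : List (List α → List α)) (u : List α) :
    app (Ts ++ Us) u = app Us (app Ts u) := by simp [app]

theorem near_app (Ts : List (List α → List α)) (hT : ∀ T ∈ Ts, Loc T) {k c : ℕ}
    {u v w : List α} (h : Near k c u v w) :
    Near (k + 3 * Ts.length) (c + 5 * Ts.length) (app Ts u) (app Ts v) (app Ts w) := by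
  induction Ts generalizing k c u v w with
  | nil => simpa using h
  | cons T Ts ih =>
    have h1 := h.comp (hT T (by simp))
    have h2 := ih (fun S hS => hT S (by simp [hS])) h1
    simp only [app_cons, List.length_cons]
    convert h2 using 1 <;> ring

theorem app_nil_word (Ts : List (List α → List α)) (hT : ∀ T ∈ Ts, Loc T) : app Ts [] = [] := by
  induction Ts with
  | nil => rfl
  | cons T Ts ih =>
    rw [app_cons, (hT T (by simp)).nil]
    exact ih (fun S hS => hT S (by simp [hS]))

theorem app_len (Ts : List (List α → List α)) (hT : ∀ T ∈ Ts, Loc T) (u : List α) :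
    (app Ts u).length ≤ u.length := by
  induction Ts generalizing u with
  | nil => simp
  | cons T Ts ih =>
    rw [app_cons]
    exact (ih (fun S hS => hT S (by simp [hS])) (T u)).trans ((hT T (by simp)).len u)

/-! ### Run length encoding and block compression -/

/-- Put a letter in front of a run length encoding. -/
def push (x : ℕ) : List (ℕ × ℕ) → List (ℕ × ℕ)
  | [] => [(x, 1)]
  | (y, k) :: s => if x = y then (y, k + 1) :: s else (x, 1) :: (y, k) :: s

/-- The maximal runs of a word, with their lengths. -/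
def rle : List ℕ → List (ℕ × ℕ)
  | [] => []
  | x :: t => push x (rle t)

/-- Block compression: runs of length at least two get a name. -/
def blockT (ν : ℕ × ℕ → ℕ) (u : List ℕ) : List ℕ :=
  (rle u).map (fun p => if p.2 = 1 then p.1 else ν p)

/-- The keys of the block pass. -/
def blockKeys (u : List ℕ) : List (ℕ × ℕ) := (rle u).filter (fun p => decide (2 ≤ p.2))

@[simp] theorem rle_nil : rle [] = [] := rfl
@[simp] theorem rle_cons (x : ℕ) (t : List ℕ) : rle (x :: t) = push x (rle t) := rfl
@[simp] theorem push_nil (x : ℕ) : push x [] = [(x, 1)] := rfl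
theorem push_cons (x y k : ℕ) (s : List (ℕ × ℕ)) :
    push x ((y, k) :: s) = if x = y then (y, k + 1) :: s else (x, 1) :: (y, k) :: s := rfl

theorem push_ne (x : ℕ) (s : List (ℕ × ℕ)) : push x s ≠ [] := by
  rcases s with _ | ⟨⟨y, k⟩, s⟩
  · simp
  · rw [push_cons]; split <;> simp

theorem push_append (x : ℕ) {s t : List (ℕ × ℕ)} (h : s ≠ []) :
    push x (s ++ t) = push x s ++ t := by
  rcases s with _ | ⟨⟨y, k⟩, s⟩
  · exact absurd rfl h
  · rw [List.cons_append, push_cons, push_cons]; split <;> simp

theorem rle_ne {u : List ℕ} (h : u ≠ []) : rle u ≠ [] := by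
  rcases u with _ | ⟨x, t⟩
  · exact absurd rfl h
  · exact push_ne _ _

/-- The runs of a concatenation. -/
theorem rle_app (a b : List ℕ) : rle (a ++ b) = rle a ++ rle b ∨
    ∃ p y k l s, rle a = p ++ [(y, k)] ∧ rle b = (y, l) :: s ∧
      rle (a ++ b) = p ++ (y, k + l) :: s := by
  induction a with
  | nil => left; simp
  | cons x t ih =>
    rw [List.cons_append, rle_cons, rle_cons]
    rcases ih with ih | ⟨p, y, k, l, s, h1, h2, h3⟩
    · rw [ih]
      rcases t with _ | ⟨y, t⟩
      · simp only [rle_nil, List.nil_append]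
        rcases hb : rle b with _ | ⟨⟨y, k⟩, s⟩
        · left; simp
        · rw [push_cons]
          by_cases hxy : x = y
          · right
            refine ⟨[], y, 1, k, s, by simp [hxy], rfl, ?_⟩
            rw [if_pos hxy]; simp [add_comm]
          · left; rw [if_neg hxy]; simp
      · left
        exact push_append x (rle_ne (by simp))
    · right
      rw [h3, h1]
      rcases p with _ | ⟨z, p⟩
      · simp only [List.nil_append]
        rw [push_cons, push_cons]
        by_cases hxy : x = y
        · rw [if_pos hxy, if_pos hxy]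
          exact ⟨[], y, k + 1, l, s, by simp, h2, by simp; omega⟩
        · rw [if_neg hxy, if_neg hxy]
          exact ⟨[(x, 1)], y, k, l, s, by simp, h2, by simp⟩
      · rw [push_append x (by simp : (z :: p) ≠ []), push_append x (by simp : (z :: p) ≠ [])]
        exact ⟨push x (z :: p), y, k, l, s, rfl, h2, rfl⟩

theorem length_push (x : ℕ) (s : List (ℕ × ℕ)) : (push x s).length ≤ s.length + 1 := by
  rcases s with _ | ⟨⟨y, k⟩, s⟩
  · simp
  · rw [push_cons]; split <;> simp

theorem loc_rle : Loc rle where
  nil := rfl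
  len := by
    intro a
    induction a with
    | nil => simp
    | cons x t ih => rw [rle_cons]; exact (length_push _ _).trans (by simpa using ih)
  app := by
    intro a b
    rcases rle_app a b with h | ⟨p, y, k, l, s, h1, h2, h3⟩
    · exact ⟨rle a, [], rle b, by simp [h], List.prefix_rfl, List.suffix_rfl, by simp, by simp,
        by simp⟩
    · exact ⟨p, [(y, k + l)], s, by simp [h3], by rw [h1]; exact List.prefix_append _ _,
        by rw [h2]; exact List.suffix_cons _ _, by rw [h1]; simp, by rw [h2]; simp, by simp⟩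

theorem Near.map {k c : ℕ} {u v w : List α} (h : Near k c u v w) (f : α → β) :
    Near k c (u.map f) (v.map f) (w.map f) := by
  obtain ⟨p, m, s, rfl, hp, hs, hu, hv, hm⟩ := h
  exact ⟨p.map f, m.map f, s.map f, by simp, hp.map f, hs.map f, by simpa using hu,
    by simpa using hv, by simpa using hm⟩

theorem Loc.map {T : List α → List β} (hT : Loc T) (f : β → γ) : Loc (fun u => (T u).map f) where
  nil := by simp [hT.nil]
  len := fun a => by simpa using hT.len a
  app := fun a b => (hT.app a b).map f

theorem loc_block (ν : ℕ × ℕ → ℕ) : Loc (blockT ν) := loc_rle.map _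

/-! ### Pair compression -/

/-- Pair compression: adjacent letters `x, y` with `L x`, `¬ L y` get a name. -/
def pairT (L : ℕ → Bool) (ν : ℕ × ℕ → ℕ) : List ℕ → List ℕ
  | [] => []
  | [x] => [x]
  | x :: y :: t => if L x = true ∧ L y = false then ν (x, y) :: pairT L ν t
      else x :: pairT L ν (y :: t)

/-- Adjacent letters. -/
def adj : List ℕ → List (ℕ × ℕ)
  | [] => []
  | [_] => []
  | x :: y :: t => (x, y) :: adj (y :: t)

/-- The keys of the pair pass. -/
def pairKeys (L : ℕ → Bool) (u : List ℕ) : List (ℕ × ℕ) :=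
  (adj u).filter (fun p => L p.1 && !L p.2)

section pair

variable (L : ℕ → Bool) (ν : ℕ × ℕ → ℕ)

@[simp] theorem pairT_nil : pairT L ν [] = [] := by simp [pairT]
@[simp] theorem pairT_one (x : ℕ) : pairT L ν [x] = [x] := by simp [pairT]
theorem pairT_two (x y : ℕ) (t : List ℕ) : pairT L ν (x :: y :: t) =
    if L x = true ∧ L y = false then ν (x, y) :: pairT L ν t
      else x :: pairT L ν (y :: t) := by simp [pairT]

theorem pairT_right {y : ℕ} (hy : L y = false) (t : List ℕ) :
    pairT L ν (y :: t) = y :: pairT L ν t := by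
  rcases t with _ | ⟨z, t⟩
  · simp
  · rw [pairT_two, if_neg (by simp [hy])]

/-- Pair compression of a concatenation. -/
theorem pairT_app (a b : List ℕ) : pairT L ν (a ++ b) = pairT L ν a ++ pairT L ν b ∨
    ∃ p x y s, pairT L ν a = p ++ [x] ∧ pairT L ν b = y :: s ∧ L x = true ∧ L y = false ∧
      pairT L ν (a ++ b) = p ++ ν (x, y) :: s := by
  induction a using pairT.induct (L := L) with
  | case1 => left; simp
  | case2 x =>
    rcases b with _ | ⟨y, b⟩
    · left; simp
    · by_cases h : L x = true ∧ L y = false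
      · right
        refine ⟨[], x, y, pairT L ν b, by simp, pairT_right L ν h.2 b, h.1, h.2, ?_⟩
        simp only [List.cons_append, List.nil_append]
        rw [pairT_two, if_pos h]
      · left
        simp only [List.cons_append, List.nil_append]
        rw [pairT_two, if_neg h]; simp
  | case3 x y t h ih =>
    simp only [List.cons_append]
    rw [pairT_two, pairT_two, if_pos h, if_pos h]
    rcases ih with ih | ⟨p, x', y', s, h1, h2, h3, h4, h5⟩
    · left; rw [ih]; simp
    · right
      exact ⟨ν (x, y) :: p, x', y', s, by rw [h1]; simp, h2, h3, h4, by rw [h5]; simp⟩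
  | case4 x y t h ih =>
    simp only [List.cons_append] at ih ⊢
    rw [pairT_two, pairT_two, if_neg h, if_neg h]
    rcases ih with ih | ⟨p, x', y', s, h1, h2, h3, h4, h5⟩
    · left; rw [ih]; simp
    · right
      exact ⟨x :: p, x', y', s, by rw [h1]; simp, h2, h3, h4, by rw [h5]; simp⟩

theorem loc_pair : Loc (pairT L ν) where
  nil := by simp
  len := by
    intro a
    induction a using pairT.induct (L := L) with
    | case1 => simp
    | case2 x => simp
    | case3 x y t h ih => rw [pairT_two, if_pos h]; simp; omega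
    | case4 x y t h ih => rw [pairT_two, if_neg h]; simp at ih ⊢; omega
  app := by
    intro a b
    rcases pairT_app L ν a b with h | ⟨p, x, y, s, h1, h2, -, -, h3⟩
    · exact ⟨pairT L ν a, [], pairT L ν b, by simp [h], List.prefix_rfl, List.suffix_rfl,
        by simp, by simp, by simp⟩
    · exact ⟨p, [ν (x, y)], s, by simp [h3], by rw [h1]; exact List.prefix_append _ _,
        by rw [h2]; exact List.suffix_cons _ _, by rw [h1]; simp, by rw [h2]; simp, by simp⟩

end pair

theorem adj_append (a b : List ℕ) : ∃ m, adj (a ++ b) = adj a ++ m ++ adj b ∧ m.length ≤ 1 := by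
  induction a using adj.induct with
  | case1 => exact ⟨[], by simp [adj], by simp⟩
  | case2 x =>
    rcases b with _ | ⟨y, b⟩
    · exact ⟨[], by simp [adj], by simp⟩
    · exact ⟨[(x, y)], by simp [adj], by simp⟩
  | case3 x y t ih =>
    obtain ⟨m, h1, h2⟩ := ih
    refine ⟨m, ?_, h2⟩
    simp only [List.cons_append, adj] at h1 ⊢
    rw [h1]

theorem loc_adj : Loc adj where
  nil := by simp [adj]
  len := by
    intro a
    induction a using adj.induct with
    | case1 => simp [adj]
    | case2 x => simp [adj]
    | case3 x y t ih => simp only [adj, List.length_cons] at ih ⊢; omega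
  app := by
    intro a b
    obtain ⟨m, h1, h2⟩ := adj_append a b
    exact ⟨adj a, m, adj b, h1, List.prefix_rfl, List.suffix_rfl, by simp, by simp, h2⟩

/-! ### The number of keys -/

section card

variable {M : ℕ} [DecidableEq β]

/-- **Key bound.** After any `t` local passes, the word of a grammar with `n` rules has at most
`n (5 t + 5)` different keys. -/
theorem keys_card (K : List α → List β) (hK : Loc K) (Ts : List (List α → List α))
    (hT : ∀ T ∈ Ts, Loc T) (nm : Letter M → α) (G : Gram M) (hG : Valid G) (i : ℕ) :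
    ((K (app Ts ((V G i).map nm))).toFinset).card ≤ G.length * (5 * Ts.length + 5) := by
  classical
  set S : ℕ → Finset β := fun j => (K (app Ts ((V G j).map nm))).toFinset with hS
  set B := 5 * Ts.length + 5 with hB
  have key : ∀ n, ((Finset.range n).biUnion S).card ≤ n * B := by
    intro n
    induction n with
    | zero => simp
    | succ n ih =>
      have h1 : ∃ E : Finset β, E.card ≤ B ∧ S n ⊆ (Finset.range n).biUnion S ∪ E := by
        by_cases hn : n < G.length
        · rcases hr : G[n] with _ | x | ⟨a, b⟩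
          · have h : G[n]? = some none := by rw [List.getElem?_eq_getElem hn, hr]
            refine ⟨∅, by simp, ?_⟩
            simp only [hS, V_none h, List.map_nil, app_nil_word Ts hT, hK.nil]
            simp
          · have h : G[n]? = some (some (Sum.inl x)) := by rw [List.getElem?_eq_getElem hn, hr]
            refine ⟨S n, ?_, Finset.subset_union_right⟩
            have h2 := hK.len (app Ts ((V G n).map nm))
            have h3 := app_len Ts hT ((V G n).map nm)
            rw [V_letter h] at h2 h3
            have h4 := List.toFinset_card_le (K (app Ts ((V G n).map nm)))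
            rw [V_letter h] at h4
            simp only [hS, V_letter h]
            simp only [List.map_cons, List.map_nil, List.length_singleton] at h2 h3 h4 ⊢
            omega
          · have h : G[n]? = some (some (Sum.inr (a, b))) := by
              rw [List.getElem?_eq_getElem hn, hr]
            have hV : V G n = V G a ++ V G b := V_cat hG h
            have hab := hG n a b h
            have h2 : Near (0 + 3 * Ts.length) (0 + 5 * Ts.length) (app Ts ((V G a).map nm))
                (app Ts ((V G b).map nm)) (app Ts ((V G n).map nm)) := by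
              rw [hV, List.map_append]
              exact near_app Ts hT (Near.zero _ _)
            obtain ⟨p, m, s, h3, hp, hs, -, -, hm⟩ := h2.comp hK
            refine ⟨m.toFinset, ?_, ?_⟩
            · have := List.toFinset_card_le m
              omega
            · intro z hz
              simp only [hS, List.mem_toFinset] at hz
              rw [h3] at hz
              simp only [List.mem_append] at hz
              simp only [Finset.mem_union, Finset.mem_biUnion, Finset.mem_range,
                List.mem_toFinset, hS]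
              rcases hz with (hz | hz) | hz
              · exact Or.inl ⟨a, hab.1, hp.subset hz⟩
              · exact Or.inr hz
              · exact Or.inl ⟨b, hab.2, hs.subset hz⟩
        · have h : V G n = [] := V_out (by omega)
          refine ⟨∅, by simp, ?_⟩
          simp only [hS, h, List.map_nil, app_nil_word Ts hT, hK.nil]
          simp
      obtain ⟨E, hE, hsub⟩ := h1
      have h2 : (Finset.range (n + 1)).biUnion S ⊆ (Finset.range n).biUnion S ∪ E := by
        rw [Finset.range_add_one, Finset.biUnion_insert]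
        exact Finset.union_subset hsub Finset.subset_union_left
      calc ((Finset.range (n + 1)).biUnion S).card ≤ _ := Finset.card_le_card h2
        _ ≤ _ := Finset.card_union_le _ _
        _ ≤ n * B + B := by omega
        _ = (n + 1) * B := by ring
  by_cases hi : i < G.length
  · refine le_trans (Finset.card_le_card ?_) (key G.length)
    intro z hz
    exact Finset.mem_biUnion.2 ⟨i, Finset.mem_range.2 hi, hz⟩
  · have h : V G i = [] := V_out (by omega)
    simp only [h, List.map_nil, app_nil_word Ts hT, hK.nil]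
    simp

end card

/-! ### Shrinking -/

section shrink

variable (N : ℕ)

/-- Weight of a word: old names count one, new names two. -/
def wts (u : List ℕ) : ℕ := (u.map (fun x => if x < N then 1 else 2)).sum

@[simp] theorem wts_nil : wts N [] = 0 := rfl
@[simp] theorem wts_cons (x : ℕ) (u : List ℕ) :
    wts N (x :: u) = (if x < N then 1 else 2) + wts N u := by simp [wts]

theorem wts_old {u : List ℕ} (h : ∀ x ∈ u, x < N) : wts N u = u.length := by
  induction u with
  | nil => rfl
  | cons x u ih =>
    rw [wts_cons, if_pos (h x (by simp)), ih (fun y hy => h y (by simp [hy]))]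
    simp [add_comm]

/-- Weight of a run length encoding. -/
def wtr (s : List (ℕ × ℕ)) : ℕ := (s.map (fun p => p.2 * (if p.1 < N then 1 else 2))).sum

theorem wtr_push (x : ℕ) (s : List (ℕ × ℕ)) :
    wtr N (push x s) = (if x < N then 1 else 2) + wtr N s := by
  rcases s with _ | ⟨⟨y, k⟩, s⟩
  · simp [wtr]
  · rw [push_cons]
    by_cases hxy : x = y
    · rw [if_pos hxy, hxy]
      simp only [wtr, List.map_cons, List.sum_cons]
      ring
    · rw [if_neg hxy]
      simp only [wtr, List.map_cons, List.sum_cons]
      ring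

theorem wtr_rle (u : List ℕ) : wtr N (rle u) = wts N u := by
  induction u with
  | nil => rfl
  | cons x t ih => rw [rle_cons, wtr_push, wts_cons, ih]

theorem rle_pos (u : List ℕ) : ∀ p ∈ rle u, 1 ≤ p.2 := by
  induction u with
  | nil => simp
  | cons x t ih =>
    rw [rle_cons]
    rcases hs : rle t with _ | ⟨⟨y, k⟩, s⟩
    · simp
    · rw [hs] at ih
      rw [push_cons]
      intro p hp
      split at hp
      · rcases List.mem_cons.1 hp with rfl | hp
        · simp
        · exact ih p (by simp [hp])
      · rcases List.mem_cons.1 hp with rfl | hp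
        · simp
        · exact ih p hp

theorem wts_block (ν : ℕ × ℕ → ℕ) (u : List ℕ) : wts N (blockT ν u) ≤ wts N u := by
  rw [← wtr_rle N u]
  have hp := rle_pos u
  unfold blockT
  generalize rle u = s at hp
  induction s with
  | nil => simp [wtr]
  | cons p s ih =>
    have h1 := ih (fun q hq => hp q (by simp [hq]))
    have h2 := hp p (by simp)
    simp only [List.map_cons, wts_cons, wtr, List.sum_cons] at h1 ⊢
    have h3 : (if (if p.2 = 1 then p.1 else ν p) < N then 1 else 2) ≤
        p.2 * (if p.1 < N then 1 else 2) := by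
      by_cases h : p.2 = 1
      · rw [if_pos h, h, one_mul]
      · generalize (if p.2 = 1 then p.1 else ν p) = z
        have h4 : 2 ≤ p.2 := by omega
        have h5 : 1 ≤ (if p.1 < N then 1 else 2) := by split <;> omega
        have h6 : (if z < N then 1 else 2) ≤ 2 := by
          split <;> omega
        exact h6.trans (by nlinarith)
    exact Nat.add_le_add h3 h1

theorem wts_pair (L : ℕ → Bool) (ν : ℕ × ℕ → ℕ) (u : List ℕ) :
    wts N (pairT L ν u) ≤ wts N u := by
  induction u using pairT.induct (L := L) with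
  | case1 => simp
  | case2 x => simp
  | case3 x y t h ih =>
    rw [pairT_two, if_pos h]
    simp only [wts_cons]
    have h1 : 1 ≤ (if x < N then 1 else 2) := by split <;> omega
    have h2 : 1 ≤ (if y < N then 1 else 2) := by split <;> omega
    have h3 : (if ν (x, y) < N then 1 else 2) ≤ 2 := by split <;> omega
    omega
  | case4 x y t h ih =>
    rw [pairT_two, if_neg h]
    simp only [wts_cons] at ih ⊢
    omega

/-- Neighbouring old letters satisfy `P`. -/
def OldAdj (P : ℕ → ℕ → Prop) (u : List ℕ) : Prop :=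
  ∀ p ∈ adj u, p.1 < N → p.2 < N → P p.1 p.2

theorem length_of_oldAdj {u : List ℕ} (h : OldAdj N (fun _ _ => False) u) :
    3 * u.length ≤ 2 * wts N u + 1 ∧
      (∀ x t, u = x :: t → N ≤ x → 3 * u.length ≤ 2 * wts N u) := by
  induction u with
  | nil => simp
  | cons x t ih =>
    have ht : OldAdj N (fun _ _ => False) t := by
      rcases t with _ | ⟨y, t⟩
      · intro p hp; simp [adj] at hp
      · intro p hp; exact h p (by simp [adj, hp])
    obtain ⟨h1, h2⟩ := ih ht
    have hnew : N ≤ x → 3 * (x :: t).length ≤ 2 * wts N (x :: t) := by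
      intro hx
      rw [wts_cons, if_neg (by omega), List.length_cons]
      omega
    refine ⟨?_, fun y t' he hy => ?_⟩
    · by_cases hx : x < N
      · rw [wts_cons, if_pos hx, List.length_cons]
        rcases t with _ | ⟨y, t⟩
        · simp
        · have hy : N ≤ y := by
            by_contra hy
            exact h (x, y) (by simp [adj]) hx (by omega)
          have := h2 y t rfl hy
          omega
      · have := hnew (by omega)
        omega
    · obtain ⟨rfl, rfl⟩ := List.cons.inj he
      exact hnew hy

theorem adj_map_mem {f : α → ℕ} : ∀ {s : List α} {p : ℕ × ℕ}, p ∈ adj (s.map f) →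
    ∃ s1 s2 x y, s = s1 ++ x :: y :: s2 ∧ p = (f x, f y)
  | [], p, h => by simp [adj] at h
  | [x], p, h => by simp [adj] at h
  | x :: y :: s, p, h => by
    simp only [List.map_cons, adj, List.mem_cons] at h
    rcases h with rfl | h
    · exact ⟨[], s, x, y, by simp, rfl⟩
    · rw [← List.map_cons] at h
      obtain ⟨s1, s2, x', y', h1, h2⟩ := adj_map_mem (s := y :: s) h
      exact ⟨x :: s1, s2, x', y', by rw [h1]; simp, h2⟩

theorem rle_distinct (u : List ℕ) : ∀ s1 s2 p q, rle u = s1 ++ p :: q :: s2 → p.1 ≠ q.1 := by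
  induction u with
  | nil => intro s1 s2 p q h; simp at h
  | cons x t ih =>
    intro s1 s2 p q h
    rw [rle_cons] at h
    rcases hs : rle t with _ | ⟨⟨y, k⟩, s⟩
    · rw [hs] at h
      rcases s1 with _ | ⟨a, s1⟩
      · simp at h
      · simp at h
    · rw [hs, push_cons] at h
      split at h
      · rename_i hxy
        rcases s1 with _ | ⟨a, s1⟩
        · simp only [List.nil_append, List.cons.injEq] at h
          obtain ⟨rfl, h⟩ := h
          have := ih [] s2 (y, k) q (by rw [hs, h]; simp)
          simpa using this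
        · simp only [List.cons_append, List.cons.injEq] at h
          exact ih ((y, k) :: s1) s2 p q (by rw [hs, h.2]; simp)
      · rename_i hxy
        rcases s1 with _ | ⟨a, s1⟩
        · simp only [List.nil_append, List.cons.injEq] at h
          obtain ⟨rfl, rfl, -⟩ := h
          exact hxy
        · simp only [List.cons_append, List.cons.injEq] at h
          exact ih s1 s2 p q (by rw [hs, h.2])

theorem mem_blockKeys {u : List ℕ} {p : ℕ × ℕ} : p ∈ blockKeys u ↔ p ∈ rle u ∧ 2 ≤ p.2 := by
  simp [blockKeys]

/-- After the block pass neighbouring old letters are different. -/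
theorem oldAdj_block {ν : ℕ × ℕ → ℕ} {u : List ℕ} (hν : ∀ p ∈ blockKeys u, N ≤ ν p) :
    OldAdj N (fun x y => x ≠ y) (blockT ν u) := by
  intro p hp h1 h2
  obtain ⟨s1, s2, a, b, hs, rfl⟩ := adj_map_mem hp
  have ha : a ∈ rle u := by rw [hs]; simp
  have hb : b ∈ rle u := by rw [hs]; simp
  have hone : ∀ a ∈ rle u, (if a.2 = 1 then a.1 else ν a) < N → a.2 = 1 := by
    intro a ha h
    by_contra hne
    rw [if_neg hne] at h
    have := hν a (mem_blockKeys.2 ⟨ha, by have := rle_pos u a ha; omega⟩)
    omega
  have ha1 := hone a ha h1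
  have hb1 := hone b hb h2
  simp only [ha1, hb1, if_true]
  exact rle_distinct u s1 s2 a b hs

theorem adj_cons_sub (x : ℕ) (t : List ℕ) : adj t ⊆ adj (x :: t) := by
  rcases t with _ | ⟨y, t⟩
  · simp [adj]
  · intro p hp; simp [adj, hp]

theorem pairT_head (L : ℕ → Bool) (ν : ℕ × ℕ → ℕ) {u : List ℕ} {z : ℕ} {s : List ℕ}
    (h : pairT L ν u = z :: s) : (∃ t, u = z :: t ∧ pairT L ν t = s ∧
      ∀ y t', t = y :: t' → ¬ (L z = true ∧ L y = false)) ∨
      ∃ x y t, u = x :: y :: t ∧ L x = true ∧ L y = false ∧ z = ν (x, y) ∧ pairT L ν t = s := by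
  rcases u with _ | ⟨x, _ | ⟨y, t⟩⟩
  · simp at h
  · simp only [pairT_one, List.cons.injEq] at h
    left
    exact ⟨[], by simp [h.1], by simp [← h.2], by simp⟩
  · rw [pairT_two] at h
    split at h
    · rename_i hL
      simp only [List.cons.injEq] at h
      exact Or.inr ⟨x, y, t, rfl, hL.1, hL.2, h.1.symm, h.2⟩
    · rename_i hL
      simp only [List.cons.injEq] at h
      obtain ⟨rfl, h⟩ := h
      refine Or.inl ⟨y :: t, rfl, h, ?_⟩
      intro y' t' he
      obtain ⟨rfl, rfl⟩ := List.cons.inj he
      exact hL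

theorem pairKeys_cons_sub (L : ℕ → Bool) (x : ℕ) (t : List ℕ) :
    pairKeys L t ⊆ pairKeys L (x :: t) := by
  intro p hp
  simp only [pairKeys, List.mem_filter] at hp ⊢
  exact ⟨adj_cons_sub x t hp.1, hp.2⟩

/-- After a pair pass neighbouring old letters are not a pair of this pass, and they were
neighbours before. -/
theorem oldAdj_pair {P : ℕ → ℕ → Prop} {L : ℕ → Bool} {ν : ℕ × ℕ → ℕ} {u : List ℕ}
    (hu : OldAdj N P u) (hν : ∀ p ∈ pairKeys L u, N ≤ ν p) :
    OldAdj N (fun x y => P x y ∧ ¬ (L x = true ∧ L y = false)) (pairT L ν u) := by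
  induction u using pairT.induct (L := L) with
  | case1 => intro p hp; simp [adj] at hp
  | case2 x => intro p hp; simp [adj] at hp
  | case3 x y t h ih =>
    have h0 : adj t ⊆ adj (x :: y :: t) := List.Subset.trans (adj_cons_sub y t) (adj_cons_sub x _)
    have h0' : pairKeys L t ⊆ pairKeys L (x :: y :: t) :=
      List.Subset.trans (pairKeys_cons_sub L y t) (pairKeys_cons_sub L x _)
    have ih' := ih (fun p hp => hu p (h0 hp)) (fun p hp => hν p (h0' hp))
    rw [pairT_two, if_pos h]
    rcases hs : pairT L ν t with _ | ⟨z, s⟩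
    · intro p hp; simp [adj] at hp
    · rw [hs] at ih'
      intro p hp h1 h2
      simp only [adj, List.mem_cons] at hp
      rcases hp with rfl | hp
      · exfalso
        have := hν (x, y) (by simp [pairKeys, adj, h])
        simp only at h1
        omega
      · exact ih' p hp h1 h2
  | case4 x y t h ih =>
    have ih' := ih (fun p hp => hu p (adj_cons_sub x _ hp))
      (fun p hp => hν p (pairKeys_cons_sub L x _ hp))
    rw [pairT_two, if_neg h]
    rcases hs : pairT L ν (y :: t) with _ | ⟨z, s⟩
    · intro p hp; simp [adj] at hp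
    · rw [hs] at ih'
      intro p hp h1 h2
      simp only [adj, List.mem_cons] at hp
      rcases hp with rfl | hp
      · simp only at h1 h2 ⊢
        rcases pairT_head L ν hs with ⟨t', h3, -, -⟩ | ⟨x', y', t', h3, h4, h5, h6, -⟩
        · obtain ⟨rfl, rfl⟩ := List.cons.inj h3
          exact ⟨hu (x, y) (by simp [adj]) h1 h2, h⟩
        · exfalso
          have := hν (x', y') (pairKeys_cons_sub L x _ (by rw [h3]; simp [pairKeys, adj, h4, h5]))
          omega
      · exact ih' p hp h1 h2

end shrink

/-- The pair passes of a phase. -/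
def pairs (Ls : List ((ℕ → Bool) × (ℕ × ℕ → ℕ))) : List (List ℕ → List ℕ) :=
  Ls.map (fun q => pairT q.1 q.2)

/-- All names given by the pair passes are new. -/
def FreshPairs (N : ℕ) : List ((ℕ → Bool) × (ℕ × ℕ → ℕ)) → List ℕ → Prop
  | [], _ => True
  | q :: Ls, u => (∀ p ∈ pairKeys q.1 u, N ≤ q.2 p) ∧ FreshPairs N Ls (pairT q.1 q.2 u)

theorem oldAdj_pairs (N : ℕ) : ∀ (Ls : List ((ℕ → Bool) × (ℕ × ℕ → ℕ))) (u : List ℕ)
    (P : ℕ → ℕ → Prop), OldAdj N P u → FreshPairs N Ls u →
    OldAdj N (fun x y => P x y ∧ ∀ q ∈ Ls, ¬ (q.1 x = true ∧ q.1 y = false))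
      (app (pairs Ls) u) := by
  intro Ls
  induction Ls with
  | nil => intro u P h _; simpa [pairs] using h
  | cons q Ls ih =>
    intro u P h hf
    have h1 := ih (pairT q.1 q.2 u) _ (oldAdj_pair N h hf.1) hf.2
    intro p hp h2 h3
    have h4 := h1 p hp h2 h3
    refine ⟨h4.1.1, fun r hr => ?_⟩
    rcases List.mem_cons.1 hr with rfl | hr
    · exact h4.1.2
    · exact h4.2 r hr

theorem wts_pairs (N : ℕ) : ∀ (Ls : List ((ℕ → Bool) × (ℕ × ℕ → ℕ))) (u : List ℕ),
    wts N (app (pairs Ls) u) ≤ wts N u := by
  intro Ls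
  induction Ls with
  | nil => intro u; simp [pairs]
  | cons q Ls ih =>
    intro u
    exact (ih (pairT q.1 q.2 u)).trans (wts_pair N q.1 q.2 u)

/-- **Shrinking.** A block pass followed by pair passes which separate all old names. -/
theorem phase_shrink (N : ℕ) (ν : ℕ × ℕ → ℕ) (Ls : List ((ℕ → Bool) × (ℕ × ℕ → ℕ)))
    (u : List ℕ) (hu : ∀ x ∈ u, x < N) (hν : ∀ p ∈ blockKeys u, N ≤ ν p)
    (hf : FreshPairs N Ls (blockT ν u))
    (hsep : ∀ x y, x < N → y < N → x ≠ y → ∃ q ∈ Ls, q.1 x = true ∧ q.1 y = false) :
    3 * (app (blockT ν :: pairs Ls) u).length ≤ 2 * u.length + 1 := by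
  have h1 := oldAdj_pairs N Ls _ _ (oldAdj_block N hν) hf
  have h2 : OldAdj N (fun _ _ => False) (app (pairs Ls) (blockT ν u)) := by
    intro p hp h3 h4
    obtain ⟨h5, h6⟩ := h1 p hp h3 h4
    obtain ⟨q, hq, h7⟩ := hsep p.1 p.2 h3 h4 h5
    exact h6 q hq h7
  have h3 := (length_of_oldAdj N h2).1
  have h4 := (wts_pairs N Ls (blockT ν u)).trans (wts_block N ν u)
  rw [wts_old N hu] at h4
  rw [app_cons]
  omega

/-! ### Bits -/

/-- Names with bit `b` equal to `o`. -/
def bitL (b : ℕ) (o : Bool) (x : ℕ) : Bool := Nat.testBit x b == o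

theorem bit_sep {N x y : ℕ} (hx : x < N) (hy : y < N) (h : x ≠ y) :
    ∃ b < Nat.size N, ∃ o, bitL b o x = true ∧ bitL b o y = false := by
  obtain ⟨b, hb⟩ : ∃ b, Nat.testBit x b ≠ Nat.testBit y b := by
    by_contra hcon
    push Not at hcon
    exact h (Nat.eq_of_testBit_eq hcon)
  refine ⟨b, ?_, Nat.testBit x b, by simp [bitL], by simp [bitL]; exact fun h => hb h.symm⟩
  by_contra hcon
  have hN : N ≤ 2 ^ b := (Nat.lt_size_self N).le.trans (Nat.pow_le_pow_right (by norm_num) (by omega))
  rw [Nat.testBit_lt_two_pow (by omega : x < 2 ^ b), Nat.testBit_lt_two_pow (by omega : y < 2 ^ b)]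
    at hb
  exact hb rfl

/-! ### Number of phases -/

theorem shrink_iter (a : ℕ → ℕ) (n : ℕ) (h0 : a 0 ≤ 2 ^ n)
    (h : ∀ t, 3 * a (t + 1) ≤ 2 * a t + 1) : a (2 * n) ≤ 1 := by
  have key : ∀ t, 3 ^ t * a t ≤ 2 ^ t * 2 ^ n + 3 ^ t := by
    intro t
    induction t with
    | zero => simp; omega
    | succ t ih =>
      have h1 := h t
      have h2 : 3 ^ (t + 1) * a (t + 1) = 3 ^ t * (3 * a (t + 1)) := by ring
      have h3 : 3 ^ t * (3 * a (t + 1)) ≤ 3 ^ t * (2 * a t + 1) := Nat.mul_le_mul_left _ h1
      have h4 : 2 ^ (t + 1) * 2 ^ n = 2 * (2 ^ t * 2 ^ n) := by ring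
      have h5 : 3 ^ (t + 1) = 3 * 3 ^ t := by ring
      rw [h2, h4, h5]
      nlinarith
  by_contra hcon
  have h1 := key (2 * n)
  have h2 : 2 * 3 ^ (2 * n) ≤ 3 ^ (2 * n) * a (2 * n) := by nlinarith [pow_pos (show 0 < 3 by norm_num) (2 * n)]
  have h3 : (3 : ℕ) ^ (2 * n) = 9 ^ n := by rw [pow_mul]; norm_num
  have h4 : (2 : ℕ) ^ (2 * n) * 2 ^ n = 8 ^ n := by rw [pow_mul, ← mul_pow]; norm_num
  rw [h3, h4] at h1
  rw [h3] at h2
  rcases Nat.eq_zero_or_pos n with rfl | hn
  · simp at hcon h0
    omega
  · have h5 : (8 : ℕ) ^ n < 9 ^ n := Nat.pow_lt_pow_left (by norm_num) (by omega)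
    omega

/-! ### Small facts -/

theorem rle_sum (u : List ℕ) : ((rle u).map Prod.snd).sum = u.length := by
  induction u with
  | nil => rfl
  | cons x t ih =>
    rw [rle_cons, List.length_cons, ← ih]
    rcases rle t with _ | ⟨⟨y, k⟩, s⟩
    · simp
    · rw [push_cons]; split <;> simp <;> omega

theorem rle_le {u : List ℕ} {p : ℕ × ℕ} (h : p ∈ rle u) : p.2 ≤ u.length := by
  rw [← rle_sum u]
  exact List.single_le_sum (fun _ _ => Nat.zero_le _) _ (List.mem_map_of_mem h)

theorem rle_mem {u : List ℕ} {p : ℕ × ℕ} (h : p ∈ rle u) : p.1 ∈ u := by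
  induction u with
  | nil => simp at h
  | cons x t ih =>
    rw [rle_cons] at h
    rcases hs : rle t with _ | ⟨⟨y, k⟩, s⟩
    · rw [hs] at h; simp at h; simp [h]
    · rw [hs] at h ih
      rw [push_cons] at h
      split at h
      · rename_i hxy
        rcases List.mem_cons.1 h with rfl | h
        · simp [hxy]
        · exact List.mem_cons_of_mem _ (ih (by simp [h]))
      · rcases List.mem_cons.1 h with rfl | h
        · simp
        · exact List.mem_cons_of_mem _ (ih h)

theorem blockT_ne {ν : ℕ × ℕ → ℕ} {u : List ℕ} (h : u ≠ []) : blockT ν u ≠ [] := by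
  unfold blockT; simpa using rle_ne h

theorem pairT_ne {L : ℕ → Bool} {ν : ℕ × ℕ → ℕ} {u : List ℕ} (h : u ≠ []) :
    pairT L ν u ≠ [] := by
  rcases u with _ | ⟨x, _ | ⟨y, t⟩⟩
  · exact absurd rfl h
  · simp
  · rw [pairT_two]; split <;> simp

theorem adj_mem {u : List ℕ} {p : ℕ × ℕ} (h : p ∈ adj u) : p.1 ∈ u ∧ p.2 ∈ u := by
  induction u using adj.induct with
  | case1 => simp [adj] at h
  | case2 x => simp [adj] at h
  | case3 x y t ih =>
    simp only [adj, List.mem_cons] at h
    rcases h with rfl | h
    · simp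
    · have := ih h
      exact ⟨List.mem_cons_of_mem _ this.1, List.mem_cons_of_mem _ this.2⟩

@[simp] theorem blockT_one (ν : ℕ × ℕ → ℕ) (x : ℕ) : blockT ν [x] = [x] := by
  simp [blockT, rle]

@[simp] theorem blockKeys_one (x : ℕ) : blockKeys [x] = [] := by simp [blockKeys, rle]

@[simp] theorem pairKeys_one (L : ℕ → Bool) (x : ℕ) : pairKeys L [x] = [] := by
  simp [pairKeys, adj]

variable {M : ℕ}

/-- Number of block keys after `t` passes. -/
theorem blockKeys_card (Ts : List (List ℕ → List ℕ)) (hT : ∀ T ∈ Ts, Loc T) (nm : Letter M → ℕ)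
    (G : Gram M) (hG : Valid G) (i : ℕ) :
    (blockKeys (app Ts ((V G i).map nm))).toFinset.card ≤ G.length * (5 * Ts.length + 5) := by
  refine le_trans (Finset.card_le_card ?_) (keys_card rle loc_rle Ts hT nm G hG i)
  intro p hp
  simp only [List.mem_toFinset, blockKeys, List.mem_filter] at hp ⊢
  exact hp.1

/-- Number of pair keys after `t` passes. -/
theorem pairKeys_card (L : ℕ → Bool) (Ts : List (List ℕ → List ℕ)) (hT : ∀ T ∈ Ts, Loc T)
    (nm : Letter M → ℕ) (G : Gram M) (hG : Valid G) (i : ℕ) :
    (pairKeys L (app Ts ((V G i).map nm))).toFinset.card ≤ G.length * (5 * Ts.length + 5) := by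
  refine le_trans (Finset.card_le_card ?_) (keys_card adj loc_adj Ts hT nm G hG i)
  intro p hp
  simp only [List.mem_toFinset, pairKeys, List.mem_filter] at hp ⊢
  exact hp.1

/-- Exponents of block keys are at most exponential in the number of rules. -/
theorem blockKeys_size {Ts : List (List ℕ → List ℕ)} (hT : ∀ T ∈ Ts, Loc T) {nm : Letter M → ℕ}
    {G : Gram M} (hG : Valid G) {i : ℕ} (hi : i < G.length) {p : ℕ × ℕ}
    (hp : p ∈ blockKeys (app Ts ((V G i).map nm))) : Nat.size p.2 ≤ G.length := by
  have h1 := rle_le (mem_blockKeys.1 hp).1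
  have h2 := app_len Ts hT ((V G i).map nm)
  have h3 := length_V_lt G hG i
  rw [List.length_map] at h2
  rw [Nat.size_le]
  calc p.2 ≤ 2 ^ i := by omega
    _ < 2 ^ G.length := Nat.pow_lt_pow_right (by norm_num) hi

/-- The logarithm is small. -/
theorem size_pow_four (N : ℕ) : Nat.size N ^ 4 ≤ 41 * N := by
  rcases Nat.eq_zero_or_pos N with rfl | hN
  · simp
  have h1 : 2 ^ (Nat.size N - 1) ≤ N := by
    have : Nat.size N - 1 < Nat.size N := by
      have := Nat.size_pos.2 hN
      omega
    exact Nat.lt_size.1 this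
  have key : ∀ s, 1 ≤ s → s ^ 4 ≤ 41 * 2 ^ (s - 1) := by
    intro s
    induction s with
    | zero => intro h; omega
    | succ s ih =>
      intro _
      rcases Nat.lt_or_ge s 6 with h | h
      · interval_cases s <;> norm_num
      · have h2 := ih (by omega)
        have h3 : 2 ^ (s + 1 - 1) = 2 * 2 ^ (s - 1) := by
          rw [← pow_succ']; congr 1; omega
        have h4 : (s + 1) ^ 4 ≤ 2 * s ^ 4 := by
          have e1 : 6 * s ^ 3 ≤ s ^ 4 := by
            calc 6 * s ^ 3 ≤ s * s ^ 3 := Nat.mul_le_mul_right _ h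
              _ = s ^ 4 := by ring
          have e2 : 6 * s ^ 2 ≤ s ^ 3 := by
            calc 6 * s ^ 2 ≤ s * s ^ 2 := Nat.mul_le_mul_right _ h
              _ = s ^ 3 := by ring
          have e3 : 6 * s ≤ s ^ 2 := by
            calc 6 * s ≤ s * s := Nat.mul_le_mul_right _ h
              _ = s ^ 2 := by ring
          have e4 : (s + 1) ^ 4 = s ^ 4 + 4 * s ^ 3 + 6 * s ^ 2 + 4 * s + 1 := by ring
          omega
        rw [h3]
        calc (s + 1) ^ 4 ≤ 2 * s ^ 4 := h4
          _ ≤ 2 * (41 * 2 ^ (s - 1)) := Nat.mul_le_mul_left _ h2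
          _ = 41 * (2 * 2 ^ (s - 1)) := by ring
  calc Nat.size N ^ 4 ≤ 41 * 2 ^ (Nat.size N - 1) := key _ (Nat.size_pos.2 hN)
    _ ≤ 41 * N := Nat.mul_le_mul_left _ h1

/-- Solving the recursion for the number of rules. -/
theorem bound_of_log {A N : ℕ} (h : N ≤ A + A * Nat.size N ^ 2) : N ≤ 200 * (A + 1) ^ 2 := by
  have h4 := size_pow_four N
  set x := Nat.size N ^ 2 with hx
  have hx2 : x ^ 2 ≤ 41 * N := by
    rw [hx]; calc (Nat.size N ^ 2) ^ 2 = Nat.size N ^ 4 := by ring
      _ ≤ _ := h4
  -- N ≤ A + A x, x ≤ sqrt (41 N)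
  have h5 : N ^ 2 ≤ 2 * A ^ 2 + 2 * A ^ 2 * x ^ 2 := by
    have : N ^ 2 ≤ (A + A * x) ^ 2 := Nat.pow_le_pow_left h 2
    nlinarith [sq_nonneg ((A : ℤ) - A * x), Nat.zero_le (A * x)]
  have h6 : N ^ 2 ≤ 2 * A ^ 2 + 82 * A ^ 2 * N := by nlinarith
  rcases Nat.eq_zero_or_pos N with rfl | hN
  · simp
  have h7 : N * N ≤ (84 * A ^ 2) * N := by nlinarith
  have h8 : N ≤ 84 * A ^ 2 := Nat.le_of_mul_le_mul_right h7 hN
  nlinarith

end Pool.Agent.Lib.MP_0c2883_lc.All.RCWord
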