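import Pool.Agent.Lib.MP_0c2883_lc.All.RCName
import Pool.Agent.Lib.MP_0c2883_lc.All.RCWord
import Pool.Agent.Lib.MP_0c2883_lc.All.Stmts

/-!
# Recompression: shrinking and the size of the output grammar
-/

set_option autoImplicit false

namespace Pool.Agent.Lib.MP_0c2883_lc.All.RC

open Pool.Agent.Lib.PolyTime List
open Pool.Agent.Lib.MP_0c2883_lc.All.RCWord (Loc Near app adj wts OldAdj keys_card)
open Chunk (chunks_cons chunks_eq_nil chunks_append tw_sg)

variable {M : ℕ}

namespace Size

/-! ### Cutting is local -/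

theorem length_chunks (m : Mode) (w : List ℕ) : (chunks m w).length ≤ w.length := by
  induction w with
  | nil => simp
  | cons x w ih =>
    rw [chunks_cons]
    rcases hc : chunks m w with _ | ⟨t, ts⟩
    · simp [ccons]
    · rw [hc] at ih
      simp only [ccons]
      split_ifs <;> simp at ih ⊢ <;> omega

theorem loc_chunks (m : Mode) : Loc (chunks m) where
  nil := rfl
  len := length_chunks m
  app := by
    intro a b
    rcases List.eq_nil_or_concat (chunks m a) with ha | ⟨A, s, ha⟩
    · have : a = [] := chunks_eq_nil.1 ha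
      subst this
      exact ⟨[], [], chunks m b, by simp, by simp, List.suffix_rfl, by simp, by simp, by simp⟩
    rw [List.concat_eq_append] at ha
    rcases hb : chunks m b with _ | ⟨f, B⟩
    · have : b = [] := chunks_eq_nil.1 hb
      subst this
      exact ⟨chunks m a, [], [], by simp, List.prefix_rfl, by simp, by simp, by simp, by simp⟩
    · have h := chunks_append ha hb
      split_ifs at h
      · exact ⟨A, [tmul s f], B, by rw [h]; simp, by rw [ha]; exact List.prefix_append _ _,
          List.suffix_cons _ _, by rw [ha]; simp, by simp, by simp⟩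
      · exact ⟨A ++ [s], [], f :: B, by rw [h]; simp, by rw [ha],
          List.suffix_rfl, by rw [ha]; simp, by simp, by simp⟩

/-! ### Neighbouring chunks are not glued -/

theorem chunks_sep (m : Mode) (w : List ℕ) : ∀ s1 s2 t t', chunks m w = s1 ++ t :: t' :: s2 →
    glue m t.2.1 t'.1 = false := by
  induction w with
  | nil => intro s1 s2 t t' h; simp at h
  | cons x w ih =>
    intro s1 s2 t t' h
    rw [chunks_cons] at h
    rcases hc : chunks m w with _ | ⟨u, us⟩
    · rw [hc] at h
      rcases s1 with _ | ⟨a, s1⟩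
      · simp [ccons] at h
      · simp [ccons] at h
    · rw [hc] at h
      simp only [ccons] at h
      split_ifs at h with hg
      · rcases s1 with _ | ⟨a, s1⟩
        · simp only [List.nil_append, List.cons.injEq] at h
          obtain ⟨rfl, h⟩ := h
          have := ih [] s2 u t' (by rw [hc, h]; simp)
          simpa using this
        · simp only [List.cons_append, List.cons.injEq] at h
          exact ih (u :: s1) s2 t t' (by rw [hc, h.2]; simp)
      · rcases s1 with _ | ⟨a, s1⟩
        · simp only [List.nil_append, List.cons.injEq] at h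
          obtain ⟨rfl, rfl, -⟩ := h
          simpa using hg
        · simp only [List.cons_append, List.cons.injEq] at h
          exact ih s1 s2 t t' (by rw [hc, h.2])

theorem adj_append_mem (a b : List ℕ) (x y : ℕ) : (x, y) ∈ adj (a ++ x :: y :: b) := by
  induction a with
  | nil => simp [adj]
  | cons z a ih =>
    rcases a with _ | ⟨z', a⟩
    · simp only [List.cons_append, List.nil_append] at ih ⊢
      exact RCWord.adj_cons_sub _ _ ih
    · exact RCWord.adj_cons_sub _ _ ih

/-- Two neighbouring old letters after a pass. -/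
theorem oldAdj_pass {N : ℕ} {P : ℕ → ℕ → Prop} {m : Mode} {u : List ℕ} {f : Tok → ℕ}
    (hu : OldAdj N P u)
    (hf : ∀ t ∈ chunks m u, (tlen t = 1 ∧ t = sg t.1 ∧ f t = t.1) ∨ N ≤ f t) :
    OldAdj N (fun x y => P x y ∧ glue m x y = false) ((chunks m u).map f) := by
  intro p hp h1 h2
  obtain ⟨s1, s2, t, t', hs, rfl⟩ := RCWord.adj_map_mem hp
  have ht : t ∈ chunks m u := by rw [hs]; simp
  have ht' : t' ∈ chunks m u := by rw [hs]; simp
  obtain ⟨a1, a2, a3⟩ := (hf t ht).resolve_right (by simp only at h1; omega)
  obtain ⟨b1, b2, b3⟩ := (hf t' ht').resolve_right (by simp only at h2; omega)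
  have hsep := chunks_sep m u s1 s2 t t' hs
  have hu' : u = s1.flatMap tw ++ t.1 :: t'.1 :: s2.flatMap tw := by
    conv_lhs => rw [← chunks_flat m u, hs]
    rw [List.flatMap_append, List.flatMap_cons, List.flatMap_cons]
    conv_lhs => rw [a2, b2, tw_sg, tw_sg]
    simp
  have hadj : (t.1, t'.1) ∈ adj u := by rw [hu']; exact adj_append_mem _ _ _ _
  simp only at h1 h2 ⊢
  rw [a3] at h1 ⊢
  rw [b3] at h2 ⊢
  refine ⟨hu (t.1, t'.1) hadj h1 h2, ?_⟩
  rw [a2, b2] at hsep
  simpa using hsep

/-! ### Weights -/

theorem wts_append (N : ℕ) (u v : List ℕ) : wts N (u ++ v) = wts N u + wts N v := by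
  simp [wts]

theorem length_le_wts (N : ℕ) (u : List ℕ) : u.length ≤ wts N u := by
  induction u with
  | nil => simp
  | cons x u ih =>
    rw [RCWord.wts_cons, List.length_cons]
    have : 1 ≤ (if x < N then 1 else 2) := by split_ifs <;> omega
    omega

theorem length_tw {t : Tok} (h : 1 ≤ tlen t) : (tw t).length = tlen t := by
  unfold tw; simp; omega

theorem wts_map {N : ℕ} {f : Tok → ℕ} (l : List Tok)
    (hf : ∀ t ∈ l, (t = sg t.1 ∧ f t = t.1) ∨ 2 ≤ tlen t) :
    wts N (l.map f) ≤ wts N (l.flatMap tw) := by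
  induction l with
  | nil => simp
  | cons t l ih =>
    rw [List.map_cons, RCWord.wts_cons, List.flatMap_cons, wts_append]
    have h1 := ih (fun s hs => hf s (by simp [hs]))
    have h2 : (if f t < N then 1 else 2) ≤ wts N (tw t) := by
      rcases hf t (by simp) with ⟨h3, h4⟩ | h3
      · rw [h3, tw_sg, ← h3, h4]; simp
      · have h4 := length_le_wts N (tw t)
        rw [length_tw (by omega)] at h4
        have : (if f t < N then 1 else 2) ≤ 2 := by split_ifs <;> omega
        omega
    omega

/-- The renaming of a pass. -/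
abbrev nm (X : St M) (m : Mode) : Tok → ℕ := nu (keys m X) (alloc X.1 (keys m X)).2

theorem wts_pass {X : St M} (h : Inv X) (m : Mode) (N : ℕ) : wts N (U (pass X m)) ≤ wts N (U X) := by
  rw [U_pass]
  conv_rhs => rw [← chunks_flat m (U X)]
  refine wts_map _ (fun t ht => ?_)
  rcases nu_cases h m ht with ⟨-, h1, h2⟩ | ⟨h1, -, -⟩
  · exact Or.inl ⟨h1, h2⟩
  · exact Or.inr h1

theorem wts_fold {X : St M} (h : Inv X) (N : ℕ) (l : List Mode) :
    wts N (U (l.foldl pass X)) ≤ wts N (U X) := by
  induction l generalizing X with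
  | nil => exact le_rfl
  | cons m l ih => exact (ih (inv_pass h m)).trans (wts_pass h m N)

theorem oldAdj_fold {X : St M} (h : Inv X) {N : ℕ} (hN : N ≤ X.1.length) (l : List Mode)
    (P : ℕ → ℕ → Prop) (hP : OldAdj N P (U X)) :
    OldAdj N (fun x y => P x y ∧ ∀ m ∈ l, glue m x y = false) (U (l.foldl pass X)) := by
  induction l generalizing X P with
  | nil => simpa using hP
  | cons m l ih =>
    have h1 : OldAdj N (fun x y => P x y ∧ glue m x y = false) (U (pass X m)) := by
      rw [U_pass]
      refine oldAdj_pass hP (fun t ht => ?_)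
      rcases nu_cases h m ht with h2 | ⟨-, h2, -⟩
      · exact Or.inl h2
      · exact Or.inr (hN.trans h2)
    have h2 := ih (inv_pass h m) (hN.trans (length_pass X m)) _ h1
    intro p hp h3 h4
    have h5 := h2 p hp h3 h4
    refine ⟨h5.1.1, fun m' hm' => ?_⟩
    rcases List.mem_cons.1 hm' with rfl | hm'
    · exact h5.1.2
    · exact h5.2 m' hm'

theorem modes_sep {N x y : ℕ} (hx : x < N) (hy : y < N) : ∃ m ∈ modes N, glue m x y = true := by
  by_cases h : x = y
  · exact ⟨none, by simp [modes], by simp [glue, h]⟩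
  · obtain ⟨b, hb, o, h1, h2⟩ := RCWord.bit_sep hx hy h
    refine ⟨some (b, o), ?_, ?_⟩
    · simp only [modes, List.mem_cons, List.mem_flatMap, List.mem_range]
      refine Or.inr ⟨b, hb, ?_⟩
      cases o <;> simp
    · simp only [RCWord.bitL] at h1 h2
      simp [glue, h1, h2]

end Size

open Size

/-- **A phase shrinks the word.** -/
theorem phase_shrink {X : St M} (h : Inv X) : 3 * (U (phase X)).length ≤ 2 * (U X).length + 1 := by
  have h1 := oldAdj_fold h le_rfl (modes X.1.length) (fun _ _ => True) (by
    intro p _ _ _; trivial)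
  have h2 : OldAdj X.1.length (fun _ _ => False) (U (phase X)) := by
    intro p hp h3 h4
    obtain ⟨-, h5⟩ := h1 p hp h3 h4
    obtain ⟨m, hm, h6⟩ := modes_sep h3 h4
    rw [h5 m hm] at h6
    exact absurd h6 (by simp)
  have h3 := (RCWord.length_of_oldAdj _ h2).1
  have h4 : wts X.1.length (U (phase X)) ≤ wts X.1.length (U X) := wts_fold h _ _
  rw [RCWord.wts_old _ h.2] at h4
  omega

theorem length_iter (a : Gram M × ℕ) (n : ℕ) (hn : (V a.1 a.2).length ≤ 2 ^ n) :
    (U (phase^[2 * n] (init a))).length ≤ 1 := by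
  refine RCWord.shrink_iter (fun t => (U (phase^[t] (init a))).length) n ?_ ?_
  · simp only [Function.iterate_zero, id]
    rw [U_init', List.length_map]
    exact hn
  · intro t
    simp only [Function.iterate_succ_apply']
    exact phase_shrink (inv_iter (inv_init a) t).1

theorem length_V_le {G : Gram M} (hG : Valid G) (i : ℕ) : (V G i).length ≤ 2 ^ G.length := by
  by_cases hi : i < G.length
  · exact (length_V_lt G hG i).trans (Nat.pow_le_pow_right (by norm_num) hi.le)
  · rw [V_out (by omega)]; simp

theorem final_length (a : Gram M × ℕ) (hG : Good a.1) :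
    (U (phase^[2 * a.1.length] (init a))).length ≤ 1 :=
  length_iter a _ (length_V_le hG.1 _)

namespace Size

/-! ### Words of length at most one -/

theorem keys_short {X : St M} {m : Mode} (h : (U X).length ≤ 1) : keys m X = [] := by
  rw [List.eq_nil_iff_forall_not_mem]
  intro t ht
  obtain ⟨h1, h2⟩ := mem_keys.1 ht
  obtain ⟨-, h3, -⟩ := chunks_tok h1
  omega

theorem pass_fst_short {X : St M} {m : Mode} (h : (U X).length ≤ 1) : (pass X m).1 = X.1 := by
  have : (pass X m).1 = (alloc X.1 (keys m X)).1 := rfl
  rw [this, keys_short h]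
  rfl

theorem fold_short {X : St M} (l : List Mode) (h : (U X).length ≤ 1) :
    (l.foldl pass X).1 = X.1 ∧ (U (l.foldl pass X)).length ≤ 1 := by
  induction l generalizing X with
  | nil => exact ⟨rfl, h⟩
  | cons m l ih =>
    obtain ⟨h1, h2⟩ := ih (X := pass X m) ((length_U_pass X m).trans h)
    exact ⟨by rw [List.foldl_cons, h1, pass_fst_short h], h2⟩

theorem iter_short {X : St M} (t : ℕ) (h : (U X).length ≤ 1) :
    (phase^[t] X).1 = X.1 ∧ (U (phase^[t] X)).length ≤ 1 := by
  induction t with
  | zero => exact ⟨rfl, h⟩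
  | succ t ih =>
    rw [Function.iterate_succ_apply']
    have := fold_short (modes (phase^[t] X).1.length) ih.2
    exact ⟨this.1.trans ih.1, this.2⟩

/-! ### The number of keys -/

/-- The word transformations of a list of passes. -/
def Ts (X : St M) : List Mode → List (List ℕ → List ℕ)
  | [] => []
  | m :: l => (fun u => (chunks m u).map (nm X m)) :: Ts (pass X m) l

theorem length_Ts (X : St M) (l : List Mode) : (Ts X l).length = l.length := by
  induction l generalizing X with
  | nil => rfl
  | cons m l ih => simp [Ts, ih]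

theorem loc_Ts (X : St M) (l : List Mode) : ∀ T ∈ Ts X l, Loc T := by
  induction l generalizing X with
  | nil => simp [Ts]
  | cons m l ih =>
    intro T hT
    rcases List.mem_cons.1 hT with rfl | hT
    · exact (loc_chunks m).map _
    · exact ih _ T hT

theorem app_Ts (X : St M) (l : List Mode) : U (l.foldl pass X) = app (Ts X l) (U X) := by
  induction l generalizing X with
  | nil => rfl
  | cons m l ih =>
    rw [List.foldl_cons, ih, Ts, RCWord.app_cons, U_pass]

theorem keys_bound (a : Gram M × ℕ) (G : Gram M) (hG : Valid G) (i : ℕ) (hV : V G i = V a.1 a.2)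
    (l : List Mode) (m : Mode) :
    (keys m (l.foldl pass (init a))).length ≤ G.length * (5 * l.length + 5) := by
  have h1 := keys_card (chunks m) (loc_chunks m) (Ts (init a) l) (loc_Ts _ l) idx G hG i
  rw [hV, ← U_init' a, ← app_Ts, length_Ts] at h1
  refine le_trans ?_ h1
  rw [← List.toFinset_card_of_nodup (nodup_keys m (l.foldl pass (init a)))]
  refine Finset.card_le_card (fun t ht => ?_)
  rw [List.mem_toFinset] at ht ⊢
  exact (mem_keys.1 ht).1

theorem size_tlen (a : Gram M × ℕ) (G : Gram M) (hG : Valid G) (i : ℕ) (hi : i < G.length)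
    (hV : V G i = V a.1 a.2) (l : List Mode) (m : Mode) :
    ∀ t ∈ keys m (l.foldl pass (init a)), Nat.size (tlen t) ≤ G.length := by
  intro t ht
  obtain ⟨h1, -⟩ := mem_keys.1 ht
  obtain ⟨-, h2, -⟩ := chunks_tok h1
  have h3 := (inv_fold (inv_init a) l).2.2.2
  rw [U_init', List.length_map, ← hV] at h3
  have h4 := length_V_lt G hG i
  rw [Nat.size_le]
  calc tlen t ≤ 2 ^ i := by omega
    _ < 2 ^ G.length := Nat.pow_lt_pow_right (by norm_num) hi

theorem grow (a : Gram M × ℕ) (G : Gram M) (hG : Valid G) (i : ℕ) (hi : i < G.length)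
    (hV : V G i = V a.1 a.2) (l : List Mode) :
    (l.foldl pass (init a)).1.length ≤
      2 * M + 1 + l.length * (G.length * (5 * l.length + 5) * (2 * G.length + 1)) := by
  induction l using List.reverseRecOn with
  | nil =>
    have : (init a).1 = O0 M := rfl
    simp [this, length_O0]
  | append_singleton l m ih =>
    rw [List.foldl_append, List.foldl_cons, List.foldl_nil]
    have h1 := (alloc_length (l.foldl pass (init a)).1 (keys m (l.foldl pass (init a))) G.length
      (size_tlen a G hG i hi hV l m)).1
    have h2 : (pass (l.foldl pass (init a)) m).1 =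
        (alloc (l.foldl pass (init a)).1 (keys m (l.foldl pass (init a)))).1 := rfl
    rw [h2]
    have h3 := keys_bound a G hG i hV l m
    have h4 : (keys m (l.foldl pass (init a))).length * (2 * G.length + 1) ≤
        G.length * (5 * l.length + 5) * (2 * G.length + 1) := Nat.mul_le_mul_right _ h3
    have h5 : G.length * (5 * l.length + 5) * (2 * G.length + 1) ≤
        G.length * (5 * (l ++ [m]).length + 5) * (2 * G.length + 1) := by
      refine Nat.mul_le_mul_right _ (Nat.mul_le_mul_left _ ?_)
      simp
    have h6 : (l ++ [m]).length = l.length + 1 := by simp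
    set Q := G.length * (5 * (l ++ [m]).length + 5) * (2 * G.length + 1) with hQ
    have h7 : l.length * (G.length * (5 * l.length + 5) * (2 * G.length + 1)) ≤ l.length * Q :=
      Nat.mul_le_mul_left _ h5
    rw [h6, add_mul, one_mul]
    omega

/-! ### The number of passes -/

theorem length_modes (n : ℕ) : (modes n).length = 1 + 2 * Nat.size n := by
  unfold modes
  rw [List.length_cons, List.length_flatMap]
  simp
  ring

theorem passes (a : Gram M × ℕ) (t : ℕ) : ∃ l : List Mode, phase^[t] (init a) = l.foldl pass (init a) ∧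
    l.length ≤ t * (1 + 2 * Nat.size (phase^[t] (init a)).1.length) := by
  induction t with
  | zero => exact ⟨[], rfl, by simp⟩
  | succ t ih =>
    obtain ⟨l, h1, h2⟩ := ih
    refine ⟨l ++ modes (phase^[t] (init a)).1.length, ?_, ?_⟩
    · rw [List.foldl_append, ← h1, Function.iterate_succ_apply']
      rfl
    · rw [List.length_append, length_modes]
      have h3 : (phase^[t] (init a)).1.length ≤ (phase^[t + 1] (init a)).1.length := by
        rw [Function.iterate_succ_apply']
        exact (inv_phase (inv_iter (inv_init a) t).1).2.2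
      have h4 := Nat.size_le_size h3
      have h5 : t * (1 + 2 * Nat.size (phase^[t] (init a)).1.length) ≤
          t * (1 + 2 * Nat.size (phase^[t + 1] (init a)).1.length) :=
        Nat.mul_le_mul_left _ (by omega)
      rw [add_mul, one_mul]
      omega

/-- The bound. -/
def bnd (M n : ℕ) : ℕ := 200 * (2 * M + 1 + 360 * n ^ 3 * (2 * n + 1) + 1) ^ 2

theorem bnd_mono (M : ℕ) : Monotone (bnd M) := by
  intro m n h
  unfold bnd
  gcongr

theorem bnd_pb (M : ℕ) : PB (bnd M) :=
  ⟨200 * (Polynomial.C (2 * M + 1) + 360 * Polynomial.X ^ 3 * (2 * Polynomial.X + 1) + 1) ^ 2,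
    fun n => by simp [bnd]⟩

theorem size_aux (a : Gram M × ℕ) (G : Gram M) (hG : Valid G) (i : ℕ) (hi : i < G.length)
    (hV : V G i = V a.1 a.2) (t : ℕ) (ht : t ≤ 2 * G.length) :
    (phase^[t] (init a)).1.length ≤ bnd M G.length := by
  obtain ⟨l, h1, h2⟩ := passes a t
  have h3 := grow a G hG i hi hV l
  rw [← h1] at h3
  set N := (phase^[t] (init a)).1.length with hN
  set n := G.length with hn
  unfold bnd
  apply RCWord.bound_of_log
  have hN1 : 1 ≤ N := by
    have := (inv_iter (inv_init a) t).2.2
    have h0 : (init a).1 = O0 M := rfl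
    rw [h0, length_O0] at this
    omega
  have hs : 1 ≤ Nat.size N := Nat.size_pos.2 hN1
  have hn1 : 1 ≤ n := by omega
  have h4 : l.length ≤ 6 * n * Nat.size N := by
    calc l.length ≤ t * (1 + 2 * Nat.size N) := h2
      _ ≤ 2 * n * (1 + 2 * Nat.size N) := Nat.mul_le_mul_right _ ht
      _ ≤ 2 * n * (3 * Nat.size N) := Nat.mul_le_mul_left _ (by omega)
      _ = 6 * n * Nat.size N := by ring
  have h5 : 1 ≤ 6 * n * Nat.size N := by
    have : 0 < 6 * n * Nat.size N := by positivity
    omega
  set s := 6 * n * Nat.size N with hsd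
  have h6 : l.length * (n * (5 * l.length + 5) * (2 * n + 1)) ≤
      360 * n ^ 3 * (2 * n + 1) * Nat.size N ^ 2 := by
    calc l.length * (n * (5 * l.length + 5) * (2 * n + 1)) ≤ s * (n * (5 * s + 5) * (2 * n + 1)) := by
          gcongr
      _ ≤ s * (n * (10 * s) * (2 * n + 1)) := by
          gcongr
          omega
      _ = 360 * n ^ 3 * (2 * n + 1) * Nat.size N ^ 2 := by rw [hsd]; ring
  have h7 : 360 * n ^ 3 * (2 * n + 1) * Nat.size N ^ 2 ≤
      (2 * M + 1 + 360 * n ^ 3 * (2 * n + 1)) * Nat.size N ^ 2 := Nat.mul_le_mul_right _ (by omega)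
  omega

end Size

/-- **The size bound.** -/
theorem size_bound (M : ℕ) : ∃ P : ℕ → ℕ, PB P ∧ Monotone P ∧ ∀ (a : Gram M × ℕ) (n t : ℕ),
    HasSLP n (V a.1 a.2) → (phase^[t] (init a)).1.length ≤ P n := by
  refine ⟨bnd M, bnd_pb M, bnd_mono M, ?_⟩
  rintro a n t ⟨G, hG, hGn, i, hi, hV⟩
  refine le_trans ?_ (bnd_mono M hGn)
  by_cases ht : t ≤ 2 * G.length
  · exact size_aux a G hG.1 i hi hV t ht
  · have h1 : (U (phase^[2 * G.length] (init a))).length ≤ 1 := by
      refine length_iter a _ ?_
      rw [← hV]
      exact length_V_le hG.1 _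
    obtain ⟨k, hk⟩ : ∃ k, t = k + 2 * G.length := ⟨t - 2 * G.length, by omega⟩
    rw [hk, Function.iterate_add_apply, (iter_short k h1).1]
    exact size_aux a G hG.1 i hi hV _ le_rfl

end Pool.Agent.Lib.MP_0c2883_lc.All.RC
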