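import Pool.Agent.Lib.MP_0c2883_lc.All.RCPT2
import Pool.Agent.Lib.MP_0c2883_lc.All.RCCount
import Pool.Agent.Lib.MP_0c2883_lc.All.RCSize
import Pool.Agent.Lib.MP_0c2883_lc.All.RCPTAlloc
import Pool.Agent.Lib.MP_0c2883_lc.All.RedPT

/-!
# Recompression in polynomial time: passes, phases, the whole algorithm
-/

set_option autoImplicit false

namespace Pool.Agent.Lib.MP_0c2883_lc.All.RC

open Pool.Agent.Lib.PolyTime List

variable {M : ℕ}
variable {α β γ : Type} [Enc α] [Enc β] [Enc γ]

theorem pt_cores {f : α → Mode} {g : α → St M} (hf : PT f) (hg : PT g) :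
    PT (fun a => cores (f a) (g a)) :=
  PT.map (g := fun _ p => pcore p) (pt_parts hf hg.snd'.fst') (pt_pcore PT.snd)

theorem pt_score {f : α → Mode} {g : α → St M} (hf : PT f) (hg : PT g) :
    PT (fun a => score (f a) (g a)) :=
  pt_pall (pt_bpart hf (pt_parts hf hg.snd'.fst') hg.snd'.snd')

theorem pt_keys {f : α → Mode} {g : α → St M} (hf : PT f) (hg : PT g) :
    PT (fun a => keys (f a) (g a)) :=
  pt_kbody (pt_ktab (pt_cores hf hg)) (pt_score hf hg)

theorem pt_rnAlloc : PT (fun x : (St M × Mode) × List Itm =>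
    rn (keys x.1.2 x.1.1) (alloc x.1.1.1 (keys x.1.2 x.1.1)).2 x.2) := by
  have hK : PT (fun x : (St M × Mode) × List Itm => keys x.1.2 x.1.1) :=
    pt_keys PT.fst.snd' PT.fst.fst'
  have hA : PT (fun x : (St M × Mode) × List Itm => alloc x.1.1.1 (keys x.1.2 x.1.1)) :=
    pt_alloc PT.fst.fst'.fst' hK
  exact pt_rn hK hA.snd' PT.snd

theorem pt_pass1 : PT (fun x : St M × Mode => (pass x.1 x.2).1) := by
  have hK : PT (fun x : St M × Mode => keys x.2 x.1) := pt_keys PT.snd PT.fst
  have hA : PT (fun x : St M × Mode => alloc x.1.1 (keys x.2 x.1)) := pt_alloc PT.fst.fst' hK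
  exact hA.fst'.congr (fun x => rfl)

theorem pt_pass2 : PT (fun x : St M × Mode => (pass x.1 x.2).2.1) := by
  have hC : PT (fun x : St M × Mode => cores x.2 x.1) := pt_cores PT.snd PT.fst
  exact (PT.map (g := fun (x : St M × Mode) (c : List Itm) =>
    rn (keys x.2 x.1) (alloc x.1.1 (keys x.2 x.1)).2 c) hC pt_rnAlloc).congr (fun x => rfl)

theorem pt_pass3 : PT (fun x : St M × Mode => (pass x.1 x.2).2.2) := by
  have hS : PT (fun x : St M × Mode => score x.2 x.1) := pt_score PT.snd PT.fst
  have h2 := pt_rnAlloc (M := M)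
  have h3 : PT (fun x : St M × Mode => (x, score x.2 x.1)) := PT.id.pair hS
  exact (h2.comp h3).congr (fun x => rfl)

theorem pt_pass0 : PT (fun x : St M × Mode => pass x.1 x.2) :=
  (pt_pass1.pair (pt_pass2.pair pt_pass3)).congr (fun x => rfl)

theorem pt_pass {f : α → St M} {g : α → Mode} (hf : PT f) (hg : PT g) :
    PT (fun a => pass (f a) (g a)) :=
  PT.comp (g := fun x : St M × Mode => pass x.1 x.2) pt_pass0 (hf.pair hg)

/-! ### Bounds along passes -/

theorem mem_rn {K : List Tok} {ns : List ℕ} {c : List Itm} {L N : ℕ} (hns : ∀ x ∈ ns, x ≤ N) :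
    (∀ t, (Sum.inl t : Itm) ∈ c → t.1 ≤ L) → ∀ x, Sum.inl x ∈ rn K ns c → x ≤ max L N := by
  intro h x hx
  unfold rn at hx
  obtain ⟨e, he, hex⟩ := List.mem_map.1 hx
  rcases e with t | i
  · simp only [Sum.map_inl, Sum.inl.injEq] at hex
    subst hex
    unfold nu
    split_ifs
    · exact (h t he).trans (le_max_left _ _)
    · rcases hk : ns[K.idxOf t]? with _ | y
      · simp
      · rw [Option.getD_some]
        exact (hns y (List.mem_of_getElem? hk)).trans (le_max_right _ _)
  · simp at hex

theorem okI_pcore {L B R k : ℕ} {p : Part} (h : okP L B R k p) : ∀ e ∈ pcore p, okI L B R e := by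
  rcases p with _ | ⟨t, _ | ⟨c, s⟩⟩
  · simp [pcore]
  · simp [pcore]
  · exact h.2.2.2

theorem okI_pall {L B R k : ℕ} {p : Part} (h : okP L B R k p) : ∀ e ∈ pall p, okI L B R e := by
  rcases p with _ | ⟨t, _ | ⟨c, s⟩⟩
  · simp [pall]
  · intro e he
    simp only [pall, List.mem_singleton] at he
    subst he
    exact h
  · obtain ⟨h1, h2, h3, h4⟩ := h
    intro e he
    simp only [pall, List.mem_cons, List.mem_append, List.mem_singleton, List.not_mem_nil,
      or_false] at he
    rcases he with rfl | he | rfl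
    · exact h1
    · exact h4 e he
    · exact h2

/-- Bounds for letters and references of a state. -/
def okS (L R : ℕ) (X : St M) : Prop := (∀ b ∈ X.2.1, okB L R b) ∧ okB L R X.2.2

theorem alloc_concat (O : Gram M) (K : List Tok) (t : Tok) :
    alloc O (K ++ [t]) = addTok (alloc O K) t := by
  unfold alloc; rw [List.foldl_append]; rfl

theorem names_lt (O : Gram M) (K : List Tok) : ∀ x ∈ (alloc O K).2, x < (alloc O K).1.length := by
  induction K using List.reverseRecOn with
  | nil => simp [alloc]
  | append_singleton K t ih =>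
    rw [alloc_concat]
    have h1 : (alloc O K).1.length ≤ (addTok (alloc O K) t).1.length := by
      have := addTok_length (alloc O K) t
      omega
    intro x hx
    unfold addTok at hx
    simp only [List.mem_append, List.mem_singleton] at hx
    rcases hx with hx | rfl
    · exact (ih x hx).trans_le h1
    · unfold addTok
      simp

theorem okB_rn {K : List Tok} {ns : List ℕ} {c : List Itm} {L B R N : ℕ} (hns : ∀ x ∈ ns, x ≤ N)
    (h : ∀ e ∈ c, okI L B R e) : okB (max L N) R (rn K ns c) := by
  refine ⟨mem_rn hns (fun t ht => (h _ ht).1), fun i hi => ?_⟩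
  unfold rn at hi
  obtain ⟨e, he, hex⟩ := List.mem_map.1 hi
  rcases e with t | j
  · simp at hex
  · simp only [Sum.map_inr, id, Sum.inr.injEq] at hex
    subst hex
    exact h _ he

theorem okS_pass {L R : ℕ} {X : St M} (h : okS L R X) (m : Mode) :
    okS (max L (pass X m).1.length) R (pass X m) := by
  have hns : ∀ x ∈ (alloc X.1 (keys m X)).2, x ≤ (pass X m).1.length :=
    fun x hx => (names_lt _ _ x hx).le
  obtain ⟨n, hn⟩ : ∃ n, ∀ b ∈ X.2.1, b.length ≤ n := by
    refine ⟨tot X.2.1, fun b hb => ?_⟩
    unfold tot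
    exact List.single_le_sum (by simp) _ (List.mem_map.2 ⟨b, hb, rfl⟩)
  have h1 := parts_ok m X.2.1 h.1 hn
  constructor
  · intro b hb
    obtain ⟨c, hc, rfl⟩ := List.mem_map.1 hb
    obtain ⟨p, hp, rfl⟩ := List.mem_map.1 hc
    exact okB_rn hns (okI_pcore (h1 p hp))
  · exact okB_rn hns (okI_pall (bpart_ok m h1 Nat.one_le_two_pow _ h.2))

theorem W_letters {L R : ℕ} (H : List (List (ℕ ⊕ ℕ))) (hH : ∀ b ∈ H, okB L R b) :
    ∀ w ∈ W H, ∀ x ∈ w, x ≤ L := by
  induction H using List.reverseRecOn with
  | nil => simp [W]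
  | append_singleton H b ih =>
    have ih' := ih (fun b hb => hH b (by simp [hb]))
    have h1 : W (H ++ [b]) = W H ++ [b.flatMap (iv (W H))] := by
      unfold W; rw [List.foldl_append]; rfl
    rw [h1]
    intro w hw
    rw [List.mem_append, List.mem_singleton] at hw
    rcases hw with hw | rfl
    · exact ih' w hw
    · intro x hx
      obtain ⟨e, he, hx⟩ := List.mem_flatMap.1 hx
      rcases e with y | i
      · simp only [iv, List.mem_singleton] at hx
        subst hx
        exact (hH b (by simp)).1 _ he
      · simp only [iv] at hx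
        rcases hk : (W H)[i]? with _ | w
        · rw [hk] at hx; simp at hx
        · rw [hk] at hx
          exact ih' w (List.mem_of_getElem? hk) x hx

theorem U_letters {L R : ℕ} {X : St M} (h : okS L R X) : ∀ x ∈ U X, x ≤ L := by
  intro x hx
  obtain ⟨e, he, hx⟩ := List.mem_flatMap.1 hx
  rcases e with y | i
  · simp only [iv, List.mem_singleton] at hx
    subst hx
    exact h.2.1 _ he
  · simp only [iv] at hx
    rcases hk : (W X.2.1)[i]? with _ | w
    · rw [hk] at hx; simp at hx
    · rw [hk] at hx
      exact W_letters X.2.1 h.1 w (List.mem_of_getElem? hk) x hx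

theorem keys_letters {L R : ℕ} {X : St M} (h : okS L R X) (m : Mode) :
    ∀ t ∈ keys m X, t.1 ≤ L ∧ t.2.1 ≤ L := by
  intro t ht
  obtain ⟨-, -, h1, h2, -⟩ := chunks_tok (mem_keys.1 ht).1
  exact ⟨U_letters h _ h1, U_letters h _ h2⟩

/-- explicit items of a state -/
def xe (X : St M) : ℕ := expl X.2.1 X.2.2

/-- references of a state -/
def xr (X : St M) : ℕ := refs X.2.1 X.2.2

theorem keys_card (X : St M) (m : Mode) : (keys m X).length ≤ xe X + 2 * xr X :=
  Small.tokens (e := xe X) (r := xr X) ⟨X.2.1, X.2.2, le_rfl, le_rfl, rfl⟩ m (keys m X)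
    (nodup_keys m X) (fun _ ht => mem_keys.1 ht)

theorem keys_size (X : St M) (m : Mode) : ∀ t ∈ keys m X, Nat.size (tlen t) ≤ xe X + xr X + 1 := by
  intro t ht
  have h1 := (chunks_tok (mem_keys.1 ht).1).2.1
  have h2 : (U X).length ≤ 2 ^ (xe X + xr X) := length_WS_le X.2.1 X.2.2
  rw [Nat.size_le]
  exact (h1.trans h2).trans_lt (Nat.pow_lt_pow_right (by norm_num) (by omega))

theorem fold_concat (X : St M) (l : List Mode) (m : Mode) :
    (l ++ [m]).foldl pass X = pass (l.foldl pass X) m := by
  rw [List.foldl_append]; rfl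

theorem xe_fold (X : St M) (l : List Mode) : xe (l.foldl pass X) ≤ xe X + 2 * xr X * l.length ∧
    xr (l.foldl pass X) ≤ xr X ∧ (l.foldl pass X).2.1.length = X.2.1.length := by
  induction l using List.reverseRecOn with
  | nil => exact ⟨by simp, le_rfl, rfl⟩
  | append_singleton l m ih =>
    obtain ⟨h1, h2, h3⟩ := ih
    rw [fold_concat]
    have h4 : xe (pass (l.foldl pass X) m) ≤ xe (l.foldl pass X) + 2 * xr (l.foldl pass X) :=
      expl_pass _ m
    have h5 : xr (pass (l.foldl pass X) m) ≤ xr (l.foldl pass X) := refs_pass _ m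
    refine ⟨?_, h5.trans h2, (length_pass_H _ m).trans h3⟩
    rw [List.length_append, List.length_singleton, Nat.mul_add, Nat.mul_one]
    omega

theorem okS_fold {L R : ℕ} {X : St M} (h : okS L R X) (l : List Mode) :
    okS (max L (l.foldl pass X).1.length) R (l.foldl pass X) := by
  induction l using List.reverseRecOn with
  | nil =>
    exact ⟨fun b hb => (h.1 b hb).mono (le_max_left _ _) le_rfl,
      h.2.mono (le_max_left _ _) le_rfl⟩
  | append_singleton l m ih =>
    rw [fold_concat]
    have h1 := okS_pass ih m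
    have h2 := length_pass (l.foldl pass X) m
    have h3 : max (max L (l.foldl pass X).1.length) (pass (l.foldl pass X) m).1.length =
        max L (pass (l.foldl pass X) m).1.length := by omega
    rwa [h3] at h1

theorem length_fold_mono (X : St M) (l : List Mode) : X.1.length ≤ (l.foldl pass X).1.length := by
  induction l using List.reverseRecOn with
  | nil => exact le_rfl
  | append_singleton l m ih =>
    rw [fold_concat]
    exact ih.trans (length_pass _ m)

theorem sizeO_fold {L R : ℕ} {X : St M} (h : okS L R X) (l : List Mode) :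
    size (l.foldl pass X).1 ≤ size X.1 + ((l.foldl pass X).1.length - X.1.length) *
      (4 * ((l.foldl pass X).1.length + 2 * max L (l.foldl pass X).1.length) + 20) := by
  induction l using List.reverseRecOn with
  | nil => simp
  | append_singleton l m ih =>
    rw [fold_concat]
    have h1 := length_pass (l.foldl pass X) m
    have h0 := length_fold_mono X l
    have h2 : size (pass (l.foldl pass X) m).1 ≤ size (l.foldl pass X).1 +
      ((pass (l.foldl pass X) m).1.length - (l.foldl pass X).1.length) *
      (4 * ((pass (l.foldl pass X) m).1.length + 2 * max L (l.foldl pass X).1.length) + 20) :=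
      size_alloc _ _ (keys_letters (okS_fold h l) m)
    set N0 := X.1.length
    set N1 := (l.foldl pass X).1.length
    set N2 := (pass (l.foldl pass X) m).1.length
    have h3 : (N1 - N0) * (4 * (N1 + 2 * max L N1) + 20) ≤ (N1 - N0) * (4 * (N2 + 2 * max L N2) + 20) :=
      Nat.mul_le_mul_left _ (by omega)
    have h4 : (N2 - N1) * (4 * (N2 + 2 * max L N1) + 20) ≤ (N2 - N1) * (4 * (N2 + 2 * max L N2) + 20) :=
      Nat.mul_le_mul_left _ (by omega)
    have h5 : (N2 - N0) * (4 * (N2 + 2 * max L N2) + 20) = (N1 - N0) * (4 * (N2 + 2 * max L N2) + 20) +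
        (N2 - N1) * (4 * (N2 + 2 * max L N2) + 20) := by
      rw [← Nat.add_mul]; congr 1; omega
    omega

theorem length_fold_le (X : St M) (l : List Mode) : (l.foldl pass X).1.length ≤ X.1.length +
    l.length * ((xe X + 2 * xr X * l.length + 2 * xr X) *
      (2 * (xe X + 2 * xr X * l.length + xr X + 1) + 1)) := by
  induction l using List.reverseRecOn with
  | nil => simp
  | append_singleton l m ih =>
    rw [fold_concat]
    obtain ⟨h1, h2, -⟩ := xe_fold X l
    have h3 := (alloc_length (l.foldl pass X).1 (keys m (l.foldl pass X)) _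
      (keys_size (l.foldl pass X) m)).1
    have h4 : (pass (l.foldl pass X) m).1.length ≤ (l.foldl pass X).1.length +
      (keys m (l.foldl pass X)).length * (2 * (xe (l.foldl pass X) + xr (l.foldl pass X) + 1) + 1) :=
      h3
    have h5 := keys_card (l.foldl pass X) m
    have h6 : (keys m (l.foldl pass X)).length *
        (2 * (xe (l.foldl pass X) + xr (l.foldl pass X) + 1) + 1) ≤
        (xe X + 2 * xr X * l.length + 2 * xr X) *
          (2 * (xe X + 2 * xr X * l.length + xr X + 1) + 1) :=
      Nat.mul_le_mul (by omega) (by omega)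
    rw [List.length_append, List.length_singleton]
    have h7 : 2 * xr X * l.length ≤ 2 * xr X * (l.length + 1) := Nat.mul_le_mul_left _ (by omega)
    have h8 : (xe X + 2 * xr X * l.length + 2 * xr X) *
          (2 * (xe X + 2 * xr X * l.length + xr X + 1) + 1) ≤
        (xe X + 2 * xr X * (l.length + 1) + 2 * xr X) *
          (2 * (xe X + 2 * xr X * (l.length + 1) + xr X + 1) + 1) :=
      Nat.mul_le_mul (by omega) (by omega)
    have h9 := Nat.mul_le_mul_left l.length h8
    rw [Nat.add_mul l.length 1, Nat.one_mul]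
    omega

/-! ### Sizes of states -/

theorem size_item {L R : ℕ} {b : List (ℕ ⊕ ℕ)} (h : okB L R b) : ∀ e ∈ b,
    size e ≤ 2 * L + 2 * R + 5 := by
  intro e he
  rcases e with x | i
  · have := h.1 x he
    rw [size_inl, size_nat]; omega
  · have := h.2 i he
    rw [size_inr, size_nat]; omega

theorem size_H {L R : ℕ} (H : List (List (ℕ ⊕ ℕ))) (h : ∀ b ∈ H, okB L R b) :
    size H ≤ tot H * (2 * L + 2 * R + 6) + 2 * H.length + 1 := by
  induction H with
  | nil => simp [tot]
  | cons b H ih =>
    have h1 := ih (fun b hb => h b (by simp [hb]))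
    have h2 : size b ≤ b.length * (2 * L + 2 * R + 6) + 1 :=
      size_list_le (S := 2 * L + 2 * R + 5) b (size_item (h b (by simp)))
    have h3 : tot (b :: H) = b.length + tot H := by unfold tot; simp
    rw [size_cons, h3, Nat.add_mul, List.length_cons]
    omega

theorem tot_eq (X : St M) : tot X.2.1 + X.2.2.length = xe X + xr X := by
  have h : ∀ H : List (List (ℕ ⊕ ℕ)), tot H = (H.map nE).sum + (H.map nR).sum := by
    intro H
    induction H with
    | nil => rfl
    | cons b H ih =>
      have h3 : tot (b :: H) = b.length + tot H := by unfold tot; simp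
      rw [h3, ih, Cnt.length_eq b]
      simp only [List.map_cons, List.sum_cons]
      omega
  unfold xe xr expl refs
  rw [h, Cnt.length_eq X.2.2]
  omega

theorem size_state {L R : ℕ} {X : St M} (h : okS L R X) :
    size X ≤ size X.1 + (xe X + xr X) * (2 * L + 2 * R + 6) + 2 * X.2.1.length + 4 := by
  have h1 := size_H X.2.1 h.1
  have h2 : size X.2.2 ≤ X.2.2.length * (2 * L + 2 * R + 6) + 1 :=
    size_list_le (S := 2 * L + 2 * R + 5) X.2.2 (size_item h.2)
  have h3 := tot_eq X
  have h4 : size X = size X.1 + (size X.2.1 + size X.2.2 + 1) + 1 := by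
    rw [size_prod (x := X), size_prod (x := X.2)]
  have h5 : (xe X + xr X) * (2 * L + 2 * R + 6) = tot X.2.1 * (2 * L + 2 * R + 6) +
      X.2.2.length * (2 * L + 2 * R + 6) := by rw [← h3, Nat.add_mul]
  omega

/-- Bound for the size of a state. -/
def bX (E r N s0 L R h : ℕ) : ℕ :=
  s0 + N * (4 * (N + 2 * (L + N)) + 20) + (E + r) * (2 * (L + N) + 2 * R + 6) + 2 * h + 4

theorem size_run {L R E N : ℕ} {X : St M} (h : okS L R X) (l : List Mode)
    (hE : xe X + 2 * xr X * l.length ≤ E) (hN : (l.foldl pass X).1.length ≤ N) :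
    size (l.foldl pass X) ≤ bX E (xr X) N (size X.1) L R X.2.1.length := by
  have h1 := size_state (okS_fold h l)
  have h2 := sizeO_fold h l
  obtain ⟨h3, h4, h5⟩ := xe_fold X l
  unfold bX
  have h6 : ((l.foldl pass X).1.length - X.1.length) *
      (4 * ((l.foldl pass X).1.length + 2 * max L (l.foldl pass X).1.length) + 20) ≤
      N * (4 * (N + 2 * (L + N)) + 20) := Nat.mul_le_mul (by omega) (by omega)
  have h7 : (xe (l.foldl pass X) + xr (l.foldl pass X)) *
      (2 * max L (l.foldl pass X).1.length + 2 * R + 6) ≤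
      (E + xr X) * (2 * (L + N) + 2 * R + 6) := Nat.mul_le_mul (by omega) (by omega)
  rw [h5] at h1
  omega

theorem bX_mono {E r N s0 L R h E' r' N' s0' L' R' h' : ℕ} (hE : E ≤ E') (hr : r ≤ r')
    (hN : N ≤ N') (hs : s0 ≤ s0') (hL : L ≤ L') (hR : R ≤ R') (hh : h ≤ h') :
    bX E r N s0 L R h ≤ bX E' r' N' s0' L' R' h' := by
  unfold bX
  have h1 : N * (4 * (N + 2 * (L + N)) + 20) ≤ N' * (4 * (N' + 2 * (L' + N')) + 20) :=
    Nat.mul_le_mul hN (by omega)
  have h2 : (E + r) * (2 * (L + N) + 2 * R + 6) ≤ (E' + r') * (2 * (L' + N') + 2 * R' + 6) :=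
    Nat.mul_le_mul (by omega) (by omega)
  omega

theorem PB.bX {E r N s0 L R h : ℕ → ℕ} (hE : PB E) (hr : PB r) (hN : PB N) (hs : PB s0)
    (hL : PB L) (hR : PB R) (hh : PB h) :
    PB (fun n => bX (E n) (r n) (N n) (s0 n) (L n) (R n) (h n)) :=
  (((hs.add (hN.mul (((PB.const 4).mul (hN.add ((PB.const 2).mul (hL.add hN)))).add
    (PB.const 20)))).add
    ((hE.add hr).mul ((((PB.const 2).mul (hL.add hN)).add ((PB.const 2).mul hR)).add
      (PB.const 6)))).add ((PB.const 2).mul hh)).add (PB.const 4)

/-! ### Phases in polynomial time -/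

theorem pt_modes {f : α → ℕ} (hf : PT f) : PT (fun a => modes (f a)) := by
  have h1 : PT (fun a => Nat.size (f a)) := (pt_natBN hf).bnzSize
  have h2 : PT (fun x : α × ℕ => ([some (x.2, false), some (x.2, true)] : List Mode)) :=
    PT.cons (PT.some (PT.snd.pair (PT.const false))) (PT.list1 (PT.some (PT.snd.pair
      (PT.const true))))
  exact PT.cons (PT.const none) (PT.flatMap (g := fun _ b => ([some (b, false), some (b, true)] :
    List Mode)) (PT.range h1) h2)

theorem xe_le_size (X : St M) : xe X + xr X ≤ size X := by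
  have h1 := tot_eq X
  have h2 := tot_le_size X.2.1
  have h3 := length_le_size X.2.2
  have h4 : size X = size X.1 + (size X.2.1 + size X.2.2 + 1) + 1 := by
    rw [size_prod (x := X), size_prod (x := X.2)]
  omega

theorem okS_size (X : St M) : okS (size X) (size X) X := by
  have h4 : size X = size X.1 + (size X.2.1 + size X.2.2 + 1) + 1 := by
    rw [size_prod (x := X), size_prod (x := X.2)]
  refine ⟨fun b hb => ?_, (okB_size X.2.2).mono (by omega) (by omega)⟩
  have := size_mem_lt hb
  exact (okB_size b).mono (by omega) (by omega)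

/-- explicit items during a phase -/
def eB (n : ℕ) : ℕ := n + 2 * n * (2 * n + 1)

/-- output rules during a phase -/
def nB (n : ℕ) : ℕ := n + (2 * n + 1) * ((eB n + 2 * n) * (2 * (eB n + n + 1) + 1))

theorem pb_eB : PB eB := PB.id.add (((PB.const 2).mul PB.id).mul (((PB.const 2).mul PB.id).add
  (PB.const 1)))

theorem pb_nB : PB nB := PB.id.add ((((PB.const 2).mul PB.id).add (PB.const 1)).mul
  ((pb_eB.add ((PB.const 2).mul PB.id)).mul (((PB.const 2).mul ((pb_eB.add PB.id).add
    (PB.const 1))).add (PB.const 1))))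

theorem pt_phase {f : α → St M} (hf : PT f) : PT (fun a => phase (f a)) := by
  have base : PT (fun X : St M => phase X) := by
    refine PT.foldl (f := fun X : St M => modes X.1.length) (init := fun X => X)
      (step := fun _ X m => pass X m) (pt_modes PT.fst.length) PT.id
      (pt_pass PT.snd.fst' PT.snd.snd')
      (B := fun n => bX (eB n) n (nB n) n n n n)
      (PB.bX pb_eB PB.id pb_nB PB.id PB.id PB.id PB.id) ?_
    intro X l hl
    have h0 : size X = size X.1 + (size X.2.1 + size X.2.2 + 1) + 1 := by
      rw [size_prod (x := X), size_prod (x := X.2)]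
    have h1 := xe_le_size X
    have h2 := length_le_size X.1
    have h3 := length_le_size X.2.1
    have h4 : l.length ≤ 2 * size X + 1 := by
      have h5 := hl.length_le
      rw [Size.length_modes] at h5
      have h6 : Nat.size X.1.length ≤ X.1.length := by
        rw [Nat.size_le]; exact Nat.lt_two_pow_self
      omega
    set n := size X with hn
    have h5 : 2 * xr X * l.length ≤ 2 * n * (2 * n + 1) := Nat.mul_le_mul (by omega) h4
    have hE : xe X + 2 * xr X * l.length ≤ eB n := by unfold eB; omega
    have hN : (l.foldl pass X).1.length ≤ nB n := by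
      refine (length_fold_le X l).trans ?_
      unfold nB
      have h6 : l.length * ((xe X + 2 * xr X * l.length + 2 * xr X) *
          (2 * (xe X + 2 * xr X * l.length + xr X + 1) + 1)) ≤
          (2 * n + 1) * ((eB n + 2 * n) * (2 * (eB n + n + 1) + 1)) :=
        Nat.mul_le_mul h4 (Nat.mul_le_mul (by omega) (by omega))
      omega
    exact (size_run (okS_size X) l hE hN).trans (bX_mono le_rfl (by omega) le_rfl (by omega)
      le_rfl le_rfl (by omega))
  exact PT.comp (g := fun X : St M => phase X) base hf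

end Pool.Agent.Lib.MP_0c2883_lc.All.RC
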