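import Pool.Agent.Lib.MP_0c2883_lc.All.Cuts
import Pool.Agent.Lib.MP_0c2883_lc.All.Base

/-!
# Free reduction of compressed words
-/

namespace Pool.Agent.Lib.MP_0c2883_lc.All

open List Pool.Agent.Lib.PolyTime FreeGroup

variable {ρ : ℕ}

/-- A factor of a reduced word is reduced. -/
theorem red_of_sub {u v : List (Letter ρ)} (hv : FreeGroup.IsReduced v) (h : u <:+: v) :
    FreeGroup.IsReduced u := by
  obtain ⟨s, t, rfl⟩ := h
  rw [FreeGroup.IsReduced, isChain_append, isChain_append] at hv
  exact hv.1.2.1

/-! ### The inverse grammar -/

/-- the rule for the inverse word -/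
def invRule (N : ℕ) (r : GRule ρ) : GRule ρ :=
  match r with
  | none => none
  | some (Sum.inl x) => some (Sum.inl (linv x))
  | some (Sum.inr p) => some (Sum.inr (p.2 + N, p.1 + N))

/-- the grammar together with all inverses -/
def invG (G : Gram ρ) : Gram ρ := G ++ G.map (invRule G.length)

theorem invG_get {G : Gram ρ} {i : ℕ} (hi : i < G.length) :
    (invG G)[i + G.length]? = (G[i]?).map (invRule G.length) := by
  unfold invG
  rw [List.getElem?_append_right (by omega), Nat.add_sub_cancel, List.getElem?_map]

theorem invG_valid {G : Gram ρ} (hG : Valid G) : Valid (invG G) := by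
  intro i a b h
  by_cases hi : i < G.length
  · unfold invG at h
    rw [List.getElem?_append_left hi] at h
    exact hG i a b h
  · by_cases hi2 : i - G.length < G.length
    · have e : i = (i - G.length) + G.length := by omega
      rw [e, invG_get hi2] at h
      rcases hr : G[i - G.length]? with _ | _ | x | ⟨a', b'⟩
      · rw [hr] at h; simp at h
      · rw [hr] at h; simp [invRule] at h
      · rw [hr] at h; simp [invRule] at h
      · rw [hr] at h
        simp only [Option.map_some, invRule, Option.some.injEq, Sum.inr.injEq,
          Prod.mk.injEq] at h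
        have := hG _ _ _ hr
        omega
    · exfalso
      rw [List.getElem?_eq_none_iff.2 (by simp [invG]; omega)] at h
      simp at h

theorem invG_good {G : Gram ρ} (hG : Good G) : Good (invG G) := by
  refine ⟨invG_valid hG.1, ?_⟩
  unfold invG
  rw [List.getElem?_append_left hG.pos]; exact hG.2

theorem V_invG_left {G : Gram ρ} {i : ℕ} (hi : i < G.length) : V (invG G) i = V G i :=
  V_append hi

theorem V_invG {G : Gram ρ} (hG : Valid G) (i : ℕ) (hi : i < G.length) :
    V (invG G) (i + G.length) = invRev (V G i) := by
  induction i using Nat.strong_induction_on with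
  | _ i ih =>
    have h := invG_get hi
    rcases hr : G[i]? with _ | _ | x | ⟨a, b⟩
    · rw [List.getElem?_eq_none_iff] at hr; omega
    · rw [hr] at h
      rw [V_none h, V_none hr]; rfl
    · rw [hr] at h
      rw [V_letter h, V_letter hr]; rfl
    · rw [hr] at h
      obtain ⟨ha, hb⟩ := hG i a b hr
      rw [V_cat (invG_valid hG) h, V_cat hG hr]
      simp only
      rw [ih a ha (by omega), ih b hb (by omega), invRev, invRev, invRev, List.map_append,
        List.reverse_append]

/-! ### The cancellation length -/

/-- the word `u` ends with the inverse of the initial segment of length `c` of `v` -/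
def Can (u v : List (Letter ρ)) (c : ℕ) : Prop :=
  c ≤ u.length ∧ c ≤ v.length ∧ part true u c = part true (invRev v) c

theorem Can.zero (u v : List (Letter ρ)) : Can u v 0 := ⟨by omega, by omega, by simp⟩

theorem part_true_part {u : List (Letter ρ)} {c d : ℕ} (h : d ≤ c) (hc : c ≤ u.length) :
    part true (part true u c) d = part true u d := by
  simp only [part, if_true]
  rw [List.length_drop, List.drop_drop]
  congr 1; omega

theorem Can.mono {u v : List (Letter ρ)} {c d : ℕ} (h : Can u v c) (hd : d ≤ c) : Can u v d := by
  obtain ⟨h1, h2, h3⟩ := h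
  refine ⟨by omega, by omega, ?_⟩
  rw [← part_true_part hd h1, h3, part_true_part hd (by rw [invRev_length]; exact h2)]

/-- the test for a given cancellation length -/
def canTest (G : Gram ρ) (j k : ℕ) (c : BNz) : Bool :=
  spTest (mkEnv (cut' true (invG G) (k + G.length) c).1)
    ((j, (cut' true (invG G) (k + G.length) c).2), c)

theorem canTest_spec {G : Gram ρ} (hG : Good G) {j k : ℕ} (hj : j < G.length) (hk : k < G.length)
    {c : BNz} (h1 : c.val ≤ (V G j).length) (h2 : c.val ≤ (V G k).length) :
    canTest G j k c = true ↔ Can (V G j) (V G k) c.val := by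
  have hk2 : k + G.length < (invG G).length := by simp [invG]; omega
  have hV := V_invG hG.1 k hk
  have hlen : c.val ≤ (V (invG G) (k + G.length)).length := by
    rw [hV, invRev_length]; exact h2
  obtain ⟨G', e1, e2, e3, e4, _, _⟩ := cut_spec (r := true) (invG_good hG) hk2 hlen
  unfold canTest
  rw [e1]
  have hj2 : j < (invG G).length := by simp [invG]; omega
  have hVj : V (invG G ++ G') j = V G j := by rw [V_append hj2, V_invG_left hj]
  have hlen2 : (V (invG G ++ G') (cut' true (invG G) (k + G.length) c).2).length = c.val := by
    rw [e4, length_part hlen]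
  rw [spTest_spec e2.1 (by
    refine ⟨?_, e3, ?_, ?_⟩
    · simp only; rw [List.length_append]; omega
    · simp only; rw [hVj]; exact h1
    · simp only; omega)]
  unfold TR SP Can
  simp only
  rw [List.take_of_length_le (l := V (invG G ++ G') _) (by omega), e4, hVj, hV]
  simp only [part, if_true]
  tauto

/-- one step of the binary search -/
def bsStep (G : Gram ρ) (j k : ℕ) (c : BNz) (t : ℕ) : BNz :=
  if decide (c.val + 2 ^ t ≤ (len (mkEnv G) j).val) && (decide (c.val + 2 ^ t ≤
      (len (mkEnv G) k).val) && canTest G j k ⟨c.val + 2 ^ t⟩) then ⟨c.val + 2 ^ t⟩ else c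

/-- the cancellation length of the words `j` and `k` -/
def cancel (G : Gram ρ) (j k : ℕ) : BNz :=
  (List.range (Nat.size (len (mkEnv G) j).val)).reverse.foldl (bsStep G j k) ⟨0⟩

theorem bsStep_spec {G : Gram ρ} (hG : Good G) {j k : ℕ} (hj : j < G.length) (hk : k < G.length)
    (c : BNz) (t : ℕ) : (Can (V G j) (V G k) (c.val + 2 ^ t) → bsStep G j k c t = ⟨c.val + 2 ^ t⟩) ∧
      (¬ Can (V G j) (V G k) (c.val + 2 ^ t) → bsStep G j k c t = c) := by
  unfold bsStep
  rw [len_mk, len_mk]
  constructor
  · intro h
    have h3 := (canTest_spec hG hj hk (c := ⟨c.val + 2 ^ t⟩) h.1 h.2.1).2 h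
    rw [if_pos]
    simp only [Bool.and_eq_true, decide_eq_true_eq]
    exact ⟨h.1, h.2.1, h3⟩
  · intro h
    rw [if_neg]
    simp only [Bool.and_eq_true, decide_eq_true_eq]
    rintro ⟨h1, h2, h3⟩
    exact h ((canTest_spec hG hj hk (c := ⟨c.val + 2 ^ t⟩) h1 h2).1 h3)

theorem cancel_spec {G : Gram ρ} (hG : Good G) {j k : ℕ} (hj : j < G.length) (hk : k < G.length) :
    Can (V G j) (V G k) (cancel G j k).val ∧ ¬ Can (V G j) (V G k) ((cancel G j k).val + 1) := by
  have key : ∀ (t : ℕ) (c : BNz), Can (V G j) (V G k) c.val →
      ¬ Can (V G j) (V G k) (c.val + 2 ^ t) →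
      Can (V G j) (V G k) ((List.range t).reverse.foldl (bsStep G j k) c).val ∧
        ¬ Can (V G j) (V G k) (((List.range t).reverse.foldl (bsStep G j k) c).val + 1) := by
    intro t
    induction t with
    | zero => intro c h1 h2; exact ⟨h1, by simpa using h2⟩
    | succ t ih =>
      intro c h1 h2
      rw [List.range_succ, List.reverse_append, List.reverse_singleton, List.singleton_append,
        List.foldl_cons]
      obtain ⟨s1, s2⟩ := bsStep_spec hG hj hk c t
      by_cases h : Can (V G j) (V G k) (c.val + 2 ^ t)
      · rw [s1 h]
        refine ih _ h ?_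
        simp only
        rw [add_assoc, ← two_mul, ← pow_succ']
        exact h2
      · rw [s2 h]; exact ih c h1 h
  unfold cancel
  apply key
  · exact Can.zero _ _
  · rintro ⟨h, _⟩
    have := Nat.lt_size_self (len (mkEnv G) j).val
    rw [len_mk] at this h
    simp only [zero_add] at h
    omega

theorem cancel_le {G : Gram ρ} (hG : Good G) {j k : ℕ} (hj : j < G.length) (hk : k < G.length) :
    (cancel G j k).val ≤ (V G j).length ∧ (cancel G j k).val ≤ (V G k).length :=
  ⟨(cancel_spec hG hj hk).1.1, (cancel_spec hG hj hk).1.2.1⟩

/-! ### Words -/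

theorem part_true_eq {u : List (Letter ρ)} {c : ℕ} : part true u c = u.drop (u.length - c) := by
  simp [part]

theorem part_invRev {v : List (Letter ρ)} {c : ℕ} (hc : c ≤ v.length) :
    part true (invRev v) c = invRev (v.take c) := by
  rw [part_true_eq, invRev_length, invRev, invRev, List.map_take]
  rw [List.drop_reverse, List.length_map]
  congr 2
  omega

theorem reduced_product {u v : List (Letter ρ)} {c : ℕ} (hu : IsReduced u) (hv : IsReduced v)
    (h1 : Can u v c) (h2 : ¬ Can u v (c + 1)) :
    IsReduced (u.take (u.length - c) ++ v.drop c) ∧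
      (mk (u.take (u.length - c) ++ v.drop c) : FreeGroup (Fin ρ)) = mk u * mk v := by
  obtain ⟨a1, a2, a3⟩ := h1
  rw [part_invRev a2, part_true_eq] at a3
  constructor
  · have hu' : IsReduced (u.take (u.length - c)) := red_of_sub hu (List.take_prefix _ _).isInfix
    have hv' : IsReduced (v.drop c) := red_of_sub hv (List.drop_suffix _ _).isInfix
    rw [FreeGroup.IsReduced, isChain_append]
    refine ⟨hu', hv', ?_⟩
    intro x hx y hy hxy
    by_contra hne
    have hxy' : x = linv y := by
      rcases x with ⟨i, s⟩; rcases y with ⟨j, t⟩
      simp only at hxy hne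
      subst hxy
      simp only [linv, Prod.mk.injEq, true_and]
      cases s <;> cases t <;> simp_all
    apply h2
    -- lengths
    have l1 : u.take (u.length - c) ≠ [] := by
      intro h; rw [h] at hx; simp at hx
    have l2 : v.drop c ≠ [] := by
      intro h; rw [h] at hy; simp at hy
    have l1' : c + 1 ≤ u.length := by
      by_contra h
      apply l1
      have : u.length - c = 0 := by omega
      rw [this]; simp
    have l2' : c + 1 ≤ v.length := by
      by_contra h
      apply l2
      rw [List.drop_eq_nil_iff]; omega
    refine ⟨l1', l2', ?_⟩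
    rw [part_invRev l2', part_true_eq]
    -- the last letter
    have e1 : u.drop (u.length - (c + 1)) = x :: u.drop (u.length - c) := by
      have hlt : u.length - (c + 1) < u.length := by omega
      rw [List.drop_eq_getElem_cons hlt]
      have e2 : u.length - (c + 1) + 1 = u.length - c := by omega
      rw [e2]
      congr 1
      rw [Option.mem_def, List.getLast?_eq_getElem?, List.length_take,
        List.getElem?_take_of_lt (by omega)] at hx
      have e3 : min (u.length - c) u.length - 1 = u.length - (c + 1) := by omega
      rw [e3, List.getElem?_eq_getElem hlt, Option.some.injEq] at hx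
      exact hx
    have e4 : v.take (c + 1) = v.take c ++ [y] := by
      rw [List.take_succ]
      congr 1
      rw [Option.mem_def, List.head?_drop] at hy
      rw [hy]; rfl
    rw [e1, e4, a3, hxy']
    simp [invRev, linv]
  · have e1 : (mk u : FreeGroup (Fin ρ)) = mk (u.take (u.length - c)) * mk (u.drop (u.length - c)) := by
      rw [mul_mk, List.take_append_drop]
    have e2 : (mk v : FreeGroup (Fin ρ)) = mk (v.take c) * mk (v.drop c) := by
      rw [mul_mk, List.take_append_drop]
    rw [e1, e2, a3, ← inv_mk, ← mul_mk]
    group

/-! ### Products -/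

/-- add a nonterminal for the reduced product of `j` and `k` -/
def addProd (G : Gram ρ) (j k : ℕ) : Gram ρ × ℕ :=
  let c := cancel G j k
  let A := cut' false G j ⟨(len (mkEnv G) j).val - c.val⟩
  let B := cut' true A.1 k ⟨(len (mkEnv G) k).val - c.val⟩
  (B.1 ++ [some (Sum.inr (A.2, B.2))], B.1.length)

theorem addProd_spec {G : Gram ρ} (hG : Good G) {j k : ℕ} (hj : j < G.length) (hk : k < G.length)
    (hu : IsReduced (V G j)) (hv : IsReduced (V G k)) :
    ∃ G', (addProd G j k).1 = G ++ G' ∧ Good (G ++ G') ∧ (addProd G j k).2 < (G ++ G').length ∧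
      IsReduced (V (G ++ G') (addProd G j k).2) ∧
      (mk (V (G ++ G') (addProd G j k).2) : FreeGroup (Fin ρ)) = mk (V G j) * mk (V G k) ∧
      G'.length ≤ H G j + H G k + 3 ∧
      H (G ++ G') (addProd G j k).2 ≤ max (H G j) (H G k) + 2 := by
  obtain ⟨c1, c2⟩ := cancel_spec hG hj hk
  obtain ⟨l1, l2⟩ := cancel_le hG hj hk
  obtain ⟨r1, r2⟩ := reduced_product hu hv c1 c2
  set c := cancel G j k with hc
  obtain ⟨A', a1, a2, a3, a4, a5, a6⟩ := cut_spec (r := false) hG hj
    (c := ⟨(len (mkEnv G) j).val - c.val⟩) (by rw [len_mk]; simp only; omega)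
  set A := cut' false G j ⟨(len (mkEnv G) j).val - c.val⟩ with hA
  have hkA : k < (G ++ A').length := by rw [List.length_append]; omega
  have hVk : V (G ++ A') k = V G k := V_append hk
  obtain ⟨B', b1, b2, b3, b4, b5, b6⟩ := cut_spec (r := true) a2 hkA
    (c := ⟨(len (mkEnv G) k).val - c.val⟩) (by rw [len_mk, hVk]; simp only; omega)
  rw [← a1] at b1 b3 b4 b6
  set B := cut' true A.1 k ⟨(len (mkEnv G) k).val - c.val⟩ with hB
  have e1 : addProd G j k = (B.1 ++ [some (Sum.inr (A.2, B.2))], B.1.length) := rfl
  rw [a1] at b1 b3 b4 b6
  have hA2 : A.2 < (G ++ A' ++ B').length := by rw [List.length_append]; omega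
  have hHk : H (G ++ A') k = H G k := H_append hk
  rw [hVk] at b4
  rw [hHk] at b5 b6
  obtain ⟨v1, v2⟩ := V_concat b2.1 hA2 b3
  have v3 : V (G ++ A' ++ B') A.2 = V (G ++ A') A.2 := V_append a3
  have v4 : H (G ++ A' ++ B') A.2 = H (G ++ A') A.2 := H_append a3
  have hval : V (G ++ A' ++ B' ++ [some (Sum.inr (A.2, B.2))]) (G ++ A' ++ B').length =
      (V G j).take ((V G j).length - c.val) ++ (V G k).drop c.val := by
    rw [v1, v3, a4, b4, len_mk, len_mk]
    simp only [part, if_true, Bool.false_eq_true, if_false]
    congr 2; omega
  have hG3 : Good (G ++ A' ++ B' ++ [some (Sum.inr (A.2, B.2))]) := b2.concat (by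
    intro a b h
    simp only [Option.some.injEq, Sum.inr.injEq, Prod.mk.injEq] at h
    omega)
  refine ⟨A' ++ (B' ++ [some (Sum.inr (A.2, B.2))]), ?_, ?_, ?_, ?_, ?_, ?_, ?_⟩
  · rw [e1, b1]; simp
  · simpa using hG3
  · rw [e1, b1]; simp
  · rw [e1, b1]
    simp only
    rw [← List.append_assoc, ← List.append_assoc, hval]; exact r1
  · rw [e1, b1]
    simp only
    rw [← List.append_assoc, ← List.append_assoc, hval]; exact r2
  · simp only [List.length_append, List.length_singleton]; omega
  · rw [e1, b1]
    simp only
    rw [← List.append_assoc, ← List.append_assoc, v2, v4]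
    omega

/-! ### Input programs -/

theorem words_concat (W : List (SRule ρ)) (r : SRule ρ) : words (W ++ [r]) = words W ++ [match r with
    | Sum.inl x => [x]
    | Sum.inr (j, k) => (words W)[j]?.getD [] ++ (words W)[k]?.getD []] := by
  unfold words; rw [List.foldl_append]; rfl

@[simp] theorem length_words (W : List (SRule ρ)) : (words W).length = W.length := by
  induction W using List.reverseRecOn with
  | nil => rfl
  | append_singleton W r ih => rw [words_concat]; simp [ih]

/-- one step of the reduction -/
def redStep (s : Gram ρ × List ℕ) (r : SRule ρ) : Gram ρ × List ℕ :=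
  match r with
  | Sum.inl x => (s.1 ++ [some (Sum.inl x)], s.2 ++ [s.1.length])
  | Sum.inr p => ((addProd s.1 (s.2[p.1]?.getD 0) (s.2[p.2]?.getD 0)).1,
      s.2 ++ [(addProd s.1 (s.2[p.1]?.getD 0) (s.2[p.2]?.getD 0)).2])

/-- bottom-up free reduction -/
def red (W : List (SRule ρ)) : Gram ρ × List ℕ := W.foldl redStep ([none], [])

/-- the invariant of the reduction -/
structure RInv (W : List (SRule ρ)) (s : Gram ρ × List ℕ) : Prop where
  good : Good s.1
  len : s.2.length = W.length
  lt : ∀ x ∈ s.2, x < s.1.length
  word : ∀ i : ℕ, i < W.length → IsReduced (V s.1 (s.2[i]?.getD 0)) ∧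
    (mk (V s.1 (s.2[i]?.getD 0)) : FreeGroup (Fin ρ)) = mk ((words W)[i]?.getD [])
  hgt : ∀ x ∈ s.2, H s.1 x ≤ 2 * W.length
  size : s.1.length ≤ 1 + W.length * (4 * W.length + 3)

theorem getD_mem_or {X : Type} (l : List X) (i : ℕ) (d : X) : l[i]?.getD d ∈ l ∨ l[i]?.getD d = d := by
  rcases h : l[i]? with _ | x
  · right; rfl
  · left; exact List.mem_of_getElem? h

theorem red_inv (W : List (SRule ρ)) : RInv W (red W) := by
  induction W using List.reverseRecOn with
  | nil =>
    have hg : Good ([none] : Gram ρ) := ⟨by
      intro i a b h
      rcases i with _ | i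
      · simp at h
      · simp at h, rfl⟩
    refine ⟨hg, rfl, by simp [red], by simp, by simp [red], by simp [red]⟩
  | append_singleton W r ih =>
    have e : red (W ++ [r]) = redStep (red W) r := by unfold red; rw [List.foldl_append]; rfl
    rw [e]
    set s := red W with hs
    obtain ⟨g1, g2, g3, g4, g5, g6⟩ := ih
    have hpos := g1.pos
    have hidx : ∀ i : ℕ, s.2[i]?.getD 0 < s.1.length := by
      intro i
      rcases getD_mem_or s.2 i 0 with h | h
      · exact g3 _ h
      · rw [h]; exact hpos
    have hH : ∀ i : ℕ, H s.1 (s.2[i]?.getD 0) ≤ 2 * W.length := by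
      intro i
      rcases getD_mem_or s.2 i 0 with h | h
      · exact g5 _ h
      · rw [h, H_none g1.2]; omega
    have hw : ∀ i : ℕ, IsReduced (V s.1 (s.2[i]?.getD 0)) ∧
        (mk (V s.1 (s.2[i]?.getD 0)) : FreeGroup (Fin ρ)) = mk ((words W)[i]?.getD []) := by
      intro i
      by_cases hi : i < W.length
      · exact g4 i hi
      · rw [List.getElem?_eq_none_iff.2 (by omega), List.getElem?_eq_none_iff.2 (by simp; omega)]
        simp only [Option.getD_none]
        rw [g1.V0]
        exact ⟨IsReduced.nil, rfl⟩
    rcases r with x | ⟨j, k⟩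
    · have hG' : Good (s.1 ++ [some (Sum.inl x)]) := g1.concat (by intro a b h; simp at h)
      refine ⟨hG', by simp [redStep, g2], ?_, ?_, ?_, ?_⟩
      · intro y hy
        simp only [redStep, List.mem_append, List.mem_singleton, List.length_append,
          List.length_singleton] at hy ⊢
        rcases hy with hy | rfl
        · have := g3 y hy; omega
        · omega
      · intro i hi
        simp only [redStep]
        rw [words_concat]
        by_cases hi' : i < W.length
        · rw [List.getElem?_append_left (by omega), List.getElem?_append_left (by simpa using hi'),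
            V_append (hidx i)]
          exact hw i
        · have hi2 : i = W.length := by simp at hi; omega
          subst hi2
          rw [List.getElem?_append_right (by omega), List.getElem?_append_right (by simp)]
          simp only [g2, length_words, Nat.sub_self, List.getElem?_cons_zero, Option.getD_some]
          rw [V_letter (x := x) (by simp)]
          exact ⟨IsReduced.singleton, rfl⟩
      · intro y hy
        simp only [redStep, List.mem_append, List.mem_singleton, List.length_append,
          List.length_singleton] at hy ⊢
        rcases hy with hy | rfl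
        · rw [H_append (g3 y hy)]; have := g5 y hy; omega
        · have : H (s.1 ++ [some (Sum.inl x)]) s.1.length = 0 := by
            unfold H
            rw [tab_concat, List.getElem?_append_right (by simp)]
            simp [hStep]
          omega
      · simp only [redStep, List.length_append, List.length_singleton]
        nlinarith
    · obtain ⟨G', p1, p2, p3, p4, p5, p6, p7⟩ := addProd_spec g1 (hidx j) (hidx k) (hw j).1 (hw k).1
      have h1 := hH j
      have h2 := hH k
      refine ⟨?_, by simp [redStep, g2], ?_, ?_, ?_, ?_⟩
      · simp only [redStep]; rw [p1]; exact p2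
      · intro y hy
        simp only [redStep, List.mem_append, List.mem_singleton] at hy ⊢
        rw [p1]
        rcases hy with hy | rfl
        · have := g3 y hy; rw [List.length_append]; omega
        · exact p3
      · intro i hi
        simp only [redStep]
        rw [words_concat, p1]
        by_cases hi' : i < W.length
        · rw [List.getElem?_append_left (by omega), List.getElem?_append_left (by simpa using hi'),
            V_append (hidx i)]
          exact hw i
        · have hi2 : i = W.length := by simp at hi; omega
          subst hi2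
          rw [List.getElem?_append_right (by omega), List.getElem?_append_right (by simp)]
          simp only [g2, length_words, Nat.sub_self, List.getElem?_cons_zero, Option.getD_some]
          refine ⟨p4, ?_⟩
          rw [p5, (hw j).2, (hw k).2, mul_mk]
      · intro y hy
        simp only [redStep, List.mem_append, List.mem_singleton] at hy
        simp only [redStep]
        rw [p1, List.length_append, List.length_singleton]
        rcases hy with hy | rfl
        · rw [H_append (g3 y hy)]; have := g5 y hy; omega
        · omega
      · simp only [redStep]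
        rw [p1, List.length_append, List.length_append, List.length_singleton]
        nlinarith

end Pool.Agent.Lib.MP_0c2883_lc.All
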