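import Pool.Agent.Lib.MP_0c2883_lc.All.Stmts
import Mathlib.LinearAlgebra.Dimension.Finrank
import Mathlib.LinearAlgebra.FreeModule.Finite.Basic
import Mathlib.Data.ZMod.Basic
import Mathlib.Data.Nat.Log

/-!
# Abstract states for the step bound: multiplicities of turns
-/

set_option autoImplicit false

namespace Pool.Agent.Lib.MP_0c2883_lc.All

open List

variable {M : ℕ}

/-- An abstract state: multiplicities of turns between half-edges. -/
structure St (M : ℕ) where
  m : Letter M → Letter M → ℕ
  symm : ∀ p q, m p q = m q p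
  diag : ∀ p, m p p = 0
  bal : ∀ p, ∑ q, m p q = ∑ q, m (linv p) q

namespace St

/-- The weight of a half-edge (of a letter). -/
def x (μ : St M) (p : Letter M) : ℕ := ∑ q, μ.m p q

/-- Two half-edges lie at the same vertex: they are joined by a path of turns. -/
def Conn (μ : St M) (p q : Letter M) : Prop :=
  Relation.ReflTransGen (fun p q => 0 < μ.m p q) p q

open Classical in
/-- The vertex of a half-edge. -/
noncomputable def comp (μ : St M) (p : Letter M) : Finset (Letter M) :=
  Finset.univ.filter (fun q => μ.Conn p q)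

/-- Number of strands between `C` and `a`. -/
def n (μ : St M) (C : Letter M → Bool) (a : Letter M) : ℕ := ∑ c, if C c then μ.m c a else 0

/-- The largest weight in `C`. -/
def h (μ : St M) (C : Letter M → Bool) : ℕ := Finset.univ.sup (fun c => if C c then μ.x c else 0)

/-- `C` is joined only to itself and to `a`; `a, a⁻¹ ∉ C`. -/
structure Ok (μ : St M) (C : Letter M → Bool) (a : Letter M) : Prop where
  a_not : C a = false
  a_inv_not : C (linv a) = false
  bd : ∀ p q, 0 < μ.m p q → C p = true → C q = false → q = a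

/-- Candidates. -/
structure Cand (μ : St M) (C : Letter M → Bool) (a : Letter M) : Prop where
  ok : μ.Ok C a
  conn : ∀ p q, C p = true → C q = true →
    Relation.ReflTransGen (fun x y => C x = true ∧ C y = true ∧ 0 < μ.m x y) p q
  exit : ∃ c, C c = true ∧ 0 < μ.m c a
  rest : ∃ q, C q = false ∧ 0 < μ.m a q

/-- Vertices of valence two which can be merged. -/
structure MergeAt (μ : St M) (c a : Letter M) : Prop where
  ne : c ≠ a
  ne' : c ≠ linv a
  pos : 0 < μ.m c a
  left : ∀ q, 0 < μ.m c q → q = a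
  right : ∀ q, 0 < μ.m a q → q = c

/-- The letters of weight at least `s`. -/
def E (μ : St M) (s : ℕ) : Finset (Fin M) := Finset.univ.filter (fun i => s ≤ μ.x (i, true))

open Classical in
/-- The vertices met by a set of letters. -/
noncomputable def Vx (μ : St M) (F : Finset (Fin M)) : Finset (Finset (Letter M)) :=
  (Finset.univ.filter (fun p : Letter M => p.1 ∈ F)).image μ.comp

/-- The largest value of `#letters - #vertices` over sets of letters of weight at least `s`. -/
noncomputable def X (μ : St M) (s : ℕ) : ℕ := (μ.E s).powerset.sup (fun F => F.card - (μ.Vx F).card)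

/-- The cycle space modulo two of the graph of the letters of weight at least `s`. -/
noncomputable def Z (μ : St M) (s : ℕ) : Submodule (ZMod 2) (Fin M → ZMod 2) where
  carrier := {z | (∀ i, i ∉ μ.E s → z i = 0) ∧ ∀ p, ∑ q ∈ μ.comp p, z q.1 = 0}
  add_mem' := by
    rintro z z' ⟨h1, h2⟩ ⟨h1', h2'⟩
    refine ⟨fun i hi => by simp [h1 i hi, h1' i hi], fun p => ?_⟩
    simp only [Pi.add_apply, Finset.sum_add_distrib, h2 p, h2' p, add_zero]
  zero_mem' := ⟨fun _ _ => rfl, fun _ => by simp⟩
  smul_mem' := by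
    rintro c z ⟨h1, h2⟩
    refine ⟨fun i hi => by simp [h1 i hi], fun p => ?_⟩
    simp only [Pi.smul_apply, ← Finset.smul_sum, h2 p, smul_zero]

/-- The invariant at scale `s`. -/
noncomputable def Y (μ : St M) (s : ℕ) : ℕ := μ.X s + Module.finrank (ZMod 2) (μ.Z s)

end St

/-- Elementary slide between abstract states. -/
structure ASlide (μ μ' : St M) (C : Letter M → Bool) (a : Letter M) : Prop where
  ok : μ.Ok C a
  inC : ∀ p q, C p = true → C q = true → μ'.m p q = μ.m p q
  new : ∀ c y, C c = true → C y = false → 0 < μ'.m c y → 0 < μ.m (linv a) y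
  outC : ∀ p q, C p = false → C q = false → p ≠ linv a → q ≠ linv a → μ'.m p q = μ.m p q
  old : ∀ y, C y = false →
    μ.m (linv a) y = μ'.m (linv a) y + ∑ c, (if C c then μ'.m c y else 0)
  cap : ∀ c, C c = true → ∑ y, (if C y then 0 else μ'.m c y) = μ.m c a

/-- Elementary split between abstract states; `f` is the new letter. -/
structure ASplit (μ μ' : St M) (C : Letter M → Bool) (a f : Letter M) : Prop where
  ok : μ.Ok C a
  free : μ.x f = 0
  f_not : C f = false
  f_inv_not : C (linv f) = false
  f_ne : a.1 ≠ f.1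
  inC : ∀ p q, C p = true → C q = true → μ'.m p q = μ.m p q
  toF : ∀ c, C c = true → μ'.m c f = μ.m c a
  toO : ∀ c y, C c = true → C y = false → y ≠ f → μ'.m c y = 0
  fO : ∀ y, C y = false → μ'.m f y = 0
  outC : ∀ p q, C p = false → C q = false → p ≠ linv a → q ≠ linv a → p.1 ≠ f.1 → q.1 ≠ f.1 →
    μ'.m p q = μ.m p q
  old : ∀ y, C y = false → μ.m (linv a) y = μ'.m (linv a) y + μ'.m (linv f) y

/-- Chains of slides of the same set `C`; every letter passed has weight at least `h` after it has
been passed. -/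
inductive AChain (C : Letter M → Bool) (h : ℕ) : St M → St M → Prop
  | refl (μ : St M) : AChain C h μ μ
  | tail (μ μ' μ'' : St M) (a : Letter M) (hc : AChain C h μ μ') (hs : ASlide μ' μ'' C a)
      (hx : h ≤ μ''.x a) : AChain C h μ μ''

/-- One step of the algorithm, with constant `K`. -/
inductive AStep (K : ℕ) (μ μ' : St M) : Prop
  /-- delete a letter at a vertex of valence two -/
  | merge (c a : Letter M) (hm : μ.MergeAt c a)
      (hs : ASlide μ μ' (fun y => decide (y = c)) a) : AStep K μ μ'
  /-- accelerated slide: one slide, followed by a maximal chain of slides of the same set -/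
  | acc (C : Letter M → Bool) (a : Letter M) (μ₁ : St M) (hno : ∀ c a, ¬ μ.MergeAt c a)
      (hC : μ.Cand C a) (hmin : ∀ C' a', μ.Cand C' a' → μ.h C ≤ μ.h C')
      (h1 : μ.h C ≤ μ.x a) (h2 : μ.h C ≤ K * μ.n C a) (hs : ASlide μ μ₁ C a)
      (hc : AChain C (μ.h C) μ₁ μ') (hmax : ∀ b, μ'.Ok C b → μ'.x b < μ.h C + μ'.n C b) :
      AStep K μ μ'
  /-- single slide along a loop -/
  | loop (C : Letter M → Bool) (a : Letter M) (hno : ∀ c a, ¬ μ.MergeAt c a)
      (hC : μ.Cand C a) (hmin : ∀ C' a', μ.Cand C' a' → μ.h C ≤ μ.h C')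
      (hl : μ.Conn a (linv a)) (h1 : ¬ (μ.h C ≤ μ.x a ∧ μ.h C ≤ K * μ.n C a))
      (h2 : μ.x a ≤ K * μ.n C a) (hs : ASlide μ μ' C a) : AStep K μ μ'
  /-- split -/
  | split (C : Letter M → Bool) (a f : Letter M) (hno : ∀ c a, ¬ μ.MergeAt c a)
      (hC : μ.Cand C a) (hmin : ∀ C' a', μ.Cand C' a' → μ.h C ≤ μ.h C')
      (h1 : ¬ (μ.h C ≤ μ.x a ∧ μ.h C ≤ K * μ.n C a))
      (h2 : μ.Conn a (linv a) → K * μ.n C a < μ.x a) (hs : ASplit μ μ' C a f) : AStep K μ μ'

end Pool.Agent.Lib.MP_0c2883_lc.All
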