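import Pool.Agent.Lib.MP_0c2883_lc.All.SBMeas
import Pool.Agent.Lib.MP_0c2883_lc.All.SBQ
import Pool.Agent.Lib.MP_0c2883_lc.All.YStep

/-!
# Steps which do not change the invariants: merges, loops and splits
-/

set_option autoImplicit false

namespace Pool.Agent.Lib.MP_0c2883_lc.All

open Pool.Agent.Lib.PolyTime List

namespace SBP

variable {M : ℕ}

/-! ### Bands -/

theorem bt_congr {μ μ' : St M} (h : μ'.yv = μ.yv) (w : ℕ) : μ'.bt w = μ.bt w := by
  unfold St.bt; rw [h]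

/-- Occupied indices which are close have the same band. -/
theorem bt_eq (hY : YScaleStmt) (hBd : BandStmt) (μ : St M) {w w' : ℕ}
    (ho : occ μ.yv (Nat.log (Bb M) w)) (ho' : occ μ.yv (Nat.log (Bb M) w'))
    (h1 : w' ≤ w) (h2 : Nat.log (Bb M) w ≤ Nat.log (Bb M) w' + 6) :
    μ.bt w' = μ.bt w := by
  by_contra hne
  rcases (Nat.log_mono_right (b := Bb M) h1).lt_or_eq with hlt | heq
  · have := (hBd μ.yv (μ.yv 0) (SBQ.yv_anti hY μ) le_rfl).2.2.2 _ _ ho ho' hlt (Ne.symm hne)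
    omega
  · unfold St.bt at hne; rw [heq] at hne; exact hne rfl

/-- The weight of a letter after a step which does not change the invariants is occupied. -/
theorem occ' (hJ : JumpStmt) {μ μ' : St M} (h : μ'.yv = μ.yv) (p : Letter M) (hp : 0 < μ'.x p) :
    occ μ.yv (Nat.log (Bb M) (μ'.x p)) := by
  rw [← h]; exact SBQ.occ_log hJ μ' p hp

/-! ### The potential -/

/-- One term of the potential. -/
noncomputable def tm (μ : St M) (w : ℕ) : ℕ :=
  if w = 0 then 0 else 2 * Kk M * w / Bb M ^ μ.bt w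

theorem pot_eq (μ : St M) : μ.Pot = ∑ i : Fin M, tm μ (μ.x (i, true)) := rfl

theorem tm_congr {μ μ' : St M} (h : μ'.yv = μ.yv) (w : ℕ) : tm μ' w = tm μ w := by
  unfold tm; rw [bt_congr h]

theorem Bpos (M j : ℕ) : 0 < Bb M ^ j := SBQ.Bpow_pos M j

theorem bt_pow_le (hY : YScaleStmt) (hBd : BandStmt) (μ : St M) {w : ℕ} (hw : w ≠ 0) :
    Bb M ^ μ.bt w ≤ w :=
  (Nat.pow_le_pow_right (by have := SBQ.one_lt_Bb M; omega) (SBQ.bt_le hY hBd μ w)).trans
    (Nat.pow_log_le_self _ hw)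

theorem tm_le (μ : St M) {w w' : ℕ} (h : w ≤ w') (hb : w = 0 ∨ μ.bt w = μ.bt w') :
    tm μ w ≤ tm μ w' := by
  unfold tm
  rcases hb with h0 | hb
  · simp [h0]
  · by_cases h0 : w = 0
    · simp [h0]
    · have h1 : w' ≠ 0 := by omega
      rw [if_neg h0, if_neg h1, hb]
      exact Nat.div_le_div_right (Nat.mul_le_mul_left _ h)

theorem tm_lt (μ : St M) {w w' n : ℕ} (h : w + n = w') (hn : 0 < n)
    (hb : w = 0 ∨ μ.bt w = μ.bt w') (hD : Bb M ^ μ.bt w' ≤ 2 * Kk M * n) :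
    tm μ w < tm μ w' := by
  unfold tm
  have h1 : w' ≠ 0 := by omega
  have hp := Bpos M (μ.bt w')
  rw [if_neg h1]
  by_cases h0 : w = 0
  · rw [if_pos h0]
    apply Nat.div_pos _ hp
    have : w' = n := by omega
    calc Bb M ^ μ.bt w' ≤ 2 * Kk M * n := hD
      _ = 2 * Kk M * w' := by rw [this]
  · have hb' : μ.bt w = μ.bt w' := by
      rcases hb with hb | hb
      · exact absurd hb h0
      · exact hb
    rw [if_neg h0, hb']
    have e0 : 2 * Kk M * w' = 2 * Kk M * w + 2 * Kk M * n := by rw [← Nat.mul_add, h]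
    have e : 2 * Kk M * w + Bb M ^ μ.bt w' ≤ 2 * Kk M * w' := by
      omega
    calc 2 * Kk M * w / Bb M ^ μ.bt w' < 2 * Kk M * w / Bb M ^ μ.bt w' + 1 := Nat.lt_succ_self _
      _ = (2 * Kk M * w + Bb M ^ μ.bt w') / Bb M ^ μ.bt w' := (Nat.add_div_right _ hp).symm
      _ ≤ _ := Nat.div_le_div_right e

theorem tm_add (μ : St M) {w n w' : ℕ} (h : w + n = w') (hb : w = 0 ∨ μ.bt w = μ.bt w')
    (hb' : n = 0 ∨ μ.bt n = μ.bt w') : tm μ w + tm μ n ≤ tm μ w' := by
  by_cases h0 : w = 0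
  · have : n = w' := by omega
    simp [tm, h0, this]
  by_cases h1 : n = 0
  · have : w = w' := by omega
    simp [tm, h1, this]
  · rcases hb with hb | hb
    · exact absurd hb h0
    rcases hb' with hb' | hb'
    · exact absurd hb' h1
    have h2 : w' ≠ 0 := by omega
    unfold tm
    rw [if_neg h0, if_neg h1, if_neg h2, hb, hb', ← h, Nat.mul_add]
    exact Nat.div_add_div_le_add_div

theorem x_of_ne {μ μ' : St M} {a : Letter M} (h : ∀ p : Letter M, p.1 ≠ a.1 → μ'.x p = μ.x p)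
    {i : Fin M} (hi : i ≠ a.1) : μ'.x (i, true) = μ.x (i, true) := h (i, true) hi

theorem pot_le_of {μ μ' : St M} (hyv : μ'.yv = μ.yv) (a : Letter M)
    (h : ∀ p : Letter M, p.1 ≠ a.1 → μ'.x p = μ.x p) (h2 : tm μ (μ'.x a) ≤ tm μ (μ.x a)) :
    μ'.Pot ≤ μ.Pot := by
  rw [pot_eq, pot_eq]
  refine Finset.sum_le_sum fun i _ => ?_
  rw [tm_congr hyv]
  by_cases hi : i = a.1
  · subst hi
    rw [SBX1.x_fst, SBX1.x_fst]; exact h2
  · rw [h (i, true) hi]

theorem pot_lt_of {μ μ' : St M} (hyv : μ'.yv = μ.yv) (a : Letter M)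
    (h : ∀ p : Letter M, p.1 ≠ a.1 → μ'.x p = μ.x p) (h2 : tm μ (μ'.x a) < tm μ (μ.x a)) :
    μ'.Pot < μ.Pot := by
  rw [pot_eq, pot_eq]
  refine Finset.sum_lt_sum (fun i _ => ?_) ⟨a.1, Finset.mem_univ _, ?_⟩
  · rw [tm_congr hyv]
    by_cases hi : i = a.1
    · subst hi
      rw [SBX1.x_fst, SBX1.x_fst]; exact h2.le
    · rw [h (i, true) hi]
  · rw [tm_congr hyv, SBX1.x_fst, SBX1.x_fst]; exact h2

/-! ### Heavy letters -/

theorem exists_heavy (μ : St M) (C : Letter M → Bool) (a : Letter M) (hn : 0 < μ.n C a) :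
    ∃ c, C c = true ∧ 0 < μ.m c a ∧ μ.n C a ≤ 2 * M * μ.x c := by
  by_contra hcon
  push Not at hcon
  obtain ⟨c₀, -, hc₀⟩ : ∃ c ∈ (Finset.univ : Finset (Letter M)),
      0 < (if C c then μ.m c a else 0) := by
    by_contra h
    push Not at h
    have : μ.n C a = 0 := by
      unfold St.n
      exact Finset.sum_eq_zero fun c hc => Nat.le_zero.1 (h c hc)
    omega
  obtain ⟨c, -, hc⟩ := Finset.exists_max_image (Finset.univ : Finset (Letter M))
    (fun c => if C c then μ.m c a else 0) ⟨c₀, Finset.mem_univ _⟩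
  have hcc := hc c₀ (Finset.mem_univ _)
  have hC : C c = true := by
    by_contra h
    simp only [h] at hcc
    simp at hcc
    by_cases h' : C c₀ = true
    · simp [h'] at hc₀; have := hcc h'; omega
    · simp [h'] at hc₀
  have hpos : 0 < μ.m c a := by
    simp only [hC, if_true] at hcc
    omega
  have h1 := hcon c hC hpos
  have h2 : μ.n C a ≤ 2 * M * μ.m c a := by
    unfold St.n
    calc ∑ y, (if C y then μ.m y a else 0) ≤ ∑ _y : Letter M, μ.m c a := by
          refine Finset.sum_le_sum fun y _ => ?_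
          have := hc y (Finset.mem_univ _)
          simpa [hC] using this
      _ = 2 * M * μ.m c a := by simp [Fintype.card_prod, mul_comm]
  have h3 : 2 * M * μ.m c a ≤ 2 * M * μ.x c := Nat.mul_le_mul_left _ (SBQ.le_x μ c a)
  omega

/-- If the number of strands is at least `B^(j+1)`, some letter of `C` has weight at least `B^j`. -/
theorem heavy_pow {μ : St M} {C : Letter M → Bool} {a : Letter M} {j : ℕ}
    (hn : Bb M ^ (j + 1) ≤ μ.n C a) :
    ∃ c, C c = true ∧ 0 < μ.m c a ∧ Bb M ^ j ≤ μ.x c := by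
  obtain ⟨c, hC, h1, h2⟩ := exists_heavy μ C a (lt_of_lt_of_le (Bpos M _) hn)
  refine ⟨c, hC, h1, ?_⟩
  by_contra hcon
  push Not at hcon
  have hB := SBQ.le_Bb M
  have h3 : 2 * M * μ.x c ≤ Bb M * μ.x c := Nat.mul_le_mul_right _ (by omega)
  have h4 : Bb M * μ.x c < Bb M * Bb M ^ j :=
    Nat.mul_lt_mul_of_pos_left hcon (by have := SBQ.one_lt_Bb M; omega)
  rw [pow_succ, mul_comm] at hn
  omega

theorem n_pos {μ : St M} {C : Letter M → Bool} {a : Letter M} (h : μ.Cand C a) :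
    0 < μ.n C a := by
  obtain ⟨c, hc, hca⟩ := h.exit
  unfold St.n
  refine lt_of_lt_of_le hca ?_
  have := Finset.single_le_sum (f := fun c => if C c then μ.m c a else 0)
    (fun _ _ => Nat.zero_le _) (Finset.mem_univ c)
  simpa [hc] using this

/-- The number of strands of a candidate is smaller than the weight of its letter. -/
theorem n_lt {μ : St M} {C : Letter M → Bool} {a : Letter M} (h : μ.Cand C a) :
    μ.n C a < μ.x a := by
  obtain ⟨q, hq, haq⟩ := h.rest
  unfold St.n St.x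
  refine Finset.sum_lt_sum (fun c _ => ?_) ⟨q, Finset.mem_univ _, ?_⟩
  · split_ifs
    · rw [μ.symm]
    · exact Nat.zero_le _
  · simp [hq, haq]

theorem n_le_h (μ : St M) (C : Letter M → Bool) (a : Letter M) : μ.n C a ≤ 2 * M * μ.h C := by
  unfold St.n
  calc ∑ c, (if C c = true then μ.m c a else 0) ≤ ∑ _c : Letter M, μ.h C := by
        refine Finset.sum_le_sum fun c _ => ?_
        split_ifs with hc
        · exact (SBQ.le_x μ c a).trans (SBQ.le_h μ hc)
        · exact Nat.zero_le _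
    _ = 2 * M * μ.h C := by simp [Fintype.card_prod, mul_comm]

/-- The arithmetic of a weight which drops by more than six scales. -/
theorem drop_n {x x' n : ℕ} (h : x' + n = x) (hx : x ≠ 0)
    (hl : Nat.log (Bb M) x' + 6 < Nat.log (Bb M) x) :
    Bb M ^ (Nat.log (Bb M) x' + 5 + 1) ≤ n := by
  have hB := SBQ.one_lt_Bb M
  set l := Nat.log (Bb M) x' with hl'
  have h1 : x' < Bb M ^ (l + 1) := Nat.lt_pow_succ_log_self hB _
  have h2 : Bb M ^ (l + 7) ≤ x :=
    (Nat.pow_le_pow_right (by omega) (by omega)).trans (Nat.pow_log_le_self _ hx)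
  have h3 : Bb M ^ (l + 1) ≤ Bb M ^ (l + 6) := Nat.pow_le_pow_right (by omega) (by omega)
  have h4 : Bb M ^ (l + 7) = Bb M ^ (l + 6) * Bb M := pow_succ _ _
  have h5 : Bb M ^ (l + 6) * 2 ≤ Bb M ^ (l + 6) * Bb M := Nat.mul_le_mul_left _ hB
  have h6 : Bb M ^ (l + 5 + 1) = Bb M ^ (l + 6) := rfl
  omega

/-! ### Slides -/

/-- If the invariants do not change, the band of the letter passed does not change. -/
theorem slide_band (hY : YScaleStmt) (hBd : BandStmt) (hJ : JumpStmt) (hW : WSlideStmt)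
    (hZ : ZSlideStmt) (hBS : BandSlideStmt) {μ μ' : St M} {C : Letter M → Bool} {a : Letter M}
    (hs : ASlide μ μ' C a) (hyv : μ'.yv = μ.yv) (h : μ.h C ≤ μ.x a ∨ μ.Conn a (linv a))
    (h' : μ.Conn a (linv a) ∨ ∃ c', C c' = false ∧ c' ≠ a ∧ μ.Conn a c' ∧ μ.h C ≤ μ.x c') :
    μ'.x a = 0 ∨ μ.bt (μ'.x a) = μ.bt (μ.x a) := by
  obtain ⟨w1, w2, -⟩ := hW M μ μ' C a hs
  have hB := SBQ.one_lt_Bb M
  by_cases h0 : μ'.x a = 0
  · exact Or.inl h0
  right
  have hxa : 0 < μ.x a := by omega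
  refine bt_eq hY hBd μ (SBQ.occ_log hJ μ a hxa) (occ' hJ hyv a (Nat.pos_of_ne_zero h0))
    (by omega) ?_
  by_contra hcon
  push Not at hcon
  have hn := drop_n w1 hxa.ne' hcon
  set l := Nat.log (Bb M) (μ'.x a) with hl
  obtain ⟨c, hC, hca, hcx⟩ := heavy_pow hn
  have hs1 : 1 ≤ Bb M ^ (l + 1) := SBQ.Bpow_pos M _
  have hBs : Bb M * Bb M ^ (l + 1) ≤ Bb M ^ (l + 5) := by
    rw [mul_comm, ← pow_succ]
    exact Nat.pow_le_pow_right (by omega) (by omega)
  have hx1 : Bb M ^ (l + 1) ≤ μ.x a :=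
    (Nat.pow_le_pow_right (by omega) (by omega)).trans (Nat.pow_log_le_self _ hxa.ne')
  have hX := hBS M μ μ' C a c (Bb M ^ (l + 1)) hs hs1 hx1 (Nat.lt_pow_succ_log_self hB _) hC
    (SBX1.conn_symm (SBX1.conn_of hca)) (hBs.trans hcx) (by
      rcases h' with h' | ⟨c', k1, k2, k3, k4⟩
      · exact Or.inl h'
      · exact Or.inr ⟨c', k1, k2, k3, (hBs.trans hcx).trans ((SBQ.le_h μ hC).trans k4)⟩)
  have hZ1 := hZ M μ μ' C a (Bb M ^ (l + 1)) hs h hs1
  have e := congrFun hyv (l + 1)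
  simp only [St.yv, St.Y] at e
  omega

/-- The same when the letter passed stays heavy. -/
theorem slide_band' (hY : YScaleStmt) (hBd : BandStmt) (hJ : JumpStmt) (hW : WSlideStmt)
    {μ μ' : St M} {C : Letter M → Bool} {a : Letter M}
    (hs : ASlide μ μ' C a) (hyv : μ'.yv = μ.yv) (h : μ.h C ≤ μ'.x a) (h0 : 0 < μ'.x a) :
    μ.bt (μ'.x a) = μ.bt (μ.x a) := by
  obtain ⟨w1, w2, -⟩ := hW M μ μ' C a hs
  have hB := SBQ.one_lt_Bb M
  have hxa : 0 < μ.x a := by omega
  refine bt_eq hY hBd μ (SBQ.occ_log hJ μ a hxa) (occ' hJ hyv a h0) (by omega) ?_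
  by_contra hcon
  push Not at hcon
  have hn := drop_n w1 hxa.ne' hcon
  set l := Nat.log (Bb M) (μ'.x a) with hl
  obtain ⟨c, hC, hca, hcx⟩ := heavy_pow hn
  have h1 : μ'.x a < Bb M ^ (l + 1) := Nat.lt_pow_succ_log_self hB _
  have h2 := SBQ.le_h μ hC
  have h3 : Bb M ^ (l + 1) ≤ Bb M ^ (l + 5) := Nat.pow_le_pow_right (by omega) (by omega)
  omega

theorem slide_pot_le (hW : WSlideStmt) {μ μ' : St M} {C : Letter M → Bool} {a : Letter M}
    (hs : ASlide μ μ' C a) (hyv : μ'.yv = μ.yv)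
    (hb : μ'.x a = 0 ∨ μ.bt (μ'.x a) = μ.bt (μ.x a)) : μ'.Pot ≤ μ.Pot := by
  obtain ⟨w1, w2, -⟩ := hW M μ μ' C a hs
  exact pot_le_of hyv a w2 (tm_le μ (by omega) hb)

theorem slide_pot_lt (hW : WSlideStmt) {μ μ' : St M} {C : Letter M → Bool} {a : Letter M}
    (hs : ASlide μ μ' C a) (hyv : μ'.yv = μ.yv)
    (hb : μ'.x a = 0 ∨ μ.bt (μ'.x a) = μ.bt (μ.x a)) (hn : 0 < μ.n C a)
    (hD : Bb M ^ μ.bt (μ.x a) ≤ 2 * Kk M * μ.n C a) : μ'.Pot < μ.Pot := by
  obtain ⟨w1, w2, -⟩ := hW M μ μ' C a hs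
  exact pot_lt_of hyv a w2 (tm_lt μ w1 hn hb hD)

/-! ### The other side of a candidate -/

/-- Behind `a` there is a letter at least as heavy as a lowest candidate. -/
theorem exists_other {μ : St M} {C : Letter M → Bool} {a : Letter M} (hC : μ.Cand C a)
    (hmin : ∀ C' a', μ.Cand C' a' → μ.h C ≤ μ.h C') (hnl : ¬ μ.Conn a (linv a)) :
    ∃ c', C c' = false ∧ c' ≠ a ∧ c' ≠ linv a ∧ μ.Conn a c' ∧ μ.h C ≤ μ.x c' ∧ 0 < μ.x c' := by
  classical
  obtain ⟨q, hq, haq⟩ := hC.rest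
  have hqa : q ≠ a := by
    rintro rfl
    rw [μ.diag] at haq
    omega
  let S : Letter M → Letter M → Prop := fun u v => u ≠ a ∧ v ≠ a ∧ 0 < μ.m u v
  let R : Letter M → Bool := fun p => decide (Relation.ReflTransGen S q p)
  have hR : ∀ p, R p = true ↔ Relation.ReflTransGen S q p := fun p => by simp [R]
  have hRf : ∀ p, R p = false ↔ ¬ Relation.ReflTransGen S q p := fun p => by simp [R]
  have hRa : ∀ p, Relation.ReflTransGen S q p → p ≠ a := by
    intro p hp
    rcases hp.cases_tail with h | ⟨r, -, hr⟩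
    · rw [h]; exact hqa
    · exact hr.2.1
  have hRC : ∀ p, Relation.ReflTransGen S q p → C p = false := by
    intro p hp
    induction hp with
    | refl => exact hq
    | tail _ hst ih =>
      by_contra hcon
      have hcon' := Bool.eq_true_of_not_eq_false hcon
      exact hst.1 (hC.ok.bd _ _ (by rw [μ.symm]; exact hst.2.2) hcon' ih)
  have hRconn : ∀ p, Relation.ReflTransGen S q p → μ.Conn a p := by
    intro p hp
    refine Relation.ReflTransGen.trans (SBX1.conn_of haq) ?_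
    exact Relation.ReflTransGen.mono (fun _ _ h => h.2.2) _ _ hp
  have hin : ∀ p, Relation.ReflTransGen S q p →
      Relation.ReflTransGen (fun x y => R x = true ∧ R y = true ∧ 0 < μ.m x y) q p := by
    intro p hp
    induction hp with
    | refl => exact Relation.ReflTransGen.refl
    | tail h1 hst ih =>
      exact Relation.ReflTransGen.tail ih ⟨(hR _).2 h1, (hR _).2 (Relation.ReflTransGen.tail h1 hst),
        hst.2.2⟩
  have hinv : ∀ {u v : Letter M},
      Relation.ReflTransGen (fun x y => R x = true ∧ R y = true ∧ 0 < μ.m x y) u v →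
      Relation.ReflTransGen (fun x y => R x = true ∧ R y = true ∧ 0 < μ.m x y) v u := by
    intro u v h
    induction h with
    | refl => exact Relation.ReflTransGen.refl
    | tail _ hst ih =>
      exact Relation.ReflTransGen.head ⟨hst.2.1, hst.1, by rw [μ.symm]; exact hst.2.2⟩ ih
  have hcand : μ.Cand R a := by
    refine ⟨⟨?_, ?_, ?_⟩, ?_, ?_, ?_⟩
    · rw [hRf]; exact fun h => hRa a h rfl
    · rw [hRf]; exact fun h => hnl (hRconn _ h)
    · intro p r hpr hp hr
      rw [hR] at hp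
      rw [hRf] at hr
      by_contra hra
      exact hr (Relation.ReflTransGen.tail hp ⟨hRa p hp, hra, hpr⟩)
    · intro p r hp hr
      rw [hR] at hp hr
      exact Relation.ReflTransGen.trans (hinv (hin p hp)) (hin r hr)
    · exact ⟨q, (hR q).2 Relation.ReflTransGen.refl, by rw [μ.symm]; exact haq⟩
    · obtain ⟨c, hc, hca⟩ := hC.exit
      refine ⟨c, ?_, by rw [μ.symm]; exact hca⟩
      rw [hRf]
      intro h
      have := hRC c h
      rw [hc] at this
      exact absurd this (by simp)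
  obtain ⟨c', hc', hx'⟩ := SBQ.exists_h μ ((hR q).2 Relation.ReflTransGen.refl)
  have hmn := hmin R a hcand
  have hpos := SBQ.cand_pos hcand hc'
  rw [hR] at hc'
  refine ⟨c', hRC c' hc', hRa c' hc', ?_, hRconn c' hc', by omega, hpos⟩
  intro h
  exact hnl (h ▸ hRconn c' hc')

theorem a_pos (hW : WSlideStmt) {μ μ' : St M} {C : Letter M → Bool} {a : Letter M}
    (hC : μ.Cand C a) (hs : ASlide μ μ' C a) : 0 < μ'.x a := by
  obtain ⟨w1, w2, -⟩ := hW M μ μ' C a hs
  have := n_lt hC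
  omega

/-- A slide along the letter of a lowest candidate keeps the band of the letter. -/
theorem slide_bt (hJ : JumpStmt) (hY : YScaleStmt) (hBd : BandStmt) (hW : WSlideStmt)
    (_hX : XSlideStmt) (hZ : ZSlideStmt) (hBS : BandSlideStmt) {M : ℕ} {μ μ' : St M}
    {C : Letter M → Bool} {a : Letter M} (hC : μ.Cand C a)
    (hmin : ∀ C' a', μ.Cand C' a' → μ.h C ≤ μ.h C')
    (h : μ.h C ≤ μ.x a ∨ μ.Conn a (linv a)) (hs : ASlide μ μ' C a) (hy : μ'.yv = μ.yv) :
    0 < μ'.x a ∧ μ'.bt (μ'.x a) = μ.bt (μ.x a) := by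
  have h0 := a_pos hW hC hs
  refine ⟨h0, ?_⟩
  rw [bt_congr hy]
  have h' : μ.Conn a (linv a) ∨ ∃ c', C c' = false ∧ c' ≠ a ∧ μ.Conn a c' ∧ μ.h C ≤ μ.x c' := by
    by_cases hl : μ.Conn a (linv a)
    · exact Or.inl hl
    · obtain ⟨c', k1, k2, -, k3, k4, -⟩ := exists_other hC hmin hl
      exact Or.inr ⟨c', k1, k2, k3, k4⟩
  rcases slide_band hY hBd hJ hW hZ hBS hs hy h h' with h1 | h1
  · omega
  · exact h1

/-! ### The three cases -/

/-- Merges. -/
theorem merge_case (hW : WSlideStmt) (hY : YScaleStmt) (hBd : BandStmt) {μ μ' : St M}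
    {c a : Letter M} (hm : μ.MergeAt c a) (hs : ASlide μ μ' (fun y => decide (y = c)) a)
    (hy : μ'.yv = μ.yv) : μ'.Pot < μ.Pot := by
  obtain ⟨w1, w2, -⟩ := hW M μ μ' _ a hs
  have e1 : μ.n (fun y => decide (y = c)) a = μ.m c a := by
    unfold St.n
    rw [Finset.sum_eq_single c]
    · simp
    · intro q _ hq; simp [hq]
    · intro h; exact absurd (Finset.mem_univ c) h
  have e2 : μ.x a = μ.m c a := by
    unfold St.x
    rw [μ.symm c a]
    refine Finset.sum_eq_single c (fun q _ hq => ?_) (fun h => absurd (Finset.mem_univ c) h)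
    by_contra hne
    exact hq (hm.right q (Nat.pos_of_ne_zero hne))
  have hpos := hm.pos
  have hxa : μ.x a ≠ 0 := by omega
  refine slide_pot_lt hW hs hy (Or.inl (by omega)) (by omega) ?_
  rw [e1, ← e2]
  have h1 := bt_pow_le hY hBd μ hxa
  have hK : 1 ≤ Kk M := SBQ.Bpow_pos M 4
  nlinarith

/-- Slides along loops. -/
theorem loop_case (hJ : JumpStmt) (hY : YScaleStmt) (hBd : BandStmt) (hW : WSlideStmt)
    (hX : XSlideStmt) (hZ : ZSlideStmt) (hBS : BandSlideStmt) {μ μ' : St M}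
    {C : Letter M → Bool} {a : Letter M} (hC : μ.Cand C a)
    (hmin : ∀ C' a', μ.Cand C' a' → μ.h C ≤ μ.h C') (hl : μ.Conn a (linv a))
    (h2 : μ.x a ≤ Kk M * μ.n C a) (hs : ASlide μ μ' C a) (hy : μ'.yv = μ.yv) :
    μ'.Pot < μ.Pot := by
  obtain ⟨k0, k1⟩ := slide_bt hJ hY hBd hW hX hZ hBS hC hmin (Or.inr hl) hs hy
  rw [bt_congr hy] at k1
  have hn := n_pos hC
  have hlt := n_lt hC
  refine slide_pot_lt hW hs hy (Or.inr k1) hn ?_
  have h1 := bt_pow_le hY hBd μ (w := μ.x a) (by omega)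
  have e : 2 * Kk M * μ.n C a = Kk M * μ.n C a + Kk M * μ.n C a := by ring
  omega

/-- Structural splits change the invariants. -/
theorem split_struct (hW : WSplitStmt) (hZ : ZSplitStmt) (hSS : StrictSplitStmt) {μ μ' : St M}
    {C : Letter M → Bool} {a f : Letter M} (hC : μ.Cand C a)
    (hmin : ∀ C' a', μ.Cand C' a' → μ.h C ≤ μ.h C')
    (h2 : μ.Conn a (linv a) → Kk M * μ.n C a < μ.x a) (hs : ASplit μ μ' C a f)
    (hy : μ'.yv = μ.yv) (hh : Kk M * μ.n C a < μ.h C) : False := by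
  obtain ⟨w1, w2, w3⟩ := hW M μ μ' C a f hs
  have hB := SBQ.one_lt_Bb M
  have hn := n_pos hC
  obtain ⟨e, he, hea⟩ := hC.exit
  obtain ⟨c, hc, hcx⟩ := SBQ.exists_h μ he
  set l := Nat.log (Bb M) (μ.n C a) with hl
  have hnl : μ.n C a < Bb M ^ (l + 1) := Nat.lt_pow_succ_log_self hB _
  have hpl : Bb M ^ l ≤ μ.n C a := Nat.pow_log_le_self _ hn.ne'
  have hK : Bb M ^ (l + 4) ≤ Kk M * μ.n C a := by
    have : Bb M ^ (l + 4) = Kk M * Bb M ^ l := by unfold Kk; rw [← pow_add, add_comm]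
    rw [this]
    exact Nat.mul_le_mul_left _ hpl
  have hBs : Bb M * Bb M ^ (l + 1) ≤ Bb M ^ (l + 2) := by
    rw [mul_comm, ← pow_succ]
  have hl3 : Bb M ^ (l + 2) ≤ Bb M ^ (l + 3) := Nat.pow_le_pow_right (by omega) (by omega)
  have hl1 : Bb M ^ (l + 1) ≤ Bb M ^ (l + 3) := Nat.pow_le_pow_right (by omega) (by omega)
  have hl4 : Bb M ^ (l + 4) = Bb M ^ (l + 3) * Bb M := pow_succ _ _
  have hl5 : Bb M ^ (l + 3) * 2 ≤ Bb M ^ (l + 3) * Bb M := Nat.mul_le_mul_left _ hB
  have hca : μ.Conn c a := Relation.ReflTransGen.trans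
    (Relation.ReflTransGen.mono (fun _ _ h => h.2.2) _ _ (hC.conn c e hc he)) (SBX1.conn_of hea)
  have hxc : μ'.x c = μ.x c := by
    refine w3 c (SBX2.ne_of_C hc hC.ok.a_not hC.ok.a_inv_not) ?_
    exact SBX2.ne_of_C hc hs.f_not hs.f_inv_not
  have hx0 : ∃ c', C c' = false ∧ μ.Conn c c' ∧ Bb M * Bb M ^ (l + 1) ≤ μ'.x c' := by
    by_cases hlp : μ.Conn a (linv a)
    · have := h2 hlp
      exact ⟨a, hC.ok.a_not, hca, by omega⟩
    · obtain ⟨c', k1, k2, k3, k4, k5, k6⟩ := exists_other hC hmin hlp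
      refine ⟨c', k1, SBX1.conn_trans hca k4, ?_⟩
      have hne1 : c'.1 ≠ a.1 := by
        intro h
        rcases SBX1.fst_eq h with h | h
        · exact k2 h
        · exact k3 h
      have hne2 : c'.1 ≠ f.1 := by
        intro h
        have := SBX2.x_fst μ h
        rw [hs.free] at this
        omega
      rw [w3 c' hne1 hne2]
      omega
  obtain ⟨c', k1, k2, k3⟩ := hx0
  have hX := hSS M μ μ' C a f c c' (Bb M ^ (l + 1)) hs hnl hc k1 k2 (by rw [hxc]; omega) k3
  have hZ1 := hZ M μ μ' C a f (Bb M ^ (l + 1)) hs (SBQ.Bpow_pos M _)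
  have e := congrFun hy (l + 1)
  simp only [St.yv, St.Y] at e
  omega

/-- Mild splits use up an unused letter and do not increase the potential. -/
theorem split_mild (hJ : JumpStmt) (hY : YScaleStmt) (hBd : BandStmt) (hW : WSplitStmt)
    (hZ : ZSplitStmt) (hBS : BandSplitStmt) {μ μ' : St M}
    {C : Letter M → Bool} {a f : Letter M} (hC : μ.Cand C a)
    (hmin : ∀ C' a', μ.Cand C' a' → μ.h C ≤ μ.h C') (hnl : ¬ μ.Conn a (linv a))
    (h2 : μ.x a < Kk M * μ.n C a) (hs : ASplit μ μ' C a f)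
    (hy : μ'.yv = μ.yv) : μ'.Pot ≤ μ.Pot ∧ μ'.unused < μ.unused := by
  obtain ⟨w1, w2, w3⟩ := hW M μ μ' C a f hs
  have hB := SBQ.one_lt_Bb M
  have hn := n_pos hC
  have hlt := n_lt hC
  have hxa : 0 < μ.x a := by omega
  have hx'a : 0 < μ'.x a := by omega
  have hoa := SBQ.occ_log hJ μ a hxa
  have hof := occ' hJ hy f (by omega)
  have hoa' := occ' hJ hy a hx'a
  rw [w2] at hof
  have hne : a.1 ≠ f.1 := hs.f_ne
  -- the new letter
  have hbn : μ.bt (μ.n C a) = μ.bt (μ.x a) := by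
    refine bt_eq hY hBd μ hoa hof (by omega) ?_
    have h3 : μ.x a ≤ μ.n C a * Bb M * Bb M * Bb M * Bb M := by
      have : Kk M * μ.n C a = μ.n C a * Bb M * Bb M * Bb M * Bb M := by unfold Kk; ring
      omega
    have h4 := Nat.log_mono_right (b := Bb M) h3
    rw [Nat.log_mul_base hB (by positivity), Nat.log_mul_base hB (by positivity),
      Nat.log_mul_base hB (by positivity), Nat.log_mul_base hB (by positivity)] at h4
    omega
  have hba : μ.bt (μ'.x a) = μ.bt (μ.x a) := by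
    refine bt_eq hY hBd μ hoa hoa' (by omega) ?_
    by_contra hcon
    push Not at hcon
    have hnn := drop_n w1 hxa.ne' hcon
    set l := Nat.log (Bb M) (μ'.x a) with hl
    obtain ⟨c, hc, hca, hcx⟩ := heavy_pow hnn
    have hBs : Bb M * Bb M ^ (l + 1) ≤ Bb M ^ (l + 5) := by
      rw [mul_comm, ← pow_succ]
      exact Nat.pow_le_pow_right (by omega) (by omega)
    have hx1 : Bb M ^ (l + 1) ≤ μ.n C a :=
      (Nat.pow_le_pow_right (by omega) (by omega)).trans hnn
    obtain ⟨c', k1, k2, k3, k4, k5, k6⟩ := exists_other hC hmin hnl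
    have hX := hBS M μ μ' C a f c c' (Bb M ^ (l + 1)) hs (SBQ.Bpow_pos M _) hx1
      (Nat.lt_pow_succ_log_self hB _) hc (SBX1.conn_symm (SBX1.conn_of hca)) (hBs.trans hcx)
      k1 k2 hnl k4 ((hBs.trans hcx).trans ((SBQ.le_h μ hc).trans k5))
    have hZ1 := hZ M μ μ' C a f (Bb M ^ (l + 1)) hs (SBQ.Bpow_pos M _)
    have e := congrFun hy (l + 1)
    simp only [St.yv, St.Y] at e
    omega
  have hxf : μ.x (f.1, true) = 0 := by rw [SBX1.x_fst]; exact hs.free
  constructor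
  · rw [pot_eq, pot_eq]
    have hf1 : f.1 ∈ (Finset.univ : Finset (Fin M)) := Finset.mem_univ _
    have ha1 : a.1 ∈ (Finset.univ : Finset (Fin M)).erase f.1 :=
      Finset.mem_erase.2 ⟨hne, Finset.mem_univ _⟩
    rw [← Finset.add_sum_erase _ _ hf1, ← Finset.add_sum_erase _ _ ha1,
      ← Finset.add_sum_erase _ (fun i => tm μ (μ.x (i, true))) hf1,
      ← Finset.add_sum_erase _ (fun i => tm μ (μ.x (i, true))) ha1]
    have hrest : ∑ i ∈ ((Finset.univ : Finset (Fin M)).erase f.1).erase a.1,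
        tm μ' (μ'.x (i, true)) = ∑ i ∈ ((Finset.univ : Finset (Fin M)).erase f.1).erase a.1,
        tm μ (μ.x (i, true)) := by
      refine Finset.sum_congr rfl fun i hi => ?_
      rw [Finset.mem_erase, Finset.mem_erase] at hi
      rw [tm_congr hy, w3 (i, true) hi.1 hi.2.1]
    rw [hrest, tm_congr hy, tm_congr hy, SBX1.x_fst, SBX1.x_fst, SBX1.x_fst, SBX1.x_fst, w2]
    have := tm_add μ w1 (Or.inr hba) (Or.inr hbn)
    omega
  · unfold St.unused
    apply Finset.card_lt_card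
    rw [Finset.ssubset_iff_of_subset]
    · refine ⟨f.1, by simp [hxf], ?_⟩
      simp only [Finset.mem_filter, Finset.mem_univ, true_and]
      rw [SBX1.x_fst, w2]
      omega
    · intro i hi
      simp only [Finset.mem_filter, Finset.mem_univ, true_and] at hi ⊢
      by_cases hif : i = f.1
      · rw [hif]; exact hxf
      · by_cases hia : i = a.1
        · rw [hia, SBX1.x_fst] at hi
          omega
        · rw [← hi]
          exact (w3 (i, true) hia hif).symm

/-- Splits. -/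
theorem split_case (hJ : JumpStmt) (hY : YScaleStmt) (hBd : BandStmt) (hW : WSplitStmt)
    (hZ : ZSplitStmt) (hSS : StrictSplitStmt) (hBS : BandSplitStmt) {μ μ' : St M}
    {C : Letter M → Bool} {a f : Letter M} (hC : μ.Cand C a)
    (hmin : ∀ C' a', μ.Cand C' a' → μ.h C ≤ μ.h C')
    (h1 : ¬ (μ.h C ≤ μ.x a ∧ μ.h C ≤ Kk M * μ.n C a))
    (h2 : μ.Conn a (linv a) → Kk M * μ.n C a < μ.x a) (hs : ASplit μ μ' C a f)
    (hy : μ'.yv = μ.yv) : μ'.Pot ≤ μ.Pot ∧ μ'.unused < μ.unused := by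
  by_cases hh : Kk M * μ.n C a < μ.h C
  · exact (split_struct hW hZ hSS hC hmin h2 hs hy hh).elim
  · have h3 : μ.x a < μ.h C := by
      by_contra hcon
      exact h1 ⟨by omega, by omega⟩
    refine split_mild hJ hY hBd hW hZ hBS hC hmin ?_ (by omega) hs hy
    intro hl
    have := h2 hl
    omega

end SBP

end Pool.Agent.Lib.MP_0c2883_lc.All
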