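import Pool.Agent.Lib.MP_0c2883_lc.All.Stmts

/-!
# SG: definitions and statements of the three parts (UL, LINK, GG)

The cyclic word `w₀` of length `N` is written as an `N`-periodic function on `ℤ`. At a later time every
position `k : ℤ` has a current name `nm k : Option (Letter M)` (`none`: deleted).
A boundary point `b : ℤ` lies between the positions `b` and `b + 1`.
-/

set_option autoImplicit false

namespace Pool.Agent.Lib.MP_0c2883_lc.All.SG

open Pool.Agent.Lib.PolyTime List Pool.Agent.Lib.MP_0c2883_lc.All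

variable {M : ℕ}

/-- The status of the boundary point `b`: the last alive position `≤ b` is `b - o`, its name is `p⁻¹`;
the first alive position `> b` is `b + 1 + e`, its name is `r`. The turn of `b` is `(p, r)`. -/
def St (nm : ℤ → Option (Letter M)) (b : ℤ) (p r : Letter M) (o e : ℕ) : Prop :=
  nm (b - o) = some (linv p) ∧ nm (b + 1 + e) = some r ∧ ∀ j : ℤ, b - o < j → j < b + 1 + e → nm j = none

/-- All boundary points `b, b + 1, ..., b + L` have their turn in `S`. -/
def Pure (nm : ℤ → Option (Letter M)) (S : Finset (Letter M × Letter M)) (b : ℤ) (L : ℕ) : Prop :=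
  ∀ j : ℕ, j ≤ L → ∃ p r o e, St nm (b + j) p r o e ∧ (p, r) ∈ S

/-- The total volume of a set of turns. -/
def VS (vol : Letter M × Letter M → ℕ) (S : Finset (Letter M × Letter M)) : ℕ := ∑ τ ∈ S, vol τ

/-- The uniform lookup property. -/
def UL (c : ℤ → Letter M) (nm : ℤ → Option (Letter M)) (vol : Letter M × Letter M → ℕ) : Prop :=
  ∀ (S : Finset (Letter M × Letter M)) (b b' : ℤ) (L : ℕ), Pure nm S b L → Pure nm S b' L →
    (∀ j : ℕ, 1 ≤ j → j ≤ L → c (b + j) = c (b' + j)) →
    ∀ j : ℕ, VS vol S ≤ j → j + VS vol S ≤ L → ∀ p r o e,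
      St nm (b + j) p r o e → St nm (b' + j) p r o e

/-- The invariant of the names. `c` is the periodic original word. -/
structure Inv (c : ℤ → Letter M) (nm : ℤ → Option (Letter M)) (vol : Letter M × Letter M → ℕ) :
    Prop where
  total : ∀ b, ∃ p r o e, St nm b p r o e
  red : ∀ b p r o e, St nm b p r o e → p ≠ r
  gap : ∀ b p r o e, St nm b p r o e → o + e + 1 = vol (p, r)
  pos : ∀ τ, 1 ≤ vol τ
  ul : UL c nm vol

/-- `Ok` in terms of names. -/
structure OkNm (nm : ℤ → Option (Letter M)) (C : Letter M → Bool) (a : Letter M) : Prop where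
  a_not : C a = false
  a_inv_not : C (linv a) = false
  bd : ∀ b p r o e, St nm b p r o e → C p = true → C r = false → r = a
  bd' : ∀ b p r o e, St nm b p r o e → C p = false → C r = true → p = a

/-- The position `k` is alive with name `x`, and the previous and next alive names are `y`, `z`. -/
def Trip (nm : ℤ → Option (Letter M)) (k : ℤ) (y x z : Letter M) : Prop :=
  (∃ o, St nm (k - 1) (linv y) x o 0) ∧ ∃ e, St nm k (linv x) z 0 e

/-- The elementary operation on names. -/
def StepNm (C : Letter M → Bool) (a : Letter M) (g : Option (Letter M))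
    (nm nm' : ℤ → Option (Letter M)) : Prop :=
  (∀ k, nm k = none → nm' k = none) ∧
    ∀ k y x z, Trip nm k y x z → nm' k = opL C a g (y, (x, z))

/-- Slides (`g = none`) and splits (`g = some f` with a fresh letter `f`). -/
def Fresh (nm : ℤ → Option (Letter M)) (C : Letter M → Bool) (a : Letter M) (g : Option (Letter M)) :
    Prop :=
  ∀ f, g = some f → (∀ k x, nm k = some x → x.1 ≠ f.1) ∧ C f = false ∧ C (linv f) = false ∧ a.1 ≠ f.1

/-- The names of the alive positions among `b + 1, ..., b + L`. -/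
def aw (nm : ℤ → Option (Letter M)) (b : ℤ) (L : ℕ) : List (Letter M) :=
  (List.range L).filterMap (fun i : ℕ => nm (b + 1 + (i : ℤ)))

/-- `w` is, up to rotation, the word of alive names in one period. -/
def Rep (N : ℕ) (nm : ℤ → Option (Letter M)) (w : List (Letter M)) : Prop :=
  0 < N ∧ (∀ k, nm (k + N) = nm k) ∧ ∃ b : ℤ, (nm b).isSome ∧ w ~r aw nm b N

/-- UL: the invariant is preserved by elementary steps. -/
def ULStmt : Prop := ∀ (M : ℕ) (c : ℤ → Letter M) (nm nm' : ℤ → Option (Letter M))
  (vol : Letter M × Letter M → ℕ) (C : Letter M → Bool) (a : Letter M) (g : Option (Letter M)),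
  Inv c nm vol → OkNm nm C a → Fresh nm C a g → StepNm C a g nm nm' → ∃ vol', Inv c nm' vol'

/-- UL0: the invariant at time `0`. -/
def UL0Stmt : Prop := ∀ (M : ℕ) (c : ℤ → Letter M), (∀ k, c (k + 1) ≠ linv (c k)) →
  Inv c (fun k => some (c k)) (fun _ => 1)

/-- LINK: an elementary step of cyclic words is an elementary step of names. -/
def LinkStmt : Prop := ∀ (M N : ℕ) (nm : ℤ → Option (Letter M)) (w w' : List (Letter M)),
  (∀ b p r o e, St nm b p r o e → p ≠ r) → Rep N nm w → Step1 w w' →
    ∃ (C : Letter M → Bool) (a : Letter M) (g : Option (Letter M)) (nm' : ℤ → Option (Letter M)),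
      OkNm nm C a ∧ Fresh nm C a g ∧ StepNm C a g nm nm' ∧ Rep N nm' w'

/-- LINK0: the periodic word of a cyclically reduced word. -/
def Link0Stmt : Prop := ∀ (M : ℕ) (w : List (Letter M)), CR w → w ≠ [] →
  ∃ c : ℤ → Letter M, (∀ k, c (k + w.length) = c k) ∧ (∀ k, c (k + 1) ≠ linv (c k)) ∧
    (∀ i : ℕ, ∀ h : i < w.length, c i = w[i]) ∧ Rep w.length (fun k => some (c k)) w

/-- The letters `c (b + 1), ..., c (b + L)`. -/
def cw (c : ℤ → Letter M) (b : ℤ) (L : ℕ) : List (Letter M) := (List.range L).map (fun i : ℕ => c (b + 1 + (i : ℤ)))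

/-- GG: grammars of the words of alive names. -/
def GGStmt : Prop := ∀ M k : ℕ, ∃ P : ℕ → ℕ, PB P ∧ ∀ (c : ℤ → Letter M)
  (nm : ℤ → Option (Letter M)) (vol : Letter M × Letter M → ℕ), Inv c nm vol →
  ∀ (S : Finset (Letter M × Letter M)), S.card ≤ k → ∀ (b : ℤ) (L n : ℕ), Pure nm S b L →
    HasSLP n (cw c b L) → HasSLP (P n) (aw nm b L)

end Pool.Agent.Lib.MP_0c2883_lc.All.SG
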